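import Mathlib

/-!
# Steering a planar walk with steps `±(1/n, 1/√n)` to an arbitrary point
-/

open Filter Topology

namespace Pool.Agent.V11101.Steer

/-- a real sequence with harmonic decrements is unbounded below -/
lemma no_lower (e : ℕ → ℝ) (c B : ℝ) (hc : 0 < c) (m J : ℕ)
    (h : ∀ j, J ≤ j → e (j + 1) ≤ e j - c / ((m : ℝ) + j + 1)) (hB : ∀ j, J ≤ j → B ≤ e j) :
    False := by
  -- the sums
  have h1 : ∀ n : ℕ, e (J + n) ≤ e J - c / ((m : ℝ) + J + 1) *
      ∑ i ∈ Finset.range n, (1 : ℝ) / ((i : ℝ) + 1) := by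
    intro n
    induction n with
    | zero => simp
    | succ n ih =>
      have h2 := h (J + n) (Nat.le_add_right _ _)
      rw [Finset.sum_range_succ, mul_add]
      have h3 : c / ((m : ℝ) + J + 1) * ((1 : ℝ) / ((n : ℝ) + 1)) ≤
          c / ((m : ℝ) + ((J + n : ℕ) : ℝ) + 1) := by
        rw [div_mul_div_comm, mul_one]
        refine div_le_div_of_nonneg_left hc.le (by positivity) ?_
        push_cast
        have hm : (0 : ℝ) ≤ m := Nat.cast_nonneg _
        have hJ : (0 : ℝ) ≤ J := Nat.cast_nonneg _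
        have hn : (0 : ℝ) ≤ n := Nat.cast_nonneg _
        nlinarith [mul_nonneg hm hn, mul_nonneg hJ hn]
      have h4 : e (J + (n + 1)) = e (J + n + 1) := by rw [Nat.add_assoc]
      rw [h4]
      linarith
  have h2 := Real.tendsto_sum_range_one_div_nat_succ_atTop
  have hc' : 0 < c / ((m : ℝ) + J + 1) := by positivity
  obtain ⟨n, hn⟩ := (h2.eventually_gt_atTop ((e J - B) / (c / ((m : ℝ) + J + 1)))).exists
  have h3 := h1 n
  have h4 := hB (J + n) (Nat.le_add_right _ _)
  rw [div_lt_iff₀ hc'] at hn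
  nlinarith

/-- the scale -/
noncomputable def r (K j : ℕ) : ℝ := √(2 * ((K : ℝ) + j))

lemma r_sq (K j : ℕ) : r K j ^ 2 = 2 * ((K : ℝ) + j) := Real.sq_sqrt (by positivity)

lemma r_succ_sq (K j : ℕ) : r K (j + 1) ^ 2 = r K j ^ 2 + 2 := by
  rw [r_sq, r_sq]; push_cast; ring

lemma r_nonneg (K j : ℕ) : 0 ≤ r K j := Real.sqrt_nonneg _

/-- the controlled dynamics -/
structure Dyn (K : ℕ) (u E : ℕ → ℝ) : Prop where
  hK : 100 ≤ r K 0
  u0 : |u 0| ≤ r K 0 / 100
  step_le : ∀ j, |u (j + 1) - u j| ≤ 1 / r K j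
  step_ge : ∀ j, 99 / 100 / r K j ≤ |u (j + 1) - u j|
  up : ∀ j, u j - 3 / 2 * r K j * E j < 0 → u j ≤ u (j + 1)
  down : ∀ j, 0 < u j - 3 / 2 * r K j * E j → u (j + 1) ≤ u j
  err : ∀ j, |E (j + 1) - E j + u j * (1 / r K j - 1 / r K (j + 1))| ≤ 1 / r K j ^ 4

namespace Dyn

variable {K : ℕ} {u E : ℕ → ℝ}

lemma r_mono (K j : ℕ) : r K j ≤ r K (j + 1) := by
  unfold r
  refine Real.sqrt_le_sqrt ?_
  push_cast
  linarith

lemma r_ge (D : Dyn K u E) (j : ℕ) : 100 ≤ r K j := by
  induction j with
  | zero => exact D.hK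
  | succ j ih => exact ih.trans (r_mono K j)

/-- `t = r⁺ - r` -/
lemma t_le (D : Dyn K u E) (j : ℕ) : r K (j + 1) - r K j ≤ 1 / r K j := by
  have h1 := D.r_ge j
  have h2 := r_mono K j
  have h3 := r_succ_sq K j
  rw [le_div_iff₀ (by linarith)]
  nlinarith

lemma t_ge (D : Dyn K u E) (j : ℕ) : 1 / r K (j + 1) ≤ r K (j + 1) - r K j := by
  have h1 := D.r_ge j
  have h2 := r_mono K j
  have h3 := r_succ_sq K j
  rw [div_le_iff₀ (by linarith)]
  nlinarith

lemma rp_le (D : Dyn K u E) (j : ℕ) : r K (j + 1) ≤ 10001 / 10000 * r K j := by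
  have h1 := D.r_ge j
  have h2 := D.t_le j
  have h3 : 1 / r K j ≤ 1 / 10000 * r K j := by
    rw [div_le_iff₀ (by linarith)]
    nlinarith
  linarith

lemma neg (D : Dyn K u E) : Dyn K (fun j => - u j) (fun j => - E j) where
  hK := D.hK
  u0 := by
    show |(- u 0)| ≤ _
    rw [abs_neg]; exact D.u0
  step_le := fun j => by
    show |(- u (j + 1)) - (- u j)| ≤ _
    rw [show (- u (j + 1)) - (- u j) = -(u (j + 1) - u j) by ring, abs_neg]
    exact D.step_le j
  step_ge := fun j => by
    show _ ≤ |(- u (j + 1)) - (- u j)|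
    rw [show (- u (j + 1)) - (- u j) = -(u (j + 1) - u j) by ring, abs_neg]
    exact D.step_ge j
  up := fun j h => by
    have h' : - u j - 3 / 2 * r K j * (- E j) < 0 := h
    have := D.down j (by linarith)
    show - u j ≤ - u (j + 1)
    linarith
  down := fun j h => by
    have h' : 0 < - u j - 3 / 2 * r K j * (- E j) := h
    have := D.up j (by linarith)
    show - u (j + 1) ≤ - u j
    linarith
  err := fun j => by
    show |(- E (j + 1)) - (- E j) + (- u j) * _| ≤ _
    rw [show (- E (j + 1)) - (- E j) + (- u j) * (1 / r K j - 1 / r K (j + 1)) =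
      -(E (j + 1) - E j + u j * (1 / r K j - 1 / r K (j + 1))) by ring, abs_neg]
    exact D.err j


/-- the switching function -/
noncomputable def F (K : ℕ) (u E : ℕ → ℝ) (j : ℕ) : ℝ := u j - 3 / 2 * r K j * E j

/-- basic numerical facts on one step -/
lemma consts (D : Dyn K u E) (j : ℕ) :
    ∃ t : ℝ, r K (j + 1) = r K j + t ∧ 0 < t ∧ t * r K j ≤ 1 ∧ 1 ≤ t * r K (j + 1) := by
  have h1 := D.r_ge j
  have h2 := D.r_ge (j + 1)
  refine ⟨r K (j + 1) - r K j, by ring, ?_, ?_, ?_⟩
  · have := D.t_ge j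
    have h3 : 0 < 1 / r K (j + 1) := by positivity
    linarith
  · have := D.t_le j
    rwa [le_div_iff₀ (by linarith)] at this
  · have := D.t_ge j
    rwa [div_le_iff₀ (by linarith)] at this

/-- recursion for `E` -/
lemma E_rec (D : Dyn K u E) (j : ℕ) :
    ∃ η t : ℝ, |η| ≤ 1 / r K j ^ 4 ∧ r K (j + 1) = r K j + t ∧ 0 < t ∧ t * r K j ≤ 1 ∧
      1 ≤ t * r K (j + 1) ∧
      E (j + 1) = E j - u j * (t / (r K j * r K (j + 1))) + η ∧
      E (j + 1) = E j * (1 - 3 / 2 * (t / r K (j + 1))) -
        F K u E j * (t / (r K j * r K (j + 1))) + η ∧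
      F K u E (j + 1) = F K u E j + (u (j + 1) - u j) +
        3 / 2 * t * (F K u E j / r K j + E j / 2) - 3 / 2 * r K (j + 1) * η := by
  obtain ⟨t, ht, h0, h1, h2⟩ := D.consts j
  have hr := D.r_ge j
  have hR := D.r_ge (j + 1)
  have hr0 : r K j ≠ 0 := by linarith
  have hR0 : r K (j + 1) ≠ 0 := by linarith
  refine ⟨E (j + 1) - E j + u j * (1 / r K j - 1 / r K (j + 1)), t, D.err j, ht, h0, h1, h2, ?_,
    ?_, ?_⟩
  · have : t = r K (j + 1) - r K j := by linarith
    rw [this]
    field_simp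
    ring
  · have : t = r K (j + 1) - r K j := by linarith
    unfold F
    rw [this]
    field_simp
    ring
  · have : t = r K (j + 1) - r K j := by linarith
    unfold F
    rw [this]
    field_simp
    ring


/-- constants for inverses -/
lemma inv_consts {r R t : ℝ} (hr : 100 ≤ r) (hR : R = r + t) (ht : 0 < t) (h1 : t * r ≤ 1)
    (h2 : 1 ≤ t * R) :
    0 < 1 / r ∧ 1 / r ≤ 1 / 100 ∧ t ≤ 1 / r ∧ 1 / R ≤ t ∧ 1 / R ≤ 1 / r ∧
      9999 / 10000 * (1 / r) ≤ 1 / R := by
  have hr0 : 0 < r := by linarith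
  have hR0 : 0 < R := by linarith
  refine ⟨by positivity, ?_, ?_, ?_, ?_, ?_⟩
  · exact one_div_le_one_div_of_le (by norm_num) hr
  · rwa [le_div_iff₀ hr0]
  · rwa [div_le_iff₀ hR0]
  · exact one_div_le_one_div_of_le hr0 (by linarith)
  · rw [le_div_iff₀ hR0, mul_assoc, one_div, inv_mul_eq_div, ← le_div_iff₀' (by norm_num),
      div_le_iff₀ hr0]
    have : t ≤ 1 / 100 := by
      have : t * 100 ≤ t * r := mul_le_mul_of_nonneg_left hr ht.le
      linarith
    nlinarith

lemma inv_E {r R t E E' F η : ℝ} (hr : 100 ≤ r) (hR : R = r + t) (ht : 0 < t) (h1 : t * r ≤ 1)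
    (h2 : 1 ≤ t * R) (hη : |η| ≤ 1 / r ^ 4) (hF : |F| ≤ 3 / r)
    (hE' : E' = E * (1 - 3 / 2 * (t / R)) - F * (t / (r * R)) + η) :
    |E'| ≤ |E| * (1 - 3 / 2 * (t * (1 / R))) + 4 * (1 / r) ^ 4 := by
  obtain ⟨c1, c2, c3, c4, c5, c6⟩ := inv_consts hr hR ht h1 h2
  have e1 : t / R = t * (1 / R) := by ring
  have e2 : t / (r * R) = t * (1 / r) * (1 / R) := by
    rw [mul_assoc, one_div_mul_one_div]; ring
  have e3 : 1 / r ^ 4 = (1 / r) ^ 4 := by rw [one_div_pow]
  have e4 : 3 / r = 3 * (1 / r) := by ring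
  rw [e1, e2] at hE'
  rw [e3] at hη
  rw [e4] at hF
  set w := 1 / r with hw
  set W := 1 / R with hW
  have hW0 : 0 < W := by
    have : 0 < R := by linarith
    positivity
  have g1 : 0 ≤ 1 - 3 / 2 * (t * W) := by
    have : t * W ≤ 1 / 100 * (1 / 100) := mul_le_mul (by linarith) (by linarith) hW0.le (by norm_num)
    linarith
  have g2 : |E * (1 - 3 / 2 * (t * W))| = |E| * (1 - 3 / 2 * (t * W)) := by
    rw [abs_mul, abs_of_nonneg g1]
  have g3 : |F * (t * w * W)| ≤ 3 * w ^ 4 := by
    rw [abs_mul, abs_of_nonneg (by positivity : 0 ≤ t * w * W)]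
    calc |F| * (t * w * W) ≤ (3 * w) * (w * w * w) := by
          refine mul_le_mul hF ?_ (by positivity) (by positivity)
          refine mul_le_mul (mul_le_mul_of_nonneg_right c3 c1.le) c5 hW0.le (by positivity)
      _ = 3 * w ^ 4 := by ring
  rw [hE']
  calc |E * (1 - 3 / 2 * (t * W)) - F * (t * w * W) + η|
      ≤ |E * (1 - 3 / 2 * (t * W)) - F * (t * w * W)| + |η| := abs_add_le _ _
    _ ≤ |E * (1 - 3 / 2 * (t * W))| + |F * (t * w * W)| + |η| := by
        gcongr; exact abs_sub _ _
    _ ≤ _ := by rw [g2]; linarith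

lemma inv_F {r R t E F F' d η : ℝ} (hr : 100 ≤ r) (hR : R = r + t) (ht : 0 < t) (h1 : t * r ≤ 1)
    (h2 : 1 ≤ t * R) (hη : |η| ≤ 1 / r ^ 4) (hF : |F| ≤ 3 / r) (hE : |E| ≤ 1)
    (hd : |d| ≤ 1 / r) (hd' : 99 / 100 / r ≤ |d|) (hup : F < 0 → 0 ≤ d) (hdn : 0 < F → d ≤ 0)
    (hF' : F' = F + d + 3 / 2 * t * (F / r + E / 2) - 3 / 2 * R * η) :
    |F'| ≤ 3 / R := by
  obtain ⟨c1, c2, c3, c4, c5, c6⟩ := inv_consts hr hR ht h1 h2
  have e3 : 1 / r ^ 4 = (1 / r) ^ 4 := by rw [one_div_pow]
  have e4 : 3 / r = 3 * (1 / r) := by ring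
  have e5 : 3 / R = 3 * (1 / R) := by ring
  have e6 : F / r = F * (1 / r) := by ring
  have e7 : 99 / 100 / r = 99 / 100 * (1 / r) := by ring
  have hr0 : r * (1 / r) = 1 := by
    rw [mul_one_div, div_self (by linarith)]
  rw [e3] at hη
  rw [e4] at hF
  rw [e7] at hd'
  rw [e6] at hF'
  rw [e5]
  set w := 1 / r with hw
  set W := 1 / R with hW
  have hR2 : R ≤ 2 * r := by linarith
  have g1 : |3 / 2 * R * η| ≤ w * (1 / 1000) := by
    rw [abs_mul, abs_of_nonneg (by linarith : 0 ≤ 3 / 2 * R)]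
    calc 3 / 2 * R * |η| ≤ 3 / 2 * (2 * r) * w ^ 4 := by
          refine mul_le_mul (by linarith) hη (abs_nonneg _) (by positivity)
      _ = 3 * (r * w) * w ^ 3 := by ring
      _ = 3 * w * w ^ 2 := by rw [hr0]; ring
      _ ≤ 3 * w * (1 / 100) ^ 2 := by gcongr
      _ ≤ w * (1 / 1000) := by nlinarith
  have g2 : |3 / 2 * t * (F * w + E / 2)| ≤ w * (752 / 1000) := by
    rw [abs_mul, abs_of_nonneg (by positivity : 0 ≤ 3 / 2 * t)]
    have g3 : |F * w + E / 2| ≤ 1 / 2 + 3 / 10000 := by
      refine (abs_add_le _ _).trans ?_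
      rw [abs_mul, abs_of_pos c1, abs_div, abs_of_pos (by norm_num : (0 : ℝ) < 2)]
      have : |F| * w ≤ 3 * (1 / 100) * (1 / 100) :=
        mul_le_mul (by linarith) c2 c1.le (by norm_num)
      linarith
    calc 3 / 2 * t * |F * w + E / 2| ≤ 3 / 2 * w * (1 / 2 + 3 / 10000) := by
          refine mul_le_mul (by linarith) g3 (abs_nonneg _) (by positivity)
      _ ≤ w * (752 / 1000) := by nlinarith
  rw [abs_le] at g1 g2 hF hd
  rw [hF', abs_le]
  rcases lt_trichotomy F 0 with h | h | h
  · have := hup h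
    rw [abs_of_nonneg this] at hd'
    constructor <;> linarith
  · constructor <;> linarith
  · have := hdn h
    rw [abs_of_nonpos this] at hd'
    constructor <;> linarith

/-- invariance of the target region -/
lemma inv_step (D : Dyn K u E) (j : ℕ) (hE : |E j| ≤ 1) (hF : |F K u E j| ≤ 3 / r K j) :
    |E (j + 1)| ≤ 1 ∧ |F K u E (j + 1)| ≤ 3 / r K (j + 1) ∧
      r K (j + 1) * |E (j + 1)| + 10 / r K (j + 1) ≤
        (r K j * |E j| + 10 / r K j) - 49 / 100 * (r K j * |E j|) / r K j ^ 2 := by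
  obtain ⟨η, t, hη, hR, ht, h1, h2, -, hE1, hF1⟩ := D.E_rec j
  have hr := D.r_ge j
  have kE := inv_E hr hR ht h1 h2 hη hF hE1
  have kF := inv_F hr hR ht h1 h2 hη hF hE (D.step_le j) (D.step_ge j)
    (fun h => sub_nonneg.mpr (D.up j h)) (fun h => sub_nonpos.mpr (D.down j h)) hF1
  obtain ⟨c1, c2, c3, c4, c5, c6⟩ := inv_consts hr hR ht h1 h2
  have hr0 : r K j * (1 / r K j) = 1 := by
    rw [mul_one_div, div_self (by linarith)]
  have hR0 : r K (j + 1) * (1 / r K (j + 1)) = 1 := by
    rw [mul_one_div, div_self (by linarith)]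
  have e1 : 10 / r K (j + 1) = 10 * (1 / r K (j + 1)) := by ring
  have e2 : 10 / r K j = 10 * (1 / r K j) := by ring
  have e3 : 49 / 100 * (r K j * |E j|) / r K j ^ 2 = 49 / 100 * |E j| * (1 / r K j) := by
    field_simp
  refine ⟨?_, kF, ?_⟩
  · refine kE.trans ?_
    set w := 1 / r K j with hw
    set W := 1 / r K (j + 1) with hW
    have hW0 : 0 < W := by linarith
    have g1 : w ^ 2 * (99 / 100) ≤ t * W := by
      calc w ^ 2 * (99 / 100) ≤ (9999 / 10000 * w) * (9999 / 10000 * w) := by nlinarith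
        _ ≤ t * W := mul_le_mul (by linarith) c6 (by positivity) ht.le
    have g2 : w ^ 4 ≤ w ^ 2 * (1 / 10000) := by
      calc w ^ 4 = w ^ 2 * w ^ 2 := by ring
        _ ≤ w ^ 2 * (1 / 100) ^ 2 := by gcongr
        _ = _ := by norm_num
    have g3 : 0 ≤ 1 - 3 / 2 * (t * W) := by
      have : t * W ≤ 1 / 100 * (1 / 100) :=
        mul_le_mul (by linarith) (by linarith) hW0.le (by norm_num)
      linarith
    have g4 : |E j| * (1 - 3 / 2 * (t * W)) ≤ 1 * (1 - 3 / 2 * (t * W)) :=
      mul_le_mul_of_nonneg_right hE g3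
    nlinarith [sq_nonneg w]
  · rw [e1, e2, e3]
    have k1 : r K (j + 1) * |E (j + 1)| ≤ r K (j + 1) *
        (|E j| * (1 - 3 / 2 * (t * (1 / r K (j + 1)))) + 4 * (1 / r K j) ^ 4) :=
      mul_le_mul_of_nonneg_left kE (r_nonneg _ _)
    have k2 : r K (j + 1) *
        (|E j| * (1 - 3 / 2 * (t * (1 / r K (j + 1)))) + 4 * (1 / r K j) ^ 4) =
        |E j| * (r K j - 1 / 2 * t) + 4 * r K (j + 1) * (1 / r K j) ^ 4 := by
      have : r K (j + 1) *
        (|E j| * (1 - 3 / 2 * (t * (1 / r K (j + 1)))) + 4 * (1 / r K j) ^ 4) =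
        |E j| * (r K (j + 1) - 3 / 2 * t * (r K (j + 1) * (1 / r K (j + 1)))) +
          4 * r K (j + 1) * (1 / r K j) ^ 4 := by ring
      rw [this, hR0, hR]
      ring
    have hRle : r K (j + 1) ≤ 10001 / 10000 * r K j := D.rp_le j
    have k3 : r K (j + 1) * (1 / r K j) ^ 4 ≤ 10001 / 10000 * (1 / r K j) ^ 3 := by
      calc r K (j + 1) * (1 / r K j) ^ 4 ≤ 10001 / 10000 * r K j * (1 / r K j) ^ 4 := by gcongr
        _ = 10001 / 10000 * (r K j * (1 / r K j)) * (1 / r K j) ^ 3 := by ring
        _ = _ := by rw [hr0]; ring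
    have k4 : 1 / r K j - 1 / r K (j + 1) = t * (1 / r K j) * (1 / r K (j + 1)) := by
      have : t = r K (j + 1) - r K j := by linarith
      rw [this]
      have : t * (1 / r K j) * (1 / r K (j + 1)) = t * (1 / r K j) * (1 / r K (j + 1)) := rfl
      have hp : r K j ≠ 0 := by linarith
      have hq : r K (j + 1) ≠ 0 := by linarith
      field_simp
    have k5 : (99 / 100) * (1 / r K j) ^ 3 ≤ t * (1 / r K j) * (1 / r K (j + 1)) := by
      set w := 1 / r K j with hw
      set W := 1 / r K (j + 1) with hW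
      have g1 : w ^ 2 * (99 / 100) ≤ t * W := by
        calc w ^ 2 * (99 / 100) ≤ (9999 / 10000 * w) * (9999 / 10000 * w) := by nlinarith
          _ ≤ t * W := mul_le_mul (by linarith) c6 (by positivity) ht.le
      calc (99 / 100) * w ^ 3 = w * (w ^ 2 * (99 / 100)) := by ring
        _ ≤ w * (t * W) := by gcongr
        _ = _ := by ring
    have k6 : 49 / 100 * |E j| * (1 / r K j) ≤ |E j| * (1 / 2 * t) := by
      calc 49 / 100 * |E j| * (1 / r K j) = |E j| * (49 / 100 * (1 / r K j)) := by ring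
        _ ≤ |E j| * (1 / 2 * t) := by
          gcongr ?_ * ?_
          linarith
    have k7 : 0 ≤ (1 / r K j) ^ 3 := by positivity
    nlinarith


/-- once in the target region, convergence to `0` -/
lemma conv (D : Dyn K u E) (J : ℕ) (hE : |E J| ≤ 1) (hF : |F K u E J| ≤ 3 / r K J) :
    Tendsto u atTop (𝓝 0) ∧ Tendsto E atTop (𝓝 0) := by
  have hinv : ∀ n, |E (J + n)| ≤ 1 ∧ |F K u E (J + n)| ≤ 3 / r K (J + n) := by
    intro n
    induction n with
    | zero => exact ⟨hE, hF⟩
    | succ n ih =>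
      have := D.inv_step (J + n) ih.1 ih.2
      exact ⟨this.1, this.2.1⟩
  have hinv' : ∀ j, J ≤ j → |E j| ≤ 1 ∧ |F K u E j| ≤ 3 / r K j := by
    intro j hj
    obtain ⟨n, rfl⟩ := Nat.exists_eq_add_of_le hj
    exact hinv n
  -- the Lyapunov function
  set T : ℕ → ℝ := fun j => r K j * |E j| + 10 / r K j with hT
  have hstep : ∀ j, J ≤ j → T (j + 1) ≤ T j - 49 / 100 * (r K j * |E j|) / r K j ^ 2 :=
    fun j hj => (D.inv_step j (hinv' j hj).1 (hinv' j hj).2).2.2
  have hrinf : Tendsto (fun j => 1 / r K j) atTop (𝓝 0) := by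
    have : Tendsto (fun j : ℕ => r K j) atTop atTop := by
      unfold r
      refine Real.tendsto_sqrt_atTop.comp ?_
      refine Tendsto.const_mul_atTop (by norm_num) ?_
      exact tendsto_atTop_add_const_left _ _ tendsto_natCast_atTop_atTop
    simp only [one_div]
    exact tendsto_inv_atTop_zero.comp this
  -- `G → 0`
  have hG : Tendsto (fun j => r K j * |E j|) atTop (𝓝 0) := by
    have hanti : Antitone fun n => T (J + n) := by
      refine antitone_nat_of_succ_le fun n => ?_
      have h1 := hstep (J + n) (Nat.le_add_right _ _)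
      have h2 : 0 ≤ 49 / 100 * (r K (J + n) * |E (J + n)|) / r K (J + n) ^ 2 := by
        have := r_nonneg K (J + n)
        positivity
      show T (J + n + 1) ≤ T (J + n)
      linarith
    have hbdd : BddBelow (Set.range fun n => T (J + n)) := by
      refine ⟨0, ?_⟩
      rintro _ ⟨n, rfl⟩
      have := r_nonneg K (J + n)
      show 0 ≤ T (J + n)
      simp only [hT]
      positivity
    have hlim := tendsto_atTop_ciInf hanti hbdd
    set L := ⨅ n, T (J + n) with hL
    have hlim' : Tendsto T atTop (𝓝 L) := by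
      have : Tendsto (fun n => T (n + J)) atTop (𝓝 L) := by
        simpa only [add_comm] using hlim
      exact (tendsto_add_atTop_iff_nat J).1 this
    have hGL : Tendsto (fun j => r K j * |E j|) atTop (𝓝 L) := by
      have h1 : Tendsto (fun j => T j - 10 * (1 / r K j)) atTop (𝓝 (L - 10 * 0)) :=
        hlim'.sub (hrinf.const_mul 10)
      rw [mul_zero, sub_zero] at h1
      refine h1.congr fun j => ?_
      simp only [hT]
      ring
    have hL0 : 0 ≤ L := ge_of_tendsto hGL (Eventually.of_forall fun j => by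
      have := r_nonneg K j
      positivity)
    rcases hL0.eq_or_lt with h | h
    · rwa [← h] at hGL
    · exfalso
      have hev : ∀ᶠ j in atTop, L / 2 < r K j * |E j| := hGL.eventually_const_lt (by linarith)
      obtain ⟨J', hJ'⟩ := (hev.and (eventually_ge_atTop J)).exists_forall_of_atTop
      refine no_lower T (L / 10) 0 (by positivity) K J' (fun j hj => ?_) (fun j hj => ?_)
      · obtain ⟨h1, h2⟩ := hJ' j hj
        refine (hstep j h2).trans ?_
        have h3 := r_sq K j
        have hr := D.r_ge j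
        have h4 : L / 10 / ((K : ℝ) + j + 1) ≤ 49 / 100 * (r K j * |E j|) / r K j ^ 2 := by
          have h5 : 0 < (K : ℝ) + j := by nlinarith
          calc L / 10 / ((K : ℝ) + j + 1) ≤ L / 10 / ((K : ℝ) + j) := by
                refine div_le_div_of_nonneg_left (by positivity) h5 (by linarith)
            _ = (L / 5) / r K j ^ 2 := by rw [h3]; field_simp; ring
            _ ≤ _ := by
              refine div_le_div_of_nonneg_right ?_ (by positivity)
              linarith
        linarith
      · simp only [hT]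
        have := r_nonneg K j
        positivity
  constructor
  · refine squeeze_zero_norm' (a := fun j => 3 * (1 / r K j) + 3 / 2 * (r K j * |E j|)) ?_ ?_
    · filter_upwards [eventually_ge_atTop J] with j hj
      have h1 := (hinv' j hj).2
      have h2 : u j = F K u E j + 3 / 2 * (r K j * E j) := by unfold F; ring
      rw [Real.norm_eq_abs, h2]
      refine (abs_add_le _ _).trans ?_
      rw [abs_mul, abs_mul, abs_of_nonneg (r_nonneg K j),
        abs_of_pos (by norm_num : (0 : ℝ) < 3 / 2)]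
      have : 3 / r K j = 3 * (1 / r K j) := by ring
      linarith
    · have := (hrinf.const_mul 3).add (hG.const_mul (3 / 2))
      simpa using this
  · refine squeeze_zero_norm' (a := fun j => r K j * |E j|) ?_ hG
    refine Eventually.of_forall fun j => ?_
    rw [Real.norm_eq_abs]
    have := D.r_ge j
    have h0 := abs_nonneg (E j)
    nlinarith

/-- the crossing, from below -/
lemma cross (D : Dyn K u E) (h0 : F K u E 0 < 0) :
    ∃ J, |E J| ≤ 1 ∧ |F K u E J| ≤ 3 / r K J := by
  -- bounds on `u` while `F < 0`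
  have hlow : ∀ n, (∀ j < n, F K u E j < 0) →
      99 / 100 * (r K n - r K 0) - r K 0 / 100 ≤ u n ∧
        u n ≤ r K 0 / 100 + 10001 / 10000 * (r K n - r K 0) ∧ u 0 ≤ u n := by
    intro n
    induction n with
    | zero =>
      intro _
      have := abs_le.1 D.u0
      refine ⟨by linarith, by linarith, le_rfl⟩
    | succ n ih =>
      intro hn
      obtain ⟨i1, i2, i3⟩ := ih (fun j hj => hn j (by omega))
      have hFn := hn n (Nat.lt_succ_self n)
      have hup := D.up n hFn
      have h1 := D.step_le n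
      have h2 := D.step_ge n
      rw [abs_of_nonneg (sub_nonneg.mpr hup)] at h1 h2
      have h3 := D.t_le n
      have h4 := D.t_ge n
      have h5 := D.rp_le n
      have hr := D.r_ge n
      have hr' := D.r_ge (n + 1)
      have h6 : 1 / r K n ≤ 10001 / 10000 * (r K (n + 1) - r K n) := by
        have : 1 / r K n ≤ 10001 / 10000 * (1 / r K (n + 1)) := by
          rw [mul_one_div, div_le_div_iff₀ (by linarith) (by linarith)]
          linarith
        linarith
      have h7 : 99 / 100 / r K n = 99 / 100 * (1 / r K n) := by ring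
      refine ⟨?_, ?_, ?_⟩ <;> linarith
  by_cases hall : ∀ j, F K u E j < 0
  · exfalso
    have hrinf : Tendsto (fun j : ℕ => r K j) atTop atTop := by
      unfold r
      refine Real.tendsto_sqrt_atTop.comp ?_
      refine Tendsto.const_mul_atTop (by norm_num) ?_
      exact tendsto_atTop_add_const_left _ _ tendsto_natCast_atTop_atTop
    obtain ⟨J, hJ⟩ := (hrinf.eventually_ge_atTop (100 * r K 0)).exists_forall_of_atTop
    refine no_lower E (1 / 4) 0 (by norm_num) K J (fun j hj => ?_) (fun j hj => ?_)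
    · obtain ⟨η, t, hη, hR, ht, h1, h2, hE, -, -⟩ := D.E_rec j
      have hr := D.r_ge j
      obtain ⟨c1, c2, c3, c4, c5, c6⟩ := inv_consts hr hR ht h1 h2
      obtain ⟨i1, -, -⟩ := hlow j (fun i _ => hall i)
      have hu : 9 / 10 * r K j ≤ u j := by
        have := hJ j hj
        have := D.r_ge j
        linarith
      rw [hE]
      have e1 : t / (r K j * r K (j + 1)) = t * (1 / r K j) * (1 / r K (j + 1)) := by
        rw [mul_assoc, one_div_mul_one_div]; ring
      have hr0 : r K j * (1 / r K j) = 1 := by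
        rw [mul_one_div, div_self (by linarith)]
      have e3 : 1 / r K j ^ 4 = (1 / r K j) ^ 4 := by rw [one_div_pow]
      have k1 : 9 / 10 * (99 / 100) * (1 / r K j) ^ 2 ≤ u j * (t / (r K j * r K (j + 1))) := by
        rw [e1]
        set w := 1 / r K j with hw
        set W := 1 / r K (j + 1) with hW
        have g1 : w ^ 2 * (99 / 100) ≤ t * W := by
          calc w ^ 2 * (99 / 100) ≤ (9999 / 10000 * w) * (9999 / 10000 * w) := by nlinarith
            _ ≤ t * W := mul_le_mul (by linarith) c6 (by positivity) ht.le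
        calc 9 / 10 * (99 / 100) * w ^ 2 = 9 / 10 * (r K j * w) * (w ^ 2 * (99 / 100)) := by
              rw [hr0]; ring
          _ ≤ 9 / 10 * (r K j * w) * (t * W) := by
              gcongr
          _ = (9 / 10 * r K j) * (t * w * W) := by ring
          _ ≤ u j * (t * w * W) := by
              refine mul_le_mul_of_nonneg_right hu ?_
              have : 0 < W := by linarith
              positivity
      have k2 : η ≤ 1 / 10000 * (1 / r K j) ^ 2 := by
        refine (le_abs_self η).trans (hη.trans ?_)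
        rw [e3]
        calc (1 / r K j) ^ 4 = (1 / r K j) ^ 2 * (1 / r K j) ^ 2 := by ring
          _ ≤ (1 / 100) ^ 2 * (1 / r K j) ^ 2 := by gcongr
          _ = _ := by norm_num
      have k3 : 1 / 4 / ((K : ℝ) + j + 1) ≤ 1 / 2 * (1 / r K j) ^ 2 := by
        have h3 := r_sq K j
        have h5 : 0 < (K : ℝ) + j := by nlinarith
        rw [one_div_pow, h3]
        rw [div_div, mul_one_div, div_div, div_le_div_iff₀ (by positivity) (by positivity)]
        nlinarith
      have k4 : 0 < (1 / r K j) ^ 2 := by positivity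
      linarith
    · obtain ⟨i1, -, -⟩ := hlow j (fun i _ => hall i)
      have hu : 9 / 10 * r K j ≤ u j := by
        have := hJ j hj
        have := D.r_ge j
        linarith
      have hFj := hall j
      unfold F at hFj
      have hr := D.r_ge j
      by_contra hneg
      push Not at hneg
      nlinarith
  · push Not at hall
    classical
    -- the first crossing
    set i := Nat.find hall with hi
    have hi0 : 0 ≤ F K u E i := Nat.find_spec hall
    have hlt : ∀ j < i, F K u E j < 0 := fun j hj => by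
      have := Nat.find_min hall hj
      push Not at this
      exact this
    have hipos : i ≠ 0 := by
      intro h
      rw [h] at hi0
      linarith
    obtain ⟨k, hk⟩ := Nat.exists_eq_succ_of_ne_zero hipos
    rw [hk] at hi0 hlt
    have hFk := hlt k (Nat.lt_succ_self k)
    obtain ⟨-, l2, l3⟩ := hlow (k + 1) hlt
    obtain ⟨-, -, m3⟩ := hlow k (fun j hj => hlt j (by omega))
    obtain ⟨η, t, hη, hR, ht, h1, h2, -, hE, hF⟩ := D.E_rec k
    have hr := D.r_ge k
    have hr0 := D.r_ge 0
    have hR1 := D.r_ge (k + 1)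
    obtain ⟨c1, c2, c3, c4, c5, c6⟩ := inv_consts hr hR ht h1 h2
    have hr1 : r K k * (1 / r K k) = 1 := by
      rw [mul_one_div, div_self (by linarith)]
    have e3 : 1 / r K k ^ 4 = (1 / r K k) ^ 4 := by rw [one_div_pow]
    have hη1 : |η| ≤ 1 / 10000 * (1 / r K k) ^ 2 := by
      refine hη.trans ?_
      rw [e3]
      calc (1 / r K k) ^ 4 = (1 / r K k) ^ 2 * (1 / r K k) ^ 2 := by ring
        _ ≤ (1 / 100) ^ 2 * (1 / r K k) ^ 2 := by gcongr
        _ = _ := by norm_num
    have hη2 : |η| ≤ 1 / 10000 := by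
      refine hη1.trans ?_
      have : (1 / r K k) ^ 2 ≤ 1 := by
        calc (1 / r K k) ^ 2 ≤ (1 / 100) ^ 2 := by gcongr
          _ ≤ 1 := by norm_num
      linarith
    have hη3 : 3 / 2 * r K (k + 1) * |η| ≤ 1 / 1000 * (1 / r K k) := by
      have := D.rp_le k
      calc 3 / 2 * r K (k + 1) * |η| ≤ 3 / 2 * (2 * r K k) * (1 / 10000 * (1 / r K k) ^ 2) := by
            gcongr
            linarith
        _ = 3 / 10000 * (r K k * (1 / r K k)) * (1 / r K k) := by ring
        _ ≤ _ := by rw [hr1]; nlinarith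
    rw [abs_le] at hη2
    -- monotonicity of the scale
    have hrm : r K 0 ≤ r K k := by
      have : Monotone (r K) := monotone_nat_of_le_succ (r_mono K)
      exact this (Nat.zero_le _)
    -- upper bound on `E (k+1)`
    have hEup : E (k + 1) ≤ 67 / 100 := by
      unfold F at hi0
      have : u (k + 1) ≤ 10001 / 10000 * r K (k + 1) := by linarith
      simp only [Nat.succ_eq_add_one] at hi0
      by_contra hcon
      push Not at hcon
      have := mul_lt_mul_of_pos_left hcon (show 0 < 3 / 2 * r K (k + 1) by linarith)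
      linarith
    have hu0 := abs_le.1 D.u0
    have hEk : -(1 / 100) ≤ E k := by
      unfold F at hFk
      have : - (r K k / 100) ≤ u k := by linarith
      by_contra hcon
      push Not at hcon
      have := mul_lt_mul_of_pos_left hcon (show 0 < 3 / 2 * r K k by linarith)
      linarith
    have htW : t / r K (k + 1) = t * (1 / r K (k + 1)) := by ring
    have hs : 0 ≤ t / (r K k * r K (k + 1)) := by
      have : 0 < r K k * r K (k + 1) := mul_pos (by linarith) (by linarith)
      positivity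
    have htW1 : t * (1 / r K (k + 1)) ≤ 1 / 10000 := by
      calc t * (1 / r K (k + 1)) ≤ 1 / 100 * (1 / 100) := by
            refine mul_le_mul (by linarith) (by linarith) ?_ (by norm_num)
            linarith
        _ = 1 / 10000 := by norm_num
    have htW0 : 0 ≤ t * (1 / r K (k + 1)) := by
      refine mul_nonneg ht.le (by linarith)
    rw [htW] at hE
    have hFs : F K u E k * (t / (r K k * r K (k + 1))) ≤ 0 :=
      mul_nonpos_of_nonpos_of_nonneg hFk.le hs
    have hx0 : 0 < 1 - 3 / 2 * (t * (1 / r K (k + 1))) := by linarith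
    have hElow : -(1 : ℝ) ≤ E (k + 1) := by
      rw [hE]
      have := mul_le_mul_of_nonneg_right hEk hx0.le
      linarith
    have hEk2 : E k ≤ 68 / 100 := by
      by_contra hcon
      push Not at hcon
      have := mul_lt_mul_of_pos_right hcon hx0
      linarith
    refine ⟨k + 1, ?_, ?_⟩
    · rw [abs_le]
      exact ⟨hElow, by linarith⟩
    · have hnn : 0 ≤ F K u E (k + 1) := hi0
      rw [abs_of_nonneg hnn]
      have e5 : 3 / r K (k + 1) = 3 * (1 / r K (k + 1)) := by ring
      rw [e5]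
      have hd := abs_le.1 (D.step_le k)
      have hFr : F K u E k / r K k ≤ 0 := div_nonpos_of_nonpos_of_nonneg hFk.le (by linarith)
      have hq : 3 / 2 * t * (F K u E k / r K k + E k / 2) ≤ 3 / 2 * (1 / r K k) * (34 / 100) := by
        have hq1 : F K u E k / r K k + E k / 2 ≤ 34 / 100 := by linarith
        calc 3 / 2 * t * (F K u E k / r K k + E k / 2) ≤ 3 / 2 * t * (34 / 100) :=
              mul_le_mul_of_nonneg_left hq1 (by positivity)
          _ ≤ _ := by gcongr
      have hη4 : - (3 / 2 * r K (k + 1) * η) ≤ 3 / 2 * r K (k + 1) * |η| := by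
        have h3 : 0 ≤ 3 / 2 * r K (k + 1) := by linarith
        rw [← mul_neg]
        exact mul_le_mul_of_nonneg_left (neg_le_abs η) h3
      linarith

theorem main (D : Dyn K u E) : Tendsto u atTop (𝓝 0) ∧ Tendsto E atTop (𝓝 0) := by
  rcases lt_trichotomy (F K u E 0) 0 with h | h | h
  · obtain ⟨J, h1, h2⟩ := D.cross h
    exact D.conv J h1 h2
  · refine D.conv 0 ?_ ?_
    · unfold F at h
      have hu := abs_le.1 D.u0
      have hr := D.hK
      have : r K 0 * |E 0| ≤ r K 0 * (1 / 100) := by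
        rw [← abs_of_nonneg (r_nonneg K 0), ← abs_mul, abs_of_nonneg (r_nonneg K 0), abs_le]
        constructor <;> linarith
      have := le_of_mul_le_mul_left this (by linarith)
      linarith
    · rw [h, abs_zero]
      have := D.hK
      positivity
  · have h' : F K (fun j => - u j) (fun j => - E j) 0 < 0 := by
      unfold F at h ⊢
      linarith
    obtain ⟨J, h1, h2⟩ := D.neg.cross h'
    obtain ⟨g1, g2⟩ := D.neg.conv J h1 h2
    refine ⟨?_, ?_⟩
    · simpa using g1.neg
    · simpa using g2.neg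

end Dyn

end Pool.Agent.V11101.Steer
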