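import Mathlib

open MeasureTheory Complex
open scoped ComplexConjugate Real

namespace Pool.Agent.V11101.FockSob

/-- continuous functions of at most exponential growth -/
def Good (Φ : ℂ → ℂ) : Prop :=
  Continuous Φ ∧ ∃ C A : ℝ, 0 ≤ C ∧ 0 ≤ A ∧ ∀ w, ‖Φ w‖ ≤ C * Real.exp (A * ‖w‖)

lemma Good.add {Φ Ψ : ℂ → ℂ} (h1 : Good Φ) (h2 : Good Ψ) : Good (fun w => Φ w + Ψ w) := by
  obtain ⟨c1, C1, A1, hC1, hA1, b1⟩ := h1
  obtain ⟨c2, C2, A2, hC2, hA2, b2⟩ := h2
  refine ⟨c1.add c2, C1 + C2, A1 + A2, by positivity, by positivity, fun w => ?_⟩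
  have e1 : Real.exp (A1 * ‖w‖) ≤ Real.exp ((A1 + A2) * ‖w‖) :=
    Real.exp_le_exp.mpr (by nlinarith [norm_nonneg w])
  have e2 : Real.exp (A2 * ‖w‖) ≤ Real.exp ((A1 + A2) * ‖w‖) :=
    Real.exp_le_exp.mpr (by nlinarith [norm_nonneg w])
  calc ‖Φ w + Ψ w‖ ≤ ‖Φ w‖ + ‖Ψ w‖ := norm_add_le _ _
    _ ≤ C1 * Real.exp (A1 * ‖w‖) + C2 * Real.exp (A2 * ‖w‖) := add_le_add (b1 w) (b2 w)
    _ ≤ C1 * Real.exp ((A1 + A2) * ‖w‖) + C2 * Real.exp ((A1 + A2) * ‖w‖) := by gcongr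
    _ = _ := by ring

lemma Good.mul {Φ Ψ : ℂ → ℂ} (h1 : Good Φ) (h2 : Good Ψ) : Good (fun w => Φ w * Ψ w) := by
  obtain ⟨c1, C1, A1, hC1, hA1, b1⟩ := h1
  obtain ⟨c2, C2, A2, hC2, hA2, b2⟩ := h2
  refine ⟨c1.mul c2, C1 * C2, A1 + A2, by positivity, by positivity, fun w => ?_⟩
  calc ‖Φ w * Ψ w‖ = ‖Φ w‖ * ‖Ψ w‖ := norm_mul _ _
    _ ≤ (C1 * Real.exp (A1 * ‖w‖)) * (C2 * Real.exp (A2 * ‖w‖)) := by
        gcongr
        · exact b1 w
        · exact b2 w
    _ = _ := by rw [add_mul, Real.exp_add]; ring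

lemma good_const (a : ℂ) : Good (fun _ => a) :=
  ⟨continuous_const, ‖a‖, 0, norm_nonneg _, le_rfl, fun w => by simp⟩

lemma good_id : Good (fun w => w) :=
  ⟨continuous_id, 1, 1, zero_le_one, zero_le_one, fun w => by
    have := Real.add_one_le_exp ‖w‖
    simp only [one_mul]
    linarith⟩

lemma Good.conj {Φ : ℂ → ℂ} (h : Good Φ) : Good (fun w => (starRingEnd ℂ) (Φ w)) := by
  obtain ⟨c1, C1, A1, hC1, hA1, b1⟩ := h
  exact ⟨continuous_conj.comp c1, C1, A1, hC1, hA1, fun w => by simpa using b1 w⟩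

lemma good_exp (a : ℂ) : Good (fun w => cexp (a * w)) := by
  refine ⟨by fun_prop, 1, ‖a‖, zero_le_one, norm_nonneg _, fun w => ?_⟩
  rw [one_mul, Complex.norm_exp]
  apply Real.exp_le_exp.mpr
  calc (a * w).re ≤ ‖a * w‖ := Complex.re_le_norm _
    _ = _ := norm_mul _ _

lemma good_conj_id : Good (fun w => (starRingEnd ℂ) w) := good_id.conj

lemma good_exp_conj (a : ℂ) : Good (fun w => cexp (a * (starRingEnd ℂ) w)) := by
  refine ⟨by fun_prop, 1, ‖a‖, zero_le_one, norm_nonneg _, fun w => ?_⟩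
  rw [one_mul, Complex.norm_exp]
  apply Real.exp_le_exp.mpr
  calc (a * (starRingEnd ℂ) w).re ≤ ‖a * (starRingEnd ℂ) w‖ := Complex.re_le_norm _
    _ = _ := by rw [norm_mul, RCLike.norm_conj]

lemma Good.pow {Φ : ℂ → ℂ} (h : Good Φ) (n : ℕ) : Good (fun w => Φ w ^ n) := by
  induction n with
  | zero => simpa using good_const 1
  | succ n ih =>
    have := ih.mul h
    simpa [pow_succ] using this

lemma good_sum {ι : Type*} (s : Finset ι) (Φ : ι → ℂ → ℂ) (h : ∀ i ∈ s, Good (Φ i)) :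
    Good (fun w => ∑ i ∈ s, Φ i w) := by
  classical
  induction s using Finset.induction_on with
  | empty => simpa using good_const 0
  | insert a s ha ih =>
    have h1 := h a (Finset.mem_insert_self _ _)
    have h2 := ih (fun i hi => h i (Finset.mem_insert_of_mem hi))
    have := h1.add h2
    simpa [Finset.sum_insert ha] using this

/-- Gaussian weight -/
noncomputable def gw (w : ℂ) : ℂ := cexp (-(‖w‖ : ℂ) ^ 2)

lemma norm_gw (w : ℂ) : ‖gw w‖ = Real.exp (-‖w‖ ^ 2) := by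
  rw [gw, Complex.norm_exp]
  congr 1
  norm_cast

lemma continuous_gw : Continuous gw := by unfold gw; fun_prop

lemma gauss_real_integrable : Integrable (fun w : ℂ => Real.exp (-(1/2) * ‖w‖ ^ 2)) := by
  have h := GaussianFourier.integrable_cexp_neg_mul_sq_norm_add (V := ℂ) (b := (1/2 : ℂ))
    (by norm_num) 0 0
  have h2 := h.norm
  refine h2.congr (Filter.Eventually.of_forall fun w => ?_)
  have e1 : (-(1 / 2 : ℂ)) * ((‖w‖ : ℂ)) ^ 2 + 0 * (inner ℝ (0 : ℂ) w : ℂ)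
      = ((-(1/2) * ‖w‖ ^ 2 : ℝ) : ℂ) := by push_cast; ring
  simp only [e1, Complex.norm_exp, Complex.ofReal_re]

lemma Good.integrable {Φ : ℂ → ℂ} (h : Good Φ) : Integrable (fun w => Φ w * gw w) := by
  obtain ⟨c1, C, A, hC, hA, b⟩ := h
  refine Integrable.mono' (gauss_real_integrable.const_mul (C * Real.exp (A ^ 2 / 2)))
    (c1.mul continuous_gw).aestronglyMeasurable (Filter.Eventually.of_forall fun w => ?_)
  rw [norm_mul, norm_gw]
  have h1 : Real.exp (A * ‖w‖) * Real.exp (-‖w‖ ^ 2)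
      ≤ Real.exp (A ^ 2 / 2) * Real.exp (-(1/2) * ‖w‖ ^ 2) := by
    rw [← Real.exp_add, ← Real.exp_add]
    apply Real.exp_le_exp.mpr
    nlinarith [sq_nonneg (A - ‖w‖)]
  calc ‖Φ w‖ * Real.exp (-‖w‖ ^ 2) ≤ (C * Real.exp (A * ‖w‖)) * Real.exp (-‖w‖ ^ 2) := by
        gcongr; exact b w
    _ = C * (Real.exp (A * ‖w‖) * Real.exp (-‖w‖ ^ 2)) := by ring
    _ ≤ C * (Real.exp (A ^ 2 / 2) * Real.exp (-(1/2) * ‖w‖ ^ 2)) := by gcongr
    _ = _ := by ring

/-- Gaussian integral -/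
lemma gauss (α β : ℂ) :
    ∫ w : ℂ, cexp (β * (starRingEnd ℂ) w) * cexp (α * w) * gw w = π * cexp (α * β) := by
  have hmp := (Complex.volume_preserving_equiv_real_prod.symm)
  rw [← hmp.integral_comp Complex.measurableEquivRealProd.symm.measurableEmbedding]
  have hfun : ∀ p : ℝ × ℝ, cexp (β * (starRingEnd ℂ) (Complex.measurableEquivRealProd.symm p))
      * cexp (α * (Complex.measurableEquivRealProd.symm p)) * gw (Complex.measurableEquivRealProd.symm p)
      = cexp ((-1) * (p.1 : ℂ) ^ 2 + (α + β) * p.1 + 0)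
        * cexp ((-1) * (p.2 : ℂ) ^ 2 + (I * (α - β)) * p.2 + 0) := by
    rintro ⟨x, y⟩
    have hz : (Complex.measurableEquivRealProd.symm (x, y)) = (x : ℂ) + y * I := by
      apply Complex.ext <;> simp [Complex.measurableEquivRealProd]
    rw [hz, gw, ← Complex.exp_add, ← Complex.exp_add, ← Complex.exp_add]
    congr 1
    have hn : (‖(x : ℂ) + y * I‖ : ℂ) ^ 2 = (x : ℂ) ^ 2 + (y : ℂ) ^ 2 := by
      rw [← Complex.ofReal_pow, ← Complex.normSq_eq_norm_sq, Complex.normSq_add_mul_I]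
      push_cast; ring
    rw [hn]
    simp only [map_add, map_mul, Complex.conj_ofReal, Complex.conj_I]
    ring
  rw [integral_congr_ae (Filter.Eventually.of_forall hfun)]
  have := integral_prod_mul (μ := (volume : Measure ℝ)) (ν := (volume : Measure ℝ))
    (fun x : ℝ => cexp ((-1) * (x : ℂ) ^ 2 + (α + β) * x + 0))
    (fun y : ℝ => cexp ((-1) * (y : ℂ) ^ 2 + (I * (α - β)) * y + 0))
  rw [← Measure.volume_eq_prod] at this
  rw [this, integral_cexp_quadratic (by norm_num), integral_cexp_quadratic (by norm_num)]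
  have hpi : (π : ℂ) ≠ 0 := by exact_mod_cast Real.pi_ne_zero
  have h1 : ((π : ℂ) / -(-1)) ^ (1 / 2 : ℂ) * ((π : ℂ) / -(-1)) ^ (1 / 2 : ℂ) = π := by
    rw [← Complex.cpow_add _ _ (by simpa using hpi)]
    norm_num
  calc _ = (((π : ℂ) / -(-1)) ^ (1 / 2 : ℂ) * ((π : ℂ) / -(-1)) ^ (1 / 2 : ℂ)) *
        (cexp (0 - (α + β) ^ 2 / (4 * (-1))) * cexp (0 - (I * (α - β)) ^ 2 / (4 * (-1)))) := by ring
    _ = _ := by
        rw [h1, ← Complex.exp_add]
        congr 2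
        have : I ^ 2 = -1 := Complex.I_sq
        linear_combination (-(α-β)^2/4 * (-1)) * this

/-- derivative of Gaussian integrals with respect to the exponent of `exp (α w)` -/
lemma hasDerivAt_id {Φ : ℂ → ℂ} (h : Good Φ) (α : ℂ) :
    HasDerivAt (fun α => ∫ w, Φ w * cexp (α * w) * gw w)
      (∫ w, (Φ w * w) * cexp (α * w) * gw w) α := by
  obtain ⟨c1, C, A, hC, hA, b⟩ := id h
  have hbint : Integrable (fun w : ℂ => C * Real.exp (A * ‖w‖) * Real.exp ‖w‖ *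
      Real.exp ((‖α‖ + 1) * ‖w‖) * Real.exp (-‖w‖ ^ 2)) := by
    refine Integrable.mono' (gauss_real_integrable.const_mul (C * Real.exp ((A + 1 + (‖α‖ + 1)) ^ 2 / 2)))
      (by fun_prop) (Filter.Eventually.of_forall fun w => ?_)
    rw [Real.norm_of_nonneg (by positivity)]
    have h1 : Real.exp (A * ‖w‖) * Real.exp ‖w‖ *
      Real.exp ((‖α‖ + 1) * ‖w‖) * Real.exp (-‖w‖ ^ 2)
      ≤ Real.exp ((A + 1 + (‖α‖ + 1)) ^ 2 / 2) * Real.exp (-(1/2) * ‖w‖ ^ 2) := by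
      rw [← Real.exp_add, ← Real.exp_add, ← Real.exp_add, ← Real.exp_add]
      apply Real.exp_le_exp.mpr
      nlinarith [sq_nonneg ((A + 1 + (‖α‖ + 1)) - ‖w‖)]
    calc _ = C * (Real.exp (A * ‖w‖) * Real.exp ‖w‖ *
      Real.exp ((‖α‖ + 1) * ‖w‖) * Real.exp (-‖w‖ ^ 2)) := by ring
      _ ≤ C * (Real.exp ((A + 1 + (‖α‖ + 1)) ^ 2 / 2) * Real.exp (-(1/2) * ‖w‖ ^ 2)) := by gcongr
      _ = _ := by ring
  refine (hasDerivAt_integral_of_dominated_loc_of_deriv_le (𝕜 := ℂ)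
    (s := Metric.ball α 1) (Metric.ball_mem_nhds α one_pos)
    (F := fun α w => Φ w * cexp (α * w) * gw w)
    (F' := fun α w => (Φ w * w) * cexp (α * w) * gw w)
    (bound := fun w => C * Real.exp (A * ‖w‖) * Real.exp ‖w‖ *
      Real.exp ((‖α‖ + 1) * ‖w‖) * Real.exp (-‖w‖ ^ 2)) ?_ ?_ ?_ ?_ hbint ?_).2
  · refine Filter.Eventually.of_forall fun β => ?_
    have := continuous_gw
    exact Continuous.aestronglyMeasurable (by fun_prop)
  · exact (h.mul (good_exp α)).integrable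
  · have := continuous_gw
    exact Continuous.aestronglyMeasurable (by fun_prop)
  · refine Filter.Eventually.of_forall fun w β hβ => ?_
    rw [norm_mul, norm_mul, norm_mul, norm_gw]
    have hw : ‖w‖ ≤ Real.exp ‖w‖ := by linarith [Real.add_one_le_exp ‖w‖]
    have he : ‖cexp (β * w)‖ ≤ Real.exp ((‖α‖ + 1) * ‖w‖) := by
      rw [Complex.norm_exp]
      apply Real.exp_le_exp.mpr
      have hβ' : ‖β‖ ≤ ‖α‖ + 1 := by
        have := norm_sub_norm_le β α
        rw [Metric.mem_ball, dist_eq_norm] at hβ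
        linarith
      calc (β * w).re ≤ ‖β * w‖ := Complex.re_le_norm _
        _ = ‖β‖ * ‖w‖ := norm_mul _ _
        _ ≤ _ := by gcongr
    gcongr
    · exact b w
  · refine Filter.Eventually.of_forall fun w β _ => ?_
    have h1 : HasDerivAt (fun β : ℂ => cexp (β * w)) (cexp (β * w) * (1 * w)) β :=
      ((hasDerivAt_id' β).mul_const w).cexp
    have h2 := (h1.const_mul (Φ w)).mul_const (gw w)
    exact h2.congr_deriv (by ring)

/-- derivative of Gaussian integrals with respect to the exponent of `exp (β conj w)` -/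
lemma hasDerivAt_conj {Φ : ℂ → ℂ} (h : Good Φ) (β : ℂ) :
    HasDerivAt (fun β => ∫ w, Φ w * cexp (β * (starRingEnd ℂ) w) * gw w)
      (∫ w, (Φ w * (starRingEnd ℂ) w) * cexp (β * (starRingEnd ℂ) w) * gw w) β := by
  obtain ⟨c1, C, A, hC, hA, b⟩ := id h
  have hbint : Integrable (fun w : ℂ => C * Real.exp (A * ‖w‖) * Real.exp ‖w‖ *
      Real.exp ((‖β‖ + 1) * ‖w‖) * Real.exp (-‖w‖ ^ 2)) := by
    refine Integrable.mono' (gauss_real_integrable.const_mul (C * Real.exp ((A + 1 + (‖β‖ + 1)) ^ 2 / 2)))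
      (by fun_prop) (Filter.Eventually.of_forall fun w => ?_)
    rw [Real.norm_of_nonneg (by positivity)]
    have h1 : Real.exp (A * ‖w‖) * Real.exp ‖w‖ *
      Real.exp ((‖β‖ + 1) * ‖w‖) * Real.exp (-‖w‖ ^ 2)
      ≤ Real.exp ((A + 1 + (‖β‖ + 1)) ^ 2 / 2) * Real.exp (-(1/2) * ‖w‖ ^ 2) := by
      rw [← Real.exp_add, ← Real.exp_add, ← Real.exp_add, ← Real.exp_add]
      apply Real.exp_le_exp.mpr
      nlinarith [sq_nonneg ((A + 1 + (‖β‖ + 1)) - ‖w‖)]
    calc _ = C * (Real.exp (A * ‖w‖) * Real.exp ‖w‖ *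
      Real.exp ((‖β‖ + 1) * ‖w‖) * Real.exp (-‖w‖ ^ 2)) := by ring
      _ ≤ C * (Real.exp ((A + 1 + (‖β‖ + 1)) ^ 2 / 2) * Real.exp (-(1/2) * ‖w‖ ^ 2)) := by gcongr
      _ = _ := by ring
  refine (hasDerivAt_integral_of_dominated_loc_of_deriv_le (𝕜 := ℂ)
    (s := Metric.ball β 1) (Metric.ball_mem_nhds β one_pos)
    (F := fun β w => Φ w * cexp (β * (starRingEnd ℂ) w) * gw w)
    (F' := fun β w => (Φ w * (starRingEnd ℂ) w) * cexp (β * (starRingEnd ℂ) w) * gw w)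
    (bound := fun w => C * Real.exp (A * ‖w‖) * Real.exp ‖w‖ *
      Real.exp ((‖β‖ + 1) * ‖w‖) * Real.exp (-‖w‖ ^ 2)) ?_ ?_ ?_ ?_ hbint ?_).2
  · refine Filter.Eventually.of_forall fun β => ?_
    have := continuous_gw
    exact Continuous.aestronglyMeasurable (by fun_prop)
  · exact (h.mul (good_exp_conj β)).integrable
  · have := continuous_gw
    exact Continuous.aestronglyMeasurable (by fun_prop)
  · refine Filter.Eventually.of_forall fun w γ hγ => ?_
    rw [norm_mul, norm_mul, norm_mul, norm_gw, RCLike.norm_conj]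
    have hw : ‖w‖ ≤ Real.exp ‖w‖ := by linarith [Real.add_one_le_exp ‖w‖]
    have he : ‖cexp (γ * (starRingEnd ℂ) w)‖ ≤ Real.exp ((‖β‖ + 1) * ‖w‖) := by
      rw [Complex.norm_exp]
      apply Real.exp_le_exp.mpr
      have hβ' : ‖γ‖ ≤ ‖β‖ + 1 := by
        have := norm_sub_norm_le γ β
        rw [Metric.mem_ball, dist_eq_norm] at hγ
        linarith
      calc (γ * (starRingEnd ℂ) w).re ≤ ‖γ * (starRingEnd ℂ) w‖ := Complex.re_le_norm _
        _ = ‖γ‖ * ‖w‖ := by rw [norm_mul, RCLike.norm_conj]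
        _ ≤ _ := by gcongr
    gcongr
    · exact b w
  · refine Filter.Eventually.of_forall fun w γ _ => ?_
    have h1 : HasDerivAt (fun β : ℂ => cexp (β * (starRingEnd ℂ) w))
        (cexp (γ * (starRingEnd ℂ) w) * (1 * (starRingEnd ℂ) w)) γ :=
      ((hasDerivAt_id' γ).mul_const _).cexp
    have h2 := (h1.const_mul (Φ w)).mul_const (gw w)
    exact h2.congr_deriv (by ring)

end Pool.Agent.V11101.FockSob
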