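import Mathlib
import Pool.Agent.V11101.FSa

open MeasureTheory Complex
open scoped ComplexConjugate Real Polynomial

namespace Pool.Agent.V11101.FockSob

/-- antiholomorphic reproducing property -/
def RepC (ψ : ℂ → ℂ) : Prop :=
  Good ψ ∧ Differentiable ℂ ψ ∧ ∀ z c : ℂ,
    ∫ w, (ψ ((starRingEnd ℂ) w) * cexp (z * (starRingEnd ℂ) w)) * cexp (c * w) * gw w
      = π * (ψ c * cexp (c * z))

lemma Good.comp_conj {ψ : ℂ → ℂ} (h : Good ψ) : Good (fun w => ψ ((starRingEnd ℂ) w)) := by
  obtain ⟨c1, C1, A1, hC1, hA1, b1⟩ := h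
  exact ⟨c1.comp continuous_conj, C1, A1, hC1, hA1, fun w => by
    have := b1 ((starRingEnd ℂ) w)
    rwa [RCLike.norm_conj] at this⟩

lemma conj_moment (j : ℕ) (c : ℂ) : ∀ β : ℂ,
    ∫ w, ((starRingEnd ℂ) w ^ j * cexp (c * w)) * cexp (β * (starRingEnd ℂ) w) * gw w
      = π * (c ^ j * cexp (c * β)) := by
  induction j with
  | zero =>
    intro β
    have := gauss c β
    rw [pow_zero, one_mul, ← this]
    refine integral_congr_ae (Filter.Eventually.of_forall fun w => ?_)
    simp only [pow_zero, one_mul]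
    ring
  | succ j ih =>
    intro β
    have hG : Good (fun w => (starRingEnd ℂ) w ^ j * cexp (c * w)) :=
      (good_conj_id.pow j).mul (good_exp c)
    have h1 := hasDerivAt_conj hG β
    have h2 : HasDerivAt (fun β : ℂ => (π : ℂ) * (c ^ j * cexp (c * β)))
        (π * (c ^ j * (cexp (c * β) * (c * 1)))) β :=
      ((((hasDerivAt_id' β).const_mul c).cexp).const_mul _).const_mul _
    have h3 : (fun β => ∫ w, (((starRingEnd ℂ) w ^ j * cexp (c * w))) *
        cexp (β * (starRingEnd ℂ) w) * gw w) = fun β : ℂ => (π : ℂ) * (c ^ j * cexp (c * β)) := by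
      funext β; exact ih β
    rw [h3] at h1
    have h4 := h1.unique h2
    calc _ = ∫ w, (((starRingEnd ℂ) w ^ j * cexp (c * w)) * (starRingEnd ℂ) w) *
        cexp (β * (starRingEnd ℂ) w) * gw w := by
          refine integral_congr_ae (Filter.Eventually.of_forall fun w => ?_)
          simp only [pow_succ]
          ring
      _ = _ := by rw [h4]; ring

lemma repC_monomial (a b : ℂ) (j : ℕ) : RepC (fun w => b * w ^ j * cexp (a * w)) := by
  refine ⟨((good_const b).mul (good_id.pow j)).mul (good_exp a), by fun_prop, fun z c => ?_⟩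
  have := conj_moment j c (a + z)
  calc _ = ∫ w, b * ((((starRingEnd ℂ) w ^ j * cexp (c * w)) *
        cexp ((a + z) * (starRingEnd ℂ) w)) * gw w) := by
          refine integral_congr_ae (Filter.Eventually.of_forall fun w => ?_)
          simp only [add_mul, Complex.exp_add]
          ring
    _ = _ := by
        rw [integral_const_mul, this, mul_add, Complex.exp_add]
        beta_reduce
        rw [mul_comm a c]
        ring

lemma RepC.add {ψ₁ ψ₂ : ℂ → ℂ} (h1 : RepC ψ₁) (h2 : RepC ψ₂) :
    RepC (fun w => ψ₁ w + ψ₂ w) := by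
  refine ⟨h1.1.add h2.1, h1.2.1.add h2.2.1, fun z c => ?_⟩
  have e1 := h1.2.2 z c
  have e2 := h2.2.2 z c
  have i1 : Integrable (fun w => (ψ₁ ((starRingEnd ℂ) w) * cexp (z * (starRingEnd ℂ) w)) *
      cexp (c * w) * gw w) := ((h1.1.comp_conj.mul (good_exp_conj z)).mul (good_exp c)).integrable
  have i2 : Integrable (fun w => (ψ₂ ((starRingEnd ℂ) w) * cexp (z * (starRingEnd ℂ) w)) *
      cexp (c * w) * gw w) := ((h2.1.comp_conj.mul (good_exp_conj z)).mul (good_exp c)).integrable
  calc _ = ∫ w, ((ψ₁ ((starRingEnd ℂ) w) * cexp (z * (starRingEnd ℂ) w)) *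
      cexp (c * w) * gw w) + ((ψ₂ ((starRingEnd ℂ) w) * cexp (z * (starRingEnd ℂ) w)) *
      cexp (c * w) * gw w) := by
        refine integral_congr_ae (Filter.Eventually.of_forall fun w => ?_)
        simp only []
        ring
    _ = _ := by rw [integral_add i1 i2, e1, e2]; ring

lemma repC_zero : RepC (fun _ => 0) := by
  have := repC_monomial 0 0 0
  simpa using this

lemma repC_const (a : ℂ) : RepC (fun _ => a) := by
  have := repC_monomial 0 a 0
  simpa using this

lemma repC_sum {ι : Type*} (s : Finset ι) (Φ : ι → ℂ → ℂ) (h : ∀ i ∈ s, RepC (Φ i)) :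
    RepC (fun w => ∑ i ∈ s, Φ i w) := by
  classical
  induction s using Finset.induction_on with
  | empty => simpa using repC_zero
  | insert a s ha ih =>
    have h1 := h a (Finset.mem_insert_self _ _)
    have h2 := ih (fun i hi => h i (Finset.mem_insert_of_mem hi))
    have := h1.add h2
    simpa [Finset.sum_insert ha] using this

/-- `ψ` on `z^n e^{cz}`: iterated derivatives -/
lemma moment_formula {ψ : ℂ → ℂ} (h : RepC ψ) (z : ℂ) (n : ℕ) : ∀ c : ℂ,
    ∫ w, ((ψ ((starRingEnd ℂ) w) * cexp (z * (starRingEnd ℂ) w)) * w ^ n) * cexp (c * w) * gw w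
      = π * ∑ j ∈ Finset.range (n + 1), (n.choose j * iteratedDeriv j ψ c) * z ^ (n - j) *
          cexp (c * z) := by
  have key : ∀ c : ℂ,
    ∫ w, ((ψ ((starRingEnd ℂ) w) * cexp (z * (starRingEnd ℂ) w)) * w ^ n) * cexp (c * w) * gw w
      = π * iteratedDeriv n (fun c => ψ c * cexp (z * c)) c := by
    induction n with
    | zero =>
      intro c
      rw [iteratedDeriv_zero, mul_comm z c, ← h.2.2 z c]
      refine integral_congr_ae (Filter.Eventually.of_forall fun w => ?_)
      simp only [pow_zero, mul_one]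
    | succ n ih =>
      intro c
      have hG : Good (fun w => (ψ ((starRingEnd ℂ) w) * cexp (z * (starRingEnd ℂ) w)) * w ^ n) :=
        (h.1.comp_conj.mul (good_exp_conj z)).mul (good_id.pow n)
      have h1 := hasDerivAt_id hG c
      have h3 : (fun c => ∫ w, ((ψ ((starRingEnd ℂ) w) * cexp (z * (starRingEnd ℂ) w)) * w ^ n) *
          cexp (c * w) * gw w) = fun c : ℂ => (π : ℂ) *
            iteratedDeriv n (fun c => ψ c * cexp (z * c)) c := by
        funext c; exact ih c
      rw [h3] at h1
      have hcd : ContDiff ℂ (n + 1 : ℕ) (fun c => ψ c * cexp (z * c)) :=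
        (h.2.1.contDiff).mul (by fun_prop)
      have h2 : HasDerivAt (fun c : ℂ => (π : ℂ) *
          iteratedDeriv n (fun c => ψ c * cexp (z * c)) c)
          (π * deriv (iteratedDeriv n (fun c => ψ c * cexp (z * c))) c) c := by
        refine HasDerivAt.const_mul _ ?_
        refine DifferentiableAt.hasDerivAt ?_
        exact (hcd.differentiable_iteratedDeriv n (by exact_mod_cast Nat.lt_succ_self n)) c
      have h4 := h1.unique h2
      rw [iteratedDeriv_succ, ← h4]
      refine integral_congr_ae (Filter.Eventually.of_forall fun w => ?_)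
      simp only [pow_succ]
      ring
  intro c
  rw [key c]
  congr 1
  have h1 : ContDiffAt ℂ n ψ c := (h.2.1.contDiff).contDiffAt
  have h2 : ContDiffAt ℂ n (fun c => cexp (z * c)) c := by fun_prop
  have := iteratedDeriv_mul h1 h2
  have e : (fun c => ψ c * cexp (z * c)) = ψ * (fun c => cexp (z * c)) := rfl
  rw [e, this]
  refine Finset.sum_congr rfl fun j _ => ?_
  rw [iteratedDeriv_cexp_const_mul]
  beta_reduce
  rw [mul_comm z c]
  ring

/-! ### exponential polynomials -/

/-- evaluation of `∑ P_c(z) e^{cz}` -/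
noncomputable def EV (z : ℂ) : (ℂ →₀ ℂ[X]) →+ ℂ :=
  Finsupp.liftAddHom fun c =>
    (AddMonoidHom.mulRight (cexp (c * z))).comp (Polynomial.evalRingHom z).toAddMonoidHom

lemma EV_single (z c : ℂ) (p : ℂ[X]) : EV z (Finsupp.single c p) = p.eval z * cexp (c * z) := by
  simp [EV]

lemma EV_eq (z : ℂ) (G : ℂ →₀ ℂ[X]) : EV z G = ∑ c ∈ G.support, (G c).eval z * cexp (c * z) := by
  conv_lhs => rw [← Finsupp.sum_single G, Finsupp.sum]
  rw [map_sum]
  exact Finset.sum_congr rfl fun c _ => EV_single z c _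

/-- the action of `ψ(D)` on `p(z) e^{cz}` -/
noncomputable def tay (κ : ℂ → ℂ) (c : ℂ) : ℂ[X] →ₗ[ℂ] ℂ[X] :=
  Polynomial.lsum fun n => ∑ j ∈ Finset.range (n + 1),
    ((n.choose j : ℂ) * iteratedDeriv j κ c) • Polynomial.monomial (n - j)

lemma tay_monomial (κ : ℂ → ℂ) (c : ℂ) (n : ℕ) (a : ℂ) :
    tay κ c (Polynomial.monomial n a) = ∑ j ∈ Finset.range (n + 1),
      Polynomial.monomial (n - j) ((n.choose j * iteratedDeriv j κ c) * a) := by
  unfold tay
  rw [Polynomial.lsum_apply, Polynomial.sum_monomial_index]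
  · simp [LinearMap.sum_apply, Polynomial.smul_monomial]
  · simp

noncomputable def tayE (κ : ℂ → ℂ) : (ℂ →₀ ℂ[X]) →+ (ℂ →₀ ℂ[X]) :=
  Finsupp.liftAddHom fun c => (Finsupp.singleAddHom c).comp (tay κ c).toAddMonoidHom

lemma tayE_single (κ : ℂ → ℂ) (c : ℂ) (p : ℂ[X]) :
    tayE κ (Finsupp.single c p) = Finsupp.single c (tay κ c p) := by
  simp [tayE]

lemma tayE_apply (κ : ℂ → ℂ) (G : ℂ →₀ ℂ[X]) (c : ℂ) : tayE κ G c = tay κ c (G c) := by
  induction G using Finsupp.induction_linear with
  | zero => simp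
  | add f g hf hg => simp [hf, hg]
  | single a p =>
    rw [tayE_single]
    by_cases h : a = c
    · subst h; simp
    · simp [Finsupp.single_apply, h]

lemma good_EV (G : ℂ →₀ ℂ[X]) : Good (fun w => EV w G) := by
  have : (fun w => EV w G) = fun w => ∑ c ∈ G.support, (∑ i ∈ Finset.range ((G c).natDegree + 1),
      (G c).coeff i * w ^ i) * cexp (c * w) := by
    funext w
    rw [EV_eq]
    refine Finset.sum_congr rfl fun c _ => ?_
    rw [Polynomial.eval_eq_sum_range]
  rw [this]
  refine good_sum _ _ fun c _ => ?_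
  refine Good.mul ?_ (good_exp c)
  exact good_sum _ _ fun i _ => (good_const _).mul (good_id.pow i)

lemma integral_EV {ψ : ℂ → ℂ} (h : RepC ψ) (z : ℂ) (G : ℂ →₀ ℂ[X]) :
    ∫ w, (ψ ((starRingEnd ℂ) w) * EV w G) * cexp (z * (starRingEnd ℂ) w) * gw w
      = π * EV z (tayE ψ G) := by
  have hint : ∀ G : ℂ →₀ ℂ[X], Integrable (fun w => (ψ ((starRingEnd ℂ) w) * EV w G) *
      cexp (z * (starRingEnd ℂ) w) * gw w) := fun G =>
    ((h.1.comp_conj.mul (good_EV G)).mul (good_exp_conj z)).integrable
  have hadd : ∀ G H : ℂ →₀ ℂ[X],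
      ∫ w, (ψ ((starRingEnd ℂ) w) * EV w G) * cexp (z * (starRingEnd ℂ) w) * gw w
        = π * EV z (tayE ψ G) →
      ∫ w, (ψ ((starRingEnd ℂ) w) * EV w H) * cexp (z * (starRingEnd ℂ) w) * gw w
        = π * EV z (tayE ψ H) →
      ∫ w, (ψ ((starRingEnd ℂ) w) * EV w (G + H)) * cexp (z * (starRingEnd ℂ) w) * gw w
        = π * EV z (tayE ψ (G + H)) := by
    intro G H hG hH
    rw [map_add, map_add, mul_add, ← hG, ← hH, ← integral_add (hint G) (hint H)]
    refine integral_congr_ae (Filter.Eventually.of_forall fun w => ?_)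
    simp only [map_add]
    ring
  induction G using Finsupp.induction_linear with
  | zero => simp
  | add f g hf hg => exact hadd f g hf hg
  | single c p =>
    induction p using Polynomial.induction_on' with
    | add p q hp hq => rw [Finsupp.single_add]; exact hadd _ _ hp hq
    | monomial n a =>
      rw [tayE_single, EV_single, tay_monomial]
      have := moment_formula h z n c
      calc _ = ∫ w, a * (((ψ ((starRingEnd ℂ) w) * cexp (z * (starRingEnd ℂ) w)) * w ^ n) *
            cexp (c * w) * gw w) := by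
              refine integral_congr_ae (Filter.Eventually.of_forall fun w => ?_)
              simp only [EV_single, Polynomial.eval_monomial]
              ring
        _ = _ := by
            rw [integral_const_mul, this, Polynomial.eval_finsetSum, Finset.mul_sum, Finset.mul_sum,
              Finset.sum_mul, Finset.mul_sum]
            refine Finset.sum_congr rfl fun j _ => ?_
            rw [Polynomial.eval_monomial]
            ring

lemma tay_one (c : ℂ) (p : ℂ[X]) : tay (fun _ => 1) c p = p := by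
  induction p using Polynomial.induction_on' with
  | add p q hp hq => rw [map_add, hp, hq]
  | monomial n a =>
    rw [tay_monomial, Finset.sum_eq_single 0]
    · simp
    · intro j _ hj
      rw [iteratedDeriv_const]
      simp [hj]
    · simp

lemma tayE_one (G : ℂ →₀ ℂ[X]) : tayE (fun _ => 1) G = G := by
  ext1 c
  rw [tayE_apply, tay_one]

lemma integral_EV_one (z : ℂ) (G : ℂ →₀ ℂ[X]) :
    ∫ w, (EV w G) * cexp (z * (starRingEnd ℂ) w) * gw w = π * EV z G := by
  have := integral_EV (repC_const 1) z G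
  rw [tayE_one] at this
  simpa using this

/-- product -/
noncomputable def mulE (f G : ℂ →₀ ℂ[X]) : ℂ →₀ ℂ[X] :=
  ∑ d ∈ f.support, ∑ c ∈ G.support, Finsupp.single (d + c) (f d * G c)

lemma EV_mulE (z : ℂ) (f G : ℂ →₀ ℂ[X]) : EV z (mulE f G) = EV z f * EV z G := by
  rw [mulE, map_sum, EV_eq z f, EV_eq z G, Finset.sum_mul_sum]
  refine Finset.sum_congr rfl fun d _ => ?_
  rw [map_sum]
  refine Finset.sum_congr rfl fun c _ => ?_
  rw [EV_single, Polynomial.eval_mul, add_mul, Complex.exp_add]
  ring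

end Pool.Agent.V11101.FockSob
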