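import Mathlib
import Pool.Agent.V11101.FSb

open MeasureTheory Complex
open scoped ComplexConjugate Real Polynomial Nat

namespace Pool.Agent.V11101.FockSob

/-! ### The Fock-Sobolev space setting -/

/-- `dμ_m(z) = (π m!)⁻¹ |z|^{2m} e^{-|z|²} dA(z)` -/
noncomputable def fsMeasure (m : ℕ) : Measure ℂ :=
  volume.withDensity fun w =>
    ENNReal.ofReal (‖w‖ ^ (2 * m) * Real.exp (-‖w‖ ^ 2) / (π * m !))

/-- reproducing kernel `K_m(z,w) = ∑_k m!/(k+m)! (z \bar w)^k` -/
noncomputable def fsKernel (m : ℕ) (z w : ℂ) : ℂ :=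
  ∑' k : ℕ, ((m ! : ℂ) / ((k + m)! : ℂ)) * (z * (starRingEnd ℂ) w) ^ k

/-- The Toeplitz operator `T_u F (z) = ∫ u F K_m(z,·) dμ_m` -/
noncomputable def toeplitz (m : ℕ) (u F : ℂ → ℂ) (z : ℂ) : ℂ :=
  ∫ w, u w * F w * fsKernel m z w ∂(fsMeasure m)

lemma kernel_formula (m : ℕ) (x : ℂ) :
    x ^ m * ∑' k : ℕ, ((m ! : ℂ) / ((k + m)! : ℂ)) * x ^ k
      = (m ! : ℂ) * (cexp x - ∑ j ∈ Finset.range m, x ^ j / (j ! : ℂ)) := by
  have h0 : HasSum (fun n : ℕ => x ^ n / (n ! : ℂ)) (cexp x) := by
    rw [Complex.exp_eq_exp_ℂ]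
    exact NormedSpace.expSeries_div_hasSum_exp x
  have h1 := (hasSum_nat_add_iff' m).mpr h0
  have h2 := h1.mul_left (m ! : ℂ)
  rw [← h2.tsum_eq, ← tsum_mul_left]
  refine tsum_congr fun k => ?_
  rw [pow_add]
  ring

lemma density_eq (m : ℕ) (w : ℂ) :
    ((‖w‖ ^ (2 * m) * Real.exp (-‖w‖ ^ 2) / (π * m !) : ℝ) : ℂ)
      = w ^ m * (starRingEnd ℂ) w ^ m * gw w / (π * m !) := by
  have h1 : ((‖w‖ : ℂ)) ^ (2 * m) = w ^ m * (starRingEnd ℂ) w ^ m := by
    rw [← mul_pow, Complex.mul_conj, Complex.normSq_eq_norm_sq]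
    push_cast
    rw [← pow_mul]
  push_cast
  rw [h1, gw]

theorem toeplitz_formula (m : ℕ) (f G : ℂ →₀ ℂ[X]) {ψ : ℂ → ℂ} (h : RepC ψ) (u F : ℂ → ℂ)
    (hu : ∀ w, u w = EV w f + ψ ((starRingEnd ℂ) w)) (hF : ∀ w, w ^ m * F w = EV w G) :
    ∃ q : ℂ[X], q.degree < m ∧
      ∀ z, z ^ m * toeplitz m u F z = EV z (mulE f G + tayE ψ G) + q.eval z := by
  have hπ : (π : ℂ) ≠ 0 := by exact_mod_cast Real.pi_ne_zero
  have hm : (m ! : ℂ) ≠ 0 := by exact_mod_cast Nat.factorial_ne_zero m
  have hug : Good u := by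
    have : u = fun w => EV w f + ψ ((starRingEnd ℂ) w) := funext hu
    rw [this]
    exact (good_EV f).add h.1.comp_conj
  have huG : Good (fun w => u w * EV w G) := hug.mul (good_EV G)
  let q : ℂ[X] := -∑ j ∈ Finset.range m, Polynomial.C ((π : ℂ)⁻¹ * ((j ! : ℂ)⁻¹ *
    ∫ w, (u w * EV w G) * (starRingEnd ℂ) w ^ j * gw w)) * Polynomial.X ^ j
  refine ⟨q, ?_, fun z => ?_⟩
  · rw [Polynomial.degree_neg, ← Polynomial.mem_degreeLT]
    refine Submodule.sum_mem _ fun j hj => ?_
    rw [Polynomial.mem_degreeLT]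
    refine lt_of_le_of_lt (Polynomial.degree_C_mul_X_pow_le j _) ?_
    exact_mod_cast Finset.mem_range.mp hj
  · -- pointwise identity
    have hpt : ∀ w, z ^ m * ((ENNReal.ofReal (‖w‖ ^ (2 * m) * Real.exp (-‖w‖ ^ 2) /
        (π * m !))).toReal • (u w * F w * fsKernel m z w))
        = (π : ℂ)⁻¹ * ((u w * EV w G) * cexp (z * (starRingEnd ℂ) w) * gw w
          - ∑ j ∈ Finset.range m, z ^ j * ((j ! : ℂ)⁻¹ *
            ((u w * EV w G) * (starRingEnd ℂ) w ^ j * gw w))) := by
      intro w
      rw [ENNReal.toReal_ofReal (by positivity), Complex.real_smul, density_eq, ← hF w]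
      have hk := kernel_formula m (z * (starRingEnd ℂ) w)
      rw [← fsKernel] at hk
      have e1 : z ^ m * (w ^ m * (starRingEnd ℂ) w ^ m * gw w / (π * m !) *
          (u w * F w * fsKernel m z w))
          = (π : ℂ)⁻¹ * (m ! : ℂ)⁻¹ * (u w * (w ^ m * F w) * gw w) *
            ((z * (starRingEnd ℂ) w) ^ m * fsKernel m z w) := by
        rw [mul_pow]
        field_simp
      rw [e1, hk]
      have e2 : ∑ j ∈ Finset.range m, z ^ j * ((j ! : ℂ)⁻¹ *
            ((u w * (w ^ m * F w)) * (starRingEnd ℂ) w ^ j * gw w))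
          = (u w * (w ^ m * F w) * gw w) *
            ∑ j ∈ Finset.range m, (z * (starRingEnd ℂ) w) ^ j / (j ! : ℂ) := by
        rw [Finset.mul_sum]
        refine Finset.sum_congr rfl fun j _ => ?_
        rw [mul_pow]
        ring
      rw [e2]
      field_simp
    have hmeas : Measurable fun w : ℂ =>
        ENNReal.ofReal (‖w‖ ^ (2 * m) * Real.exp (-‖w‖ ^ 2) / (π * m !)) := by fun_prop
    have hi1 : Integrable (fun w => (u w * EV w G) * cexp (z * (starRingEnd ℂ) w) * gw w) :=
      (huG.mul (good_exp_conj z)).integrable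
    have hi2 : ∀ j ∈ Finset.range m, Integrable (fun w => z ^ j * ((j ! : ℂ)⁻¹ *
            ((u w * EV w G) * (starRingEnd ℂ) w ^ j * gw w))) := fun j _ =>
      ((huG.mul (good_conj_id.pow j)).integrable.const_mul _).const_mul _
    have hi3 := integrable_finsetSum _ hi2
    rw [toeplitz, fsMeasure, integral_withDensity_eq_integral_toReal_smul hmeas
      (Filter.Eventually.of_forall fun w => ENNReal.ofReal_lt_top), ← integral_const_mul,
      integral_congr_ae (Filter.Eventually.of_forall hpt), integral_const_mul,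
      integral_sub hi1 hi3, integral_finsetSum _ hi2]
    have hi4 : Integrable (fun w => (EV w (mulE f G)) * cexp (z * (starRingEnd ℂ) w) * gw w) :=
      ((good_EV _).mul (good_exp_conj z)).integrable
    have hi5 : Integrable (fun w => (ψ ((starRingEnd ℂ) w) * EV w G) *
        cexp (z * (starRingEnd ℂ) w) * gw w) :=
      ((h.1.comp_conj.mul (good_EV G)).mul (good_exp_conj z)).integrable
    have hmain : ∫ w, (u w * EV w G) * cexp (z * (starRingEnd ℂ) w) * gw w
        = π * EV z (mulE f G + tayE ψ G) := by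
      rw [map_add, mul_add, ← integral_EV_one, ← integral_EV h, ← integral_add hi4 hi5]
      refine integral_congr_ae (Filter.Eventually.of_forall fun w => ?_)
      simp only [hu, EV_mulE]
      ring
    rw [hmain, mul_sub, ← mul_assoc, inv_mul_cancel₀ hπ, one_mul, sub_eq_add_neg]
    congr 1
    simp only [q, Polynomial.eval_neg, Polynomial.eval_finsetSum, Polynomial.eval_mul,
      Polynomial.eval_C, Polynomial.eval_pow, Polynomial.eval_X]
    rw [Finset.mul_sum]
    congr 1
    refine Finset.sum_congr rfl fun j _ => ?_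
    rw [integral_const_mul, integral_const_mul]
    ring

/-! ### linear independence of exponential polynomials -/

lemma step (S : Finset ℂ) (a : ℂ) (P : ℂ → ℂ[X])
    (h : ∀ z, ∑ c ∈ S, (P c).eval z * cexp (c * z) = 0) :
    ∀ z, ∑ c ∈ S, ((P c).derivative + Polynomial.C (c - a) * P c).eval z * cexp (c * z) = 0 := by
  intro z
  have h1 : HasDerivAt (fun z => ∑ c ∈ S, (P c).eval z * cexp (c * z))
      (∑ c ∈ S, ((P c).derivative.eval z * cexp (c * z) +
        (P c).eval z * (cexp (c * z) * (c * 1)))) z :=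
    HasDerivAt.fun_sum fun c _ => ((P c).hasDerivAt z).mul (((hasDerivAt_id' z).const_mul c).cexp)
  have h2 : (fun z => ∑ c ∈ S, (P c).eval z * cexp (c * z)) = fun _ => 0 := funext h
  rw [h2] at h1
  have h3 := h1.unique (hasDerivAt_const z (0 : ℂ))
  have h4 := h z
  calc _ = ∑ c ∈ S, ((P c).derivative.eval z * cexp (c * z) +
        (P c).eval z * (cexp (c * z) * (c * 1))) - a * ∑ c ∈ S, (P c).eval z * cexp (c * z) := by
          rw [Finset.mul_sum, ← Finset.sum_sub_distrib]
          refine Finset.sum_congr rfl fun c _ => ?_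
          simp only [Polynomial.eval_add, Polynomial.eval_mul, Polynomial.eval_C]
          ring
    _ = 0 := by rw [h3, h4]; ring

lemma delta_inj {b : ℂ} (hb : b ≠ 0) :
    Function.Injective fun p : ℂ[X] => p.derivative + Polynomial.C b * p := by
  intro p q hpq
  by_contra hne
  have h1 : (p - q).derivative + Polynomial.C b * (p - q) = 0 := by
    simp only at hpq
    rw [Polynomial.derivative_sub]
    linear_combination hpq
  have h2 : p - q ≠ 0 := sub_ne_zero.mpr hne
  have h3 := congrArg (fun r : ℂ[X] => r.coeff (p - q).natDegree) h1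
  simp only [Polynomial.coeff_add, Polynomial.coeff_C_mul, Polynomial.coeff_zero] at h3
  rw [Polynomial.coeff_derivative, Polynomial.coeff_eq_zero_of_natDegree_lt (Nat.lt_succ_self _),
    zero_mul, zero_add] at h3
  rcases mul_eq_zero.mp h3 with h4 | h4
  · exact hb h4
  · exact h2 (Polynomial.leadingCoeff_eq_zero.mp h4)

lemma lin_indep (S : Finset ℂ) : ∀ P : ℂ → ℂ[X],
    (∀ z, ∑ c ∈ S, (P c).eval z * cexp (c * z) = 0) → ∀ c ∈ S, P c = 0 := by
  classical
  induction S using Finset.induction_on with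
  | empty => intro P _ c hc; simp at hc
  | insert a S ha ih =>
    intro P hP
    have hiter : ∀ N : ℕ, ∀ z, ∑ c ∈ insert a S,
        (((fun p : ℂ[X] => p.derivative + Polynomial.C (c - a) * p)^[N]) (P c)).eval z *
          cexp (c * z) = 0 := by
      intro N
      induction N with
      | zero => simpa using hP
      | succ N ihN =>
        have := step (insert a S) a
          (fun c => ((fun p : ℂ[X] => p.derivative + Polynomial.C (c - a) * p)^[N]) (P c)) ihN
        intro z
        have h2 := this z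
        simp only [Function.iterate_succ_apply']
        exact h2
    have hN := hiter ((P a).natDegree + 1)
    have ha0 : ((fun p : ℂ[X] => p.derivative + Polynomial.C (a - a) * p)^[(P a).natDegree + 1])
        (P a) = 0 := by
      have e : (fun p : ℂ[X] => p.derivative + Polynomial.C (a - a) * p)
          = fun p => Polynomial.derivative p := by
        funext p; simp
      rw [e]
      exact Polynomial.iterate_derivative_eq_zero (Nat.lt_succ_self _)
    have hS : ∀ z, ∑ c ∈ S,
        (((fun p : ℂ[X] => p.derivative + Polynomial.C (c - a) * p)^[(P a).natDegree + 1])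
          (P c)).eval z * cexp (c * z) = 0 := by
      intro z
      have := hN z
      rw [Finset.sum_insert ha, ha0, Polynomial.eval_zero, zero_mul, zero_add] at this
      exact this
    have hS0 : ∀ c ∈ S, P c = 0 := by
      intro c hc
      have h1 := ih _ hS c hc
      have hca : c - a ≠ 0 := sub_ne_zero.mpr fun h => ha (h ▸ hc)
      have hinj := (delta_inj hca).iterate ((P a).natDegree + 1)
      apply hinj
      rw [h1]
      have hz : ∀ N : ℕ, ((fun p : ℂ[X] => p.derivative + Polynomial.C (c - a) * p)^[N]) 0 = 0 := by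
        intro N
        induction N with
        | zero => rfl
        | succ N ihN => rw [Function.iterate_succ_apply', ihN]; simp
      rw [hz]
    have hPa : P a = 0 := by
      apply Polynomial.funext
      intro z
      have := hP z
      rw [Finset.sum_insert ha, Finset.sum_eq_zero (fun c hc => by rw [hS0 c hc]; simp),
        add_zero] at this
      rcases mul_eq_zero.mp this with h | h
      · simpa using h
      · exact absurd h (Complex.exp_ne_zero _)
    intro c hc
    rcases Finset.mem_insert.mp hc with rfl | hc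
    · exact hPa
    · exact hS0 c hc

lemma EV_inj {G : ℂ →₀ ℂ[X]} (h : ∀ z, EV z G = 0) : G = 0 := by
  ext1 c
  by_cases hc : c ∈ G.support
  · exact lin_indep G.support (fun c => G c) (fun z => by rw [← EV_eq]; exact h z) c hc
  · simpa using hc

end Pool.Agent.V11101.FockSob
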