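import Mathlib
import Pool.Agent.V11101.FSc

open MeasureTheory Complex
open scoped ComplexConjugate Real Polynomial

namespace Pool.Agent.V11101.FockSob

lemma mulE_apply (f G : ℂ →₀ ℂ[X]) (e : ℂ) :
    mulE f G e = ∑ d ∈ f.support, f d * G (e - d) := by
  classical
  rw [mulE, Finsupp.finsetSum_apply]
  refine Finset.sum_congr rfl fun d _ => ?_
  rw [Finsupp.finsetSum_apply]
  by_cases h : e - d ∈ G.support
  · rw [Finset.sum_eq_single (e - d)]
    · rw [Finsupp.single_apply, if_pos (by ring)]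
    · intro c _ hc
      rw [Finsupp.single_apply, if_neg]
      intro h2
      exact hc (by rw [← h2]; ring)
    · intro h2; exact absurd h h2
  · rw [Finset.sum_eq_zero]
    · have : G (e - d) = 0 := by simpa using h
      rw [this, mul_zero]
    · intro c hc
      rw [Finsupp.single_apply, if_neg]
      intro h2
      apply h
      have : e - d = c := by rw [← h2]; ring
      rwa [this]

lemma mulE_apply_poly (f G : ℂ →₀ ℂ[X]) (hf : ∀ d, d ≠ 0 → f d = 0) (e : ℂ) :
    mulE f G e = f 0 * G e := by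
  rw [mulE_apply]
  by_cases h : (0 : ℂ) ∈ f.support
  · rw [Finset.sum_eq_single 0]
    · rw [sub_zero]
    · intro d _ hd; rw [hf d hd, zero_mul]
    · intro h2; exact absurd h h2
  · have h0 : f 0 = 0 := by simpa using h
    rw [h0, zero_mul]
    refine Finset.sum_eq_zero fun d hd => ?_
    by_cases hd0 : d = 0
    · subst hd0; rw [h0, zero_mul]
    · rw [hf d hd0, zero_mul]

lemma mulE_single_apply (f : ℂ →₀ ℂ[X]) (p : ℂ[X]) (e : ℂ) :
    mulE f (Finsupp.single 0 p) e = f e * p := by
  rw [mulE_apply]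
  by_cases h : e ∈ f.support
  · rw [Finset.sum_eq_single e]
    · simp
    · intro d _ hd
      rw [Finsupp.single_apply, if_neg, mul_zero]
      intro h2; exact hd (sub_eq_zero.mp h2.symm).symm
    · intro h2; exact absurd h h2
  · have h0 : f e = 0 := by simpa using h
    rw [h0, zero_mul]
    refine Finset.sum_eq_zero fun d hd => ?_
    rw [Finsupp.single_apply, if_neg, mul_zero]
    intro h2
    have : e = d := sub_eq_zero.mp h2.symm
    exact h (this ▸ hd)

lemma tay_eq (κ : ℂ → ℂ) (c : ℂ) (p : ℂ[X]) :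
    tay κ c p = ∑ n ∈ p.support, ∑ j ∈ Finset.range (n + 1),
      Polynomial.monomial (n - j) ((n.choose j * iteratedDeriv j κ c) * p.coeff n) := by
  conv_lhs => rw [p.as_sum_support]
  rw [map_sum]
  exact Finset.sum_congr rfl fun n _ => tay_monomial κ c n _

lemma natDegree_tay_le (κ : ℂ → ℂ) (c : ℂ) (p : ℂ[X]) :
    (tay κ c p).natDegree ≤ p.natDegree := by
  rw [tay_eq]
  refine Polynomial.natDegree_sum_le_of_forall_le _ _ fun n hn => ?_
  refine Polynomial.natDegree_sum_le_of_forall_le _ _ fun j _ => ?_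
  refine (Polynomial.natDegree_monomial_le _).trans ?_
  exact (Nat.sub_le _ _).trans (Polynomial.le_natDegree_of_mem_supp n hn)

lemma coeff_tay (κ : ℂ → ℂ) (c : ℂ) (p : ℂ[X]) (r : ℕ) (hr : ∀ j < r, iteratedDeriv j κ c = 0)
    (hrN : r ≤ p.natDegree) (hp : p ≠ 0) :
    (tay κ c p).coeff (p.natDegree - r)
      = (p.natDegree.choose r * iteratedDeriv r κ c) * p.leadingCoeff := by
  rw [tay_eq, Polynomial.finsetSum_coeff, Finset.sum_eq_single p.natDegree]
  · rw [Polynomial.finsetSum_coeff, Finset.sum_eq_single r]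
    · rw [Polynomial.coeff_monomial, if_pos rfl]; rfl
    · intro j hj hjr
      rw [Polynomial.coeff_monomial, if_neg]
      have := Finset.mem_range.mp hj
      omega
    · intro h
      exact absurd (Finset.mem_range.mpr (by omega)) h
  · intro n hn hne
    rw [Polynomial.finsetSum_coeff]
    refine Finset.sum_eq_zero fun j hj => ?_
    rw [Polynomial.coeff_monomial]
    split_ifs with h
    · have h1 := Polynomial.le_natDegree_of_mem_supp n hn
      have h2 := Finset.mem_range.mp hj
      have h3 : j < r := by omega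
      rw [hr j h3]
      simp
    · rfl
  · intro h
    exfalso
    exact h (Polynomial.natDegree_mem_support_of_nonzero hp)

lemma tay_const_add (κ : ℂ → ℂ) (a c : ℂ) (p : ℂ[X]) :
    tay (fun w => a + κ w) c p = Polynomial.C a * p + tay κ c p := by
  induction p using Polynomial.induction_on' with
  | add p q hp hq => rw [map_add, hp, hq, map_add]; ring
  | monomial n b =>
    rw [tay_monomial, tay_monomial, Finset.sum_range_succ', Finset.sum_range_succ']
    have : ∀ j ∈ Finset.range n, Polynomial.monomial (n - (j + 1))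
        ((n.choose (j + 1) * iteratedDeriv (j + 1) (fun w => a + κ w) c) * b)
        = Polynomial.monomial (n - (j + 1)) ((n.choose (j + 1) * iteratedDeriv (j + 1) κ c) * b) := by
      intro j _
      rw [iteratedDeriv_const_add (Nat.succ_pos j)]
    rw [Finset.sum_congr rfl this, iteratedDeriv_zero, iteratedDeriv_zero,
      Polynomial.C_mul_monomial]
    simp only [Nat.choose_zero_right, Nat.cast_one, one_mul, Nat.sub_zero, add_mul, map_add]
    abel

/-- a nonzero entire function has a nonzero Taylor coefficient at each point -/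
lemma exists_order {κ : ℂ → ℂ} (hκ : Differentiable ℂ κ) (hne : ∃ z, κ z ≠ 0) (c : ℂ) :
    ∃ r, iteratedDeriv r κ c ≠ 0 ∧ ∀ j < r, iteratedDeriv j κ c = 0 := by
  classical
  have h : ∃ r, iteratedDeriv r κ c ≠ 0 := by
    by_contra hcon
    push Not at hcon
    obtain ⟨z, hz⟩ := hne
    apply hz
    rw [← Complex.taylorSeries_eq_of_entire' c z hκ]
    simp [hcon]
  refine ⟨Nat.find h, Nat.find_spec h, fun j hj => ?_⟩
  have := Nat.find_min h hj
  simpa using this

lemma core1 {L : Type*} [AddCommGroup L] [LinearOrder L] [IsOrderedAddMonoid L] (lam : ℂ →+ L)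
    (hlam : Function.Injective lam) (κ : ℂ → ℂ) (f G : ℂ →₀ ℂ[X]) (d : ℂ) (hd : f d ≠ 0)
    (hpos : 0 < lam d) (hG : G ≠ 0) :
    ∃ d' c', d' ≠ 0 ∧ f d' ≠ 0 ∧ G c' ≠ 0 ∧
      (mulE f G + tayE κ G) (d' + c') = f d' * G c' := by
  obtain ⟨d', hd', hmax⟩ := Finset.exists_max_image f.support lam ⟨d, by simpa using hd⟩
  obtain ⟨c', hc', hmaxc⟩ := Finset.exists_max_image G.support lam
    (Finsupp.support_nonempty_iff.mpr hG)
  have hpos' : 0 < lam d' := lt_of_lt_of_le hpos (hmax d (by simpa using hd))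
  refine ⟨d', c', ?_, by simpa using hd', by simpa using hc', ?_⟩
  · rintro rfl; simp at hpos'
  · rw [Finsupp.add_apply, tayE_apply, mulE_apply]
    have h1 : G (d' + c') = 0 := by
      by_contra h
      have := hmaxc (d' + c') (by simpa using h)
      rw [map_add] at this
      have : lam d' ≤ 0 := by simpa using this
      exact absurd hpos' (not_lt.mpr this)
    rw [h1, map_zero, add_zero, Finset.sum_eq_single d']
    · rw [add_sub_cancel_left]
    · intro b hb hbne
      have h2 : G (d' + c' - b) = 0 := by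
        by_contra h
        have h3 := hmaxc (d' + c' - b) (by simpa using h)
        have h4 := hmax b hb
        have h5 : lam b ≠ lam d' := fun h => hbne (hlam h)
        have h6 : lam b < lam d' := lt_of_le_of_ne h4 h5
        rw [map_sub, map_add] at h3
        have h7 : lam d' + lam c' ≤ lam c' + lam b := sub_le_iff_le_add.mp h3
        rw [add_comm (lam c')] at h7
        exact absurd h6 (not_lt.mpr (le_of_add_le_add_right h7))
      rw [h2, mul_zero]
    · intro h; exact absurd hd' h

/-- lexicographic embedding of `ℂ` -/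
noncomputable def lexHom : ℂ →+ ℝ ×ₗ ℝ where
  toFun c := toLex (c.re, c.im)
  map_zero' := rfl
  map_add' _ _ := rfl

lemma lexHom_inj : Function.Injective lexHom := by
  intro a b h
  have h1 : (a.re, a.im) = (b.re, b.im) := toLex.injective h
  exact Complex.ext (congrArg Prod.fst h1) (congrArg Prod.snd h1)

lemma core2 (κ : ℂ → ℂ) (f G : ℂ →₀ ℂ[X]) (d : ℂ) (hd0 : d ≠ 0) (hd : f d ≠ 0) (hG : G ≠ 0) :
    ∃ d' c', d' ≠ 0 ∧ f d' ≠ 0 ∧ G c' ≠ 0 ∧
      (mulE f G + tayE κ G) (d' + c') = f d' * G c' := by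
  have hne : lexHom d ≠ 0 := fun h => hd0 (lexHom_inj (by rw [h, map_zero]))
  rcases lt_or_gt_of_ne hne with h | h
  · exact core1 (-lexHom) (fun a b hab => lexHom_inj (by simpa using hab)) κ f G d hd
      (by simpa using h) hG
  · exact core1 lexHom lexHom_inj κ f G d hd h hG

theorem lemmaA (m : ℕ) (f : ℂ →₀ ℂ[X]) {κ : ℂ → ℂ} (hκ : Differentiable ℂ κ)
    (hne : ¬ ∃ a : ℂ, (∀ d, d ≠ 0 → f d = 0) ∧ f 0 = Polynomial.C a ∧ ∀ c, κ c = -a) (c₁ : ℂ) :
    ∃ R : ℕ, ∀ G : ℂ →₀ ℂ[X], (∀ c, c ≠ 0 → G c ≠ 0 → m ≤ (G c).natDegree) →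
      R ≤ (G c₁).natDegree → ∀ q : ℂ[X], q.degree < m →
        ¬ ∀ z, EV z (mulE f G + tayE κ G) + q.eval z = 0 := by
  have hzero : ∀ (G : ℂ →₀ ℂ[X]) (q : ℂ[X]),
      (∀ z, EV z (mulE f G + tayE κ G) + q.eval z = 0) →
      ∀ e, (mulE f G + tayE κ G) e + (Finsupp.single 0 q : ℂ →₀ ℂ[X]) e = 0 := by
    intro G q h e
    have h1 : mulE f G + tayE κ G + Finsupp.single 0 q = 0 := by
      apply EV_inj
      intro z
      rw [map_add, EV_single, zero_mul, Complex.exp_zero, mul_one]
      exact h z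
    rw [← Finsupp.add_apply, h1, Finsupp.zero_apply]
  by_cases hcase : ∃ d, d ≠ 0 ∧ f d ≠ 0
  · obtain ⟨d, hd0, hd⟩ := hcase
    refine ⟨1, fun G hG hR q hq hcon => ?_⟩
    have hG0 : G ≠ 0 := by
      rintro rfl
      simp at hR
    obtain ⟨d', c', hd'0, hd', hc', heq⟩ := core2 κ f G d hd0 hd hG0
    have h1 := hzero G q hcon (d' + c')
    rw [heq] at h1
    have hprod : f d' * G c' ≠ 0 := mul_ne_zero hd' hc'
    by_cases he : d' + c' = 0
    · have hc0 : c' ≠ 0 := by
        rintro rfl
        exact hd'0 (by simpa using he)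
      rw [he, Finsupp.single_eq_same] at h1
      have h2 : q = -(f d' * G c') := by linear_combination h1
      have h3 := hG c' hc0 hc'
      rw [h2, Polynomial.degree_neg, Polynomial.degree_eq_natDegree hprod,
        Polynomial.natDegree_mul hd' hc'] at hq
      have : (f d').natDegree + (G c').natDegree < m := by exact_mod_cast hq
      omega
    · rw [Finsupp.single_apply, if_neg (fun h => he h.symm), add_zero] at h1
      exact hprod h1
  · push Not at hcase
    have hcomp : ∀ (G : ℂ →₀ ℂ[X]) (e : ℂ), (mulE f G + tayE κ G) e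
        = f 0 * G e + tay κ e (G e) := by
      intro G e
      rw [Finsupp.add_apply, mulE_apply_poly f G hcase, tayE_apply]
    have hqc : ∀ (q : ℂ[X]) (N : ℕ), q.degree < m → m ≤ N →
        ((Finsupp.single 0 q : ℂ →₀ ℂ[X]) c₁).coeff N = 0 := by
      intro q N hq hN
      rw [Finsupp.single_apply]
      split_ifs with h
      · exact Polynomial.coeff_eq_zero_of_degree_lt (lt_of_lt_of_le hq (by exact_mod_cast hN))
      · simp
    by_cases hdeg : 1 ≤ (f 0).natDegree
    · refine ⟨m + 1, fun G _ hR q hq hcon => ?_⟩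
      have h1 := hzero G q hcon c₁
      rw [hcomp] at h1
      have hf0 : f 0 ≠ 0 := by
        intro h; rw [h] at hdeg; simp at hdeg
      have hGc : G c₁ ≠ 0 := by
        intro h; rw [h] at hR; simp at hR
      have h2 := congrArg (fun p : ℂ[X] => p.coeff ((f 0).natDegree + (G c₁).natDegree)) h1
      simp only [Polynomial.coeff_add, Polynomial.coeff_zero] at h2
      rw [hqc q _ hq (by omega), Polynomial.coeff_mul_degree_add_degree,
        Polynomial.coeff_eq_zero_of_natDegree_lt
          (lt_of_le_of_lt (natDegree_tay_le κ c₁ (G c₁)) (by omega)), add_zero, add_zero] at h2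
      rcases mul_eq_zero.mp h2 with h | h
      · exact hf0 (Polynomial.leadingCoeff_eq_zero.mp h)
      · exact hGc (Polynomial.leadingCoeff_eq_zero.mp h)
    · have hd0 : (f 0).natDegree = 0 := by omega
      obtain ⟨a, ha⟩ := Polynomial.natDegree_eq_zero.mp hd0
      have hκa : ∃ z, (fun w => a + κ w) z ≠ 0 := by
        by_contra h
        push Not at h
        exact hne ⟨a, hcase, ha.symm, fun c => by
          have := h c
          linear_combination this⟩
      obtain ⟨r, hr1, hr2⟩ := exists_order (κ := fun w => a + κ w)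
        ((differentiable_const a).add hκ) hκa c₁
      refine ⟨m + r + 1, fun G _ hR q hq hcon => ?_⟩
      have h1 := hzero G q hcon c₁
      rw [hcomp, ← ha, ← tay_const_add] at h1
      have hGc : G c₁ ≠ 0 := by
        intro h; rw [h] at hR; simp at hR
      have h2 := congrArg (fun p : ℂ[X] => p.coeff ((G c₁).natDegree - r)) h1
      simp only [Polynomial.coeff_add, Polynomial.coeff_zero] at h2
      rw [hqc q _ hq (by omega), coeff_tay _ _ _ r hr2 (by omega) hGc, add_zero] at h2
      have hch : (((G c₁).natDegree.choose r : ℕ) : ℂ) ≠ 0 := by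
        exact_mod_cast (Nat.choose_pos (by omega)).ne'
      exact mul_ne_zero (mul_ne_zero hch hr1)
        (fun h => hGc (Polynomial.leadingCoeff_eq_zero.mp h)) h2

/-- the exponential polynomial representing `z^m T_v z^n` -/
noncomputable def Gn (m n : ℕ) (f : ℂ →₀ ℂ[X]) (κ : ℂ → ℂ) (q : ℂ[X]) : ℂ →₀ ℂ[X] :=
  mulE f (Finsupp.single 0 (Polynomial.X ^ (m + n))) +
    tayE κ (Finsupp.single 0 (Polynomial.X ^ (m + n))) + Finsupp.single 0 q

lemma Gn_ne (m n : ℕ) (f : ℂ →₀ ℂ[X]) (κ : ℂ → ℂ) (q : ℂ[X]) (c : ℂ) (hc : c ≠ 0) :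
    Gn m n f κ q c = f c * Polynomial.X ^ (m + n) := by
  rw [Gn, Finsupp.add_apply, Finsupp.add_apply, mulE_single_apply, tayE_apply,
    Finsupp.single_apply, Finsupp.single_apply, if_neg (fun h => hc h.symm),
    if_neg (fun h => hc h.symm), map_zero, add_zero, add_zero]

lemma Gn_zero (m n : ℕ) (f : ℂ →₀ ℂ[X]) (κ : ℂ → ℂ) (q : ℂ[X]) :
    Gn m n f κ q 0 = f 0 * Polynomial.X ^ (m + n) + tay κ 0 (Polynomial.X ^ (m + n)) + q := by
  rw [Gn, Finsupp.add_apply, Finsupp.add_apply, mulE_single_apply, tayE_apply,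
    Finsupp.single_eq_same, Finsupp.single_eq_same]

lemma Gn_degree (m n : ℕ) (f : ℂ →₀ ℂ[X]) (κ : ℂ → ℂ) (q : ℂ[X]) (c : ℂ) (hc : c ≠ 0)
    (h : Gn m n f κ q c ≠ 0) : m ≤ (Gn m n f κ q c).natDegree := by
  rw [Gn_ne m n f κ q c hc] at h ⊢
  have hf : f c ≠ 0 := fun h2 => h (by rw [h2, zero_mul])
  rw [Polynomial.natDegree_mul hf (pow_ne_zero _ Polynomial.X_ne_zero), Polynomial.natDegree_X_pow]
  omega

theorem claimB (m : ℕ) (f : ℂ →₀ ℂ[X]) {κ : ℂ → ℂ} (hκ : Differentiable ℂ κ)
    (hne : ¬ ∃ a : ℂ, (∀ d, d ≠ 0 → f d = 0) ∧ f 0 = Polynomial.C a ∧ ∀ c, κ c = -a) :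
    ∃ (c₁ : ℂ) (r : ℕ), ∀ n, r ≤ n → ∀ q : ℂ[X], q.degree < m →
      m + n - r ≤ (Gn m n f κ q c₁).natDegree := by
  by_cases hcase : ∃ d, d ≠ 0 ∧ f d ≠ 0
  · obtain ⟨d, hd0, hd⟩ := hcase
    refine ⟨d, 0, fun n _ q hq => ?_⟩
    rw [Gn_ne m n f κ q d hd0, Polynomial.natDegree_mul hd (pow_ne_zero _ Polynomial.X_ne_zero),
      Polynomial.natDegree_X_pow]
    omega
  · push Not at hcase
    have hqc : ∀ (q : ℂ[X]) (N : ℕ), q.degree < m → m ≤ N → q.coeff N = 0 := fun q N hq hN =>
      Polynomial.coeff_eq_zero_of_degree_lt (lt_of_lt_of_le hq (by exact_mod_cast hN))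
    by_cases hdeg : 1 ≤ (f 0).natDegree
    · refine ⟨0, 0, fun n _ q hq => ?_⟩
      have hf0 : f 0 ≠ 0 := by
        intro h; rw [h] at hdeg; simp at hdeg
      have hK : m + n ≤ (f 0).natDegree + (m + n) := by omega
      refine le_trans (by omega) (Polynomial.le_natDegree_of_ne_zero
        (n := (f 0).natDegree + (m + n)) ?_)
      rw [Gn_zero, Polynomial.coeff_add, Polynomial.coeff_add, hqc q _ hq (by omega),
        Polynomial.coeff_mul_X_pow]
      have htd := natDegree_tay_le κ 0 (Polynomial.X ^ (m + n))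
      rw [Polynomial.natDegree_X_pow] at htd
      rw [Polynomial.coeff_eq_zero_of_natDegree_lt (lt_of_le_of_lt htd (by omega)), add_zero,
        add_zero]
      exact fun h => hf0 (Polynomial.leadingCoeff_eq_zero.mp h)
    · have hd0 : (f 0).natDegree = 0 := by omega
      obtain ⟨a, ha⟩ := Polynomial.natDegree_eq_zero.mp hd0
      have hκa : ∃ z, (fun w => a + κ w) z ≠ 0 := by
        by_contra h
        push Not at h
        exact hne ⟨a, hcase, ha.symm, fun c => by
          have := h c
          linear_combination this⟩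
      obtain ⟨r, hr1, hr2⟩ := exists_order (κ := fun w => a + κ w)
        ((differentiable_const a).add hκ) hκa 0
      refine ⟨0, r, fun n hn q hq => ?_⟩
      refine Polynomial.le_natDegree_of_ne_zero ?_
      rw [Gn_zero, ← ha, ← tay_const_add, Polynomial.coeff_add, hqc q _ hq (by omega), add_zero]
      have hX : (Polynomial.X ^ (m + n) : ℂ[X]) ≠ 0 := pow_ne_zero _ Polynomial.X_ne_zero
      have hXd : (Polynomial.X ^ (m + n) : ℂ[X]).natDegree = m + n := Polynomial.natDegree_X_pow _
      have := coeff_tay (fun w => a + κ w) 0 (Polynomial.X ^ (m + n)) r hr2 (by omega) hX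
      rw [hXd] at this
      rw [this]
      have hch : (((m + n).choose r : ℕ) : ℂ) ≠ 0 := by
        exact_mod_cast (Nat.choose_pos (by omega)).ne'
      exact mul_ne_zero (mul_ne_zero hch hr1)
        (fun h => hX (Polynomial.leadingCoeff_eq_zero.mp h))

end Pool.Agent.V11101.FockSob
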