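import Mathlib
import Pool.Agent.V11101.FSd

open MeasureTheory Complex
open scoped ComplexConjugate Real Polynomial

namespace Pool.Agent.V11101.FockSob

/-- The class `𝒜₁`: finite sums `∑ p_j(z) e^{\bar a_j z}` with polynomials `p_j`. -/
def A1 : Set (ℂ → ℂ) :=
  {f | ∃ (N : ℕ) (p : Fin N → ℂ[X]) (a : Fin N → ℂ),
    ∀ z, f z = ∑ j, (p j).eval z * cexp ((starRingEnd ℂ) (a j) * z)}

lemma A1_finsupp {f : ℂ → ℂ} (hf : f ∈ A1) : ∃ F : ℂ →₀ ℂ[X], ∀ z, f z = EV z F := by
  obtain ⟨N, p, a, h⟩ := hf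
  refine ⟨∑ j, Finsupp.single ((starRingEnd ℂ) (a j)) (p j), fun z => ?_⟩
  rw [h z, map_sum]
  exact Finset.sum_congr rfl fun j _ => (EV_single z _ _).symm

lemma A1_repC {k : ℂ → ℂ} (hk : k ∈ A1) :
    ∃ κ : ℂ → ℂ, RepC κ ∧ ∀ w, (starRingEnd ℂ) (k w) = κ ((starRingEnd ℂ) w) := by
  obtain ⟨N, p, a, h⟩ := hk
  refine ⟨fun w => ∑ j, ∑ i ∈ Finset.range ((p j).natDegree + 1),
    (starRingEnd ℂ) ((p j).coeff i) * w ^ i * cexp (a j * w), ?_, fun w => ?_⟩
  · exact repC_sum _ _ fun j _ => repC_sum _ _ fun i _ => repC_monomial _ _ _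
  · rw [h w, map_sum]
    refine Finset.sum_congr rfl fun j _ => ?_
    rw [map_mul, ← Complex.exp_conj, Polynomial.eval_eq_sum_range, map_sum, Finset.sum_mul]
    refine Finset.sum_congr rfl fun i _ => ?_
    rw [map_mul, map_pow, map_mul, Complex.conj_conj]

lemma good_of_rep (f : ℂ →₀ ℂ[X]) {κ : ℂ → ℂ} (h : RepC κ) :
    Good (fun w => EV w f + κ ((starRingEnd ℂ) w)) :=
  (good_EV f).add h.1.comp_conj

/-- absolute convergence of the integrals -/
theorem integrable_toeplitz (m : ℕ) (G : ℂ →₀ ℂ[X]) (u F : ℂ → ℂ) (hu : Good u)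
    (hF : ∀ w, w ^ m * F w = EV w G) (z : ℂ) :
    Integrable (fun w => u w * F w * fsKernel m z w) (fsMeasure m) := by
  have hπ : (π : ℂ) ≠ 0 := by exact_mod_cast Real.pi_ne_zero
  have hm : (m.factorial : ℂ) ≠ 0 := by exact_mod_cast Nat.factorial_ne_zero m
  have huG : Good (fun w => u w * EV w G) := hu.mul (good_EV G)
  have hmeas : Measurable fun w : ℂ =>
      ENNReal.ofReal (‖w‖ ^ (2 * m) * Real.exp (-‖w‖ ^ 2) / (π * m.factorial)) := by fun_prop
  rw [fsMeasure, integrable_withDensity_iff_integrable_smul' hmeas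
    (Filter.Eventually.of_forall fun w => ENNReal.ofReal_lt_top)]
  by_cases hz : z = 0
  · subst hz
    have hK : ∀ w, fsKernel m 0 w = 1 := by
      intro w
      rw [fsKernel, tsum_eq_single 0]
      · simp [hm]
      · intro b hb; simp [hb]
    have hi := ((huG.mul (good_conj_id.pow m)).integrable).const_mul ((π : ℂ)⁻¹ *
      (m.factorial : ℂ)⁻¹)
    refine hi.congr (Filter.Eventually.of_forall fun w => ?_)
    simp only []
    rw [ENNReal.toReal_ofReal (by positivity), Complex.real_smul, density_eq, hK, ← hF w]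
    field_simp
  · have hzm : z ^ m ≠ 0 := pow_ne_zero _ hz
    have hi1 : Integrable (fun w => (u w * EV w G) * cexp (z * (starRingEnd ℂ) w) * gw w) :=
      (huG.mul (good_exp_conj z)).integrable
    have hi2 : ∀ j ∈ Finset.range m, Integrable (fun w => z ^ j * (((j.factorial : ℕ) : ℂ)⁻¹ *
            ((u w * EV w G) * (starRingEnd ℂ) w ^ j * gw w))) := fun j _ =>
      ((huG.mul (good_conj_id.pow j)).integrable.const_mul _).const_mul _
    have hi3 := integrable_finsetSum _ hi2
    have hi := (hi1.sub hi3).const_mul ((z ^ m)⁻¹ * (π : ℂ)⁻¹)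
    refine hi.congr (Filter.Eventually.of_forall fun w => ?_)
    simp only [Pi.sub_apply]
    rw [ENNReal.toReal_ofReal (by positivity), Complex.real_smul, density_eq, ← hF w]
    have hk := kernel_formula m (z * (starRingEnd ℂ) w)
    rw [← fsKernel] at hk
    have e2 : ∑ j ∈ Finset.range m, z ^ j * (((j.factorial : ℕ) : ℂ)⁻¹ *
          ((u w * (w ^ m * F w)) * (starRingEnd ℂ) w ^ j * gw w))
        = (u w * (w ^ m * F w) * gw w) *
          ∑ j ∈ Finset.range m, (z * (starRingEnd ℂ) w) ^ j / ((j.factorial : ℕ) : ℂ) := by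
      rw [Finset.mul_sum]
      refine Finset.sum_congr rfl fun j _ => ?_
      rw [mul_pow]
      ring
    have e1 : (w ^ m * (starRingEnd ℂ) w ^ m * gw w / (π * m.factorial) *
          (u w * F w * fsKernel m z w))
          = (z ^ m)⁻¹ * (π : ℂ)⁻¹ * (m.factorial : ℂ)⁻¹ * (u w * (w ^ m * F w) * gw w) *
            ((z * (starRingEnd ℂ) w) ^ m * fsKernel m z w) := by
      rw [mul_pow]
      field_simp
    rw [e1, hk, e2]
    field_simp

/-! ### version for kernels -/

lemma mulE_single_apply' (f : ℂ →₀ ℂ[X]) (b : ℂ) (p : ℂ[X]) (e : ℂ) :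
    mulE f (Finsupp.single b p) e = f (e - b) * p := by
  rw [mulE_apply]
  by_cases h : e - b ∈ f.support
  · rw [Finset.sum_eq_single (e - b)]
    · rw [sub_sub_cancel, Finsupp.single_eq_same]
    · intro d _ hd
      rw [Finsupp.single_apply, if_neg, mul_zero]
      intro h2; exact hd (by rw [h2]; ring)
    · intro h2; exact absurd h h2
  · have h0 : f (e - b) = 0 := by simpa using h
    rw [h0, zero_mul]
    refine Finset.sum_eq_zero fun d hd => ?_
    rw [Finsupp.single_apply, if_neg, mul_zero]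
    intro h2
    apply h
    have : e - b = d := by rw [h2]; ring
    rwa [this]

lemma mulE_sub_apply (f A B : ℂ →₀ ℂ[X]) (e : ℂ) :
    mulE f (A - B) e = mulE f A e - mulE f B e := by
  rw [mulE_apply, mulE_apply, mulE_apply, ← Finset.sum_sub_distrib]
  refine Finset.sum_congr rfl fun d _ => ?_
  rw [Finsupp.sub_apply, mul_sub]

lemma tay_C (κ : ℂ → ℂ) (c a : ℂ) : tay κ c (Polynomial.C a) = Polynomial.C (κ c * a) := by
  rw [← Polynomial.monomial_zero_left, tay_monomial]
  simp

lemma lemmaBk (f : ℂ →₀ ℂ[X]) {κ : ℂ → ℂ} (hκ : Differentiable ℂ κ)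
    (hne : ¬ ∃ a : ℂ, (∀ d, d ≠ 0 → f d = 0) ∧ f 0 = Polynomial.C a ∧ ∀ c, κ c = -a) :
    ∃ (c₁ : ℂ) (V : ℂ → ℂ), Differentiable ℂ V ∧ (∃ z, V z ≠ 0) ∧
      ∀ (b s : ℂ) (t q : ℂ[X]), s ≠ 0 → b + c₁ ≠ 0 → f (b + c₁) = 0 → V b ≠ 0 →
        (mulE f (Finsupp.single b (Polynomial.C s) - Finsupp.single 0 t) +
          tayE κ (Finsupp.single b (Polynomial.C s) - Finsupp.single 0 t) +
          Finsupp.single 0 q : ℂ →₀ ℂ[X]) (b + c₁) ≠ 0 := by
  have hcomp : ∀ (b s c₁ : ℂ) (t q : ℂ[X]), b + c₁ ≠ 0 → f (b + c₁) = 0 →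
        (mulE f (Finsupp.single b (Polynomial.C s) - Finsupp.single 0 t) +
          tayE κ (Finsupp.single b (Polynomial.C s) - Finsupp.single 0 t) +
          Finsupp.single 0 q : ℂ →₀ ℂ[X]) (b + c₁)
        = f c₁ * Polynomial.C s + (if c₁ = 0 then Polynomial.C (κ b * s) else 0) := by
    intro b s c₁ t q hb hf
    have hs0 : ∀ p : ℂ[X], (Finsupp.single 0 p : ℂ →₀ ℂ[X]) (b + c₁) = 0 := by
      intro p
      rw [Finsupp.single_apply, if_neg (fun h => hb h.symm)]
    rw [Finsupp.add_apply, Finsupp.add_apply, mulE_sub_apply, mulE_single_apply',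
      mulE_single_apply', sub_zero, hf, zero_mul, sub_zero, add_sub_cancel_left, tayE_apply,
      Finsupp.sub_apply, hs0, hs0, add_zero, sub_zero]
    by_cases hc : c₁ = 0
    · subst hc
      rw [Finsupp.single_apply, if_pos (by ring), if_pos rfl, add_zero, tay_C]
    · rw [Finsupp.single_apply, if_neg (fun h => hc (by linear_combination -h)), if_neg hc,
        map_zero]
  by_cases hcase : ∃ d, d ≠ 0 ∧ f d ≠ 0
  · obtain ⟨d, hd0, hd⟩ := hcase
    refine ⟨d, fun _ => 1, differentiable_const _, ⟨0, one_ne_zero⟩, fun b s t q hs hb hf _ => ?_⟩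
    rw [hcomp b s d t q hb hf, if_neg hd0, add_zero]
    exact mul_ne_zero hd (by simpa using hs)
  · push Not at hcase
    by_cases hdeg : 1 ≤ (f 0).natDegree
    · refine ⟨0, fun _ => 1, differentiable_const _, ⟨0, one_ne_zero⟩,
        fun b s t q hs hb hf _ => ?_⟩
      rw [hcomp b s 0 t q hb hf, if_pos rfl]
      intro h
      have h2 := congrArg (fun p : ℂ[X] => p.coeff (f 0).natDegree) h
      simp only [Polynomial.coeff_add, Polynomial.coeff_zero, Polynomial.coeff_mul_C] at h2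
      rw [Polynomial.coeff_C, if_neg (by omega), add_zero] at h2
      have hf0 : f 0 ≠ 0 := by
        intro h; rw [h] at hdeg; simp at hdeg
      rcases mul_eq_zero.mp h2 with h | h
      · exact hf0 (Polynomial.leadingCoeff_eq_zero.mp h)
      · exact hs h
    · have hd0 : (f 0).natDegree = 0 := by omega
      obtain ⟨a, ha⟩ := Polynomial.natDegree_eq_zero.mp hd0
      have hκa : ∃ z, (fun w => a + κ w) z ≠ 0 := by
        by_contra h
        push Not at h
        exact hne ⟨a, hcase, ha.symm, fun c => by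
          have := h c
          linear_combination this⟩
      refine ⟨0, fun w => a + κ w, (differentiable_const a).add hκ, hκa,
        fun b s t q hs hb hf hV => ?_⟩
      rw [hcomp b s 0 t q hb hf, if_pos rfl, ← ha, ← Polynomial.C_mul, ← Polynomial.C_add]
      intro h
      have h2 := Polynomial.C_eq_zero.mp h
      apply mul_ne_zero hV hs
      linear_combination h2

lemma core1' {L : Type*} [AddCommGroup L] [LinearOrder L] [IsOrderedAddMonoid L] (lam : ℂ →+ L)
    (hlam : Function.Injective lam) (κ : ℂ → ℂ) (f G : ℂ →₀ ℂ[X]) (d : ℂ) (hd : f d ≠ 0)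
    (hpos : 0 < lam d) (e : ℂ) (hG : G e ≠ 0) (hepos : 0 < lam e) :
    ∃ x, x ≠ 0 ∧ (mulE f G + tayE κ G) x ≠ 0 := by
  obtain ⟨d', hd', hmax⟩ := Finset.exists_max_image f.support lam ⟨d, by simpa using hd⟩
  obtain ⟨c', hc', hmaxc⟩ := Finset.exists_max_image G.support lam ⟨e, by simpa using hG⟩
  have hpos' : 0 < lam d' := lt_of_lt_of_le hpos (hmax d (by simpa using hd))
  have hposc : 0 < lam c' := lt_of_lt_of_le hepos (hmaxc e (by simpa using hG))
  refine ⟨d' + c', ?_, ?_⟩
  · intro h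
    have h1 : 0 < lam (d' + c') := by rw [map_add]; exact add_pos hpos' hposc
    rw [h, map_zero] at h1
    exact lt_irrefl _ h1
  · rw [Finsupp.add_apply, tayE_apply, mulE_apply]
    have h1 : G (d' + c') = 0 := by
      by_contra h
      have := hmaxc (d' + c') (by simpa using h)
      rw [map_add] at this
      have : lam d' ≤ 0 := by simpa using this
      exact absurd hpos' (not_lt.mpr this)
    rw [h1, map_zero, add_zero, Finset.sum_eq_single d']
    · rw [add_sub_cancel_left]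
      exact mul_ne_zero (by simpa using hd') (by simpa using hc')
    · intro b hb hbne
      have h2 : G (d' + c' - b) = 0 := by
        by_contra h
        have h3 := hmaxc (d' + c' - b) (by simpa using h)
        have h4 := hmax b hb
        have h5 : lam b ≠ lam d' := fun h => hbne (hlam h)
        have h6 : lam b < lam d' := lt_of_le_of_ne h4 h5
        rw [map_sub, map_add] at h3
        have h7 : lam d' + lam c' ≤ lam c' + lam b := sub_le_iff_le_add.mp h3
        rw [add_comm (lam c')] at h7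
        exact absurd h6 (not_lt.mpr (le_of_add_le_add_right h7))
      rw [h2, mul_zero]
    · intro h; exact absurd hd' h

lemma lex_pos {e : ℂ} (h : 0 < e.re) : 0 < lexHom e := by
  change toLex ((0 : ℂ).re, (0 : ℂ).im) < toLex (e.re, e.im)
  rw [Prod.Lex.toLex_lt_toLex]
  left
  simpa using h

lemma lemmaAk (f : ℂ →₀ ℂ[X]) {κ : ℂ → ℂ} (hκ : Differentiable ℂ κ)
    (hne : ¬ ∃ a : ℂ, (∀ d, d ≠ 0 → f d = 0) ∧ f 0 = Polynomial.C a ∧ ∀ c, κ c = -a) :
    ∃ (ε : ℝ) (U : ℂ → ℂ), (ε = 1 ∨ ε = -1) ∧ Differentiable ℂ U ∧ (∃ z, U z ≠ 0) ∧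
      ∀ (G : ℂ →₀ ℂ[X]) (e : ℂ), G e ≠ 0 → 0 < ε * e.re → U e ≠ 0 → ∀ q : ℂ[X],
        ¬ ∀ z, EV z (mulE f G + tayE κ G) + q.eval z = 0 := by
  have hzero : ∀ (G : ℂ →₀ ℂ[X]) (q : ℂ[X]),
      (∀ z, EV z (mulE f G + tayE κ G) + q.eval z = 0) →
      ∀ e, e ≠ 0 → (mulE f G + tayE κ G) e = 0 := by
    intro G q h e he
    have h1 : mulE f G + tayE κ G + Finsupp.single 0 q = 0 := by
      apply EV_inj
      intro z
      rw [map_add, EV_single, zero_mul, Complex.exp_zero, mul_one]
      exact h z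
    have h2 : (mulE f G + tayE κ G + Finsupp.single 0 q : ℂ →₀ ℂ[X]) e = 0 := by
      rw [h1]; rfl
    rw [Finsupp.add_apply, Finsupp.single_apply, if_neg (fun h => he h.symm), add_zero] at h2
    exact h2
  by_cases hcase : ∃ d, d ≠ 0 ∧ f d ≠ 0
  · obtain ⟨d, hd0, hd⟩ := hcase
    have hne' : lexHom d ≠ 0 := fun h => hd0 (lexHom_inj (by rw [h, map_zero]))
    rcases lt_or_gt_of_ne hne' with h | h
    · refine ⟨-1, fun _ => 1, Or.inr rfl, differentiable_const _, ⟨0, one_ne_zero⟩,
        fun G e hG he _ q hcon => ?_⟩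
      obtain ⟨x, hx0, hx⟩ := core1' (-lexHom) (fun a b hab => lexHom_inj (by simpa using hab)) κ
        f G d hd (by simpa using h) e hG (by
          have h1 : 0 < lexHom (-e) := lex_pos (by simpa using he)
          simpa using h1)
      exact hx (hzero G q hcon x hx0)
    · refine ⟨1, fun _ => 1, Or.inl rfl, differentiable_const _, ⟨0, one_ne_zero⟩,
        fun G e hG he _ q hcon => ?_⟩
      obtain ⟨x, hx0, hx⟩ := core1' lexHom lexHom_inj κ f G d hd h e hG
        (lex_pos (by simpa using he))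
      exact hx (hzero G q hcon x hx0)
  · push Not at hcase
    have hcomp : ∀ (G : ℂ →₀ ℂ[X]) (e : ℂ), (mulE f G + tayE κ G) e
        = f 0 * G e + tay κ e (G e) := by
      intro G e
      rw [Finsupp.add_apply, mulE_apply_poly f G hcase, tayE_apply]
    by_cases hdeg : 1 ≤ (f 0).natDegree
    · refine ⟨1, fun _ => 1, Or.inl rfl, differentiable_const _, ⟨0, one_ne_zero⟩,
        fun G e hG he _ q hcon => ?_⟩
      have he0 : e ≠ 0 := by rintro rfl; simp at he
      have h1 := hzero G q hcon e he0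
      rw [hcomp] at h1
      have hf0 : f 0 ≠ 0 := by
        intro h; rw [h] at hdeg; simp at hdeg
      have h2 := congrArg (fun p : ℂ[X] => p.coeff ((f 0).natDegree + (G e).natDegree)) h1
      simp only [Polynomial.coeff_add, Polynomial.coeff_zero] at h2
      rw [Polynomial.coeff_mul_degree_add_degree,
        Polynomial.coeff_eq_zero_of_natDegree_lt
          (lt_of_le_of_lt (natDegree_tay_le κ e (G e)) (by omega)), add_zero] at h2
      rcases mul_eq_zero.mp h2 with h | h
      · exact hf0 (Polynomial.leadingCoeff_eq_zero.mp h)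
      · exact hG (Polynomial.leadingCoeff_eq_zero.mp h)
    · have hd0 : (f 0).natDegree = 0 := by omega
      obtain ⟨a, ha⟩ := Polynomial.natDegree_eq_zero.mp hd0
      have hκa : ∃ z, (fun w => a + κ w) z ≠ 0 := by
        by_contra h
        push Not at h
        exact hne ⟨a, hcase, ha.symm, fun c => by
          have := h c
          linear_combination this⟩
      refine ⟨1, fun w => a + κ w, Or.inl rfl, (differentiable_const a).add hκ, hκa,
        fun G e hG he hU q hcon => ?_⟩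
      have he0 : e ≠ 0 := by rintro rfl; simp at he
      have h1 := hzero G q hcon e he0
      rw [hcomp, ← ha, ← tay_const_add] at h1
      have h2 := congrArg (fun p : ℂ[X] => p.coeff ((G e).natDegree - 0)) h1
      simp only [Polynomial.coeff_zero] at h2
      rw [coeff_tay _ _ _ 0 (by omega) (by omega) hG] at h2
      simp only [Nat.choose_zero_right, Nat.cast_one, one_mul, iteratedDeriv_zero] at h2
      exact mul_ne_zero hU (fun h => hG (Polynomial.leadingCoeff_eq_zero.mp h)) h2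

lemma ev_ne {P : ℂ → ℂ} (hP : Differentiable ℂ P) (hne : ∃ z, P z ≠ 0) (z₀ : ℂ) :
    ∀ᶠ z in nhdsWithin z₀ {z₀}ᶜ, P z ≠ 0 := by
  rcases (hP.analyticAt z₀).eventually_eq_zero_or_eventually_ne_zero with h | h
  · exfalso
    obtain ⟨z, hz⟩ := hne
    have h1 : AnalyticOnNhd ℂ P Set.univ := fun x _ => hP.analyticAt x
    have h2 : AnalyticOnNhd ℂ (fun _ : ℂ => (0 : ℂ)) Set.univ := fun x _ => analyticAt_const
    have h3 := h1.eq_of_eventuallyEq h2 (z₀ := z₀) h
    exact hz (congrFun h3 z)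
  · exact h

lemma exists_good_point {U V : ℂ → ℂ} (hU : Differentiable ℂ U) (hU0 : ∃ z, U z ≠ 0)
    (hV : Differentiable ℂ V) (hV0 : ∃ z, V z ≠ 0) (c₁ : ℂ) (ε : ℝ) (hε : ε = 1 ∨ ε = -1)
    (M : ℝ) : ∃ b : ℂ, M < ε * (b + c₁).re ∧ U (b + c₁) ≠ 0 ∧ V b ≠ 0 := by
  have hU' : Differentiable ℂ (fun b => U (b + c₁)) := hU.comp (differentiable_id.add_const c₁)
  have hU0' : ∃ z, (fun b => U (b + c₁)) z ≠ 0 := by
    obtain ⟨z, hz⟩ := hU0
    exact ⟨z - c₁, by simpa using hz⟩
  have hε2 : ε * ε = 1 := by rcases hε with rfl | rfl <;> norm_num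
  set z₀ : ℂ := ((ε * (M + 1) : ℝ) : ℂ) - c₁ with hz₀
  have h1 := ev_ne hU' hU0' z₀
  have h2 := ev_ne hV hV0 z₀
  have h3 : ∀ᶠ z in nhdsWithin z₀ {z₀}ᶜ, M < ε * (z + c₁).re := by
    apply Filter.Eventually.filter_mono nhdsWithin_le_nhds
    have hcont : Continuous fun z : ℂ => ε * (z + c₁).re := by fun_prop
    apply hcont.continuousAt.eventually (lt_mem_nhds ?_)
    have : ε * (z₀ + c₁).re = M + 1 := by
      rw [hz₀, sub_add_cancel, Complex.ofReal_re]
      linear_combination (M + 1) * hε2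
    change M < ε * (z₀ + c₁).re
    rw [this]
    linarith
  obtain ⟨b, hb1, hb2, hb3⟩ := (h1.and (h2.and h3)).exists
  exact ⟨b, hb3, hb1, hb2⟩

end Pool.Agent.V11101.FockSob
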