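import Mathlib
import Pool.Agent.V11101.FSe

open MeasureTheory Complex
open scoped ComplexConjugate Real Polynomial

namespace Pool.Agent.V11101.FockSob

theorem toeplitz_formula' (m : ℕ) (f G : ℂ →₀ ℂ[X]) {ψ : ℂ → ℂ} (h : RepC ψ) (u F : ℂ → ℂ)
    (hu : ∀ w, u w = EV w f + ψ ((starRingEnd ℂ) w)) (hF : ∀ w, w ^ m * F w = EV w G) :
    ∃ q : ℂ[X], q.degree < m ∧
      ∀ z, z ^ m * toeplitz m u F z = EV z (mulE f G + tayE ψ G + Finsupp.single 0 q) := by
  obtain ⟨q, hq, h1⟩ := toeplitz_formula m f G h u F hu hF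
  refine ⟨q, hq, fun z => ?_⟩
  rw [h1 z, map_add _ (mulE f G + tayE ψ G), EV_single, zero_mul, Complex.exp_zero, mul_one]

lemma poly_rep (m : ℕ) (p : ℂ[X]) (w : ℂ) :
    w ^ m * p.eval w = EV w (Finsupp.single 0 (Polynomial.X ^ m * p)) := by
  rw [EV_single, zero_mul, Complex.exp_zero, mul_one, Polynomial.eval_mul, Polynomial.eval_pow,
    Polynomial.eval_X]

lemma kernel_rep (m : ℕ) (a : ℂ) (ha : a ≠ 0) : ∃ (s : ℂ) (t : ℂ[X]), s ≠ 0 ∧ ∀ w,
    w ^ m * fsKernel m w a =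
      EV w (Finsupp.single ((starRingEnd ℂ) a) (Polynomial.C s) - Finsupp.single 0 t) := by
  have hb : (starRingEnd ℂ) a ≠ 0 := by simpa using ha
  set b := (starRingEnd ℂ) a with hbdef
  have hm : (m.factorial : ℂ) ≠ 0 := by exact_mod_cast Nat.factorial_ne_zero m
  refine ⟨m.factorial / b ^ m, ∑ j ∈ Finset.range m,
    Polynomial.C (m.factorial / b ^ m * (b ^ j / (j.factorial : ℂ))) * Polynomial.X ^ j,
    div_ne_zero hm (pow_ne_zero _ hb), fun w => ?_⟩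
  have hk := kernel_formula m (w * b)
  rw [map_sub, EV_single, EV_single, zero_mul, Complex.exp_zero, mul_one, Polynomial.eval_C,
    Polynomial.eval_finsetSum]
  have h1 : fsKernel m w a = ∑' k : ℕ, ((m.factorial : ℂ) / ((k + m).factorial : ℂ)) *
      (w * b) ^ k := rfl
  rw [← h1, mul_pow] at hk
  have hbm : b ^ m ≠ 0 := pow_ne_zero _ hb
  have h2 : w ^ m * fsKernel m w a = (m.factorial : ℂ) / b ^ m *
      (cexp (w * b) - ∑ j ∈ Finset.range m, (w * b) ^ j / (j.factorial : ℂ)) := by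
    field_simp
    linear_combination hk
  rw [h2, mul_sub, mul_comm w b, Finset.mul_sum]
  congr 1
  refine Finset.sum_congr rfl fun j _ => ?_
  rw [Polynomial.eval_mul, Polynomial.eval_C, Polynomial.eval_pow, Polynomial.eval_X, mul_pow]
  ring

lemma kernel_rep' (m : ℕ) (a : ℂ) : ∃ G : ℂ →₀ ℂ[X], ∀ w, w ^ m * fsKernel m w a = EV w G := by
  by_cases ha : a = 0
  · subst ha
    have hm : (m.factorial : ℂ) ≠ 0 := by exact_mod_cast Nat.factorial_ne_zero m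
    refine ⟨Finsupp.single 0 (Polynomial.X ^ m * 1), fun w => ?_⟩
    rw [← poly_rep]
    congr 1
    rw [fsKernel, tsum_eq_single 0]
    · simp [hm]
    · intro b hb; simp [hb]
  · obtain ⟨s, t, _, h⟩ := kernel_rep m a ha
    exact ⟨_, h⟩

theorem well_defined (m : ℕ) (u v F : ℂ → ℂ) (f h : ℂ →₀ ℂ[X]) {κ η : ℂ → ℂ}
    (hκ : RepC κ) (hη : RepC η) (hu : ∀ w, u w = EV w f + κ ((starRingEnd ℂ) w))
    (hv : ∀ w, v w = EV w h + η ((starRingEnd ℂ) w)) (G : ℂ →₀ ℂ[X])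
    (hF : ∀ w, w ^ m * F w = EV w G) (z : ℂ) :
    Integrable (fun w => v w * F w * fsKernel m z w) (fsMeasure m) ∧
    Integrable (fun w => u w * toeplitz m v F w * fsKernel m z w) (fsMeasure m) := by
  have hug : Good u := by rw [show u = _ from funext hu]; exact good_of_rep f hκ
  have hvg : Good v := by rw [show v = _ from funext hv]; exact good_of_rep h hη
  obtain ⟨q, _, h1⟩ := toeplitz_formula' m h G hη v F hv hF
  exact ⟨integrable_toeplitz m G v F hvg hF z, integrable_toeplitz m _ u _ hug h1 z⟩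

theorem main_poly (m : ℕ) (u v : ℂ → ℂ) (f h : ℂ →₀ ℂ[X]) {κ η : ℂ → ℂ}
    (hκ : RepC κ) (hη : RepC η) (hu : ∀ w, u w = EV w f + κ ((starRingEnd ℂ) w))
    (hv : ∀ w, v w = EV w h + η ((starRingEnd ℂ) w))
    (hyp : ∀ (p : ℂ[X]) (z : ℂ), toeplitz m u (toeplitz m v (fun w => p.eval w)) z = 0) :
    (∀ z, u z = 0) ∨ (∀ z, v z = 0) := by
  by_contra hcon
  push Not at hcon
  obtain ⟨⟨z₁, hz₁⟩, ⟨z₂, hz₂⟩⟩ := hcon
  have hneu : ¬ ∃ a : ℂ, (∀ d, d ≠ 0 → f d = 0) ∧ f 0 = Polynomial.C a ∧ ∀ c, κ c = -a := by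
    rintro ⟨a, h1, h2, h3⟩
    apply hz₁
    have hf : f = Finsupp.single 0 (Polynomial.C a) := by
      ext1 d
      rw [Finsupp.single_apply]
      split_ifs with hd
      · rw [← hd, h2]
      · exact h1 d (fun h => hd h.symm)
    rw [hu, hf, EV_single, h3]
    simp
  have hnev : ¬ ∃ a : ℂ, (∀ d, d ≠ 0 → h d = 0) ∧ h 0 = Polynomial.C a ∧ ∀ c, η c = -a := by
    rintro ⟨a, h1, h2, h3⟩
    apply hz₂
    have hf : h = Finsupp.single 0 (Polynomial.C a) := by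
      ext1 d
      rw [Finsupp.single_apply]
      split_ifs with hd
      · rw [← hd, h2]
      · exact h1 d (fun h => hd h.symm)
    rw [hv, hf, EV_single, h3]
    simp
  obtain ⟨c₁, r, hB⟩ := claimB m h hη.2.1 hnev
  obtain ⟨R, hA⟩ := lemmaA m f hκ.2.1 hneu c₁
  have hF : ∀ w : ℂ, w ^ m * (Polynomial.X ^ (r + R) : ℂ[X]).eval w
      = EV w (Finsupp.single 0 (Polynomial.X ^ (m + (r + R)))) := by
    intro w
    rw [poly_rep, ← pow_add]
  obtain ⟨q, hq, h1⟩ := toeplitz_formula' m h _ hη v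
    (fun w => (Polynomial.X ^ (r + R) : ℂ[X]).eval w) hv hF
  obtain ⟨q₂, hq₂, h2⟩ := toeplitz_formula m f _ hκ u _ hu h1
  have h3 := hB (r + R) (by omega) q hq
  refine hA (Gn m (r + R) h η q) (fun c hc hne => Gn_degree m _ h η q c hc hne) (by omega) q₂ hq₂
    (fun z => ?_)
  have h4 := h2 z
  rw [hyp, mul_zero] at h4
  exact h4.symm

theorem main_kernel (m : ℕ) (u v : ℂ → ℂ) (f h : ℂ →₀ ℂ[X]) {κ η : ℂ → ℂ}
    (hκ : RepC κ) (hη : RepC η) (hu : ∀ w, u w = EV w f + κ ((starRingEnd ℂ) w))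
    (hv : ∀ w, v w = EV w h + η ((starRingEnd ℂ) w))
    (hyp : ∀ a z : ℂ, toeplitz m u (toeplitz m v (fun w => fsKernel m w a)) z = 0) :
    (∀ z, u z = 0) ∨ (∀ z, v z = 0) := by
  by_contra hcon
  push Not at hcon
  obtain ⟨⟨z₁, hz₁⟩, ⟨z₂, hz₂⟩⟩ := hcon
  have hneu : ¬ ∃ a : ℂ, (∀ d, d ≠ 0 → f d = 0) ∧ f 0 = Polynomial.C a ∧ ∀ c, κ c = -a := by
    rintro ⟨a, h1, h2, h3⟩
    apply hz₁
    have hf : f = Finsupp.single 0 (Polynomial.C a) := by
      ext1 d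
      rw [Finsupp.single_apply]
      split_ifs with hd
      · rw [← hd, h2]
      · exact h1 d (fun h => hd h.symm)
    rw [hu, hf, EV_single, h3]
    simp
  have hnev : ¬ ∃ a : ℂ, (∀ d, d ≠ 0 → h d = 0) ∧ h 0 = Polynomial.C a ∧ ∀ c, η c = -a := by
    rintro ⟨a, h1, h2, h3⟩
    apply hz₂
    have hf : h = Finsupp.single 0 (Polynomial.C a) := by
      ext1 d
      rw [Finsupp.single_apply]
      split_ifs with hd
      · rw [← hd, h2]
      · exact h1 d (fun h => hd h.symm)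
    rw [hv, hf, EV_single, h3]
    simp
  obtain ⟨c₁, V, hVd, hV0, hB⟩ := lemmaBk h hη.2.1 hnev
  obtain ⟨ε, U, hε, hUd, hU0, hA⟩ := lemmaAk f hκ.2.1 hneu
  obtain ⟨b, hbM, hbU, hbV⟩ := exists_good_point hUd hU0 hVd hV0 c₁ ε hε
    (|c₁.re| + ∑ e ∈ h.support, |e.re|)
  have hsum : 0 ≤ ∑ e ∈ h.support, |e.re| := Finset.sum_nonneg fun _ _ => abs_nonneg _
  have hεabs : ∀ x : ℝ, ε * x ≤ |x| := by
    intro x
    rcases hε with rfl | rfl
    · simpa using le_abs_self x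
    · simpa using neg_le_abs x
  have hpos : 0 < ε * (b + c₁).re := lt_of_le_of_lt (add_nonneg (abs_nonneg _) hsum) hbM
  have hb0 : b ≠ 0 := by
    rintro rfl
    rw [zero_add] at hbM
    have := hεabs c₁.re
    linarith
  have hbc : b + c₁ ≠ 0 := by
    intro h0
    rw [h0] at hpos
    simp at hpos
  have hhb : h (b + c₁) = 0 := by
    by_contra hne
    have h1 : |(b + c₁).re| ≤ ∑ e ∈ h.support, |e.re| :=
      Finset.single_le_sum (f := fun e : ℂ => |e.re|) (fun _ _ => abs_nonneg _) (by simpa using hne)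
    have h2 := hεabs (b + c₁).re
    have h3 := abs_nonneg c₁.re
    linarith
  have ha : (starRingEnd ℂ) b ≠ 0 := by simpa using hb0
  obtain ⟨s, t, hs, hF⟩ := kernel_rep m ((starRingEnd ℂ) b) ha
  rw [Complex.conj_conj] at hF
  obtain ⟨q, hq, h1⟩ := toeplitz_formula' m h _ hη v
    (fun w => fsKernel m w ((starRingEnd ℂ) b)) hv hF
  obtain ⟨q₂, hq₂, h2⟩ := toeplitz_formula m f _ hκ u _ hu h1
  refine hA _ (b + c₁) (hB b s t q hs hbc hhb hbV) hpos hbU q₂ (fun z => ?_)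
  have h4 := h2 z
  rw [hyp, mul_zero] at h4
  exact h4.symm

end Pool.Agent.V11101.FockSob
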