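import Mathlib

/-!
# Tails in `ℓ²`
-/

open Filter Topology Set Metric
open scoped InnerProductSpace

namespace Pool.Agent.V11101.L2

/-- the real Hilbert space `ℓ²` -/
abbrev E : Type := lp (fun _ : ℕ => ℝ) 2

lemma nsq (x : E) : ‖x‖ ^ 2 = ∑' i, x i ^ 2 := by
  rw [← real_inner_self_eq_norm_sq, lp.inner_eq_tsum]
  refine tsum_congr fun i => ?_
  rw [real_inner_self_eq_norm_sq, Real.norm_eq_abs, sq_abs]

lemma summ (x : E) : Summable fun i => x i ^ 2 := by
  refine (lp.summable_inner x x).congr fun i => ?_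
  rw [real_inner_self_eq_norm_sq, Real.norm_eq_abs, sq_abs]

lemma mem_of_summable (x : ℕ → ℝ) (h : Summable fun i => x i ^ 2) : Memℓp x 2 := by
  rw [memℓp_gen_iff (by norm_num)]
  refine h.congr fun i => ?_
  simp

open Classical in
/-- the restriction of a vector to a set of coordinates -/
noncomputable def restr (A : Set ℕ) (x : E) : E :=
  ⟨fun i => if i ∈ A then x i else 0, mem_of_summable _ (by
    refine (summ x).of_nonneg_of_le (fun i => sq_nonneg _) fun i => ?_
    split_ifs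
    · exact le_rfl
    · rw [zero_pow two_ne_zero]; exact sq_nonneg _)⟩

open Classical in
lemma restr_apply (A : Set ℕ) (x : E) (i : ℕ) : restr A x i = if i ∈ A then x i else 0 := rfl

lemma norm_le_of_sq (x y : E) (h : ∀ i, x i ^ 2 ≤ y i ^ 2) : ‖x‖ ≤ ‖y‖ := by
  refine le_of_sq_le_sq ?_ (norm_nonneg _)
  rw [nsq, nsq]
  exact (summ x).tsum_le_tsum h (summ y)

lemma restr_mono {A B : Set ℕ} (h : A ⊆ B) (x : E) : ‖restr A x‖ ≤ ‖restr B x‖ := by
  refine norm_le_of_sq _ _ fun i => ?_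
  rw [restr_apply, restr_apply]
  by_cases hA : i ∈ A
  · rw [if_pos hA, if_pos (h hA)]
  · rw [if_neg hA, zero_pow two_ne_zero]; exact sq_nonneg _

lemma restr_le (A : Set ℕ) (x : E) : ‖restr A x‖ ≤ ‖x‖ := by
  refine norm_le_of_sq _ _ fun i => ?_
  rw [restr_apply]
  split_ifs
  · exact le_rfl
  · rw [zero_pow two_ne_zero]; exact sq_nonneg _

lemma restr_add_compl (A : Set ℕ) (x : E) : restr A x + restr Aᶜ x = x := by
  ext i
  rw [lp.coeFn_add, Pi.add_apply, restr_apply, restr_apply]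
  by_cases hA : i ∈ A
  · rw [if_pos hA, if_neg (by simpa using hA), add_zero]
  · rw [if_neg hA, if_pos (by simpa using hA), zero_add]

lemma restr_restr (A B : Set ℕ) (x : E) : restr A (restr B x) = restr (A ∩ B) x := by
  ext i
  rw [restr_apply, restr_apply, restr_apply]
  by_cases hA : i ∈ A <;> by_cases hB : i ∈ B <;> simp [hA, hB]

lemma norm_restr_neg (A : Set ℕ) (x : E) : ‖restr A (-x)‖ = ‖restr A x‖ := by
  have : restr A (-x) = - restr A x := by
    ext i
    rw [lp.coeFn_neg, Pi.neg_apply, restr_apply, restr_apply, lp.coeFn_neg, Pi.neg_apply]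
    split_ifs <;> simp
  rw [this, norm_neg]

lemma tail_tendsto (x : E) : Tendsto (fun m => ‖restr (Ici m) x‖) atTop (𝓝 0) := by
  have h1 : ∀ m, ‖restr (Ici m) x‖ ^ 2 = ∑' i, x (i + m) ^ 2 := by
    intro m
    rw [nsq, ← (summ (restr (Ici m) x)).sum_add_tsum_nat_add m]
    have : ∑ i ∈ Finset.range m, restr (Ici m) x i ^ 2 = 0 := by
      refine Finset.sum_eq_zero fun i hi => ?_
      rw [restr_apply, if_neg (by simpa using hi), zero_pow two_ne_zero]
    rw [this, zero_add]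
    refine tsum_congr fun i => ?_
    rw [restr_apply, if_pos (by simp)]
  have h2 : Tendsto (fun m => ‖restr (Ici m) x‖ ^ 2) atTop (𝓝 0) := by
    simp only [h1]
    exact tendsto_sum_nat_add fun i => x i ^ 2
  have h3 := h2.sqrt
  rw [Real.sqrt_zero] at h3
  refine h3.congr fun m => ?_
  exact Real.sqrt_sq (norm_nonneg _)

/-- the vectors supported on the first `m` coordinates -/
def V (m : ℕ) : Submodule ℝ E where
  carrier := {x | ∀ i, m ≤ i → x i = 0}
  add_mem' := by
    intro x y hx hy i hi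
    rw [lp.coeFn_add, Pi.add_apply, hx i hi, hy i hi, add_zero]
  zero_mem' := by intro i _; rfl
  smul_mem' := by
    intro c x hx i hi
    rw [lp.coeFn_smul, Pi.smul_apply, hx i hi, smul_zero]

instance (m : ℕ) : FiniteDimensional ℝ (V m) := by
  let L : V m →ₗ[ℝ] (Fin m → ℝ) :=
    { toFun := fun x i => (x : E) i
      map_add' := fun x y => rfl
      map_smul' := fun c x => rfl }
  refine FiniteDimensional.of_injective L ?_
  intro x y hxy
  ext i
  rcases lt_or_ge i m with h | h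
  · exact congrFun hxy ⟨i, h⟩
  · rw [x.2 i h, y.2 i h]

/-- a finite net of the unit ball of `V m` -/
lemma exists_net (m : ℕ) {ε : ℝ} (hε : 0 < ε) :
    ∃ t : Set E, t.Finite ∧ (∀ c ∈ t, c ∈ V m ∧ ‖c‖ ≤ 1) ∧
      ∀ x ∈ V m, ‖x‖ ≤ 1 → ∃ c ∈ t, dist x c < ε := by
  have hcomp : IsCompact (closedBall (0 : V m) 1) := isCompact_closedBall _ _
  obtain ⟨t, ht, htf, hcov⟩ := hcomp.finite_cover_balls hε
  refine ⟨Subtype.val '' t, htf.image _, ?_, ?_⟩
  · rintro _ ⟨c, hc, rfl⟩
    refine ⟨c.2, ?_⟩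
    have := ht hc
    rwa [mem_closedBall_zero_iff] at this
  · intro x hx hx1
    have : (⟨x, hx⟩ : V m) ∈ closedBall (0 : V m) 1 := by
      rw [mem_closedBall_zero_iff]; exact hx1
    have h2 := hcov this
    simp only [mem_iUnion] at h2
    obtain ⟨c, hc, h3⟩ := h2
    exact ⟨c, ⟨c, hc, rfl⟩, h3⟩

/-- the set `B` -/
def B : Set E := {x | ‖x‖ ≤ 1 ∧ ∀ N, ∃ m, N ≤ m ∧ ‖restr (Ici m) x‖ ≤ 1 / ((m : ℝ) + 1)}

lemma neg_mem_B {x : E} (hx : x ∈ B) : -x ∈ B := by
  refine ⟨by rw [norm_neg]; exact hx.1, fun N => ?_⟩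
  obtain ⟨m, h1, h2⟩ := hx.2 N
  exact ⟨m, h1, by rwa [norm_restr_neg]⟩

lemma mem_B_of_V {m : ℕ} {x : E} (hx : x ∈ V m) (h1 : ‖x‖ ≤ 1) : x ∈ B := by
  refine ⟨h1, fun N => ⟨max N m, le_max_left _ _, ?_⟩⟩
  have : restr (Ici (max N m)) x = 0 := by
    ext i
    rw [restr_apply]
    split_ifs with h
    · exact hx i ((le_max_right _ _).trans h)
    · rfl
  rw [this, norm_zero]
  positivity

/-- every unit vector is a sum of two vectors of `B` -/
lemma exists_split (z : E) (hz : ‖z‖ ≤ 1) : ∃ a ∈ B, ∃ b ∈ B, a + b = z := by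
  classical
  have hstep : ∀ m : ℕ, ∃ m', m < m' ∧ ‖restr (Ici m') z‖ ≤ 1 / ((m : ℝ) + 1) := by
    intro m
    have h1 := (tail_tendsto z).eventually_le_const (show (0 : ℝ) < 1 / ((m : ℝ) + 1) by positivity)
    obtain ⟨m', h2, h3⟩ := (h1.and (eventually_gt_atTop m)).exists
    exact ⟨m', h3, h2⟩
  choose g hg1 hg2 using hstep
  set M : ℕ → ℕ := fun k => Nat.rec 0 (fun _ s => g s) k with hM
  have hMs : ∀ k, M (k + 1) = g (M k) := fun k => rfl
  have hMmono : StrictMono M := strictMono_nat_of_lt_succ fun k => by rw [hMs]; exact hg1 _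
  have htail : ∀ k, ‖restr (Ici (M (k + 1))) z‖ ≤ 1 / ((M k : ℝ) + 1) := fun k => by
    rw [hMs]; exact hg2 _
  set A : Set ℕ := {i | ∃ k, M (2 * k) ≤ i ∧ i < M (2 * k + 1)} with hA
  -- gaps
  have hAgap : ∀ k i, M (2 * k + 1) ≤ i → i ∈ A → M (2 * k + 2) ≤ i := by
    rintro k i hi ⟨j, hj1, hj2⟩
    have : 2 * k + 1 < 2 * j + 1 := hMmono.lt_iff_lt.1 (lt_of_le_of_lt hi hj2)
    have : 2 * k + 2 ≤ 2 * j := by omega
    exact (hMmono.monotone this).trans hj1
  have hAcgap : ∀ k i, M (2 * k) ≤ i → i ∈ Aᶜ → M (2 * k + 1) ≤ i := by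
    intro k i hi hiA
    by_contra hcon
    push Not at hcon
    exact hiA ⟨k, hi, hcon⟩
  refine ⟨restr A z, ⟨(restr_le A z).trans hz, fun N => ?_⟩, restr Aᶜ z,
    ⟨(restr_le _ z).trans hz, fun N => ?_⟩, restr_add_compl A z⟩
  · refine ⟨M (2 * N + 1), ?_, ?_⟩
    · have := hMmono.le_apply (x := 2 * N + 1)
      omega
    · rw [restr_restr]
      refine (restr_mono (B := Ici (M (2 * N + 1 + 1))) ?_ z).trans (htail (2 * N + 1))
      rintro i ⟨h1, h2⟩
      exact hAgap N i h1 h2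
  · refine ⟨M (2 * N), ?_, ?_⟩
    · have := hMmono.le_apply (x := 2 * N)
      omega
    · rw [restr_restr]
      refine (restr_mono (B := Ici (M (2 * N + 1))) ?_ z).trans (htail (2 * N))
      rintro i ⟨h1, h2⟩
      exact hAcgap N i h1 h2

instance : TopologicalSpace.SeparableSpace E := by
  let b : HilbertBasis ℕ ℝ E := ⟨LinearIsometryEquiv.refl ℝ E⟩
  have h1 : TopologicalSpace.IsSeparable (Submodule.span ℝ (Set.range b) : Set E) :=
    (Set.countable_range b).isSeparable.span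
  have h2 := h1.closure
  rw [← Submodule.topologicalClosure_coe, b.dense_span] at h2
  exact TopologicalSpace.isSeparable_univ_iff.1 (by simpa using h2)

lemma not_fin : ¬ FiniteDimensional ℝ E := by
  intro h
  let b : HilbertBasis ℕ ℝ E := ⟨LinearIsometryEquiv.refl ℝ E⟩
  have h1 := b.orthonormal.linearIndependent
  have := h1.finite
  exact not_finite ℕ

end Pool.Agent.V11101.L2
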