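import Mathlib

/-!
# Polyhedral Banach spaces are not isomorphic to infinite-dimensional Hilbert spaces
-/

open Filter Topology Set Metric

namespace Pool.Agent.V11101.Poly

/-- A normed space is polyhedral if the closed unit ball of each finite-dimensional subspace is a
polytope, i.e. the convex hull of a finite set. -/
def IsPolyhedral (X : Type*) [NormedAddCommGroup X] [NormedSpace ℝ X] : Prop :=
  ∀ V : Submodule ℝ X, FiniteDimensional ℝ V →
    ∃ s : Set X, s.Finite ∧ {x : X | x ∈ V ∧ ‖x‖ ≤ 1} = convexHull ℝ s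

/-- the norm is locally affine along every ray -/
def RAff (X : Type*) [NormedAddCommGroup X] [NormedSpace ℝ X] : Prop :=
  ∀ x y : X, ∃ δ : ℝ, 0 < δ ∧ ∃ c : ℝ, ∀ t : ℝ, 0 ≤ t → t ≤ δ → ‖x + t • y‖ = ‖x‖ + t * c

variable {X : Type*} [NormedAddCommGroup X] [NormedSpace ℝ X]

lemma raff_of_polyhedral (hX : IsPolyhedral X) : RAff X := by
  classical
  intro x y
  set V : Submodule ℝ X := Submodule.span ℝ {x, y} with hV
  have hfin : FiniteDimensional ℝ V := by
    have : ({x, y} : Set X).Finite := by simp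
    exact FiniteDimensional.span_of_finite ℝ this
  obtain ⟨s, hs, hball⟩ := hX V hfin
  obtain ⟨S, rfl⟩ := hs.exists_finset_coe
  have hxV : x ∈ V := Submodule.subset_span (by simp)
  have hyV : y ∈ V := Submodule.subset_span (by simp)
  -- the points on the ray
  set t : ℕ → ℝ := fun n => 1 / ((n : ℝ) + 1) with ht
  have ht0 : ∀ n, 0 < t n := fun n => by simp only [ht]; positivity
  set v : ℕ → X := fun n => x + t n • y with hv
  have hvV : ∀ n, v n ∈ V := fun n => V.add_mem hxV (V.smul_mem _ hyV)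
  choose f hf1 hf2 using fun n => exists_dual_vector'' ℝ (v n)
  have hfle' : ∀ n, ∀ z, f n z ≤ ‖z‖ := by
    intro n z
    calc f n z ≤ ‖f n z‖ := Real.le_norm_self _
      _ ≤ ‖f n‖ * ‖z‖ := (f n).le_opNorm z
      _ ≤ 1 * ‖z‖ := mul_le_mul_of_nonneg_right (hf1 n) (norm_nonneg _)
      _ = ‖z‖ := one_mul _
  have hSle : ∀ i ∈ S, ‖i‖ ≤ 1 := by
    intro i hi
    have : i ∈ convexHull ℝ (S : Set X) := subset_convexHull ℝ _ hi
    rw [← hball] at this
    exact this.2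
  have hfle : ∀ n, ∀ i ∈ S, f n i ≤ 1 := fun n i hi => (hfle' n i).trans (hSle i hi)
  obtain ⟨I, hI⟩ := Finite.exists_infinite_fiber (fun n => ({i : S | f n i = 1} : Set S))
  have hinf : (Set.Infinite ((fun n => ({i : S | f n i = 1} : Set S)) ⁻¹' {I})) :=
    Set.infinite_coe_iff.1 hI
  obtain ⟨n₀, hn₀⟩ := hinf.nonempty
  have hn₀' : ({i : S | f n₀ i = 1} : Set S) = I := hn₀
  set g := f n₀ with hg
  -- `g` norms all `v n` of the fiber
  have hnorm : ∀ n, ({i : S | f n i = 1} : Set S) = I → g (v n) = ‖v n‖ := by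
    intro n hn
    rcases eq_or_ne (v n) 0 with h0 | h0
    · rw [h0]; simp
    have hpos : 0 < ‖v n‖ := norm_pos_iff.2 h0
    set w : X := ‖v n‖⁻¹ • v n with hw
    have hwV : w ∈ {x : X | x ∈ V ∧ ‖x‖ ≤ 1} := by
      refine ⟨V.smul_mem _ (hvV n), ?_⟩
      rw [hw, norm_smul, norm_inv, norm_norm, inv_mul_cancel₀ hpos.ne']
    rw [hball, Finset.mem_convexHull'] at hwV
    obtain ⟨μ, hμ0, hμ1, hμw⟩ := hwV
    have hfw : f n w = 1 := by
      rw [hw, map_smul, hf2, smul_eq_mul]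
      exact inv_mul_cancel₀ hpos.ne'
    have hsum : ∑ i ∈ S, μ i * (1 - f n i) = 0 := by
      have h1 : ∑ i ∈ S, μ i * f n i = 1 := by
        rw [← hfw, ← hμw, map_sum]
        exact Finset.sum_congr rfl fun i _ => by rw [map_smul, smul_eq_mul]
      simp only [mul_sub, mul_one, Finset.sum_sub_distrib, h1, hμ1, sub_self]
    have hzero : ∀ i ∈ S, μ i * (1 - f n i) = 0 :=
      (Finset.sum_eq_zero_iff_of_nonneg fun i hi =>
        mul_nonneg (hμ0 i hi) (sub_nonneg.2 (hfle n i hi))).1 hsum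
    have hgw : g w = 1 := by
      rw [← hμw, map_sum, ← hμ1]
      refine Finset.sum_congr rfl fun i hi => ?_
      rw [map_smul, smul_eq_mul]
      rcases mul_eq_zero.1 (hzero i hi) with h | h
      · rw [h, zero_mul]
      · have h1 : (⟨i, hi⟩ : S) ∈ ({i : S | f n i = 1} : Set S) := by
          show f n i = 1
          linarith
        rw [hn, ← hn₀'] at h1
        have h2 : f n₀ i = 1 := h1
        rw [hg, h2, mul_one]
    have : v n = ‖v n‖ • w := by rw [hw, smul_smul, mul_inv_cancel₀ hpos.ne', one_smul]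
    rw [this, map_smul, hgw, smul_eq_mul, mul_one, ← this]
  have harch : ∀ ε : ℝ, 0 < ε → ∃ n, ({i : S | f n i = 1} : Set S) = I ∧ t n < ε := by
    intro ε hε
    obtain ⟨N, hN⟩ := exists_nat_one_div_lt hε
    obtain ⟨n, hn, hNn⟩ := hinf.exists_gt N
    refine ⟨n, hn, lt_of_le_of_lt ?_ hN⟩
    simp only [ht]
    refine one_div_le_one_div_of_le (by positivity) ?_
    have : (N : ℝ) ≤ n := by exact_mod_cast hNn.le
    linarith
  -- `g x = ‖x‖`
  have hgx : g x = ‖x‖ := by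
    refine le_antisymm (hfle' n₀ x) ?_
    refine le_of_forall_pos_le_add fun ε hε => ?_
    obtain ⟨n, hn, hnt⟩ := harch (ε / (2 * (‖y‖ + 1))) (by positivity)
    have h1 := hnorm n hn
    have h2 : ‖x‖ ≤ ‖v n‖ + t n * ‖y‖ := by
      have : x = v n - t n • y := by simp only [hv]; abel
      calc ‖x‖ = ‖v n - t n • y‖ := by rw [← this]
        _ ≤ ‖v n‖ + ‖t n • y‖ := norm_sub_le _ _
        _ = _ := by rw [norm_smul, Real.norm_of_nonneg (ht0 n).le]
    have h3 : g (v n) = g x + t n * g y := by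
      simp only [hv, map_add, map_smul, smul_eq_mul]
    have h4 : t n * g y ≤ t n * ‖y‖ := mul_le_mul_of_nonneg_left (hfle' n₀ y) (ht0 n).le
    have h5 : t n * (2 * (‖y‖ + 1)) < ε := by rwa [lt_div_iff₀ (by positivity)] at hnt
    have h6 : 0 < t n := ht0 n
    nlinarith [norm_nonneg y]
  refine ⟨t n₀, ht0 n₀, g y, fun τ hτ0 hτ1 => ?_⟩
  have hgoal : g (x + τ • y) = ‖x‖ + τ * g y := by
    rw [map_add, map_smul, smul_eq_mul, hgx]
  rw [← hgoal]
  refine le_antisymm ?_ (hfle' n₀ _)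
  rcases hτ0.eq_or_lt with h | h
  · rw [← h, zero_smul, add_zero, hgx]
  obtain ⟨n, hn, hnt⟩ := harch τ h
  -- convexity
  set l : ℝ := (τ - t n) / (t n₀ - t n) with hl
  have hden : 0 < t n₀ - t n := by linarith
  have hl0 : 0 ≤ l := div_nonneg (by linarith) hden.le
  have hl1 : l ≤ 1 := (div_le_one hden).2 (by linarith)
  have hcomb : x + τ • y = (1 - l) • v n + l • v n₀ := by
    have h1 : (1 - l) * t n + l * t n₀ = τ := by
      rw [hl]; field_simp; ring
    simp only [hv]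
    rw [← h1]
    module
  rw [hcomb, map_add, map_smul, map_smul, hnorm n hn, hnorm n₀ hn₀', smul_eq_mul, smul_eq_mul]
  refine (norm_add_le _ _).trans ?_
  rw [norm_smul, norm_smul, Real.norm_of_nonneg (by linarith), Real.norm_of_nonneg hl0]

/-- points at which the norm is locally linear -/
def LL (x : X) (f : X →L[ℝ] ℝ) (ρ : ℝ) : Prop := 0 < ρ ∧ ∀ v, ‖v‖ < ρ → ‖x + v‖ = f (x + v)

/-- almost differentiability in a direction -/
def O (y : X) (ε : ℝ) : Set X :=
  {x | ∃ δ : ℝ, 0 < δ ∧ ‖x + δ • y‖ + ‖x - δ • y‖ - 2 * ‖x‖ < ε * δ}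

lemma isOpen_O (y : X) (ε : ℝ) : IsOpen (O y ε) := by
  have : O y ε = ⋃ δ : {δ : ℝ // 0 < δ},
      {x : X | ‖x + (δ : ℝ) • y‖ + ‖x - (δ : ℝ) • y‖ - 2 * ‖x‖ < ε * δ} := by
    ext x
    simp only [mem_iUnion]
    constructor
    · rintro ⟨δ, h1, h2⟩; exact ⟨⟨δ, h1⟩, h2⟩
    · rintro ⟨⟨δ, h1⟩, h2⟩; exact ⟨δ, h1, h2⟩
  rw [this]
  refine isOpen_iUnion fun δ => isOpen_lt (by fun_prop) (by fun_prop)

lemma dense_O (hX : RAff X) (y : X) {ε : ℝ} (hε : 0 < ε) : Dense (O y ε) := by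
  intro x
  rw [Metric.mem_closure_iff]
  intro r hr
  obtain ⟨δ, hδ, c, h⟩ := hX x y
  set s : ℝ := min (δ / 2) (r / (2 * (‖y‖ + 1))) with hs
  have hs0 : 0 < s := by rw [hs]; positivity
  have hs1 : 2 * s ≤ δ := by
    have : s ≤ δ / 2 := min_le_left _ _
    linarith
  have hs2 : s * (2 * (‖y‖ + 1)) ≤ r := by
    have : s ≤ r / (2 * (‖y‖ + 1)) := min_le_right _ _
    rwa [le_div_iff₀ (by positivity)] at this
  refine ⟨x + s • y, ⟨s, hs0, ?_⟩, ?_⟩
  · have e1 : x + s • y + s • y = x + (2 * s) • y := by module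
    have e2 : x + s • y - s • y = x := by abel
    rw [e1, e2, h (2 * s) (by linarith) hs1, h s hs0.le (by linarith)]
    have : 0 < ε * s := mul_pos hε hs0
    linarith
  · rw [dist_eq_norm, show x - (x + s • y) = -(s • y) by abel, norm_neg, norm_smul,
      Real.norm_of_nonneg hs0.le]
    nlinarith [norm_nonneg y]

/-- at a point of almost differentiability in a dense set of directions the norm is linear in each
direction, for small times -/
lemma dir_linear (hX : RAff X) (Y : ℕ → X) (hY : DenseRange Y) (x : X)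
    (hx : ∀ k j : ℕ, x ∈ O (Y k) (1 / ((j : ℝ) + 1))) (f : X →L[ℝ] ℝ) (hf1 : ∀ z, f z ≤ ‖z‖)
    (hf2 : f x = ‖x‖) (y : X) :
    ∃ δ : ℝ, 0 < δ ∧ ∀ t : ℝ, 0 ≤ t → t ≤ δ → ‖x + t • y‖ ≤ ‖x‖ + t * f y := by
  -- first the dense directions
  have hdense : ∀ k, ∃ δ : ℝ, 0 < δ ∧ ∀ t : ℝ, 0 ≤ t → t ≤ δ →
      ‖x + t • Y k‖ ≤ ‖x‖ + t * f (Y k) := by
    intro k
    obtain ⟨δ₀, hδ₀, c, hc⟩ := hX x (Y k)
    refine ⟨δ₀, hδ₀, fun t ht0 ht1 => ?_⟩
    rw [hc t ht0 ht1]
    have hcf : c ≤ f (Y k) := by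
      refine le_of_forall_pos_le_add fun ε hε => ?_
      obtain ⟨j, hj⟩ := exists_nat_one_div_lt hε
      obtain ⟨δ, hδ, h⟩ := hx k j
      set τ := min δ δ₀ with hτ
      have hτ0 : 0 < τ := lt_min hδ hδ₀
      have h1 := hc τ hτ0.le (min_le_right _ _)
      have h2 : ‖x + τ • Y k‖ ≤ (1 - τ / δ) * ‖x‖ + τ / δ * ‖x + δ • Y k‖ := by
        have hq : τ / δ ≤ 1 := (div_le_one hδ).2 (min_le_left _ _)
        have hq0 : 0 ≤ τ / δ := by positivity
        have e : x + τ • Y k = (1 - τ / δ) • x + (τ / δ) • (x + δ • Y k) := by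
          rw [smul_add, smul_smul, div_mul_cancel₀ _ hδ.ne']
          module
        rw [e]
        refine (norm_add_le _ _).trans ?_
        rw [norm_smul, norm_smul, Real.norm_of_nonneg (by linarith), Real.norm_of_nonneg hq0]
      have h3 : δ * c ≤ ‖x + δ • Y k‖ - ‖x‖ := by
        rw [h1] at h2
        have h4 : τ * c ≤ τ / δ * (‖x + δ • Y k‖ - ‖x‖) := by linarith
        have h5 : τ / δ * (‖x + δ • Y k‖ - ‖x‖) = τ * ((‖x + δ • Y k‖ - ‖x‖) / δ) := by ring
        rw [h5] at h4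
        have h6 := le_of_mul_le_mul_left h4 hτ0
        rw [le_div_iff₀ hδ] at h6
        linarith
      have h4 : ‖x‖ - δ * f (Y k) ≤ ‖x - δ • Y k‖ := by
        have := hf1 (x - δ • Y k)
        rw [map_sub, map_smul, smul_eq_mul, hf2] at this
        exact this
      have h5 : δ * (c - f (Y k)) < δ * (1 / ((j : ℝ) + 1)) := by linarith
      have h6 := lt_of_mul_lt_mul_left h5 hδ.le
      linarith
    have := mul_le_mul_of_nonneg_left hcf ht0
    linarith
  obtain ⟨δ, hδ, c, hc⟩ := hX x y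
  refine ⟨δ, hδ, fun t ht0 ht1 => ?_⟩
  rw [hc t ht0 ht1]
  have hcf : c ≤ f y := by
    refine le_of_forall_pos_le_add fun ε hε => ?_
    obtain ⟨k, hk⟩ := hY.exists_dist_lt y (show 0 < ε / 2 by positivity)
    rw [dist_eq_norm] at hk
    obtain ⟨δ', hδ', h'⟩ := hdense k
    set τ := min δ δ' with hτ
    have hτ0 : 0 < τ := lt_min hδ hδ'
    have h1 := hc τ hτ0.le (min_le_left _ _)
    have h2 := h' τ hτ0.le (min_le_right _ _)
    have h3 : ‖x + τ • y‖ ≤ ‖x + τ • Y k‖ + τ * ‖y - Y k‖ := by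
      have e : x + τ • y = (x + τ • Y k) + τ • (y - Y k) := by module
      rw [e]
      refine (norm_add_le _ _).trans ?_
      rw [norm_smul, Real.norm_of_nonneg hτ0.le]
    have h4 : f (Y k) ≤ f y + ‖y - Y k‖ := by
      have := hf1 (Y k - y)
      rw [map_sub, norm_sub_rev] at this
      linarith
    have h5 : τ * c ≤ τ * (f y + ε) := by
      have h6 : τ * f (Y k) ≤ τ * (f y + ‖y - Y k‖) := mul_le_mul_of_nonneg_left h4 hτ0.le
      have h7 : τ * ‖y - Y k‖ ≤ τ * (ε / 2) := mul_le_mul_of_nonneg_left hk.le hτ0.le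
      nlinarith
    exact le_of_mul_le_mul_left h5 hτ0
  have := mul_le_mul_of_nonneg_left hcf ht0
  linarith

/-- from directional linearity to local linearity, by Baire -/
lemma local_linear [CompleteSpace X] (x : X) (f : X →L[ℝ] ℝ) (hf1 : ∀ z, f z ≤ ‖z‖)
    (hf2 : f x = ‖x‖)
    (h : ∀ y, ∃ δ : ℝ, 0 < δ ∧ ∀ t : ℝ, 0 ≤ t → t ≤ δ → ‖x + t • y‖ ≤ ‖x‖ + t * f y) :
    ∃ ρ, LL x f ρ := by
  set C : ℕ → Set X := fun n => {y | ∀ t : ℝ, 0 ≤ t → t ≤ 1 / ((n : ℝ) + 1) →
    ‖x + t • y‖ ≤ ‖x‖ + t * f y} with hC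
  have hclosed : ∀ n, IsClosed (C n) := by
    intro n
    have : C n = ⋂ t : ℝ, ⋂ _ : 0 ≤ t, ⋂ _ : t ≤ 1 / ((n : ℝ) + 1),
        {y : X | ‖x + t • y‖ ≤ ‖x‖ + t * f y} := by
      ext y
      simp only [hC, mem_iInter]
      rfl
    rw [this]
    refine isClosed_iInter fun t => isClosed_iInter fun _ => isClosed_iInter fun _ =>
      isClosed_le (by fun_prop) (by fun_prop)
  have hunion : ⋃ n, C n = univ := by
    refine eq_univ_of_forall fun y => ?_
    obtain ⟨δ, hδ, hy⟩ := h y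
    obtain ⟨n, hn⟩ := exists_nat_one_div_lt hδ
    rw [mem_iUnion]
    exact ⟨n, fun t ht0 ht1 => hy t ht0 (ht1.trans hn.le)⟩
  have hmono : ∀ n m, n ≤ m → C n ⊆ C m := by
    intro n m hnm y hy t ht0 ht1
    refine hy t ht0 (ht1.trans ?_)
    refine one_div_le_one_div_of_le (by positivity) ?_
    have : (n : ℝ) ≤ m := by exact_mod_cast hnm
    linarith
  obtain ⟨n, y₀, hy₀⟩ := nonempty_interior_of_iUnion_of_closed hclosed hunion
  rw [mem_interior_iff_mem_nhds, Metric.mem_nhds_iff] at hy₀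
  obtain ⟨r, hr, hball⟩ := hy₀
  obtain ⟨m, hm⟩ := mem_iUnion.1 (hunion.symm ▸ mem_univ (-y₀) : -y₀ ∈ ⋃ n, C n)
  set N := max n m with hN
  have hballN : ball y₀ r ⊆ C N := hball.trans (hmono _ _ (le_max_left _ _))
  have hmN : -y₀ ∈ C N := hmono _ _ (le_max_right _ _) hm
  -- small ball around zero
  have hsmall : ∀ w, ‖w‖ < r / 2 → w ∈ C N := by
    intro w hw t ht0 ht1
    have h1 : y₀ + (2 : ℝ) • w ∈ C N := by
      refine hballN ?_
      rw [mem_ball, dist_eq_norm, add_sub_cancel_left, norm_smul, Real.norm_of_nonneg (by norm_num)]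
      linarith
    have h2 := h1 t ht0 ht1
    have h3 := hmN t ht0 ht1
    have e : x + t • w = (1 / 2 : ℝ) • (x + t • (y₀ + (2 : ℝ) • w)) + (1 / 2 : ℝ) • (x + t • (-y₀)) := by
      module
    rw [e]
    refine (norm_add_le _ _).trans ?_
    rw [norm_smul, norm_smul, Real.norm_of_nonneg (by norm_num)]
    rw [map_add, map_smul, smul_eq_mul] at h2
    rw [map_neg] at h3
    nlinarith
  refine ⟨r / 2 * (1 / ((N : ℝ) + 1)), by positivity, fun v hv => ?_⟩
  refine le_antisymm ?_ (hf1 _)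
  have hN0 : (0 : ℝ) < (N : ℝ) + 1 := by positivity
  have h1 : ((N : ℝ) + 1) • v ∈ C N := by
    refine hsmall _ ?_
    rw [norm_smul, Real.norm_of_nonneg hN0.le]
    calc ((N : ℝ) + 1) * ‖v‖ < ((N : ℝ) + 1) * (r / 2 * (1 / ((N : ℝ) + 1))) :=
          mul_lt_mul_of_pos_left hv hN0
      _ = r / 2 := by field_simp
  have h2 := h1 (1 / ((N : ℝ) + 1)) (by positivity) le_rfl
  rw [smul_smul, one_div_mul_cancel hN0.ne', one_smul, map_smul, smul_eq_mul, ← mul_assoc,
    one_div_mul_cancel hN0.ne', one_mul] at h2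
  rw [map_add, hf2]
  exact h2

lemma dense_LL [CompleteSpace X] [TopologicalSpace.SeparableSpace X] (hX : RAff X) :
    Dense {x : X | ∃ f ρ, LL x f ρ} := by
  have : Nonempty X := ⟨0⟩
  have hY : DenseRange (TopologicalSpace.denseSeq X) := TopologicalSpace.denseRange_denseSeq X
  have h1 : Dense (⋂ p : ℕ × ℕ, O (TopologicalSpace.denseSeq X p.1) (1 / ((p.2 : ℝ) + 1))) := by
    refine dense_iInter_of_isOpen (fun p => isOpen_O _ _) (fun p => dense_O hX _ (by positivity))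
  refine h1.mono fun x hx => ?_
  rw [mem_iInter] at hx
  obtain ⟨f, hf1, hf2⟩ := exists_dual_vector'' ℝ x
  have hf2' : f x = ‖x‖ := hf2
  have hf1' : ∀ z, f z ≤ ‖z‖ := by
    intro z
    calc f z ≤ ‖f z‖ := Real.le_norm_self _
      _ ≤ ‖f‖ * ‖z‖ := f.le_opNorm z
      _ ≤ 1 * ‖z‖ := mul_le_mul_of_nonneg_right hf1 (norm_nonneg _)
      _ = ‖z‖ := one_mul _
  obtain ⟨ρ, hρ⟩ := local_linear x f hf1' hf2'
    (dir_linear hX _ hY x (fun k j => hx (k, j)) f hf1' hf2')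
  exact ⟨f, ρ, hρ⟩

lemma LL.le {x : X} {f : X →L[ℝ] ℝ} {ρ : ℝ} (h : LL x f ρ) (z : X) : f z ≤ ‖z‖ := by
  obtain ⟨hρ, h⟩ := h
  set t : ℝ := ρ / (2 * (‖z‖ + 1)) with ht
  have ht0 : 0 < t := by positivity
  have h1 : ‖t • z‖ < ρ := by
    rw [norm_smul, Real.norm_of_nonneg ht0.le, ht, div_mul_eq_mul_div, div_lt_iff₀ (by positivity)]
    nlinarith [norm_nonneg z]
  have h2 := h _ h1
  have h3 := h 0 (by rwa [norm_zero])
  rw [add_zero] at h3
  have h4 : ‖x + t • z‖ ≤ ‖x‖ + t * ‖z‖ := by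
    refine (norm_add_le _ _).trans ?_
    rw [norm_smul, Real.norm_of_nonneg ht0.le]
  rw [map_add, map_smul, smul_eq_mul] at h2
  have h5 : t * f z ≤ t * ‖z‖ := by linarith
  exact le_of_mul_le_mul_left h5 ht0

/-- the functional is unique -/
lemma LL.unique {x : X} {f g : X →L[ℝ] ℝ} {ρ σ : ℝ} (h : LL x f ρ) (h' : LL x g σ) : f = g := by
  obtain ⟨hρ, h⟩ := h
  obtain ⟨hσ, h'⟩ := h'
  ext z
  set m := min ρ σ with hm
  have hm0 : 0 < m := lt_min hρ hσ
  set t : ℝ := m / (2 * (‖z‖ + 1)) with ht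
  have ht0 : 0 < t := by positivity
  have h1 : ‖t • z‖ < m := by
    rw [norm_smul, Real.norm_of_nonneg ht0.le, ht, div_mul_eq_mul_div, div_lt_iff₀ (by positivity)]
    nlinarith [norm_nonneg z]
  have h2 := h _ (h1.trans_le (min_le_left _ _))
  have h3 := h 0 (by rwa [norm_zero])
  have h2' := h' _ (h1.trans_le (min_le_right _ _))
  have h3' := h' 0 (by rwa [norm_zero])
  rw [add_zero] at h3 h3'
  rw [map_add, map_smul, smul_eq_mul] at h2 h2'
  have h5 : t * f z = t * g z := by linarith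
  exact mul_left_cancel₀ ht0.ne' h5

/-- **countable boundary** -/
theorem boundary [CompleteSpace X] [TopologicalSpace.SeparableSpace X] (hX : RAff X) :
    ∃ F : ℕ → (X →L[ℝ] ℝ), (∀ n z, F n z ≤ ‖z‖) ∧ ∀ x, ∃ n, F n x = ‖x‖ := by
  classical
  have : Nonempty X := ⟨0⟩
  set Y := TopologicalSpace.denseSeq X with hYdef
  have hY : DenseRange Y := TopologicalSpace.denseRange_denseSeq X
  have hex : ∀ n, ∃ f : X →L[ℝ] ℝ, (∀ z, f z ≤ ‖z‖) ∧
      ∀ g ρ, LL (Y n) g ρ → f = g := by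
    intro n
    by_cases h : ∃ g ρ, LL (Y n) g ρ
    · obtain ⟨g, ρ, hg⟩ := h
      exact ⟨g, hg.le, fun g' ρ' h' => hg.unique h'⟩
    · exact ⟨0, fun z => by simp, fun g ρ hg => absurd ⟨g, ρ, hg⟩ h⟩
  choose F hF1 hF2 using hex
  refine ⟨F, hF1, fun x => ?_⟩
  -- Baire in the directions
  set D : ℕ → Set X := fun n => {y | ∀ t : ℝ, 0 ≤ t → t ≤ 1 →
    ‖x + (t * (1 / ((n : ℝ) + 1))) • y‖ = (1 - t) * ‖x‖ + t * ‖x + (1 / ((n : ℝ) + 1)) • y‖} with hD
  have hclosed : ∀ n, IsClosed (D n) := by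
    intro n
    have : D n = ⋂ t : ℝ, ⋂ _ : 0 ≤ t, ⋂ _ : t ≤ 1,
        {y : X | ‖x + (t * (1 / ((n : ℝ) + 1))) • y‖ =
          (1 - t) * ‖x‖ + t * ‖x + (1 / ((n : ℝ) + 1)) • y‖} := by
      ext y
      simp only [hD, mem_iInter]
      rfl
    rw [this]
    refine isClosed_iInter fun t => isClosed_iInter fun _ => isClosed_iInter fun _ =>
      isClosed_eq (by fun_prop) (by fun_prop)
  have hunion : ⋃ n, D n = univ := by
    refine eq_univ_of_forall fun y => ?_
    obtain ⟨δ, hδ, c, hc⟩ := hX x y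
    obtain ⟨n, hn⟩ := exists_nat_one_div_lt hδ
    rw [mem_iUnion]
    refine ⟨n, fun t ht0 ht1 => ?_⟩
    have hn0 : (0 : ℝ) < 1 / ((n : ℝ) + 1) := by positivity
    rw [hc _ (by positivity) (by nlinarith), hc _ hn0.le hn.le]
    ring
  obtain ⟨n, y₀, hy₀⟩ := nonempty_interior_of_iUnion_of_closed hclosed hunion
  rw [mem_interior_iff_mem_nhds, Metric.mem_nhds_iff] at hy₀
  obtain ⟨r, hr, hball⟩ := hy₀
  set a : ℝ := 1 / ((n : ℝ) + 1) with ha
  have ha0 : 0 < a := by positivity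
  -- find a locally linear point
  obtain ⟨w, ⟨f, ρ, hf⟩, hw⟩ := Metric.dense_iff.1 (dense_LL hX) (x + (a / 2) • y₀) (a / 2 * r)
    (by positivity) |>.imp fun w h => (⟨h.2, h.1⟩ : (∃ f ρ, LL w f ρ) ∧ w ∈ ball _ _)
  set y : X := (2 / a) • (w - x) with hy
  have hwy : w = x + (1 / 2 * a) • y := by
    rw [hy, smul_smul, show 1 / 2 * a * (2 / a) = 1 by field_simp, one_smul]; abel
  have hyball : y ∈ ball y₀ r := by
    rw [mem_ball, dist_eq_norm] at hw ⊢
    have e : y - y₀ = (2 / a) • (w - (x + (a / 2) • y₀)) := by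
      rw [hy, ← sub_sub, smul_sub _ (w - x), smul_smul, show 2 / a * (a / 2) = 1 by field_simp,
        one_smul]
    rw [e, norm_smul, Real.norm_of_nonneg (by positivity)]
    calc 2 / a * ‖w - (x + (a / 2) • y₀)‖ < 2 / a * (a / 2 * r) :=
          mul_lt_mul_of_pos_left hw (by positivity)
      _ = r := by field_simp
  have hyD := hball hyball
  -- the functional norms `x`
  have hfx : f x = ‖x‖ := by
    obtain ⟨hρ, hf⟩ := hf
    set s : ℝ := min (1 / 4) (ρ / (2 * (a * ‖y‖ + 1))) with hs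
    have hs0 : 0 < s := by rw [hs]; positivity
    have hs1 : s ≤ 1 / 4 := min_le_left _ _
    have hs2 : s * (2 * (a * ‖y‖ + 1)) ≤ ρ := by
      have : s ≤ ρ / (2 * (a * ‖y‖ + 1)) := min_le_right _ _
      rwa [le_div_iff₀ (by positivity)] at this
    have h1 := hf 0 (by rwa [norm_zero])
    rw [add_zero] at h1
    have h2 := hf ((s * a) • y) (by
      rw [norm_smul, Real.norm_of_nonneg (by positivity)]
      have : 0 ≤ a * ‖y‖ := by positivity
      nlinarith)
    have e : w + (s * a) • y = x + ((1 / 2 + s) * a) • y := by rw [hwy]; module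
    rw [e] at h2
    rw [hwy] at h1
    have h3 := hyD (1 / 2) (by norm_num) (by norm_num)
    have h4 := hyD (1 / 2 + s) (by linarith) (by linarith)
    rw [h3] at h1
    rw [h4] at h2
    rw [map_add, map_smul, smul_eq_mul] at h1 h2
    -- two linear equations
    have h5 : s * (‖x‖ - ‖x + a • y‖ + a * f y) = 0 := by linarith
    have h6 : ‖x‖ - ‖x + a • y‖ + a * f y = 0 := by
      rcases mul_eq_zero.1 h5 with h | h
      · exact absurd h hs0.ne'
      · exact h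
    linarith
  -- the functional is one of the `F n`
  obtain ⟨k, hk⟩ := hY.exists_dist_lt w hf.1
  have hLL : LL (Y k) f (ρ - dist w (Y k)) := by
    refine ⟨by linarith, fun v hv => ?_⟩
    have e : Y k + v = w + (Y k - w + v) := by abel
    rw [e]
    refine hf.2 _ ?_
    refine (norm_add_le _ _).trans_lt ?_
    rw [← dist_eq_norm, dist_comm]
    linarith
  exact ⟨k, by rw [hF2 k f _ hLL]; exact hfx⟩

section Hilbert

open scoped InnerProductSpace

variable {H : Type*} [NormedAddCommGroup H] [InnerProductSpace ℝ H]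

/-- the states of the construction -/
structure St (T : H ≃L[ℝ] X) where
  x : H
  S : Submodule ℝ H
  fin : FiniteDimensional ℝ S
  mem : x ∈ S
  lt : ‖T x‖ < 1

lemma step (T : H ≃L[ℝ] X) (hinf : ¬ FiniteDimensional ℝ H) (F : ℕ → (X →L[ℝ] ℝ)) (n : ℕ)
    (σ : St T) : ∃ σ' : St T, σ.S ≤ σ'.S ∧ (∀ v ∈ σ.S, ⟪v, σ'.x - σ.x⟫_ℝ = 0) ∧
      (∀ j ≤ n, F j (T (σ'.x - σ.x)) = 0) ∧ ‖T (σ'.x - σ.x)‖ = (1 - ‖T σ.x‖) / 2 := by
  have := σ.fin
  -- a nonzero vector in the common kernel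
  obtain ⟨z, hz0, hz1, hz2⟩ : ∃ z : H, z ≠ 0 ∧ (∀ v ∈ σ.S, ⟪v, z⟫_ℝ = 0) ∧
      ∀ j ≤ n, F j (T z) = 0 := by
    set L1 : H →ₗ[ℝ] Module.Dual ℝ σ.S := (LinearMap.lcomp ℝ ℝ σ.S.subtype).comp (innerₗ H) with hL1
    set L2 : H →ₗ[ℝ] (Fin (n + 1) → ℝ) :=
      LinearMap.pi fun j => (F j : X →ₗ[ℝ] ℝ).comp (T : H →ₗ[ℝ] X) with hL2
    set L : H →ₗ[ℝ] Module.Dual ℝ σ.S × (Fin (n + 1) → ℝ) := L1.prod L2 with hL
    have hker : LinearMap.ker L ≠ ⊥ := by
      intro h
      exact hinf (FiniteDimensional.of_injective L (LinearMap.ker_eq_bot.1 h))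
    obtain ⟨z, hz, hz0⟩ := (Submodule.ne_bot_iff _).1 hker
    rw [LinearMap.mem_ker] at hz
    have hz1 : L1 z = 0 := congrArg Prod.fst hz
    have hz2 : L2 z = 0 := congrArg Prod.snd hz
    refine ⟨z, hz0, fun v hv => ?_, fun j hj => ?_⟩
    · have := LinearMap.congr_fun hz1 ⟨v, hv⟩
      rw [real_inner_comm]
      exact this
    · exact congrFun hz2 ⟨j, Nat.lt_succ_of_le hj⟩
  have hTz : 0 < ‖T z‖ := by
    rw [norm_pos_iff]
    intro h
    exact hz0 (T.map_eq_zero_iff.1 h)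
  set c : ℝ := (1 - ‖T σ.x‖) / 2 / ‖T z‖ with hc
  have hlt := σ.lt
  have hc0 : 0 < c := by
    rw [hc]
    have : 0 < 1 - ‖T σ.x‖ := by linarith
    positivity
  have hnorm : ‖T (c • z)‖ = (1 - ‖T σ.x‖) / 2 := by
    rw [map_smul, norm_smul, Real.norm_of_nonneg hc0.le, hc, div_mul_cancel₀ _ hTz.ne']
  refine ⟨⟨σ.x + c • z, σ.S ⊔ Submodule.span ℝ {z}, ?_, ?_, ?_⟩, le_sup_left, ?_, ?_, ?_⟩
  · have : FiniteDimensional ℝ (Submodule.span ℝ ({z} : Set H)) :=
      FiniteDimensional.span_of_finite ℝ (Set.finite_singleton z)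
    infer_instance
  · exact Submodule.add_mem _ ((le_sup_left : σ.S ≤ _) σ.mem)
      (Submodule.smul_mem _ _ ((le_sup_right : Submodule.span ℝ {z} ≤ _)
        (Submodule.mem_span_singleton_self z)))
  · rw [map_add]
    refine (norm_add_le _ _).trans_lt ?_
    rw [hnorm]
    linarith
  · intro v hv
    show ⟪v, σ.x + c • z - σ.x⟫_ℝ = 0
    rw [add_sub_cancel_left, inner_smul_right, hz1 v hv, mul_zero]
  · intro j hj
    show F j (T (σ.x + c • z - σ.x)) = 0
    rw [add_sub_cancel_left, map_smul, map_smul, hz2 j hj, smul_zero]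
  · show ‖T (σ.x + c • z - σ.x)‖ = _
    rw [add_sub_cancel_left, hnorm]

/-- **an infinite-dimensional separable Hilbert space is not isomorphic to a polyhedral space** -/
theorem not_iso [CompleteSpace H] [TopologicalSpace.SeparableSpace H]
    (hinf : ¬ FiniteDimensional ℝ H) [CompleteSpace X] (hX : IsPolyhedral X) (T : H ≃L[ℝ] X) :
    False := by
  have : TopologicalSpace.SeparableSpace X :=
    T.surjective.denseRange.separableSpace T.continuous
  obtain ⟨F, hF1, hF2⟩ := boundary (raff_of_polyhedral hX)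
  choose nxt h1 h2 h3 h4 using fun n σ => step T hinf F n σ
  set σ₀ : St T := ⟨0, ⊥, inferInstance, Submodule.zero_mem _, by simp⟩ with hσ₀
  set σ : ℕ → St T := fun n => Nat.rec σ₀ (fun n s => nxt n s) n with hσ
  have hσs : ∀ n, σ (n + 1) = nxt n (σ n) := fun n => rfl
  set x : ℕ → H := fun n => (σ n).x with hx
  have hS : Monotone fun n => (σ n).S := by
    refine monotone_nat_of_le_succ fun n => ?_
    show (σ n).S ≤ (σ (n + 1)).S
    rw [hσs]
    exact h1 n (σ n)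
  have horth : ∀ n k, ∀ v ∈ (σ n).S, ⟪v, x (n + k) - x n⟫_ℝ = 0 := by
    intro n k v hv
    induction k with
    | zero => simp
    | succ k ih =>
      have e : x (n + (k + 1)) - x n = ((σ (n + k + 1)).x - (σ (n + k)).x) + (x (n + k) - x n) := by
        simp only [hx]
        rw [← Nat.add_assoc]
        abel
      rw [e, inner_add_right, ih, add_zero, hσs]
      exact h2 (n + k) (σ (n + k)) v (hS (Nat.le_add_right n k) hv)
  have hpyth : ∀ n m, n ≤ m → ‖x m - x n‖ ^ 2 = ‖x m‖ ^ 2 - ‖x n‖ ^ 2 := by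
    intro n m hnm
    obtain ⟨k, rfl⟩ := Nat.exists_eq_add_of_le hnm
    have h := horth n k (x n) (σ n).mem
    rw [inner_sub_right, real_inner_self_eq_norm_sq] at h
    rw [norm_sub_sq_real, real_inner_comm]
    linarith
  have hkill : ∀ i k, F i (T (x (i + k))) = F i (T (x i)) := by
    intro i k
    induction k with
    | zero => rfl
    | succ k ih =>
      have e : x (i + (k + 1)) = ((σ (i + k + 1)).x - (σ (i + k)).x) + x (i + k) := by
        simp only [hx]
        rw [← Nat.add_assoc]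
        abel
      rw [e, map_add, map_add, ih, hσs, h3 (i + k) (σ (i + k)) i (Nat.le_add_right i k), zero_add]
  -- boundedness
  have hbd : ∀ n, ‖x n‖ ≤ ‖(T.symm : X →L[ℝ] H)‖ := by
    intro n
    calc ‖x n‖ = ‖(T.symm : X →L[ℝ] H) (T (x n))‖ := by simp
      _ ≤ ‖(T.symm : X →L[ℝ] H)‖ * ‖T (x n)‖ := (T.symm : X →L[ℝ] H).le_opNorm _
      _ ≤ ‖(T.symm : X →L[ℝ] H)‖ * 1 :=
        mul_le_mul_of_nonneg_left (σ n).lt.le (norm_nonneg _)
      _ = _ := mul_one _
  have hmono : Monotone fun n => ‖x n‖ ^ 2 := by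
    intro n m hnm
    have := hpyth n m hnm
    have h0 := sq_nonneg ‖x m - x n‖
    show ‖x n‖ ^ 2 ≤ ‖x m‖ ^ 2
    linarith
  have hbdd : BddAbove (Set.range fun n => ‖x n‖ ^ 2) := by
    refine ⟨‖(T.symm : X →L[ℝ] H)‖ ^ 2, ?_⟩
    rintro _ ⟨n, rfl⟩
    exact pow_le_pow_left₀ (norm_nonneg _) (hbd n) 2
  have hlim := tendsto_atTop_ciSup hmono hbdd
  have hcau : CauchySeq x := by
    rw [Metric.cauchySeq_iff']
    intro ε hε
    have hev := hlim.eventually_const_lt (show (⨆ n, ‖x n‖ ^ 2) - ε ^ 2 < ⨆ n, ‖x n‖ ^ 2 by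
      have : 0 < ε ^ 2 := by positivity
      linarith)
    obtain ⟨N, hN⟩ := hev.exists
    refine ⟨N, fun n hn => ?_⟩
    have h5 := hpyth N n hn
    have h6 : ‖x n‖ ^ 2 ≤ ⨆ n, ‖x n‖ ^ 2 := le_ciSup hbdd n
    rw [dist_eq_norm]
    refine lt_of_pow_lt_pow_left₀ 2 hε.le ?_
    linarith
  obtain ⟨z, hz⟩ := cauchySeq_tendsto_of_complete hcau
  have hTz : Tendsto (fun n => T (x n)) atTop (𝓝 (T z)) := (T.continuous.tendsto z).comp hz
  have hTz1 : ‖T z‖ = 1 := by
    have h5 : Tendsto (fun n => ‖T (x (n + 1) - x n)‖) atTop (𝓝 0) := by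
      have h6 : Tendsto (fun n => T (x (n + 1)) - T (x n)) atTop (𝓝 (T z - T z)) :=
        (hTz.comp (tendsto_add_atTop_nat 1)).sub hTz
      rw [sub_self] at h6
      have h7 := h6.norm
      rw [norm_zero] at h7
      refine h7.congr fun n => ?_
      rw [map_sub]
    have h6 : Tendsto (fun n => (1 - ‖T (x n)‖) / 2) atTop (𝓝 ((1 - ‖T z‖) / 2)) :=
      (hTz.norm.const_sub 1).div_const 2
    have h7 : Tendsto (fun n => (1 - ‖T (x n)‖) / 2) atTop (𝓝 0) := by
      refine h5.congr fun n => ?_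
      show ‖T ((σ (n + 1)).x - (σ n).x)‖ = (1 - ‖T (σ n).x‖) / 2
      rw [hσs]
      exact h4 n (σ n)
    have h8 := tendsto_nhds_unique h6 h7
    linarith
  obtain ⟨i, hi⟩ := hF2 (T z)
  have h5 : Tendsto (fun k => F i (T (x (k + i)))) atTop (𝓝 (F i (T z))) :=
    (((F i).continuous.tendsto _).comp hTz).comp (tendsto_add_atTop_nat i)
  have h6 : F i (T z) = F i (T (x i)) := by
    refine tendsto_nhds_unique h5 ?_
    refine (tendsto_const_nhds (x := F i (T (x i)))).congr fun k => ?_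
    rw [add_comm k i, hkill]
  have h7 : F i (T (x i)) < 1 := (hF1 i _).trans_lt (σ i).lt
  rw [← h6, hi, hTz1] at h7
  exact lt_irrefl _ h7

end Hilbert

end Pool.Agent.V11101.Poly
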