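import Pool.Agent.V11101.JetG
open Filter Topology Matrix
open scoped ComplexConjugate
namespace Pool.Agent.V11101.Jet

lemma AF_bound (e : ℝ) (he0 : 0 < e) (he : e ≤ 1 / 2) (j : Fin 5) (i k : Fin 6) :
    ‖AF (e : ℂ) j i k‖ ≤ 4 := by
  have h1 : ‖1 + (e : ℂ) ^ 2‖ ≤ 4 := by
    refine (norm_add_le _ _).trans ?_
    rw [norm_one, norm_pow, Complex.norm_real, Real.norm_of_nonneg he0.le]
    nlinarith
  have h2 : |e| ≤ 1 / 2 := by rwa [abs_of_pos he0]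
  have h3 : e ^ 2 ≤ 4 := by nlinarith
  fin_cases j <;> fin_cases i <;> fin_cases k <;> simp [AF, Gen, h1, h3]

lemma BI_bound (e : ℝ) (he0 : 0 < e) (he : e ≤ 1 / 2) (i k : Fin 6) :
    ‖(∑ j, (bF e j : ℂ) • AF (e : ℂ) j)⁻¹ i k‖ ≤ 4 := by
  rw [B_F, Matrix.inv_eq_right_inv (BI_mul e (by linarith) he0.le)]
  have h1 : ‖((1 - (e : ℂ)) ^ 2)⁻¹‖ ≤ 4 := by
    have : ((1 - (e : ℂ)) ^ 2)⁻¹ = ((((1 - e) ^ 2)⁻¹ : ℝ) : ℂ) := by push_cast; rfl
    rw [this, Complex.norm_real, Real.norm_of_nonneg (by positivity)]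
    rw [inv_le_comm₀ (by have : 0 < 1 - e := by linarith
                         positivity) (by norm_num)]
    nlinarith
  have h2 : ‖((1 + (e : ℂ)) ^ 2)⁻¹‖ ≤ 4 := by
    have : ((1 + (e : ℂ)) ^ 2)⁻¹ = ((((1 + e) ^ 2)⁻¹ : ℝ) : ℂ) := by push_cast; rfl
    rw [this, Complex.norm_real, Real.norm_of_nonneg (by positivity)]
    rw [inv_le_comm₀ (by positivity) (by norm_num)]
    nlinarith
  have h3 : 2 * |e| ≤ 4 := by rw [abs_of_pos he0]; linarith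
  rw [norm_inv, norm_pow] at h1 h2
  fin_cases i <;> fin_cases k <;> simp [BI, h1, h2, h3]

end Pool.Agent.V11101.Jet
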