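import Mathlib

/-!
# `BMO` spaces defined through families of quasi-Banach function spaces: definitions and the
maximal-function test functions
-/

open MeasureTheory Set Metric Filter Topology
open scoped ENNReal NNReal

namespace Pool.Agent.V11101.BmoX

/-- A cube of `ℝⁿ` with sides parallel to the axes, given by its centre `c` and half of its side
length `r > 0`. -/
structure Cube (n : ℕ) where
  c : Fin n → ℝ
  r : ℝ
  pos : 0 < r

variable {n : ℕ}

/-- The (closed) cube as a set. -/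
def Cube.set (Q : Cube n) : Set (Fin n → ℝ) := {x | ∀ i, |x i - Q.c i| ≤ Q.r}

/-- Lebesgue measure on the cube. -/
noncomputable abbrev Cube.vol (Q : Cube n) : Measure (Fin n → ℝ) := volume.restrict Q.set

/-- A quasi-Banach function space over the cube `Q`, given by its quasi-norm `N` extended by the
value `∞` outside the space: `X_Q = {f : N f < ∞}`. Functions are real functions on `ℝⁿ` which are
a.e.-measurable on `Q`; only their values on `Q` (up to null sets) matter, by `mono`. -/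
structure QBFS (Q : Cube n) where
  /-- the quasi-norm -/
  N : ((Fin n → ℝ) → ℝ) → ℝ≥0∞
  /-- order ideal property and monotonicity of the quasi-norm -/
  mono : ∀ f g, AEMeasurable f Q.vol → AEMeasurable g Q.vol → (∀ᵐ x ∂Q.vol, |f x| ≤ |g x|) →
    N f ≤ N g
  /-- homogeneity -/
  smul : ∀ (a : ℝ) (f), AEMeasurable f Q.vol → N (fun x => a * f x) = ENNReal.ofReal |a| * N f
  /-- quasi-triangle inequality -/
  quasi : ∃ K : ℝ≥0, ∀ f g, AEMeasurable f Q.vol → AEMeasurable g Q.vol →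
    N (fun x => f x + g x) ≤ K * (N f + N g)
  /-- definiteness -/
  eq_zero : ∀ f, AEMeasurable f Q.vol → N f = 0 → ∀ᵐ x ∂Q.vol, f x = 0
  /-- some element of the space is positive a.e. -/
  unit : ∃ f, AEMeasurable f Q.vol ∧ N f < ∞ ∧ ∀ᵐ x ∂Q.vol, 0 < f x
  /-- Fatou property -/
  fatou : ∀ (f : ℕ → (Fin n → ℝ) → ℝ) (g : (Fin n → ℝ) → ℝ), (∀ k, AEMeasurable (f k) Q.vol) →
    AEMeasurable g Q.vol → (∀ k, ∀ᵐ x ∂Q.vol, 0 ≤ f k x ∧ f k x ≤ f (k + 1) x) →
    (∀ᵐ x ∂Q.vol, Tendsto (fun k => f k x) atTop (𝓝 (g x))) → N g = ⨆ k, N (f k)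
  /-- completeness -/
  complete : ∀ f : ℕ → (Fin n → ℝ) → ℝ, (∀ k, AEMeasurable (f k) Q.vol ∧ N (f k) < ∞) →
    (∀ ε : ℝ≥0∞, 0 < ε → ∃ k₀, ∀ k, k₀ ≤ k → ∀ l, k₀ ≤ l → N (fun x => f k x - f l x) ≤ ε) →
    ∃ g, AEMeasurable g Q.vol ∧ N g < ∞ ∧ Tendsto (fun k => N (fun x => f k x - g x)) atTop (𝓝 0)

/-- A family of quasi-Banach function spaces, one over each cube. -/
abbrev Family (n : ℕ) : Type := (Q : Cube n) → QBFS Q

/-- The family is normalized: `‖χ_Q‖_{X_Q} ≃ 1` with constants independent of `Q`. -/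
def Normalized (X : Family n) : Prop :=
  ∃ a b : ℝ≥0∞, 0 < a ∧ b < ∞ ∧ ∀ Q, a ≤ (X Q).N (fun _ => 1) ∧ (X Q).N (fun _ => 1) ≤ b

/-- The quasi-triangle inequalities of the spaces `X_Q` hold with one constant. -/
def UniformQuasi (X : Family n) : Prop :=
  ∃ K : ℝ≥0, ∀ Q, ∀ f g, AEMeasurable f Q.vol → AEMeasurable g Q.vol →
    (X Q).N (fun x => f x + g x) ≤ K * ((X Q).N f + (X Q).N g)

/-- The mean value of `f` over `Q`. -/
noncomputable def mean (f : (Fin n → ℝ) → ℝ) (Q : Cube n) : ℝ := ⨍ x in Q.set, f x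

/-- The classical `BMO` norm (`sup` over cubes of the mean oscillation). -/
noncomputable def bmo (f : (Fin n → ℝ) → ℝ) : ℝ≥0∞ :=
  ⨆ Q : Cube n, (volume Q.set)⁻¹ * ∫⁻ x in Q.set, ‖f x - mean f Q‖ₑ

/-- `‖f‖_{BMO_X} = sup_Q ‖f - ⟨f⟩_Q‖_{X_Q}`. -/
noncomputable def bmoX (X : Family n) (f : (Fin n → ℝ) → ℝ) : ℝ≥0∞ :=
  ⨆ Q : Cube n, (X Q).N (fun x => f x - mean f Q)

/-- `‖f‖_{BMO*_X} = sup_Q inf_c ‖f - c‖_{X_Q}`. -/
noncomputable def bmoXStar (X : Family n) (f : (Fin n → ℝ) → ℝ) : ℝ≥0∞ :=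
  ⨆ Q : Cube n, ⨅ c : ℝ, (X Q).N (fun x => f x - c)

/-- `BMO ↪ BMO_X` -/
def BmoToBmoX (X : Family n) : Prop :=
  ∃ C : ℝ≥0, ∀ f : (Fin n → ℝ) → ℝ, LocallyIntegrable f → bmo f < ∞ → bmoX X f ≤ C * bmo f

/-- `BMO_X ↪ BMO` -/
def BmoXToBmo (X : Family n) : Prop :=
  ∃ C : ℝ≥0, ∀ f : (Fin n → ℝ) → ℝ, LocallyIntegrable f → bmoX X f < ∞ → bmo f ≤ C * bmoX X f

/-- `BMO*_X ↪ BMO` -/
def BmoXStarToBmo (X : Family n) : Prop :=
  ∃ C : ℝ≥0, ∀ f : (Fin n → ℝ) → ℝ, AEMeasurable f → bmoXStar X f < ∞ →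
    LocallyIntegrable f ∧ bmo f ≤ C * bmoXStar X f

/-! ### Cubes -/

lemma Cube.set_eq (Q : Cube n) : Q.set = closedBall Q.c Q.r := by
  ext x
  rw [mem_closedBall, dist_pi_le_iff Q.pos.le]
  simp only [Cube.set, mem_ofPred_eq, Real.dist_eq]

lemma Cube.measurableSet (Q : Cube n) : MeasurableSet Q.set := by
  rw [Q.set_eq]; exact isClosed_closedBall.measurableSet

/-- volume of a cube -/
lemma vol_ball (x : Fin n → ℝ) {r : ℝ} (hr : 0 ≤ r) :
    volume (closedBall x r) = ENNReal.ofReal ((2 * r) ^ n) := by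
  rw [Real.volume_pi_closedBall x hr, Fintype.card_fin]

lemma vol_ball_mul (x y : Fin n → ℝ) {r a : ℝ} (hr : 0 ≤ r) (ha : 0 ≤ a) :
    volume (closedBall x (a * r)) = ENNReal.ofReal (a ^ n) * volume (closedBall y r) := by
  rw [vol_ball x (by positivity), vol_ball y hr, ← ENNReal.ofReal_mul (by positivity)]
  congr 1
  rw [← mul_pow]
  congr 1
  ring

lemma vol_ball_pos (x : Fin n → ℝ) {r : ℝ} (hr : 0 < r) : 0 < volume (closedBall x r) := by
  rw [vol_ball x hr.le]; positivity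

lemma vol_ball_lt_top (x : Fin n → ℝ) (r : ℝ) : volume (closedBall x r) < ∞ :=
  measure_closedBall_lt_top

/-! ### The maximal function of a set -/

/-- the set where the (centred) maximal function of `χ_E` exceeds `s` -/
def Om (E : Set (Fin n → ℝ)) (s : ℝ≥0∞) : Set (Fin n → ℝ) :=
  {x | ∃ r : ℝ, 0 < r ∧ s * volume (closedBall x r) < volume (E ∩ closedBall x r)}

lemma Om_mono_E {E E' : Set (Fin n → ℝ)} (h : E ⊆ E') (s : ℝ≥0∞) : Om E s ⊆ Om E' s := by
  rintro x ⟨r, hr, hx⟩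
  exact ⟨r, hr, hx.trans_le (measure_mono (inter_subset_inter_left _ h))⟩

lemma Om_anti (E : Set (Fin n → ℝ)) {s s' : ℝ≥0∞} (h : s ≤ s') : Om E s' ⊆ Om E s := by
  rintro x ⟨r, hr, hx⟩
  exact ⟨r, hr, (mul_le_mul_left h _).trans_lt hx⟩

lemma isOpen_Om (E : Set (Fin n → ℝ)) {s : ℝ≥0∞} (hs : s ≠ ∞) : IsOpen (Om E s) := by
  rw [Metric.isOpen_iff]
  rintro x ⟨r, hr, hx⟩
  have hcont : Tendsto (fun δ : ℝ => s * ENNReal.ofReal ((2 * (r + δ)) ^ n)) (𝓝[>] 0)
      (𝓝 (s * ENNReal.ofReal ((2 * (r + 0)) ^ n))) := by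
    refine ENNReal.Tendsto.const_mul ?_ (Or.inr hs)
    refine (ENNReal.continuous_ofReal.tendsto _).comp ?_
    have : Continuous fun δ : ℝ => (2 * (r + δ)) ^ n := by fun_prop
    exact (this.tendsto 0).mono_left nhdsWithin_le_nhds
  rw [add_zero, ← vol_ball x hr.le] at hcont
  obtain ⟨δ, h1, h2⟩ := ((hcont.eventually_lt_const hx).and self_mem_nhdsWithin).exists
  have hδ : 0 < δ := h2
  refine ⟨δ, hδ, fun y hy => ⟨r + δ, by positivity, ?_⟩⟩
  rw [vol_ball y (by positivity)]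
  refine h1.trans_le (measure_mono (inter_subset_inter_right _ ?_))
  refine closedBall_subset_closedBall' ?_
  have : dist x y < δ := by rw [dist_comm]; exact hy
  linarith

/-- weak type estimate -/
lemma weak_type (hn : 0 < n) (E : Set (Fin n → ℝ)) (hE : volume E < ∞) {s : ℝ≥0∞} (hs : s ≠ 0)
    (hs' : s ≠ ∞) : s * volume (Om E s) ≤ ENNReal.ofReal (4 ^ n) * volume E := by
  classical
  choose! r hr0 hr using fun (x : Fin n → ℝ) (hx : x ∈ Om E s) => hx
  -- radii are bounded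
  set R : ℝ := max 1 (volume E / s).toReal with hR
  have hfin : volume E / s ≠ ∞ := ENNReal.div_ne_top hE.ne hs
  have hbound : ∀ x ∈ Om E s, r x ≤ R := by
    intro x hx
    rcases le_or_gt (r x) 1 with h | h
    · exact h.trans (le_max_left _ _)
    refine le_trans ?_ (le_max_right _ _)
    have h1 : s * volume (closedBall x (r x)) < volume E :=
      (hr x hx).trans_le (measure_mono inter_subset_left)
    have h2 : volume (closedBall x (r x)) ≤ volume E / s := by
      rw [ENNReal.le_div_iff_mul_le (Or.inl hs) (Or.inl hs'), mul_comm]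
      exact h1.le
    rw [vol_ball x (hr0 x hx).le] at h2
    have h3 : (2 * r x) ^ n ≤ (volume E / s).toReal := by
      rwa [ENNReal.ofReal_le_iff_le_toReal hfin] at h2
    refine le_trans ?_ h3
    calc r x ≤ 2 * r x := by linarith
      _ = (2 * r x) ^ 1 := (pow_one _).symm
      _ ≤ (2 * r x) ^ n := pow_le_pow_right₀ (by linarith) hn
  obtain ⟨u, hu, hdisj, hcov⟩ := Vitali.exists_disjoint_subfamily_covering_enlargement_closedBall
    (Om E s) (fun x => x) r R hbound 4 (by norm_num)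
  have hucount : u.Countable := by
    refine hdisj.countable_of_nonempty_interior fun x hx => ?_
    rw [interior_closedBall x (hr0 x (hu hx)).ne']
    exact ⟨x, mem_ball_self (hr0 x (hu hx))⟩
  have hcover : Om E s ⊆ ⋃ x ∈ u, closedBall x (4 * r x) := by
    intro x hx
    obtain ⟨b, hb, hxb⟩ := hcov x hx
    exact mem_biUnion hb (hxb (mem_closedBall_self (hr0 x hx).le))
  calc s * volume (Om E s) ≤ s * ∑' x : u, volume (closedBall (x : Fin n → ℝ) (4 * r x)) := by
        gcongr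
        exact (measure_mono hcover).trans (measure_biUnion_le volume hucount _)
    _ = ∑' x : u, ENNReal.ofReal (4 ^ n) * (s * volume (closedBall (x : Fin n → ℝ) (r x))) := by
        rw [← ENNReal.tsum_mul_left]
        refine tsum_congr fun x => ?_
        rw [vol_ball_mul (x : Fin n → ℝ) (x : Fin n → ℝ) (hr0 _ (hu x.2)).le (by norm_num)]
        ring
    _ ≤ ∑' x : u, ENNReal.ofReal (4 ^ n) * volume (E ∩ closedBall (x : Fin n → ℝ) (r x)) := by
        refine ENNReal.tsum_le_tsum fun x => ?_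
        gcongr
        exact (hr _ (hu x.2)).le
    _ = ENNReal.ofReal (4 ^ n) * ∑' x : u, (volume.restrict E) (closedBall (x : Fin n → ℝ) (r x)) := by
        rw [ENNReal.tsum_mul_left]
        congr 1
        refine tsum_congr fun x => ?_
        rw [Measure.restrict_apply isClosed_closedBall.measurableSet, inter_comm]
    _ = ENNReal.ofReal (4 ^ n) * (volume.restrict E) (⋃ x ∈ u, closedBall x (r x)) := by
        rw [measure_biUnion hucount hdisj fun x _ => isClosed_closedBall.measurableSet]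
    _ ≤ ENNReal.ofReal (4 ^ n) * volume E := by
        have h := measure_mono (μ := volume.restrict E) (subset_univ (⋃ x ∈ u, closedBall x (r x)))
        rw [Measure.restrict_apply_univ] at h
        exact mul_le_mul_right h _

/-- the local estimate -/
lemma local_est (hn : 0 < n) (E : Set (Fin n → ℝ)) (Q : Cube n) {s s' : ℝ≥0∞}
    (hs' : s' ≠ ∞) (hs0 : s' ≠ 0) (h : ¬ Q.set ⊆ Om E s) :
    s' * volume (Q.set ∩ Om E s') ≤ ENNReal.ofReal (12 ^ n) * (s * volume Q.set) := by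
  obtain ⟨y, hyQ, hy⟩ := not_subset.1 h
  have hρ := Q.pos
  have hy' : ∀ r : ℝ, 0 < r → volume (E ∩ closedBall y r) ≤ s * volume (closedBall y r) := by
    intro r hr
    by_contra hcon
    exact hy ⟨r, hr, not_le.1 hcon⟩
  rw [Q.set_eq] at hyQ ⊢
  rw [mem_closedBall] at hyQ
  rcases lt_or_ge s' (ENNReal.ofReal (3 ^ n) * s) with hlt | hge
  · calc s' * volume (closedBall Q.c Q.r ∩ Om E s')
        ≤ (ENNReal.ofReal (3 ^ n) * s) * volume (closedBall Q.c Q.r) := by
          gcongr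
          exact inter_subset_left
      _ ≤ (ENNReal.ofReal (12 ^ n) * s) * volume (closedBall Q.c Q.r) := by
          gcongr
          norm_num
      _ = _ := by ring
  · -- points of the intersection are in `Om (E ∩ 2Q) s'`
    have hsub : closedBall Q.c Q.r ∩ Om E s' ⊆ Om (E ∩ closedBall Q.c (2 * Q.r)) s' := by
      rintro x ⟨hxQ, r, hr, hx⟩
      rw [mem_closedBall] at hxQ
      have hrρ : r < Q.r := by
        by_contra hcon
        push Not at hcon
        have h1 : closedBall x r ⊆ closedBall y (3 * r) := by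
          refine closedBall_subset_closedBall' ?_
          have : dist x y ≤ dist x Q.c + dist Q.c y := dist_triangle _ _ _
          rw [dist_comm Q.c y] at this
          linarith
        have h2 : volume (E ∩ closedBall x r) ≤ s * volume (closedBall y (3 * r)) :=
          (measure_mono (inter_subset_inter_right _ h1)).trans (hy' _ (by linarith))
        rw [vol_ball_mul y x hr.le (by norm_num)] at h2
        have h3 : s * (ENNReal.ofReal (3 ^ n) * volume (closedBall x r)) ≤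
            s' * volume (closedBall x r) := by
          calc s * (ENNReal.ofReal (3 ^ n) * volume (closedBall x r))
              = (ENNReal.ofReal (3 ^ n) * s) * volume (closedBall x r) := by ring
            _ ≤ s' * volume (closedBall x r) := by gcongr
        exact absurd hx (not_lt.2 (h2.trans h3))
      refine ⟨r, hr, hx.trans_le (measure_mono ?_)⟩
      intro z hz
      refine ⟨⟨hz.1, ?_⟩, hz.2⟩
      have hz2 : dist z x ≤ r := hz.2
      rw [mem_closedBall]
      have := dist_triangle z x Q.c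
      linarith
    have h2Q : volume (E ∩ closedBall Q.c (2 * Q.r)) ≤
        s * (ENNReal.ofReal (3 ^ n) * volume (closedBall Q.c Q.r)) := by
      have h1 : closedBall Q.c (2 * Q.r) ⊆ closedBall y (3 * Q.r) := by
        refine closedBall_subset_closedBall' ?_
        rw [dist_comm]
        linarith
      refine (measure_mono (inter_subset_inter_right _ h1)).trans ?_
      rw [← vol_ball_mul y Q.c hρ.le (by norm_num)]
      exact hy' _ (by linarith)
    have hfin : volume (E ∩ closedBall Q.c (2 * Q.r)) < ∞ :=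
      (measure_mono inter_subset_right).trans_lt (vol_ball_lt_top _ _)
    calc s' * volume (closedBall Q.c Q.r ∩ Om E s')
        ≤ s' * volume (Om (E ∩ closedBall Q.c (2 * Q.r)) s') := by
          gcongr
      _ ≤ ENNReal.ofReal (4 ^ n) * volume (E ∩ closedBall Q.c (2 * Q.r)) :=
          weak_type hn _ hfin hs0 hs'
      _ ≤ ENNReal.ofReal (4 ^ n) * (s * (ENNReal.ofReal (3 ^ n) * volume (closedBall Q.c Q.r))) := by
          gcongr
      _ = ENNReal.ofReal (4 ^ n) * ENNReal.ofReal (3 ^ n) * (s * volume (closedBall Q.c Q.r)) := by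
          ring
      _ = _ := by
          rw [← ENNReal.ofReal_mul (by positivity), ← mul_pow]
          norm_num

/-! ### Test functions -/

open Classical in
/-- the test function: the number of `j ∈ [1, k]` with `M χ_E > 2^{-j}` -/
noncomputable def tf (E : Set (Fin n → ℝ)) (k : ℕ) (x : Fin n → ℝ) : ℝ :=
  ∑ j ∈ Finset.Icc 1 k, (Om E (2⁻¹ ^ j)).indicator (fun _ => (1 : ℝ)) x

lemma half_pow_ne_top (j : ℕ) : (2⁻¹ : ℝ≥0∞) ^ j ≠ ∞ := ENNReal.pow_ne_top (by simp)

lemma half_pow_ne_zero (j : ℕ) : (2⁻¹ : ℝ≥0∞) ^ j ≠ 0 := pow_ne_zero _ (by simp)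

lemma measurable_tf (E : Set (Fin n → ℝ)) (k : ℕ) : Measurable (tf E k) := by
  unfold tf
  refine Finset.measurable_fun_sum _ fun j _ => ?_
  exact measurable_const.indicator (isOpen_Om E (half_pow_ne_top j)).measurableSet

lemma tf_nonneg (E : Set (Fin n → ℝ)) (k : ℕ) (x : Fin n → ℝ) : 0 ≤ tf E k x :=
  Finset.sum_nonneg fun j _ => Set.indicator_nonneg (fun _ _ => zero_le_one) _

lemma tf_le (E : Set (Fin n → ℝ)) (k : ℕ) (x : Fin n → ℝ) : tf E k x ≤ k := by
  unfold tf
  calc ∑ j ∈ Finset.Icc 1 k, (Om E (2⁻¹ ^ j)).indicator (fun _ => (1 : ℝ)) x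
      ≤ ∑ j ∈ Finset.Icc 1 k, (1 : ℝ) := Finset.sum_le_sum fun j _ => by
        refine Set.indicator_le_self' (fun _ _ => zero_le_one) _
    _ = k := by simp

lemma locallyIntegrable_tf (E : Set (Fin n → ℝ)) (k : ℕ) : LocallyIntegrable (tf E k) := by
  refine (locallyIntegrable_const (k : ℝ)).mono (measurable_tf E k).aestronglyMeasurable ?_
  refine Eventually.of_forall fun x => ?_
  rw [Real.norm_of_nonneg (tf_nonneg E k x), Real.norm_of_nonneg (Nat.cast_nonneg k)]
  exact tf_le E k x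

lemma integrableOn_cube {f : (Fin n → ℝ) → ℝ} (hf : LocallyIntegrable f) (Q : Cube n) :
    IntegrableOn f Q.set := by
  rw [Q.set_eq]
  exact hf.integrableOn_isCompact (isCompact_closedBall _ _)

lemma Cube.vol_pos (Q : Cube n) : 0 < volume Q.set := by
  rw [Q.set_eq]; exact vol_ball_pos _ Q.pos

lemma Cube.vol_lt_top (Q : Cube n) : volume Q.set < ∞ := by
  rw [Q.set_eq]; exact vol_ball_lt_top _ _

/-- mean oscillation versus oscillation from a constant -/
lemma osc_le {f : (Fin n → ℝ) → ℝ} (hf : LocallyIntegrable f) (Q : Cube n) (c : ℝ) :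
    ∫⁻ x in Q.set, ‖f x - mean f Q‖ₑ ≤ 2 * ∫⁻ x in Q.set, ‖f x - c‖ₑ := by
  have hfQ := integrableOn_cube hf Q
  have hvol0 : volume.real Q.set ≠ 0 :=
    (ENNReal.toReal_pos Q.vol_pos.ne' Q.vol_lt_top.ne).ne'
  have h1 : ∫ x in Q.set, (f x - c) = volume.real Q.set * (mean f Q - c) := by
    rw [integral_sub hfQ (integrableOn_const (hs := Q.vol_lt_top.ne))]
    rw [mean, setAverage_eq, setIntegral_const, smul_eq_mul, smul_eq_mul]
    field_simp
  have h2 : ‖c - mean f Q‖ₑ * volume Q.set ≤ ∫⁻ x in Q.set, ‖f x - c‖ₑ := by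
    calc ‖c - mean f Q‖ₑ * volume Q.set = ‖volume.real Q.set * (mean f Q - c)‖ₑ := by
          rw [enorm_mul, mul_comm]
          congr 1
          · rw [Measure.real, Real.enorm_of_nonneg ENNReal.toReal_nonneg,
              ENNReal.ofReal_toReal Q.vol_lt_top.ne]
          · rw [← enorm_neg]; congr 1; ring
      _ = ‖∫ x in Q.set, (f x - c)‖ₑ := by rw [h1]
      _ ≤ _ := enorm_integral_le_lintegral_enorm _
  calc ∫⁻ x in Q.set, ‖f x - mean f Q‖ₑ
      ≤ ∫⁻ x in Q.set, (‖f x - c‖ₑ + ‖c - mean f Q‖ₑ) := by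
        refine lintegral_mono fun x => ?_
        have : f x - mean f Q = (f x - c) + (c - mean f Q) := by ring
        rw [this]
        exact enorm_add_le _ _
    _ = (∫⁻ x in Q.set, ‖f x - c‖ₑ) + ‖c - mean f Q‖ₑ * volume Q.set := by
        rw [lintegral_add_right _ measurable_const, lintegral_const, Measure.restrict_apply_univ]
    _ ≤ _ := by
        rw [two_mul]
        gcongr

lemma geom_sum_le (m : ℕ) : ∑ j ∈ Finset.Icc 1 m, (2 : ℝ≥0∞) ^ j ≤ 2 * 2 ^ m := by
  induction m with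
  | zero => simp
  | succ m ih =>
    rw [Finset.sum_Icc_succ_top (by omega)]
    calc ∑ j ∈ Finset.Icc 1 m, (2 : ℝ≥0∞) ^ j + 2 ^ (m + 1) ≤ 2 * 2 ^ m + 2 ^ (m + 1) := by gcongr
      _ = 2 * 2 ^ (m + 1) := by ring

lemma two_pow_half (j : ℕ) : (2 : ℝ≥0∞) ^ j * 2⁻¹ ^ j = 1 := by
  rw [← mul_pow, ENNReal.mul_inv_cancel (by norm_num) (by norm_num), one_pow]

/-- the `BMO` norm of the test functions -/
lemma bmo_tf (hn : 0 < n) (E : Set (Fin n → ℝ)) (k : ℕ) :
    bmo (tf E k) ≤ 4 * ENNReal.ofReal (12 ^ n) := by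
  classical
  refine iSup_le fun Q => ?_
  rw [← ENNReal.div_eq_inv_mul]
  refine ENNReal.div_le_of_le_mul ?_
  set j₁ := Nat.findGreatest (fun j => ¬ Q.set ⊆ Om E (2⁻¹ ^ j)) k with hj₁
  have hj₁k : j₁ ≤ k := Nat.findGreatest_le k
  refine (osc_le (locallyIntegrable_tf E k) Q ((k : ℝ) - j₁)).trans ?_
  have hpt : ∀ x ∈ Q.set, ‖tf E k x - ((k : ℝ) - j₁)‖ₑ =
      ∑ j ∈ Finset.Icc 1 j₁, (Om E (2⁻¹ ^ j)).indicator (fun _ => (1 : ℝ≥0∞)) x := by
    intro x hx
    have h1 : tf E k x = ∑ j ∈ Finset.Icc 1 j₁, (Om E (2⁻¹ ^ j)).indicator (fun _ => (1 : ℝ)) x +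
        ((k : ℝ) - j₁) := by
      unfold tf
      have hsplit : Finset.Icc 1 k = Finset.Icc 1 j₁ ∪ Finset.Ioc j₁ k := by
        ext j; simp only [Finset.mem_union, Finset.mem_Icc, Finset.mem_Ioc]; omega
      have hdisj : Disjoint (Finset.Icc 1 j₁) (Finset.Ioc j₁ k) := by
        rw [Finset.disjoint_left]
        intro j h1 h2
        simp only [Finset.mem_Icc, Finset.mem_Ioc] at h1 h2
        omega
      rw [hsplit, Finset.sum_union hdisj]
      congr 1
      rw [show ((k : ℝ) - j₁) = ∑ j ∈ Finset.Ioc j₁ k, (1 : ℝ) by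
        rw [Finset.sum_const, Nat.card_Ioc, nsmul_eq_mul, mul_one, Nat.cast_sub hj₁k]]
      refine Finset.sum_congr rfl fun j hj => ?_
      rw [Finset.mem_Ioc] at hj
      have := Nat.findGreatest_is_greatest hj.1 hj.2
      push Not at this
      rw [Set.indicator_of_mem (this hx)]
    rw [h1, add_sub_cancel_right, Real.enorm_of_nonneg
      (Finset.sum_nonneg fun j _ => Set.indicator_nonneg (fun _ _ => zero_le_one) _),
      ENNReal.ofReal_sum_of_nonneg
      (fun j _ => Set.indicator_nonneg (fun _ _ => zero_le_one) _)]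
    refine Finset.sum_congr rfl fun j _ => ?_
    by_cases hm : x ∈ Om E (2⁻¹ ^ j)
    · rw [Set.indicator_of_mem hm, Set.indicator_of_mem hm, ENNReal.ofReal_one]
    · rw [Set.indicator_of_notMem hm, Set.indicator_of_notMem hm, ENNReal.ofReal_zero]
  have hmeas : ∀ j, MeasurableSet (Om E (2⁻¹ ^ j)) := fun j =>
    (isOpen_Om E (half_pow_ne_top j)).measurableSet
  have hint : ∫⁻ x in Q.set, ‖tf E k x - ((k : ℝ) - j₁)‖ₑ =
      ∑ j ∈ Finset.Icc 1 j₁, volume (Q.set ∩ Om E (2⁻¹ ^ j)) := by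
    rw [setLIntegral_congr_fun Q.measurableSet hpt,
      lintegral_finsetSum _ fun j _ => measurable_const.indicator (hmeas j)]
    refine Finset.sum_congr rfl fun j _ => ?_
    rw [lintegral_indicator (hmeas j), lintegral_one, Measure.restrict_apply_univ,
      Measure.restrict_apply' Q.measurableSet, inter_comm]
  rw [hint]
  have hterm : ∀ j ∈ Finset.Icc 1 j₁, volume (Q.set ∩ Om E (2⁻¹ ^ j)) ≤
      2 ^ j * (ENNReal.ofReal (12 ^ n) * (2⁻¹ ^ j₁ * volume Q.set)) := by
    intro j hj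
    rw [Finset.mem_Icc] at hj
    have hj₁0 : j₁ ≠ 0 := by omega
    have hspec : ¬ Q.set ⊆ Om E (2⁻¹ ^ j₁) := Nat.findGreatest_of_ne_zero rfl hj₁0
    have := local_est hn E Q (s := 2⁻¹ ^ j₁) (s' := 2⁻¹ ^ j) (half_pow_ne_top j)
      (half_pow_ne_zero j) hspec
    calc volume (Q.set ∩ Om E (2⁻¹ ^ j)) = 2 ^ j * (2⁻¹ ^ j * volume (Q.set ∩ Om E (2⁻¹ ^ j))) := by
          rw [← mul_assoc, two_pow_half, one_mul]
      _ ≤ _ := by gcongr
  calc 2 * ∑ j ∈ Finset.Icc 1 j₁, volume (Q.set ∩ Om E (2⁻¹ ^ j))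
      ≤ 2 * ∑ j ∈ Finset.Icc 1 j₁, 2 ^ j * (ENNReal.ofReal (12 ^ n) * (2⁻¹ ^ j₁ * volume Q.set)) := by
        gcongr 2 * ?_
        exact Finset.sum_le_sum hterm
    _ = 2 * ((∑ j ∈ Finset.Icc 1 j₁, 2 ^ j) * (ENNReal.ofReal (12 ^ n) * (2⁻¹ ^ j₁ * volume Q.set))) := by
        rw [Finset.sum_mul]
    _ ≤ 2 * ((2 * 2 ^ j₁) * (ENNReal.ofReal (12 ^ n) * (2⁻¹ ^ j₁ * volume Q.set))) := by
        gcongr
        exact geom_sum_le j₁
    _ = 4 * ENNReal.ofReal (12 ^ n) * volume Q.set * (2 ^ j₁ * 2⁻¹ ^ j₁) := by ring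
    _ = _ := by rw [two_pow_half, mul_one]

/-- a.e. on `E` the test function equals `k` -/
lemma tf_eq_on (E : Set (Fin n → ℝ)) (k : ℕ) :
    ∀ᵐ x ∂(volume.restrict E), tf E k x = k := by
  have h := IsUnifLocDoublingMeasure.ae_tendsto_measure_inter_div (volume : Measure (Fin n → ℝ)) E 1
  filter_upwards [h] with x hx
  have h1 : Tendsto (fun m : ℕ => 1 / ((m : ℝ) + 1)) atTop (𝓝[>] 0) := by
    refine tendsto_nhdsWithin_iff.2 ⟨tendsto_one_div_add_atTop_nhds_zero_nat, ?_⟩
    exact Eventually.of_forall fun m => by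
      show 0 < 1 / ((m : ℝ) + 1)
      positivity
  have h2 := hx (fun _ => x) (fun m : ℕ => 1 / ((m : ℝ) + 1)) h1 (Eventually.of_forall fun m =>
    mem_closedBall_self (by positivity))
  unfold tf
  have : ∀ j ∈ Finset.Icc 1 k, (Om E (2⁻¹ ^ j)).indicator (fun _ => (1 : ℝ)) x = 1 := by
    intro j hj
    rw [Finset.mem_Icc] at hj
    refine Set.indicator_of_mem ?_ _
    have hlt : (2⁻¹ : ℝ≥0∞) ^ j < 1 := pow_lt_one₀ (zero_le) (by simp) (by omega)
    obtain ⟨m, hm⟩ := (h2.eventually_const_lt hlt).exists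
    have hpos : (0 : ℝ) < 1 / ((m : ℝ) + 1) := by positivity
    refine ⟨1 / ((m : ℝ) + 1), hpos, ?_⟩
    rwa [ENNReal.lt_div_iff_mul_lt (Or.inl (vol_ball_pos x hpos).ne')
      (Or.inl (vol_ball_lt_top x _).ne)] at hm
  rw [Finset.sum_congr rfl this]
  simp

/-- the mean of the test function -/
lemma mean_tf (hn : 0 < n) (E : Set (Fin n → ℝ)) (k : ℕ) (Q : Cube n)
    (hE : volume E ≤ 2⁻¹ ^ k * volume Q.set) : mean (tf E k) Q ≤ 2 * 4 ^ n := by
  have hEfin : volume E < ∞ := hE.trans_lt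
    (ENNReal.mul_lt_top (half_pow_ne_top k).lt_top Q.vol_lt_top)
  have hmeas : ∀ j, MeasurableSet (Om E (2⁻¹ ^ j)) := fun j =>
    (isOpen_Om E (half_pow_ne_top j)).measurableSet
  have hlint : ∫⁻ x in Q.set, ENNReal.ofReal (tf E k x) ≤ ENNReal.ofReal (2 * 4 ^ n) * volume Q.set := by
    have hpt : ∀ x, ENNReal.ofReal (tf E k x) =
        ∑ j ∈ Finset.Icc 1 k, (Om E (2⁻¹ ^ j)).indicator (fun _ => (1 : ℝ≥0∞)) x := by
      intro x
      unfold tf
      rw [ENNReal.ofReal_sum_of_nonneg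
        (fun j _ => Set.indicator_nonneg (fun _ _ => zero_le_one) _)]
      refine Finset.sum_congr rfl fun j _ => ?_
      by_cases hm : x ∈ Om E (2⁻¹ ^ j)
      · rw [Set.indicator_of_mem hm, Set.indicator_of_mem hm, ENNReal.ofReal_one]
      · rw [Set.indicator_of_notMem hm, Set.indicator_of_notMem hm, ENNReal.ofReal_zero]
    simp only [hpt]
    rw [lintegral_finsetSum _ fun j _ => measurable_const.indicator (hmeas j)]
    have hterm : ∀ j ∈ Finset.Icc 1 k,
        ∫⁻ x in Q.set, (Om E (2⁻¹ ^ j)).indicator (fun _ => (1 : ℝ≥0∞)) x ≤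
          2 ^ j * (ENNReal.ofReal (4 ^ n) * (2⁻¹ ^ k * volume Q.set)) := by
      intro j _
      rw [lintegral_indicator (hmeas j), lintegral_one, Measure.restrict_apply_univ]
      refine (Measure.restrict_apply_le _ _).trans ?_
      calc volume (Om E (2⁻¹ ^ j)) = 2 ^ j * (2⁻¹ ^ j * volume (Om E (2⁻¹ ^ j))) := by
            rw [← mul_assoc, two_pow_half, one_mul]
        _ ≤ 2 ^ j * (ENNReal.ofReal (4 ^ n) * volume E) :=
            mul_le_mul_right (weak_type hn E hEfin (half_pow_ne_zero j) (half_pow_ne_top j)) _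
        _ ≤ _ := by gcongr
    calc _ ≤ ∑ j ∈ Finset.Icc 1 k, 2 ^ j * (ENNReal.ofReal (4 ^ n) * (2⁻¹ ^ k * volume Q.set)) :=
          Finset.sum_le_sum hterm
      _ = (∑ j ∈ Finset.Icc 1 k, 2 ^ j) * (ENNReal.ofReal (4 ^ n) * (2⁻¹ ^ k * volume Q.set)) := by
          rw [Finset.sum_mul]
      _ ≤ (2 * 2 ^ k) * (ENNReal.ofReal (4 ^ n) * (2⁻¹ ^ k * volume Q.set)) := by
          gcongr
          exact geom_sum_le k
      _ = 2 * ENNReal.ofReal (4 ^ n) * volume Q.set * (2 ^ k * 2⁻¹ ^ k) := by ring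
      _ = ENNReal.ofReal (2 * 4 ^ n) * volume Q.set := by
          rw [two_pow_half, mul_one, ENNReal.ofReal_mul (by norm_num)]
          norm_num
  have hvol : 0 < volume.real Q.set := ENNReal.toReal_pos Q.vol_pos.ne' Q.vol_lt_top.ne
  rw [mean, setAverage_eq, smul_eq_mul, inv_mul_le_iff₀ hvol,
    integral_eq_lintegral_of_nonneg_ae (Eventually.of_forall fun x => tf_nonneg E k x)
    (measurable_tf E k).aestronglyMeasurable]
  refine ENNReal.toReal_le_of_le_ofReal (by positivity) (hlint.trans ?_)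
  have h : ENNReal.ofReal (volume.real Q.set * (2 * 4 ^ n)) =
      volume Q.set * ENNReal.ofReal (2 * 4 ^ n) := by
    rw [Measure.real, ENNReal.ofReal_mul ENNReal.toReal_nonneg,
      ENNReal.ofReal_toReal Q.vol_lt_top.ne]
  rw [h, mul_comm]

/-- small sets have small norm -/
lemma small_sets (hn : 0 < n) (X : Family n) {C : ℝ≥0}
    (hC : ∀ f : (Fin n → ℝ) → ℝ, LocallyIntegrable f → bmo f < ∞ → bmoX X f ≤ C * bmo f)
    (Q : Cube n) (k : ℕ) (E : Set (Fin n → ℝ)) (hEm : MeasurableSet E)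
    (hE : volume E ≤ 2⁻¹ ^ k * volume Q.set) :
    ENNReal.ofReal ((k : ℝ) - 2 * 4 ^ n) * (X Q).N (E.indicator fun _ => 1) ≤
      C * (4 * ENNReal.ofReal (12 ^ n)) := by
  have hbmo := bmo_tf hn E k
  have hbfin : bmo (tf E k) < ∞ := hbmo.trans_lt
    (ENNReal.mul_lt_top (by norm_num) ENNReal.ofReal_lt_top)
  have h1 := hC (tf E k) (locallyIntegrable_tf E k) hbfin
  have h2 : (X Q).N (fun x => tf E k x - mean (tf E k) Q) ≤ C * (4 * ENNReal.ofReal (12 ^ n)) :=
    (le_iSup (fun Q => (X Q).N (fun x => tf E k x - mean (tf E k) Q)) Q).trans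
      (h1.trans (by gcongr))
  rcases le_or_gt ((k : ℝ) - 2 * 4 ^ n) 0 with hneg | hpos
  · rw [ENNReal.ofReal_of_nonpos hneg, zero_mul]; exact zero_le
  have hind : AEMeasurable (E.indicator fun _ => (1 : ℝ)) Q.vol :=
    (measurable_const.indicator hEm).aemeasurable
  have h3 := (X Q).smul ((k : ℝ) - 2 * 4 ^ n) (E.indicator fun _ => 1) hind
  rw [abs_of_pos hpos] at h3
  rw [← h3]
  refine ((X Q).mono _ _ (hind.const_mul _) ?_ ?_).trans h2
  · exact ((measurable_tf E k).sub_const _).aemeasurable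
  · have h4 := (ae_restrict_iff' hEm).1 (tf_eq_on E k)
    refine ae_restrict_of_ae ?_
    filter_upwards [h4] with x hx
    by_cases hxE : x ∈ E
    · rw [Set.indicator_of_mem hxE, mul_one, hx hxE, abs_of_pos hpos]
      refine le_trans ?_ (le_abs_self _)
      have := mean_tf hn E k Q hE
      linarith
    · rw [Set.indicator_of_notMem hxE, mul_zero, abs_zero]
      exact abs_nonneg _

end Pool.Agent.V11101.BmoX
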