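import Mathlib
import Pool.Agent.V11101.BmoX

/-!
# Constructing quasi-Banach function spaces equivalent to `L¹(Q)`
-/

open MeasureTheory Set Metric Filter Topology
open scoped ENNReal NNReal

namespace Pool.Agent.V11101.BmoX

variable {n : ℕ}

/-- completeness of norms equivalent to the `L¹` norm -/
lemma complete_of_equiv (Q : Cube n) (N : ((Fin n → ℝ) → ℝ) → ℝ≥0∞) {c C : ℝ≥0∞} (hc : c ≠ 0)
    (hC : C ≠ ∞)
    (h1 : ∀ f, AEMeasurable f Q.vol → c * ∫⁻ x in Q.set, ‖f x‖ₑ ≤ N f)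
    (h2 : ∀ f, AEMeasurable f Q.vol → N f ≤ C * ∫⁻ x in Q.set, ‖f x‖ₑ)
    (f : ℕ → (Fin n → ℝ) → ℝ) (hf : ∀ k, AEMeasurable (f k) Q.vol ∧ N (f k) < ∞)
    (hcau : ∀ ε : ℝ≥0∞, 0 < ε → ∃ k₀, ∀ k, k₀ ≤ k → ∀ l, k₀ ≤ l →
      N (fun x => f k x - f l x) ≤ ε) :
    ∃ g, AEMeasurable g Q.vol ∧ N g < ∞ ∧ Tendsto (fun k => N (fun x => f k x - g x)) atTop (𝓝 0) := by
  have hct : c ≠ ∞ := by
    rintro rfl
    have h3 := h1 (fun _ => 1) aemeasurable_const
    have h4 := h2 (fun _ => 1) aemeasurable_const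
    simp only [enorm_one, lintegral_one, Measure.restrict_apply_univ] at h3 h4
    rw [ENNReal.top_mul Q.vol_pos.ne'] at h3
    have := h3.trans h4
    exact absurd (this.trans_lt (ENNReal.mul_lt_top hC.lt_top Q.vol_lt_top)) (lt_irrefl _)
  have hle : ∀ g, AEMeasurable g Q.vol → ∫⁻ x in Q.set, ‖g x‖ₑ ≤ c⁻¹ * N g := by
    intro g hg
    calc ∫⁻ x in Q.set, ‖g x‖ₑ = c⁻¹ * (c * ∫⁻ x in Q.set, ‖g x‖ₑ) := by
          rw [← mul_assoc, ENNReal.inv_mul_cancel hc hct, one_mul]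
      _ ≤ c⁻¹ * N g := mul_le_mul_right (h1 g hg) _
  have hint : ∀ k, Integrable (f k) Q.vol := fun k =>
    ⟨(hf k).1.aestronglyMeasurable, (hle _ (hf k).1).trans_lt
      (ENNReal.mul_lt_top (ENNReal.inv_lt_top.2 (pos_iff_ne_zero.2 hc)) (hf k).2)⟩
  set F : ℕ → (Fin n → ℝ) →₁[Q.vol] ℝ := fun k => (hint k).toL1 (f k) with hF
  have hFc : CauchySeq F := by
    rw [EMetric.cauchySeq_iff]
    intro ε hε
    obtain ⟨k₀, hk₀⟩ := hcau (c * (ε / 2)) (by
      refine pos_iff_ne_zero.2 (mul_ne_zero hc ?_)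
      exact (ENNReal.div_pos hε.ne' (by norm_num)).ne')
    rcases eq_or_ne ε ∞ with rfl | hεt
    · refine ⟨0, fun k _ l _ => ?_⟩
      exact lt_of_le_of_ne le_top (edist_ne_top _ _)
    refine ⟨k₀, fun k hk l hl => ?_⟩
    have e : edist (F k) (F l) = ∫⁻ x in Q.set, ‖f k x - f l x‖ₑ := by
      simp only [hF]
      rw [Integrable.edist_toL1_toL1]
      simp only [edist_eq_enorm_sub]
    rw [e]
    refine (hle _ ((hf k).1.sub (hf l).1)).trans_lt ?_
    calc c⁻¹ * N (fun x => f k x - f l x) ≤ c⁻¹ * (c * (ε / 2)) := mul_le_mul_right (hk₀ k hk l hl) _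
      _ = ε / 2 := by rw [← mul_assoc, ENNReal.inv_mul_cancel hc hct, one_mul]
      _ < ε := ENNReal.half_lt_self hε.ne' hεt
  obtain ⟨G, hG⟩ := cauchySeq_tendsto_of_complete hFc
  have hGm : AEMeasurable (G : (Fin n → ℝ) → ℝ) Q.vol := (Lp.aestronglyMeasurable G).aemeasurable
  have hGi : Integrable (G : (Fin n → ℝ) → ℝ) Q.vol := L1.integrable_coeFn G
  refine ⟨G, hGm, ?_, ?_⟩
  · exact (h2 _ hGm).trans_lt (ENNReal.mul_lt_top hC.lt_top hGi.2)
  · have h3 : Tendsto (fun k => edist (F k) G) atTop (𝓝 0) := tendsto_iff_edist_tendsto_0.1 hG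
    have h4 : ∀ k, edist (F k) G = ∫⁻ x in Q.set, ‖f k x - G x‖ₑ := by
      intro k
      conv_lhs => rw [← Integrable.toL1_coeFn G hGi]
      simp only [hF]
      rw [Integrable.edist_toL1_toL1]
      simp only [edist_eq_enorm_sub]
    simp only [h4] at h3
    have h5 := ENNReal.Tendsto.const_mul h3 (Or.inr hC)
    rw [mul_zero] at h5
    exact tendsto_of_tendsto_of_tendsto_of_le_of_le tendsto_const_nhds h5 (fun _ => zero_le)
      fun k => h2 _ ((hf k).1.sub hGm)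

/-- weighted `L¹` spaces over a cube, with a weight between two positive constants -/
noncomputable def wL1 (Q : Cube n) (w : (Fin n → ℝ) → ℝ≥0∞) (hw : Measurable w) (c C : ℝ≥0∞)
    (hc : c ≠ 0) (hC : C ≠ ∞) (h1 : ∀ x, c ≤ w x) (h2 : ∀ x, w x ≤ C) : QBFS Q where
  N := fun f => ∫⁻ x in Q.set, w x * ‖f x‖ₑ
  mono := by
    intro f g _ _ hfg
    refine lintegral_mono_ae ?_
    filter_upwards [hfg] with x hx
    refine mul_le_mul_right ?_ _
    rw [← Real.norm_eq_abs, ← Real.norm_eq_abs] at hx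
    exact enorm_le_iff_norm_le.2 hx
  smul := by
    intro a f hf
    rw [← Real.enorm_eq_ofReal_abs, ← lintegral_const_mul' _ _ enorm_ne_top]
    refine lintegral_congr fun x => ?_
    rw [enorm_mul]
    ring
  quasi := by
    refine ⟨1, fun f g hf hg => ?_⟩
    have hm : AEMeasurable (fun x => w x * ‖f x‖ₑ) Q.vol := hw.aemeasurable.mul hf.enorm
    rw [ENNReal.coe_one, one_mul, ← lintegral_add_left' hm]
    refine lintegral_mono fun x => ?_
    rw [← mul_add]
    exact mul_le_mul_right (enorm_add_le _ _) _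
  eq_zero := by
    intro f hf h0
    have hm : AEMeasurable (fun x => w x * ‖f x‖ₑ) Q.vol := hw.aemeasurable.mul hf.enorm
    rw [lintegral_eq_zero_iff' hm] at h0
    filter_upwards [h0] with x hx
    have hx' : w x * ‖f x‖ₑ = 0 := hx
    rcases mul_eq_zero.1 hx' with h | h
    · exact absurd (le_antisymm (h ▸ h1 x) zero_le) hc
    · exact enorm_eq_zero.1 h
  unit := by
    refine ⟨fun _ => 1, aemeasurable_const, ?_, Eventually.of_forall fun _ => one_pos⟩
    calc ∫⁻ x in Q.set, w x * ‖(1 : ℝ)‖ₑ ≤ ∫⁻ x in Q.set, C := by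
          refine lintegral_mono fun x => ?_
          rw [enorm_one, mul_one]
          exact h2 x
      _ = C * volume Q.set := by rw [lintegral_const, Measure.restrict_apply_univ]
      _ < ∞ := ENNReal.mul_lt_top hC.lt_top Q.vol_lt_top
  fatou := by
    intro f g hf hg hmono hlim
    have hmono' : ∀ᵐ x ∂Q.vol, ∀ k, 0 ≤ f k x ∧ f k x ≤ f (k + 1) x := ae_all_iff.2 hmono
    have hm : ∀ᵐ x ∂Q.vol, Monotone fun k => w x * ‖f k x‖ₑ := by
      filter_upwards [hmono'] with x hx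
      refine monotone_nat_of_le_succ fun k => mul_le_mul_right ?_ _
      rw [Real.enorm_of_nonneg (hx k).1, Real.enorm_of_nonneg (hx (k + 1)).1]
      exact ENNReal.ofReal_le_ofReal (hx k).2
    have hm' : ∀ k, AEMeasurable (fun x => w x * ‖f k x‖ₑ) Q.vol := fun k =>
      hw.aemeasurable.mul (hf k).enorm
    have ht := lintegral_tendsto_of_tendsto_of_monotone (F := fun x => w x * ‖g x‖ₑ) hm' hm (by
        filter_upwards [hlim] with x hx
        refine ENNReal.Tendsto.const_mul ?_ (Or.inr ?_)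
        · exact hx.enorm
        · exact ((h2 x).trans_lt hC.lt_top).ne)
    refine tendsto_nhds_unique ht ?_
    refine tendsto_atTop_iSup ?_
    refine monotone_nat_of_le_succ fun k => ?_
    refine lintegral_mono_ae ?_
    filter_upwards [hm] with x hx
    exact hx (Nat.le_succ k)
  complete := by
    refine complete_of_equiv Q (fun f => ∫⁻ x in Q.set, w x * ‖f x‖ₑ) hc hC (fun f hf => ?_)
      (fun f hf => ?_)
    · rw [← lintegral_const_mul'' _ hf.enorm]
      exact lintegral_mono fun x => mul_le_mul_left (h1 x) _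
    · rw [← lintegral_const_mul'' _ hf.enorm]
      exact lintegral_mono fun x => mul_le_mul_left (h2 x) _

lemma wL1_N (Q : Cube n) (w : (Fin n → ℝ) → ℝ≥0∞) (hw : Measurable w) (c C : ℝ≥0∞)
    (hc : c ≠ 0) (hC : C ≠ ∞) (h1 : ∀ x, c ≤ w x) (h2 : ∀ x, w x ≤ C) (f : (Fin n → ℝ) → ℝ) :
    (wL1 Q w hw c C hc hC h1 h2).N f = ∫⁻ x in Q.set, w x * ‖f x‖ₑ := rfl

end Pool.Agent.V11101.BmoX
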