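import Mathlib
import Pool.Agent.V11101.BmoX

/-!
# The main argument: a function whose values are, on a fixed proportion of each cube, close to the
mean value over the cube, is in `BMO`
-/

open MeasureTheory Set Metric Filter Topology
open scoped ENNReal NNReal

namespace Pool.Agent.V11101.BmoX

variable {n : ℕ}

lemma mean_eq (f : (Fin n → ℝ) → ℝ) (Q : Cube n) :
    mean f Q = (volume.real (closedBall Q.c Q.r))⁻¹ * ∫ x in closedBall Q.c Q.r, f x := by
  rw [mean, Q.set_eq, setAverage_eq, smul_eq_mul]

/-- continuity of averages along paths of cubes -/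
lemma continuousAt_integral (f : (Fin n → ℝ) → ℝ) (hf : LocallyIntegrable f)
    (x : ℝ → Fin n → ℝ) (r : ℝ → ℝ) (hx : Continuous x) (hr : Continuous r) (q : Fin n → ℝ) (ρ : ℝ)
    (t₀ : ℝ) (hr0 : 0 < r t₀) (hsub : ∀ᶠ t in 𝓝 t₀, closedBall (x t) (r t) ⊆ closedBall q ρ) :
    ContinuousAt (fun t => ∫ y in closedBall (x t) (r t), f y) t₀ := by
  have h1 : (fun t => ∫ y in closedBall (x t) (r t), f y) =
      fun t => ∫ y, (closedBall (x t) (r t)).indicator f y := by
    ext t; rw [integral_indicator isClosed_closedBall.measurableSet]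
  rw [h1]
  have hint : IntegrableOn f (closedBall q ρ) := hf.integrableOn_isCompact (isCompact_closedBall _ _)
  refine continuousAt_of_dominated (bound := fun y => (closedBall q ρ).indicator (fun y => ‖f y‖) y)
    ?_ ?_ ?_ ?_
  · refine Eventually.of_forall fun t => ?_
    exact hf.aestronglyMeasurable.indicator isClosed_closedBall.measurableSet
  · filter_upwards [hsub] with t ht
    refine Eventually.of_forall fun y => ?_
    by_cases hy : y ∈ closedBall (x t) (r t)
    · rw [Set.indicator_of_mem hy, Set.indicator_of_mem (ht hy)]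
    · rw [Set.indicator_of_notMem hy, norm_zero]
      exact Set.indicator_nonneg (fun _ _ => norm_nonneg _) _
  · rw [integrable_indicator_iff isClosed_closedBall.measurableSet]
    exact hint.norm
  · have hsph : ∀ᵐ y, y ∉ sphere (x t₀) (r t₀) :=
      measure_eq_zero_iff_ae_notMem.1 (Measure.addHaar_sphere_of_ne_zero _ _ hr0.ne')
    filter_upwards [hsph] with y hy
    rcases lt_trichotomy (dist y (x t₀)) (r t₀) with h | h | h
    · have hev : ∀ᶠ t in 𝓝 t₀, dist y (x t) < r t := by
        have hc : Continuous fun t => r t - dist y (x t) := by fun_prop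
        have : 0 < r t₀ - dist y (x t₀) := by linarith
        filter_upwards [hc.continuousAt.eventually_const_lt this] with t ht
        linarith
      have : (fun t => (closedBall (x t) (r t)).indicator f y) =ᶠ[𝓝 t₀] fun _ => f y := by
        filter_upwards [hev] with t ht
        exact Set.indicator_of_mem (mem_closedBall.2 ht.le) _
      exact (continuousAt_congr this).2 continuousAt_const
    · exact absurd h hy
    · have hev : ∀ᶠ t in 𝓝 t₀, r t < dist y (x t) := by
        have hc : Continuous fun t => dist y (x t) - r t := by fun_prop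
        have : 0 < dist y (x t₀) - r t₀ := by linarith
        filter_upwards [hc.continuousAt.eventually_const_lt this] with t ht
        linarith
      have : (fun t => (closedBall (x t) (r t)).indicator f y) =ᶠ[𝓝 t₀] fun _ => 0 := by
        filter_upwards [hev] with t ht
        exact Set.indicator_of_notMem (by rw [mem_closedBall]; linarith) _
      exact (continuousAt_congr this).2 continuousAt_const

/-- from a cube inside `Q` with mean `> v` to a larger cube inside `Q` with mean `v` -/
lemma ivt_cube (f : (Fin n → ℝ) → ℝ) (hf : LocallyIntegrable f) (Q R : Cube n)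
    (hRQ : dist R.c Q.c + R.r ≤ Q.r) {v : ℝ} (hv : mean f Q < v) (hR : v < mean f R) :
    ∃ S : Cube n, dist S.c Q.c + S.r ≤ Q.r ∧ R.set ⊆ S.set ∧ mean f S = v := by
  set x : ℝ → Fin n → ℝ := fun t => R.c + t • (Q.c - R.c) with hx
  set r : ℝ → ℝ := fun t => R.r + t * (Q.r - R.r) with hr
  have hxc : Continuous x := by fun_prop
  have hrc : Continuous r := by fun_prop
  have hRr := R.pos
  have hQr := Q.pos
  have hd0 : 0 ≤ dist R.c Q.c := dist_nonneg
  have hrR : R.r ≤ Q.r := by linarith
  have hrpos : ∀ t, 0 ≤ t → 0 < r t := fun t ht => by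
    have : 0 ≤ t * (Q.r - R.r) := mul_nonneg ht (by linarith)
    simp only [hr]; linarith
  have hdx : ∀ t, 0 ≤ t → dist (x t) R.c = t * dist R.c Q.c := by
    intro t ht
    simp only [hx]
    rw [dist_eq_norm, add_sub_cancel_left, norm_smul, Real.norm_of_nonneg ht, dist_comm,
      dist_eq_norm]
  have hdx' : ∀ t, t ≤ 1 → dist (x t) Q.c = (1 - t) * dist R.c Q.c := by
    intro t ht
    simp only [hx]
    have : R.c + t • (Q.c - R.c) - Q.c = (1 - t) • (R.c - Q.c) := by module
    rw [dist_eq_norm, this, norm_smul, Real.norm_of_nonneg (by linarith), dist_eq_norm]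
  set F : ℝ → ℝ := fun t => (volume.real (closedBall (x t) (r t)))⁻¹ *
    ∫ y in closedBall (x t) (r t), f y with hF
  have hcont : ContinuousOn F (Icc 0 1) := by
    intro t ht
    refine ContinuousAt.continuousWithinAt ?_
    have hrt := hrpos t ht.1
    have hvol : ContinuousAt (fun t => volume.real (closedBall (x t) (r t))) t := by
      have hev : (fun t => volume.real (closedBall (x t) (r t))) =ᶠ[𝓝 t]
          fun t => (2 * r t) ^ n := by
        filter_upwards [hrc.continuousAt.eventually_const_lt hrt] with u hu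
        rw [Measure.real, vol_ball _ hu.le, ENNReal.toReal_ofReal (by positivity)]
      refine (continuousAt_congr hev).2 ?_
      have : Continuous fun t => (2 * r t) ^ n := by fun_prop
      exact this.continuousAt
    refine ContinuousAt.mul (hvol.inv₀ ?_) ?_
    · exact (ENNReal.toReal_pos (vol_ball_pos _ hrt).ne' (vol_ball_lt_top _ _).ne).ne'
    · refine continuousAt_integral f hf x r hxc hrc Q.c (2 * Q.r) t hrt ?_
      -- near `t` the balls are inside `2Q`
      have hc : Continuous fun t => 2 * Q.r - (r t + dist (x t) Q.c) := by fun_prop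
      have h0 : 0 < 2 * Q.r - (r t + dist (x t) Q.c) := by
        rw [hdx' t ht.2]
        simp only [hr]
        nlinarith [ht.1, ht.2]
      filter_upwards [hc.continuousAt.eventually_const_lt h0] with u hu
      exact closedBall_subset_closedBall' (by linarith)
  have hF0 : F 0 = mean f R := by
    rw [mean_eq]
    simp only [hF, hx, hr]
    norm_num
  have hF1 : F 1 = mean f Q := by
    rw [mean_eq]
    simp only [hF, hx, hr]
    norm_num
  obtain ⟨t, ht, htv⟩ := intermediate_value_Icc' (zero_le_one' ℝ) hcont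
    (show v ∈ Icc (F 1) (F 0) by rw [hF0, hF1]; exact ⟨hv.le, hR.le⟩)
  refine ⟨⟨x t, r t, hrpos t ht.1⟩, ?_, ?_, ?_⟩
  · show dist (x t) Q.c + r t ≤ Q.r
    rw [hdx' t ht.2]
    simp only [hr]
    nlinarith [ht.1, ht.2]
  · rw [Cube.set_eq, Cube.set_eq]
    refine closedBall_subset_closedBall' ?_
    show R.r + dist R.c (x t) ≤ r t
    rw [dist_comm, hdx t ht.1]
    simp only [hr]
    nlinarith [ht.1, ht.2]
  · rw [mean_eq]
    exact htv

/-- the covering estimate -/
lemma cover_est (f : (Fin n → ℝ) → ℝ) (hf : LocallyIntegrable f) {l : ℝ} {γ : ℝ≥0∞}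
    (hstar : ∀ Q : Cube n, γ * volume Q.set ≤ volume (Q.set ∩ {x | |f x - mean f Q| ≤ l}))
    (Q : Cube n) {v : ℝ} (hv : mean f Q < v) :
    γ * volume (Q.set ∩ {x | v < f x}) ≤
      ENNReal.ofReal (4 ^ n) * volume (Q.set ∩ {x | |f x - v| ≤ l}) := by
  classical
  set T : Set (Cube n) := {S | dist S.c Q.c + S.r ≤ Q.r ∧ mean f S = v} with hT
  have hTr : ∀ S ∈ T, S.r ≤ Q.r := fun S hS => by
    have : 0 ≤ dist S.c Q.c := dist_nonneg
    have := hS.1
    linarith
  obtain ⟨u, hu, hdisj, hcov⟩ := Vitali.exists_disjoint_subfamily_covering_enlargement_closedBall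
    T (fun S => S.c) (fun S => S.r) Q.r hTr 4 (by norm_num)
  have hucount : u.Countable := by
    refine hdisj.countable_of_nonempty_interior fun S hS => ?_
    rw [interior_closedBall S.c S.pos.ne']
    exact ⟨S.c, mem_ball_self S.pos⟩
  -- a.e. point of `{f > v} ∩ Q` is covered
  have hcover : ∀ᵐ x, x ∈ Q.set ∩ {x | v < f x} → x ∈ ⋃ S ∈ u, closedBall S.c (4 * S.r) := by
    have h := IsUnifLocDoublingMeasure.ae_tendsto_average (μ := (volume : Measure (Fin n → ℝ))) hf 1
    have hsph : ∀ᵐ y, y ∉ sphere Q.c Q.r :=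
      measure_eq_zero_iff_ae_notMem.1 (Measure.addHaar_sphere_of_ne_zero _ _ Q.pos.ne')
    filter_upwards [h, hsph] with x hx hxs hxQ
    have hxQ1 : dist x Q.c ≤ Q.r := by
      have := hxQ.1
      rwa [Q.set_eq] at this
    have hxQ2 : dist x Q.c < Q.r := lt_of_le_of_ne hxQ1 hxs
    have h1 : Tendsto (fun m : ℕ => 1 / ((m : ℝ) + 1)) atTop (𝓝 0) :=
      tendsto_one_div_add_atTop_nhds_zero_nat
    have h1' : Tendsto (fun m : ℕ => 1 / ((m : ℝ) + 1)) atTop (𝓝[>] 0) := by
      refine tendsto_nhdsWithin_iff.2 ⟨h1, ?_⟩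
      exact Eventually.of_forall fun m => by
        show 0 < 1 / ((m : ℝ) + 1)
        positivity
    have h2 := hx (fun _ => x) (fun m : ℕ => 1 / ((m : ℝ) + 1)) h1' (Eventually.of_forall fun m =>
      mem_closedBall_self (by positivity))
    obtain ⟨m, hm1, hm2⟩ := ((h2.eventually_const_lt hxQ.2).and
      (h1.eventually_lt_const (show 0 < Q.r - dist x Q.c by linarith))).exists
    have hpos : (0 : ℝ) < 1 / ((m : ℝ) + 1) := by positivity
    obtain ⟨S, hS1, hS2, hS3⟩ := ivt_cube f hf Q ⟨x, 1 / ((m : ℝ) + 1), hpos⟩ (by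
      show dist x Q.c + 1 / ((m : ℝ) + 1) ≤ Q.r
      linarith) hv (by
      rw [mean, Cube.set_eq]
      exact hm1)
    obtain ⟨b, hb, hSb⟩ := hcov S ⟨hS1, hS3⟩
    refine mem_biUnion hb (hSb ?_)
    rw [← Cube.set_eq]
    refine hS2 ?_
    rw [Cube.set_eq]
    exact mem_closedBall_self hpos.le
  calc γ * volume (Q.set ∩ {x | v < f x}) ≤ γ * ∑' S : u, volume (closedBall (S : Cube n).c (4 * (S : Cube n).r)) := by
        refine mul_le_mul_right ?_ _
        refine (measure_mono_ae hcover).trans ?_
        exact measure_biUnion_le volume hucount _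
    _ = ∑' S : u, ENNReal.ofReal (4 ^ n) * (γ * volume (S : Cube n).set) := by
        rw [← ENNReal.tsum_mul_left]
        refine tsum_congr fun S => ?_
        rw [vol_ball_mul (S : Cube n).c (S : Cube n).c (S : Cube n).pos.le (by norm_num),
          ← Cube.set_eq]
        ring
    _ ≤ ∑' S : u, ENNReal.ofReal (4 ^ n) * volume ((S : Cube n).set ∩ {x | |f x - v| ≤ l}) := by
        refine ENNReal.tsum_le_tsum fun S => mul_le_mul_right ?_ _
        have h1 := hstar (S : Cube n)
        rwa [(hu S.2).2] at h1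
    _ = ENNReal.ofReal (4 ^ n) * ∑' S : u, (volume.restrict {x | |f x - v| ≤ l}) (closedBall (S : Cube n).c (S : Cube n).r) := by
        rw [ENNReal.tsum_mul_left]
        congr 1
        refine tsum_congr fun S => ?_
        rw [Measure.restrict_apply isClosed_closedBall.measurableSet, Cube.set_eq]
    _ = ENNReal.ofReal (4 ^ n) * (volume.restrict {x | |f x - v| ≤ l}) (⋃ S ∈ u, closedBall S.c S.r) := by
        rw [measure_biUnion hucount hdisj fun S _ => isClosed_closedBall.measurableSet]
    _ ≤ ENNReal.ofReal (4 ^ n) * (volume.restrict {x | |f x - v| ≤ l}) Q.set := by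
        refine mul_le_mul_right (measure_mono ?_) _
        refine iUnion₂_subset fun S hS => ?_
        rw [Cube.set_eq]
        refine closedBall_subset_closedBall' ?_
        have := (hu hS).1
        linarith
    _ = _ := by
        rw [Measure.restrict_apply Q.measurableSet]

/-- one-sided estimate -/
lemma one_sided (f : (Fin n → ℝ) → ℝ) (hf : LocallyIntegrable f) {l : ℝ} (hl : 0 < l) {γ : ℝ≥0∞}
    (hγ0 : γ ≠ 0) (hγt : γ ≠ ∞)
    (hstar : ∀ Q : Cube n, γ * volume Q.set ≤ volume (Q.set ∩ {x | |f x - mean f Q| ≤ l}))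
    (Q : Cube n) :
    ∫⁻ x in Q.set, ENNReal.ofReal (f x - mean f Q) ≤
      ENNReal.ofReal (4 * l) * ((1 - ENNReal.ofReal (4 ^ n) / (γ + ENNReal.ofReal (4 ^ n)))⁻¹ *
        volume Q.set) := by
  classical
  set c : ℝ≥0∞ := ENNReal.ofReal (4 ^ n) with hc
  have hc0 : c ≠ 0 := by
    rw [hc]; positivity
  have hct : c ≠ ∞ := ENNReal.ofReal_ne_top
  set θ : ℝ≥0∞ := c / (γ + c) with hθ
  set a := mean f Q with ha
  set D : ℝ → ℝ≥0∞ := fun v => volume (Q.set ∩ {x | v < f x}) with hD
  have hnull : ∀ v, NullMeasurableSet (Q.set ∩ {x | v < f x}) := fun v =>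
    Q.measurableSet.nullMeasurableSet.inter
      (nullMeasurableSet_lt aemeasurable_const hf.aestronglyMeasurable.aemeasurable)
  have hDanti : ∀ v w, v ≤ w → D w ≤ D v := fun v w hvw =>
    measure_mono (inter_subset_inter_right _ fun x hx => lt_of_le_of_lt hvw hx)
  -- the geometric decay
  have hdecay : ∀ v, a < v → D (v + 2 * l) ≤ θ * D (v - 2 * l) := by
    intro v hv
    have h1 := cover_est f hf hstar Q hv
    have h2 : volume (Q.set ∩ {x | |f x - v| ≤ l}) + D (v + 2 * l) ≤ D (v - 2 * l) := by
      rw [hD]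
      simp only []
      rw [← measure_union₀ (hnull _)]
      · refine measure_mono ?_
        rintro x (⟨hxQ, hx⟩ | ⟨hxQ, hx⟩)
        · refine ⟨hxQ, ?_⟩
          have := abs_le.1 (show |f x - v| ≤ l from hx)
          show v - 2 * l < f x
          linarith
        · refine ⟨hxQ, ?_⟩
          have hx' : v + 2 * l < f x := hx
          show v - 2 * l < f x
          linarith
      · refine Disjoint.aedisjoint ?_
        rw [Set.disjoint_left]
        rintro x ⟨_, hx⟩ ⟨_, hx'⟩
        have := abs_le.1 (show |f x - v| ≤ l from hx)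
        have hx'' : v + 2 * l < f x := hx'
        linarith
    have h3 : D (v + 2 * l) ≤ D v := hDanti _ _ (by linarith)
    have h4 : γ * D (v + 2 * l) + c * D (v + 2 * l) ≤ c * D (v - 2 * l) := by
      calc γ * D (v + 2 * l) + c * D (v + 2 * l)
          ≤ c * volume (Q.set ∩ {x | |f x - v| ≤ l}) + c * D (v + 2 * l) := by
            refine add_le_add_left ?_ _
            exact (mul_le_mul_right h3 _).trans h1
        _ = c * (volume (Q.set ∩ {x | |f x - v| ≤ l}) + D (v + 2 * l)) := by rw [mul_add]
        _ ≤ _ := mul_le_mul_right h2 _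
    rw [← add_mul] at h4
    rw [hθ, ENNReal.div_eq_inv_mul, mul_assoc]
    rw [← ENNReal.div_eq_inv_mul]
    refine (ENNReal.le_div_iff_mul_le (Or.inl (by simp [hγ0])) (Or.inl
      (ENNReal.add_ne_top.2 ⟨hγt, hct⟩))).2 ?_
    rwa [mul_comm]
  have hgeom : ∀ j : ℕ, D (a + 4 * l * j) ≤ θ ^ j * volume Q.set := by
    intro j
    induction j with
    | zero =>
      rw [pow_zero, one_mul]
      exact measure_mono inter_subset_left
    | succ j ih =>
      have hlj : 0 ≤ l * j := by positivity
      have h1 := hdecay (a + 4 * l * j + 2 * l) (by linarith)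
      have e1 : a + 4 * l * j + 2 * l + 2 * l = a + 4 * l * ((j + 1 : ℕ) : ℝ) := by push_cast; ring
      have e2 : a + 4 * l * j + 2 * l - 2 * l = a + 4 * l * j := by ring
      rw [e1, e2] at h1
      calc _ ≤ θ * D (a + 4 * l * j) := h1
        _ ≤ θ * (θ ^ j * volume Q.set) := mul_le_mul_right ih _
        _ = _ := by ring
  -- the pointwise bound
  have hpt : ∀ x, ENNReal.ofReal (f x - a) ≤
      ∑' j : ℕ, ENNReal.ofReal (4 * l) * ({x | a + 4 * l * j < f x} : Set (Fin n → ℝ)).indicator 1 x := by
    intro x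
    set N : ℕ := ⌈(f x - a) / (4 * l)⌉₊ with hN
    have h1 : f x - a ≤ 4 * l * N := by
      have : (f x - a) / (4 * l) ≤ N := Nat.le_ceil _
      rw [div_le_iff₀ (by positivity)] at this
      linarith
    calc ENNReal.ofReal (f x - a) ≤ ENNReal.ofReal (4 * l * N) := ENNReal.ofReal_le_ofReal h1
      _ = ∑ j ∈ Finset.range N, ENNReal.ofReal (4 * l) := by
          rw [Finset.sum_const, Finset.card_range, nsmul_eq_mul,
            ENNReal.ofReal_mul (by positivity), ENNReal.ofReal_natCast, mul_comm]
      _ = ∑ j ∈ Finset.range N, ENNReal.ofReal (4 * l) *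
            ({x | a + 4 * l * j < f x} : Set (Fin n → ℝ)).indicator 1 x := by
          refine Finset.sum_congr rfl fun j hj => ?_
          have hjN := Finset.mem_range.1 hj
          have : (j : ℝ) < (f x - a) / (4 * l) := by
            by_contra hcon
            push Not at hcon
            have := Nat.ceil_le.2 hcon
            omega
          rw [lt_div_iff₀ (by positivity)] at this
          rw [Set.indicator_of_mem (show x ∈ {x | a + 4 * l * j < f x} by
            show a + 4 * l * j < f x
            linarith), Pi.one_apply, mul_one]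
      _ ≤ _ := ENNReal.sum_le_tsum _
  have hnull' : ∀ v, NullMeasurableSet {x | v < f x} (volume.restrict Q.set) := fun v =>
    nullMeasurableSet_lt aemeasurable_const hf.aestronglyMeasurable.aemeasurable.restrict
  calc ∫⁻ x in Q.set, ENNReal.ofReal (f x - a)
      ≤ ∫⁻ x in Q.set, ∑' j : ℕ, ENNReal.ofReal (4 * l) *
          ({x | a + 4 * l * j < f x} : Set (Fin n → ℝ)).indicator 1 x :=
        lintegral_mono hpt
    _ = ∑' j : ℕ, ∫⁻ x in Q.set, ENNReal.ofReal (4 * l) *
          ({x | a + 4 * l * j < f x} : Set (Fin n → ℝ)).indicator 1 x := by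
        refine lintegral_tsum fun j => ?_
        exact ((aemeasurable_const (b := (1 : ℝ≥0∞))).indicator₀ (hnull' _)).const_mul _
    _ = ∑' j : ℕ, ENNReal.ofReal (4 * l) * D (a + 4 * l * j) := by
        refine tsum_congr fun j => ?_
        rw [lintegral_const_mul' _ _ ENNReal.ofReal_ne_top]
        congr 1
        rw [lintegral_indicator_one₀ (hnull' _), Measure.restrict_apply₀' Q.measurableSet.nullMeasurableSet,
          inter_comm]
    _ ≤ ∑' j : ℕ, ENNReal.ofReal (4 * l) * (θ ^ j * volume Q.set) :=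
        ENNReal.tsum_le_tsum fun j => mul_le_mul_right (hgeom j) _
    _ = _ := by
        rw [ENNReal.tsum_mul_left, ENNReal.tsum_mul_right, ENNReal.tsum_geometric]

/-- **the main estimate** -/
lemma main_est (f : (Fin n → ℝ) → ℝ) (hf : LocallyIntegrable f) {l : ℝ} (hl : 0 < l) {γ : ℝ≥0∞}
    (hγ0 : γ ≠ 0) (hγt : γ ≠ ∞)
    (hstar : ∀ Q : Cube n, γ * volume Q.set ≤ volume (Q.set ∩ {x | |f x - mean f Q| ≤ l})) :
    bmo f ≤ 2 * (ENNReal.ofReal (4 * l) *
      (1 - ENNReal.ofReal (4 ^ n) / (γ + ENNReal.ofReal (4 ^ n)))⁻¹) := by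
  refine iSup_le fun Q => ?_
  rw [← ENNReal.div_eq_inv_mul]
  refine ENNReal.div_le_of_le_mul ?_
  have hmeanneg : ∀ Q : Cube n, mean (fun x => - f x) Q = - mean f Q := by
    intro Q
    rw [mean, mean, average_neg]
  have h1 := one_sided f hf hl hγ0 hγt hstar Q
  have h2 := one_sided (fun x => - f x) hf.neg hl hγ0 hγt (fun Q => by
    rw [hmeanneg]
    refine (hstar Q).trans (le_of_eq ?_)
    congr 1
    ext x
    simp only [mem_inter_iff, mem_ofPred_eq]
    rw [show - f x - - mean f Q = -(f x - mean f Q) by ring, abs_neg]) Q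
  rw [hmeanneg] at h2
  have hpt : ∀ x, ‖f x - mean f Q‖ₑ = ENNReal.ofReal (f x - mean f Q) +
      ENNReal.ofReal (- f x - - mean f Q) := by
    intro x
    rcases le_total 0 (f x - mean f Q) with h | h
    · rw [Real.enorm_of_nonneg h, ENNReal.ofReal_of_nonpos (by linarith : - f x - - mean f Q ≤ 0),
        add_zero]
    · rw [ENNReal.ofReal_of_nonpos h, zero_add, ← enorm_neg, Real.enorm_of_nonneg (by linarith)]
      congr 1; ring
  simp only [hpt]
  rw [lintegral_add_left' (by
    exact (hf.aestronglyMeasurable.aemeasurable.restrict.sub_const _).ennreal_ofReal)]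
  refine (add_le_add h1 h2).trans (le_of_eq ?_)
  ring

end Pool.Agent.V11101.BmoX
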