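import Mathlib
import Pool.Agent.V11101.BmoMain

/-!
# `BMO ↪ BMO_X` implies `BMO_X ↪ BMO`
-/

open MeasureTheory Set Metric Filter Topology
open scoped ENNReal NNReal

namespace Pool.Agent.V11101.BmoX

theorem reverse_embedding (n : ℕ) (hn : 0 < n) (X : Family n) (hX : Normalized X) (hU : UniformQuasi X)
    (h : BmoToBmoX X) : BmoXToBmo X := by
  classical
  obtain ⟨a, b, ha, hb, hab⟩ := hX
  obtain ⟨K, hK⟩ := hU
  obtain ⟨C, hC⟩ := h
  have hat : a ≠ ∞ := by
    have h1 := hab ⟨0, 1, one_pos⟩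
    exact ((h1.1.trans h1.2).trans_lt hb).ne
  have ha0 : a ≠ 0 := ha.ne'
  -- the constants
  set M : ℝ≥0∞ := C * (4 * ENNReal.ofReal (12 ^ n)) with hM
  have hMt : M ≠ ∞ := ENNReal.mul_ne_top ENNReal.coe_ne_top
    (ENNReal.mul_ne_top (by norm_num) ENNReal.ofReal_ne_top)
  set T : ℝ≥0∞ := 4 * K * M / a + 1 with hT
  have hTt : T ≠ ∞ := ENNReal.add_ne_top.2 ⟨ENNReal.div_ne_top
    (ENNReal.mul_ne_top (ENNReal.mul_ne_top (by norm_num) ENNReal.coe_ne_top) hMt) ha0, by norm_num⟩
  have hT0 : T ≠ 0 := by simp [hT]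
  obtain ⟨k, hk⟩ := exists_nat_ge (T.toReal + 2 * 4 ^ n)
  have hkT : T ≤ ENNReal.ofReal ((k : ℝ) - 2 * 4 ^ n) := by
    rw [← ENNReal.ofReal_toReal hTt]
    exact ENNReal.ofReal_le_ofReal (by linarith)
  have hsmall : ∀ (Q : Cube n) (E : Set (Fin n → ℝ)), MeasurableSet E →
      volume E ≤ 2⁻¹ ^ k * volume Q.set → K * (X Q).N (E.indicator fun _ => 1) ≤ a / 4 := by
    intro Q E hE hEv
    have h1 := small_sets hn X hC Q k E hE hEv
    have h2 : T * (X Q).N (E.indicator fun _ => 1) ≤ M := (mul_le_mul_left hkT _).trans h1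
    have h3 : 4 * K * M ≤ a * T := by
      rw [hT, mul_add, ENNReal.mul_div_cancel ha0 hat]
      exact le_self_add
    have h4 : T * (K * (X Q).N (E.indicator fun _ => 1)) ≤ T * (a / 4) := by
      calc T * (K * (X Q).N (E.indicator fun _ => 1))
          = K * (T * (X Q).N (E.indicator fun _ => 1)) := by ring
        _ ≤ K * M := mul_le_mul_right h2 _
        _ = (4 * K * M) / 4 := by
            rw [mul_assoc, ENNReal.mul_div_right_comm, ENNReal.div_self (by norm_num) (by norm_num),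
              one_mul]
        _ ≤ (a * T) / 4 := ENNReal.div_le_div_right h3 _
        _ = T * (a / 4) := by rw [mul_comm a T, mul_div_assoc]
    exact (ENNReal.mul_le_mul_iff_right hT0 hTt).1 h4
  set γ : ℝ≥0∞ := 2⁻¹ ^ k with hγ
  have hγ0 : γ ≠ 0 := half_pow_ne_zero k
  have hγt : γ ≠ ∞ := half_pow_ne_top k
  set c : ℝ≥0∞ := ENNReal.ofReal (4 ^ n) with hc
  have hct : c ≠ ∞ := ENNReal.ofReal_ne_top
  set A : ℝ≥0∞ := (1 - c / (γ + c))⁻¹ with hA
  have hAt : A ≠ ∞ := by
    rw [hA, ENNReal.inv_ne_top, ne_eq, tsub_eq_zero_iff_le, not_le]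
    refine (ENNReal.div_lt_iff (Or.inl (by simp [hγ0])) (Or.inl
      (ENNReal.add_ne_top.2 ⟨hγt, hct⟩))).2 ?_
    rw [one_mul, add_comm]
    exact ENNReal.lt_add_right hct hγ0
  set P : ℝ≥0∞ := 4 * K / a with hP
  have hPt : P ≠ ∞ := ENNReal.div_ne_top (ENNReal.mul_ne_top (by norm_num) ENNReal.coe_ne_top) ha0
  have hCt : 8 * A * P ≠ ∞ := ENNReal.mul_ne_top (ENNReal.mul_ne_top (by norm_num) hAt) hPt
  refine ⟨(8 * A * P).toNNReal, fun f hf hfX => ?_⟩
  rw [ENNReal.coe_toNNReal hCt]
  set B := bmoX X f with hB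
  have hBt : B ≠ ∞ := hfX.ne
  -- the key property
  have hkey : ∀ l : ℝ, 0 < l → P * B ≤ ENNReal.ofReal l →
      bmo f ≤ 2 * (ENNReal.ofReal (4 * l) * A) := by
    intro l hl hPl
    refine main_est f hf hl hγ0 hγt fun Q => ?_
    by_contra hcon
    rw [not_le] at hcon
    set E : Set (Fin n → ℝ) := toMeasurable volume (Q.set ∩ {x | |f x - mean f Q| ≤ l}) with hE
    have hEm : MeasurableSet E := measurableSet_toMeasurable _ _
    have hEv : volume E ≤ 2⁻¹ ^ k * volume Q.set := by
      rw [hE, measure_toMeasurable]; exact hcon.le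
    have h1 := hsmall Q E hEm hEv
    have hi1 : AEMeasurable (E.indicator fun _ => (1 : ℝ)) Q.vol :=
      (measurable_const.indicator hEm).aemeasurable
    have hi2 : AEMeasurable (Eᶜ.indicator fun _ => (1 : ℝ)) Q.vol :=
      (measurable_const.indicator hEm.compl).aemeasurable
    have hfm : AEMeasurable (fun x => f x - mean f Q) Q.vol :=
      hf.aestronglyMeasurable.aemeasurable.restrict.sub_const _
    have h2 : ENNReal.ofReal l * (X Q).N (Eᶜ.indicator fun _ => 1) ≤ B := by
      have h3 := (X Q).smul l (Eᶜ.indicator fun _ => 1) hi2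
      rw [abs_of_pos hl] at h3
      rw [← h3]
      refine ((X Q).mono _ _ (hi2.const_mul _) hfm ?_).trans
        (le_iSup (fun Q => (X Q).N (fun x => f x - mean f Q)) Q)
      rw [ae_restrict_iff' Q.measurableSet]
      refine Eventually.of_forall fun x hxQ => ?_
      by_cases hx : x ∈ E
      · rw [Set.indicator_of_notMem (by simpa using hx), mul_zero, abs_zero]
        exact abs_nonneg _
      · rw [Set.indicator_of_mem (by simpa using hx), mul_one, abs_of_pos hl]
        by_contra hlt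
        rw [not_le] at hlt
        exact hx (subset_toMeasurable _ _ ⟨hxQ, hlt.le⟩)
    have hl0 : ENNReal.ofReal l ≠ 0 := by simpa using hl
    have h3 : K * (X Q).N (Eᶜ.indicator fun _ => 1) ≤ a / 4 := by
      have h4 : ENNReal.ofReal l * (K * (X Q).N (Eᶜ.indicator fun _ => 1)) ≤
          ENNReal.ofReal l * (a / 4) := by
        calc ENNReal.ofReal l * (K * (X Q).N (Eᶜ.indicator fun _ => 1))
            = K * (ENNReal.ofReal l * (X Q).N (Eᶜ.indicator fun _ => 1)) := by ring
          _ ≤ K * B := mul_le_mul_right h2 _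
          _ = (4 * K / a * B) * (a / 4) := by
              rw [ENNReal.div_eq_inv_mul, ENNReal.div_eq_inv_mul]
              have e1 : (a⁻¹ * (4 * K)) * B * (4⁻¹ * a) = (a * a⁻¹) * (4 * 4⁻¹) * (K * B) := by ring
              rw [e1, ENNReal.mul_inv_cancel ha0 hat, ENNReal.mul_inv_cancel (by norm_num)
                (by norm_num), one_mul, one_mul]
          _ ≤ ENNReal.ofReal l * (a / 4) := mul_le_mul_left hPl _
      exact (ENNReal.mul_le_mul_iff_right hl0 ENNReal.ofReal_ne_top).1 h4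
    have h5 : a ≤ a / 4 + a / 4 := by
      calc a ≤ (X Q).N (fun _ => 1) := (hab Q).1
        _ ≤ (X Q).N (fun x => E.indicator (fun _ => (1 : ℝ)) x + Eᶜ.indicator (fun _ => (1 : ℝ)) x) := by
            refine (X Q).mono _ _ aemeasurable_const (hi1.add hi2) ?_
            refine Eventually.of_forall fun x => ?_
            by_cases hx : x ∈ E
            · simp [hx]
            · simp [hx]
        _ ≤ K * ((X Q).N (E.indicator fun _ => 1) + (X Q).N (Eᶜ.indicator fun _ => 1)) :=
            hK Q _ _ hi1 hi2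
        _ ≤ _ := by rw [mul_add]; exact add_le_add h1 h3
    -- contradiction
    have h6 : (a / 4 + a / 4).toReal = a.toReal / 2 := by
      have h4 : a / 4 ≠ ∞ := ENNReal.div_ne_top hat (by norm_num)
      rw [ENNReal.toReal_add h4 h4, ENNReal.toReal_div]
      norm_num
      ring
    have h7 : a.toReal ≤ (a / 4 + a / 4).toReal :=
      ENNReal.toReal_mono (ENNReal.add_ne_top.2 ⟨ENNReal.div_ne_top hat (by norm_num),
        ENNReal.div_ne_top hat (by norm_num)⟩) h5
    rw [h6] at h7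
    have h8 : 0 < a.toReal := ENNReal.toReal_pos ha0 hat
    linarith
  -- conclusion
  refine ENNReal.le_of_forall_pos_le_add fun ε hε _ => ?_
  set δ : ℝ := ε / (8 * A.toReal + 1) with hδ
  have hδ0 : 0 < δ := by
    have : (0 : ℝ) < ε := by exact_mod_cast hε
    have hA0 : 0 ≤ A.toReal := ENNReal.toReal_nonneg
    positivity
  have hPB : P * B ≠ ∞ := ENNReal.mul_ne_top hPt hBt
  have h1 := hkey ((P * B).toReal + δ) (by
    have : 0 ≤ (P * B).toReal := ENNReal.toReal_nonneg
    linarith) (by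
    rw [← ENNReal.ofReal_toReal hPB]
    refine ENNReal.ofReal_le_ofReal ?_
    rw [ENNReal.ofReal_toReal hPB]
    linarith)
  refine h1.trans ?_
  have h2 : ENNReal.ofReal (4 * ((P * B).toReal + δ)) = 4 * (P * B) + 4 * ENNReal.ofReal δ := by
    rw [ENNReal.ofReal_mul (by norm_num), ENNReal.ofReal_add ENNReal.toReal_nonneg hδ0.le,
      ENNReal.ofReal_toReal hPB, mul_add]
    norm_num
  rw [h2]
  have h3 : 8 * A * ENNReal.ofReal δ ≤ ε := by
    have hA' : A = ENNReal.ofReal A.toReal := (ENNReal.ofReal_toReal hAt).symm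
    have h8 : (8 : ℝ≥0∞) = ENNReal.ofReal 8 := by norm_num
    rw [hA', h8, ← ENNReal.ofReal_mul (by norm_num), ← ENNReal.ofReal_mul (by positivity)]
    refine ENNReal.ofReal_le_of_le_toReal ?_
    rw [ENNReal.coe_toReal, hδ, mul_div_assoc', div_le_iff₀ (by
      have hA0 : 0 ≤ A.toReal := ENNReal.toReal_nonneg
      positivity)]
    have hA0 : 0 ≤ A.toReal := ENNReal.toReal_nonneg
    have hε0 : (0 : ℝ) ≤ ε := ε.2
    nlinarith
  calc 2 * ((4 * (P * B) + 4 * ENNReal.ofReal δ) * A) = 8 * A * P * B + 8 * A * ENNReal.ofReal δ := by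
        ring
    _ ≤ _ := by gcongr

end Pool.Agent.V11101.BmoX
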