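import Mathlib

set_option autoImplicit false
set_option linter.unusedSectionVars false

open scoped ENNReal InnerProductSpace
open ContinuousLinearMap

universe u

namespace Pool.Agent.V11101.Dil

variable {H : Type u} [NormedAddCommGroup H] [InnerProductSpace ℂ H] [CompleteSpace H]

/-- The `n`-th singular number of `X` (as an approximation number): the distance of `X` to the
operators of rank at most `n`. -/
noncomputable def sNum (X : H →L[ℂ] H) (n : ℕ) : ℝ≥0∞ :=
  ⨅ (F : H →L[ℂ] H) (_ : FiniteDimensional ℂ (LinearMap.range (F : H →ₗ[ℂ] H)) ∧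
    Module.finrank ℂ (LinearMap.range (F : H →ₗ[ℂ] H)) ≤ n), ENNReal.ofReal ‖X - F‖

/-- The Schatten `p`-norm, with value `∞` outside the Schatten class. -/
noncomputable def schatten (p : ℝ) (X : H →L[ℂ] H) : ℝ≥0∞ :=
  (∑' n, sNum X n ^ p) ^ (1 / p)

/-- A unitary dilation of `T` on the Hilbert space `K`, in which `H` is embedded by `V`:
`T ^ n = P_H U ^ n |_H`. (The same for negative powers follows by taking adjoints.) -/
structure Dilation (T : H →L[ℂ] H) (K : Type u) [NormedAddCommGroup K] [InnerProductSpace ℂ K]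
    [CompleteSpace K] where
  /-- the embedding of `H` -/
  V : H →ₗᵢ[ℂ] K
  /-- the unitary -/
  U : K →L[ℂ] K
  hU : U ∈ unitary (K →L[ℂ] K)
  pow : ∀ n : ℕ, (adjoint V.toContinuousLinearMap) ∘L ((U ^ n) ∘L V.toContinuousLinearMap) = T ^ n

/-- The compression to `H` of `f(U)` (continuous functional calculus of the unitary `U`). -/
noncomputable def Dilation.value {T : H →L[ℂ] H} {K : Type u} [NormedAddCommGroup K]
    [InnerProductSpace ℂ K] [CompleteSpace K] (d : Dilation T K) (f : ℂ → ℂ) : H →L[ℂ] H :=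
  (adjoint d.V.toContinuousLinearMap) ∘L ((cfc f d.U) ∘L d.V.toContinuousLinearMap)

/-- `X = f(T)`: there is a unitary dilation of `T`, and `X` is the compression of `f(U)` for
every unitary dilation `U` of `T`. -/
def IsValue (f : ℂ → ℂ) (T X : H →L[ℂ] H) : Prop :=
  (∃ (K : Type u) (_ : NormedAddCommGroup K) (_ : InnerProductSpace ℂ K) (_ : CompleteSpace K),
    Nonempty (Dilation T K)) ∧
  ∀ (K : Type u) [NormedAddCommGroup K] [InnerProductSpace ℂ K] [CompleteSpace K]
    (d : Dilation T K), d.value f = X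

/-! ### Existence of a dilation -/

section exist

/-- the sequence underlying the Schaffer unitary -/
noncomputable def seqU (T D : H →L[ℂ] H) (x : ℤ → H) (n : ℤ) : H :=
  if n = 0 then T (x 0) + D (x (-1)) else if n = 1 then D (x 0) - T (x (-1)) else x (n - 1)

/-- the inverse sequence map -/
noncomputable def seqV (T D : H →L[ℂ] H) (y : ℤ → H) (n : ℤ) : H :=
  if n = 0 then T (y 0) + D (y 1) else if n = -1 then D (y 0) - T (y 1) else y (n + 1)

variable {T D : H →L[ℂ] H}

/-- the Julia identities -/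
structure Julia (T D : H →L[ℂ] H) : Prop where
  hT : ∀ x y, ⟪T x, y⟫_ℂ = ⟪x, T y⟫_ℂ
  hD : ∀ x y, ⟪D x, y⟫_ℂ = ⟪x, D y⟫_ℂ
  comm : ∀ x, T (D x) = D (T x)
  sq : ∀ x, T (T x) + D (D x) = x

theorem Julia.norm (h : Julia T D) (a b : H) :
    ‖T a + D b‖ ^ 2 + ‖D a - T b‖ ^ 2 = ‖a‖ ^ 2 + ‖b‖ ^ 2 := by
  have e1 : (⟪T a + D b, T a + D b⟫_ℂ + ⟪D a - T b, D a - T b⟫_ℂ) = ⟪a, a⟫_ℂ + ⟪b, b⟫_ℂ := by
    simp only [inner_add_left, inner_add_right, inner_sub_left, inner_sub_right]
    rw [h.hT a (T a), h.hT a (D b), h.hD b (T a), h.hD b (D b), h.hD a (D a), h.hD a (T b),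
      h.hT b (D a), h.hT b (T b)]
    have e2 : ⟪a, T (T a)⟫_ℂ + ⟪a, D (D a)⟫_ℂ = ⟪a, a⟫_ℂ := by rw [← inner_add_right, h.sq]
    have e3 : ⟪b, T (T b)⟫_ℂ + ⟪b, D (D b)⟫_ℂ = ⟪b, b⟫_ℂ := by rw [← inner_add_right, h.sq]
    rw [h.comm, h.comm, ← e2, ← e3]
    ring
  simp only [inner_self_eq_norm_sq_to_K] at e1
  exact_mod_cast e1

theorem seqV_seqU (h : Julia T D) (x : ℤ → H) : seqV T D (seqU T D x) = x := by
  funext n
  unfold seqV
  by_cases h0 : n = 0
  · subst h0
    simp only [if_true]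
    have a0 : seqU T D x 0 = T (x 0) + D (x (-1)) := by simp [seqU]
    have a1 : seqU T D x 1 = D (x 0) - T (x (-1)) := by simp [seqU]
    rw [a0, a1, map_add, map_sub, h.comm]
    calc _ = T (T (x 0)) + D (D (x 0)) := by abel
      _ = x 0 := h.sq _
  · rw [if_neg h0]
    by_cases h1 : n = -1
    · subst h1
      simp only [if_true]
      have a0 : seqU T D x 0 = T (x 0) + D (x (-1)) := by simp [seqU]
      have a1 : seqU T D x 1 = D (x 0) - T (x (-1)) := by simp [seqU]
      rw [a0, a1, map_add, map_sub, h.comm]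
      have := h.sq (x (-1))
      calc _ = T (T (x (-1))) + D (D (x (-1))) := by abel
        _ = _ := this
    · rw [if_neg h1]
      unfold seqU
      rw [if_neg (by omega), if_neg (by omega)]
      congr 1; ring

theorem seqU_seqV (h : Julia T D) (y : ℤ → H) : seqU T D (seqV T D y) = y := by
  funext n
  unfold seqU
  have a0 : seqV T D y 0 = T (y 0) + D (y 1) := by simp [seqV]
  have a1 : seqV T D y (-1) = D (y 0) - T (y 1) := by simp [seqV]
  by_cases h0 : n = 0
  · subst h0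
    simp only [if_true]
    rw [a0, a1, map_add, map_sub, h.comm]
    calc _ = T (T (y 0)) + D (D (y 0)) := by abel
      _ = _ := h.sq _
  · rw [if_neg h0]
    by_cases h1 : n = 1
    · subst h1
      simp only [if_true]
      rw [a0, a1, map_add, map_sub, h.comm]
      calc _ = T (T (y 1)) + D (D (y 1)) := by abel
        _ = _ := h.sq _
    · rw [if_neg h1]
      unfold seqV
      rw [if_neg (by omega), if_neg (by omega)]
      congr 1; ring

theorem hasSum_seqU (h : Julia T D) (x : ℤ → H) (s : ℝ) (hx : HasSum (fun n => ‖x n‖ ^ 2) s) :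
    HasSum (fun n => ‖seqU T D x n‖ ^ 2) s := by
  have h1 : HasSum (fun n : ℤ => ‖x (n - 1)‖ ^ 2) s :=
    (Equiv.subRight (1 : ℤ)).hasSum_iff.2 hx
  have h2 : HasSum (fun n : ℤ => ‖seqU T D x n‖ ^ 2 - ‖x (n - 1)‖ ^ 2)
      (∑ n ∈ ({0, 1} : Finset ℤ), (‖seqU T D x n‖ ^ 2 - ‖x (n - 1)‖ ^ 2)) := by
    apply hasSum_sum_of_ne_finset_zero
    intro n hn
    simp only [Finset.mem_insert, Finset.mem_singleton, not_or] at hn
    simp [seqU, hn.1, hn.2]
  have h3 : (∑ n ∈ ({0, 1} : Finset ℤ), (‖seqU T D x n‖ ^ 2 - ‖x (n - 1)‖ ^ 2)) = 0 := by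
    rw [Finset.sum_pair (by norm_num)]
    have a0 : seqU T D x 0 = T (x 0) + D (x (-1)) := by simp [seqU]
    have a1 : seqU T D x 1 = D (x 0) - T (x (-1)) := by simp [seqU]
    rw [a0, a1]
    have := h.norm (x 0) (x (-1))
    have e : ((0 : ℤ) - 1) = -1 := by norm_num
    rw [e, sub_self]
    linarith
  rw [h3] at h2
  have h4 := h1.add h2
  simpa using h4

theorem hasSum_seqV (h : Julia T D) (y : ℤ → H) (s : ℝ) (hy : HasSum (fun n => ‖y n‖ ^ 2) s) :
    HasSum (fun n => ‖seqV T D y n‖ ^ 2) s := by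
  have h1 : HasSum (fun n : ℤ => ‖y (n + 1)‖ ^ 2) s :=
    (Equiv.addRight (1 : ℤ)).hasSum_iff.2 hy
  have h2 : HasSum (fun n : ℤ => ‖seqV T D y n‖ ^ 2 - ‖y (n + 1)‖ ^ 2)
      (∑ n ∈ ({0, -1} : Finset ℤ), (‖seqV T D y n‖ ^ 2 - ‖y (n + 1)‖ ^ 2)) := by
    apply hasSum_sum_of_ne_finset_zero
    intro n hn
    simp only [Finset.mem_insert, Finset.mem_singleton, not_or] at hn
    simp [seqV, hn.1, hn.2]
  have h3 : (∑ n ∈ ({0, -1} : Finset ℤ), (‖seqV T D y n‖ ^ 2 - ‖y (n + 1)‖ ^ 2)) = 0 := by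
    rw [Finset.sum_pair (by norm_num)]
    have a0 : seqV T D y 0 = T (y 0) + D (y 1) := by simp [seqV]
    have a1 : seqV T D y (-1) = D (y 0) - T (y 1) := by simp [seqV]
    rw [a0, a1]
    have := h.norm (y 0) (y 1)
    have e : ((-1 : ℤ) + 1) = 0 := by norm_num
    rw [e, zero_add]
    linarith
  rw [h3] at h2
  have h4 := h1.add h2
  simpa using h4

theorem hasSum_lp (x : lp (fun _ : ℤ => H) 2) : HasSum (fun n => ‖x n‖ ^ 2) (‖x‖ ^ 2) := by
  have := lp.hasSum_norm (p := 2) (by norm_num) x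
  simpa using this

theorem memlp_of_hasSum (x : ℤ → H) (s : ℝ) (hx : HasSum (fun n => ‖x n‖ ^ 2) s) :
    Memℓp x 2 := by
  apply memℓp_gen
  simpa using hx.summable

theorem norm_lp_eq (x : lp (fun _ : ℤ => H) 2) (s : ℝ) (hs : 0 ≤ s)
    (hx : HasSum (fun n => ‖x n‖ ^ 2) (s ^ 2)) : ‖x‖ = s := by
  have := (hasSum_lp x).unique hx
  exact (sq_eq_sq₀ (norm_nonneg _) hs).1 this

/-- the Schaffer unitary as an isometric equivalence -/
noncomputable def equivU (h : Julia T D) :
    lp (fun _ : ℤ => H) 2 ≃ₗᵢ[ℂ] lp (fun _ : ℤ => H) 2 where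
  toFun x := ⟨seqU T D x, memlp_of_hasSum _ _ (hasSum_seqU h x _ (hasSum_lp x))⟩
  invFun y := ⟨seqV T D y, memlp_of_hasSum _ _ (hasSum_seqV h y _ (hasSum_lp y))⟩
  map_add' x y := by
    ext n
    simp only [lp.coeFn_add, Pi.add_apply, seqU]
    split_ifs
    · simp only [map_add]; abel
    · simp only [map_add]; abel
    · rfl
  map_smul' c x := by
    ext n
    simp only [lp.coeFn_smul, Pi.smul_apply, seqU, RingHom.id_apply]
    split_ifs
    · simp only [map_smul, smul_add]
    · simp only [map_smul, smul_sub]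
    · rfl
  left_inv x := by
    apply Subtype.ext
    exact seqV_seqU h x
  right_inv y := by
    apply Subtype.ext
    exact seqU_seqV h y
  norm_map' x := by
    apply norm_lp_eq _ _ (norm_nonneg _)
    exact hasSum_seqU h x _ (hasSum_lp x)

theorem equivU_apply (h : Julia T D) (x : lp (fun _ : ℤ => H) 2) (n : ℤ) :
    (equivU h x) n = seqU T D x n := rfl

/-- the embedding in coordinate zero -/
noncomputable def embV : H →ₗᵢ[ℂ] lp (fun _ : ℤ => H) 2 where
  toLinearMap := lp.lsingle (𝕜 := ℂ) (E := fun _ : ℤ => H) 2 (0 : ℤ)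
  norm_map' x := by
    have := lp.norm_single (E := fun _ : ℤ => H) (p := 2) (by norm_num) (0 : ℤ) x
    exact this

theorem embV_apply (x : H) :
    (embV x : lp (fun _ : ℤ => H) 2) = lp.single (E := fun _ : ℤ => H) 2 (0 : ℤ) x := rfl

/-- Existence of a unitary dilation. -/
noncomputable def dilation (h : Julia T D) : Dilation T (lp (fun _ : ℤ => H) 2) where
  V := embV
  U := ((Unitary.linearIsometryEquiv.symm (equivU h) : unitary _) : _ →L[ℂ] _)
  hU := (Unitary.linearIsometryEquiv.symm (equivU h)).2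
  pow := by
    intro n
    have hap : ∀ x, ((Unitary.linearIsometryEquiv.symm (equivU h) : unitary _) :
        lp (fun _ : ℤ => H) 2 →L[ℂ] lp (fun _ : ℤ => H) 2) x = equivU h x := by
      intro x
      rfl
    set U := ((Unitary.linearIsometryEquiv.symm (equivU h) : unitary _) :
        lp (fun _ : ℤ => H) 2 →L[ℂ] lp (fun _ : ℤ => H) 2) with hUdef
    have key : ∀ n : ℕ, ∀ x : H, ((U ^ n) (embV x)) 0 = (T ^ n) x ∧
        ∀ m : ℤ, m < 0 → ((U ^ n) (embV x)) m = 0 := by
      intro n x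
      induction n with
      | zero =>
        constructor
        · simp [embV_apply]
        · intro m hm
          have e0 : (U ^ 0) (embV x) = lp.single (E := fun _ : ℤ => H) 2 (0 : ℤ) x := by
            rw [pow_zero]; rfl
          rw [e0]
          exact lp.single_apply_ne (E := fun _ : ℤ => H) 2 (0 : ℤ) x hm.ne
      | succ n ih =>
        have e : (U ^ (n + 1)) (embV x) = equivU h ((U ^ n) (embV x)) := by
          rw [pow_succ', mul_apply_eq_comp, hap]
        constructor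
        · rw [e, equivU_apply]
          have a0 : seqU T D ((U ^ n) (embV x)) 0 =
            T (((U ^ n) (embV x)) 0) + D (((U ^ n) (embV x)) (-1)) := by simp [seqU]
          rw [a0, ih.1, ih.2 (-1) (by norm_num), map_zero, add_zero, pow_succ']
          rfl
        · intro m hm
          rw [e, equivU_apply]
          unfold seqU
          rw [if_neg hm.ne, if_neg (by omega)]
          exact ih.2 _ (by omega)
    ext x
    apply ext_inner_right ℂ
    intro y
    simp only [ContinuousLinearMap.comp_apply, adjoint_inner_left]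
    rw [← (key n x).1]
    change ⟪(U ^ n) (embV x), embV y⟫_ℂ = _
    rw [embV_apply y, lp.inner_single_right]

end exist

/-! ### The function -/

/-- the `k`-th term of the Fourier series -/
noncomputable def term (k : ℕ) (z : ℂ) : ℂ :=
  ((1 / (2 * ((k : ℝ) + 1) ^ 2) : ℝ) : ℂ) * (z ^ (k + 1) + star z ^ (k + 1))

/-- `f(e^{iθ}) = ∑_{k ≥ 1} cos(kθ)/k²` -/
noncomputable def fn (z : ℂ) : ℂ := ∑' k : ℕ, term k z

/-- coefficients -/
noncomputable def cf (k : ℕ) : ℝ := 1 / ((k : ℝ) + 1) ^ 2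

theorem cf_nonneg (k : ℕ) : 0 ≤ cf k := by unfold cf; positivity

theorem summable_cf : Summable cf := by
  have := (summable_nat_add_iff 1).2 (Real.summable_one_div_nat_pow.2 (by norm_num : 1 < 2))
  have e : cf = fun n : ℕ => 1 / (((n + 1 : ℕ) : ℝ)) ^ 2 := by
    funext n; unfold cf; push_cast; rfl
  rw [e]
  exact this

theorem norm_term_le (k : ℕ) (z : ℂ) (hz : ‖z‖ ≤ 1) : ‖term k z‖ ≤ cf k := by
  unfold term cf
  rw [norm_mul, Complex.norm_real, Real.norm_of_nonneg (by positivity)]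
  have h1 : ‖z ^ (k + 1) + star z ^ (k + 1)‖ ≤ 2 := by
    calc _ ≤ ‖z ^ (k + 1)‖ + ‖star z ^ (k + 1)‖ := norm_add_le _ _
      _ ≤ 1 + 1 := by
        apply add_le_add
        · rw [norm_pow]; exact pow_le_one₀ (norm_nonneg _) hz
        · rw [norm_pow, norm_star]; exact pow_le_one₀ (norm_nonneg _) hz
      _ = 2 := by norm_num
  calc _ ≤ 1 / (2 * ((k : ℝ) + 1) ^ 2) * 2 := by gcongr
    _ = _ := by field_simp

theorem continuous_term (k : ℕ) : Continuous (term k) := by
  unfold term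
  fun_prop

/-- the tail -/
noncomputable def tail (N : ℕ) : ℝ := ∑' k : ℕ, cf (k + N)

theorem tail_nonneg (N : ℕ) : 0 ≤ tail N := tsum_nonneg fun k => cf_nonneg _

theorem tendsto_tail : Filter.Tendsto tail Filter.atTop (nhds 0) :=
  tendsto_sum_nat_add cf

theorem norm_fn_sub_le (N : ℕ) (z : ℂ) (hz : ‖z‖ ≤ 1) :
    ‖fn z - ∑ k ∈ Finset.range N, term k z‖ ≤ tail N := by
  have hs : Summable (fun k => term k z) :=
    Summable.of_norm_bounded summable_cf (fun k => norm_term_le k z hz)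
  have h1 : fn z - ∑ k ∈ Finset.range N, term k z = ∑' k, term (k + N) z := by
    unfold fn
    rw [← hs.sum_add_tsum_nat_add N]
    ring
  rw [h1]
  exact tsum_of_norm_bounded ((summable_nat_add_iff N).2 summable_cf).hasSum
    (fun k => norm_term_le _ z hz)

theorem continuousOn_fn : ContinuousOn fn (Metric.closedBall 0 1) := by
  unfold fn
  apply continuousOn_tsum (fun k => (continuous_term k).continuousOn) summable_cf
  intro k z hz
  exact norm_term_le k z (by simpa using hz)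

section value

variable {K : Type u} [NormedAddCommGroup K] [InnerProductSpace ℂ K] [CompleteSpace K]

theorem isStarNormal_of_unitary {U : K →L[ℂ] K} (hU : U ∈ unitary (K →L[ℂ] K)) :
    IsStarNormal U := by
  have h := Unitary.mem_iff.1 hU
  exact ⟨by rw [Commute, SemiconjBy, h.1, h.2]⟩

theorem cfc_term {U : K →L[ℂ] K} (hU : U ∈ unitary (K →L[ℂ] K)) (k : ℕ) :
    cfc (term k) U = ((1 / (2 * ((k : ℝ) + 1) ^ 2) : ℝ) : ℂ) • (U ^ (k + 1) + star U ^ (k + 1)) := by
  have hn : IsStarNormal U := isStarNormal_of_unitary hU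
  unfold term
  have c1 : ContinuousOn (fun z : ℂ => z ^ (k + 1)) (spectrum ℂ U) := by fun_prop
  have c2 : ContinuousOn (fun z : ℂ => star z ^ (k + 1)) (spectrum ℂ U) := by fun_prop
  have c3 : ContinuousOn (fun z : ℂ => star z) (spectrum ℂ U) := by fun_prop
  rw [cfc_const_mul _ (fun z : ℂ => z ^ (k + 1) + star z ^ (k + 1)) U (c1.add c2),
    cfc_add U (fun z => z ^ (k + 1)) (fun z => star z ^ (k + 1)) c1 c2, cfc_pow_id U (k + 1) hn]
  congr 2
  rw [cfc_pow (fun z => star z) (k + 1) U c3 hn, cfc_star_id U hn]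

theorem cfc_partial {U : K →L[ℂ] K} (hU : U ∈ unitary (K →L[ℂ] K)) (N : ℕ) :
    cfc (fun z => ∑ k ∈ Finset.range N, term k z) U = ∑ k ∈ Finset.range N,
      ((1 / (2 * ((k : ℝ) + 1) ^ 2) : ℝ) : ℂ) • (U ^ (k + 1) + star U ^ (k + 1)) := by
  have hn : IsStarNormal U := isStarNormal_of_unitary hU
  have e : (fun z => ∑ k ∈ Finset.range N, term k z) = ∑ k ∈ Finset.range N, term k := by
    funext z; simp
  rw [e, cfc_sum _ _ _ (fun k _ => (continuous_term k).continuousOn)]
  exact Finset.sum_congr rfl fun k _ => cfc_term hU k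

theorem norm_cfc_fn_sub_le {U : K →L[ℂ] K} (hU : U ∈ unitary (K →L[ℂ] K)) (N : ℕ) :
    ‖cfc fn U - cfc (fun z => ∑ k ∈ Finset.range N, term k z) U‖ ≤ tail N := by
  have hn : IsStarNormal U := isStarNormal_of_unitary hU
  have hsp : spectrum ℂ U ⊆ Metric.closedBall 0 1 :=
    (spectrum.subset_circle_of_unitary hU).trans Metric.sphere_subset_closedBall
  rw [← cfc_sub fn _ U (continuousOn_fn.mono hsp)
    ((continuous_finsetSum _ fun k _ => continuous_term k).continuousOn)]
  apply norm_cfc_le (tail_nonneg N)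
  intro z hz
  apply norm_fn_sub_le N z
  simpa using hsp hz

theorem Dilation.norm_comp_le {T : H →L[ℂ] H} (d : Dilation T K) (A : K →L[ℂ] K) :
    ‖(adjoint d.V.toContinuousLinearMap) ∘L (A ∘L d.V.toContinuousLinearMap)‖ ≤ ‖A‖ := by
  have hV : ‖d.V.toContinuousLinearMap‖ ≤ 1 := d.V.norm_toContinuousLinearMap_le
  calc _ ≤ ‖adjoint d.V.toContinuousLinearMap‖ * ‖A ∘L d.V.toContinuousLinearMap‖ :=
        opNorm_comp_le _ _
    _ ≤ 1 * (‖A‖ * 1) := by
        gcongr
        · rw [LinearIsometryEquiv.norm_map]; exact hV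
        · exact (opNorm_comp_le _ _).trans (by gcongr)
    _ = ‖A‖ := by ring

theorem Dilation.value_tendsto {T : H →L[ℂ] H} (d : Dilation T K) :
    Filter.Tendsto (fun N : ℕ => ∑ k ∈ Finset.range N,
      ((1 / (2 * ((k : ℝ) + 1) ^ 2) : ℝ) : ℂ) • (T ^ (k + 1) + (adjoint T) ^ (k + 1)))
      Filter.atTop (nhds (d.value fn)) := by
  have hpow : ∀ n : ℕ, (adjoint d.V.toContinuousLinearMap) ∘L
      ((star d.U ^ n) ∘L d.V.toContinuousLinearMap) = (adjoint T) ^ n := by
    intro n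
    have := congrArg adjoint (d.pow n)
    rw [adjoint_comp, adjoint_comp, adjoint_adjoint] at this
    rw [← star_eq_adjoint (d.U ^ n), star_pow, ← star_eq_adjoint (T ^ n), star_pow,
      star_eq_adjoint T] at this
    rw [← this]
    rfl
  have hpart : ∀ N : ℕ, (adjoint d.V.toContinuousLinearMap) ∘L
      ((cfc (fun z => ∑ k ∈ Finset.range N, term k z) d.U) ∘L d.V.toContinuousLinearMap) =
      ∑ k ∈ Finset.range N,
      ((1 / (2 * ((k : ℝ) + 1) ^ 2) : ℝ) : ℂ) • (T ^ (k + 1) + (adjoint T) ^ (k + 1)) := by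
    intro N
    rw [cfc_partial d.hU]
    induction N with
    | zero => simp
    | succ N ih =>
      rw [Finset.sum_range_succ, Finset.sum_range_succ, ← ih, add_comp, comp_add]
      congr 1
      rw [smul_comp, comp_smul, add_comp, comp_add, d.pow, hpow]
  rw [tendsto_iff_norm_sub_tendsto_zero]
  apply squeeze_zero (fun _ => norm_nonneg _) _ tendsto_tail
  intro N
  rw [← hpart, norm_sub_rev]
  have e : d.value fn - (adjoint d.V.toContinuousLinearMap) ∘L
      ((cfc (fun z => ∑ k ∈ Finset.range N, term k z) d.U) ∘L d.V.toContinuousLinearMap) =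
      (adjoint d.V.toContinuousLinearMap) ∘L
      ((cfc fn d.U - cfc (fun z => ∑ k ∈ Finset.range N, term k z) d.U) ∘L
        d.V.toContinuousLinearMap) := by
    unfold Dilation.value
    rw [sub_comp, comp_sub]
  rw [e]
  exact (d.norm_comp_le _).trans (norm_cfc_fn_sub_le d.hU N)

end value

/-- `∑ 1/k²` -/
noncomputable def S1 : ℝ := ∑' k, cf k

/-- `∑ (1 - r^k)/k²` -/
noncomputable def dl (r : ℝ) : ℝ := ∑' k, cf k * (1 - r ^ (k + 1))

theorem summable_dl (r : ℝ) (h0 : 0 ≤ r) (h1 : r ≤ 1) :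
    Summable (fun k => cf k * (1 - r ^ (k + 1))) := by
  apply Summable.of_nonneg_of_le _ _ summable_cf
  · intro k
    exact mul_nonneg (cf_nonneg k) (sub_nonneg.2 (pow_le_one₀ h0 h1))
  · intro k
    have : 1 - r ^ (k + 1) ≤ 1 := by have := pow_nonneg h0 (k + 1); linarith
    exact mul_le_of_le_one_right (cf_nonneg k) this

/-- The operator `1 - (1-r) P`. -/
noncomputable def op (r : ℝ) (P : H →L[ℂ] H) : H →L[ℂ] H := 1 - ((1 - r : ℝ) : ℂ) • P

section proj

variable {P : H →L[ℂ] H}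

theorem op_pow (r : ℝ) (hP : P * P = P) (n : ℕ) :
    op r P ^ n = 1 - ((1 - r ^ n : ℝ) : ℂ) • P := by
  induction n with
  | zero => simp
  | succ n ih =>
    rw [pow_succ, ih]
    unfold op
    have e0 : (1 - ((1 - r ^ n : ℝ) : ℂ) • P) * (1 - ((1 - r : ℝ) : ℂ) • P) =
        1 - ((1 - r : ℝ) : ℂ) • P - ((1 - r ^ n : ℝ) : ℂ) • P +
        (((1 - r ^ n : ℝ) : ℂ) * ((1 - r : ℝ) : ℂ)) • (P * P) := by
      rw [sub_mul, mul_sub, mul_sub, smul_mul_smul_comm, one_mul, one_mul, mul_one]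
      abel
    rw [e0, hP]
    have : ((1 - r ^ (n + 1) : ℝ) : ℂ) = ((1 - r : ℝ) : ℂ) + ((1 - r ^ n : ℝ) : ℂ)
        - ((1 - r ^ n : ℝ) : ℂ) * ((1 - r : ℝ) : ℂ) := by
      push_cast; ring
    rw [this, sub_smul, add_smul]
    abel

theorem op_adjoint (r : ℝ) (hs : adjoint P = P) : adjoint (op r P) = op r P := by
  unfold op
  rw [← star_eq_adjoint, star_sub, star_one, star_smul, star_eq_adjoint, hs]
  congr 2
  simp

theorem julia_op (r : ℝ) (h0 : 0 ≤ r) (h1 : r ≤ 1) (hP : P * P = P) (hs : adjoint P = P) :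
    Julia (op r P) (((Real.sqrt (1 - r ^ 2) : ℝ) : ℂ) • P) := by
  have hPs : ∀ x y, ⟪P x, y⟫_ℂ = ⟪x, P y⟫_ℂ := by
    intro x y
    have := adjoint_inner_left P y x
    rw [hs] at this
    exact this
  have hPP : ∀ x, P (P x) = P x := fun x => by
    have := congrArg (fun A : H →L[ℂ] H => A x) hP
    simpa using this
  constructor
  · intro x y
    have := adjoint_inner_left (op r P) y x
    rw [op_adjoint r hs] at this
    exact this
  · intro x y
    simp only [FunLike.coe_smul, Pi.smul_apply, inner_smul_left, inner_smul_right, Complex.conj_ofReal, hPs]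
  · intro x
    simp only [op, sub_apply, one_apply_eq_self, FunLike.coe_smul, Pi.smul_apply, map_smul, map_sub, hPP]
    module
  · intro x
    simp only [op, sub_apply, one_apply_eq_self, FunLike.coe_smul, Pi.smul_apply, map_smul, map_sub, hPP]
    have e : ((Real.sqrt (1 - r ^ 2) : ℝ) : ℂ) • ((Real.sqrt (1 - r ^ 2) : ℝ) : ℂ) • P x =
        ((1 - r ^ 2 : ℝ) : ℂ) • P x := by
      rw [smul_smul, ← Complex.ofReal_mul, Real.mul_self_sqrt (by nlinarith)]
    rw [e]
    have e2 : ((1 - r ^ 2 : ℝ) : ℂ) = ((1 - r : ℝ) : ℂ) + ((1 - r : ℝ) : ℂ) -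
      ((1 - r : ℝ) : ℂ) * ((1 - r : ℝ) : ℂ) := by push_cast; ring
    rw [e2]
    module

theorem value_op (r : ℝ) (h0 : 0 ≤ r) (h1 : r ≤ 1) (hP : P * P = P) (hs : adjoint P = P)
    {K : Type u} [NormedAddCommGroup K] [InnerProductSpace ℂ K] [CompleteSpace K]
    (d : Dilation (op r P) K) :
    d.value fn = (S1 : ℂ) • (1 : H →L[ℂ] H) - (dl r : ℂ) • P := by
  have h2 := d.value_tendsto
  refine tendsto_nhds_unique h2 ?_
  have h3 : HasSum cf S1 := summable_cf.hasSum
  have h4 : HasSum (fun k => cf k * (1 - r ^ (k + 1))) (dl r) := (summable_dl r h0 h1).hasSum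
  have h5 : Filter.Tendsto (fun N => ((∑ k ∈ Finset.range N, cf k : ℝ) : ℂ) • (1 : H →L[ℂ] H) -
      ((∑ k ∈ Finset.range N, cf k * (1 - r ^ (k + 1)) : ℝ) : ℂ) • P) Filter.atTop
      (nhds ((S1 : ℂ) • (1 : H →L[ℂ] H) - (dl r : ℂ) • P)) := by
    apply Filter.Tendsto.sub
    · exact ((Complex.continuous_ofReal.tendsto _).comp h3.tendsto_sum_nat).smul_const _
    · exact ((Complex.continuous_ofReal.tendsto _).comp h4.tendsto_sum_nat).smul_const _
  refine h5.congr ?_
  intro N
  rw [op_adjoint r hs]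
  simp only [op_pow r hP]
  push_cast
  rw [Finset.sum_smul, Finset.sum_smul, ← Finset.sum_sub_distrib]
  apply Finset.sum_congr rfl
  intro k _
  have e : (cf k : ℂ) = 1 / ((k : ℂ) + 1) ^ 2 := by unfold cf; push_cast; rfl
  rw [e]
  have hk : ((k : ℂ) + 1) ≠ 0 := by exact_mod_cast Nat.succ_ne_zero k
  rw [← two_smul ℂ, smul_smul, smul_sub, smul_smul]
  congr 2
  · field_simp
  · field_simp

theorem isValue_op (r : ℝ) (h0 : 0 ≤ r) (h1 : r ≤ 1) (hP : P * P = P) (hs : adjoint P = P) :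
    IsValue fn (op r P) ((S1 : ℂ) • (1 : H →L[ℂ] H) - (dl r : ℂ) • P) :=
  ⟨⟨lp (fun _ : ℤ => H) 2, inferInstance, inferInstance, inferInstance,
    ⟨dilation (julia_op r h0 h1 hP hs)⟩⟩, fun _ _ _ _ d => value_op r h0 h1 hP hs d⟩

end proj

end Pool.Agent.V11101.Dil
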