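import Pool.Agent.V11101.Dil

set_option autoImplicit false
set_option linter.unusedSectionVars false

open scoped ENNReal InnerProductSpace
open ContinuousLinearMap Filter

universe u

namespace Pool.Agent.V11101.Dil

variable {H : Type u} [NormedAddCommGroup H] [InnerProductSpace ℂ H] [CompleteSpace H]

/-! ### Singular numbers -/

theorem sNum_le (X F : H →L[ℂ] H) (n : ℕ)
    (h1 : FiniteDimensional ℂ (LinearMap.range (F : H →ₗ[ℂ] H)))
    (h2 : Module.finrank ℂ (LinearMap.range (F : H →ₗ[ℂ] H)) ≤ n) :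
    sNum X n ≤ ENNReal.ofReal ‖X - F‖ :=
  iInf₂_le F ⟨h1, h2⟩

theorem sNum_antitone (X : H →L[ℂ] H) : Antitone (sNum X) := by
  intro m n hmn
  unfold sNum
  refine le_iInf₂ fun F hF => iInf₂_le_of_le F ⟨hF.1, hF.2.trans hmn⟩ le_rfl

theorem sNum_add_le (X Y : H →L[ℂ] H) (m n : ℕ) :
    sNum (X + Y) (m + n) ≤ sNum X m + sNum Y n := by
  have h : sNum X m + sNum Y n = ⨅ (F : {F : H →L[ℂ] H // FiniteDimensional ℂ
      (LinearMap.range (F : H →ₗ[ℂ] H)) ∧
      Module.finrank ℂ (LinearMap.range (F : H →ₗ[ℂ] H)) ≤ m}),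
      ⨅ (G : {F : H →L[ℂ] H // FiniteDimensional ℂ (LinearMap.range (F : H →ₗ[ℂ] H)) ∧
      Module.finrank ℂ (LinearMap.range (F : H →ₗ[ℂ] H)) ≤ n}),
      (ENNReal.ofReal ‖X - F‖ + ENNReal.ofReal ‖Y - G‖) := by
    unfold sNum
    rw [iInf_subtype', iInf_subtype', ENNReal.iInf_add]
    congr 1
    funext F
    rw [ENNReal.add_iInf]
  rw [h]
  refine le_iInf fun F => le_iInf fun G => ?_
  obtain ⟨F, hF1, hF2⟩ := F
  obtain ⟨G, hG1, hG2⟩ := G
  have hle : LinearMap.range ((F + G : H →L[ℂ] H) : H →ₗ[ℂ] H) ≤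
      LinearMap.range (F : H →ₗ[ℂ] H) ⊔ LinearMap.range (G : H →ₗ[ℂ] H) :=
    LinearMap.range_add_le _ _
  have hfd : FiniteDimensional ℂ
      (LinearMap.range (F : H →ₗ[ℂ] H) ⊔ LinearMap.range (G : H →ₗ[ℂ] H) : Submodule ℂ H) :=
    inferInstance
  refine (sNum_le (X + Y) (F + G) (m + n) (Submodule.finiteDimensional_of_le hle) ?_).trans ?_
  · calc _ ≤ Module.finrank ℂ
          (LinearMap.range (F : H →ₗ[ℂ] H) ⊔ LinearMap.range (G : H →ₗ[ℂ] H) : Submodule ℂ H) :=
        Submodule.finrank_mono hle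
      _ ≤ _ := Submodule.finrank_add_le_finrank_add_finrank _ _
      _ ≤ m + n := add_le_add hF2 hG2
  · rw [← ENNReal.ofReal_add (norm_nonneg _) (norm_nonneg _)]
    apply ENNReal.ofReal_le_ofReal
    have : X + Y - (F + G) = (X - F) + (Y - G) := by abel
    simp only
    rw [this]
    exact norm_add_le _ _

theorem schatten_add_le (p : ℝ) (hp : 1 ≤ p) (X Y : H →L[ℂ] H) :
    schatten p (X + Y) ≤ 2 * (schatten p X + schatten p Y) := by
  have hp0 : 0 < p := by linarith
  have h1 : ∑' n, sNum (X + Y) n ^ p ≤ 2 * ∑' n, sNum (X + Y) (2 * n) ^ p := by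
    rw [← tsum_even_add_odd (f := fun n => sNum (X + Y) n ^ p) ENNReal.summable ENNReal.summable,
      two_mul]
    gcongr with n
    exact sNum_antitone _ (by omega)
  have h2 : ∑' n, sNum (X + Y) (2 * n) ^ p ≤
      (2 : ℝ≥0∞) ^ (p - 1) * (∑' n, sNum X n ^ p + ∑' n, sNum Y n ^ p) := by
    rw [← ENNReal.tsum_add, ← ENNReal.tsum_mul_left]
    gcongr with n
    calc sNum (X + Y) (2 * n) ^ p ≤ (sNum X n + sNum Y n) ^ p := by
          gcongr
          rw [two_mul]
          exact sNum_add_le X Y n n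
      _ ≤ _ := ENNReal.rpow_add_le_mul_rpow_add_rpow _ _ hp
  have h3 : ∑' n, sNum (X + Y) n ^ p ≤
      (2 : ℝ≥0∞) ^ p * (∑' n, sNum X n ^ p + ∑' n, sNum Y n ^ p) := by
    refine h1.trans ?_
    calc _ ≤ 2 * ((2 : ℝ≥0∞) ^ (p - 1) * (∑' n, sNum X n ^ p + ∑' n, sNum Y n ^ p)) := by gcongr
      _ = _ := by
        rw [← mul_assoc]
        congr 1
        nth_rewrite 1 [← ENNReal.rpow_one 2]
        rw [← ENNReal.rpow_add _ _ (by norm_num) (by norm_num)]
        congr 1; ring
  unfold schatten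
  calc _ ≤ ((2 : ℝ≥0∞) ^ p * (∑' n, sNum X n ^ p + ∑' n, sNum Y n ^ p)) ^ (1 / p) := by
        gcongr
    _ = 2 * (∑' n, sNum X n ^ p + ∑' n, sNum Y n ^ p) ^ (1 / p) := by
        rw [ENNReal.mul_rpow_of_nonneg _ _ (by positivity), ← ENNReal.rpow_mul]
        congr 1
        rw [mul_one_div_cancel hp0.ne', ENNReal.rpow_one]
    _ ≤ _ := by
        gcongr
        exact ENNReal.rpow_add_le_add_rpow _ _ (by positivity)
          (by rw [div_le_one hp0]; exact hp)

section proj

variable (E : Submodule ℂ H) [FiniteDimensional ℂ E]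

theorem sNum_proj_lt (c : ℝ) (hc : 0 ≤ c) (n : ℕ) (hn : n < Module.finrank ℂ E) :
    sNum ((c : ℂ) • E.starProjection) n = ENNReal.ofReal c := by
  apply le_antisymm
  · refine (sNum_le _ 0 n ?_ ?_).trans ?_
    · rw [ContinuousLinearMap.toLinearMap_zero, LinearMap.range_zero]; infer_instance
    · rw [ContinuousLinearMap.toLinearMap_zero, LinearMap.range_zero]; simp
    · apply ENNReal.ofReal_le_ofReal
      rw [sub_zero, norm_smul, Complex.norm_real, Real.norm_of_nonneg hc]
      exact mul_le_of_le_one_right hc E.starProjection_norm_le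
  · refine le_iInf₂ fun F hF => ?_
    obtain ⟨hF1, hF2⟩ := hF
    apply ENNReal.ofReal_le_ofReal
    -- a vector of `E` killed by `F`
    let L : E →ₗ[ℂ] LinearMap.range (F : H →ₗ[ℂ] H) :=
      (F : H →ₗ[ℂ] H).rangeRestrict ∘ₗ E.subtype
    have hker : LinearMap.ker L ≠ ⊥ :=
      LinearMap.ker_ne_bot_of_finrank_lt (lt_of_le_of_lt hF2 hn)
    obtain ⟨x, hx, hx0⟩ := (Submodule.ne_bot_iff _).1 hker
    have hFx : F (x : H) = 0 := by
      have := LinearMap.mem_ker.1 hx
      exact congrArg Subtype.val this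
    have hxn : 0 < ‖(x : H)‖ := norm_pos_iff.2 (by simpa using hx0)
    have h1 : ((c : ℂ) • E.starProjection - F) (x : H) = (c : ℂ) • (x : H) := by
      rw [sub_apply, hFx, sub_zero, FunLike.coe_smul, Pi.smul_apply,
        Submodule.starProjection_eq_self_iff.2 x.2]
    have h2 := le_opNorm ((c : ℂ) • E.starProjection - F) (x : H)
    rw [h1, norm_smul, Complex.norm_real, Real.norm_of_nonneg hc] at h2
    exact le_of_mul_le_mul_right h2 hxn

theorem sNum_proj_ge (c : ℂ) (n : ℕ) (hn : Module.finrank ℂ E ≤ n) :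
    sNum (c • E.starProjection) n = 0 := by
  refine le_antisymm ?_ bot_le
  have hle : LinearMap.range ((c • E.starProjection : H →L[ℂ] H) : H →ₗ[ℂ] H) ≤ E := by
    rintro _ ⟨x, rfl⟩
    exact E.smul_mem c (E.starProjection_apply_mem x)
  refine (sNum_le _ (c • E.starProjection) n (Submodule.finiteDimensional_of_le hle)
    ((Submodule.finrank_mono hle).trans hn)).trans ?_
  simp

theorem schatten_proj (p : ℝ) (hp : 1 ≤ p) (c : ℝ) (hc : 0 ≤ c) :
    schatten p ((c : ℂ) • E.starProjection) =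
      ENNReal.ofReal (c * (Module.finrank ℂ E : ℝ) ^ (1 / p)) := by
  have hp0 : 0 < p := by linarith
  unfold schatten
  rw [tsum_eq_sum (s := Finset.range (Module.finrank ℂ E))]
  · have : ∀ n ∈ Finset.range (Module.finrank ℂ E),
        sNum ((c : ℂ) • E.starProjection) n ^ p = ENNReal.ofReal c ^ p := by
      intro n hn
      rw [sNum_proj_lt E c hc n (Finset.mem_range.1 hn)]
    rw [Finset.sum_congr rfl this, Finset.sum_const, Finset.card_range, nsmul_eq_mul,
      ENNReal.mul_rpow_of_nonneg _ _ (by positivity), ← ENNReal.rpow_mul,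
      mul_one_div_cancel hp0.ne', ENNReal.rpow_one, ENNReal.ofReal_mul hc, mul_comm]
    congr 1
    rw [← ENNReal.ofReal_rpow_of_nonneg (by positivity) (by positivity), ENNReal.ofReal_natCast]
  · intro n hn
    rw [Finset.mem_range, not_lt] at hn
    rw [sNum_proj_ge E _ n hn, ENNReal.zero_rpow_of_pos hp0]

end proj

/-! ### Lower bound for `dl` -/

theorem one_sub_pow_ge (m : ℕ) (hm : 1 ≤ m) (j : ℕ) (hj : j ≤ m) :
    (j : ℝ) / (2 * m) ≤ 1 - (1 - 1 / (m : ℝ)) ^ j := by
  have hm0 : (0 : ℝ) < m := by exact_mod_cast hm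
  have hm1 : (1 : ℝ) ≤ m := by exact_mod_cast hm
  set x : ℝ := 1 / (m : ℝ) with hx
  have hx0 : 0 < x := by positivity
  have hx1 : x ≤ 1 := by rw [hx, div_le_one hm0]; exact hm1
  have hjx : (j : ℝ) * x ≤ 1 := by
    rw [hx, mul_one_div, div_le_one hm0]; exact_mod_cast hj
  have h1 : (1 - x) ^ j ≤ Real.exp (-(j * x)) := by
    calc (1 - x) ^ j ≤ (Real.exp (-x)) ^ j := by
          apply pow_le_pow_left₀ (by linarith)
          have := Real.add_one_le_exp (-x)
          linarith
      _ = Real.exp (-(j * x)) := by rw [← Real.exp_nat_mul]; congr 1; ring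
  have h2 : 1 + (j : ℝ) * x ≤ Real.exp (j * x) := by
    have := Real.add_one_le_exp ((j : ℝ) * x); linarith
  have h3 : (1 - x) ^ j * (1 + j * x) ≤ 1 := by
    calc _ ≤ Real.exp (-(j * x)) * Real.exp (j * x) := by gcongr
      _ = 1 := by rw [← Real.exp_add]; simp
  have h4 : (0 : ℝ) ≤ (j : ℝ) * x := by positivity
  have h5 : (j : ℝ) / (2 * m) = (j : ℝ) * x / 2 := by rw [hx]; field_simp
  rw [h5]
  have h6 : (0 : ℝ) ≤ (1 - x) ^ j := pow_nonneg (by linarith) _
  nlinarith

theorem dl_ge (m : ℕ) (hm : 1 ≤ m) :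
    Real.log (m + 1) / (2 * m) ≤ dl (1 - 1 / (m : ℝ)) := by
  have hm0 : (0 : ℝ) < m := by exact_mod_cast hm
  have hm1 : (1 : ℝ) ≤ m := by exact_mod_cast hm
  have h0 : (0 : ℝ) ≤ 1 - 1 / (m : ℝ) := by
    rw [sub_nonneg, div_le_one hm0]; exact hm1
  have h1 : (1 : ℝ) - 1 / (m : ℝ) ≤ 1 := by
    have : (0 : ℝ) < 1 / m := by positivity
    linarith
  have h2 : ∑ k ∈ Finset.range m, cf k * (1 - (1 - 1 / (m : ℝ)) ^ (k + 1)) ≤
      dl (1 - 1 / (m : ℝ)) := by
    unfold dl
    apply (summable_dl _ h0 h1).sum_le_tsum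
    intro k _
    exact mul_nonneg (cf_nonneg k) (sub_nonneg.2 (pow_le_one₀ h0 h1))
  refine le_trans ?_ h2
  have h3 : ∀ k ∈ Finset.range m, ((k : ℝ) + 1)⁻¹ / (2 * m) ≤
      cf k * (1 - (1 - 1 / (m : ℝ)) ^ (k + 1)) := by
    intro k hk
    have h4 := one_sub_pow_ge m hm (k + 1) (Finset.mem_range.1 hk)
    calc ((k : ℝ) + 1)⁻¹ / (2 * m) = cf k * (((k + 1 : ℕ) : ℝ) / (2 * m)) := by
          unfold cf; push_cast; field_simp
      _ ≤ _ := by gcongr; exact cf_nonneg k
  refine le_trans ?_ (Finset.sum_le_sum h3)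
  rw [← Finset.sum_div]
  gcongr
  have h5 := log_add_one_le_harmonic m
  rw [harmonic] at h5
  push_cast at h5
  exact h5

/-! ### The Lipschitz property -/

theorem fn_exp (x : ℝ) (hx : x ∈ Set.Icc (0 : ℝ) 1) :
    fn (Complex.exp (2 * Real.pi * x * Complex.I)) =
      ((Real.pi ^ 2 * (x ^ 2 - x + 1 / 6) : ℝ) : ℂ) := by
  have h := hasSum_one_div_nat_pow_mul_cos (k := 1) one_ne_zero hx
  have h0 : (-1 : ℝ) ^ (1 + 1) * (2 * Real.pi) ^ (2 * 1) / 2 / ((2 * 1).factorial : ℝ) *
      (Polynomial.map (algebraMap ℚ ℝ) (Polynomial.bernoulli (2 * 1))).eval x =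
      Real.pi ^ 2 * (x ^ 2 - x + 1 / 6) := by
    have e : Polynomial.bernoulli (2 * 1) =
        Polynomial.X ^ 2 - Polynomial.X + Polynomial.C (6⁻¹ : ℚ) := by
      rw [Polynomial.bernoulli]
      simp only [Finset.sum_range_succ, Finset.sum_range_zero, mul_one]
      rw [bernoulli_zero, bernoulli_one, bernoulli_two]
      norm_num [Polynomial.monomial_one_one_eq_X, Polynomial.monomial_zero_left]
      rw [← Polynomial.C_mul_X_pow_eq_monomial]
      norm_num
      ring
    rw [e]
    simp only [Polynomial.map_add, Polynomial.map_sub, Polynomial.map_pow, Polynomial.map_X,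
      Polynomial.map_C, Polynomial.eval_add, Polynomial.eval_sub, Polynomial.eval_pow,
      Polynomial.eval_X, Polynomial.eval_C]
    have : (algebraMap ℚ ℝ) 6⁻¹ = 1 / 6 := by norm_num
    rw [this]
    have h2f : (((2 * 1).factorial : ℕ) : ℝ) = 2 := by norm_num [Nat.factorial]
    rw [h2f]
    ring
  rw [h0] at h
  have h1 := (hasSum_nat_add_iff' 1).2 h
  simp only [Finset.range_one, Finset.sum_singleton, Nat.cast_zero] at h1
  have h2 : HasSum (fun k : ℕ => term k (Complex.exp (2 * Real.pi * x * Complex.I)))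
      ((Real.pi ^ 2 * (x ^ 2 - x + 1 / 6) : ℝ) : ℂ) := by
    have h3 := Complex.hasSum_ofReal.2 h1
    convert h3 using 1
    · funext k
      unfold term
      have e1 : star (Complex.exp (2 * Real.pi * x * Complex.I)) =
          Complex.exp (-(2 * Real.pi * x * Complex.I)) := by
        rw [Complex.star_def, ← Complex.exp_conj]
        congr 1
        simp only [map_mul, Complex.conj_ofReal, Complex.conj_I, map_ofNat]
        ring
      rw [e1, ← Complex.exp_nat_mul, ← Complex.exp_nat_mul]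
      have e2 : Complex.exp (((k + 1 : ℕ) : ℂ) * (2 * Real.pi * x * Complex.I)) +
          Complex.exp (((k + 1 : ℕ) : ℂ) * (-(2 * Real.pi * x * Complex.I))) =
          2 * Complex.cos (2 * Real.pi * ((k + 1 : ℕ) : ℂ) * x) := by
        rw [Complex.two_cos]
        congr 1 <;> congr 1 <;> ring
      rw [e2]
      push_cast
      have hk : ((k : ℂ) + 1) ≠ 0 := by exact_mod_cast Nat.succ_ne_zero k
      field_simp
    · simp
  exact h2.tsum_eq

/-- the periodic function `x ↦ f(e^{2πix})` -/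
noncomputable def per (x : ℝ) : ℂ := fn (Complex.exp (2 * Real.pi * x * Complex.I))

theorem per_add_one (x : ℝ) : per (x + 1) = per x := by
  unfold per
  congr 1
  have : (2 * Real.pi * ((x + 1 : ℝ) : ℂ) * Complex.I) =
    2 * Real.pi * x * Complex.I + 2 * Real.pi * Complex.I := by push_cast; ring
  rw [this, Complex.exp_add, Complex.exp_two_pi_mul_I, mul_one]

theorem per_lip01 (x y : ℝ) (hx : x ∈ Set.Icc (0 : ℝ) 1) (hy : y ∈ Set.Icc (0 : ℝ) 1) :
    ‖per x - per y‖ ≤ Real.pi ^ 2 * |x - y| := by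
  unfold per
  rw [fn_exp x hx, fn_exp y hy, ← Complex.ofReal_sub, Complex.norm_real, Real.norm_eq_abs]
  have e : Real.pi ^ 2 * (x ^ 2 - x + 1 / 6) - Real.pi ^ 2 * (y ^ 2 - y + 1 / 6) =
    Real.pi ^ 2 * ((x - y) * (x + y - 1)) := by ring
  rw [e, abs_mul, abs_of_nonneg (by positivity : (0 : ℝ) ≤ Real.pi ^ 2), abs_mul]
  have h : |x + y - 1| ≤ 1 := by
    rw [abs_le]; constructor <;> linarith [hx.1, hx.2, hy.1, hy.2]
  have := mul_le_mul_of_nonneg_left h (abs_nonneg (x - y))
  rw [mul_one] at this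
  gcongr

/-- `|θ| ≤ 1/2`: Lipschitz estimate for a rotation. -/
theorem per_lip (x t : ℝ) (hx : x ∈ Set.Icc (0 : ℝ) 1) (ht : |t| ≤ 1 / 2) :
    ‖per (x + t) - per x‖ ≤ Real.pi ^ 2 * |t| := by
  have ht' := abs_le.1 ht
  by_cases h1 : x + t ≤ 1
  · by_cases h0 : 0 ≤ x + t
    · have := per_lip01 (x + t) x ⟨h0, h1⟩ hx
      simpa using this
    · push Not at h0
      have e1 := per_lip01 (x + t + 1) 1 ⟨by linarith [hx.1], by linarith⟩ ⟨zero_le_one, le_rfl⟩
      have e2 := per_lip01 0 x ⟨le_rfl, zero_le_one⟩ hx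
      have e3 : per 1 = per 0 := by simpa using per_add_one 0
      rw [per_add_one, e3] at e1
      calc ‖per (x + t) - per x‖ = ‖(per (x + t) - per 0) + (per 0 - per x)‖ := by congr 1; ring
        _ ≤ _ := norm_add_le _ _
        _ ≤ Real.pi ^ 2 * |x + t + 1 - 1| + Real.pi ^ 2 * |0 - x| := add_le_add e1 e2
        _ = Real.pi ^ 2 * |t| := by
          rw [← mul_add]
          congr 1
          have a1 : |x + t + 1 - 1| = -(x + t) := by
            rw [abs_of_nonpos (by linarith)]; ring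
          have a2 : |0 - x| = x := by rw [zero_sub, abs_neg, abs_of_nonneg hx.1]
          have a3 : |t| = -t := abs_of_nonpos (by linarith [hx.1])
          rw [a1, a2, a3]; ring
  · push Not at h1
    have e1 := per_lip01 (x + t - 1) 0 ⟨by linarith, by linarith [hx.2]⟩ ⟨le_rfl, zero_le_one⟩
    have e2 := per_lip01 1 x ⟨zero_le_one, le_rfl⟩ hx
    have e3 : per 1 = per 0 := by simpa using per_add_one 0
    have e4 : per (x + t - 1) = per (x + t) := by
      have := per_add_one (x + t - 1)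
      rw [sub_add_cancel] at this
      exact this.symm
    rw [e4] at e1
    rw [e3] at e2
    calc ‖per (x + t) - per x‖ = ‖(per (x + t) - per 0) + (per 0 - per x)‖ := by congr 1; ring
      _ ≤ _ := norm_add_le _ _
      _ ≤ Real.pi ^ 2 * |x + t - 1 - 0| + Real.pi ^ 2 * |1 - x| := add_le_add e1 e2
      _ = Real.pi ^ 2 * |t| := by
        rw [← mul_add]
        congr 1
        have a1 : |x + t - 1 - 0| = x + t - 1 := by
          rw [sub_zero, abs_of_nonneg (by linarith)]
        have a2 : |1 - x| = 1 - x := abs_of_nonneg (by linarith [hx.2])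
        have a3 : |t| = t := abs_of_nonneg (by linarith [hx.2])
        rw [a1, a2, a3]; ring

theorem fn_lipschitz (z w : ℂ) (hz : ‖z‖ = 1) (hw : ‖w‖ = 1) :
    ‖fn z - fn w‖ ≤ Real.pi ^ 2 * ‖z - w‖ := by
  -- write `w = e^{2πix}`
  obtain ⟨x, hx, hxw⟩ : ∃ x ∈ Set.Icc (0 : ℝ) 1, Complex.exp (2 * Real.pi * x * Complex.I) = w := by
    refine ⟨Int.fract (Complex.arg w / (2 * Real.pi)), ⟨Int.fract_nonneg _, (Int.fract_lt_one _).le⟩, ?_⟩
    have h1 : w = Complex.exp (Complex.arg w * Complex.I) := by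
      have := Complex.norm_mul_exp_arg_mul_I w
      rw [hw] at this
      simpa using this.symm
    conv_rhs => rw [h1]
    rw [Complex.exp_eq_exp_iff_exists_int]
    refine ⟨-⌊Complex.arg w / (2 * Real.pi)⌋, ?_⟩
    have h2 : Int.fract (Complex.arg w / (2 * Real.pi)) =
      Complex.arg w / (2 * Real.pi) - ⌊Complex.arg w / (2 * Real.pi)⌋ := rfl
    rw [h2]
    push_cast
    have : (Real.pi : ℂ) ≠ 0 := by exact_mod_cast Real.pi_ne_zero
    field_simp
    ring
  -- write `z = e^{2πi(x+t)}`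
  have hw0 : w ≠ 0 := by intro h; rw [h, norm_zero] at hw; norm_num at hw
  set t : ℝ := Complex.arg (z / w) / (2 * Real.pi) with htdef
  have hpi := Real.pi_pos
  have ht : |t| ≤ 1 / 2 := by
    rw [htdef, abs_div, abs_of_pos (by positivity : (0 : ℝ) < 2 * Real.pi), div_le_iff₀ (by positivity)]
    have := Complex.abs_arg_le_pi (z / w)
    linarith
  have hzw : z = w * Complex.exp (2 * Real.pi * t * Complex.I) := by
    have h1 := Complex.norm_mul_exp_arg_mul_I (z / w)
    rw [norm_div, hz, hw, div_one] at h1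
    have h2 : (2 * Real.pi * t * Complex.I) = Complex.arg (z / w) * Complex.I := by
      rw [htdef]
      push_cast
      have : (Real.pi : ℂ) ≠ 0 := by exact_mod_cast Real.pi_ne_zero
      field_simp
    rw [h2]
    rw [Complex.ofReal_one, one_mul] at h1
    rw [h1]
    field_simp
  have hz2 : z = Complex.exp (2 * Real.pi * ((x + t : ℝ) : ℂ) * Complex.I) := by
    rw [hzw, ← hxw, ← Complex.exp_add]
    congr 1
    push_cast
    ring
  have hdist : 4 * |t| ≤ ‖z - w‖ := by
    have h1 : z - w = w * (Complex.exp (Complex.I * ((2 * Real.pi * t : ℝ) : ℂ)) - 1) := by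
      rw [hzw]
      have : (2 * Real.pi * t * Complex.I) = Complex.I * ((2 * Real.pi * t : ℝ) : ℂ) := by
        push_cast; ring
      rw [this]; ring
    rw [h1, norm_mul, hw, one_mul, Complex.norm_exp_I_mul_ofReal_sub_one]
    have h2 : 2 * Real.pi * t / 2 = Real.pi * t := by ring
    rw [h2, norm_mul, Real.norm_eq_abs, Real.norm_eq_abs]
    have h3 := Real.mul_abs_le_abs_sin (x := Real.pi * t) (by
      rw [abs_mul, abs_of_pos hpi]
      have := mul_le_mul_of_nonneg_left ht hpi.le
      linarith)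
    rw [abs_mul, abs_of_pos hpi] at h3
    have h4 : 2 / Real.pi * (Real.pi * |t|) = 2 * |t| := by field_simp
    rw [h4] at h3
    rw [abs_two]
    linarith
  have hmain := per_lip x t hx ht
  unfold per at hmain
  rw [← hz2, hxw] at hmain
  refine hmain.trans ?_
  gcongr
  have := abs_nonneg t
  linarith

/-! ### Not in the disc algebra -/

theorem circleIntegral_term (k : ℕ) : (∮ z in C(0, 1), term k z) =
    if k = 0 then Real.pi * Complex.I else 0 := by
  have h1 : (∮ z in C(0, 1), term k z) = ∮ z in C(0, 1),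
      ((1 / (2 * ((k : ℝ) + 1) ^ 2) : ℝ) : ℂ) • ((z - 0) ^ ((k + 1 : ℕ) : ℤ) +
        (z - 0) ^ (-((k + 1 : ℕ) : ℤ))) := by
    apply circleIntegral.integral_congr zero_le_one
    intro z hz
    have hz1 : ‖z‖ = 1 := by simpa using hz
    have h2 : star z = z⁻¹ := by
      rw [Complex.inv_def, Complex.normSq_eq_norm_sq, hz1]
      simp
    simp only [term, sub_zero, zpow_natCast, zpow_neg, smul_eq_mul]
    rw [h2, inv_pow]
  rw [h1, circleIntegral.integral_smul]
  have hne : ∀ n : ℤ, CircleIntegrable (fun z : ℂ => (z - 0) ^ n) 0 1 := by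
    intro n
    rw [circleIntegrable_sub_zpow_iff]
    right; right
    simp
  rw [circleIntegral.integral_add (hne _) (hne _)]
  rw [circleIntegral.integral_sub_zpow_of_ne (by omega)]
  by_cases hk : k = 0
  · subst hk
    simp only [if_true, zero_add]
    have e : (fun z : ℂ => (z - 0) ^ (-((1 : ℕ) : ℤ))) = fun z : ℂ => (z - 0)⁻¹ := by
      funext z; simp
    rw [e, circleIntegral.integral_sub_inv_of_mem_ball (by simp)]
    simp
    ring
  · rw [if_neg hk, circleIntegral.integral_sub_zpow_of_ne (by omega)]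
    simp

theorem fn_not_disc : ¬ ∃ F : ℂ → ℂ, ContinuousOn F (Metric.closedBall 0 1) ∧
    DifferentiableOn ℂ F (Metric.ball 0 1) ∧ ∀ z : ℂ, ‖z‖ = 1 → F z = fn z := by
  rintro ⟨F, hc, hd, hF⟩
  have h0 : (∮ z in C(0, 1), F z) = 0 := by
    apply Complex.circleIntegral_eq_zero_of_differentiable_on_off_countable zero_le_one
      Set.countable_empty hc
    intro z hz
    exact (hd z hz.1).differentiableAt (Metric.isOpen_ball.mem_nhds hz.1)
  have h1 : (∮ z in C(0, 1), fn z) = 0 := by
    have h00 : (∮ z in C(0, 1), fn z) = ∮ z in C(0, 1), F z := by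
      apply circleIntegral.integral_congr zero_le_one
      intro z hz
      exact (hF z (by simpa using hz)).symm
    rw [h00, h0]
  have hci : CircleIntegrable fn 0 1 :=
    (continuousOn_fn.mono (by simpa using Metric.sphere_subset_closedBall)).circleIntegrable'
  have hct : ∀ N, CircleIntegrable (fun z => ∑ k ∈ Finset.range N, term k z) 0 1 := fun N =>
    (continuous_finsetSum _ fun k _ => continuous_term k).continuousOn.circleIntegrable'
  have h2 : ∀ N : ℕ, ‖Real.pi * Complex.I‖ ≤ 2 * Real.pi * 1 * tail (N + 1) := by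
    intro N
    have e1 : (∮ z in C(0, 1), ∑ k ∈ Finset.range (N + 1), term k z) = Real.pi * Complex.I := by
      rw [circleIntegral.integral_fun_sum]
      · rw [Finset.sum_range_succ']
        simp only [circleIntegral_term]
        simp
      · intro k _
        exact (continuous_term k).continuousOn.circleIntegrable'
    have e2 : (∮ z in C(0, 1), (fn z - ∑ k ∈ Finset.range (N + 1), term k z)) =
        -(Real.pi * Complex.I) := by
      rw [circleIntegral.integral_sub hci (hct _), h1, e1, zero_sub]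
    rw [← norm_neg, ← e2]
    apply circleIntegral.norm_integral_le_of_norm_le_const zero_le_one
    intro z hz
    exact norm_fn_sub_le (N + 1) z (by simpa using (Metric.sphere_subset_closedBall hz))
  have h3 : Tendsto (fun N => 2 * Real.pi * 1 * tail (N + 1)) atTop (nhds (2 * Real.pi * 1 * 0)) :=
    ((tendsto_add_atTop_iff_nat 1).2 tendsto_tail).const_mul _
  have h4 := ge_of_tendsto' h3 h2
  rw [mul_zero, norm_mul, Complex.norm_I, mul_one, Complex.norm_real,
    Real.norm_of_nonneg Real.pi_pos.le] at h4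
  linarith [Real.pi_pos]

end Pool.Agent.V11101.Dil
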