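import Mathlib

/-!
# Lipschitz extension into p-Banach spaces: definitions and the basic example
-/

open scoped NNReal ENNReal Topology
open Filter

namespace Pool.Agent.V11101.Ext

/-- `N` is a `p`-norm on the real vector space `Z` for which `Z` is a `p`-Banach space. -/
structure PBanach (p : ℝ) (Z : Type) [AddCommGroup Z] [Module ℝ Z] (N : Z → ℝ) : Prop where
  nonneg : ∀ x, 0 ≤ N x
  pos : ∀ x, x ≠ 0 → 0 < N x
  smul : ∀ (a : ℝ) (x : Z), N (a • x) = |a| * N x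
  add : ∀ x y, N (x + y) ^ p ≤ N x ^ p + N y ^ p
  complete : ∀ u : ℕ → Z, (∀ ε : ℝ, 0 < ε → ∃ K, ∀ i, K ≤ i → ∀ j, K ≤ j → N (u i - u j) ^ p < ε) →
    ∃ x, Tendsto (fun i => N (u i - x) ^ p) atTop (𝓝 0)

/-- `Lip f = sup ‖f x - f y‖ / ρ(x,y)` over `x ≠ y`, in `[0,∞]`. -/
noncomputable def lipC {M : Type} [MetricSpace M] {Z : Type} [AddCommGroup Z] (N : Z → ℝ)
    (f : M → Z) : ℝ≥0∞ :=
  ⨆ (x : M) (y : M) (_ : x ≠ y), ENNReal.ofReal (N (f x - f y) / dist x y)

/-- The `p`-trace of `A ⊆ M`. -/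
noncomputable def trace (p : ℝ) {M : Type} [MetricSpace M] (A : Set M) : ℝ≥0∞ :=
  sInf {C : ℝ≥0∞ | 0 < C ∧ ∀ (Z : Type) [AddCommGroup Z] [Module ℝ Z] (N : Z → ℝ),
    PBanach p Z N → ∀ f : A → Z, lipC N f < ⊤ →
      ∃ g : M → Z, (∀ x : A, g x = f x) ∧ lipC N g ≤ C * lipC N f}

/-- The absolute `p`-extendability constant of a metric space: the supremum of the `p`-traces over
all metric spaces containing it. -/
noncomputable def aeC (p : ℝ) (A : Type) [MetricSpace A] : ℝ≥0∞ :=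
  ⨆ (M : Type) (_ : MetricSpace M) (ι : A → M) (_ : Isometry ι), trace p (Set.range ι)

theorem le_lipC {M : Type} [MetricSpace M] {Z : Type} [AddCommGroup Z] {N : Z → ℝ}
    {f : M → Z} {C : ℝ} (hC : 0 ≤ C) (h : lipC N f ≤ ENNReal.ofReal C) (x y : M) (hxy : x ≠ y) :
    N (f x - f y) ≤ C * dist x y := by
  have h1 : ENNReal.ofReal (N (f x - f y) / dist x y) ≤ ENNReal.ofReal C := by
    refine le_trans ?_ h
    unfold lipC
    exact le_iSup_of_le x (le_iSup_of_le y (le_iSup_of_le hxy le_rfl))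
  rw [ENNReal.ofReal_le_ofReal_iff hC] at h1
  rwa [div_le_iff₀ (dist_pos.mpr hxy)] at h1

theorem lipC_le {M : Type} [MetricSpace M] {Z : Type} [AddCommGroup Z] {N : Z → ℝ}
    {f : M → Z} {C : ℝ} (h : ∀ x y, x ≠ y → N (f x - f y) ≤ C * dist x y) :
    lipC N f ≤ ENNReal.ofReal C := by
  refine iSup_le fun x => iSup_le fun y => iSup_le fun hxy => ENNReal.ofReal_le_ofReal ?_
  rw [div_le_iff₀ (dist_pos.mpr hxy)]
  exact h x y hxy

/-! ### The two-dimensional space -/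

/-- The `p`-th power of the `p`-norm of `(a,b,0)` in `ℝ³/ℝ(1,1,1)`. -/
noncomputable def G (p a b : ℝ) : ℝ := ⨅ t : ℝ, (|a - t| ^ p + |b - t| ^ p + |t| ^ p)

section G

variable {p : ℝ} (hp : 0 < p) (hp1 : p ≤ 1)

theorem G_bdd (p a b : ℝ) : BddBelow (Set.range fun t : ℝ => (|a - t| ^ p + |b - t| ^ p + |t| ^ p)) := by
  refine ⟨0, ?_⟩
  rintro _ ⟨t, rfl⟩
  positivity

theorem G_le (p a b t : ℝ) : G p a b ≤ |a - t| ^ p + |b - t| ^ p + |t| ^ p :=
  ciInf_le (G_bdd p a b) t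

theorem le_G {p a b c : ℝ} (h : ∀ t : ℝ, c ≤ |a - t| ^ p + |b - t| ^ p + |t| ^ p) : c ≤ G p a b :=
  le_ciInf h

theorem G_nonneg (p a b : ℝ) : 0 ≤ G p a b := le_G fun t => by positivity

include hp hp1 in
theorem pow_add_le (x y : ℝ) : |x + y| ^ p ≤ |x| ^ p + |y| ^ p :=
  (Real.rpow_le_rpow (abs_nonneg _) (abs_add_le x y) hp.le).trans
    (Real.rpow_add_le_add_rpow (abs_nonneg _) (abs_nonneg _) hp.le hp1)

include hp hp1 in
theorem G_add (a b a' b' : ℝ) : G p (a + a') (b + b') ≤ G p a b + G p a' b' := by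
  have h1 : G p (a + a') (b + b') - G p a b ≤ G p a' b' := by
    refine le_G fun t' => ?_
    have h2 : G p (a + a') (b + b') - (|a' - t'| ^ p + |b' - t'| ^ p + |t'| ^ p) ≤ G p a b := by
      refine le_G fun t => ?_
      have h3 := G_le p (a + a') (b + b') (t + t')
      have e1 := pow_add_le hp hp1 (a - t) (a' - t')
      have e2 := pow_add_le hp hp1 (b - t) (b' - t')
      have e3 := pow_add_le hp hp1 t t'
      rw [show a - t + (a' - t') = a + a' - (t + t') by ring] at e1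
      rw [show b - t + (b' - t') = b + b' - (t + t') by ring] at e2
      linarith
    linarith
  linarith

include hp in
theorem G_zero : G p 0 0 = 0 := by
  refine le_antisymm ?_ (G_nonneg _ _ _)
  have := G_le p 0 0 0
  simpa [Real.zero_rpow hp.ne'] using this

include hp in
theorem G_smul (c a b : ℝ) : G p (c * a) (c * b) = |c| ^ p * G p a b := by
  rcases eq_or_ne c 0 with rfl | hc
  · simp [G_zero hp, Real.zero_rpow hp.ne']
  have key : ∀ c a b : ℝ, G p (c * a) (c * b) ≤ |c| ^ p * G p a b := by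
    intro c a b
    rcases eq_or_ne c 0 with rfl | hc
    · simp [G_zero hp, Real.zero_rpow hp.ne']
    have hc' : 0 < |c| ^ p := Real.rpow_pos_of_pos (abs_pos.mpr hc) p
    rw [← div_le_iff₀' hc']
    refine le_G fun t => ?_
    rw [div_le_iff₀' hc']
    have h := G_le p (c * a) (c * b) (c * t)
    rw [← mul_sub, ← mul_sub, abs_mul, abs_mul, abs_mul,
      Real.mul_rpow (abs_nonneg _) (abs_nonneg _), Real.mul_rpow (abs_nonneg _) (abs_nonneg _),
      Real.mul_rpow (abs_nonneg _) (abs_nonneg _)] at h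
    linarith
  refine le_antisymm (key c a b) ?_
  have h := key c⁻¹ (c * a) (c * b)
  rw [inv_mul_cancel_left₀ hc, inv_mul_cancel_left₀ hc, abs_inv,
    Real.inv_rpow (abs_nonneg _)] at h
  have hc' : 0 < |c| ^ p := Real.rpow_pos_of_pos (abs_pos.mpr hc) p
  calc |c| ^ p * G p a b ≤ |c| ^ p * ((|c| ^ p)⁻¹ * G p (c * a) (c * b)) :=
        mul_le_mul_of_nonneg_left h hc'.le
    _ = G p (c * a) (c * b) := by rw [← mul_assoc, mul_inv_cancel₀ hc'.ne', one_mul]

include hp hp1 in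
theorem abs_a_le (a b : ℝ) : |a| ^ p ≤ G p a b := by
  refine le_G fun t => ?_
  have h := pow_add_le hp hp1 (a - t) t
  rw [sub_add_cancel] at h
  have : 0 ≤ |b - t| ^ p := by positivity
  linarith

include hp hp1 in
theorem abs_b_le (a b : ℝ) : |b| ^ p ≤ G p a b := by
  refine le_G fun t => ?_
  have h := pow_add_le hp hp1 (b - t) t
  rw [sub_add_cancel] at h
  have : 0 ≤ |a - t| ^ p := by positivity
  linarith

include hp hp1 in
theorem sum_le (a b : ℝ) : |a| ^ p + |b| ^ p + |a - b| ^ p ≤ 2 * G p a b := by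
  have : (|a| ^ p + |b| ^ p + |a - b| ^ p) / 2 ≤ G p a b := by
    refine le_G fun t => ?_
    have h1 := pow_add_le hp hp1 (a - t) t
    have h2 := pow_add_le hp hp1 (b - t) t
    have h3 := pow_add_le hp hp1 (a - t) (-(b - t))
    rw [sub_add_cancel] at h1 h2
    rw [abs_neg, show a - t + -(b - t) = a - b by ring] at h3
    linarith
  linarith

/-- The `p`-norm on the plane. -/
noncomputable def nm (p : ℝ) (z : ℝ × ℝ) : ℝ := G p z.1 z.2 ^ (1 / p)

include hp in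
theorem nm_pow (z : ℝ × ℝ) : nm p z ^ p = G p z.1 z.2 := by
  unfold nm
  rw [← Real.rpow_mul (G_nonneg _ _ _), one_div, inv_mul_cancel₀ hp.ne', Real.rpow_one]

theorem nm_nonneg (p : ℝ) (z : ℝ × ℝ) : 0 ≤ nm p z := Real.rpow_nonneg (G_nonneg _ _ _) _

include hp in
theorem nm_le_iff {z : ℝ × ℝ} {c : ℝ} (hc : 0 ≤ c) : nm p z ≤ c ↔ G p z.1 z.2 ≤ c ^ p := by
  rw [← nm_pow hp z]
  exact (Real.rpow_le_rpow_iff (nm_nonneg p z) hc hp).symm

include hp hp1 in
theorem pBanach_nm : PBanach p (ℝ × ℝ) (nm p) where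
  nonneg := nm_nonneg p
  pos := by
    intro z hz
    have h : 0 < G p z.1 z.2 := by
      by_cases h1 : z.1 = 0
      · have h2 : z.2 ≠ 0 := fun h2 => hz (Prod.ext h1 h2)
        exact (Real.rpow_pos_of_pos (abs_pos.mpr h2) p).trans_le (abs_b_le hp hp1 _ _)
      · exact (Real.rpow_pos_of_pos (abs_pos.mpr h1) p).trans_le (abs_a_le hp hp1 _ _)
    exact Real.rpow_pos_of_pos h _
  smul := by
    intro a z
    unfold nm
    have h : G p (a • z).1 (a • z).2 = |a| ^ p * G p z.1 z.2 := G_smul hp a z.1 z.2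
    rw [h, Real.mul_rpow (by positivity) (G_nonneg _ _ _), ← Real.rpow_mul (abs_nonneg _),
      mul_one_div_cancel hp.ne', Real.rpow_one]
  add := by
    intro x y
    rw [nm_pow hp, nm_pow hp, nm_pow hp]
    exact G_add hp hp1 _ _ _ _
  complete := by
    intro u hu
    have hc : ∀ φ : ℝ × ℝ → ℝ, (∀ z w, φ (z - w) = φ z - φ w) → (∀ z, |φ z| ^ p ≤ nm p z ^ p) →
        CauchySeq (fun i => φ (u i)) := by
      intro φ hφ1 hφ2
      rw [Metric.cauchySeq_iff]
      intro ε hε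
      obtain ⟨K, hK⟩ := hu (ε ^ p) (Real.rpow_pos_of_pos hε p)
      refine ⟨K, fun i hi j hj => ?_⟩
      have h1 := (hφ2 (u i - u j)).trans_lt (hK i hi j hj)
      rw [Real.rpow_lt_rpow_iff (abs_nonneg _) hε.le hp, hφ1] at h1
      rwa [Real.dist_eq]
    obtain ⟨a, ha⟩ := cauchySeq_tendsto_of_complete (hc Prod.fst (fun z w => rfl)
      (fun z => by rw [nm_pow hp]; exact abs_a_le hp hp1 _ _))
    obtain ⟨b, hb⟩ := cauchySeq_tendsto_of_complete (hc Prod.snd (fun z w => rfl)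
      (fun z => by rw [nm_pow hp]; exact abs_b_le hp hp1 _ _))
    refine ⟨(a, b), ?_⟩
    have hlim : Tendsto (fun i => |(u i).1 - a| ^ p + |(u i).2 - b| ^ p) atTop (𝓝 0) := by
      have h1 : Tendsto (fun i => |(u i).1 - a| ^ p) atTop (𝓝 (|a - a| ^ p)) :=
        ((ha.sub_const a).abs).rpow_const (Or.inr hp.le)
      have h2 : Tendsto (fun i => |(u i).2 - b| ^ p) atTop (𝓝 (|b - b| ^ p)) :=
        ((hb.sub_const b).abs).rpow_const (Or.inr hp.le)
      have h3 := h1.add h2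
      simpa [Real.zero_rpow hp.ne'] using h3
    refine squeeze_zero (fun i => by rw [nm_pow hp]; exact G_nonneg _ _ _) (fun i => ?_) hlim
    rw [nm_pow hp]
    have := G_le p ((u i).1 - a) ((u i).2 - b) 0
    simpa [Real.zero_rpow hp.ne'] using this

include hp hp1 in
theorem abs_a_le_nm (z : ℝ × ℝ) : |z.1| ≤ nm p z := by
  have h := abs_a_le hp hp1 z.1 z.2
  rw [← nm_pow hp z] at h
  exact (Real.rpow_le_rpow_iff (abs_nonneg _) (nm_nonneg p z) hp).mp h

include hp hp1 in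
theorem abs_b_le_nm (z : ℝ × ℝ) : |z.2| ≤ nm p z := by
  have h := abs_b_le hp hp1 z.1 z.2
  rw [← nm_pow hp z] at h
  exact (Real.rpow_le_rpow_iff (abs_nonneg _) (nm_nonneg p z) hp).mp h

include hp in
theorem nm_e1 : nm p (1, 0) ≤ 1 := by
  rw [nm_le_iff hp zero_le_one, Real.one_rpow]
  have := G_le p 1 0 0
  simpa [Real.zero_rpow hp.ne'] using this

include hp in
theorem nm_e2 : nm p (0, 1) ≤ 1 := by
  rw [nm_le_iff hp zero_le_one, Real.one_rpow]
  have := G_le p 0 1 0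
  simpa [Real.zero_rpow hp.ne'] using this

include hp in
theorem nm_e3 : nm p (1, 1) ≤ 1 := by
  rw [nm_le_iff hp zero_le_one, Real.one_rpow]
  have := G_le p 1 1 1
  simpa [Real.zero_rpow hp.ne'] using this

include hp hp1 in
/-- If the `p`-norm is at most `C`, one of the three gaps is at most `(2/3)^{1/p} C`. -/
theorem gap (z : ℝ × ℝ) (C η : ℝ) (hC : 0 ≤ C) (hz : nm p z ≤ C) (hη : (2/3 : ℝ) ^ (1/p) * C ≤ η) :
    |z.1| ≤ η ∨ |z.2| ≤ η ∨ |z.1 - z.2| ≤ η := by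
  have h0 : 0 ≤ (2/3 : ℝ) ^ (1/p) * C := by positivity
  have h1 : G p z.1 z.2 ≤ C ^ p := (nm_le_iff hp hC).mp hz
  have h2 := sum_le hp hp1 z.1 z.2
  have h3 : ((2/3 : ℝ) ^ (1/p) * C) ^ p = 2/3 * C ^ p := by
    rw [Real.mul_rpow (by positivity) hC, ← Real.rpow_mul (by norm_num), one_div,
      inv_mul_cancel₀ hp.ne', Real.rpow_one]
  have key : ∀ x : ℝ, |x| ^ p ≤ 2/3 * C ^ p → |x| ≤ η := by
    intro x hx
    rw [← h3] at hx
    exact ((Real.rpow_le_rpow_iff (abs_nonneg _) h0 hp).mp hx).trans hη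
  by_contra hcon
  push Not at hcon
  obtain ⟨c1, c2, c3⟩ := hcon
  have e1 : 2/3 * C ^ p < |z.1| ^ p := by
    by_contra h; exact absurd (key _ (not_lt.mp h)) (not_le.mpr c1)
  have e2 : 2/3 * C ^ p < |z.2| ^ p := by
    by_contra h; exact absurd (key _ (not_lt.mp h)) (not_le.mpr c2)
  have e3 : 2/3 * C ^ p < |z.1 - z.2| ^ p := by
    by_contra h; exact absurd (key _ (not_lt.mp h)) (not_le.mpr c3)
  linarith

end G

/-! ### The trichotomy -/

theorem near_vertex (a b η : ℝ) (hη : η < 1/8)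
    (h1 : |a| ≤ η ∨ |b| ≤ η ∨ |a - b| ≤ η)
    (h2 : |a - 1| ≤ η ∨ |b - 1| ≤ η ∨ |(a - 1) - (b - 1)| ≤ η)
    (h3 : |a| ≤ η ∨ |b - 1| ≤ η ∨ |a - (b - 1)| ≤ η) :
    (|a| ≤ 2 * η ∧ |b| ≤ 2 * η) ∨ (|a - 1| ≤ 2 * η ∧ |b - 1| ≤ 2 * η) ∨
      (|a| ≤ 2 * η ∧ |b - 1| ≤ 2 * η) := by
  simp only [abs_le] at *
  rcases h1 with h1 | h1 | h1 <;> rcases h2 with h2 | h2 | h2 <;> rcases h3 with h3 | h3 | h3 <;>
  first
  | (exfalso; linarith [h1.1, h1.2, h2.1, h2.2, h3.1, h3.2])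
  | (left; constructor <;> constructor <;> linarith [h1.1, h1.2, h2.1, h2.2, h3.1, h3.2])
  | (right; left; constructor <;> constructor <;>
      linarith [h1.1, h1.2, h2.1, h2.2, h3.1, h3.2])
  | (right; right; constructor <;> constructor <;>
      linarith [h1.1, h1.2, h2.1, h2.2, h3.1, h3.2])

end Pool.Agent.V11101.Ext
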