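import Pool.Agent.V11101.Ext

/-!
# Lipschitz extension into p-Banach spaces: the cone over a path, and retractions
-/

open scoped NNReal ENNReal Topology
open Filter

namespace Pool.Agent.V11101.Ext

/-! ### The metric spaces -/

/-- The points of the big space in the plane (with the maximum metric). -/
noncomputable def ptM (m : ℕ) (D : ℝ) : Option (Fin (m + 2)) → ℝ × ℝ
  | none => (1/2, D)
  | some i => ((i : ℕ) / ((m : ℝ) + 1), 0)

/-- The points of the small space. -/
noncomputable def ptN (D : ℝ) : Option Bool → ℝ × ℝ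
  | none => (1/2, D)
  | some b => (if b then 1 else 0, 0)

theorem ptM_inj (m : ℕ) {D : ℝ} (hD : 0 < D) : Function.Injective (ptM m D) := by
  rintro (_ | i) (_ | j) h
  · rfl
  · exact absurd (congrArg Prod.snd h) hD.ne'
  · exact absurd (congrArg Prod.snd h) hD.ne
  · have h1 : ((i : ℕ) : ℝ) / ((m : ℝ) + 1) = ((j : ℕ) : ℝ) / ((m : ℝ) + 1) := congrArg Prod.fst h
    have h2 : ((i : ℕ) : ℝ) = ((j : ℕ) : ℝ) := by
      field_simp at h1
      exact h1
    have h3 : (i : ℕ) = j := by exact_mod_cast h2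
    rw [Fin.ext h3]

theorem ptN_inj {D : ℝ} (hD : 0 < D) : Function.Injective (ptN D) := by
  rintro (_ | i) (_ | j) h
  · rfl
  · exact absurd (congrArg Prod.snd h) hD.ne'
  · exact absurd (congrArg Prod.snd h) hD.ne
  · have h1 : (if i then (1:ℝ) else 0) = if j then 1 else 0 := congrArg Prod.fst h
    cases i <;> cases j <;> simp_all

/-- The metric of the big space. -/
@[reducible] noncomputable def metM (m : ℕ) {D : ℝ} (hD : 0 < D) :
    MetricSpace (Option (Fin (m + 2))) :=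
  MetricSpace.induced (ptM m D) (ptM_inj m hD) inferInstance

/-- The metric of the small space. -/
@[reducible] noncomputable def metN {D : ℝ} (hD : 0 < D) : MetricSpace (Option Bool) :=
  MetricSpace.induced (ptN D) (ptN_inj hD) inferInstance

theorem distM_some (m : ℕ) {D : ℝ} (hD : 0 < D) (i j : Fin (m + 2)) :
    (metM m hD).dist (some i) (some j) = |((i : ℕ) : ℝ) - (j : ℕ)| / ((m : ℝ) + 1) := by
  have h : (metM m hD).dist (some i) (some j) = dist (ptM m D (some i)) (ptM m D (some j)) := rfl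
  rw [h, Prod.dist_eq]
  simp only [ptM, dist_self, Real.dist_eq]
  rw [max_eq_left (abs_nonneg _), ← sub_div, abs_div]
  congr 1
  exact abs_of_pos (by positivity)

theorem distM_none (m : ℕ) {D : ℝ} (hD : 0 < D) (hD1 : 1 ≤ D) (i : Fin (m + 2)) :
    (metM m hD).dist (some i) none = D := by
  have h : (metM m hD).dist (some i) none = dist (ptM m D (some i)) (ptM m D none) := rfl
  rw [h, Prod.dist_eq]
  simp only [ptM, Real.dist_eq, zero_sub, abs_neg]
  have hi : ((i : ℕ) : ℝ) ≤ (m : ℝ) + 1 := by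
    have := i.2
    have h2 : (i : ℕ) ≤ m + 1 := by omega
    exact_mod_cast h2
  have h1 : ((i : ℕ) : ℝ) / ((m : ℝ) + 1) ≤ 1 := by
    rw [div_le_one (by positivity)]; exact hi
  have h0 : 0 ≤ ((i : ℕ) : ℝ) / ((m : ℝ) + 1) := by positivity
  rw [max_eq_right, abs_of_pos hD]
  rw [abs_of_pos hD, abs_le]
  constructor <;> linarith

theorem distM_none' (m : ℕ) {D : ℝ} (hD : 0 < D) (hD1 : 1 ≤ D) (i : Fin (m + 2)) :
    (metM m hD).dist none (some i) = D := by
  exact ((metM m hD).dist_comm _ _).trans (distM_none m hD hD1 i)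

/-- The inclusion. -/
def inc (m : ℕ) : Option Bool → Option (Fin (m + 2))
  | none => none
  | some b => some (if b then Fin.last (m + 1) else 0)

theorem pt_inc (m : ℕ) (D : ℝ) (x : Option Bool) : ptM m D (inc m x) = ptN D x := by
  rcases x with _ | b
  · rfl
  · cases b
    · simp [inc, ptM, ptN]
    · simp only [inc, ptM, ptN, if_true, Fin.val_last]
      have : ((m : ℝ) + 1) ≠ 0 := by positivity
      push_cast
      rw [div_self this]

theorem isometry_inc (m : ℕ) {D : ℝ} (hD : 0 < D) :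
    @Isometry _ _ (metN hD).toPseudoEMetricSpace (metM m hD).toPseudoEMetricSpace (inc m) := by
  let _ := metN hD
  let _ := metM m hD
  refine Isometry.of_dist_eq fun x y => ?_
  show dist (ptM m D (inc m x)) (ptM m D (inc m y)) = dist (ptN D x) (ptN D y)
  rw [pt_inc, pt_inc]

/-- The vertices of the triangle. -/
def vert : Option Bool → ℝ × ℝ
  | none => (0, 1)
  | some b => if b then (1, 1) else (0, 0)

theorem nm_neg' {p : ℝ} (hp : 0 < p) (hp1 : p ≤ 1) (z : ℝ × ℝ) : nm p (-z) = nm p z := by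
  have h := (pBanach_nm hp hp1).smul (-1) z
  rwa [neg_one_smul, abs_neg, abs_one, one_mul] at h

theorem nm_vert {p : ℝ} (hp : 0 < p) (hp1 : p ≤ 1) (x y : Option Bool) (hxy : x ≠ y) :
    nm p (vert x - vert y) ≤ 1 := by
  have e1 := nm_e1 hp
  have e2 := nm_e2 hp
  have e3 := nm_e3 hp
  rcases x with _ | x <;> rcases y with _ | y
  · exact absurd rfl hxy
  · cases y
    · have : vert none - vert (some false) = (0, 1) := by simp [vert]
      rw [this]; exact e2
    · have : vert none - vert (some true) = -(1, 0) := by simp [vert]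
      rw [this, nm_neg' hp hp1]; exact e1
  · cases x
    · have : vert (some false) - vert none = -(0, 1) := by simp [vert]
      rw [this, nm_neg' hp hp1]; exact e2
    · have : vert (some true) - vert none = (1, 0) := by simp [vert]
      rw [this]; exact e1
  · cases x <;> cases y
    · exact absurd rfl hxy
    · have : vert (some false) - vert (some true) = -(1, 1) := by simp [vert]
      rw [this, nm_neg' hp hp1]; exact e3
    · have : vert (some true) - vert (some false) = (1, 1) := by simp [vert]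
      rw [this]; exact e3
    · exact absurd rfl hxy

/-- The main lower estimate. -/
theorem lower {p : ℝ} (hp : 0 < p) (hp1 : p ≤ 1) (m : ℕ) {D : ℝ} (hD : 0 < D) (hD1 : 1 ≤ D)
    (g : Option (Fin (m + 2)) → ℝ × ℝ) (C η : ℝ) (hC : 0 ≤ C)
    (hgv : ∀ x, g (inc m x) = vert x)
    (hg : ∀ x y, x ≠ y → nm p (g x - g y) ≤ C * (metM m hD).dist x y)
    (hη : (2/3 : ℝ) ^ (1/p) * (C * D) ≤ η) (hη8 : η < 1/8) :
    ((m : ℝ) + 1) * (1 - 4 * η) ≤ C := by
  have h0 : g (some 0) = (0, 0) := hgv (some false)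
  have h1 : g (some (Fin.last (m + 1))) = (1, 1) := hgv (some true)
  have h2 : g none = (0, 1) := hgv none
  have hη0 : 0 ≤ η := le_trans (by positivity) hη
  -- all images are close to a vertex
  have hle : ∀ x y, x ≠ y → (metM m hD).dist x y ≤ D → nm p (g x - g y) ≤ C * D := by
    intro x y hxy hd
    exact (hg x y hxy).trans (mul_le_mul_of_nonneg_left hd hC)
  have hCD : 0 ≤ C * D := by positivity
  have hzero : nm p (0 : ℝ × ℝ) ≤ C * D := by
    have h := (pBanach_nm hp hp1).smul 0 (0 : ℝ × ℝ)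
    rw [zero_smul, abs_zero, zero_mul] at h
    rw [h]; exact hCD
  have hle' : ∀ x y, (metM m hD).dist x y ≤ D → nm p (g x - g y) ≤ C * D := by
    intro x y hd
    rcases eq_or_ne x y with rfl | hxy
    · rw [sub_self]; exact hzero
    · exact hle x y hxy hd
  have hdsome : ∀ i j : Fin (m + 2), (metM m hD).dist (some i) (some j) ≤ D := by
    intro i j
    rw [distM_some]
    refine le_trans ?_ hD1
    rw [div_le_one (by positivity), abs_le]
    have hi : ((i : ℕ) : ℝ) ≤ (m : ℝ) + 1 := by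
      have := i.2
      have h2 : (i : ℕ) ≤ m + 1 := by omega
      exact_mod_cast h2
    have hj : ((j : ℕ) : ℝ) ≤ (m : ℝ) + 1 := by
      have := j.2
      have h2 : (j : ℕ) ≤ m + 1 := by omega
      exact_mod_cast h2
    have hi0 : (0 : ℝ) ≤ (i : ℕ) := Nat.cast_nonneg _
    have hj0 : (0 : ℝ) ≤ (j : ℕ) := Nat.cast_nonneg _
    constructor <;> linarith
  have hnear : ∀ i : Fin (m + 2),
      (|(g (some i)).1| ≤ 2 * η ∧ |(g (some i)).2| ≤ 2 * η) ∨
      (|(g (some i)).1 - 1| ≤ 2 * η ∧ |(g (some i)).2 - 1| ≤ 2 * η) ∨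
      (|(g (some i)).1| ≤ 2 * η ∧ |(g (some i)).2 - 1| ≤ 2 * η) := by
    intro i
    have a1 := hle' (some i) (some 0) (hdsome _ _)
    have a2 := hle' (some i) (some (Fin.last (m + 1))) (hdsome _ _)
    have a3 := hle' (some i) none (distM_none m hD hD1 i).le
    rw [h0] at a1
    rw [h1] at a2
    rw [h2] at a3
    have b1 := gap hp hp1 _ (C * D) η hCD a1 hη
    have b2 := gap hp hp1 _ (C * D) η hCD a2 hη
    have b3 := gap hp hp1 _ (C * D) η hCD a3 hη
    simp only [Prod.fst_sub, Prod.snd_sub, sub_zero] at b1 b2 b3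
    exact near_vertex _ _ η hη8 b1 b2 b3
  -- a jump
  obtain ⟨i, hi, hPi, hPi'⟩ : ∃ i : ℕ, ∃ hi : i + 1 < m + 2,
      |(g (some ⟨i, by omega⟩)).2| ≤ 2 * η ∧ ¬ |(g (some ⟨i + 1, hi⟩)).2| ≤ 2 * η := by
    by_contra hcon
    push Not at hcon
    have hall : ∀ i : ℕ, ∀ hi : i < m + 2, |(g (some ⟨i, hi⟩)).2| ≤ 2 * η := by
      intro i
      induction i with
      | zero =>
        intro hi
        have : (⟨0, hi⟩ : Fin (m + 2)) = 0 := rfl
        rw [this, h0]
        simp only [abs_zero]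
        linarith
      | succ i ih =>
        intro hi
        exact hcon i hi (ih (by omega))
    have := hall (m + 1) (by omega)
    have h3 : (⟨m + 1, by omega⟩ : Fin (m + 2)) = Fin.last (m + 1) := rfl
    rw [h3, h1] at this
    simp only [abs_one] at this
    linarith
  have hb : |(g (some ⟨i + 1, hi⟩)).2 - 1| ≤ 2 * η := by
    rcases hnear ⟨i + 1, hi⟩ with h | h | h
    · exact absurd h.2 hPi'
    · exact h.2
    · exact h.2
  have hd := hg (some ⟨i + 1, hi⟩) (some ⟨i, by omega⟩) (by simp)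
  rw [distM_some] at hd
  have habs : |(((⟨i + 1, hi⟩ : Fin (m + 2)) : ℕ) : ℝ) - ((⟨i, by omega⟩ : Fin (m + 2)) : ℕ)| =
      1 := by
    show |((i + 1 : ℕ) : ℝ) - (i : ℕ)| = 1
    push_cast; simp
  have hd' : nm p (g (some ⟨i + 1, hi⟩) - g (some ⟨i, by omega⟩)) ≤ C * (1 / ((m : ℝ) + 1)) := by
    rw [habs] at hd; exact hd
  have h5 := (abs_b_le_nm hp hp1 (g (some ⟨i + 1, hi⟩) - g (some ⟨i, by omega⟩))).trans hd'
  rw [Prod.snd_sub] at h5
  have h6 : 1 - 4 * η ≤ |(g (some ⟨i + 1, hi⟩)).2 - (g (some ⟨i, by omega⟩)).2| := by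
    have e1 := (abs_le.mp hb).1
    have e2 := (abs_le.mp hPi).2
    refine le_trans ?_ (le_abs_self _)
    linarith
  have h7 := h6.trans h5
  have hm : (0:ℝ) < (m : ℝ) + 1 := by positivity
  calc ((m : ℝ) + 1) * (1 - 4 * η) ≤ ((m : ℝ) + 1) * (C * (1 / ((m : ℝ) + 1))) :=
        mul_le_mul_of_nonneg_left h7 hm.le
    _ = C := by field_simp

/-- Lower bound for the trace. -/
theorem trace_ge {p : ℝ} (hp : 0 < p) (hp1 : p ≤ 1) (m : ℕ) {D : ℝ} (hD : 0 < D) (hD1 : 1 ≤ D)
    (hη8 : (2/3 : ℝ) ^ (1/p) * (((m : ℝ) + 1) * D) < 1/8) :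
    ENNReal.ofReal (((m : ℝ) + 1) * (1 - 4 * ((2/3 : ℝ) ^ (1/p) * (((m : ℝ) + 1) * D)))) ≤
      @trace p _ (metM m hD) (Set.range (inc m)) := by
  let _ := metM m hD
  refine le_sInf ?_
  rintro C ⟨hC0, hC⟩
  rcases eq_or_ne C ⊤ with rfl | hCt
  · exact le_top
  set c := C.toReal with hc
  have hCc : C = ENNReal.ofReal c := (ENNReal.ofReal_toReal hCt).symm
  have hc0 : 0 ≤ c := ENNReal.toReal_nonneg
  rw [hCc]
  refine ENNReal.ofReal_le_ofReal ?_
  set η := (2/3 : ℝ) ^ (1/p) * (((m : ℝ) + 1) * D) with hη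
  have hη0 : 0 ≤ η := by positivity
  have hm : (0:ℝ) < (m : ℝ) + 1 := by positivity
  by_cases hcm : (m : ℝ) + 1 < c
  · nlinarith
  push Not at hcm
  -- the map on the small space
  have hinj : Function.Injective (inc m) := by
    let _ := metN hD
    exact (isometry_inc m hD).injective
  let σ : Set.range (inc m) → Option Bool := fun x => x.2.choose
  have hσ : ∀ x : Set.range (inc m), inc m (σ x) = x := fun x => x.2.choose_spec
  let f : Set.range (inc m) → ℝ × ℝ := fun x => vert (σ x)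
  have hN := pBanach_nm hp hp1
  have hflip : lipC (nm p) f ≤ ENNReal.ofReal 1 := by
    refine lipC_le fun x y hxy => ?_
    have hne : σ x ≠ σ y := by
      intro h
      apply hxy
      apply Subtype.ext
      rw [← hσ x, ← hσ y, h]
    have h1 := nm_vert hp hp1 (σ x) (σ y) hne
    have h2 : (1:ℝ) ≤ dist x y := by
      have h3 : dist x y = dist (ptN D (σ x)) (ptN D (σ y)) := by
        rw [← pt_inc m D (σ x), ← pt_inc m D (σ y), hσ, hσ]
        rfl
      rw [h3, Prod.dist_eq]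
      rcases hx : σ x with _ | a <;> rcases hy : σ y with _ | b
      · exact absurd (hx.trans hy.symm) hne
      · refine le_trans ?_ (le_max_right _ _)
        simp only [ptN, Real.dist_eq, sub_zero]
        rw [abs_of_pos hD]; exact hD1
      · refine le_trans ?_ (le_max_right _ _)
        simp only [ptN, Real.dist_eq, zero_sub, abs_neg]
        rw [abs_of_pos hD]; exact hD1
      · refine le_trans ?_ (le_max_left _ _)
        cases a <;> cases b
        · exact absurd (hx.trans hy.symm) hne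
        · simp [ptN]
        · simp [ptN]
        · exact absurd (hx.trans hy.symm) hne
    rw [one_mul]
    exact h1.trans h2
  obtain ⟨g, hg1, hg2⟩ := hC (ℝ × ℝ) (nm p) hN f (hflip.trans_lt ENNReal.ofReal_lt_top)
  have hg3 : lipC (nm p) g ≤ ENNReal.ofReal c := by
    refine hg2.trans ?_
    rw [hCc]
    calc ENNReal.ofReal c * lipC (nm p) f ≤ ENNReal.ofReal c * ENNReal.ofReal 1 :=
          mul_le_mul_right hflip _
      _ = ENNReal.ofReal c := by simp
  refine lower hp hp1 m hD hD1 g c η hc0 ?_ (fun x y hxy => le_lipC hc0 hg3 x y hxy) ?_ hη8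
  · intro x
    have h1 := hg1 ⟨inc m x, ⟨x, rfl⟩⟩
    have h2 : σ ⟨inc m x, ⟨x, rfl⟩⟩ = x := hinj (hσ _)
    rw [h1]
    show vert (σ ⟨inc m x, ⟨x, rfl⟩⟩) = vert x
    rw [h2]
  · rw [hη]
    have h1 : c * D ≤ ((m : ℝ) + 1) * D := mul_le_mul_of_nonneg_right hcm hD.le
    exact mul_le_mul_of_nonneg_left h1 (by positivity)

theorem tendsto_pow : Tendsto (fun p : ℝ => (2/3 : ℝ) ^ (1/p)) (𝓝[>] 0) (𝓝 0) := by
  have h1 : Tendsto (fun x : ℝ => (2/3 : ℝ) ^ x) atTop (𝓝 0) :=
    tendsto_rpow_atTop_of_base_lt_one (2/3) (by norm_num) (by norm_num)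
  have h2 : Tendsto (fun p : ℝ => 1/p) (𝓝[>] 0) atTop := by
    simpa using tendsto_inv_nhdsGT_zero (𝕜 := ℝ)
  exact h1.comp h2

theorem tendsto_lower (m : ℕ) (D : ℝ) :
    Tendsto (fun p : ℝ =>
      ENNReal.ofReal (((m : ℝ) + 1) * (1 - 4 * ((2/3 : ℝ) ^ (1/p) * (((m : ℝ) + 1) * D)))))
      (𝓝[>] 0) (𝓝 ((m : ℝ≥0∞) + 1)) := by
  have h1 : Tendsto (fun p : ℝ =>
      (((m : ℝ) + 1) * (1 - 4 * ((2/3 : ℝ) ^ (1/p) * (((m : ℝ) + 1) * D)))))
      (𝓝[>] 0) (𝓝 (((m : ℝ) + 1) * (1 - 4 * (0 * (((m : ℝ) + 1) * D))))) :=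
    (((tendsto_pow.mul_const _).const_mul 4).const_sub 1).const_mul _
  have h2 := (ENNReal.continuous_ofReal.tendsto _).comp h1
  have h3 : ENNReal.ofReal (((m : ℝ) + 1) * (1 - 4 * (0 * (((m : ℝ) + 1) * D)))) =
      (m : ℝ≥0∞) + 1 := by
    rw [zero_mul, mul_zero, sub_zero, mul_one, ENNReal.ofReal_add (by positivity) zero_le_one]
    simp
  rw [h3] at h2
  exact h2

theorem eventually_small (m : ℕ) (D : ℝ) : ∀ᶠ p : ℝ in 𝓝[>] 0,
    0 < p ∧ p ≤ 1 ∧ (2/3 : ℝ) ^ (1/p) * (((m : ℝ) + 1) * D) < 1/8 := by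
  have h1 : ∀ᶠ p : ℝ in 𝓝[>] 0, 0 < p := self_mem_nhdsWithin
  have h2 : ∀ᶠ p : ℝ in 𝓝[>] 0, p < 1 :=
    (gt_mem_nhds (show (0:ℝ) < 1 by norm_num)).filter_mono nhdsWithin_le_nhds
  have h3 : Tendsto (fun p : ℝ => (2/3 : ℝ) ^ (1/p) * (((m : ℝ) + 1) * D)) (𝓝[>] 0)
      (𝓝 (0 * (((m : ℝ) + 1) * D))) := tendsto_pow.mul_const _
  rw [zero_mul] at h3
  filter_upwards [h1, h2, h3.eventually (gt_mem_nhds (show (0:ℝ) < 1/8 by norm_num))]
    with p a b c
  exact ⟨a, b.le, c⟩

/-- `ae_p` of the three point space tends to infinity. -/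
theorem aeC_tendsto {D : ℝ} (hD : 0 < D) (hD1 : 1 ≤ D) :
    Tendsto (fun p : ℝ => @aeC p (Option Bool) (metN hD)) (𝓝[>] 0) (𝓝 ⊤) := by
  rw [ENNReal.tendsto_nhds_top_iff_nat]
  intro n
  have h1 := tendsto_lower n D
  have h2 : (n : ℝ≥0∞) < (n : ℝ≥0∞) + 1 := ENNReal.lt_add_right (ENNReal.natCast_ne_top n) one_ne_zero
  filter_upwards [h1.eventually (lt_mem_nhds h2), eventually_small n D] with p hp1 hp2
  refine hp1.trans_le ((trace_ge hp2.1 hp2.2.1 n hD hD1 hp2.2.2).trans ?_)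
  unfold aeC
  exact le_iSup_of_le (Option (Fin (n + 2))) (le_iSup_of_le (metM n hD)
    (le_iSup_of_le (inc n) (le_iSup_of_le (isometry_inc n hD) le_rfl)))

/-! ### Retractions -/

section Retraction

variable {M : Type} [MetricSpace M] (A : Set M)

/-- The graph on the complement of `A` with edges of length at most `s`. -/
def gr (s : ℝ) : SimpleGraph {x : M // x ∉ A} where
  Adj u v := u ≠ v ∧ dist (u : M) v ≤ s
  symm := ⟨fun _ _ h => ⟨h.1.symm, by rw [dist_comm]; exact h.2⟩⟩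
  loopless := ⟨fun _ h => h.1 rfl⟩

theorem gr_mono {s t : ℝ} (h : s ≤ t) : gr A s ≤ gr A t := fun _ _ ha => ⟨ha.1, ha.2.trans h⟩

theorem walk_dist {s : ℝ} {u v : {x : M // x ∉ A}} (w : (gr A s).Walk u v) :
    dist (u : M) v ≤ w.length * s := by
  induction w with
  | nil => simp
  | @cons a b c h w ih =>
    rw [SimpleGraph.Walk.length_cons]
    push_cast
    have h1 := h.2
    refine (dist_triangle (a : M) b c).trans ?_
    linarith

theorem chain [Fintype {x : M // x ∉ A}] {m : ℕ} (hm : Fintype.card {x : M // x ∉ A} ≤ m) {s : ℝ}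
    (hs : 0 ≤ s) {u v : {x : M // x ∉ A}} (h : (gr A s).Reachable u v) (a b : M)
    (ha : dist a u ≤ s) (hb : dist b v ≤ s) : dist a b ≤ ((m : ℝ) + 1) * s := by
  classical
  obtain ⟨w, hw⟩ := h.exists_isPath
  have h1 := walk_dist A w
  have h2 := hw.length_lt
  have h3 : w.length + 1 ≤ m := by omega
  have h4 : (w.length : ℝ) + 1 ≤ m := by exact_mod_cast h3
  have h5 := dist_triangle4 a u v b
  rw [dist_comm (v : M) b] at h5
  nlinarith

/-- At level `s` the point `u` is connected to `A`. -/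
def P (u : {x : M // x ∉ A}) (s : ℝ) : Prop :=
  ∃ c, (gr A s).Reachable u c ∧ ∃ n ∈ A, dist n (c : M) ≤ s

/-- The levels. -/
def lev (u : {x : M // x ∉ A}) : Set ℝ := {t | (∃ x y : M, dist x y = t) ∧ P A u t}

/-- The connection level. -/
noncomputable def DD (u : {x : M // x ∉ A}) : ℝ := sInf (lev A u)

/-- The choice predicate. -/
def Q (u : {x : M // x ∉ A}) (n : M) : Prop :=
  n ∈ A ∧ ∃ c : {x : M // x ∉ A}, (gr A (DD A u)).Reachable u c ∧ dist n (c : M) ≤ DD A u

variable {A}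

theorem P_mono {u : {x : M // x ∉ A}} {s t : ℝ} (h : s ≤ t) (hP : P A u s) : P A u t := by
  obtain ⟨c, hc, n, hn, hd⟩ := hP
  exact ⟨c, hc.mono (gr_mono A h), n, hn, hd.trans h⟩

theorem P_congr {u v : {x : M // x ∉ A}} {s : ℝ} (h : (gr A s).Reachable u v) (hP : P A u s) :
    P A v s := by
  obtain ⟨c, hc, n, hn, hd⟩ := hP
  exact ⟨c, h.symm.trans hc, n, hn, hd⟩

theorem exists_retraction [Finite M] (hA : A.Nonempty) (m : ℕ) (hm : Aᶜ.encard ≤ m) :
    ∃ r : M → M, (∀ x, r x ∈ A) ∧ (∀ x ∈ A, r x = x) ∧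
      ∀ x y, dist (r x) (r y) ≤ ((m : ℝ) + 1) * dist x y := by
  classical
  have := Fintype.ofFinite {x : M // x ∉ A}
  have hcard : Fintype.card {x : M // x ∉ A} ≤ m := by
    have h1 : Aᶜ.encard = ENat.card {x : M // x ∉ A} := rfl
    rw [h1, ENat.card_eq_coe_fintype_card] at hm
    exact_mod_cast hm
  have hlevfin : ∀ u : {x : M // x ∉ A}, (lev A u).Finite := by
    intro u
    refine (Set.finite_range (fun p : M × M => dist p.1 p.2)).subset ?_
    rintro t ⟨⟨x, y, rfl⟩, _⟩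
    exact ⟨(x, y), rfl⟩
  have hlevne : ∀ u : {x : M // x ∉ A}, (lev A u).Nonempty := by
    intro u
    obtain ⟨n, hn⟩ := hA
    exact ⟨dist n (u : M), ⟨n, u, rfl⟩, u, SimpleGraph.Reachable.refl _, n, hn, le_rfl⟩
  have hDmem : ∀ u : {x : M // x ∉ A}, DD A u ∈ lev A u := fun u =>
    (hlevne u).csInf_mem (hlevfin u)
  have hDle : ∀ (u : {x : M // x ∉ A}) (t : ℝ), t ∈ lev A u → DD A u ≤ t := fun u t ht =>
    csInf_le (hlevfin u).bddBelow ht
  have hQex : ∀ u : {x : M // x ∉ A}, ∃ n, Q A u n := by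
    intro u
    obtain ⟨_, c, hc, n, hn, hd⟩ := hDmem u
    exact ⟨n, hn, c, hc, hd⟩
  have : Nonempty M := ⟨hA.some⟩
  let r : M → M := fun x => if h : x ∈ A then x else Classical.epsilon (Q A ⟨x, h⟩)
  have hrA : ∀ x ∈ A, r x = x := fun x hx => dif_pos hx
  have hrU : ∀ u : {x : M // x ∉ A}, r u = Classical.epsilon (Q A u) := fun u => dif_neg u.2
  have hrQ : ∀ u : {x : M // x ∉ A}, Q A u (r u) := by
    intro u
    rw [hrU]
    exact Classical.epsilon_spec (hQex u)
  refine ⟨r, ?_, hrA, ?_⟩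
  · intro x
    by_cases h : x ∈ A
    · rw [hrA x h]; exact h
    · exact (hrQ ⟨x, h⟩).1
  -- mixed case
  have hmixed : ∀ (u : {x : M // x ∉ A}) (y : M), y ∈ A →
      dist (r u) y ≤ ((m : ℝ) + 1) * dist (u : M) y := by
    intro u y hy
    have hP : P A u (dist (u : M) y) :=
      ⟨u, SimpleGraph.Reachable.refl _, y, hy, (dist_comm y u).le⟩
    have hD := hDle u _ ⟨⟨u, y, rfl⟩, hP⟩
    obtain ⟨_, c, hc, hd⟩ := hrQ u
    exact chain A hcard dist_nonneg (hc.mono (gr_mono A hD)).symm (r u) y (hd.trans hD)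
      (dist_comm y u).le
  -- both outside, one level above
  have hsame : ∀ u v : {x : M // x ∉ A}, u ≠ v → dist (u : M) v < DD A u → r u = r v := by
    intro u v huv hlt
    have hadj : ∀ t, dist (u : M) v ≤ t → (gr A t).Reachable u v := fun t ht =>
      SimpleGraph.Adj.reachable (G := gr A t) ⟨huv, ht⟩
    have hnot : ¬ P A u (dist (u : M) v) := fun hP =>
      absurd (hDle u _ ⟨⟨u, v, rfl⟩, hP⟩) (not_le.mpr hlt)
    have hiff : ∀ t, P A u t ↔ P A v t := by
      intro t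
      rcases le_total (dist (u : M) v) t with ht | ht
      · exact ⟨P_congr (hadj t ht), P_congr (hadj t ht).symm⟩
      · constructor
        · intro h
          exact absurd (P_mono ht h) hnot
        · intro h
          exact absurd (P_congr (hadj _ le_rfl).symm (P_mono ht h)) hnot
    have hlev : lev A u = lev A v := by
      ext t
      exact and_congr_right fun _ => hiff t
    have hDD : DD A u = DD A v := by unfold DD; rw [hlev]
    have hQQ : Q A u = Q A v := by
      funext n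
      apply propext
      unfold Q
      rw [← hDD]
      refine and_congr_right fun _ => exists_congr fun c => and_congr_left fun _ => ?_
      exact ⟨fun h => (hadj _ hlt.le).symm.trans h, fun h => (hadj _ hlt.le).trans h⟩
    rw [hrU, hrU, hQQ]
  intro x y
  by_cases hx : x ∈ A <;> by_cases hy : y ∈ A
  · rw [hrA x hx, hrA y hy]
    have : (0:ℝ) ≤ m := Nat.cast_nonneg m
    nlinarith [dist_nonneg (x := x) (y := y)]
  · rw [hrA x hx, dist_comm, dist_comm x y]
    exact hmixed ⟨y, hy⟩ x hx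
  · rw [hrA y hy]
    exact hmixed ⟨x, hx⟩ y hy
  · rcases eq_or_ne x y with rfl | hxy
    · simp
    have huv : (⟨x, hx⟩ : {x : M // x ∉ A}) ≠ ⟨y, hy⟩ := fun h => hxy (congrArg Subtype.val h)
    rcases lt_or_ge (dist x y) (DD A ⟨x, hx⟩) with h1 | h1
    · have : r x = r y := hsame ⟨x, hx⟩ ⟨y, hy⟩ huv h1
      rw [this, dist_self]; positivity
    rcases lt_or_ge (dist x y) (DD A ⟨y, hy⟩) with h2 | h2
    · have : r y = r x := hsame ⟨y, hy⟩ ⟨x, hx⟩ huv.symm (by rw [dist_comm]; exact h2)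
      rw [this, dist_self]; positivity
    obtain ⟨_, c, hc, hd⟩ := hrQ ⟨x, hx⟩
    obtain ⟨_, c', hc', hd'⟩ := hrQ ⟨y, hy⟩
    have hadj : (gr A (dist x y)).Reachable ⟨x, hx⟩ ⟨y, hy⟩ :=
      SimpleGraph.Adj.reachable (G := gr A (dist x y)) ⟨huv, le_rfl⟩
    have hreach : (gr A (dist x y)).Reachable c c' :=
      (hc.mono (gr_mono A h1)).symm.trans (hadj.trans (hc'.mono (gr_mono A h2)))
    exact chain A hcard dist_nonneg hreach (r x) (r y) (hd.trans h1) (hd'.trans h2)

/-- Upper bound for the trace. -/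
theorem trace_le {p : ℝ} {B : Set M} (hfin : B.Finite) (hB : B.Nonempty) (m : ℕ)
    (hm : Bᶜ.encard ≤ m) : trace p B ≤ (m : ℝ≥0∞) + 1 := by
  have hfinM : Finite M := by
    have h1 : (Bᶜ).Finite := Set.finite_of_encard_le_coe hm
    have h2 : (Set.univ : Set M).Finite := by
      rw [← Set.union_compl_self B]; exact hfin.union h1
    exact Set.finite_univ_iff.mp h2
  obtain ⟨r, hr1, hr2, hr3⟩ := exists_retraction hB m hm
  refine sInf_le ⟨by positivity, ?_⟩
  intro Z _ _ N hN f _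
  refine ⟨fun x => f ⟨r x, hr1 x⟩, fun x => ?_, ?_⟩
  · exact congrArg f (Subtype.ext (hr2 x x.2))
  · have hN0 : N 0 = 0 := by
      have := hN.smul 0 0
      simpa using this
    refine iSup_le fun x => iSup_le fun y => iSup_le fun hxy => ?_
    rcases eq_or_ne (r x) (r y) with h | h
    · have h1 : f ⟨r x, hr1 x⟩ - f ⟨r y, hr1 y⟩ = 0 := by
        have : (⟨r x, hr1 x⟩ : B) = ⟨r y, hr1 y⟩ := Subtype.ext h
        rw [this, sub_self]
      rw [h1, hN0, zero_div, ENNReal.ofReal_zero]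
      exact zero_le
    · have hne : (⟨r x, hr1 x⟩ : B) ≠ ⟨r y, hr1 y⟩ := fun h' => h (congrArg Subtype.val h')
      have h1 : ENNReal.ofReal (N (f ⟨r x, hr1 x⟩ - f ⟨r y, hr1 y⟩) / dist (r x) (r y)) ≤
          lipC N f :=
        le_iSup_of_le (⟨r x, hr1 x⟩ : B) (le_iSup_of_le ⟨r y, hr1 y⟩ (le_iSup_of_le hne le_rfl))
      refine le_trans ?_ (mul_le_mul_right h1 _)
      have h2 : (m : ℝ≥0∞) + 1 = ENNReal.ofReal ((m : ℝ) + 1) := by
        rw [ENNReal.ofReal_add (by positivity) zero_le_one]; simp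
      rw [h2, ← ENNReal.ofReal_mul (by positivity)]
      refine ENNReal.ofReal_le_ofReal ?_
      have hd1 : 0 < dist x y := dist_pos.mpr hxy
      have hd2 : 0 < dist (r x) (r y) := dist_pos.mpr h
      have hd3 := hr3 x y
      rw [div_le_iff₀ hd1]
      have h3 : N (f ⟨r x, hr1 x⟩ - f ⟨r y, hr1 y⟩) =
          N (f ⟨r x, hr1 x⟩ - f ⟨r y, hr1 y⟩) / dist (r x) (r y) * dist (r x) (r y) := by
        field_simp
      have h4 : 0 ≤ N (f ⟨r x, hr1 x⟩ - f ⟨r y, hr1 y⟩) / dist (r x) (r y) :=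
        div_nonneg (hN.nonneg _) hd2.le
      calc N (f ⟨r x, hr1 x⟩ - f ⟨r y, hr1 y⟩)
          = N (f ⟨r x, hr1 x⟩ - f ⟨r y, hr1 y⟩) / dist (r x) (r y) * dist (r x) (r y) := h3
        _ ≤ N (f ⟨r x, hr1 x⟩ - f ⟨r y, hr1 y⟩) / dist (r x) (r y) *
            (((m : ℝ) + 1) * dist x y) := mul_le_mul_of_nonneg_left hd3 h4
        _ = _ := by ring

end Retraction

end Pool.Agent.V11101.Ext
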