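import Mathlib

/-!
# Lipschitz functions vanishing at a base point and Lipschitz-free spaces
-/

open scoped NNReal Topology

namespace Pool.Agent.V11101.LF

universe u

/-- The linear space of Lipschitz functions on `M` vanishing at `o`. -/
def lipSub (M : Type u) [MetricSpace M] (o : M) : Submodule ℝ (M → ℝ) where
  carrier := {f | f o = 0 ∧ ∃ K : ℝ≥0, LipschitzWith K f}
  zero_mem' := ⟨rfl, 0, LipschitzWith.const 0⟩
  add_mem' := by
    rintro f g ⟨hf, K, hK⟩ ⟨hg, L, hL⟩
    exact ⟨by simp [hf, hg], K + L, hK.add hL⟩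
  smul_mem' := by
    rintro c f ⟨hf, K, hK⟩
    refine ⟨by simp [hf], ‖c‖₊ * K, ?_⟩
    refine LipschitzWith.of_dist_le_mul fun x y => ?_
    have h := hK.dist_le_mul x y
    rw [Real.dist_eq] at h
    rw [Real.dist_eq]
    simp only [Pi.smul_apply, smul_eq_mul, ← mul_sub, abs_mul, NNReal.coe_mul, coe_nnnorm,
      Real.norm_eq_abs]
    nlinarith [abs_nonneg c]

/-- `Lip_0(M)`: the real Lipschitz functions on the pointed metric space `(M, o)` vanishing at
the base point `o`. It is normed by the Lipschitz constant below. -/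
def Lip0 (M : Type u) [MetricSpace M] (o : M) : Type u := lipSub M o

variable {M : Type u} [MetricSpace M] {o : M}

instance : AddCommGroup (Lip0 M o) := (lipSub M o).addCommGroup
instance : Module ℝ (Lip0 M o) := (lipSub M o).module

/-- The underlying function. -/
def Lip0.fn (f : Lip0 M o) : M → ℝ := f.1

instance : CoeFun (Lip0 M o) (fun _ => M → ℝ) := ⟨Lip0.fn⟩

theorem Lip0.map_base (f : Lip0 M o) : f o = 0 := f.2.1

theorem Lip0.lip (f : Lip0 M o) : ∃ K : ℝ≥0, LipschitzWith K f := f.2.2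

theorem Lip0.ext {f g : Lip0 M o} (h : ∀ x, f x = g x) : f = g := Subtype.ext (funext h)

theorem Lip0.add_apply (f g : Lip0 M o) (x : M) : (f + g) x = f x + g x := rfl
theorem Lip0.sub_apply (f g : Lip0 M o) (x : M) : (f - g) x = f x - g x := rfl
theorem Lip0.neg_apply (f : Lip0 M o) (x : M) : (-f) x = -f x := rfl
theorem Lip0.smul_apply (c : ℝ) (f : Lip0 M o) (x : M) : (c • f) x = c * f x := rfl
theorem Lip0.zero_apply (x : M) : (0 : Lip0 M o) x = 0 := rfl

/-- The Lipschitz constant `sup |f x - f y| / d(x,y)`. -/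
noncomputable instance : Norm (Lip0 M o) :=
  ⟨fun f => ⨆ p : M × M, |f p.1 - f p.2| / dist p.1 p.2⟩

theorem Lip0.norm_def (f : Lip0 M o) : ‖f‖ = ⨆ p : M × M, |f p.1 - f p.2| / dist p.1 p.2 := rfl

theorem Lip0.bdd (f : Lip0 M o) :
    BddAbove (Set.range fun p : M × M => |f p.1 - f p.2| / dist p.1 p.2) := by
  obtain ⟨K, hK⟩ := f.lip
  refine ⟨K, ?_⟩
  rintro _ ⟨p, rfl⟩
  have h := hK.dist_le_mul p.1 p.2
  rw [Real.dist_eq] at h
  exact div_le_of_le_mul₀ dist_nonneg K.2 h

theorem Lip0.abs_sub_le (f : Lip0 M o) (x y : M) : |f x - f y| ≤ ‖f‖ * dist x y := by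
  rcases eq_or_ne x y with rfl | hxy
  · simp
  have h1 : 0 < dist x y := dist_pos.mpr hxy
  have h2 : |f x - f y| / dist x y ≤ ‖f‖ := le_ciSup f.bdd (x, y)
  exact (div_le_iff₀ h1).mp h2

theorem Lip0.norm_le {f : Lip0 M o} {K : ℝ} (hK : 0 ≤ K)
    (h : ∀ x y, |f x - f y| ≤ K * dist x y) : ‖f‖ ≤ K := by
  have : Nonempty (M × M) := ⟨(o, o)⟩
  exact ciSup_le fun p => div_le_of_le_mul₀ dist_nonneg hK (h p.1 p.2)

theorem Lip0.norm_nonneg' (f : Lip0 M o) : 0 ≤ ‖f‖ := by
  have : 0 ≤ |f o - f o| / dist o o := by positivity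
  exact this.trans (le_ciSup f.bdd (o, o))

theorem Lip0.abs_apply_le (f : Lip0 M o) (x : M) : |f x| ≤ ‖f‖ * dist x o := by
  have := f.abs_sub_le x o
  rwa [f.map_base, sub_zero] at this

theorem Lip0.core : NormedSpace.Core ℝ (Lip0 M o) where
  norm_nonneg := Lip0.norm_nonneg'
  norm_smul c f := by
    apply le_antisymm
    · refine Lip0.norm_le (mul_nonneg (norm_nonneg _) f.norm_nonneg') fun x y => ?_
      rw [Lip0.smul_apply, Lip0.smul_apply, ← mul_sub, abs_mul, Real.norm_eq_abs, mul_assoc]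
      exact mul_le_mul_of_nonneg_left (f.abs_sub_le x y) (abs_nonneg _)
    · rcases eq_or_ne c 0 with rfl | hc
      · rw [norm_zero, zero_mul]; exact Lip0.norm_nonneg' _
      have hc' : 0 < ‖c‖ := norm_pos_iff.mpr hc
      rw [← le_div_iff₀' hc']
      refine Lip0.norm_le (div_nonneg (Lip0.norm_nonneg' _) hc'.le) fun x y => ?_
      rw [div_mul_eq_mul_div, le_div_iff₀ hc', mul_comm, Real.norm_eq_abs, ← abs_mul]
      have := (c • f).abs_sub_le x y
      rwa [Lip0.smul_apply, Lip0.smul_apply, ← mul_sub] at this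
  norm_triangle f g := by
    refine Lip0.norm_le (add_nonneg f.norm_nonneg' g.norm_nonneg') fun x y => ?_
    rw [Lip0.add_apply, Lip0.add_apply, add_sub_add_comm, add_mul]
    exact (abs_add_le _ _).trans (add_le_add (f.abs_sub_le x y) (g.abs_sub_le x y))
  norm_eq_zero_iff f := by
    constructor
    · intro h
      refine Lip0.ext fun x => ?_
      have := f.abs_apply_le x
      rw [h, zero_mul] at this
      exact abs_nonpos_iff.mp this
    · rintro rfl
      refine le_antisymm (Lip0.norm_le le_rfl fun x y => ?_) (Lip0.norm_nonneg' _)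
      simp [Lip0.zero_apply]

noncomputable instance : NormedAddCommGroup (Lip0 M o) := NormedAddCommGroup.ofCore Lip0.core
noncomputable instance : NormedSpace ℝ (Lip0 M o) := NormedSpace.ofCore Lip0.core

/-- Constructor from a Lipschitz function vanishing at the base point. -/
def Lip0.mk' (f : M → ℝ) (h0 : f o = 0) (K : ℝ) (hK : ∀ x y, |f x - f y| ≤ K * dist x y) :
    Lip0 M o :=
  ⟨f, h0, K.toNNReal, LipschitzWith.of_dist_le_mul fun x y => by
    rw [Real.dist_eq]
    exact (hK x y).trans (mul_le_mul_of_nonneg_right (Real.le_coe_toNNReal K) dist_nonneg)⟩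

theorem Lip0.mk'_apply (f : M → ℝ) (h0 : f o = 0) (K : ℝ)
    (hK : ∀ x y, |f x - f y| ≤ K * dist x y) (x : M) : (Lip0.mk' f h0 K hK : Lip0 M o) x = f x :=
  rfl

/-- The dual space of `Lip_0(M)`. -/
def DualLip (M : Type u) [MetricSpace M] (o : M) : Type u := StrongDual ℝ (Lip0 M o)

noncomputable instance : NormedAddCommGroup (DualLip M o) :=
  ContinuousLinearMap.toNormedAddCommGroup (E := Lip0 M o) (F := ℝ) (σ₁₂ := RingHom.id ℝ)
noncomputable instance : NormedSpace ℝ (DualLip M o) :=
  ContinuousLinearMap.toNormedSpace (E := Lip0 M o) (F := ℝ) (σ₁₂ := RingHom.id ℝ)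
instance : CompleteSpace (DualLip M o) :=
  inferInstanceAs (CompleteSpace (StrongDual ℝ (Lip0 M o)))

/-- The underlying functional. -/
def DualLip.toCLM (m : DualLip M o) : Lip0 M o →L[ℝ] ℝ := m

/-- The value of a functional on `Lip_0(M)`. -/
noncomputable def DualLip.app (m : DualLip M o) (f : Lip0 M o) : ℝ := m.toCLM f

theorem DualLip.ext {m n : DualLip M o} (h : ∀ f, m.app f = n.app f) : m = n :=
  ContinuousLinearMap.ext h

theorem DualLip.add_app (m n : DualLip M o) (f : Lip0 M o) : (m + n).app f = m.app f + n.app f :=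
  rfl
theorem DualLip.sub_app (m n : DualLip M o) (f : Lip0 M o) : (m - n).app f = m.app f - n.app f :=
  rfl
theorem DualLip.smul_app (c : ℝ) (m : DualLip M o) (f : Lip0 M o) : (c • m).app f = c * m.app f :=
  rfl
theorem DualLip.zero_app (f : Lip0 M o) : (0 : DualLip M o).app f = 0 := rfl

theorem DualLip.app_add (m : DualLip M o) (f g : Lip0 M o) : m.app (f + g) = m.app f + m.app g :=
  map_add m.toCLM f g
theorem DualLip.app_smul (c : ℝ) (m : DualLip M o) (f : Lip0 M o) :
    m.app (c • f) = c * m.app f := map_smul m.toCLM c f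

theorem DualLip.abs_app_le (m : DualLip M o) (f : Lip0 M o) : |m.app f| ≤ ‖m‖ * ‖f‖ :=
  m.toCLM.le_opNorm f

theorem DualLip.norm_le {m : DualLip M o} {C : ℝ} (hC : 0 ≤ C)
    (h : ∀ f : Lip0 M o, |m.app f| ≤ C * ‖f‖) : ‖m‖ ≤ C :=
  ContinuousLinearMap.opNorm_le_bound _ hC h

/-- Evaluation at `x`, an element of `Lip_0(M)*`. -/
noncomputable def evalAt (o : M) (x : M) : DualLip M o :=
  LinearMap.mkContinuous
    { toFun := fun f => f x
      map_add' := fun f g => rfl
      map_smul' := fun c f => rfl } (dist x o) (fun f => by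
      rw [mul_comm]
      exact f.abs_apply_le x)

theorem evalAt_app (x : M) (f : Lip0 M o) : (evalAt o x).app f = f x := rfl

/-- The closed linear span of the evaluations in `Lip_0(M)*`. -/
noncomputable def freeSpace (M : Type u) [MetricSpace M] (o : M) :
    Submodule ℝ (DualLip M o) :=
  (Submodule.span ℝ (Set.range (evalAt o))).topologicalClosure

/-- The Lipschitz-free space of `(M, o)`: the closed linear span of the evaluations in
`Lip_0(M)*`, with the norm of `Lip_0(M)*`. -/
def Free (M : Type u) [MetricSpace M] (o : M) : Type u := freeSpace M o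

noncomputable instance : NormedAddCommGroup (Free M o) :=
  Submodule.normedAddCommGroup (freeSpace M o)
noncomputable instance : NormedSpace ℝ (Free M o) :=
  Submodule.normedSpace (freeSpace M o)
instance : CompleteSpace (Free M o) :=
  (Submodule.isClosed_topologicalClosure _).completeSpace_coe

/-- The pairing of an element of the free space with a Lipschitz function. -/
noncomputable def Free.app (m : Free M o) (f : Lip0 M o) : ℝ := m.1.app f

theorem Free.ext {m n : Free M o} (h : ∀ f, m.app f = n.app f) : m = n :=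
  Subtype.ext (DualLip.ext h)

theorem Free.add_app (m n : Free M o) (f : Lip0 M o) : (m + n).app f = m.app f + n.app f := rfl
theorem Free.sub_app (m n : Free M o) (f : Lip0 M o) : (m - n).app f = m.app f - n.app f := rfl
theorem Free.smul_app (c : ℝ) (m : Free M o) (f : Lip0 M o) : (c • m).app f = c * m.app f := rfl
theorem Free.zero_app (f : Lip0 M o) : (0 : Free M o).app f = 0 := rfl
theorem Free.app_add (m : Free M o) (f g : Lip0 M o) : m.app (f + g) = m.app f + m.app g :=
  DualLip.app_add m.1 f g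
theorem Free.app_smul (c : ℝ) (m : Free M o) (f : Lip0 M o) :
    m.app (c • f) = c * m.app f := DualLip.app_smul c m.1 f
theorem Free.abs_app_le (m : Free M o) (f : Lip0 M o) : |m.app f| ≤ ‖m‖ * ‖f‖ :=
  DualLip.abs_app_le m.1 f
theorem Free.norm_le {m : Free M o} {C : ℝ} (hC : 0 ≤ C)
    (h : ∀ f : Lip0 M o, |m.app f| ≤ C * ‖f‖) : ‖m‖ ≤ C := DualLip.norm_le hC h

/-- The pairing as a bounded functional on the free space. -/
noncomputable def pair (f : Lip0 M o) : Free M o →L[ℝ] ℝ :=
  LinearMap.mkContinuous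
    { toFun := fun m => m.app f
      map_add' := fun _ _ => rfl
      map_smul' := fun _ _ => rfl } ‖f‖ (fun m => by
      rw [mul_comm]; exact m.abs_app_le f)

theorem pair_apply (f : Lip0 M o) (m : Free M o) : pair f m = m.app f := rfl

/-- The canonical map `M → F(M)`. -/
noncomputable def delta (o : M) (x : M) : Free M o :=
  ⟨evalAt o x, Submodule.le_topologicalClosure _ (Submodule.subset_span ⟨x, rfl⟩)⟩

theorem delta_app (x : M) (f : Lip0 M o) : (delta o x).app f = f x := rfl

theorem delta_base : delta o o = 0 := Free.ext fun f => f.map_base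

/-- The inclusion of the free space into `Lip_0(M)*`. -/
def incl (M : Type u) [MetricSpace M] (o : M) : Free M o →ₗ[ℝ] DualLip M o where
  toFun m := m.1
  map_add' _ _ := rfl
  map_smul' _ _ := rfl

/-- The span of the point evaluations is dense in the free space. -/
theorem dense_delta : (Submodule.span ℝ (Set.range (delta o))).topologicalClosure = ⊤ := by
  rw [eq_top_iff]
  intro m _
  have h1 : m.1 ∈ closure (Submodule.span ℝ (Set.range (evalAt o)) : Set (DualLip M o)) := m.2
  show m ∈ closure ((Submodule.span ℝ (Set.range (delta o)) : Submodule ℝ (Free M o)) :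
    Set (Free M o))
  rw [Metric.mem_closure_iff] at h1 ⊢
  intro ε hε
  obtain ⟨b, hb, hd⟩ := h1 ε hε
  have hmap : Submodule.span ℝ (Set.range (evalAt o)) ≤
      (Submodule.span ℝ (Set.range (delta o))).map (incl M o) := by
    rw [Submodule.span_le]
    rintro _ ⟨x, rfl⟩
    exact ⟨delta o x, Submodule.subset_span ⟨x, rfl⟩, rfl⟩
  obtain ⟨c, hc, rfl⟩ := hmap hb
  exact ⟨c, hc, hd⟩

/-- Induction principle: a closed subspace containing all `δ x` is everything. -/
theorem mem_of_closed (W : Submodule ℝ (Free M o)) (hW : IsClosed (W : Set (Free M o)))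
    (h : ∀ x, delta o x ∈ W) (m : Free M o) : m ∈ W := by
  have h1 : Submodule.span ℝ (Set.range (delta o)) ≤ W := by
    rw [Submodule.span_le]
    rintro _ ⟨x, rfl⟩
    exact h x
  have h2 := Submodule.topologicalClosure_minimal _ h1 hW
  rw [dense_delta] at h2
  exact h2 Submodule.mem_top

theorem norm_delta_sub_le (x y : M) : ‖delta o x - delta o y‖ ≤ dist x y := by
  refine Free.norm_le dist_nonneg fun f => ?_
  rw [Free.sub_app, delta_app, delta_app, mul_comm]
  exact f.abs_sub_le x y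

theorem norm_delta_sub (x y : M) : ‖delta o x - delta o y‖ = dist x y := by
  refine le_antisymm (norm_delta_sub_le x y) ?_
  rcases eq_or_ne x y with rfl | hxy
  · simp
  let f : Lip0 M o := Lip0.mk' (fun z => dist z y - dist o y) (sub_self _) 1 (fun z w => by
    rw [one_mul, sub_sub_sub_cancel_right]
    exact abs_dist_sub_le z w y)
  have hf : ‖f‖ ≤ 1 := Lip0.norm_le zero_le_one fun z w => by
    rw [one_mul]
    show |(dist z y - dist o y) - (dist w y - dist o y)| ≤ _
    rw [sub_sub_sub_cancel_right]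
    exact abs_dist_sub_le z w y
  have h1 : (delta o x - delta o y).app f = dist x y := by
    show (dist x y - dist o y) - (dist y y - dist o y) = dist x y
    rw [dist_self]; ring
  have h2 := (delta o x - delta o y).abs_app_le f
  rw [h1, abs_of_nonneg dist_nonneg] at h2
  calc dist x y ≤ ‖delta o x - delta o y‖ * ‖f‖ := h2
    _ ≤ ‖delta o x - delta o y‖ * 1 := mul_le_mul_of_nonneg_left hf (norm_nonneg _)
    _ = _ := mul_one _

theorem norm_delta (x : M) : ‖delta o x‖ = dist x o := by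
  have := norm_delta_sub (o := o) x o
  rwa [delta_base, sub_zero] at this

/-! ### Functoriality -/

section Map

variable {N : Type u} [MetricSpace N]

/-- Composition with a `K`-Lipschitz map preserving the base point. -/
noncomputable def Lip0.comp {q : N} (f : Lip0 N q) (ρ : M → N) (h0 : ρ o = q) (K : ℝ) (hK : 0 ≤ K)
    (hρ : ∀ x y, dist (ρ x) (ρ y) ≤ K * dist x y) : Lip0 M o :=
  Lip0.mk' (fun x => f (ρ x)) (by rw [h0, f.map_base]) (‖f‖ * K) (fun x y => by
    rw [mul_assoc]
    exact (f.abs_sub_le _ _).trans (mul_le_mul_of_nonneg_left (hρ x y) (norm_nonneg _)))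

theorem Lip0.norm_comp_le {q : N} (f : Lip0 N q) (ρ : M → N) (h0 : ρ o = q) (K : ℝ) (hK : 0 ≤ K)
    (hρ : ∀ x y, dist (ρ x) (ρ y) ≤ K * dist x y) : ‖f.comp ρ h0 K hK hρ‖ ≤ ‖f‖ * K :=
  Lip0.norm_le (mul_nonneg (norm_nonneg _) hK) fun x y => by
    rw [mul_assoc]
    exact (f.abs_sub_le _ _).trans (mul_le_mul_of_nonneg_left (hρ x y) (norm_nonneg _))

/-- Composition as an operator. -/
noncomputable def compOp {q : N} (ρ : M → N) (h0 : ρ o = q) (K : ℝ) (hK : 0 ≤ K)
    (hρ : ∀ x y, dist (ρ x) (ρ y) ≤ K * dist x y) : Lip0 N q →L[ℝ] Lip0 M o :=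
  LinearMap.mkContinuous
    { toFun := fun f => f.comp ρ h0 K hK hρ
      map_add' := fun f g => rfl
      map_smul' := fun c f => rfl } K (fun f => by
      rw [mul_comm]; exact f.norm_comp_le ρ h0 K hK hρ)

/-- The adjoint of the composition operator. -/
noncomputable def dualMap {q : N} (ρ : M → N) (h0 : ρ o = q) (K : ℝ) (hK : 0 ≤ K)
    (hρ : ∀ x y, dist (ρ x) (ρ y) ≤ K * dist x y) : DualLip M o →L[ℝ] DualLip N q :=
  LinearMap.mkContinuous
    { toFun := fun m =>
        (m.toCLM.comp (compOp ρ h0 K hK hρ) : Lip0 N q →L[ℝ] ℝ)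
      map_add' := fun m n => rfl
      map_smul' := fun c m => rfl } K (fun m => by
      refine DualLip.norm_le (mul_nonneg hK (norm_nonneg _)) fun f => ?_
      have h1 := m.abs_app_le (f.comp ρ h0 K hK hρ)
      have h2 := mul_le_mul_of_nonneg_left (f.norm_comp_le ρ h0 K hK hρ) (norm_nonneg m)
      calc |m.app (f.comp ρ h0 K hK hρ)| ≤ ‖m‖ * (‖f‖ * K) := h1.trans h2
        _ = K * ‖m‖ * ‖f‖ := by ring)

theorem dualMap_evalAt {q : N} (ρ : M → N) (h0 : ρ o = q) (K : ℝ) (hK : 0 ≤ K)
    (hρ : ∀ x y, dist (ρ x) (ρ y) ≤ K * dist x y) (x : M) :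
    dualMap ρ h0 K hK hρ (evalAt o x) = evalAt q (ρ x) := rfl

theorem dualMap_mem {q : N} (ρ : M → N) (h0 : ρ o = q) (K : ℝ) (hK : 0 ≤ K)
    (hρ : ∀ x y, dist (ρ x) (ρ y) ≤ K * dist x y) (m : DualLip M o) (hm : m ∈ freeSpace M o) :
    dualMap ρ h0 K hK hρ m ∈ freeSpace N q := by
  have h : Submodule.span ℝ (Set.range (evalAt o)) ≤
      (freeSpace N q).comap (dualMap ρ h0 K hK hρ : DualLip M o →ₗ[ℝ] DualLip N q) := by
    rw [Submodule.span_le]
    rintro _ ⟨x, rfl⟩
    exact Submodule.le_topologicalClosure _ (Submodule.subset_span ⟨ρ x, rfl⟩)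
  have hcl : IsClosed ((freeSpace N q).comap
      (dualMap ρ h0 K hK hρ : DualLip M o →ₗ[ℝ] DualLip N q) : Set (DualLip M o)) :=
    (Submodule.isClosed_topologicalClosure _).preimage (dualMap ρ h0 K hK hρ).continuous
  exact Submodule.topologicalClosure_minimal _ h hcl hm

/-- The operator `F(M) → F(N)` induced by a Lipschitz map preserving base points. -/
noncomputable def map {q : N} (ρ : M → N) (h0 : ρ o = q) (K : ℝ) (hK : 0 ≤ K)
    (hρ : ∀ x y, dist (ρ x) (ρ y) ≤ K * dist x y) : Free M o →L[ℝ] Free N q :=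
  LinearMap.mkContinuous
    { toFun := fun m => ⟨dualMap ρ h0 K hK hρ m.1, dualMap_mem ρ h0 K hK hρ m.1 m.2⟩
      map_add' := fun m n => rfl
      map_smul' := fun c m => rfl } K (fun m => by
      refine Free.norm_le (mul_nonneg hK (norm_nonneg _)) fun f => ?_
      have h1 := m.abs_app_le (f.comp ρ h0 K hK hρ)
      have h2 := mul_le_mul_of_nonneg_left (f.norm_comp_le ρ h0 K hK hρ) (norm_nonneg m)
      calc |m.app (f.comp ρ h0 K hK hρ)| ≤ ‖m‖ * (‖f‖ * K) := h1.trans h2
        _ = K * ‖m‖ * ‖f‖ := by ring)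

theorem map_app {q : N} (ρ : M → N) (h0 : ρ o = q) (K : ℝ) (hK : 0 ≤ K)
    (hρ : ∀ x y, dist (ρ x) (ρ y) ≤ K * dist x y) (m : Free M o) (f : Lip0 N q) :
    (map ρ h0 K hK hρ m).app f = m.app (f.comp ρ h0 K hK hρ) := rfl

theorem map_delta {q : N} (ρ : M → N) (h0 : ρ o = q) (K : ℝ) (hK : 0 ≤ K)
    (hρ : ∀ x y, dist (ρ x) (ρ y) ≤ K * dist x y) (x : M) :
    map ρ h0 K hK hρ (delta o x) = delta q (ρ x) := rfl

theorem norm_map_apply_le {q : N} (ρ : M → N) (h0 : ρ o = q) (K : ℝ) (hK : 0 ≤ K)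
    (hρ : ∀ x y, dist (ρ x) (ρ y) ≤ K * dist x y) (m : Free M o) :
    ‖map ρ h0 K hK hρ m‖ ≤ K * ‖m‖ := by
  refine Free.norm_le (mul_nonneg hK (norm_nonneg _)) fun f => ?_
  have h1 := m.abs_app_le (f.comp ρ h0 K hK hρ)
  have h2 := mul_le_mul_of_nonneg_left (f.norm_comp_le ρ h0 K hK hρ) (norm_nonneg m)
  calc |m.app (f.comp ρ h0 K hK hρ)| ≤ ‖m‖ * (‖f‖ * K) := h1.trans h2
    _ = K * ‖m‖ * ‖f‖ := by ring

end Map

end Pool.Agent.V11101.LF
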