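import Mathlib

open Filter Topology
open scoped ComplexConjugate

namespace Pool.Agent.V11101.Jet

section KKpart

variable {R : Type*} [NormedRing R] [NormedAlgebra ℂ R] [StarRing R] [StarModule ℂ R]
  [NormedStarGroup R] [CompleteSpace R]

omit [NormedAlgebra ℂ R] [StarModule ℂ R] [NormedStarGroup R] [CompleteSpace R] in
lemma term_succ (X B : R) (r : ℕ) :
    (star X) ^ (r + 1) * B * X ^ (r + 1) = star X * ((star X) ^ r * B * X ^ r) * X := by
  rw [pow_succ' (star X), pow_succ X]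
  simp only [mul_assoc]

omit [NormedAlgebra ℂ R] [StarModule ℂ R] [CompleteSpace R] in
lemma term_norm (X B : R) (r : ℕ) :
    ‖(star X) ^ r * B * X ^ r‖ ≤ ‖B‖ * (‖X‖ ^ 2) ^ r := by
  induction r with
  | zero => simp
  | succ r ih =>
    rw [term_succ]
    calc ‖star X * ((star X) ^ r * B * X ^ r) * X‖
        ≤ ‖star X * ((star X) ^ r * B * X ^ r)‖ * ‖X‖ := norm_mul_le _ _
      _ ≤ (‖star X‖ * ‖(star X) ^ r * B * X ^ r‖) * ‖X‖ := by gcongr; exact norm_mul_le _ _
      _ = ‖X‖ ^ 2 * ‖(star X) ^ r * B * X ^ r‖ := by rw [norm_star]; ring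
      _ ≤ ‖X‖ ^ 2 * (‖B‖ * (‖X‖ ^ 2) ^ r) := by gcongr
      _ = ‖B‖ * (‖X‖ ^ 2) ^ (r + 1) := by ring

omit [NormedAlgebra ℂ R] [StarModule ℂ R] in
lemma summ (X B : R) (hX : ‖X‖ < 1) : Summable fun r : ℕ => (star X) ^ r * B * X ^ r := by
  refine Summable.of_norm_bounded (g := fun r => ‖B‖ * (‖X‖ ^ 2) ^ r) ?_ (term_norm X B)
  refine Summable.mul_left _ (summable_geometric_of_lt_one (by positivity) ?_)
  have := norm_nonneg X
  nlinarith

/-- `K(X,B) = ∑_r X*^r B X^r`. -/
noncomputable def KK (X B : R) : R := ∑' r : ℕ, (star X) ^ r * B * X ^ r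

omit [NormedAlgebra ℂ R] [StarModule ℂ R] in
lemma KK_eq (X B : R) (hX : ‖X‖ < 1) : KK X B = B + star X * KK X B * X := by
  have hs := summ X B hX
  unfold KK
  conv_lhs => rw [hs.tsum_eq_zero_add]
  simp only [pow_zero, one_mul, mul_one]
  congr 1
  simp only [term_succ]
  rw [(hs.mul_left (star X)).tsum_mul_right X, hs.tsum_mul_left (star X)]

omit [NormedAlgebra ℂ R] [StarModule ℂ R] [CompleteSpace R] in
lemma zero_of_eq {X Y Z : R} (hX : ‖X‖ < 1) (hY : ‖Y‖ < 1) (h : Z = star X * Z * Y) : Z = 0 := by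
  by_contra hZ
  have hpos : 0 < ‖Z‖ := norm_pos_iff.mpr hZ
  have h1 : ‖Z‖ ≤ ‖X‖ * ‖Z‖ * ‖Y‖ := by
    conv_lhs => rw [h]
    calc ‖star X * Z * Y‖ ≤ ‖star X * Z‖ * ‖Y‖ := norm_mul_le _ _
      _ ≤ (‖star X‖ * ‖Z‖) * ‖Y‖ := by gcongr; exact norm_mul_le _ _
      _ = ‖X‖ * ‖Z‖ * ‖Y‖ := by rw [norm_star]
  have h2 : ‖X‖ * ‖Y‖ < 1 := by
    have := norm_nonneg X
    have := norm_nonneg Y
    nlinarith
  nlinarith

omit [NormedAlgebra ℂ R] [StarModule ℂ R] in
lemma KK_unique {X B Y : R} (hX : ‖X‖ < 1) (h : Y = B + star X * Y * X) : KK X B = Y := by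
  have h1 := KK_eq X B hX
  have : KK X B - Y = 0 := by
    apply zero_of_eq hX hX
    calc KK X B - Y = (B + star X * KK X B * X) - (B + star X * Y * X) := by rw [← h1, ← h]
      _ = star X * (KK X B - Y) * X := by noncomm_ring
  exact sub_eq_zero.mp this

omit [NormedAlgebra ℂ R] [StarModule ℂ R] in
lemma KK_star {X B : R} (hX : ‖X‖ < 1) (hB : star B = B) : star (KK X B) = KK X B := by
  symm
  apply KK_unique hX
  have h1 := congrArg star (KK_eq X B hX)
  simpa [mul_assoc, hB] using h1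

omit [NormedAlgebra ℂ R] [StarModule ℂ R] in
lemma KK_add {X B C : R} (hX : ‖X‖ < 1) : KK X (B + C) = KK X B + KK X C := by
  apply KK_unique hX
  conv_lhs => rw [KK_eq X B hX, KK_eq X C hX]
  noncomm_ring

omit [StarModule ℂ R] in
lemma KK_smul {X B : R} (c : ℂ) (hX : ‖X‖ < 1) : KK X (c • B) = c • KK X B := by
  apply KK_unique hX
  conv_lhs => rw [KK_eq X B hX]
  simp [smul_add, mul_smul_comm, smul_mul_assoc]

omit [StarModule ℂ R] in
lemma KK_zero {X : R} (hX : ‖X‖ < 1) : KK X (0 : R) = 0 := by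
  apply KK_unique hX; simp

omit [StarModule ℂ R] in
lemma KK_sum {ι : Type*} (s : Finset ι) {X : R} (B : ι → R) (c : ι → ℂ) (hX : ‖X‖ < 1) :
    KK X (∑ j ∈ s, c j • B j) = ∑ j ∈ s, c j • KK X (B j) := by
  classical
  induction s using Finset.induction_on with
  | empty => simpa using KK_zero hX
  | insert i s hi ih => rw [Finset.sum_insert hi, Finset.sum_insert hi, KK_add hX, KK_smul _ hX, ih]

/-- The real-linear operator `Z ↦ X* Z X`. -/
noncomputable def TT (X : R) : R →L[ℝ] R :=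
  (ContinuousLinearMap.mul ℝ R (star X)).comp ((ContinuousLinearMap.mul ℝ R).flip X)

omit [StarModule ℂ R] [CompleteSpace R] in
lemma TT_apply (X Z : R) : TT X Z = star X * (Z * X) := rfl

omit [StarModule ℂ R] [CompleteSpace R] in
lemma TT_norm (X : R) (hX : ‖X‖ < 1) : ‖TT X‖ < 1 := by
  have h1 : ‖TT X‖ ≤ ‖X‖ * ‖X‖ := by
    refine ContinuousLinearMap.opNorm_le_bound _ (by positivity) fun Z => ?_
    rw [TT_apply]
    calc ‖star X * (Z * X)‖ ≤ ‖star X‖ * ‖Z * X‖ := norm_mul_le _ _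
      _ ≤ ‖star X‖ * (‖Z‖ * ‖X‖) := by gcongr; exact norm_mul_le _ _
      _ = ‖X‖ * ‖X‖ * ‖Z‖ := by rw [norm_star]; ring
  have := norm_nonneg X
  nlinarith

omit [StarModule ℂ R] in
lemma TT_unit (X : R) (hX : ‖X‖ < 1) : IsUnit (1 - TT X) :=
  ⟨Units.oneSub (TT X) (TT_norm X hX), rfl⟩

omit [StarModule ℂ R] in
lemma KK_eq_inverse (X B : R) (hX : ‖X‖ < 1) : KK X B = Ring.inverse (1 - TT X) B := by
  have h1 : (1 - TT X) (KK X B) = B := by
    rw [ContinuousLinearMap.sub_apply, ContinuousLinearMap.one_apply, TT_apply, ← mul_assoc]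
    have h2 := KK_eq X B hX
    exact sub_eq_of_eq_add h2
  have h2 : Ring.inverse (1 - TT X) * (1 - TT X) = 1 := Ring.inverse_mul_cancel _ (TT_unit X hX)
  calc KK X B = (Ring.inverse (1 - TT X) * (1 - TT X)) (KK X B) := by
        rw [h2, ContinuousLinearMap.one_apply]
    _ = Ring.inverse (1 - TT X) ((1 - TT X) (KK X B)) := rfl
    _ = Ring.inverse (1 - TT X) B := by rw [h1]

lemma TT_diff (X : R) : DifferentiableAt ℝ (fun X : R => TT X) X := by
  unfold TT
  have h1 : DifferentiableAt ℝ (fun X : R => ContinuousLinearMap.mul ℝ R (star X)) X := by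
    have : DifferentiableAt ℝ (fun X : R => star X) X := (differentiableAt_id).star
    exact (ContinuousLinearMap.mul ℝ R).differentiableAt.comp X this
  have h2 : DifferentiableAt ℝ (fun X : R => (ContinuousLinearMap.mul ℝ R).flip X) X :=
    (ContinuousLinearMap.mul ℝ R).flip.differentiableAt
  exact h1.clm_comp h2

lemma KK_diff (X B : R) (hX : ‖X‖ < 1) : DifferentiableAt ℝ (fun X : R => KK X B) X := by
  have h1 : DifferentiableAt ℝ (fun X : R => Ring.inverse (1 - TT X) B) X := by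
    have h2 : DifferentiableAt ℝ (fun X : R => Ring.inverse (1 - TT X)) X := by
      have h3 : DifferentiableAt ℝ (fun X : R => (1 : R →L[ℝ] R) - TT X) X :=
        (differentiableAt_const _).sub (TT_diff X)
      exact DifferentiableAt.inverse (R := R →L[ℝ] R) h3 (TT_unit X hX)
    exact h2.clm_apply (differentiableAt_const B)
  refine h1.congr_of_eventuallyEq ?_
  have : ∀ᶠ Y in 𝓝 X, ‖Y‖ < 1 := (continuous_norm.tendsto X).eventually (gt_mem_nhds hX)
  filter_upwards [this] with Y hY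
  exact KK_eq_inverse Y B hY

end KKpart

section Implicit

variable {R : Type*} [NormedRing R] [NormedAlgebra ℂ R] [StarRing R] [StarModule ℂ R]
  [NormedStarGroup R] [CompleteSpace R]
variable {d : ℕ} (A : Fin d → R) (b : Fin d → ℝ)

/-- `P = ∑ a_j A_j`. -/
noncomputable def PP (a : Fin d → ℂ) : R := ∑ j, a j • A j

/-- `A = ∑ (b_j - a_j - conj a_j) A_j`. -/
noncomputable def AA (a : Fin d → ℂ) : R := ∑ j, ((b j : ℂ) - a j - conj (a j)) • A j

/-- `X` is a solution of norm `< 1` of `P X^2 + A X + P* = 0`. -/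
def IsSol (a : Fin d → ℂ) (X : R) : Prop :=
  ‖X‖ < 1 ∧ PP A a * X ^ 2 + AA A b a * X + star (PP A a) = 0

/-- `S = A + P X`. -/
noncomputable def SS (a : Fin d → ℂ) (X : R) : R := AA A b a + PP A a * X

variable {A b}

omit [NormedStarGroup R] [CompleteSpace R] in
lemma AA_star (hA : ∀ j, star (A j) = A j) (a : Fin d → ℂ) : star (AA A b a) = AA A b a := by
  unfold AA
  rw [star_sum]
  refine Finset.sum_congr rfl fun j _ => ?_
  rw [star_smul, hA j]
  congr 1
  simp only [star_sub, Complex.star_def, Complex.conj_ofReal, Complex.conj_conj]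
  ring

omit [NormedStarGroup R] [CompleteSpace R] [StarModule ℂ R] in
lemma SX_eq {a : Fin d → ℂ} {X : R} (h : IsSol A b a X) :
    SS A b a X * X = - star (PP A a) := by
  have h2 := h.2
  unfold SS
  rw [add_mul, mul_assoc, ← pow_two]
  rw [eq_neg_iff_add_eq_zero, ← h2]
  abel

omit [CompleteSpace R] in
lemma S_star (hA : ∀ j, star (A j) = A j) {a : Fin d → ℂ} {X : R} (h : IsSol A b a X) :
    star (SS A b a X) = SS A b a X := by
  have h1 := SX_eq h
  have h2 : PP A a = - (star X * star (SS A b a X)) := by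
    have := congrArg star h1
    rw [star_mul, star_neg, star_star] at this
    rw [this, neg_neg]
  have h3 : SS A b a X = AA A b a - star X * star (SS A b a X) * X := by
    conv_lhs => rw [SS, h2]
    noncomm_ring
  have h4 : star (SS A b a X) = AA A b a - star X * SS A b a X * X := by
    have := congrArg star h3
    rw [star_sub, star_mul, star_mul, star_star, star_star, AA_star hA] at this
    rw [this, mul_assoc]
  have h5 : SS A b a X - star (SS A b a X) = 0 := by
    apply zero_of_eq h.1 h.1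
    calc SS A b a X - star (SS A b a X)
        = (AA A b a - star X * star (SS A b a X) * X) - (AA A b a - star X * SS A b a X * X) := by
          rw [← h3, ← h4]
      _ = star X * (SS A b a X - star (SS A b a X)) * X := by noncomm_ring
  exact (sub_eq_zero.mp h5).symm

omit [CompleteSpace R] in
lemma P_eq (hA : ∀ j, star (A j) = A j) {a : Fin d → ℂ} {X : R} (h : IsSol A b a X) :
    PP A a = - (star X * SS A b a X) := by
  have h1 := SX_eq h
  have := congrArg star h1
  rw [star_mul, star_neg, star_star, S_star hA h] at this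
  rw [this, neg_neg]

omit [NormedStarGroup R] [CompleteSpace R] in
lemma B_eq (hA : ∀ j, star (A j) = A j) (a : Fin d → ℂ) :
    ∑ j, (b j : ℂ) • A j = PP A a + AA A b a + star (PP A a) := by
  unfold PP AA
  rw [star_sum, ← Finset.sum_add_distrib, ← Finset.sum_add_distrib]
  refine Finset.sum_congr rfl fun j _ => ?_
  rw [star_smul, hA j, ← add_smul, ← add_smul]
  congr 1
  simp only [Complex.star_def]
  ring

omit [CompleteSpace R] in
lemma factor (hA : ∀ j, star (A j) = A j) {a : Fin d → ℂ} {X : R} (h : IsSol A b a X) :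
    ∑ j, (b j : ℂ) • A j = (1 - star X) * SS A b a X * (1 - X) := by
  rw [B_eq hA a]
  have h1 := SX_eq h
  have h2 := P_eq hA h
  have h3 : AA A b a = SS A b a X - PP A a * X := by unfold SS; abel
  have h4 : star (PP A a) = - (SS A b a X * X) := by rw [h1, neg_neg]
  rw [h4, h3, h2]
  noncomm_ring

lemma S_unit (hA : ∀ j, star (A j) = A j) (hB : IsUnit (∑ j, (b j : ℂ) • A j))
    {a : Fin d → ℂ} {X : R} (h : IsSol A b a X) : IsUnit (SS A b a X) := by
  rw [factor hA h] at hB
  have hu : IsUnit (1 - X) := ⟨Units.oneSub X h.1, rfl⟩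
  have hus : IsUnit (1 - star X) := ⟨Units.oneSub (star X) (by rw [norm_star]; exact h.1), rfl⟩
  obtain ⟨u, hu⟩ := hu
  obtain ⟨v, hv⟩ := hus
  have : SS A b a X = (↑(v⁻¹) : R) * ((1 - star X) * SS A b a X * (1 - X)) * ↑(u⁻¹) := by
    rw [← hu, ← hv]
    simp [mul_assoc]
  rw [this]
  exact ((Units.isUnit v⁻¹).mul hB).mul (Units.isUnit u⁻¹)

lemma sol_unique (hA : ∀ j, star (A j) = A j) (hB : IsUnit (∑ j, (b j : ℂ) • A j))
    {a : Fin d → ℂ} {X Y : R} (hX : IsSol A b a X) (hY : IsSol A b a Y) : Y = X := by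
  have hS := S_unit hA hB hX
  have hP := P_eq hA hX
  have h1 : SS A b a X * (Y - X) = 0 := by
    apply zero_of_eq hX.1 hY.1
    have h2 : PP A a * Y ^ 2 + AA A b a * Y + star (PP A a)
      - (PP A a * X ^ 2 + AA A b a * X + star (PP A a)) = 0 := by rw [hX.2, hY.2, sub_zero]
    have h3 : SS A b a X * (Y - X) + PP A a * (Y - X) * Y = 0 := by
      rw [← h2]
      unfold SS
      noncomm_ring
    have h4 : SS A b a X * (Y - X) = - (PP A a * (Y - X) * Y) := eq_neg_of_add_eq_zero_left h3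
    conv_lhs => rw [h4]
    conv_lhs => rw [hP]
    noncomm_ring
  have h5 := (hS.mul_right_eq_zero).mp h1
  exact sub_eq_zero.mp h5

end Implicit

end Pool.Agent.V11101.Jet
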