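import Pool.Agent.V11101.JetA

open Filter Topology
open scoped ComplexConjugate

namespace Pool.Agent.V11101.Jet

variable {R : Type*} [NormedRing R] [NormedAlgebra ℂ R] [StarRing R] [StarModule ℂ R]
  [NormedStarGroup R] [CompleteSpace R]
variable {d : ℕ} (A : Fin d → R) (b : Fin d → ℝ)

/-- `a ↦ ∑ a_j A_j` as a continuous real-linear map. -/
noncomputable def PL : (Fin d → ℂ) →L[ℝ] R :=
  LinearMap.toContinuousLinearMap
    { toFun := PP A
      map_add' := fun a a' => by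
        simp only [PP, Pi.add_apply, add_smul, Finset.sum_add_distrib]
      map_smul' := fun c a => by
        simp only [PP, Pi.smul_apply, RingHom.id_apply, Finset.smul_sum, smul_assoc] }

omit [StarRing R] [StarModule ℂ R] [NormedStarGroup R] [CompleteSpace R] in
lemma PL_apply (a : Fin d → ℂ) : PL A a = PP A a := rfl

/-- `a ↦ ∑ (a_j + conj a_j) A_j` as a continuous real-linear map. -/
noncomputable def QL : (Fin d → ℂ) →L[ℝ] R :=
  LinearMap.toContinuousLinearMap
    { toFun := fun a => ∑ j, (a j + conj (a j)) • A j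
      map_add' := fun a a' => by
        rw [← Finset.sum_add_distrib]
        refine Finset.sum_congr rfl fun j _ => ?_
        rw [← add_smul]
        congr 1
        simp only [Pi.add_apply, map_add]
        ring
      map_smul' := fun c a => by
        rw [RingHom.id_apply, Finset.smul_sum]
        refine Finset.sum_congr rfl fun j _ => ?_
        rw [← smul_assoc]
        congr 1
        simp only [Pi.smul_apply, Complex.real_smul, map_mul, Complex.conj_ofReal]
        ring }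

omit [StarRing R] [StarModule ℂ R] [NormedStarGroup R] [CompleteSpace R] in
lemma QL_apply (a : Fin d → ℂ) : QL A a = ∑ j, (a j + conj (a j)) • A j := rfl

omit [StarRing R] [StarModule ℂ R] [NormedStarGroup R] [CompleteSpace R] in
lemma AA_eq (a : Fin d → ℂ) : AA A b a = (∑ j, (b j : ℂ) • A j) - QL A a := by
  rw [QL_apply, AA, ← Finset.sum_sub_distrib]
  refine Finset.sum_congr rfl fun j _ => ?_
  rw [← sub_smul]
  congr 1
  ring

/-- The defining map `(a, X) ↦ P X^2 + A X + P*`. -/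
noncomputable def Phi (p : (Fin d → ℂ) × R) : R :=
  PL A p.1 * (p.2 * p.2) + ((∑ j, (b j : ℂ) • A j) - QL A p.1) * p.2 + star (PL A p.1)

omit [StarModule ℂ R] [NormedStarGroup R] [CompleteSpace R] in
lemma Phi_eq (a : Fin d → ℂ) (X : R) :
    Phi A b (a, X) = PP A a * X ^ 2 + AA A b a * X + star (PP A a) := by
  rw [AA_eq]; simp only [Phi, PL_apply, pow_two]

/-- The derivative of `Phi`. -/
noncomputable def dPhi (p : (Fin d → ℂ) × R) : (Fin d → ℂ) × R →L[ℝ] R :=
  fderiv ℝ (Phi A b) p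

lemma Phi_strict (p : (Fin d → ℂ) × R) : ∃ f' : (Fin d → ℂ) × R →L[ℝ] R,
    HasStrictFDerivAt (Phi A b) f' p ∧ ∀ (δ : Fin d → ℂ) (H : R),
      f' (δ, H) = PL A p.1 * (p.2 * H + H * p.2) + PL A δ * (p.2 * p.2)
        + ((((∑ j, (b j : ℂ) • A j) - QL A p.1) * H) + (- QL A δ) * p.2) + star (PL A δ) := by
  have h1 : HasStrictFDerivAt (fun q : (Fin d → ℂ) × R => PL A q.1)
      ((PL A).comp (ContinuousLinearMap.fst ℝ _ _)) p :=
    (PL A).hasStrictFDerivAt.comp p hasStrictFDerivAt_fst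
  have h2 : HasStrictFDerivAt (fun q : (Fin d → ℂ) × R => QL A q.1)
      ((QL A).comp (ContinuousLinearMap.fst ℝ _ _)) p :=
    (QL A).hasStrictFDerivAt.comp p hasStrictFDerivAt_fst
  have h3 : HasStrictFDerivAt (fun q : (Fin d → ℂ) × R => q.2)
      (ContinuousLinearMap.snd ℝ _ _) p := hasStrictFDerivAt_snd
  have h4 := ((h1.mul' (h3.mul' h3)).add ((h2.const_sub (∑ j, (b j : ℂ) • A j)).mul' h3)).add
    (h1.star)
  refine ⟨_, h4, fun δ H => ?_⟩
  simp [PL_apply, mul_add]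

/-- An arbitrary solution of norm `< 1` (the unique one, by `sol_unique`), or `0`. -/
noncomputable def Xo (a : Fin d → ℂ) : R :=
  open Classical in if h : ∃ X, IsSol A b a X then h.choose else 0

variable {A b}

omit [StarModule ℂ R] [NormedStarGroup R] [CompleteSpace R] in
lemma Xo_spec {a : Fin d → ℂ} {X : R} (h : IsSol A b a X) : IsSol A b a (Xo A b a) := by
  have h' : ∃ X, IsSol A b a X := ⟨X, h⟩
  unfold Xo
  rw [dif_pos h']
  exact h'.choose_spec

lemma Xo_eq (hA : ∀ j, star (A j) = A j) (hB : IsUnit (∑ j, (b j : ℂ) • A j))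
    {a : Fin d → ℂ} {X : R} (h : IsSol A b a X) : Xo A b a = X :=
  sol_unique hA hB h (Xo_spec h)

lemma implicit (hA : ∀ j, star (A j) = A j) (hB : IsUnit (∑ j, (b j : ℂ) • A j))
    {a : Fin d → ℂ} {X : R} (h : IsSol A b a X) :
    (∀ᶠ a' in 𝓝 a, IsSol A b a' (Xo A b a')) ∧
    ∃ X' : (Fin d → ℂ) →L[ℝ] R, HasFDerivAt (Xo A b) X' a ∧
      ∀ δ : Fin d → ℂ, SS A b a X * X' δ - star X * (SS A b a X * X' δ) * X
        = - (PL A δ * (X * X) - QL A δ * X + star (PL A δ)) := by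
  obtain ⟨f', hf', hval⟩ := Phi_strict A b (a, X)
  have hS := S_unit hA hB h
  have hP := P_eq hA h
  have hinr : (f' ∘L .inr ℝ (Fin d → ℂ) R) = (1 - TT X) ∘L (ContinuousLinearMap.mul ℝ R (SS A b a X)) := by
    ext H
    have h1 : f' (0, H) = PL A a * (X * H + H * X) + PL A 0 * (X * X)
        + ((((∑ j, (b j : ℂ) • A j) - QL A a) * H) + (- QL A 0) * X) + star (PL A 0) := hval 0 H
    have h2 : (f' ∘L .inr ℝ (Fin d → ℂ) R) H = f' (0, H) := rfl
    rw [h2, h1, ← AA_eq, PL_apply, map_zero, map_zero, star_zero]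
    have h3 : ((1 - TT X) ∘L (ContinuousLinearMap.mul ℝ R (SS A b a X))) H
        = SS A b a X * H - star X * (SS A b a X * H * X) := rfl
    rw [h3]
    have h4 : star X * (SS A b a X * H * X) = - (PP A a * H * X) := by
      rw [hP]; noncomm_ring
    rw [h4]
    unfold SS
    noncomm_ring
  have hinv : (f' ∘L .inr ℝ (Fin d → ℂ) R).IsInvertible := by
    rw [hinr]
    refine ContinuousLinearMap.IsInvertible.comp ?_ ?_
    · obtain ⟨u, hu⟩ := TT_unit X h.1
      rw [← hu]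
      exact ⟨ContinuousLinearEquiv.unitsEquiv ℝ R u, rfl⟩
    · obtain ⟨u, hu⟩ := hS
      refine ⟨ContinuousLinearEquiv.equivOfInverse (ContinuousLinearMap.mul ℝ R (SS A b a X))
        (ContinuousLinearMap.mul ℝ R (↑u⁻¹ : R)) ?_ ?_, rfl⟩
      · intro x; simp [← hu]
      · intro x; simp [← hu]
  have hΦ0 : Phi A b (a, X) = 0 := by rw [Phi_eq]; exact h.2
  have hev := hf'.eventually_apply_implicitFunctionOfProdDomain hinv
  have htd := hf'.tendsto_implicitFunctionOfProdDomain hinv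
  have hder := hf'.hasStrictFDerivAt_implicitFunctionOfProdDomain hinv
  set ψ := hf'.implicitFunctionOfProdDomain hinv with hψ
  have hnorm : ∀ᶠ a' in 𝓝 a, ‖ψ a'‖ < 1 :=
    (htd.norm).eventually (gt_mem_nhds h.1)
  have hsol : ∀ᶠ a' in 𝓝 a, IsSol A b a' (ψ a') := by
    filter_upwards [hev, hnorm] with a' h1 h2
    refine ⟨h2, ?_⟩
    rw [← Phi_eq, h1, hΦ0]
  have heq : ∀ᶠ a' in 𝓝 a, Xo A b a' = ψ a' := by
    filter_upwards [hsol] with a' h1
    exact Xo_eq hA hB h1
  refine ⟨?_, _, hder.hasFDerivAt.congr_of_eventuallyEq heq, fun δ => ?_⟩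
  · filter_upwards [hsol] with a' h1
    exact Xo_spec h1
  · set X' := (-(f' ∘L .inr ℝ (Fin d → ℂ) R).inverse ∘L (f' ∘L .inl ℝ (Fin d → ℂ) R)) with hX'
    have h1 : (f' ∘L .inr ℝ (Fin d → ℂ) R) (X' δ) = - (f' ∘L .inl ℝ (Fin d → ℂ) R) δ := by
      rw [hX']
      have h2 : (-(f' ∘L .inr ℝ (Fin d → ℂ) R).inverse ∘L (f' ∘L .inl ℝ (Fin d → ℂ) R)) δ
        = - ((f' ∘L .inr ℝ (Fin d → ℂ) R).inverse ((f' ∘L .inl ℝ (Fin d → ℂ) R) δ)) := rfl
      rw [h2, map_neg, hinv.self_apply_inverse]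
    rw [hinr] at h1
    have h2 : ((1 - TT X) ∘L (ContinuousLinearMap.mul ℝ R (SS A b a X))) (X' δ)
      = SS A b a X * X' δ - star X * (SS A b a X * X' δ * X) := rfl
    rw [h2] at h1
    have h3 : (f' ∘L .inl ℝ (Fin d → ℂ) R) δ = f' (δ, 0) := rfl
    rw [h3, hval] at h1
    rw [mul_assoc (star X), h1]
    noncomm_ring

lemma SXdot (hA : ∀ j, star (A j) = A j)
    {a : Fin d → ℂ} {X : R} (h : IsSol A b a X) {Y : R} {δ : Fin d → ℂ}
    (hδ : ∀ j, conj (δ j) = δ j)
    (hY : SS A b a X * Y - star X * (SS A b a X * Y) * X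
        = - (PL A δ * (X * X) - QL A δ * X + star (PL A δ))) :
    SS A b a X * Y = - (KK X (PP A δ) * (1 - X) ^ 2) := by
  have hstar : star (PL A δ) = PL A δ := by
    rw [PL_apply, PP, star_sum]
    refine Finset.sum_congr rfl fun j _ => ?_
    rw [star_smul, hA j, Complex.star_def, hδ j]
  have hQ : QL A δ = PL A δ + PL A δ := by
    rw [QL_apply, PL_apply, PP, ← Finset.sum_add_distrib]
    refine Finset.sum_congr rfl fun j _ => ?_
    rw [hδ j, add_smul]
  rw [hstar, hQ, PL_apply] at hY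
  have hK := KK_eq X (PP A δ) h.1
  have h0 : SS A b a X * Y + KK X (PP A δ) * (1 - X) ^ 2 = 0 := by
    apply zero_of_eq h.1 h.1
    have h1 : SS A b a X * Y = star X * (SS A b a X * Y) * X
        - (PP A δ * (X * X) - (PP A δ + PP A δ) * X + PP A δ) :=
      (sub_eq_iff_eq_add.mp hY).trans (by abel)
    have h2 : KK X (PP A δ) * (1 - X) ^ 2 = PP A δ * (1 - X) ^ 2
        + star X * (KK X (PP A δ) * (1 - X) ^ 2) * X := by
      conv_lhs => rw [hK]
      noncomm_ring
    calc SS A b a X * Y + KK X (PP A δ) * (1 - X) ^ 2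
        = (star X * (SS A b a X * Y) * X
          - (PP A δ * (X * X) - (PP A δ + PP A δ) * X + PP A δ))
          + (PP A δ * (1 - X) ^ 2 + star X * (KK X (PP A δ) * (1 - X) ^ 2) * X) := by
          rw [← h1, ← h2]
      _ = star X * (SS A b a X * Y + KK X (PP A δ) * (1 - X) ^ 2) * X := by noncomm_ring
  exact eq_neg_of_add_eq_zero_left h0

lemma KXdot (hA : ∀ j, star (A j) = A j)
    {a : Fin d → ℂ} {X : R} (h : IsSol A b a X) {Y T : R} {δ : Fin d → ℂ}
    (hδ : ∀ j, conj (δ j) = δ j)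
    (hY : SS A b a X * Y - star X * (SS A b a X * Y) * X
        = - (PL A δ * (X * X) - QL A δ * X + star (PL A δ)))
    (hT : T * SS A b a X = 1) (j : Fin d)
    (hj : ∀ s, δ s ≠ 0 → KK X (A j) * T * KK X (A s) = 0) :
    KK X (A j) * Y = 0 := by
  have h1 := SXdot hA h hδ hY
  have h2 : Y = - (T * KK X (PP A δ) * (1 - X) ^ 2) := by
    calc Y = T * SS A b a X * Y := by rw [hT, one_mul]
      _ = T * (SS A b a X * Y) := by rw [mul_assoc]
      _ = _ := by rw [h1]; noncomm_ring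
  rw [h2, PP, KK_sum _ _ _ h.1]
  have h3 : KK X (A j) * -(T * ∑ s, δ s • KK X (A s)) = 0 := by
    rw [mul_neg, Finset.mul_sum, Finset.mul_sum, neg_eq_zero]
    refine Finset.sum_eq_zero fun s _ => ?_
    by_cases hs : δ s = 0
    · simp [hs]
    · rw [mul_smul_comm, mul_smul_comm, ← mul_assoc, hj s hs, smul_zero]
  calc KK X (A j) * -((T * ∑ s, δ s • KK X (A s)) * (1 - X) ^ 2)
      = KK X (A j) * -(T * ∑ s, δ s • KK X (A s)) * (1 - X) ^ 2 := by noncomm_ring
    _ = 0 := by rw [h3, zero_mul]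

variable (A b) in
/-- `(1 - X*) K_j (1 - X)` as a function of `a`. -/
noncomputable def gg (j : Fin d) (a : Fin d → ℂ) : R :=
  (1 - star (Xo A b a)) * KK (Xo A b a) (A j) * (1 - Xo A b a)

lemma gg_deriv (hA : ∀ j, star (A j) = A j)
    {a : Fin d → ℂ} (h : IsSol A b a (Xo A b a))
    (hev : ∀ᶠ a' in 𝓝 a, IsSol A b a' (Xo A b a'))
    {X' : (Fin d → ℂ) →L[ℝ] R} (hX' : HasFDerivAt (Xo A b) X' a) (j : Fin d) :
    ∃ g' : (Fin d → ℂ) →L[ℝ] R, HasFDerivAt (gg A b j) g' a ∧
      ∀ δ : Fin d → ℂ, KK (Xo A b a) (A j) * X' δ = 0 → g' δ = 0 := by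
  have hK : DifferentiableAt ℝ (fun a' => KK (Xo A b a') (A j)) a :=
    (KK_diff (Xo A b a) (A j) h.1).comp a hX'.differentiableAt
  obtain ⟨K', hK'⟩ : ∃ K', HasFDerivAt (fun a' => KK (Xo A b a') (A j)) K' a :=
    ⟨_, hK.hasFDerivAt⟩
  have hs : HasFDerivAt (fun a' => star (Xo A b a')) _ a := hX'.star
  have hid := ((hs.mul' hK').mul' hX').const_add (A j)
  have hid2 : (fun a' => KK (Xo A b a') (A j)) =ᶠ[𝓝 a]
      fun a' => A j + star (Xo A b a') * KK (Xo A b a') (A j) * Xo A b a' := by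
    filter_upwards [hev] with a' h1
    exact KK_eq _ _ h1.1
  have hid3 := hK'.unique (hid.congr_of_eventuallyEq hid2)
  have hg := ((hs.const_sub 1).mul' hK').mul' (hX'.const_sub 1)
  refine ⟨_, hg, fun δ hδ => ?_⟩
  have hstar : star (X' δ) * KK (Xo A b a) (A j) = 0 := by
    have := congrArg star hδ
    rwa [star_mul, star_zero, KK_star h.1 (hA j)] at this
  have hKδ : K' δ = star (Xo A b a) * K' δ * Xo A b a := by
    have h5 := congrArg (fun f => f δ) hid3
    simp at h5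
    rw [mul_assoc (star (Xo A b a)) (KK (Xo A b a) (A j)) (X' δ), hδ, hstar, mul_zero, zero_mul,
      zero_add, add_zero] at h5
    exact h5
  have hK0 : K' δ = 0 := zero_of_eq h.1 h.1 hKδ
  simp [hK0]
  rw [mul_assoc _ _ (X' δ), hδ, hstar]
  simp

end Pool.Agent.V11101.Jet
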