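import Pool.Agent.V11101.JetB

open Filter Topology Matrix
open scoped ComplexConjugate

namespace Pool.Agent.V11101.Jet

abbrev M6 := Matrix (Fin 6) (Fin 6) ℂ

/-- The real linear combinations of the five Hermitian matrices. -/
def Gen (e x1 x2 p q r : ℂ) : M6 :=
  !![-x2 - e^2*p, -(e^2*q), x1, 0, 0, 0;
     -(e^2*q), -x2 - e^2*r, 0, x1, 0, 0;
     x1, 0, p, q, 0, 0;
     0, x1, q, r, 0, 0;
     0, 0, 0, 0, (1+e^2)*x1 - x2, 0;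
     0, 0, 0, 0, 0, (1+e^2)*x1 + x2]

/-- The inverse of `A = A_1`. -/
noncomputable def AI (e : ℂ) : M6 :=
  !![0, 0, 1, 0, 0, 0;
     0, 0, 0, 1, 0, 0;
     1, 0, 0, 0, 0, 0;
     0, 1, 0, 0, 0, 0;
     0, 0, 0, 0, (1+e^2)⁻¹, 0;
     0, 0, 0, 0, 0, (1+e^2)⁻¹]

/-- `S`, an involution. -/
def SI : M6 :=
  !![0, 0, 1, 0, 0, 0;
     0, 0, 0, 1, 0, 0;
     1, 0, 0, 0, 0, 0;
     0, 1, 0, 0, 0, 0;
     0, 0, 0, 0, 1, 0;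
     0, 0, 0, 0, 0, 1]

/-- The solution `X`. -/
def XX (e : ℂ) : M6 :=
  !![0, 0, 0, 0, 0, 0;
     0, 0, 0, 0, 0, 0;
     e, 0, 0, 0, 0, 0;
     0, e, 0, 0, 0, 0;
     0, 0, 0, 0, e, 0;
     0, 0, 0, 0, 0, -e]

/-- `X*`. -/
def XS (e : ℂ) : M6 :=
  !![0, 0, e, 0, 0, 0;
     0, 0, 0, e, 0, 0;
     0, 0, 0, 0, 0, 0;
     0, 0, 0, 0, 0, 0;
     0, 0, 0, 0, e, 0;
     0, 0, 0, 0, 0, -e]

/-- `K(x)` for `x` supported on the last three indices. -/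
def KM (p q r : ℂ) : M6 :=
  !![0, 0, 0, 0, 0, 0;
     0, 0, 0, 0, 0, 0;
     0, 0, p, q, 0, 0;
     0, 0, q, r, 0, 0;
     0, 0, 0, 0, 0, 0;
     0, 0, 0, 0, 0, 0]

lemma XX_star (e : ℝ) : (XX (e : ℂ))ᴴ = XS (e : ℂ) := by
  ext i j; fin_cases i <;> fin_cases j <;> simp [XX, XS, Matrix.conjTranspose_apply]

lemma Gen_star (e x1 x2 p q r : ℝ) :
    (Gen (e : ℂ) x1 x2 p q r)ᴴ = Gen (e : ℂ) x1 x2 p q r := by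
  ext i j; fin_cases i <;> fin_cases j <;> simp [Gen, Matrix.conjTranspose_apply]

lemma SI_sq : SI * SI = 1 := by
  ext i j; fin_cases i <;> fin_cases j <;> simp [SI, Matrix.mul_apply, Fin.sum_univ_succ]

lemma AI_mul (e : ℝ) : Gen (e : ℂ) 1 0 0 0 0 * AI (e : ℂ) = 1 := by
  have h : (1 + (e : ℂ) ^ 2) ≠ 0 := by
    norm_cast; positivity
  ext i j; fin_cases i <;> fin_cases j <;>
    simp [Gen, AI, Matrix.mul_apply, Fin.sum_univ_succ, h]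

lemma SS_explicit (e : ℂ) : Gen e 1 0 0 0 0 + Gen e 0 e 0 0 0 * XX e = SI := by
  ext i j; fin_cases i <;> fin_cases j <;>
    simp [Gen, XX, SI] <;> ring

lemma sol_explicit (e : ℂ) :
    Gen e 0 e 0 0 0 * XX e ^ 2 + Gen e 1 0 0 0 0 * XX e + Gen e 0 e 0 0 0 = 0 := by
  ext i j; fin_cases i <;> fin_cases j <;>
    simp [Gen, XX, pow_two] <;> ring

lemma KM_eq (e p q r : ℂ) :
    KM p q r = Gen e 0 0 p q r + XS e * KM p q r * XX e := by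
  ext i j; fin_cases i <;> fin_cases j <;>
    simp [Gen, XX, XS, KM] <;> ring

lemma KM_zero (p q r p' q' r' : ℂ) : KM p q r * SI * KM p' q' r' = 0 := by
  ext i j; fin_cases i <;> fin_cases j <;>
    simp [SI, KM, Matrix.mul_apply, Fin.sum_univ_succ]

/-- `A(x) A⁻¹ A(x)`. -/
noncomputable def BX (e x1 x2 p q r : ℂ) : M6 :=
  !![-(2*x1*(x2+e^2*p)), -(2*x1*e^2*q), x1^2-x2*p-e^2*(p^2+q^2), -(x2*q)-e^2*(p*q+q*r), 0, 0;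
     -(2*x1*e^2*q), -(2*x1*(x2+e^2*r)), -(x2*q)-e^2*(p*q+q*r), x1^2-x2*r-e^2*(q^2+r^2), 0, 0;
     x1^2-x2*p-e^2*(p^2+q^2), -(x2*q)-e^2*(p*q+q*r), 2*x1*p, 2*x1*q, 0, 0;
     -(x2*q)-e^2*(p*q+q*r), x1^2-x2*r-e^2*(q^2+r^2), 2*x1*q, 2*x1*r, 0, 0;
     0, 0, 0, 0, ((1+e^2)*x1 - x2)^2*(1+e^2)⁻¹, 0;
     0, 0, 0, 0, 0, ((1+e^2)*x1 + x2)^2*(1+e^2)⁻¹]

/-- The sum of the series `∑ X*^r A(x) A⁻¹ A(x) X^r`. -/
noncomputable def YX (e x1 x2 p q r : ℂ) : M6 :=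
  !![-(2*x1*x2), 0, x1^2-x2*p-e^2*(p^2+q^2), -(x2*q)-e^2*(p*q+q*r), 0, 0;
     0, -(2*x1*x2), -(x2*q)-e^2*(p*q+q*r), x1^2-x2*r-e^2*(q^2+r^2), 0, 0;
     x1^2-x2*p-e^2*(p^2+q^2), -(x2*q)-e^2*(p*q+q*r), 2*x1*p, 2*x1*q, 0, 0;
     -(x2*q)-e^2*(p*q+q*r), x1^2-x2*r-e^2*(q^2+r^2), 2*x1*q, 2*x1*r, 0, 0;
     0, 0, 0, 0, ((1+e^2)*x1 - x2)^2*(1+e^2)⁻¹*(1-e^2)⁻¹, 0;
     0, 0, 0, 0, 0, ((1+e^2)*x1 + x2)^2*(1+e^2)⁻¹*(1-e^2)⁻¹]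

lemma BX_eq (e x1 x2 p q r : ℂ) :
    Gen e x1 x2 p q r * AI e * Gen e x1 x2 p q r = BX e x1 x2 p q r := by
  ext i j; fin_cases i <;> fin_cases j <;>
    simp [Gen, AI, BX, Matrix.mul_apply, Fin.sum_univ_succ] <;> ring

lemma YX_eq (e : ℂ) (he : 1 - e ^ 2 ≠ 0) (x1 x2 p q r : ℂ) :
    YX e x1 x2 p q r = BX e x1 x2 p q r + XS e * YX e x1 x2 p q r * XX e := by
  ext i j; fin_cases i <;> fin_cases j <;>
    simp [XX, XS, BX, YX] <;> try ring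
  · have h : (1 - e ^ 2)⁻¹ = 1 + e ^ 2 * (1 - e ^ 2)⁻¹ := by field_simp; ring
    linear_combination (((1+e^2)*x1 - x2)^2*(1+e^2)⁻¹) * h
  · have h : (1 - e ^ 2)⁻¹ = 1 + e ^ 2 * (1 - e ^ 2)⁻¹ := by field_simp; ring
    linear_combination (((1+e^2)*x1 + x2)^2*(1+e^2)⁻¹) * h

end Pool.Agent.V11101.Jet
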