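import Pool.Agent.V11101.JetE

open Filter Topology Matrix
open scoped ComplexConjugate Matrix.Norms.L2Operator

namespace Pool.Agent.V11101.Jet

lemma XX_norm (e : ℝ) (he : 0 ≤ e) : ‖XX (e : ℂ)‖ ≤ e := by
  have h1 : ‖(XX (e : ℂ))ᴴ * XX (e : ℂ)‖ = ‖XX (e : ℂ)‖ * ‖XX (e : ℂ)‖ :=
    Matrix.l2_opNorm_conjTranspose_mul_self _
  have h2 : (XX (e : ℂ))ᴴ * XX (e : ℂ)
      = Matrix.diagonal ![(e : ℂ)^2, (e : ℂ)^2, 0, 0, (e : ℂ)^2, (e : ℂ)^2] := by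
    rw [XX_star]
    ext i j; fin_cases i <;> fin_cases j <;> simp [XX, XS, Matrix.diagonal] <;> ring
  have h3 : ‖(XX (e : ℂ))ᴴ * XX (e : ℂ)‖ ≤ e ^ 2 := by
    rw [h2, Matrix.l2_opNorm_diagonal, pi_norm_le_iff_of_nonneg (by positivity)]
    intro i
    fin_cases i <;> simp [abs_of_nonneg he] <;> positivity
  rw [h1] at h3
  nlinarith [norm_nonneg (XX (e : ℂ))]

/-- The five Hermitian matrices. -/
def AF (e : ℂ) : Fin 5 → M6 :=
  ![Gen e 1 0 0 0 0, Gen e 0 1 0 0 0, Gen e 0 0 1 0 1, Gen e 0 0 0 1 0, Gen e 0 0 1 0 (-1)]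

/-- The vector `b`. -/
def bF (e : ℝ) : Fin 5 → ℝ := ![1, 2 * e, 0, 0, 0]

/-- The vector `a`. -/
def aF (e : ℂ) : Fin 5 → ℂ := ![0, e, 0, 0, 0]

lemma AF_sum (e : ℂ) (x : Fin 5 → ℂ) :
    ∑ j, x j • AF e j = Gen e (x 0) (x 1) (x 2 + x 4) (x 3) (x 2 - x 4) := by
  ext i j; fin_cases i <;> fin_cases j <;>
    simp [AF, Gen, Fin.sum_univ_succ] <;> ring

lemma PP_F (e : ℂ) : PP (AF e) (aF e) = Gen e 0 e 0 0 0 := by
  rw [PP, AF_sum]; simp [aF]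

lemma AA_F (e : ℝ) : AA (AF (e : ℂ)) (bF e) (aF e) = Gen (e : ℂ) 1 0 0 0 0 := by
  rw [AA, AF_sum (e : ℂ) (fun j => ((bF e j : ℂ) - aF e j - conj (aF e j)))]
  simp only [bF, aF]
  congr 1 <;> simp
  ring

lemma AF_star (e : ℝ) (j : Fin 5) : star (AF (e : ℂ) j) = AF (e : ℂ) j := by
  rw [Matrix.star_eq_conjTranspose]
  fin_cases j
  · simpa [AF] using Gen_star e 1 0 0 0 0
  · simpa [AF] using Gen_star e 0 1 0 0 0
  · simpa [AF] using Gen_star e 0 0 1 0 1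
  · simpa [AF] using Gen_star e 0 0 0 1 0
  · simpa [AF] using Gen_star e 0 0 1 0 (-1)

/-- The inverse of `∑ b_j A_j`. -/
noncomputable def BI (e : ℂ) : M6 :=
  !![0, 0, 1, 0, 0, 0;
     0, 0, 0, 1, 0, 0;
     1, 0, 2*e, 0, 0, 0;
     0, 1, 0, 2*e, 0, 0;
     0, 0, 0, 0, ((1-e)^2)⁻¹, 0;
     0, 0, 0, 0, 0, ((1+e)^2)⁻¹]

lemma B_F (e : ℝ) : ∑ j, (bF e j : ℂ) • AF (e : ℂ) j = Gen (e : ℂ) 1 (2 * e) 0 0 0 := by
  rw [AF_sum (e : ℂ) (fun j => (bF e j : ℂ))]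
  simp [bF]

lemma BI_mul (e : ℝ) (he : e < 1) (he0 : 0 ≤ e) : Gen (e : ℂ) 1 (2 * e) 0 0 0 * BI (e : ℂ) = 1 := by
  have h1 : (1 - (e : ℂ)) ^ 2 ≠ 0 := by
    norm_cast
    have : 0 < 1 - e := by linarith
    positivity
  have h2 : (1 + (e : ℂ)) ^ 2 ≠ 0 := by
    norm_cast
    positivity
  have h3 : 1 + (e : ℂ) ^ 2 - 2 * e = (1 - (e : ℂ)) ^ 2 := by ring
  have h4 : 1 + (e : ℂ) ^ 2 + 2 * e = (1 + (e : ℂ)) ^ 2 := by ring
  ext i j; fin_cases i <;> fin_cases j <;>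
    simp [Gen, BI, h3, h4, h1, h2]

lemma B_unit (e : ℝ) (he : e < 1) (he0 : 0 ≤ e) :
    IsUnit (∑ j, (bF e j : ℂ) • AF (e : ℂ) j) := by
  rw [B_F]
  exact IsUnit.of_mul_eq_one _ (BI_mul e he he0)

lemma isSol_F (e : ℝ) (he : e < 1) (he0 : 0 ≤ e) :
    IsSol (AF (e : ℂ)) (bF e) (aF (e : ℂ)) (XX (e : ℂ)) := by
  refine ⟨lt_of_le_of_lt (XX_norm e he0) he, ?_⟩
  rw [PP_F, AA_F]
  have h : star (Gen (e : ℂ) 0 e 0 0 0) = Gen (e : ℂ) 0 e 0 0 0 := by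
    have := Gen_star e 0 e 0 0 0
    simpa [Matrix.star_eq_conjTranspose] using this
  rw [h]
  exact sol_explicit _

lemma linInd_F (e : ℝ) : LinearIndependent ℝ (AF (e : ℂ)) := by
  rw [Fintype.linearIndependent_iff]
  intro x hx
  have h1 : ∑ j, (x j : ℂ) • AF (e : ℂ) j = 0 := by
    rw [← hx]
    refine Finset.sum_congr rfl fun j _ => ?_
    ext i k
    simp
  rw [AF_sum (e : ℂ) (fun j => (x j : ℂ))] at h1
  have e02 := congrFun (congrFun h1 0) 2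
  have e22 := congrFun (congrFun h1 2) 2
  have e23 := congrFun (congrFun h1 2) 3
  have e33 := congrFun (congrFun h1 3) 3
  have e55 := congrFun (congrFun h1 5) 5
  simp [Gen] at e02 e22 e23 e33 e55
  have h0 : x 0 = 0 := e02
  have h5 : x 1 = 0 := by
    rw [h0] at e55
    simpa using e55
  have h22 : x 2 + x 4 = 0 := by exact_mod_cast e22
  have h33 : x 2 - x 4 = 0 := by exact_mod_cast e33
  have h23 : x 3 = 0 := by exact_mod_cast e23
  intro i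
  fin_cases i
  · exact h0
  · exact h5
  · show x 2 = 0
    linarith
  · exact h23
  · show x 4 = 0
    linarith

lemma KK_F (e : ℝ) (he : e < 1) (he0 : 0 ≤ e) (p q r : ℂ) :
    KK (XX (e : ℂ)) (Gen (e : ℂ) 0 0 p q r) = KM p q r := by
  apply KK_unique (lt_of_le_of_lt (XX_norm e he0) he)
  rw [Matrix.star_eq_conjTranspose, XX_star]
  exact KM_eq _ _ _ _

lemma KAF (e : ℝ) (he : e < 1) (he0 : 0 ≤ e) (j : Fin 5) (hj : 2 ≤ j) :
    ∃ p q r : ℂ, KK (XX (e : ℂ)) (AF (e : ℂ) j) = KM p q r := by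
  fin_cases j
  · exact absurd hj (by decide)
  · exact absurd hj (by decide)
  · exact ⟨_, _, _, KK_F e he he0 1 0 1⟩
  · exact ⟨_, _, _, KK_F e he he0 0 1 0⟩
  · exact ⟨_, _, _, KK_F e he he0 1 0 (-1)⟩

/-- The embedding `y ↦ (0,0,y_0,y_1,y_2)`. -/
def emb : (Fin 3 → ℝ) →ₗ[ℝ] (Fin 5 → ℂ) where
  toFun y := ![0, 0, (y 0 : ℂ), (y 1 : ℂ), (y 2 : ℂ)]
  map_add' y z := by ext i; fin_cases i <;> simp
  map_smul' c y := by ext i; fin_cases i <;> simp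

lemma emb_conj (y : Fin 3 → ℝ) (j : Fin 5) : conj (emb y j) = emb y j := by
  fin_cases j <;> simp [emb]

lemma emb_im (y : Fin 3 → ℝ) (j : Fin 5) : (emb y j).im = 0 := by
  fin_cases j <;> simp [emb]

lemma emb_ne {y : Fin 3 → ℝ} (hy : y ≠ 0) : emb y ≠ 0 := by
  intro h
  apply hy
  ext i
  fin_cases i
  · have := congrFun h 2; simpa [emb] using this
  · have := congrFun h 3; simpa [emb] using this
  · have := congrFun h 4; simpa [emb] using this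

lemma emb_supp (y : Fin 3 → ℝ) (s : Fin 5) (hs : emb y s ≠ 0) : 2 ≤ s := by
  fin_cases s
  · exact absurd rfl hs
  · exact absurd rfl hs
  all_goals decide

/-- Main statement in terms of the auxiliary definitions. -/
theorem main_sing (e : ℝ) (he : e < 1) (he0 : 0 ≤ e) :
    (∀ᶠ a' in 𝓝 (aF (e : ℂ)), ∃! X, IsSol (AF (e : ℂ)) (bF e) a' X) ∧
    ∀ V : Fin 6 → ℂ, DifferentiableAt ℝ (jetM (AF (e : ℂ)) (bF e)) (aF (e : ℂ), V) ∧
      ∃ w : (Fin 5 → ℂ) × (Fin 6 → ℂ), w ≠ 0 ∧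
        fderiv ℝ (jetM (AF (e : ℂ)) (bF e)) (aF (e : ℂ), V) w = 0 := by
  have hA := AF_star e
  have hB := B_unit e he he0
  have hsol := isSol_F e he he0
  have hXo : Xo (AF (e : ℂ)) (bF e) (aF (e : ℂ)) = XX (e : ℂ) := Xo_eq hA hB hsol
  obtain ⟨hev, X', hX', hrel⟩ := implicit hA hB hsol
  refine ⟨?_, fun V => ?_⟩
  · filter_upwards [hev] with a' h1
    exact ⟨_, h1, fun Y hY => sol_unique hA hB h1 hY⟩
  have hsolo : IsSol (AF (e : ℂ)) (bF e) (aF (e : ℂ)) (Xo (AF (e : ℂ)) (bF e) (aF (e : ℂ))) := by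
    rw [hXo]; exact hsol
  choose g' hg' hg0 using fun j => gg_deriv hA hsolo hev hX' j
  refine ⟨jetM_diff V fun j => (hg' j).differentiableAt, ?_⟩
  -- the linear map to the first two components
  let L : (Fin 3 → ℝ) →ₗ[ℝ] (Fin 2 → ℝ) :=
    LinearMap.pi ![(Complex.reCLM.comp ((qf V).comp (g' 0))).toLinearMap.comp emb,
      (Complex.reCLM.comp ((qf V).comp (g' 1))).toLinearMap.comp emb]
  have hker : LinearMap.ker L ≠ ⊥ := L.ker_ne_bot_of_finrank_lt (by simp)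
  obtain ⟨y, hy, hy0⟩ := Submodule.exists_mem_ne_zero_of_ne_bot hker
  rw [LinearMap.mem_ker] at hy
  have hy1 : (qf V (g' 0 (emb y))).re = 0 := congrFun hy 0
  have hy2 : (qf V (g' 1 (emb y))).re = 0 := congrFun hy 1
  refine ⟨(emb y, 0), ?_, ?_⟩
  · intro h
    exact emb_ne hy0 (congrArg Prod.fst h)
  rw [jetM_dir V hg' (emb y)]
  have hT : SI * SS (AF (e : ℂ)) (bF e) (aF (e : ℂ)) (XX (e : ℂ)) = 1 := by
    rw [SS, AA_F, PP_F, SS_explicit, SI_sq]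
  have hz : ∀ j : Fin 5, 2 ≤ j → g' j (emb y) = 0 := by
    intro j hj
    apply hg0
    rw [hXo]
    refine KXdot hA hsol (emb_conj y) (hrel (emb y)) hT j fun s hs => ?_
    obtain ⟨p, q, r, h1⟩ := KAF e he he0 j hj
    obtain ⟨p', q', r', h2⟩ := KAF e he he0 s (emb_supp y s hs)
    rw [h1, h2]
    exact KM_zero _ _ _ _ _ _
  refine Prod.ext rfl (Prod.ext ?_ ?_)
  · funext j
    show (qf V (g' j (emb y))).re = 0
    fin_cases j
    · exact hy1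
    · exact hy2
    · show (qf V (g' 2 (emb y))).re = 0
      rw [hz 2 (by decide), map_zero]; rfl
    · show (qf V (g' 3 (emb y))).re = 0
      rw [hz 3 (by decide), map_zero]; rfl
    · show (qf V (g' 4 (emb y))).re = 0
      rw [hz 4 (by decide), map_zero]; rfl
  · funext j
    exact emb_im y j

end Pool.Agent.V11101.Jet
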