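import Pool.Agent.V11101.JetC

open Filter Topology Matrix
open scoped ComplexConjugate Matrix.Norms.L2Operator

namespace Pool.Agent.V11101.Jet

variable {n d : ℕ}

/-- The real-linear functional `M ↦ V* M V`. -/
noncomputable def qf (V : Fin n → ℂ) : Matrix (Fin n) (Fin n) ℂ →L[ℝ] ℂ :=
  LinearMap.toContinuousLinearMap
    { toFun := fun M => star V ⬝ᵥ (M *ᵥ V)
      map_add' := fun M N => by rw [Matrix.add_mulVec, dotProduct_add]
      map_smul' := fun c M => by
        rw [Matrix.smul_mulVec, dotProduct_smul]; rfl }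

lemma qf_apply (V : Fin n → ℂ) (M : Matrix (Fin n) (Fin n) ℂ) :
    qf V M = star V ⬝ᵥ (M *ᵥ V) := rfl

/-- The entry functional. -/
noncomputable def entry (i k : Fin n) : Matrix (Fin n) (Fin n) ℂ →L[ℝ] ℂ :=
  LinearMap.toContinuousLinearMap
    { toFun := fun M => M i k
      map_add' := fun M N => rfl
      map_smul' := fun c M => rfl }

lemma entry_apply (i k : Fin n) (M : Matrix (Fin n) (Fin n) ℂ) : entry i k M = M i k := rfl

/-- The 1-jet map. -/
noncomputable def jetM (A : Fin d → Matrix (Fin n) (Fin n) ℂ) (b : Fin d → ℝ)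
    (p : (Fin d → ℂ) × (Fin n → ℂ)) : (Fin n → ℂ) × (Fin d → ℝ) × (Fin d → ℝ) :=
  (p.2, fun j => (star p.2 ⬝ᵥ (gg A b j p.1 *ᵥ p.2)).re, fun j => (p.1 j).im)

lemma jetM_diff {A : Fin d → Matrix (Fin n) (Fin n) ℂ} {b : Fin d → ℝ}
    {a : Fin d → ℂ} (V : Fin n → ℂ)
    (hg : ∀ j, DifferentiableAt ℝ (gg A b j) a) :
    DifferentiableAt ℝ (jetM A b) (a, V) := by
  unfold jetM
  refine DifferentiableAt.prodMk differentiableAt_snd (DifferentiableAt.prodMk ?_ ?_)
  · rw [differentiableAt_pi]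
    intro j
    have hG : DifferentiableAt ℝ (fun p : (Fin d → ℂ) × (Fin n → ℂ) => gg A b j p.1) (a, V) :=
      DifferentiableAt.comp (g := gg A b j) (f := Prod.fst) (a, V) (hg j) differentiableAt_fst
    have hE : ∀ i k, DifferentiableAt ℝ
        (fun p : (Fin d → ℂ) × (Fin n → ℂ) => gg A b j p.1 i k) (a, V) := fun i k =>
      (entry i k).differentiableAt.comp (a, V) hG
    have hV : ∀ i, DifferentiableAt ℝ (fun p : (Fin d → ℂ) × (Fin n → ℂ) => p.2 i) (a, V) :=
      fun i => by fun_prop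
    have hVs : ∀ i, DifferentiableAt ℝ
        (fun p : (Fin d → ℂ) × (Fin n → ℂ) => star (p.2 i)) (a, V) := fun i => (hV i).star
    have h1 : DifferentiableAt ℝ (fun p : (Fin d → ℂ) × (Fin n → ℂ) =>
        ∑ i, star (p.2 i) * ∑ k, gg A b j p.1 i k * p.2 k) (a, V) := by
      refine DifferentiableAt.fun_sum fun i _ => ?_
      refine (hVs i).fun_mul (DifferentiableAt.fun_sum fun k _ => ?_)
      exact (hE i k).fun_mul (hV k)
    exact Complex.reCLM.differentiableAt.comp (a, V) h1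
  · rw [differentiableAt_pi]
    intro j
    have h1 : DifferentiableAt ℝ (fun p : (Fin d → ℂ) × (Fin n → ℂ) => p.1 j) (a, V) := by
      fun_prop
    exact Complex.imCLM.differentiableAt.comp (a, V) h1

lemma jetM_dir {A : Fin d → Matrix (Fin n) (Fin n) ℂ} {b : Fin d → ℝ}
    {a : Fin d → ℂ} (V : Fin n → ℂ) {g' : Fin d → (Fin d → ℂ) →L[ℝ] Matrix (Fin n) (Fin n) ℂ}
    (hg : ∀ j, HasFDerivAt (gg A b j) (g' j) a) (δ : Fin d → ℂ) :
    fderiv ℝ (jetM A b) (a, V) (δ, 0)
      = (0, fun j => (qf V (g' j δ)).re, fun j => (δ j).im) := by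
  have h1 := (jetM_diff V (fun j => (hg j).differentiableAt)).hasFDerivAt
  have h2 : HasFDerivAt (fun a' : Fin d → ℂ => ((a', V) : (Fin d → ℂ) × (Fin n → ℂ)))
      (ContinuousLinearMap.inl ℝ (Fin d → ℂ) (Fin n → ℂ)) a := hasFDerivAt_prodMk_left a V
  have h3 : HasFDerivAt (fun a' => jetM A b (a', V))
      ((fderiv ℝ (jetM A b) (a, V)).comp (ContinuousLinearMap.inl ℝ (Fin d → ℂ) (Fin n → ℂ))) a :=
    HasFDerivAt.comp (g := jetM A b) (f := fun a' => (a', V)) a h1 h2
  have h4 : HasFDerivAt (fun a' => jetM A b (a', V))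
      ((0 : (Fin d → ℂ) →L[ℝ] (Fin n → ℂ)).prod
        ((ContinuousLinearMap.pi fun j => Complex.reCLM.comp ((qf V).comp (g' j))).prod
          (ContinuousLinearMap.pi fun j => Complex.imCLM.comp
            (ContinuousLinearMap.proj (R := ℝ) (φ := fun _ : Fin d => ℂ) j)))) a := by
    unfold jetM
    refine HasFDerivAt.prodMk (hasFDerivAt_const V a) (HasFDerivAt.prodMk ?_ ?_)
    · rw [hasFDerivAt_pi]
      intro j
      exact (Complex.reCLM.hasFDerivAt.comp a ((qf V).hasFDerivAt.comp a (hg j)))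
    · rw [hasFDerivAt_pi]
      intro j
      exact Complex.imCLM.hasFDerivAt.comp a
        (ContinuousLinearMap.proj (R := ℝ) (φ := fun _ : Fin d => ℂ) j).hasFDerivAt
  have h5 := h3.unique h4
  have h6 := congrArg (fun f => f δ) h5
  exact h6

end Pool.Agent.V11101.Jet
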