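import Pool.Agent.V11101.JetD

open Filter Topology Matrix
open scoped ComplexConjugate Matrix.Norms.L2Operator

namespace Pool.Agent.V11101.Jet

/-- The test vector. -/
noncomputable def VF (e : ℝ) : Fin 6 → ℂ :=
  ![(e : ℂ), (e : ℂ) * Complex.I, -(e : ℂ), -((e : ℂ) * Complex.I), 3, 3]

lemma AI_inv (e : ℝ) : (AA (AF (e : ℂ)) (bF e) (aF (e : ℂ)))⁻¹ = AI (e : ℂ) := by
  rw [AA_F]
  exact Matrix.inv_eq_right_inv (AI_mul e)

lemma KK_Y (e : ℝ) (he : e < 1) (he0 : 0 ≤ e) (x1 x2 p q r : ℂ) :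
    KK (XX (e : ℂ)) (Gen (e : ℂ) x1 x2 p q r * AI (e : ℂ) * Gen (e : ℂ) x1 x2 p q r)
      = YX (e : ℂ) x1 x2 p q r := by
  rw [BX_eq]
  apply KK_unique (lt_of_le_of_lt (XX_norm e he0) he)
  rw [Matrix.star_eq_conjTranspose, XX_star]
  apply YX_eq
  norm_cast
  nlinarith

lemma qf_smul {n : ℕ} (V : Fin n → ℂ) (c : ℝ) (M : Matrix (Fin n) (Fin n) ℂ) :
    qf V ((c : ℂ) • M) = (c : ℂ) * qf V M := by
  rw [qf_apply, qf_apply, Matrix.smul_mulVec, dotProduct_smul, smul_eq_mul]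

lemma qf_Y (e : ℝ) (x1 x2 p q r : ℝ) :
    (qf (VF e) (YX (e : ℂ) x1 x2 p q r)).re =
      e^2 * (-4*x1*x2 - 4*x1^2 + 2*x2*(p+r) + 2*e^2*(p^2+2*q^2+r^2) + 2*x1*(p+r))
        + 9 * ((((1+e^2)*x1 - x2)^2 + ((1+e^2)*x1 + x2)^2) * (1+e^2)⁻¹ * (1-e^2)⁻¹) := by
  rw [qf_apply]
  have h : star (VF e) ⬝ᵥ (YX (e : ℂ) x1 x2 p q r *ᵥ VF e) =
      ((e^2 * (-4*x1*x2 - 4*x1^2 + 2*x2*(p+r) + 2*e^2*(p^2+2*q^2+r^2) + 2*x1*(p+r))
        + 9 * ((((1+e^2)*x1 - x2)^2 + ((1+e^2)*x1 + x2)^2) * (1+e^2)⁻¹ * (1-e^2)⁻¹) : ℝ) : ℂ) := by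
    have h3 : (starRingEnd ℂ) 3 = 3 := map_ofNat (starRingEnd ℂ) 3
    simp [VF, YX, Matrix.mulVec, dotProduct, Fin.sum_univ_succ, h3]
    ring_nf
    simp only [Complex.I_sq]
    ring
  rw [h, Complex.ofReal_re]

/-- The `D(a)`-matrix in terms of the auxiliary definitions. -/
noncomputable def DM {n d : ℕ} (A : Fin d → Matrix (Fin n) (Fin n) ℂ) (b : Fin d → ℝ)
    (a : Fin d → ℂ) (X : Matrix (Fin n) (Fin n) ℂ) (V : Fin n → ℂ) : Matrix (Fin d) (Fin d) ℝ :=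
  Matrix.of fun j s => (qf V (KK X (A j * (AA A b a)⁻¹ * A s))).re

lemma quad (e : ℝ) (he : e < 1) (he0 : 0 ≤ e) (x : Fin 5 → ℝ) (V : Fin 6 → ℂ) :
    x ⬝ᵥ (DM (AF (e : ℂ)) (bF e) (aF (e : ℂ)) (XX (e : ℂ)) V *ᵥ x) =
      (qf V (YX (e : ℂ) (x 0) (x 1) (x 2 + x 4) (x 3) (x 2 - x 4))).re := by
  have hX : ‖XX (e : ℂ)‖ < 1 := lt_of_le_of_lt (XX_norm e he0) he
  have h1 : YX (e : ℂ) (x 0) (x 1) (x 2 + x 4) (x 3) (x 2 - x 4)
      = ∑ j, (x j : ℂ) • ∑ s, (x s : ℂ) • KK (XX (e : ℂ)) (AF (e : ℂ) j * AI (e : ℂ) * AF (e : ℂ) s) := by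
    rw [← KK_Y e he he0, ← AF_sum (e : ℂ) (fun j => (x j : ℂ)), Finset.sum_mul, Finset.sum_mul]
    have h2 : ∀ j : Fin 5, (x j : ℂ) • AF (e : ℂ) j * AI (e : ℂ) * ∑ s, (x s : ℂ) • AF (e : ℂ) s
        = (x j : ℂ) • ∑ s, (x s : ℂ) • (AF (e : ℂ) j * AI (e : ℂ) * AF (e : ℂ) s) := by
      intro j
      rw [smul_mul_assoc, smul_mul_assoc, Finset.mul_sum]
      congr 1
      refine Finset.sum_congr rfl fun s _ => ?_
      rw [mul_smul_comm]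
    simp only [h2]
    rw [KK_sum _ _ _ hX]
    refine Finset.sum_congr rfl fun j _ => ?_
    rw [KK_sum _ _ _ hX]
  rw [h1, map_sum, Complex.re_sum]
  simp only [qf_smul, map_sum, Complex.re_ofReal_mul, Complex.re_sum]
  simp only [dotProduct, Matrix.mulVec, DM, AI_inv, Matrix.of_apply]
  refine Finset.sum_congr rfl fun j _ => ?_
  congr 1
  refine Finset.sum_congr rfl fun s _ => ?_
  ring

lemma DM_symm (e : ℝ) (he : e < 1) (he0 : 0 ≤ e) (V : Fin 6 → ℂ) :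
    (DM (AF (e : ℂ)) (bF e) (aF (e : ℂ)) (XX (e : ℂ)) V).IsHermitian := by
  have hX : ‖XX (e : ℂ)‖ < 1 := lt_of_le_of_lt (XX_norm e he0) he
  have hq : ∀ M : M6, (qf V (star M)).re = (qf V M).re := by
    intro M
    rw [qf_apply, qf_apply, Matrix.star_eq_conjTranspose]
    have h : star V ⬝ᵥ (Mᴴ *ᵥ V) = star (star V ⬝ᵥ (M *ᵥ V)) := by
      rw [← Matrix.star_dotProduct_star, star_star, Matrix.star_mulVec, ← Matrix.dotProduct_mulVec]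
    rw [h]
    simp
  have hK : ∀ B : M6, KK (XX (e : ℂ)) (star B) = star (KK (XX (e : ℂ)) B) := by
    intro B
    apply KK_unique hX
    have h1 := congrArg star (KK_eq (XX (e : ℂ)) B hX)
    simpa [mul_assoc] using h1
  have hAI : star (AI (e : ℂ)) = AI (e : ℂ) := by
    rw [← AI_inv, Matrix.star_eq_conjTranspose, Matrix.conjTranspose_nonsing_inv,
      ← Matrix.star_eq_conjTranspose, AA_star (AF_star e)]
  ext j s
  rw [Matrix.conjTranspose_apply]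
  simp only [DM, AI_inv, Matrix.of_apply, star_trivial]
  rw [← hq, ← hK]
  simp only [star_mul, hAI, AF_star, mul_assoc]

lemma DM_pos (e : ℝ) (he : e < 1) (he0 : 0 < e) :
    (DM (AF (e : ℂ)) (bF e) (aF (e : ℂ)) (XX (e : ℂ)) (VF e)).PosDef := by
  refine Matrix.PosDef.of_dotProduct_mulVec_pos (DM_symm e he he0.le _) fun x hx => ?_
  rw [star_trivial, quad e he he0.le]
  have h := qf_Y e (x 0) (x 1) (x 2 + x 4) (x 3) (x 2 - x 4)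
  push_cast at h
  rw [h]
  have he2 : 0 < e ^ 2 := by positivity
  have he3 : e ^ 2 < 1 := by nlinarith
  have h4 : 2 * ((x 0) ^ 2 + (x 1) ^ 2) ≤
      (((1+e^2)*(x 0) - x 1)^2 + ((1+e^2)*(x 0) + x 1)^2) * (1+e^2)⁻¹ * (1-e^2)⁻¹ := by
    have h5 : (0:ℝ) < (1 + e^2) := by positivity
    have h6 : (0:ℝ) < (1 - e^2) := by linarith
    rw [← div_eq_mul_inv, ← div_eq_mul_inv, div_div, le_div_iff₀ (by positivity)]
    nlinarith [sq_nonneg (x 0), sq_nonneg (x 1), mul_nonneg he2.le (sq_nonneg (x 0)),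
      mul_nonneg he2.le (sq_nonneg (x 1)), mul_nonneg (mul_nonneg he2.le he2.le) (sq_nonneg (x 0)),
      mul_nonneg (mul_nonneg he2.le he2.le) (sq_nonneg (x 1))]
  set Q := (((1+e^2)*(x 0) - x 1)^2 + ((1+e^2)*(x 0) + x 1)^2) * (1+e^2)⁻¹ * (1-e^2)⁻¹ with hQ
  have hlow : 8 * (x 0)^2 + 12 * (x 1)^2 + 2 * e^4 * (x 2)^2 + 4 * e^4 * (x 3)^2 + 4 * e^4 * (x 4)^2 ≤
      e^2 * (-4*(x 0)*(x 1) - 4*(x 0)^2 + 2*(x 1)*(x 2 + x 4+(x 2 - x 4)) +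
        2*e^2*((x 2 + x 4)^2+2*(x 3)^2+(x 2 - x 4)^2) + 2*(x 0)*(x 2 + x 4+(x 2 - x 4))) + 9 * Q := by
    have a1 : 0 ≤ (2 * x 1 + e^2 * x 2)^2 := sq_nonneg _
    have a2 : 0 ≤ (2 * x 0 + e^2 * x 2)^2 := sq_nonneg _
    have a3 : e^2 * (4 * (x 0) * (x 1)) ≤ 2 * (x 0)^2 + 2 * (x 1)^2 := by
      nlinarith [sq_nonneg (x 0 - x 1), sq_nonneg (x 0 + x 1), mul_nonneg he2.le (sq_nonneg (x 0 - x 1)),
        mul_nonneg (sub_nonneg.mpr he3.le) (add_nonneg (sq_nonneg (x 0)) (sq_nonneg (x 1)))]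
    have a4 : e^2 * (4 * (x 0)^2) ≤ 4 * (x 0)^2 := by
      nlinarith [mul_nonneg (sub_nonneg.mpr he3.le) (sq_nonneg (x 0))]
    nlinarith [a1, a2, a3, a4, h4]
  refine lt_of_lt_of_le ?_ hlow
  have he4 : 0 < e ^ 4 := by positivity
  by_contra hcon
  push Not at hcon
  apply hx
  have n0 := sq_nonneg (x 0)
  have n1 := sq_nonneg (x 1)
  have n2 := mul_nonneg he4.le (sq_nonneg (x 2))
  have n3 := mul_nonneg he4.le (sq_nonneg (x 3))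
  have n4 := mul_nonneg he4.le (sq_nonneg (x 4))
  have z0 : (x 0) ^ 2 = 0 := by nlinarith
  have z1 : (x 1) ^ 2 = 0 := by nlinarith
  have z2 : e ^ 4 * (x 2) ^ 2 = 0 := by nlinarith
  have z3 : e ^ 4 * (x 3) ^ 2 = 0 := by nlinarith
  have z4 : e ^ 4 * (x 4) ^ 2 = 0 := by nlinarith
  ext i
  fin_cases i
  · exact pow_eq_zero_iff (two_ne_zero) |>.mp z0
  · exact pow_eq_zero_iff (two_ne_zero) |>.mp z1
  · exact pow_eq_zero_iff (two_ne_zero) |>.mp ((mul_eq_zero.mp z2).resolve_left he4.ne')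
  · exact pow_eq_zero_iff (two_ne_zero) |>.mp ((mul_eq_zero.mp z3).resolve_left he4.ne')
  · exact pow_eq_zero_iff (two_ne_zero) |>.mp ((mul_eq_zero.mp z4).resolve_left he4.ne')

end Pool.Agent.V11101.Jet
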