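import Pool.Agent.V11101.Proj
import Pool.Agent.V11101.Free

/-!
# A metric space with octahedral free space
-/

set_option linter.unusedSectionVars false

open Set Filter Topology
open Pool.Agent.V11101.LF

namespace Pool.Agent.V11101.Oct

/-- An octahedral norm. -/
def Octahedral (Z : Type) [NormedAddCommGroup Z] [NormedSpace ℝ Z] : Prop :=
  ∀ E : Submodule ℝ Z, FiniteDimensional ℝ E → ∀ ε : ℝ, 0 < ε →
    ∃ z : Z, ‖z‖ = 1 ∧ ∀ y ∈ E, ∀ t : ℝ, (1 - ε) * (‖y‖ + |t|) ≤ ‖y + t • z‖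

/-- The metric space: three points at mutual distance `2` and a sequence of points at mutual
distance `0.31`, at distance `1.155` from the three points. -/
def MM : Type := Fin 3 ⊕ ℕ

/-- The distance. -/
noncomputable def dd : Fin 3 ⊕ ℕ → Fin 3 ⊕ ℕ → ℝ
  | Sum.inl i, Sum.inl j => if i = j then 0 else 2
  | Sum.inl _, Sum.inr _ => 231 / 200
  | Sum.inr _, Sum.inl _ => 231 / 200
  | Sum.inr n, Sum.inr m => if n = m then 0 else 31 / 100

lemma dd_self (x : Fin 3 ⊕ ℕ) : dd x x = 0 := by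
  rcases x with i | n <;> simp [dd]

lemma dd_comm (x y : Fin 3 ⊕ ℕ) : dd x y = dd y x := by
  rcases x with i | n <;> rcases y with j | m <;> simp [dd, eq_comm]

lemma dd_triangle (x y z : Fin 3 ⊕ ℕ) : dd x z ≤ dd x y + dd y z := by
  rcases x with i | n <;> rcases y with j | m <;> rcases z with k | l <;> simp only [dd] <;>
    split_ifs <;> first | (subst_vars; contradiction) | norm_num

lemma eq_of_dd (x y : Fin 3 ⊕ ℕ) (h : dd x y = 0) : x = y := by
  rcases x with i | n <;> rcases y with j | m <;> simp only [dd] at h <;>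
    first | (split_ifs at h with h1 <;> first | rw [h1] | norm_num at h) | norm_num at h

noncomputable instance : MetricSpace MM where
  dist x y := dd x y
  dist_self := dd_self
  dist_comm := dd_comm
  dist_triangle := dd_triangle
  eq_of_dist_eq_zero {x y} h := eq_of_dd x y h

/-- the three points -/
def pa (i : Fin 3) : MM := Sum.inl i
/-- the sequence -/
def pu (n : ℕ) : MM := Sum.inr n

lemma dist_pa {i j : Fin 3} (h : i ≠ j) : dist (pa i) (pa j) = 2 := if_neg h
lemma dist_pa_pu (i : Fin 3) (n : ℕ) : dist (pa i) (pu n) = 231 / 200 := rfl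
lemma dist_pu_pa (i : Fin 3) (n : ℕ) : dist (pu n) (pa i) = 231 / 200 := rfl
lemma dist_pu {n m : ℕ} (h : n ≠ m) : dist (pu n) (pu m) = 31 / 100 := if_neg h

lemma MM_cases (x : MM) : (∃ i, x = pa i) ∨ ∃ n, x = pu n := by
  rcases x with i | n
  · exact Or.inl ⟨i, rfl⟩
  · exact Or.inr ⟨n, rfl⟩

lemma pu_inj {n m : ℕ} (h : pu n = pu m) : n = m := Sum.inr_injective h
lemma pa_ne_pu (i : Fin 3) (n : ℕ) : pa i ≠ pu n := Sum.inl_ne_inr
lemma pu_ne_pa (i : Fin 3) (n : ℕ) : pu n ≠ pa i := Sum.inr_ne_inl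

/-- modification of a Lipschitz function at two points of the sequence -/
theorem modify (f : MM → ℝ) (hf : ∀ x y, |f x - f y| ≤ dist x y) (n m : ℕ) (hnm : n ≠ m) :
    ∃ g : MM → ℝ, (∀ x y, |g x - g y| ≤ dist x y) ∧ (∀ x, x ≠ pu n → x ≠ pu m → g x = f x) ∧
      g (pu n) - g (pu m) = 31 / 100 := by
  classical
  -- the interval
  have hbdd : BddAbove (range fun k => f (pu k)) := by
    refine ⟨f (pu 0) + 31 / 100, ?_⟩
    rintro _ ⟨k, rfl⟩
    have h1 := (abs_le.1 (hf (pu k) (pu 0))).2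
    have h2 : dist (pu k) (pu 0) ≤ 31 / 100 := by
      rcases eq_or_ne k 0 with rfl | h
      · rw [dist_self]; norm_num
      · exact (dist_pu h).le
    show f (pu k) ≤ _
    linarith
  set d : ℝ := ⨆ k, f (pu k) with hd
  have hd1 : ∀ k, f (pu k) ≤ d := fun k => le_ciSup hbdd k
  have hd2 : ∀ k, d ≤ f (pu k) + 31 / 100 := by
    intro k
    refine ciSup_le fun j => ?_
    have h1 := (abs_le.1 (hf (pu j) (pu k))).2
    have h2 : dist (pu j) (pu k) ≤ 31 / 100 := by
      rcases eq_or_ne j k with rfl | h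
      · rw [dist_self]; norm_num
      · exact (dist_pu h).le
    linarith
  have hau : ∀ i k, |f (pa i) - f (pu k)| ≤ 231 / 200 := fun i k => by
    have := hf (pa i) (pu k)
    rwa [dist_pa_pu] at this
  have haa : ∀ i j, |f (pa i) - f (pa j)| ≤ 2 := fun i j => by
    rcases eq_or_ne i j with rfl | h
    · simp
    · have := hf (pa i) (pa j)
      rwa [dist_pa h] at this
  obtain ⟨i0, -, hi0⟩ := Finset.exists_max_image Finset.univ (fun i => f (pa i)) ⟨0, Finset.mem_univ _⟩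
  set t : ℝ := max (f (pa i0) - 231 / 200) (d - 31 / 100) with ht
  have ht1 : ∀ k, t ≤ f (pu k) := by
    intro k
    refine max_le ?_ ?_
    · have := (abs_le.1 (hau i0 k)).2
      linarith
    · linarith [hd2 k]
  have ht2 : ∀ k, f (pu k) ≤ t + 31 / 100 := by
    intro k
    have := le_max_right (f (pa i0) - 231 / 200) (d - 31 / 100)
    linarith [hd1 k]
  have ht3 : ∀ i, f (pa i) - 231 / 200 ≤ t := by
    intro i
    refine le_trans ?_ (le_max_left _ _)
    linarith [hi0 i (Finset.mem_univ i)]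
  have ht4 : ∀ i, t + 31 / 100 ≤ f (pa i) + 231 / 200 := by
    intro i
    have h1 : t ≤ f (pa i) + 231 / 200 - 31 / 100 := by
      refine max_le ?_ ?_
      · have := (abs_le.1 (haa i0 i)).2
        linarith
      · have h2 : d ≤ f (pa i) + 231 / 200 := by
          refine ciSup_le fun k => ?_
          have := (abs_le.1 (hau i k)).1
          linarith
        linarith
    linarith
  set g : MM → ℝ := fun x => if x = pu n then t + 31 / 100 else if x = pu m then t else f x with hg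
  have hgn : g (pu n) = t + 31 / 100 := if_pos rfl
  have hgm : g (pu m) = t := by
    rw [hg]
    show (if pu m = pu n then _ else if pu m = pu m then t else _) = t
    rw [if_neg (fun h => hnm (pu_inj h).symm), if_pos rfl]
  have hgo : ∀ x, x ≠ pu n → x ≠ pu m → g x = f x := by
    intro x h1 h2
    rw [hg]
    show (if x = pu n then _ else if x = pu m then t else _) = _
    rw [if_neg h1, if_neg h2]
  -- the values at the other points
  have hgu : ∀ k, t ≤ g (pu k) ∧ g (pu k) ≤ t + 31 / 100 := by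
    intro k
    by_cases h1 : k = n
    · subst h1; rw [hgn]; constructor <;> linarith
    by_cases h2 : k = m
    · subst h2; rw [hgm]; constructor <;> linarith
    rw [hgo (pu k) (fun h => h1 (pu_inj h)) (fun h => h2 (pu_inj h))]
    exact ⟨ht1 k, ht2 k⟩
  have hga : ∀ i, g (pa i) = f (pa i) := fun i => hgo _ (pa_ne_pu i n) (pa_ne_pu i m)
  refine ⟨g, fun x y => ?_, hgo, by rw [hgn, hgm]; ring⟩
  rcases MM_cases x with ⟨i, rfl⟩ | ⟨k, rfl⟩ <;> rcases MM_cases y with ⟨j, rfl⟩ | ⟨l, rfl⟩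
  · rw [hga, hga]; exact hf _ _
  · rw [hga, dist_pa_pu, abs_le]
    constructor <;> linarith [hgu l, ht3 i, ht4 i, (hgu l).1, (hgu l).2]
  · rw [hga, dist_pu_pa, abs_le]
    constructor <;> linarith [ht3 j, ht4 j, (hgu k).1, (hgu k).2]
  · rcases eq_or_ne k l with rfl | h
    · simp
    · rw [dist_pu h, abs_le]
      constructor <;> linarith [(hgu k).1, (hgu k).2, (hgu l).1, (hgu l).2]

/-- base point -/
def oo : MM := pa 0

/-- elements of the free space which do not see the tail of the sequence -/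
def WW : Submodule ℝ (Free MM oo) where
  carrier := {y | ∀ ε : ℝ, 0 < ε → ∃ N : ℕ, ∀ n m, N ≤ n → N ≤ m → ∀ f f' : Lip0 MM oo,
    ‖f‖ ≤ 1 → ‖f'‖ ≤ 1 → (∀ x, x ≠ pu n → x ≠ pu m → f' x = f x) → |y.app f' - y.app f| ≤ ε}
  add_mem' := by
    intro y z hy hz ε hε
    obtain ⟨N, hN⟩ := hy (ε / 2) (half_pos hε)
    obtain ⟨N', hN'⟩ := hz (ε / 2) (half_pos hε)
    refine ⟨max N N', fun n m hn hm f f' hf hf' hff => ?_⟩
    have h1 := hN n m (le_of_max_le_left hn) (le_of_max_le_left hm) f f' hf hf' hff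
    have h2 := hN' n m (le_of_max_le_right hn) (le_of_max_le_right hm) f f' hf hf' hff
    rw [Free.add_app, Free.add_app, show y.app f' + z.app f' - (y.app f + z.app f) =
      (y.app f' - y.app f) + (z.app f' - z.app f) by ring]
    exact (abs_add_le _ _).trans (by linarith)
  zero_mem' := by
    intro ε hε
    exact ⟨0, fun n m _ _ f f' _ _ _ => by rw [Free.zero_app, Free.zero_app]; simpa using hε.le⟩
  smul_mem' := by
    intro c y hy ε hε
    obtain ⟨N, hN⟩ := hy (ε / (|c| + 1)) (by positivity)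
    refine ⟨N, fun n m hn hm f f' hf hf' hff => ?_⟩
    have h1 := hN n m hn hm f f' hf hf' hff
    rw [Free.smul_app, Free.smul_app, ← mul_sub, abs_mul]
    calc |c| * |y.app f' - y.app f| ≤ |c| * (ε / (|c| + 1)) :=
          mul_le_mul_of_nonneg_left h1 (abs_nonneg c)
      _ ≤ ε := by
          rw [mul_div_assoc', div_le_iff₀ (by positivity)]
          nlinarith [abs_nonneg c]

theorem mem_WW (y : Free MM oo) : y ∈ WW := by
  refine mem_of_closed WW ?_ (fun x => ?_) y
  · rw [← closure_subset_iff_isClosed]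
    intro y hy ε hε
    rw [Metric.mem_closure_iff] at hy
    obtain ⟨z, hz, hyz⟩ := hy (ε / 4) (by positivity)
    obtain ⟨N, hN⟩ := hz (ε / 4) (by positivity)
    refine ⟨N, fun n m hn hm f f' hf hf' hff => ?_⟩
    have h1 := hN n m hn hm f f' hf hf' hff
    rw [dist_eq_norm] at hyz
    have h2 : ∀ h : Lip0 MM oo, ‖h‖ ≤ 1 → |y.app h - z.app h| ≤ ε / 4 := by
      intro h hh
      have h3 := (y - z).abs_app_le h
      rw [Free.sub_app] at h3
      refine h3.trans ?_
      calc ‖y - z‖ * ‖h‖ ≤ ‖y - z‖ * 1 := mul_le_mul_of_nonneg_left hh (norm_nonneg _)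
        _ ≤ ε / 4 := by rw [mul_one]; exact hyz.le
    have h3 := abs_le.1 (h2 f hf)
    have h4 := abs_le.1 (h2 f' hf')
    have h5 := abs_le.1 h1
    rw [abs_le]
    constructor <;> linarith [h3.1, h3.2, h4.1, h4.2, h5.1, h5.2]
  · intro ε hε
    obtain ⟨N, hN⟩ : ∃ N : ℕ, ∀ n, N ≤ n → x ≠ pu n := by
      rcases MM_cases x with ⟨i, rfl⟩ | ⟨k, rfl⟩
      · exact ⟨0, fun n _ => pa_ne_pu i n⟩
      · exact ⟨k + 1, fun n hn h => by have := pu_inj h; omega⟩
    refine ⟨N, fun n m hn hm f f' _ _ hff => ?_⟩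
    rw [delta_app, delta_app, hff x (hN n hn) (hN m hm), sub_self, abs_zero]
    exact hε.le

/-- uniformity on finite-dimensional subspaces -/
theorem uniform_WW (E : Submodule ℝ (Free MM oo)) [FiniteDimensional ℝ E] (ε : ℝ) (hε : 0 < ε) :
    ∃ N : ℕ, ∀ n m, N ≤ n → N ≤ m → ∀ f f' : Lip0 MM oo, ‖f‖ ≤ 1 → ‖f'‖ ≤ 1 →
      (∀ x, x ≠ pu n → x ≠ pu m → f' x = f x) → ∀ y ∈ E, |y.app f' - y.app f| ≤ ε * ‖y‖ := by
  have hprop : ProperSpace E := FiniteDimensional.proper ℝ E
  have hK : IsCompact (Metric.closedBall (0 : E) 1) := isCompact_closedBall _ _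
  obtain ⟨t, -, htfin, ht⟩ := hK.finite_cover_balls (e := ε / 4) (by positivity)
  have h1 : ∀ x : E, ∃ N : ℕ, ∀ n m, N ≤ n → N ≤ m → ∀ f f' : Lip0 MM oo, ‖f‖ ≤ 1 → ‖f'‖ ≤ 1 →
      (∀ x, x ≠ pu n → x ≠ pu m → f' x = f x) → |(x : Free MM oo).app f' - (x : Free MM oo).app f| ≤
        ε / 4 := fun x => mem_WW (x : Free MM oo) (ε / 4) (by positivity)
  choose Nx hNx using h1
  obtain ⟨N, hN⟩ : ∃ N : ℕ, ∀ x ∈ t, Nx x ≤ N := by
    obtain ⟨N, hN⟩ := (htfin.image Nx).bddAbove
    exact ⟨N, fun x hx => hN ⟨x, hx, rfl⟩⟩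
  refine ⟨N, fun n m hn hm f f' hf hf' hff y hy => ?_⟩
  rcases eq_or_ne y 0 with rfl | hy0
  · rw [Free.zero_app, Free.zero_app]; simp
  have hny : 0 < ‖y‖ := norm_pos_iff.2 hy0
  set e : E := ⟨‖y‖⁻¹ • y, E.smul_mem _ hy⟩ with he
  have hne : ‖e‖ ≤ 1 := by
    show ‖‖y‖⁻¹ • y‖ ≤ 1
    rw [norm_smul, norm_inv, norm_norm, inv_mul_cancel₀ hny.ne']
  have h2 := ht (mem_closedBall_zero_iff.2 hne)
  simp only [mem_iUnion, Metric.mem_ball] at h2
  obtain ⟨x, hx, hxe⟩ := h2
  have h3 := hNx x n m ((hN x hx).trans hn) ((hN x hx).trans hm) f f' hf hf' hff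
  rw [dist_eq_norm] at hxe
  have hxe' : ‖(e : Free MM oo) - x‖ < ε / 4 := hxe
  have h4 : ∀ h : Lip0 MM oo, ‖h‖ ≤ 1 → |(e : Free MM oo).app h - (x : Free MM oo).app h| ≤ ε / 4 := by
    intro h hh
    have h5 := ((e : Free MM oo) - x).abs_app_le h
    rw [Free.sub_app] at h5
    refine h5.trans ?_
    calc ‖(e : Free MM oo) - x‖ * ‖h‖ ≤ ‖(e : Free MM oo) - x‖ * 1 :=
          mul_le_mul_of_nonneg_left hh (norm_nonneg _)
      _ ≤ ε / 4 := by rw [mul_one]; exact hxe'.le
  have h5 : |(e : Free MM oo).app f' - (e : Free MM oo).app f| ≤ ε := by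
    have h6 := abs_le.1 (h4 f hf)
    have h7 := abs_le.1 (h4 f' hf')
    have h8 := abs_le.1 h3
    rw [abs_le]
    constructor <;> linarith [h6.1, h6.2, h7.1, h7.2, h8.1, h8.2]
  have h6 : (e : Free MM oo) = ‖y‖⁻¹ • y := rfl
  rw [h6, Free.smul_app, Free.smul_app, ← mul_sub, abs_mul, abs_of_pos (inv_pos.2 hny),
    inv_mul_le_iff₀ hny, mul_comm] at h5
  exact h5

lemma exists_norming (y : Free MM oo) (ε : ℝ) (hε : 0 < ε) :
    ∃ f : Lip0 MM oo, ‖f‖ ≤ 1 ∧ (1 - ε) * ‖y‖ ≤ y.app f := by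
  rcases eq_or_ne y 0 with rfl | hy0
  · exact ⟨0, by rw [norm_zero]; exact zero_le_one, by rw [norm_zero, mul_zero, Free.zero_app]⟩
  have hny : 0 < ‖y‖ := norm_pos_iff.2 hy0
  rcases le_or_gt 1 ε with h1 | h1
  · refine ⟨0, by rw [norm_zero]; exact zero_le_one, ?_⟩
    have : y.app 0 = 0 := by
      have := y.abs_app_le 0
      rw [norm_zero, mul_zero] at this
      exact abs_nonpos_iff.1 this
    rw [this]
    nlinarith
  by_contra hcon
  push Not at hcon
  have h2 : ‖y‖ ≤ (1 - ε) * ‖y‖ := by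
    refine Free.norm_le (by nlinarith) fun f => ?_
    rcases eq_or_ne f 0 with rfl | hf0
    · have := y.abs_app_le 0
      rw [norm_zero, mul_zero] at this
      rw [norm_zero, mul_zero]
      exact this
    have hnf : 0 < ‖f‖ := norm_pos_iff.2 hf0
    have h3 : ∀ s : ℝ, |s| = 1 → s * y.app f ≤ (1 - ε) * ‖y‖ * ‖f‖ := by
      intro s hs
      have h4 := hcon ((s * ‖f‖⁻¹) • f) (by
        rw [norm_smul, Real.norm_eq_abs, abs_mul, hs, one_mul, abs_of_pos (inv_pos.2 hnf),
          inv_mul_cancel₀ hnf.ne'])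
      rw [Free.app_smul] at h4
      have h5 : s * y.app f = (s * ‖f‖⁻¹ * y.app f) * ‖f‖ := by
        field_simp
      rw [h5]
      exact mul_le_mul_of_nonneg_right h4.le hnf.le
    rw [abs_le]
    constructor
    · have := h3 (-1) (by simp)
      linarith
    · have := h3 1 (by simp)
      linarith
  nlinarith

/-- The free space of `MM` is octahedral. -/
theorem octahedral_free : Octahedral (Free MM oo) := by
  intro E hE ε hε
  obtain ⟨N, hN⟩ := uniform_WW E (ε / 2) (half_pos hε)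
  set n := N with hn
  set m := N + 1 with hm
  have hnm : n ≠ m := by omega
  set z : Free MM oo := (31 / 100 : ℝ)⁻¹ • (delta oo (pu n) - delta oo (pu m)) with hz
  have hznorm : ‖z‖ = 1 := by
    rw [hz, norm_smul, norm_delta_sub, dist_pu hnm]
    norm_num
  refine ⟨z, hznorm, fun y hy t => ?_⟩
  obtain ⟨f, hf1, hf2⟩ := exists_norming y (ε / 2) (half_pos hε)
  have hfl : ∀ x y, |f x - f y| ≤ dist x y := fun x y => by
    refine (f.abs_sub_le x y).trans ?_
    calc ‖f‖ * dist x y ≤ 1 * dist x y := mul_le_mul_of_nonneg_right hf1 dist_nonneg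
      _ = dist x y := one_mul _
  -- the modified function
  obtain ⟨g, hg1, hg2, hg3⟩ : ∃ g : MM → ℝ, (∀ x y, |g x - g y| ≤ dist x y) ∧
      (∀ x, x ≠ pu n → x ≠ pu m → g x = f x) ∧
      t * ((31 / 100 : ℝ)⁻¹ * (g (pu n) - g (pu m))) = |t| := by
    rcases le_or_gt 0 t with ht | ht
    · obtain ⟨g, h1, h2, h3⟩ := modify f hfl n m hnm
      exact ⟨g, h1, h2, by rw [h3, abs_of_nonneg ht]; norm_num⟩
    · obtain ⟨g, h1, h2, h3⟩ := modify f hfl m n hnm.symm
      refine ⟨g, h1, fun x hx hx' => h2 x hx' hx, ?_⟩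
      have h4 : g (pu n) - g (pu m) = -(31 / 100) := by linarith
      rw [h4, abs_of_neg ht]; ring
  have hgo : g oo = 0 := by
    rw [hg2 oo (pa_ne_pu 0 n) (pa_ne_pu 0 m)]
    exact f.map_base
  let g' : Lip0 MM oo := Lip0.mk' g hgo 1 (fun x y => by rw [one_mul]; exact hg1 x y)
  have hg'n : ‖g'‖ ≤ 1 := Lip0.norm_le zero_le_one fun x y => by rw [one_mul]; exact hg1 x y
  have h1 := hN n m le_rfl (Nat.le_succ N) f g' hf1 hg'n (fun x hx hx' => hg2 x hx hx') y hy
  have h2 : (y + t • z).app g' = y.app g' + |t| := by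
    rw [Free.add_app, Free.smul_app, hz, Free.smul_app, Free.sub_app, delta_app, delta_app]
    have : t * ((31 / 100 : ℝ)⁻¹ * (g' (pu n) - g' (pu m))) = |t| := hg3
    rw [this]
  have h3 : (y + t • z).app g' ≤ ‖y + t • z‖ := by
    refine (le_abs_self _).trans (((y + t • z).abs_app_le g').trans ?_)
    calc ‖y + t • z‖ * ‖g'‖ ≤ ‖y + t • z‖ * 1 := mul_le_mul_of_nonneg_left hg'n (norm_nonneg _)
      _ = ‖y + t • z‖ := mul_one _
  have h4 := (abs_le.1 h1).1
  have h5 := abs_nonneg t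
  have h6 := norm_nonneg y
  rw [h2] at h3
  nlinarith

end Pool.Agent.V11101.Oct
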