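import Pool.Agent.V11101.OctEx

/-!
# The projective tensor product with a Hilbert space is not octahedral
-/

set_option linter.unusedSectionVars false

open Set Filter Topology
open Pool.Agent.V11101.LF Pool.Agent.V11101.Proj
open scoped RealInnerProductSpace

namespace Pool.Agent.V11101.Oct

section

variable {H : Type} [NormedAddCommGroup H] [InnerProductSpace ℝ H]

/-- the error at one side of the triangle -/
lemma side_error (A B w : H) (hw : ‖w‖ = 1) (hAB : ‖A - B‖ ≤ 2)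
    (hs : 1 - 4 / 1000000 ≤ 1 / 2 * ⟪A - B, w⟫) : ‖(A - B) - (2 : ℝ) • w‖ ≤ 6 / 1000 := by
  have h1 : ‖(A - B) - (2 : ℝ) • w‖ ^ 2 = ‖A - B‖ ^ 2 - 4 * ⟪A - B, w⟫ + 4 := by
    rw [norm_sub_sq_real, inner_smul_right, norm_smul, hw]
    norm_num
    ring
  have h2 : ‖A - B‖ ^ 2 ≤ 4 := by
    have := norm_nonneg (A - B)
    nlinarith
  have h3 : ‖(A - B) - (2 : ℝ) • w‖ ^ 2 ≤ (6 / 1000) ^ 2 := by
    rw [h1]; linarith
  exact le_of_sq_le_sq h3 (by norm_num)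

lemma side_le (A B w : H) (hw : ‖w‖ = 1) (hAB : ‖A - B‖ ≤ 2) : 1 / 2 * ⟪A - B, w⟫ ≤ 1 := by
  have h := real_inner_le_norm (A - B) w
  rw [hw, mul_one] at h
  linarith

lemma ww (q a b : H) (ha : ‖a‖ = 1) (hb : ‖b‖ = 1) (hab : ⟪a, b⟫ = -1 / 2) :
    ‖q - (2 / 3 : ℝ) • (a - b)‖ ^ 2 = ‖q‖ ^ 2 - 4 / 3 * (⟪q, a⟫ - ⟪q, b⟫) + 4 / 3 := by
  rw [norm_sub_sq_real, inner_smul_right, inner_sub_right, norm_smul, mul_pow, norm_sub_sq_real,
    ha, hb, hab]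
  norm_num
  ring

/-- The position of the points. -/
theorem region (w0 w1 w2 A0 A1 A2 : H) (h0 : ‖w0‖ = 1) (h1 : ‖w1‖ = 1) (h2 : ‖w2‖ = 1)
    (hw : w0 + w1 + w2 = 0) (h01 : ‖A0 - A1‖ ≤ 2) (h12 : ‖A1 - A2‖ ≤ 2) (h20 : ‖A2 - A0‖ ≤ 2)
    (hs : 3 - 4 / 1000000 ≤ 1 / 2 * ⟪A0 - A1, w0⟫ + 1 / 2 * ⟪A1 - A2, w1⟫ + 1 / 2 * ⟪A2 - A0, w2⟫) :
    ‖(A0 - (1 / 3 : ℝ) • (A0 + A1 + A2)) - (2 / 3 : ℝ) • (w0 - w2)‖ ≤ 5 / 1000 ∧
    ‖(A1 - (1 / 3 : ℝ) • (A0 + A1 + A2)) - (2 / 3 : ℝ) • (w1 - w0)‖ ≤ 5 / 1000 ∧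
    ‖(A2 - (1 / 3 : ℝ) • (A0 + A1 + A2)) - (2 / 3 : ℝ) • (w2 - w1)‖ ≤ 5 / 1000 ∧
    ∀ U : H, ‖U - A0‖ ≤ 231 / 200 → ‖U - A1‖ ≤ 231 / 200 → ‖U - A2‖ ≤ 231 / 200 →
      ‖U - (1 / 3 : ℝ) • (A0 + A1 + A2)‖ ≤ 111 / 1000 := by
  have s0 := side_le A0 A1 w0 h0 h01
  have s1 := side_le A1 A2 w1 h1 h12
  have s2 := side_le A2 A0 w2 h2 h20
  have e0 := side_error A0 A1 w0 h0 h01 (by linarith)
  have e1 := side_error A1 A2 w1 h1 h12 (by linarith)
  have e2 := side_error A2 A0 w2 h2 h20 (by linarith)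
  have comb : ∀ e e' : H, ‖e‖ ≤ 6 / 1000 → ‖e'‖ ≤ 6 / 1000 → ‖(1 / 3 : ℝ) • (e - e')‖ ≤ 5 / 1000 := by
    intro e e' he he'
    rw [norm_smul, Real.norm_eq_abs, abs_of_pos (by norm_num)]
    have := norm_sub_le e e'
    linarith
  have p0 : ‖(A0 - (1 / 3 : ℝ) • (A0 + A1 + A2)) - (2 / 3 : ℝ) • (w0 - w2)‖ ≤ 5 / 1000 := by
    have h : (A0 - (1 / 3 : ℝ) • (A0 + A1 + A2)) - (2 / 3 : ℝ) • (w0 - w2) =
        (1 / 3 : ℝ) • (((A0 - A1) - (2 : ℝ) • w0) - ((A2 - A0) - (2 : ℝ) • w2)) := by module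
    rw [h]; exact comb _ _ e0 e2
  have p1 : ‖(A1 - (1 / 3 : ℝ) • (A0 + A1 + A2)) - (2 / 3 : ℝ) • (w1 - w0)‖ ≤ 5 / 1000 := by
    have h : (A1 - (1 / 3 : ℝ) • (A0 + A1 + A2)) - (2 / 3 : ℝ) • (w1 - w0) =
        (1 / 3 : ℝ) • (((A1 - A2) - (2 : ℝ) • w1) - ((A0 - A1) - (2 : ℝ) • w0)) := by module
    rw [h]; exact comb _ _ e1 e0
  have p2 : ‖(A2 - (1 / 3 : ℝ) • (A0 + A1 + A2)) - (2 / 3 : ℝ) • (w2 - w1)‖ ≤ 5 / 1000 := by
    have h : (A2 - (1 / 3 : ℝ) • (A0 + A1 + A2)) - (2 / 3 : ℝ) • (w2 - w1) =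
        (1 / 3 : ℝ) • (((A2 - A0) - (2 : ℝ) • w2) - ((A1 - A2) - (2 : ℝ) • w1)) := by module
    rw [h]; exact comb _ _ e2 e1
  refine ⟨p0, p1, p2, fun U u0 u1 u2 => ?_⟩
  set c := (1 / 3 : ℝ) • (A0 + A1 + A2) with hc
  set q := U - c with hq
  -- inner products of the `w`s
  have i01 : ⟪w0, w1⟫ = -1 / 2 := by
    have h : w2 = -(w0 + w1) := by
      rw [eq_neg_iff_add_eq_zero, ← hw]; abel
    have h3 : ‖w0 + w1‖ ^ 2 = 1 := by rw [← norm_neg, ← h, h2]; norm_num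
    rw [norm_add_sq_real, h0, h1] at h3
    linarith
  have i12 : ⟪w1, w2⟫ = -1 / 2 := by
    have h : w0 = -(w1 + w2) := by
      rw [eq_neg_iff_add_eq_zero, ← hw]; abel
    have h3 : ‖w1 + w2‖ ^ 2 = 1 := by rw [← norm_neg, ← h, h0]; norm_num
    rw [norm_add_sq_real, h1, h2] at h3
    linarith
  have i20 : ⟪w2, w0⟫ = -1 / 2 := by
    have h : w1 = -(w2 + w0) := by
      rw [eq_neg_iff_add_eq_zero, ← hw]; abel
    have h3 : ‖w2 + w0‖ ^ 2 = 1 := by rw [← norm_neg, ← h, h1]; norm_num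
    rw [norm_add_sq_real, h2, h0] at h3
    linarith
  have key : ∀ (A P : H), ‖U - A‖ ≤ 231 / 200 → ‖(A - c) - P‖ ≤ 5 / 1000 →
      ‖q - P‖ ^ 2 ≤ (232 / 200) ^ 2 := by
    intro A P hA hP
    have h : q - P = (U - A) + ((A - c) - P) := by rw [hq]; abel
    have h3 : ‖q - P‖ ≤ 232 / 200 := by
      rw [h]
      refine (norm_add_le _ _).trans ?_
      linarith
    exact pow_le_pow_left₀ (norm_nonneg _) h3 2
  have k0 := key A0 _ u0 p0
  have k1 := key A1 _ u1 p1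
  have k2 := key A2 _ u2 p2
  rw [ww q w0 w2 h0 h2 (by rw [real_inner_comm]; exact i20)] at k0
  rw [ww q w1 w0 h1 h0 (by rw [real_inner_comm]; exact i01)] at k1
  rw [ww q w2 w1 h2 h1 (by rw [real_inner_comm]; exact i12)] at k2
  have h3 : ‖q‖ ^ 2 ≤ (111 / 1000) ^ 2 := by linarith
  exact le_of_sq_le_sq h3 (by norm_num)

end

section

variable {H : Type} [NormedAddCommGroup H] [InnerProductSpace ℝ H] [CompleteSpace H]

/-- the vector valued function attached to a functional -/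
noncomputable def TT (g : Ten (Free MM oo) H →L[ℝ] ℝ) (x : MM) : H :=
  (InnerProductSpace.toDual ℝ H).symm (LinearMap.mkContinuous
    { toFun := fun v => g (tm (delta oo x) v)
      map_add' := fun v w => by rw [tm_add_right, map_add]
      map_smul' := fun c v => by rw [tm_smul_right, map_smul]; rfl }
    (‖g‖ * ‖delta oo x‖) (fun v => by
      refine (g.le_opNorm _).trans ?_
      rw [mul_assoc]
      exact mul_le_mul_of_nonneg_left (norm_tm_le _ _) (norm_nonneg _)))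

lemma inner_TT (g : Ten (Free MM oo) H →L[ℝ] ℝ) (x : MM) (v : H) :
    ⟪TT g x, v⟫ = g (tm (delta oo x) v) := by
  unfold TT
  rw [InnerProductSpace.toDual_symm_apply]
  rfl

lemma norm_TT_sub_le (g : Ten (Free MM oo) H →L[ℝ] ℝ) (hg : ‖g‖ ≤ 1) (x y : MM) :
    ‖TT g x - TT g y‖ ≤ dist x y := by
  have h1 : ⟪TT g x - TT g y, TT g x - TT g y⟫ = g (tm (delta oo x - delta oo y) (TT g x - TT g y)) := by
    rw [tm_sub_left, map_sub, ← inner_TT, ← inner_TT, inner_sub_left]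
  rw [real_inner_self_eq_norm_sq] at h1
  have h2 : g (tm (delta oo x - delta oo y) (TT g x - TT g y)) ≤
      dist x y * ‖TT g x - TT g y‖ := by
    refine (le_abs_self _).trans ((g.le_opNorm _).trans ?_)
    refine (mul_le_mul_of_nonneg_right hg (norm_nonneg _)).trans ?_
    rw [one_mul]
    refine (norm_tm_le _ _).trans ?_
    rw [norm_delta_sub]
  rcases (norm_nonneg (TT g x - TT g y)).eq_or_lt with h3 | h3
  · rw [← h3]; exact dist_nonneg
  · rw [← h1, sq] at h2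
    exact le_of_mul_le_mul_right h2 h3

/-- The element on which the norm is not octahedral. -/
noncomputable def yy (w0 w1 w2 : H) : Ten (Free MM oo) H :=
  (1 / 2 : ℝ) • tm (delta oo (pa 0) - delta oo (pa 1)) w0 +
  (1 / 2 : ℝ) • tm (delta oo (pa 1) - delta oo (pa 2)) w1 +
  (1 / 2 : ℝ) • tm (delta oo (pa 2) - delta oo (pa 0)) w2

lemma g_yy (g : Ten (Free MM oo) H →L[ℝ] ℝ) (w0 w1 w2 : H) : g (yy w0 w1 w2) =
    1 / 2 * ⟪TT g (pa 0) - TT g (pa 1), w0⟫ + 1 / 2 * ⟪TT g (pa 1) - TT g (pa 2), w1⟫ +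
      1 / 2 * ⟪TT g (pa 2) - TT g (pa 0), w2⟫ := by
  unfold yy
  simp only [map_add, map_smul, tm_sub_left, map_sub, inner_sub_left, inner_TT, smul_eq_mul]

lemma norm_yy_le (w0 w1 w2 : H) (h0 : ‖w0‖ = 1) (h1 : ‖w1‖ = 1) (h2 : ‖w2‖ = 1) :
    ‖yy w0 w1 w2‖ ≤ 3 := by
  have h : ∀ (i j : Fin 3) (w : H), i ≠ j → ‖w‖ = 1 →
      ‖(1 / 2 : ℝ) • tm (delta oo (pa i) - delta oo (pa j)) w‖ ≤ 1 := by
    intro i j w hij hw
    rw [norm_smul, Real.norm_eq_abs, abs_of_pos (by norm_num)]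
    have h3 := norm_tm_le (delta oo (pa i) - delta oo (pa j)) w
    rw [norm_delta_sub, dist_pa hij, hw] at h3
    linarith
  unfold yy
  refine (norm_add_le _ _).trans ?_
  have h3 := norm_add_le ((1 / 2 : ℝ) • tm (delta oo (pa 0) - delta oo (pa 1)) w0)
    ((1 / 2 : ℝ) • tm (delta oo (pa 1) - delta oo (pa 2)) w1)
  have h4 := h 0 1 w0 (by decide) h0
  have h5 := h 1 2 w1 (by decide) h1
  have h6 := h 2 0 w2 (by decide) h2
  linarith

/-- functionals from vector-valued Lipschitz functions -/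
theorem functional_of_map (F : MM → H) (hF0 : F oo = 0) (hF : ∀ x y, ‖F x - F y‖ ≤ dist x y) :
    ∃ G : Ten (Free MM oo) H →L[ℝ] ℝ, (∀ x v, G (tm (delta oo x) v) = ⟪F x, v⟫) ∧
      ∀ z, |G z| ≤ ‖z‖ := by
  have hlip : ∀ (v : H) (x y : MM), |⟪F x, v⟫ - ⟪F y, v⟫| ≤ ‖v‖ * dist x y := by
    intro v x y
    rw [← inner_sub_left]
    refine (abs_real_inner_le_norm _ _).trans ?_
    rw [mul_comm]
    exact mul_le_mul_of_nonneg_left (hF x y) (norm_nonneg _)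
  let L : H → Lip0 MM oo := fun v => Lip0.mk' (fun x => ⟪F x, v⟫) (by rw [hF0, inner_zero_left])
    ‖v‖ (hlip v)
  have hLn : ∀ v, ‖L v‖ ≤ ‖v‖ := fun v => Lip0.norm_le (norm_nonneg _) (hlip v)
  have hLadd : ∀ v w, L (v + w) = L v + L w := fun v w => Lip0.ext fun x => inner_add_right _ _ _
  have hLsmul : ∀ (c : ℝ) v, L (c • v) = c • L v := fun c v =>
    Lip0.ext fun x => real_inner_smul_right _ _ _
  let B : Free MM oo →ₗ[ℝ] H →ₗ[ℝ] ℝ := LinearMap.mk₂ ℝ (fun μ v => μ.app (L v))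
    (fun μ ν v => rfl) (fun c μ v => rfl)
    (fun μ v w => by rw [hLadd, Free.app_add]) (fun c μ v => by rw [hLsmul, Free.app_smul]; rfl)
  obtain ⟨G, hG1, hG2⟩ := exists_functional B 1 zero_le_one (fun μ v => by
    show |μ.app (L v)| ≤ _
    rw [one_mul]
    exact (μ.abs_app_le _).trans (mul_le_mul_of_nonneg_left (hLn v) (norm_nonneg _)))
  exact ⟨G, fun x v => hG1 _ _, fun z => by have := hG2 z; rwa [one_mul] at this⟩

lemma le_norm_yy (w0 w1 w2 : H) (h0 : ‖w0‖ = 1) (h1 : ‖w1‖ = 1) (h2 : ‖w2‖ = 1)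
    (hw : w0 + w1 + w2 = 0) : 3 ≤ ‖yy w0 w1 w2‖ := by
  have i01 : ⟪w0, w1⟫ = -1 / 2 := by
    have h : w2 = -(w0 + w1) := by
      rw [eq_neg_iff_add_eq_zero, ← hw]; abel
    have h3 : ‖w0 + w1‖ ^ 2 = 1 := by rw [← norm_neg, ← h, h2]; norm_num
    rw [norm_add_sq_real, h0, h1] at h3
    linarith
  have i12 : ⟪w1, w2⟫ = -1 / 2 := by
    have h : w0 = -(w1 + w2) := by
      rw [eq_neg_iff_add_eq_zero, ← hw]; abel
    have h3 : ‖w1 + w2‖ ^ 2 = 1 := by rw [← norm_neg, ← h, h0]; norm_num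
    rw [norm_add_sq_real, h1, h2] at h3
    linarith
  have i20 : ⟪w2, w0⟫ = -1 / 2 := by
    have h : w1 = -(w2 + w0) := by
      rw [eq_neg_iff_add_eq_zero, ← hw]; abel
    have h3 : ‖w2 + w0‖ ^ 2 = 1 := by rw [← norm_neg, ← h, h1]; norm_num
    rw [norm_add_sq_real, h2, h0] at h3
    linarith
  -- the vertices
  set P : Fin 3 → H := ![(2 / 3 : ℝ) • (w0 - w2), (2 / 3 : ℝ) • (w1 - w0), (2 / 3 : ℝ) • (w2 - w1)]
    with hP
  have hP0 : P 0 = (2 / 3 : ℝ) • (w0 - w2) := rfl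
  have hP1 : P 1 = (2 / 3 : ℝ) • (w1 - w0) := rfl
  have hP2 : P 2 = (2 / 3 : ℝ) • (w2 - w1) := rfl
  have e01 : P 0 - P 1 = (2 : ℝ) • w0 := by
    have : w2 = -(w0 + w1) := by rw [eq_neg_iff_add_eq_zero, ← hw]; abel
    rw [hP0, hP1, this]; module
  have e12 : P 1 - P 2 = (2 : ℝ) • w1 := by
    have : w2 = -(w0 + w1) := by rw [eq_neg_iff_add_eq_zero, ← hw]; abel
    rw [hP1, hP2, this]; module
  have e20 : P 2 - P 0 = (2 : ℝ) • w2 := by
    have : w2 = -(w0 + w1) := by rw [eq_neg_iff_add_eq_zero, ← hw]; abel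
    rw [hP0, hP2, this]; module
  have hn2 : ∀ w : H, ‖w‖ = 1 → ‖(2 : ℝ) • w‖ = 2 := fun w hw => by
    rw [norm_smul, hw]; norm_num
  have d01 : ‖P 0 - P 1‖ = 2 := by rw [e01]; exact hn2 _ h0
  have d12 : ‖P 1 - P 2‖ = 2 := by rw [e12]; exact hn2 _ h1
  have d20 : ‖P 2 - P 0‖ = 2 := by rw [e20]; exact hn2 _ h2
  have hPn : ∀ a b : H, ‖a‖ = 1 → ‖b‖ = 1 → ⟪a, b⟫ = -1 / 2 → ‖(2 / 3 : ℝ) • (a - b)‖ ≤ 231 / 200 := by
    intro a b ha hb hab
    have h3 : ‖(2 / 3 : ℝ) • (a - b)‖ ^ 2 = 4 / 3 := by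
      rw [norm_smul, mul_pow, norm_sub_sq_real, ha, hb, hab]
      norm_num
    exact le_of_sq_le_sq (by rw [h3]; norm_num) (by norm_num)
  have hPi : ∀ i, ‖P i‖ ≤ 231 / 200 := by
    intro i
    fin_cases i
    · exact hPn w0 w2 h0 h2 (by rw [real_inner_comm]; exact i20)
    · exact hPn w1 w0 h1 h0 (by rw [real_inner_comm]; exact i01)
    · exact hPn w2 w1 h2 h1 (by rw [real_inner_comm]; exact i12)
  have hPij : ∀ i j, i ≠ j → ‖P i - P j‖ ≤ 2 := by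
    intro i j hij
    fin_cases i <;> fin_cases j
    · exact absurd rfl hij
    · exact d01.le
    · show ‖P 0 - P 2‖ ≤ 2
      rw [norm_sub_rev]; exact d20.le
    · show ‖P 1 - P 0‖ ≤ 2
      rw [norm_sub_rev]; exact d01.le
    · exact absurd rfl hij
    · exact d12.le
    · exact d20.le
    · show ‖P 2 - P 1‖ ≤ 2
      rw [norm_sub_rev]; exact d12.le
    · exact absurd rfl hij
  -- the function
  let F0 : MM → H := fun x => Sum.elim P (fun _ => 0) (show Fin 3 ⊕ ℕ from x)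
  have hF0a : ∀ i, F0 (pa i) = P i := fun i => rfl
  have hF0u : ∀ n, F0 (pu n) = 0 := fun n => rfl
  have hF0 : ∀ x y, ‖F0 x - F0 y‖ ≤ dist x y := by
    intro x y
    rcases MM_cases x with ⟨i, rfl⟩ | ⟨k, rfl⟩ <;> rcases MM_cases y with ⟨j, rfl⟩ | ⟨l, rfl⟩
    · rcases eq_or_ne i j with rfl | h
      · rw [sub_self, norm_zero]; exact dist_nonneg
      · rw [dist_pa h]; exact hPij i j h
    · rw [dist_pa_pu, hF0a, hF0u, sub_zero]; exact hPi i
    · rw [dist_pu_pa, hF0a, hF0u, zero_sub, norm_neg]; exact hPi j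
    · rw [hF0u, hF0u, sub_zero, norm_zero]; exact dist_nonneg
  obtain ⟨G, hG1, hG2⟩ := functional_of_map (fun x => F0 x - F0 oo) (sub_self _) (fun x y => by
    rw [sub_sub_sub_cancel_right]; exact hF0 x y)
  have h3 : G (yy w0 w1 w2) = 3 := by
    unfold yy
    simp only [map_add, map_smul, tm_sub_left, map_sub, hG1, smul_eq_mul]
    rw [← inner_sub_left, ← inner_sub_left, ← inner_sub_left]
    rw [sub_sub_sub_cancel_right, sub_sub_sub_cancel_right, sub_sub_sub_cancel_right, hF0a, hF0a,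
      hF0a, e01, e12, e20, real_inner_smul_left, real_inner_smul_left, real_inner_smul_left,
      real_inner_self_eq_norm_sq, real_inner_self_eq_norm_sq, real_inner_self_eq_norm_sq, h0, h1, h2]
    norm_num
  have h4 := hG2 (yy w0 w1 w2)
  rw [h3] at h4
  rwa [abs_of_pos (by norm_num)] at h4

/-- The projective tensor product with a Hilbert space of dimension at least two is not
octahedral. -/
theorem not_octahedral (w0 w1 w2 : H) (h0 : ‖w0‖ = 1) (h1 : ‖w1‖ = 1) (h2 : ‖w2‖ = 1)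
    (hw : w0 + w1 + w2 = 0) : ¬ Octahedral (Ten (Free MM oo) H) := by
  intro hoct
  obtain ⟨z, hz, hzE⟩ := hoct (Submodule.span ℝ {yy w0 w1 w2}) inferInstance (1 / 1000000)
    (by norm_num)
  have hy := Submodule.mem_span_singleton_self (R := ℝ) (yy w0 w1 w2)
  have hn1 := le_norm_yy w0 w1 w2 h0 h1 h2 hw
  have hn2 := norm_yy_le w0 w1 w2 h0 h1 h2
  have ha := hzE _ hy 1
  have hb := hzE _ hy (-1)
  rw [abs_one, one_smul] at ha
  rw [abs_neg, abs_one] at hb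
  obtain ⟨g, hg1, hg2⟩ := exists_dual_vector'' ℝ (yy w0 w1 w2 + z)
  obtain ⟨g', hg1', hg2'⟩ := exists_dual_vector'' ℝ (yy w0 w1 w2 + (-1 : ℝ) • z)
  have hgle : ∀ (φ : Ten (Free MM oo) H →L[ℝ] ℝ), ‖φ‖ ≤ 1 → ∀ v, |φ v| ≤ ‖v‖ := fun φ hφ v =>
    (φ.le_opNorm v).trans (by
      calc ‖φ‖ * ‖v‖ ≤ 1 * ‖v‖ := mul_le_mul_of_nonneg_right hφ (norm_nonneg _)
        _ = ‖v‖ := one_mul _)
  rw [map_add] at hg2
  rw [map_add, map_smul] at hg2'
  have b1 := (abs_le.1 (hgle g hg1 (yy w0 w1 w2))).2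
  have b2 := (abs_le.1 (hgle g hg1 z)).2
  have b3 := (abs_le.1 (hgle g' hg1' (yy w0 w1 w2))).2
  have b4 := (abs_le.1 (hgle g' hg1' z)).1
  rw [hz] at b2 b4
  have hg2a : g (yy w0 w1 w2) + g z = ‖yy w0 w1 w2 + z‖ := by simpa using hg2
  have hg2b : g' (yy w0 w1 w2) - g' z = ‖yy w0 w1 w2 + (-1 : ℝ) • z‖ := by
    have : g' (yy w0 w1 w2) + (-1 : ℝ) • g' z = ‖yy w0 w1 w2 + (-1 : ℝ) • z‖ := by simpa using hg2'
    rw [← this, smul_eq_mul]; ring
  have c1 : 3 - 4 / 1000000 ≤ g (yy w0 w1 w2) := by linarith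
  have c2 : 3 - 4 / 1000000 ≤ g' (yy w0 w1 w2) := by linarith
  have c3 : 1 - 4 / 1000000 ≤ g z := by linarith
  have c4 : g' z ≤ -(1 - 4 / 1000000) := by linarith
  -- the two vector valued functions
  rw [g_yy] at c1 c2
  have hT := norm_TT_sub_le g hg1
  have hT' := norm_TT_sub_le g' hg1'
  have dle : ∀ (φ : Ten (Free MM oo) H →L[ℝ] ℝ), ‖φ‖ ≤ 1 → ∀ i j : Fin 3, i ≠ j →
      ‖TT φ (pa i) - TT φ (pa j)‖ ≤ 2 := fun φ hφ i j hij =>
    (norm_TT_sub_le φ hφ _ _).trans (dist_pa hij).le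
  obtain ⟨r0, r1, r2, r3⟩ := region w0 w1 w2 (TT g (pa 0)) (TT g (pa 1)) (TT g (pa 2)) h0 h1 h2 hw
    (dle g hg1 0 1 (by decide)) (dle g hg1 1 2 (by decide)) (dle g hg1 2 0 (by decide)) c1
  obtain ⟨r0', r1', r2', r3'⟩ := region w0 w1 w2 (TT g' (pa 0)) (TT g' (pa 1)) (TT g' (pa 2))
    h0 h1 h2 hw (dle g' hg1' 0 1 (by decide)) (dle g' hg1' 1 2 (by decide))
    (dle g' hg1' 2 0 (by decide)) c2
  set c := (1 / 3 : ℝ) • (TT g (pa 0) + TT g (pa 1) + TT g (pa 2)) with hc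
  set c' := (1 / 3 : ℝ) • (TT g' (pa 0) + TT g' (pa 1) + TT g' (pa 2)) with hc'
  have u3 : ∀ n, ‖TT g (pu n) - c‖ ≤ 111 / 1000 := fun n => r3 _ (hT _ _) (hT _ _) (hT _ _)
  have u3' : ∀ n, ‖TT g' (pu n) - c'‖ ≤ 111 / 1000 := fun n => r3' _ (hT' _ _) (hT' _ _) (hT' _ _)
  -- the difference
  set D : MM → H := fun x => (TT g x - c) - (TT g' x - c') with hD
  have Da : ∀ i, ‖D (pa i)‖ ≤ 10 / 1000 := by
    have aux : ∀ (A A' p : H), ‖A - p‖ ≤ 5 / 1000 → ‖A' - p‖ ≤ 5 / 1000 → ‖A - A'‖ ≤ 10 / 1000 := by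
      intro A A' p hA hA'
      rw [show A - A' = (A - p) - (A' - p) by abel]
      exact (norm_sub_le _ _).trans (by linarith)
    intro i
    fin_cases i
    · exact aux _ _ _ r0 r0'
    · exact aux _ _ _ r1 r1'
    · exact aux _ _ _ r2 r2'
  have Du : ∀ n, ‖D (pu n)‖ ≤ 222 / 1000 := fun n =>
    (norm_sub_le _ _).trans (by linarith [u3 n, u3' n])
  have hDlip : ∀ x y, ‖D x - D y‖ ≤ 3 / 2 * dist x y := by
    intro x y
    rcases MM_cases x with ⟨i, rfl⟩ | ⟨k, rfl⟩ <;> rcases MM_cases y with ⟨j, rfl⟩ | ⟨l, rfl⟩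
    · rcases eq_or_ne i j with rfl | h
      · rw [sub_self, norm_zero, dist_self]; norm_num
      · rw [dist_pa h]
        refine (norm_sub_le _ _).trans ?_
        linarith [Da i, Da j]
    · rw [dist_pa_pu]
      refine (norm_sub_le _ _).trans ?_
      linarith [Da i, Du l]
    · rw [dist_pu_pa]
      refine (norm_sub_le _ _).trans ?_
      linarith [Da j, Du k]
    · rcases eq_or_ne k l with rfl | h
      · rw [sub_self, norm_zero, dist_self]; norm_num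
      · rw [dist_pu h]
        refine (norm_sub_le _ _).trans ?_
        linarith [Du k, Du l]
  -- the functional `g - g'`
  set G : Ten (Free MM oo) H →L[ℝ] ℝ := g - g' with hG
  have hGδ : ∀ x v, G (tm (delta oo x) v) = ⟪TT g x - TT g' x, v⟫ := by
    intro x v
    rw [inner_sub_left, inner_TT, inner_TT]
    rfl
  have hGtm : ∀ (μ : Free MM oo) (v : H), |G (tm μ v)| ≤ 3 / 2 * (‖μ‖ * ‖v‖) := by
    intro μ v
    have hlip : ∀ x y : MM, |G (tm (delta oo x) v) - G (tm (delta oo y) v)| ≤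
        3 / 2 * ‖v‖ * dist x y := by
      intro x y
      rw [hGδ, hGδ, ← inner_sub_left]
      have h3 : (TT g x - TT g' x) - (TT g y - TT g' y) = D x - D y := by
        show _ = ((TT g x - c) - (TT g' x - c')) - ((TT g y - c) - (TT g' y - c'))
        abel
      rw [h3]
      refine (abs_real_inner_le_norm _ _).trans ?_
      calc ‖D x - D y‖ * ‖v‖ ≤ (3 / 2 * dist x y) * ‖v‖ :=
            mul_le_mul_of_nonneg_right (hDlip x y) (norm_nonneg _)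
        _ = 3 / 2 * ‖v‖ * dist x y := by ring
    have h0' : G (tm (delta oo oo) v) = 0 := by
      rw [delta_base]
      have := tm_smul_left (0 : ℝ) (0 : Free MM oo) v
      rw [zero_smul, zero_smul] at this
      rw [this, map_zero]
    let hv : Lip0 MM oo := Lip0.mk' (fun x => G (tm (delta oo x) v)) h0' (3 / 2 * ‖v‖) hlip
    have hvn : ‖hv‖ ≤ 3 / 2 * ‖v‖ := Lip0.norm_le (by positivity) hlip
    have hμ : G (tm μ v) = μ.app hv := by
      let φ : Free MM oo →L[ℝ] ℝ := LinearMap.mkContinuous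
        { toFun := fun μ => G (tm μ v)
          map_add' := fun μ ν => by rw [tm_add_left, map_add]
          map_smul' := fun c μ => by rw [tm_smul_left, map_smul]; rfl }
        (‖G‖ * ‖v‖) (fun μ => by
          refine (G.le_opNorm _).trans ?_
          calc ‖G‖ * ‖tm μ v‖ ≤ ‖G‖ * (‖μ‖ * ‖v‖) :=
                mul_le_mul_of_nonneg_left (norm_tm_le _ _) (norm_nonneg _)
            _ = ‖G‖ * ‖v‖ * ‖μ‖ := by ring)
      have h3 : μ ∈ LinearMap.ker ((φ - pair hv : Free MM oo →L[ℝ] ℝ) : Free MM oo →ₗ[ℝ] ℝ) := by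
        refine mem_of_closed _ ((φ - pair hv).isClosed_ker) (fun x => ?_) μ
        rw [LinearMap.mem_ker]
        show G (tm (delta oo x) v) - (delta oo x).app hv = 0
        rw [delta_app]
        show G (tm (delta oo x) v) - G (tm (delta oo x) v) = 0
        rw [sub_self]
      rw [LinearMap.mem_ker] at h3
      have h4 : G (tm μ v) - μ.app hv = 0 := h3
      linarith
    rw [hμ]
    refine (μ.abs_app_le hv).trans ?_
    calc ‖μ‖ * ‖hv‖ ≤ ‖μ‖ * (3 / 2 * ‖v‖) := mul_le_mul_of_nonneg_left hvn (norm_nonneg _)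
      _ = 3 / 2 * (‖μ‖ * ‖v‖) := by ring
  have hfin := bound_of_tm G (3 / 2) (by norm_num) hGtm z
  rw [hz] at hfin
  have h3 : G z = g z - g' z := rfl
  have h4 := (abs_le.1 hfin).2
  rw [h3] at h4
  linarith

end

/-- the three unit vectors in the plane -/
theorem exists_vectors : ∃ w0 w1 w2 : EuclideanSpace ℝ (Fin 2), ‖w0‖ = 1 ∧ ‖w1‖ = 1 ∧ ‖w2‖ = 1 ∧
    w0 + w1 + w2 = 0 := by
  have h3 : Real.sqrt 3 ^ 2 = 3 := Real.sq_sqrt (by norm_num)
  refine ⟨!₂[1, 0], !₂[-1 / 2, Real.sqrt 3 / 2], !₂[-1 / 2, -(Real.sqrt 3 / 2)], ?_, ?_, ?_, ?_⟩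
  · rw [EuclideanSpace.norm_eq, Fin.sum_univ_two]
    simp
  · rw [EuclideanSpace.norm_eq, Fin.sum_univ_two]
    rw [Real.sqrt_eq_one]
    simp only [Real.norm_eq_abs, sq_abs]
    simp
    ring_nf
    rw [h3]
    norm_num
  · rw [EuclideanSpace.norm_eq, Fin.sum_univ_two]
    rw [Real.sqrt_eq_one]
    simp only [Real.norm_eq_abs, sq_abs]
    simp
    ring_nf
    rw [h3]
    norm_num
  · ext i
    fin_cases i
    · simp; norm_num
    · simp

end Pool.Agent.V11101.Oct
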