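import Mathlib

/-!
# Lipschitz free p-spaces over p-metric spaces

A `p`-norm `N` on a real vector space is recorded through its `p`-th power, which is a norm in the
sense of additive groups. Similarly a `p`-metric is recorded through its `p`-th power, a metric.
-/

set_option linter.unusedSectionVars false

open Set Filter Topology

namespace Pool.Agent.V11101.PF

/-- `Z` is a `p`-Banach space (the group norm is the `p`-th power of the `p`-norm). -/
structure IsPB (p : ℝ) (Z : Type) [NormedAddCommGroup Z] [Module ℝ Z] : Prop where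
  smul : ∀ (a : ℝ) (z : Z), ‖a • z‖ = |a| ^ p * ‖z‖
  complete : CompleteSpace Z

theorem IsPB.ccs {p : ℝ} {Z : Type} [NormedAddCommGroup Z] [Module ℝ Z] (h : IsPB p Z) :
    ContinuousConstSMul ℝ Z := ⟨fun c => by
  have h : LipschitzWith (|c| ^ p).toNNReal (fun z : Z => c • z) := by
    refine LipschitzWith.of_dist_le_mul fun x y => ?_
    rw [dist_eq_norm, dist_eq_norm, ← smul_sub, h.smul]
    exact mul_le_mul_of_nonneg_right (Real.le_coe_toNNReal _) (norm_nonneg _)
  exact h.continuous⟩

/-- finite real combinations of pairs of points -/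
def Pre (_ : ℝ) (M : Type) : Type := (M × M) →₀ ℝ

noncomputable instance (p : ℝ) (M : Type) : AddCommGroup (Pre p M) :=
  inferInstanceAs (AddCommGroup ((M × M) →₀ ℝ))

noncomputable instance (p : ℝ) (M : Type) : Module ℝ (Pre p M) :=
  inferInstanceAs (Module ℝ ((M × M) →₀ ℝ))

section

variable {p : ℝ} {M : Type} [MetricSpace M]

/-- the `p`-th power of the transport cost of a combination -/
noncomputable def cost (p : ℝ) (a : (M × M) →₀ ℝ) : ℝ :=
  ∑ q ∈ a.support, |a q| ^ p * dist q.1 q.2

lemma cost_eq (hp : 0 < p) (a : (M × M) →₀ ℝ) (s : Finset (M × M)) (hs : a.support ⊆ s) :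
    cost p a = ∑ q ∈ s, |a q| ^ p * dist q.1 q.2 := by
  refine Finset.sum_subset hs fun q _ hq => ?_
  rw [Finsupp.notMem_support_iff.1 hq, abs_zero, Real.zero_rpow hp.ne', zero_mul]

lemma cost_add_le (hp : 0 < p) (hp1 : p ≤ 1) (a b : (M × M) →₀ ℝ) :
    cost p (a + b) ≤ cost p a + cost p b := by
  classical
  rw [cost_eq hp (a + b) (a.support ∪ b.support) Finsupp.support_add,
    cost_eq hp a (a.support ∪ b.support) Finset.subset_union_left,
    cost_eq hp b (a.support ∪ b.support) Finset.subset_union_right, ← Finset.sum_add_distrib]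
  refine Finset.sum_le_sum fun q _ => ?_
  rw [← add_mul]
  refine mul_le_mul_of_nonneg_right ?_ dist_nonneg
  rw [Finsupp.add_apply]
  exact (Real.rpow_le_rpow (abs_nonneg _) (abs_add_le _ _) hp.le).trans
    (Real.rpow_add_le_add_rpow (abs_nonneg _) (abs_nonneg _) hp.le hp1)

lemma cost_smul (hp : 0 < p) (c : ℝ) (a : (M × M) →₀ ℝ) :
    cost p (c • a) = |c| ^ p * cost p a := by
  rw [cost_eq hp (c • a) a.support Finsupp.support_smul]
  unfold cost
  rw [Finset.mul_sum]
  refine Finset.sum_congr rfl fun q _ => ?_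
  rw [Finsupp.smul_apply, smul_eq_mul, abs_mul, Real.mul_rpow (abs_nonneg _) (abs_nonneg _),
    mul_assoc]

lemma cost_single (hp : 0 < p) (x y : M) : cost p (Finsupp.single (x, y) 1) = dist x y := by
  classical
  rw [cost_eq hp _ {(x, y)} Finsupp.support_single_subset, Finset.sum_singleton,
    Finsupp.single_eq_same, abs_one, Real.one_rpow, one_mul]

lemma apply_bd {M' X : Type} [AddCommGroup X] [Module ℝ X] (g : (M' →₀ ℝ) →ₗ[ℝ] X)
    (a : (M' × M') →₀ ℝ) :
    g (Finsupp.linearCombination ℝ
      (fun q : M' × M' => (Finsupp.single q.1 1 - Finsupp.single q.2 1 : M' →₀ ℝ)) a) =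
      ∑ q ∈ a.support, a q • g (Finsupp.single q.1 1 - Finsupp.single q.2 1) := by
  rw [Finsupp.linearCombination_apply, Finsupp.sum, map_sum]
  exact Finset.sum_congr rfl fun q _ => map_smul g _ _

end

section

variable (p : ℝ) [hp : Fact (0 < p ∧ p ≤ 1)] (M : Type) [MetricSpace M]

/-- the cost as a seminorm -/
noncomputable def preSeminorm : AddGroupSeminorm (Pre p M) where
  toFun a := cost p (show (M × M) →₀ ℝ from a)
  map_zero' := by
    show cost p (0 : (M × M) →₀ ℝ) = 0
    simp [cost]
  add_le' a b := cost_add_le hp.out.1 hp.out.2 _ _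
  neg' a := by
    show cost p (-(show (M × M) →₀ ℝ from a)) = cost p _
    have := cost_smul hp.out.1 (-1) (show (M × M) →₀ ℝ from a)
    rw [neg_one_smul, abs_neg, abs_one, Real.one_rpow, one_mul] at this
    exact this

noncomputable instance : SeminormedAddCommGroup (Pre p M) :=
  (preSeminorm p M).toSeminormedAddCommGroup

/-- the boundary map -/
noncomputable def bd : Pre p M →ₗ[ℝ] (M →₀ ℝ) :=
  Finsupp.linearCombination ℝ fun q : M × M => Finsupp.single q.1 1 - Finsupp.single q.2 1

/-- the `p`-seminormed space of finitely supported elements -/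
abbrev QQ : Type := Pre p M ⧸ LinearMap.ker (bd p M)

variable {p M}

lemma norm_pre (a : Pre p M) : ‖a‖ = cost p (show (M × M) →₀ ℝ from a) := rfl

lemma norm_pre_smul (c : ℝ) (a : Pre p M) : ‖c • a‖ = |c| ^ p * ‖a‖ :=
  cost_smul hp.out.1 c _

/-- an elementary pair -/
noncomputable def el (x y : M) : Pre p M := (Finsupp.single (x, y) 1 : (M × M) →₀ ℝ)

lemma norm_el (x y : M) : ‖(el x y : Pre p M)‖ = dist x y := cost_single hp.out.1 x y

lemma bd_el (x y : M) : bd p M (el x y) = Finsupp.single x 1 - Finsupp.single y 1 := by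
  show Finsupp.linearCombination ℝ _ (Finsupp.single (x, y) (1 : ℝ)) = _
  rw [Finsupp.linearCombination_single, one_smul]

lemma norm_QQ_smul_le (c : ℝ) (x : QQ p M) : ‖c • x‖ ≤ |c| ^ p * ‖x‖ := by
  refine le_of_forall_pos_le_add fun ε hε => ?_
  have hcp : 0 ≤ |c| ^ p := Real.rpow_nonneg (abs_nonneg _) _
  obtain ⟨a, ha, ha2⟩ := Submodule.Quotient.norm_mk_lt x (ε := ε / (|c| ^ p + 1)) (by positivity)
  have h1 : ‖c • x‖ ≤ ‖c • a‖ := by
    have h2 : c • x = Submodule.Quotient.mk (c • a) := by
      rw [Submodule.Quotient.mk_smul, ha]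
    rw [h2]
    exact Submodule.Quotient.norm_mk_le _ _
  rw [norm_pre_smul] at h1
  have h3 : |c| ^ p * (ε / (|c| ^ p + 1)) ≤ ε := by
    rw [mul_div_assoc', div_le_iff₀ (by positivity)]
    nlinarith
  nlinarith

lemma norm_QQ_smul (c : ℝ) (x : QQ p M) : ‖c • x‖ = |c| ^ p * ‖x‖ := by
  refine le_antisymm (norm_QQ_smul_le c x) ?_
  rcases eq_or_ne c 0 with rfl | hc
  · rw [abs_zero, Real.zero_rpow hp.out.1.ne', zero_mul]
    exact norm_nonneg _
  · have h1 := norm_QQ_smul_le c⁻¹ (c • x)
    rw [smul_smul, inv_mul_cancel₀ hc, one_smul, abs_inv, Real.inv_rpow (abs_nonneg _)] at h1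
    have hcp : 0 < |c| ^ p := Real.rpow_pos_of_pos (abs_pos.2 hc) _
    rwa [le_inv_mul_iff₀ hcp] at h1

instance : UniformContinuousConstSMul ℝ (QQ p M) where
  uniformContinuous_const_smul c := by
    have h : LipschitzWith (|c| ^ p).toNNReal (fun z : QQ p M => c • z) := by
      refine LipschitzWith.of_dist_le_mul fun x y => ?_
      rw [dist_eq_norm, dist_eq_norm, ← smul_sub, norm_QQ_smul]
      exact mul_le_mul_of_nonneg_right (Real.le_coe_toNNReal _) (norm_nonneg _)
    exact h.uniformContinuous

variable (p M)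

/-- The Lipschitz free `p`-space. -/
abbrev FF : Type := UniformSpace.Completion (QQ p M)

variable {p M}

lemma norm_FF_smul (c : ℝ) (x : FF p M) : ‖c • x‖ = |c| ^ p * ‖x‖ := by
  induction x using UniformSpace.Completion.induction_on with
  | hp =>
    refine isClosed_eq ?_ ?_
    · exact (continuous_const_smul c).norm
    · exact continuous_const.mul continuous_norm
  | ih a =>
    rw [← UniformSpace.Completion.coe_smul, UniformSpace.Completion.norm_coe,
      UniformSpace.Completion.norm_coe, norm_QQ_smul]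

theorem isPB_FF : IsPB p (FF p M) := ⟨norm_FF_smul, inferInstance⟩

/-- the class of an elementary pair -/
noncomputable def cl (x y : M) : FF p M :=
  ((Submodule.Quotient.mk (el x y) : QQ p M) : FF p M)

lemma cl_sub_cl (x y o : M) : (cl x o : FF p M) - cl y o = cl x y := by
  unfold cl
  rw [← UniformSpace.Completion.coe_sub, ← Submodule.Quotient.mk_sub]
  congr 1
  rw [Submodule.Quotient.eq, LinearMap.mem_ker, map_sub, map_sub, bd_el, bd_el, bd_el]
  abel

lemma norm_cl_le (x y : M) : ‖(cl x y : FF p M)‖ ≤ dist x y := by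
  unfold cl
  rw [UniformSpace.Completion.norm_coe]
  exact (Submodule.Quotient.norm_mk_le _ _).trans (norm_el x y).le

lemma cl_self (x : M) : (cl x x : FF p M) = 0 := by
  rw [← norm_le_zero_iff]
  exact (norm_cl_le x x).trans (by rw [dist_self])

/-- The universal property. -/
theorem exists_lift (o : M) (X : Type) [NormedAddCommGroup X] [Module ℝ X] (hX : IsPB p X)
    (f : M → X) (hfo : f o = 0) (L : ℝ) (hL0 : 0 ≤ L) (hL : ∀ x y, ‖f x - f y‖ ≤ L * dist x y) :
    ∃ T : FF p M →L[ℝ] X, (∀ x, T (cl x o) = f x) ∧ ∀ z, ‖T z‖ ≤ L * ‖z‖ := by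
  have hcX : CompleteSpace X := hX.complete
  have hcs : ContinuousConstSMul ℝ X := hX.ccs
  let g : (M →₀ ℝ) →ₗ[ℝ] X := Finsupp.linearCombination ℝ f
  have hg : ∀ x y : M, g (Finsupp.single x 1 - Finsupp.single y 1) = f x - f y := by
    intro x y
    rw [map_sub]
    show Finsupp.linearCombination ℝ _ _ - Finsupp.linearCombination ℝ _ _ = _
    rw [Finsupp.linearCombination_single, Finsupp.linearCombination_single, one_smul, one_smul]
  have hbound : ∀ a : Pre p M, ‖g (bd p M a)‖ ≤ L * ‖a‖ := by
    intro a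
    have h2 : g (bd p M a) = ∑ q ∈ (show (M × M) →₀ ℝ from a).support,
        (show (M × M) →₀ ℝ from a) q • (f q.1 - f q.2) := by
      refine (apply_bd g (show (M × M) →₀ ℝ from a)).trans ?_
      refine Finset.sum_congr rfl fun q _ => ?_
      rw [hg]
    rw [h2, norm_pre]
    unfold cost
    rw [Finset.mul_sum]
    refine norm_sum_le_of_le _ fun q _ => ?_
    rw [hX.smul]
    calc |(show (M × M) →₀ ℝ from a) q| ^ p * ‖f q.1 - f q.2‖
        ≤ |(show (M × M) →₀ ℝ from a) q| ^ p * (L * dist q.1 q.2) :=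
          mul_le_mul_of_nonneg_left (hL _ _) (Real.rpow_nonneg (abs_nonneg _) _)
      _ = L * (|(show (M × M) →₀ ℝ from a) q| ^ p * dist q.1 q.2) := by ring
  let TQ : QQ p M →ₗ[ℝ] X := (LinearMap.ker (bd p M)).liftQ (g.comp (bd p M)) (by
    intro a ha
    rw [LinearMap.mem_ker] at ha ⊢
    rw [LinearMap.comp_apply, ha, map_zero])
  have hTQmk : ∀ a : Pre p M, TQ (Submodule.Quotient.mk a) = g (bd p M a) := fun a => rfl
  have hTQ : ∀ x : QQ p M, ‖TQ x‖ ≤ L * ‖x‖ := by
    intro x
    refine le_of_forall_pos_le_add fun ε hε => ?_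
    obtain ⟨a, ha, ha2⟩ := Submodule.Quotient.norm_mk_lt x (ε := ε / (L + 1)) (by positivity)
    have h1 := hbound a
    rw [← hTQmk, ha] at h1
    have h3 : L * (ε / (L + 1)) ≤ ε := by
      rw [mul_div_assoc', div_le_iff₀ (by positivity)]
      nlinarith
    nlinarith
  have hTQc : Continuous TQ := by
    have h : LipschitzWith L.toNNReal TQ := by
      refine LipschitzWith.of_dist_le_mul fun x y => ?_
      rw [dist_eq_norm, dist_eq_norm, ← map_sub]
      refine (hTQ _).trans ?_
      exact mul_le_mul_of_nonneg_right (Real.le_coe_toNNReal _) (norm_nonneg _)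
    exact h.continuous
  let TQ' : QQ p M →L[ℝ] X := ⟨TQ, hTQc⟩
  let ι : QQ p M →L[ℝ] FF p M :=
    ⟨{ toFun := fun x => (x : FF p M)
       map_add' := fun x y => UniformSpace.Completion.coe_add x y
       map_smul' := fun c x => UniformSpace.Completion.coe_smul c x },
      UniformSpace.Completion.continuous_coe _⟩
  have hι : DenseRange ι := UniformSpace.Completion.denseRange_coe
  have hι2 : IsUniformInducing ι := UniformSpace.Completion.isUniformInducing_coe _
  let T : FF p M →L[ℝ] X := TQ'.extend ι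
  have hT : ∀ x : QQ p M, T (x : FF p M) = TQ x := fun x =>
    ContinuousLinearMap.extend_eq TQ' hι hι2 x
  refine ⟨T, fun x => ?_, fun z => ?_⟩
  · unfold cl
    rw [hT, hTQmk, bd_el, hg, hfo, sub_zero]
  · induction z using UniformSpace.Completion.induction_on with
    | hp =>
      refine isClosed_le ?_ ?_
      · exact T.continuous.norm
      · exact continuous_const.mul continuous_norm
    | ih a =>
      rw [hT, UniformSpace.Completion.norm_coe]
      exact hTQ a

lemma dense_span (o : M) :
    Dense (Submodule.span ℝ (Set.range fun x : M => (cl x o : FF p M)) : Set (FF p M)) := by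
  have h1 : ∀ a : Pre p M, ((Submodule.Quotient.mk a : QQ p M) : FF p M) ∈
      Submodule.span ℝ (Set.range fun x : M => (cl x o : FF p M)) := by
    intro a
    have h2 : a = ∑ q ∈ (show (M × M) →₀ ℝ from a).support,
        (show (M × M) →₀ ℝ from a) q • (el q.1 q.2 : Pre p M) := by
      have h3 := (Finsupp.sum_single (show (M × M) →₀ ℝ from a)).symm
      have h4 : (show (M × M) →₀ ℝ from a).sum Finsupp.single =
          ∑ q ∈ (show (M × M) →₀ ℝ from a).support,
            (show (M × M) →₀ ℝ from a) q • (Finsupp.single q (1 : ℝ)) := by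
        unfold Finsupp.sum
        refine Finset.sum_congr rfl fun q _ => ?_
        rw [Finsupp.smul_single, smul_eq_mul, mul_one]
      exact h3.trans h4
    let ι : QQ p M →ₗ[ℝ] FF p M :=
      { toFun := fun x => (x : FF p M)
        map_add' := fun x y => UniformSpace.Completion.coe_add x y
        map_smul' := fun c x => UniformSpace.Completion.coe_smul c x }
    have h5 : ((Submodule.Quotient.mk a : QQ p M) : FF p M) =
        (ι.comp (Submodule.mkQ (LinearMap.ker (bd p M)))) a := rfl
    rw [h5, h2, map_sum]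
    refine Submodule.sum_mem _ fun q _ => ?_
    rw [map_smul]
    refine Submodule.smul_mem _ _ ?_
    show (cl q.1 q.2 : FF p M) ∈ _
    rw [← cl_sub_cl q.1 q.2 o]
    exact Submodule.sub_mem _ (Submodule.subset_span ⟨q.1, rfl⟩) (Submodule.subset_span ⟨q.2, rfl⟩)
  have h6 : DenseRange (fun x : QQ p M => (x : FF p M)) := UniformSpace.Completion.denseRange_coe
  refine h6.mono ?_
  rintro _ ⟨x, rfl⟩
  obtain ⟨a, rfl⟩ := Submodule.Quotient.mk_surjective _ x
  exact h1 a

end

end Pool.Agent.V11101.PF
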