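import Pool.Agent.V11101.PF

/-!
# Inductive limits of p-Banach spaces along isometries
-/

set_option linter.unusedSectionVars false

open Set Filter Topology

namespace Pool.Agent.V11101.PF

/-- an inductive sequence of `p`-Banach spaces -/
structure Sys (p : ℝ) where
  X : ℕ → Type
  [ng : ∀ n, NormedAddCommGroup (X n)]
  [md : ∀ n, Module ℝ (X n)]
  T : ∀ n, X n →ₗ[ℝ] X (n + 1)
  hT : ∀ n (x : X n), ‖T n x‖ = ‖x‖
  pb : ∀ n, IsPB p (X n)

attribute [instance] Sys.ng Sys.md

namespace Sys

variable {p : ℝ} (S : Sys p)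

/-- eventually compatible sequences -/
def EES : Submodule ℝ (∀ n, S.X n) where
  carrier := {x | ∃ m, ∀ n, m ≤ n → x (n + 1) = S.T n (x n)}
  add_mem' := by
    rintro x y ⟨m, hm⟩ ⟨k, hk⟩
    refine ⟨max m k, fun n hn => ?_⟩
    rw [Pi.add_apply, Pi.add_apply, map_add, hm n (le_of_max_le_left hn),
      hk n (le_of_max_le_right hn)]
  zero_mem' := ⟨0, fun n _ => by simp⟩
  smul_mem' := by
    rintro c x ⟨m, hm⟩
    exact ⟨m, fun n hn => by rw [Pi.smul_apply, Pi.smul_apply, map_smul, hm n hn]⟩

/-- eventually compatible sequences, without topology -/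
def EE : Type := S.EES

noncomputable instance : AddCommGroup S.EE := inferInstanceAs (AddCommGroup S.EES)
noncomputable instance : Module ℝ S.EE := inferInstanceAs (Module ℝ S.EES)

variable {S}

/-- the underlying sequence -/
def seq (x : S.EE) : ∀ n, S.X n := Subtype.val (show S.EES from x)

/-- `x` is compatible from the index `m` on -/
def CompatFrom (x : S.EE) (m : ℕ) : Prop := ∀ n, m ≤ n → seq x (n + 1) = S.T n (seq x n)

lemma exists_compat (x : S.EE) : ∃ m, CompatFrom x m := Subtype.property (show S.EES from x)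

lemma CompatFrom.mono {x : S.EE} {m k : ℕ} (h : CompatFrom x m) (hk : m ≤ k) : CompatFrom x k :=
  fun n hn => h n (hk.trans hn)

lemma seq_add (x y : S.EE) (n : ℕ) : seq (x + y) n = seq x n + seq y n := rfl
lemma seq_sub (x y : S.EE) (n : ℕ) : seq (x - y) n = seq x n - seq y n := rfl
lemma seq_neg (x : S.EE) (n : ℕ) : seq (-x) n = - seq x n := rfl
lemma seq_smul (c : ℝ) (x : S.EE) (n : ℕ) : seq (c • x) n = c • seq x n := rfl
lemma seq_zero (n : ℕ) : seq (0 : S.EE) n = 0 := rfl

lemma CompatFrom.add {x y : S.EE} {m : ℕ} (hx : CompatFrom x m) (hy : CompatFrom y m) :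
    CompatFrom (x + y) m := fun n hn => by
  rw [seq_add, seq_add, map_add, hx n hn, hy n hn]

lemma CompatFrom.sub {x y : S.EE} {m : ℕ} (hx : CompatFrom x m) (hy : CompatFrom y m) :
    CompatFrom (x - y) m := fun n hn => by
  rw [seq_sub, seq_sub, map_sub, hx n hn, hy n hn]

lemma CompatFrom.smul {x : S.EE} {m : ℕ} (c : ℝ) (hx : CompatFrom x m) :
    CompatFrom (c • x) m := fun n hn => by
  rw [seq_smul, seq_smul, map_smul, hx n hn]

lemma CompatFrom.neg {x : S.EE} {m : ℕ} (hx : CompatFrom x m) :
    CompatFrom (-x) m := fun n hn => by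
  rw [seq_neg, seq_neg, map_neg, hx n hn]

/-- a compatible family of functions, evaluated -/
noncomputable def ev {Y : Type} (g : ∀ n, S.X n → Y) (x : S.EE) : Y :=
  g (Classical.choose (exists_compat x)) (seq x (Classical.choose (exists_compat x)))

lemma ev_eq {Y : Type} {g : ∀ n, S.X n → Y} (hg : ∀ n x, g (n + 1) (S.T n x) = g n x)
    {x : S.EE} {m : ℕ} (h : CompatFrom x m) : ev g x = g m (seq x m) := by
  have h0 : ∀ (k : ℕ), CompatFrom x k → ∀ n, k ≤ n → g n (seq x n) = g k (seq x k) := by
    intro k hk n hn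
    induction n, hn using Nat.le_induction with
    | base => rfl
    | succ n hn ih => rw [hk n hn, hg, ih]
  have h1 := Classical.choose_spec (exists_compat x)
  unfold ev
  generalize Classical.choose (exists_compat x) = k at h1
  rw [← h0 k h1 (max k m) (le_max_left _ _), ← h0 m h (max k m) (le_max_right _ _)]

variable (S) in
/-- the eventual norm -/
noncomputable def eseminorm : AddGroupSeminorm S.EE where
  toFun x := ev (fun _ y => ‖y‖) x
  map_zero' := by
    rw [ev_eq (fun n x => S.hT n x) (m := 0) (fun n _ => by rw [seq_zero, seq_zero, map_zero]),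
      seq_zero, norm_zero]
  add_le' x y := by
    obtain ⟨m, hm⟩ := exists_compat x
    obtain ⟨k, hk⟩ := exists_compat y
    have h1 := hm.mono (le_max_left m k)
    have h2 := hk.mono (le_max_right m k)
    rw [ev_eq (fun n x => S.hT n x) h1, ev_eq (fun n x => S.hT n x) h2,
      ev_eq (fun n x => S.hT n x) (h1.add h2), seq_add]
    exact norm_add_le _ _
  neg' x := by
    obtain ⟨m, hm⟩ := exists_compat x
    rw [ev_eq (fun n x => S.hT n x) hm, ev_eq (fun n x => S.hT n x) hm.neg, seq_neg, norm_neg]

noncomputable instance : SeminormedAddCommGroup S.EE := (eseminorm S).toSeminormedAddCommGroup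

lemma norm_eq {x : S.EE} {m : ℕ} (h : CompatFrom x m) : ‖x‖ = ‖seq x m‖ := by
  have h1 : ev (fun _ y => ‖y‖) x = ‖seq x m‖ :=
    ev_eq (g := fun _ y => ‖y‖) (fun n x => S.hT n x) h
  exact h1

lemma norm_EE_smul (c : ℝ) (x : S.EE) : ‖c • x‖ = |c| ^ p * ‖x‖ := by
  obtain ⟨m, hm⟩ := exists_compat x
  rw [norm_eq (hm.smul c), norm_eq hm, seq_smul, (S.pb m).smul]

instance : UniformContinuousConstSMul ℝ S.EE where
  uniformContinuous_const_smul c := by
    have h : LipschitzWith (|c| ^ p).toNNReal (fun z : S.EE => c • z) := by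
      refine LipschitzWith.of_dist_le_mul fun x y => ?_
      rw [dist_eq_norm, dist_eq_norm, ← smul_sub, norm_EE_smul]
      exact mul_le_mul_of_nonneg_right (Real.le_coe_toNNReal _) (norm_nonneg _)
    exact h.uniformContinuous

variable (S) in
/-- the inductive limit -/
abbrev XI : Type := UniformSpace.Completion S.EE

lemma norm_XI_smul (c : ℝ) (x : S.XI) : ‖c • x‖ = |c| ^ p * ‖x‖ := by
  induction x using UniformSpace.Completion.induction_on with
  | hp =>
    refine isClosed_eq ?_ ?_
    · exact (continuous_const_smul c).norm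
    · exact continuous_const.mul continuous_norm
  | ih a =>
    rw [← UniformSpace.Completion.coe_smul, UniformSpace.Completion.norm_coe,
      UniformSpace.Completion.norm_coe, norm_EE_smul]

theorem isPB_XI : IsPB p S.XI := ⟨norm_XI_smul, inferInstance⟩

/-- running a sequence through the system -/
def run (y : ∀ n, S.X n) : ∀ n, S.X n
  | 0 => y 0
  | n + 1 => y (n + 1) + S.T n (run y n)

lemma run_add (y z : ∀ n, S.X n) (n : ℕ) : run (y + z) n = run y n + run z n := by
  induction n with
  | zero => rfl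
  | succ n ih =>
    simp only [run, Pi.add_apply, ih, map_add]
    abel

lemma run_smul (c : ℝ) (y : ∀ n, S.X n) (n : ℕ) : run (c • y) n = c • run y n := by
  induction n with
  | zero => rfl
  | succ n ih => simp only [run, Pi.smul_apply, ih, map_smul, smul_add]

lemma run_single_lt (m : ℕ) (z : S.X m) (n : ℕ) (h : n < m) : run (Pi.single m z) n = 0 := by
  induction n with
  | zero => 
    show Pi.single m z 0 = 0
    rw [Pi.single_eq_of_ne h.ne]
  | succ n ih =>
    show Pi.single m z (n + 1) + S.T n (run (Pi.single m z) n) = 0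
    rw [Pi.single_eq_of_ne h.ne, ih (by omega), map_zero, add_zero]

lemma run_single_self (m : ℕ) (z : S.X m) : run (Pi.single m z) m = z := by
  cases m with
  | zero =>
    show Pi.single 0 z 0 = z
    rw [Pi.single_eq_same]
  | succ n =>
    show Pi.single (n + 1) z (n + 1) + S.T n (run (Pi.single (n + 1) z) n) = z
    rw [Pi.single_eq_same, run_single_lt _ _ _ (Nat.lt_succ_self n), map_zero, add_zero]

lemma run_single_succ (m : ℕ) (z : S.X m) (n : ℕ) (h : m ≤ n) :
    run (Pi.single m z) (n + 1) = S.T n (run (Pi.single m z) n) := by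
  show Pi.single m z (n + 1) + S.T n (run (Pi.single m z) n) = _
  rw [Pi.single_eq_of_ne (by omega), zero_add]

/-- the map of the `m`-th space into the limit, before completion -/
def J0 (m : ℕ) (z : S.X m) : S.EE :=
  show S.EES from ⟨run (Pi.single m z), m, fun n hn => run_single_succ m z n hn⟩

lemma J0_compat (m : ℕ) (z : S.X m) : CompatFrom (J0 m z) m :=
  fun n hn => run_single_succ m z n hn

lemma seq_J0 (m : ℕ) (z : S.X m) : seq (J0 m z) m = z := run_single_self m z

lemma J0_add (m : ℕ) (z w : S.X m) : J0 m (z + w) = J0 m z + J0 m w := by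
  have h : (show S.EES from J0 m (z + w)) = (show S.EES from J0 m z) + (show S.EES from J0 m w) := by
    apply Subtype.ext
    funext n
    show run (Pi.single m (z + w)) n = run (Pi.single m z) n + run (Pi.single m w) n
    rw [Pi.single_add, run_add]
  exact h

lemma J0_smul (m : ℕ) (c : ℝ) (z : S.X m) : J0 m (c • z) = c • J0 m z := by
  have h : (show S.EES from J0 m (c • z)) = c • (show S.EES from J0 m z) := by
    apply Subtype.ext
    funext n
    show run (Pi.single m (c • z)) n = c • run (Pi.single m z) n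
    rw [← run_smul, ← Pi.single_smul]
  exact h

/-- the map of the `m`-th space into the limit -/
noncomputable def J (m : ℕ) : S.X m →ₗ[ℝ] S.XI where
  toFun z := (J0 m z : S.EE)
  map_add' z w := by rw [J0_add, UniformSpace.Completion.coe_add]
  map_smul' c z := by rw [J0_smul, UniformSpace.Completion.coe_smul]; rfl

lemma norm_J (m : ℕ) (z : S.X m) : ‖(J m z : S.XI)‖ = ‖z‖ := by
  show ‖((J0 m z : S.EE) : S.XI)‖ = ‖z‖
  rw [UniformSpace.Completion.norm_coe, norm_eq (J0_compat m z), seq_J0]

lemma coe_eq_coe {x y : S.EE} {m : ℕ} (hx : CompatFrom x m) (hy : CompatFrom y m)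
    (h : seq x m = seq y m) : (x : S.XI) = y := by
  rw [← sub_eq_zero, ← norm_eq_zero, ← UniformSpace.Completion.coe_sub,
    UniformSpace.Completion.norm_coe, norm_eq (hx.sub hy), seq_sub, h, sub_self, norm_zero]

lemma coe_eq_J {x : S.EE} {m : ℕ} (hx : CompatFrom x m) : (x : S.XI) = J m (seq x m) :=
  coe_eq_coe hx (J0_compat m _) (seq_J0 m _).symm

lemma J_succ (m : ℕ) (z : S.X m) : (J (m + 1) (S.T m z) : S.XI) = J m z := by
  refine coe_eq_coe (m := m + 1) (J0_compat _ _) ((J0_compat m z).mono (Nat.le_succ m)) ?_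
  rw [seq_J0, J0_compat m z m le_rfl, seq_J0]

theorem exists_ext {Y : Type} [NormedAddCommGroup Y] [CompleteSpace Y] (g : ∀ n, S.X n → Y)
    (hg : ∀ n x, g (n + 1) (S.T n x) = g n x) (L : ℝ) (hL0 : 0 ≤ L)
    (hL : ∀ n x y, ‖g n x - g n y‖ ≤ L * ‖x - y‖) :
    ∃ G : S.XI → Y, (∀ n x, G (J n x) = g n x) ∧ ∀ x y, ‖G x - G y‖ ≤ L * ‖x - y‖ := by
  have h1 : LipschitzWith L.toNNReal (ev g) := by
    refine LipschitzWith.of_dist_le_mul fun x y => ?_
    obtain ⟨m, hm⟩ := exists_compat x
    obtain ⟨k, hk⟩ := exists_compat y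
    have h1 := hm.mono (le_max_left m k)
    have h2 := hk.mono (le_max_right m k)
    rw [dist_eq_norm, dist_eq_norm, ev_eq hg h1, ev_eq hg h2, norm_eq (h1.sub h2), seq_sub,
      Real.coe_toNNReal _ hL0]
    exact hL _ _ _
  refine ⟨UniformSpace.Completion.extension (ev g), fun n x => ?_, fun x y => ?_⟩
  · show UniformSpace.Completion.extension (ev g) ((J0 n x : S.EE) : S.XI) = _
    rw [UniformSpace.Completion.extension_coe h1.uniformContinuous, ev_eq hg (J0_compat n x), seq_J0]
  · have h2 : LipschitzWith L.toNNReal (UniformSpace.Completion.extension (ev g)) :=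
      h1.completion_extension
    have h3 := h2.dist_le_mul x y
    rwa [dist_eq_norm, dist_eq_norm, Real.coe_toNNReal _ hL0] at h3

theorem exists_ext_linear {Y : Type} [NormedAddCommGroup Y] [Module ℝ Y] (hY : IsPB p Y)
    (g : ∀ n, S.X n →ₗ[ℝ] Y)
    (hg : ∀ n x, g (n + 1) (S.T n x) = g n x) (L : ℝ) (hL0 : 0 ≤ L)
    (hL : ∀ n x, ‖g n x‖ ≤ L * ‖x‖) :
    ∃ G : S.XI →ₗ[ℝ] Y, (∀ n x, G (J n x) = g n x) ∧ ∀ x, ‖G x‖ ≤ L * ‖x‖ := by
  have hc := hY.complete
  have hcs := hY.ccs
  obtain ⟨G, hG1, hG2⟩ := exists_ext (S := S) (fun n x => g n x) hg L hL0 (fun n x y => by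
    rw [← map_sub]; exact hL n _)
  have hGc : Continuous G := by
    have : LipschitzWith L.toNNReal G := by
      refine LipschitzWith.of_dist_le_mul fun x y => ?_
      rw [dist_eq_norm, dist_eq_norm, Real.coe_toNNReal _ hL0]
      exact hG2 x y
    exact this.continuous
  have hadd : ∀ x y, G (x + y) = G x + G y := by
    intro x y
    induction x, y using UniformSpace.Completion.induction_on₂ with
    | hp =>
      refine isClosed_eq ?_ ?_
      · exact hGc.comp (continuous_fst.add continuous_snd)
      · exact (hGc.comp continuous_fst).add (hGc.comp continuous_snd)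
    | ih a b =>
      obtain ⟨m, hm⟩ := exists_compat a
      obtain ⟨k, hk⟩ := exists_compat b
      rw [coe_eq_J (hm.mono (le_max_left m k)), coe_eq_J (hk.mono (le_max_right m k)), ← map_add,
        hG1, hG1, hG1, map_add]
  have hsmul : ∀ (c : ℝ) x, G (c • x) = c • G x := by
    intro c x
    induction x using UniformSpace.Completion.induction_on with
    | hp =>
      refine isClosed_eq ?_ ?_
      · exact hGc.comp (continuous_const_smul c)
      · exact (continuous_const_smul c).comp hGc
    | ih a =>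
      obtain ⟨m, hm⟩ := exists_compat a
      rw [coe_eq_J hm, ← map_smul, hG1, hG1, map_smul]
  refine ⟨{ toFun := G, map_add' := hadd, map_smul' := hsmul }, hG1, fun x => ?_⟩
  have h1 := hG2 x 0
  have h2 : G 0 = 0 := by
    have := hsmul 0 0
    simpa using this
  rw [h2, sub_zero, sub_zero] at h1
  exact h1

lemma dense_J : Dense {x : S.XI | ∃ n z, x = J n z} := by
  have h6 : DenseRange (fun x : S.EE => (x : S.XI)) := UniformSpace.Completion.denseRange_coe
  refine h6.mono ?_
  rintro _ ⟨x, rfl⟩
  obtain ⟨m, hm⟩ := exists_compat x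
  exact ⟨m, _, coe_eq_J hm⟩

end Sys

end Pool.Agent.V11101.PF
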