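import Pool.Agent.V11101.PFStage

/-!
# The universal property of the limit space
-/

set_option linter.unusedSectionVars false

open Set Filter Topology

namespace Pool.Agent.V11101.PF

section

variable {p : ℝ} [hp : Fact (0 < p ∧ p ≤ 1)]

/-- the limit space -/
abbrev LL (p : ℝ) [hp : Fact (0 < p ∧ p ≤ 1)] : Type := (SS p).XI

theorem isPB_LL : IsPB p (LL p) := Sys.isPB_XI

theorem norm_dd_sub_le (n : ℕ) (x y : (SS p).X n) : ‖dd n x - dd n y‖ ≤ ‖x - y‖ := by
  have h1 : ‖(cl x 0 : FF p ((SS p).X n)) - cl y 0‖ ≤ ‖x - y‖ := by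
    rw [cl_sub_cl]
    refine (norm_cl_le _ _).trans ?_
    rw [dist_eq_norm]
  exact h1

theorem exists_delta : ∃ δ : LL p → LL p, (∀ n x, δ (Sys.J n x) = Sys.J (n + 1) (dd n x)) ∧
    ∀ x y, ‖δ x - δ y‖ ≤ ‖x - y‖ := by
  obtain ⟨G, hG1, hG2⟩ := Sys.exists_ext (S := SS p) (Y := LL p)
    (fun n x => Sys.J (n + 1) (dd n x)) (fun n x => by
      rw [← T_dd, Sys.J_succ]) 1 zero_le_one (fun n x y => by
      rw [← map_sub, Sys.norm_J, one_mul]
      exact norm_dd_sub_le n x y)
  exact ⟨G, hG1, fun x y => by have := hG2 x y; rwa [one_mul] at this⟩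

variable (p) in
/-- the canonical map -/
noncomputable def δL : LL p → LL p := Classical.choose (exists_delta (p := p))

theorem δL_J (n : ℕ) (x : (SS p).X n) : δL p (Sys.J n x) = Sys.J (n + 1) (dd n x) :=
  (Classical.choose_spec (exists_delta (p := p))).1 n x

theorem norm_δL_sub_le (x y : LL p) : ‖δL p x - δL p y‖ ≤ ‖x - y‖ :=
  (Classical.choose_spec (exists_delta (p := p))).2 x y

theorem continuous_of_bound {X Y : Type} [NormedAddCommGroup X] [Module ℝ X] [NormedAddCommGroup Y]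
    [Module ℝ Y] (U : X →ₗ[ℝ] Y) (C : ℝ) (hC : ∀ x, ‖U x‖ ≤ C * ‖x‖) : Continuous U := by
  have : LipschitzWith C.toNNReal U := by
    refine LipschitzWith.of_dist_le_mul fun x y => ?_
    rw [dist_eq_norm, dist_eq_norm, ← map_sub]
    exact (hC _).trans (mul_le_mul_of_nonneg_right (Real.le_coe_toNNReal _) (norm_nonneg _))
  exact this.continuous

theorem δL_zero : δL p 0 = 0 := by
  have h1 := δL_J (p := p) 0 0
  rw [map_zero] at h1
  rw [h1]
  have h2 : dd (p := p) 0 0 = 0 := cl_self _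
  rw [h2, map_zero]

theorem δL_lift {Y : Type} [NormedAddCommGroup Y] [Module ℝ Y] (hY : IsPB p Y) (f : LL p → Y)
    (hf0 : f 0 = 0) (L : ℝ) (hL0 : 0 ≤ L) (hL : ∀ x y, ‖f x - f y‖ ≤ L * ‖x - y‖) :
    ∃ U : LL p →ₗ[ℝ] Y, (∀ x, U (δL p x) = f x) ∧ ∀ z, ‖U z‖ ≤ L * ‖z‖ := by
  have h1 : ∀ n, ∃ V : FF p ((SS p).X n) →L[ℝ] Y, (∀ x, V (cl x 0) = f (Sys.J n x)) ∧
      ∀ z, ‖V z‖ ≤ L * ‖z‖ := by
    intro n
    refine exists_lift 0 Y hY (fun x => f (Sys.J n x)) (by rw [map_zero, hf0]) L hL0 ?_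
    intro x y
    refine (hL _ _).trans ?_
    rw [← map_sub, Sys.norm_J, dist_eq_norm]
  choose V hV1 hV2 using h1
  let V' : ∀ n, (SS p).X (n + 1) →ₗ[ℝ] Y := fun n =>
    (show FF p ((SS p).X n) →ₗ[ℝ] Y from (V n).toLinearMap)
  have hV'dd : ∀ n x, V' n (dd n x) = f (Sys.J n x) := fun n x => hV1 n x
  have hV'2 : ∀ n z, ‖V' n z‖ ≤ L * ‖z‖ := fun n z => hV2 n z
  have hV'T : ∀ n z, V' (n + 1) ((SS p).T (n + 1) z) = V' n z := by
    intro n z
    refine eq_of_cl (p := p) (0 : (SS p).X n)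
      (show FF p ((SS p).X n) →ₗ[ℝ] Y from (V' (n + 1)).comp ((SS p).T (n + 1)))
      (show FF p ((SS p).X n) →ₗ[ℝ] Y from V' n) ?_ ?_ ?_ z
    · exact (continuous_of_bound (V' (n + 1)) L (hV'2 _)).comp
        (continuous_of_bound ((SS p).T (n + 1)) 1 (fun x => by rw [(SS p).hT, one_mul]))
    · exact continuous_of_bound (V' n) L (hV'2 _)
    · intro x
      show V' (n + 1) ((SS p).T (n + 1) (dd n x)) = V' n (dd n x)
      rw [T_dd, hV'dd, hV'dd, Sys.J_succ]
  obtain ⟨G, hG1, hG2⟩ := Sys.exists_ext_linear (S := SS p) hY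
    (fun n => (V' n).comp ((SS p).T n)) (fun n x => by
      show V' (n + 1) ((SS p).T (n + 1) ((SS p).T n x)) = V' n ((SS p).T n x)
      rw [hV'T]) L hL0 (fun n x => by
      show ‖V' n ((SS p).T n x)‖ ≤ L * ‖x‖
      refine (hV'2 _ _).trans ?_
      rw [(SS p).hT])
  refine ⟨G, fun x => ?_, hG2⟩
  have hfc : Continuous f := by
    have : LipschitzWith L.toNNReal f := by
      refine LipschitzWith.of_dist_le_mul fun x y => ?_
      rw [dist_eq_norm, dist_eq_norm, Real.coe_toNNReal _ hL0]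
      exact hL _ _
    exact this.continuous
  have hδc : Continuous (δL p) := by
    have : LipschitzWith 1 (δL p) := by
      refine LipschitzWith.of_dist_le_mul fun x y => ?_
      rw [dist_eq_norm, dist_eq_norm, NNReal.coe_one, one_mul]
      exact norm_δL_sub_le _ _
    exact this.continuous
  have h2 : IsClosed {x : LL p | G (δL p x) = f x} :=
    isClosed_eq ((continuous_of_bound G L hG2).comp hδc) hfc
  have h3 : {x : (SS p).XI | ∃ n z, x = Sys.J n z} ⊆ {x : LL p | G (δL p x) = f x} := by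
    rintro _ ⟨n, z, rfl⟩
    show G (δL p (Sys.J n z)) = f (Sys.J n z)
    rw [δL_J, hG1]
    show V' (n + 1) ((SS p).T (n + 1) (dd n z)) = _
    rw [T_dd, hV'dd, Sys.J_succ]
  have h4 := closure_minimal h3 h2
  rw [(Sys.dense_J (S := SS p)).closure_eq] at h4
  exact h4 (mem_univ x)

theorem δL_uniq {Y : Type} [NormedAddCommGroup Y] [Module ℝ Y] (U V : LL p →ₗ[ℝ] Y)
    (hU : Continuous U) (hV : Continuous V) (h : ∀ x, U (δL p x) = V (δL p x)) (z : LL p) :
    U z = V z := by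
  have h1 : ∀ n (z : (SS p).X (n + 1)), U (Sys.J (n + 1) z) = V (Sys.J (n + 1) z) := by
    intro n z
    have hJc : Continuous (Sys.J (S := SS p) (n + 1)) :=
      continuous_of_bound _ 1 (fun x => by rw [Sys.norm_J, one_mul])
    refine eq_of_cl (p := p) (0 : (SS p).X n)
      (show FF p ((SS p).X n) →ₗ[ℝ] Y from
        (U.comp (Sys.J (S := SS p) (n + 1)) : (SS p).X (n + 1) →ₗ[ℝ] Y))
      (show FF p ((SS p).X n) →ₗ[ℝ] Y from
        (V.comp (Sys.J (S := SS p) (n + 1)) : (SS p).X (n + 1) →ₗ[ℝ] Y)) ?_ ?_ ?_ z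
    · exact hU.comp hJc
    · exact hV.comp hJc
    · intro x
      show U (Sys.J (n + 1) (dd n x)) = V (Sys.J (n + 1) (dd n x))
      rw [← δL_J]
      exact h _
  have h2 : IsClosed {x : LL p | U x = V x} := isClosed_eq hU hV
  have h3 : {x : (SS p).XI | ∃ n z, x = Sys.J n z} ⊆ {x : LL p | U x = V x} := by
    rintro _ ⟨n, z, rfl⟩
    show U (Sys.J n z) = V (Sys.J n z)
    rw [← Sys.J_succ]
    exact h1 n _
  have h4 := closure_minimal h3 h2
  rw [(Sys.dense_J (S := SS p)).closure_eq] at h4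
  exact h4 (mem_univ z)

/-! ### infinite-dimensionality -/

/-- the `k`-th test function on the line -/
noncomputable def tent (k : ℕ) (t : ℝ) : ℝ := max 0 (1 - |t - k|)

lemma tent_lip (k : ℕ) (s t : ℝ) : |tent k s - tent k t| ≤ |s - t| := by
  unfold tent
  refine (abs_max_sub_max_le_max _ _ _ _).trans ?_
  rw [sub_self, abs_zero]
  refine max_le (abs_nonneg _) ?_
  have h1 : (1 - |s - k|) - (1 - |t - k|) = |t - k| - |s - k| := by ring
  rw [h1]
  refine (abs_abs_sub_abs_le_abs_sub _ _).trans ?_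
  rw [show t - (k : ℝ) - (s - k) = t - s by ring, abs_sub_comm]

lemma tent_same (k : ℕ) : tent k k = 1 := by simp [tent]

lemma tent_of_ne (k l : ℕ) (h : k ≠ l) : tent k l = 0 := by
  unfold tent
  refine max_eq_left ?_
  have h1 : (1 : ℝ) ≤ |(l : ℝ) - k| := by
    have h2 : (1 : ℤ) ≤ |(l : ℤ) - k| := Int.one_le_abs (by omega)
    exact_mod_cast h2
  linarith

theorem not_finite_LL : ¬ Module.Finite ℝ (LL p) := by
  intro hfin
  let v : ℕ → LL p := fun k => Sys.J 1 (dd 0 (show (SS p).X 0 from (toRp ((k : ℝ) + 1) : Rp p)))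
  have hli : LinearIndependent ℝ v := by
    have hJ : ∀ z, (Sys.J (S := SS p) 1) z = 0 → z = 0 := by
      intro z hz
      rw [← norm_eq_zero, ← Sys.norm_J 1 z, hz, norm_zero]
    rw [linearIndependent_iff']
    intro s g hg i hi
    -- the functional
    let φ : FF p (Rp p) →L[ℝ] Rp p := lift1 (0 : Rp p) isPB_Rp
      (fun x => toRp (tent (i + 1) (show ℝ from x)))
      (by
        have := tent_of_ne (i + 1) 0 (by omega)
        rw [Nat.cast_zero] at this
        show toRp (tent (i + 1) (0 : ℝ)) = 0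
        rw [this]; rfl)
      (fun x y => by
        rw [dist_eq_norm, ← toRp_sub, norm_toRp]
        exact Real.rpow_le_rpow (abs_nonneg _) (tent_lip _ _ _) hp.out.1.le)
    have h1 : (Sys.J (S := SS p) 1)
        (∑ j ∈ s, g j • dd 0 (show (SS p).X 0 from (toRp ((j : ℝ) + 1) : Rp p))) = 0 := by
      rw [map_sum, ← hg]
      refine Finset.sum_congr rfl fun j _ => ?_
      rw [map_smul]
    have h2 := hJ _ h1
    have h3 : (∑ j ∈ s, g j • (cl (toRp ((j : ℝ) + 1) : Rp p) 0 : FF p (Rp p))) = 0 := h2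
    have h4 := congrArg φ h3
    rw [map_sum, map_zero, Finset.sum_eq_single i] at h4
    · rw [map_smul, lift1_cl] at h4
      have h5 : g i * tent (i + 1) ((i : ℝ) + 1) = 0 := h4
      have h6 := tent_same (i + 1)
      push_cast at h6
      rwa [h6, mul_one] at h5
    · intro j _ hji
      rw [map_smul, lift1_cl]
      have h6 := tent_of_ne (i + 1) (j + 1) (by omega)
      push_cast at h6
      show g j • (toRp (tent (i + 1) ((j : ℝ) + 1)) : Rp p) = 0
      rw [h6]
      show g j • (0 : Rp p) = 0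
      rw [smul_zero]
    · intro h; exact absurd hi h
  have := hli.finite
  exact not_finite ℕ

end

end Pool.Agent.V11101.PF
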