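import Pool.Agent.V11101.PFColim

/-!
# A p-Banach space isometric to its own Lipschitz free p-space
-/

set_option linter.unusedSectionVars false

open Set Filter Topology

namespace Pool.Agent.V11101.PF

/-- the real line, with the `p`-th power of the absolute value -/
def Rp (_ : ℝ) : Type := ℝ

noncomputable instance (p : ℝ) : AddCommGroup (Rp p) := inferInstanceAs (AddCommGroup ℝ)
noncomputable instance (p : ℝ) : Module ℝ (Rp p) := inferInstanceAs (Module ℝ ℝ)

section

variable (p : ℝ) [hp : Fact (0 < p ∧ p ≤ 1)]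

/-- the norm of `Rp` -/
noncomputable def rpNorm : AddGroupNorm (Rp p) where
  toFun t := |(show ℝ from t)| ^ p
  map_zero' := by
    show |(0 : ℝ)| ^ p = 0
    rw [abs_zero, Real.zero_rpow hp.out.1.ne']
  add_le' x y := (Real.rpow_le_rpow (abs_nonneg _) (abs_add_le (show ℝ from x) (show ℝ from y))
    hp.out.1.le).trans
    (Real.rpow_add_le_add_rpow (abs_nonneg _) (abs_nonneg _) hp.out.1.le hp.out.2)
  neg' x := by
    show |(-(show ℝ from x))| ^ p = |(show ℝ from x)| ^ p
    rw [abs_neg]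
  eq_zero_of_map_eq_zero' x hx := by
    have h1 : |(show ℝ from x)| ^ p = 0 := hx
    rw [Real.rpow_eq_zero (abs_nonneg _) hp.out.1.ne'] at h1
    have h2 : (show ℝ from x) = 0 := abs_eq_zero.1 h1
    exact h2

noncomputable instance : NormedAddCommGroup (Rp p) := (rpNorm p).toNormedAddCommGroup

variable {p}

/-- a real number as an element of `Rp` -/
def toRp (t : ℝ) : Rp p := t

lemma norm_toRp (t : ℝ) : ‖(toRp t : Rp p)‖ = |t| ^ p := rfl

lemma toRp_sub (s t : ℝ) : (toRp (s - t) : Rp p) = toRp s - toRp t := rfl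

lemma smul_toRp (s t : ℝ) : s • (toRp t : Rp p) = toRp (s * t) := rfl

lemma exists_toRp (x : Rp p) : ∃ t, x = toRp t := ⟨x, rfl⟩

theorem isPB_Rp : IsPB p (Rp p) where
  smul a z := by
    show |a * (show ℝ from z)| ^ p = |a| ^ p * |(show ℝ from z)| ^ p
    rw [abs_mul, Real.mul_rpow (abs_nonneg _) (abs_nonneg _)]
  complete := by
    refine Metric.complete_of_cauchySeq_tendsto fun u hu => ?_
    rw [Metric.cauchySeq_iff'] at hu
    have h1 : CauchySeq (fun n => (show ℝ from u n)) := by
      rw [Metric.cauchySeq_iff']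
      intro ε hε
      obtain ⟨K, hK⟩ := hu (ε ^ p) (Real.rpow_pos_of_pos hε p)
      refine ⟨K, fun n hn => ?_⟩
      have h2 := hK n hn
      rw [dist_eq_norm] at h2
      have h3 : |(show ℝ from u n) - (show ℝ from u K)| ^ p < ε ^ p := h2
      rw [Real.dist_eq]
      exact (Real.rpow_lt_rpow_iff (abs_nonneg _) hε.le hp.out.1).1 h3
    obtain ⟨a, ha⟩ := cauchySeq_tendsto_of_complete h1
    refine ⟨toRp a, ?_⟩
    rw [Metric.tendsto_atTop] at ha ⊢
    intro ε hε
    obtain ⟨K, hK⟩ := ha (ε ^ (1 / p)) (Real.rpow_pos_of_pos hε _)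
    refine ⟨K, fun n hn => ?_⟩
    have h2 := hK n hn
    rw [dist_eq_norm]
    rw [Real.dist_eq] at h2
    have h3 : ‖u n - toRp a‖ = |(show ℝ from u n) - a| ^ p := rfl
    rw [h3]
    have h4 := Real.rpow_lt_rpow (abs_nonneg _) h2 hp.out.1
    rwa [← Real.rpow_mul hε.le, one_div, inv_mul_cancel₀ hp.out.1.ne', Real.rpow_one] at h4

/-- the lift of a non-expansive map -/
noncomputable def lift1 {M X : Type} [MetricSpace M] [NormedAddCommGroup X] [Module ℝ X]
    (o : M) (hX : IsPB p X) (f : M → X) (hfo : f o = 0) (hf : ∀ x y, ‖f x - f y‖ ≤ dist x y) :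
    FF p M →L[ℝ] X :=
  Classical.choose (exists_lift (p := p) o X hX f hfo 1 zero_le_one (fun x y => by
    rw [one_mul]; exact hf x y))

lemma lift1_cl {M X : Type} [MetricSpace M] [NormedAddCommGroup X] [Module ℝ X]
    (o : M) (hX : IsPB p X) (f : M → X) (hfo : f o = 0) (hf : ∀ x y, ‖f x - f y‖ ≤ dist x y)
    (x : M) : lift1 o hX f hfo hf (cl x o) = f x :=
  (Classical.choose_spec (exists_lift (p := p) o X hX f hfo 1 zero_le_one (fun x y => by
    rw [one_mul]; exact hf x y))).1 x

lemma norm_lift1_le {M X : Type} [MetricSpace M] [NormedAddCommGroup X] [Module ℝ X]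
    (o : M) (hX : IsPB p X) (f : M → X) (hfo : f o = 0) (hf : ∀ x y, ‖f x - f y‖ ≤ dist x y)
    (z : FF p M) : ‖lift1 o hX f hfo hf z‖ ≤ ‖z‖ := by
  have := (Classical.choose_spec (exists_lift (p := p) o X hX f hfo 1 zero_le_one (fun x y => by
    rw [one_mul]; exact hf x y))).2 z
  rwa [one_mul] at this

/-- two linear bounded maps which agree on the point masses are equal -/
lemma eq_of_cl {M X : Type} [MetricSpace M] [NormedAddCommGroup X] [Module ℝ X]
    (o : M) (U V : FF p M →ₗ[ℝ] X) (hU : Continuous U) (hV : Continuous V)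
    (h : ∀ x, U (cl x o) = V (cl x o)) (z : FF p M) : U z = V z := by
  have h1 := dense_span (p := p) o
  have h2 : IsClosed {z : FF p M | U z = V z} := isClosed_eq hU hV
  have h3 : (Submodule.span ℝ (Set.range fun x : M => (cl x o : FF p M)) : Set (FF p M)) ⊆
      {z : FF p M | U z = V z} := by
    intro z hz
    have h4 : Submodule.span ℝ (Set.range fun x : M => (cl x o : FF p M)) ≤ LinearMap.eqLocus U V := by
      rw [Submodule.span_le]
      rintro _ ⟨x, rfl⟩
      exact h x
    exact h4 hz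
  have h5 : closure (Submodule.span ℝ (Set.range fun x : M => (cl x o : FF p M)) : Set (FF p M)) ⊆
      {z : FF p M | U z = V z} := closure_minimal h3 h2
  rw [h1.closure_eq] at h5
  exact h5 (mem_univ z)

variable (p) in
/-- a stage of the construction -/
structure Stage where
  X : Type
  [ng : NormedAddCommGroup X]
  [md : Module ℝ X]
  pb : IsPB p X
  T : X →ₗ[ℝ] FF p X
  P : FF p X →ₗ[ℝ] X
  T_le : ∀ x, ‖T x‖ ≤ ‖x‖
  P_le : ∀ z, ‖P z‖ ≤ ‖z‖
  PT : ∀ x, P (T x) = x

attribute [instance] Stage.ng Stage.md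

lemma Stage.norm_T (S : Stage p) (x : S.X) : ‖S.T x‖ = ‖x‖ := by
  refine le_antisymm (S.T_le x) ?_
  have h := S.P_le (S.T x)
  rwa [S.PT] at h

/-- the map induced between free spaces by a linear contraction -/
noncomputable def lmap {X Y : Type} [NormedAddCommGroup X] [Module ℝ X] [NormedAddCommGroup Y]
    [Module ℝ Y] (T : X →ₗ[ℝ] Y) (hT : ∀ x, ‖T x‖ ≤ ‖x‖) : FF p X →L[ℝ] FF p Y :=
  lift1 (0 : X) isPB_FF (fun x => cl (T x) 0) (by rw [map_zero, cl_self]) (fun x y => by
    rw [cl_sub_cl]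
    refine (norm_cl_le _ _).trans ?_
    rw [dist_eq_norm, dist_eq_norm, ← map_sub]
    exact hT _)

lemma lmap_cl {X Y : Type} [NormedAddCommGroup X] [Module ℝ X] [NormedAddCommGroup Y]
    [Module ℝ Y] (T : X →ₗ[ℝ] Y) (hT : ∀ x, ‖T x‖ ≤ ‖x‖) (x : X) :
    lmap (p := p) T hT (cl x 0) = cl (T x) 0 := lift1_cl _ _ _ _ _ x

lemma norm_lmap_le {X Y : Type} [NormedAddCommGroup X] [Module ℝ X] [NormedAddCommGroup Y]
    [Module ℝ Y] (T : X →ₗ[ℝ] Y) (hT : ∀ x, ‖T x‖ ≤ ‖x‖) (z : FF p X) :
    ‖lmap (p := p) T hT z‖ ≤ ‖z‖ := norm_lift1_le _ _ _ _ _ z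

/-- the next stage -/
noncomputable def Stage.next (S : Stage p) : Stage p where
  X := FF p S.X
  pb := isPB_FF
  T := (lmap S.T S.T_le).toLinearMap
  P := (lmap S.P S.P_le).toLinearMap
  T_le := norm_lmap_le _ _
  P_le := norm_lmap_le _ _
  PT := by
    refine eq_of_cl (0 : S.X) (((lmap S.P S.P_le).toLinearMap).comp (lmap S.T S.T_le).toLinearMap)
      LinearMap.id ?_ continuous_id ?_
    · exact (lmap S.P S.P_le).continuous.comp (lmap S.T S.T_le).continuous
    · intro x
      show lmap S.P S.P_le (lmap S.T S.T_le (cl x 0)) = cl x 0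
      rw [lmap_cl, lmap_cl, S.PT]

variable (p) in
/-- the first stage -/
noncomputable def Stage.base : Stage p where
  X := Rp p
  pb := isPB_Rp
  T := 
    { toFun := fun t => (show ℝ from t) • (cl (toRp 1) 0 : FF p (Rp p))
      map_add' := fun x y => add_smul (show ℝ from x) (show ℝ from y) _
      map_smul' := fun c x => mul_smul c (show ℝ from x) _ }
  P := (lift1 (0 : Rp p) isPB_Rp id rfl (fun x y => by rw [dist_eq_norm]; rfl)).toLinearMap
  T_le := by
    intro t
    show ‖(show ℝ from t) • (cl (toRp 1) 0 : FF p (Rp p))‖ ≤ |(show ℝ from t)| ^ p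
    rw [norm_FF_smul]
    have h : ‖(cl (toRp 1) 0 : FF p (Rp p))‖ ≤ 1 := by
      refine (norm_cl_le _ _).trans ?_
      rw [dist_zero_right, norm_toRp, abs_one, Real.one_rpow]
    have h2 : 0 ≤ |(show ℝ from t)| ^ p := Real.rpow_nonneg (abs_nonneg _) _
    nlinarith
  P_le := norm_lift1_le _ _ _ _ _
  PT := by
    intro t
    show lift1 (0 : Rp p) isPB_Rp id rfl _ ((show ℝ from t) • (cl (toRp 1) 0 : FF p (Rp p))) = t
    rw [map_smul, lift1_cl]
    show (show ℝ from t) * (1 : ℝ) = (show ℝ from t)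
    rw [mul_one]

variable (p) in
/-- all the stages -/
noncomputable def stages : ℕ → Stage p
  | 0 => Stage.base p
  | n + 1 => (stages n).next

variable (p) in
/-- the inductive sequence -/
noncomputable def SS : Sys p where
  X n := (stages p n).X
  ng n := (stages p n).ng
  md n := (stages p n).md
  T n := (stages p n).T
  hT n x := (stages p n).norm_T x
  pb n := (stages p n).pb

/-- the canonical map between consecutive stages -/
noncomputable def dd (n : ℕ) (x : (SS p).X n) : (SS p).X (n + 1) :=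
  (show FF p ((SS p).X n) from cl x 0)

lemma T_dd (n : ℕ) (x : (SS p).X n) : (SS p).T (n + 1) (dd n x) = dd (n + 1) ((SS p).T n x) :=
  lmap_cl (stages p n).T (stages p n).T_le x

end

end Pool.Agent.V11101.PF
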