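import Mathlib

/-!
# The completed projective tensor product of two real normed spaces
-/

set_option linter.unusedSectionVars false

open Set Filter Topology
open scoped TensorProduct

namespace Pool.Agent.V11101.Proj

section

variable (X Y : Type) [NormedAddCommGroup X] [NormedSpace ℝ X] [NormedAddCommGroup Y]
  [NormedSpace ℝ Y]

variable {X Y} in
/-- The projective norm: the infimum of `∑ ‖x i‖ ‖y i‖` over all representations
`u = ∑ x i ⊗ y i`. -/
noncomputable def projNorm (u : X ⊗[ℝ] Y) : ℝ :=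
  sInf {r : ℝ | ∃ (n : ℕ) (x : Fin n → X) (y : Fin n → Y),
    u = ∑ i, x i ⊗ₜ[ℝ] y i ∧ r = ∑ i, ‖x i‖ * ‖y i‖}

/-- The algebraic tensor product, to carry the projective norm. -/
def PT : Type := X ⊗[ℝ] Y

noncomputable instance : AddCommGroup (PT X Y) := inferInstanceAs (AddCommGroup (X ⊗[ℝ] Y))
noncomputable instance : Module ℝ (PT X Y) := inferInstanceAs (Module ℝ (X ⊗[ℝ] Y))

variable {X Y}

lemma set_nonempty (u : X ⊗[ℝ] Y) : {r : ℝ | ∃ (n : ℕ) (x : Fin n → X) (y : Fin n → Y),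
    u = ∑ i, x i ⊗ₜ[ℝ] y i ∧ r = ∑ i, ‖x i‖ * ‖y i‖}.Nonempty := by
  suffices h : ∃ (n : ℕ) (x : Fin n → X) (y : Fin n → Y), u = ∑ i, x i ⊗ₜ[ℝ] y i by
    obtain ⟨n, x, y, h⟩ := h
    exact ⟨_, n, x, y, h, rfl⟩
  induction u using TensorProduct.induction_on with
  | zero => exact ⟨0, Fin.elim0, Fin.elim0, by simp⟩
  | tmul x y => exact ⟨1, fun _ => x, fun _ => y, by simp⟩
  | add u v hu hv =>
    obtain ⟨n, x, y, rfl⟩ := hu
    obtain ⟨m, x', y', rfl⟩ := hv
    refine ⟨n + m, Fin.append x x', Fin.append y y', ?_⟩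
    rw [Fin.sum_univ_add]
    simp

lemma set_nonneg (u : X ⊗[ℝ] Y) : ∀ r ∈ {r : ℝ | ∃ (n : ℕ) (x : Fin n → X) (y : Fin n → Y),
    u = ∑ i, x i ⊗ₜ[ℝ] y i ∧ r = ∑ i, ‖x i‖ * ‖y i‖}, 0 ≤ r := by
  rintro r ⟨n, x, y, -, rfl⟩
  positivity

lemma set_bdd (u : X ⊗[ℝ] Y) : BddBelow {r : ℝ | ∃ (n : ℕ) (x : Fin n → X) (y : Fin n → Y),
    u = ∑ i, x i ⊗ₜ[ℝ] y i ∧ r = ∑ i, ‖x i‖ * ‖y i‖} := ⟨0, set_nonneg u⟩

lemma projNorm_nonneg (u : X ⊗[ℝ] Y) : 0 ≤ projNorm u := Real.sInf_nonneg (set_nonneg u)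

lemma projNorm_sum_le {n : ℕ} (x : Fin n → X) (y : Fin n → Y) :
    projNorm (∑ i, x i ⊗ₜ[ℝ] y i) ≤ ∑ i, ‖x i‖ * ‖y i‖ :=
  csInf_le (set_bdd _) ⟨n, x, y, rfl, rfl⟩

lemma exists_rep (u : X ⊗[ℝ] Y) {ε : ℝ} (hε : 0 < ε) : ∃ (n : ℕ) (x : Fin n → X) (y : Fin n → Y),
    u = ∑ i, x i ⊗ₜ[ℝ] y i ∧ ∑ i, ‖x i‖ * ‖y i‖ < projNorm u + ε := by
  obtain ⟨r, ⟨n, x, y, h1, rfl⟩, h2⟩ := exists_lt_of_csInf_lt (set_nonempty u)
    (lt_add_of_pos_right (projNorm u) hε)
  exact ⟨n, x, y, h1, h2⟩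

lemma projNorm_tmul_le (x : X) (y : Y) : projNorm (x ⊗ₜ[ℝ] y) ≤ ‖x‖ * ‖y‖ := by
  have h := projNorm_sum_le (n := 1) (fun _ => x) (fun _ => y)
  simpa using h

lemma projNorm_add_le (u v : X ⊗[ℝ] Y) : projNorm (u + v) ≤ projNorm u + projNorm v := by
  refine le_of_forall_pos_le_add fun ε hε => ?_
  obtain ⟨n, x, y, rfl, h2⟩ := exists_rep u (half_pos hε)
  obtain ⟨m, x', y', rfl, h4⟩ := exists_rep v (half_pos hε)
  have h5 : ∑ i, x i ⊗ₜ[ℝ] y i + ∑ i, x' i ⊗ₜ[ℝ] y' i =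
      ∑ i, (Fin.append x x' i) ⊗ₜ[ℝ] (Fin.append y y' i) := by
    rw [Fin.sum_univ_add]
    simp
  have h6 : ∑ i, ‖Fin.append x x' i‖ * ‖Fin.append y y' i‖ =
      ∑ i, ‖x i‖ * ‖y i‖ + ∑ i, ‖x' i‖ * ‖y' i‖ := by
    rw [Fin.sum_univ_add]
    simp
  have h7 := projNorm_sum_le (Fin.append x x') (Fin.append y y')
  rw [h6, ← h5] at h7
  linarith

lemma projNorm_smul_le (c : ℝ) (u : X ⊗[ℝ] Y) : projNorm (c • u) ≤ |c| * projNorm u := by
  refine le_of_forall_pos_le_add fun ε hε => ?_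
  obtain ⟨n, x, y, rfl, h2⟩ := exists_rep u (ε := ε / (|c| + 1)) (by positivity)
  have h5 : c • ∑ i, x i ⊗ₜ[ℝ] y i = ∑ i, (c • x i) ⊗ₜ[ℝ] (y i) := by
    rw [Finset.smul_sum]
    exact Finset.sum_congr rfl fun i _ => TensorProduct.smul_tmul' c (x i) (y i)
  have h6 : ∑ i, ‖c • x i‖ * ‖y i‖ = |c| * ∑ i, ‖x i‖ * ‖y i‖ := by
    rw [Finset.mul_sum]
    refine Finset.sum_congr rfl fun i _ => ?_
    rw [norm_smul, Real.norm_eq_abs, mul_assoc]
  have h7 := projNorm_sum_le (fun i => c • x i) y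
  rw [h6, ← h5] at h7
  have h3 : |c| * (ε / (|c| + 1)) ≤ ε := by
    rw [mul_div_assoc', div_le_iff₀ (by positivity)]
    nlinarith [abs_nonneg c]
  have h8 := mul_le_mul_of_nonneg_left h2.le (abs_nonneg c)
  nlinarith

lemma projNorm_zero : projNorm (0 : X ⊗[ℝ] Y) = 0 := by
  refine le_antisymm ?_ (projNorm_nonneg _)
  have := projNorm_sum_le (X := X) (Y := Y) (n := 0) Fin.elim0 Fin.elim0
  simpa using this

lemma projNorm_neg (u : X ⊗[ℝ] Y) : projNorm (-u) = projNorm u := by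
  refine le_antisymm ?_ ?_
  · have := projNorm_smul_le (-1) u
    rwa [neg_one_smul, abs_neg, abs_one, one_mul] at this
  · have := projNorm_smul_le (-1) (-u)
    rwa [neg_one_smul, neg_neg, abs_neg, abs_one, one_mul] at this

variable (X Y) in
/-- The projective norm, as a seminorm of additive groups. -/
noncomputable def ptSeminorm : AddGroupSeminorm (PT X Y) where
  toFun u := projNorm (show X ⊗[ℝ] Y from u)
  map_zero' := projNorm_zero
  add_le' := projNorm_add_le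
  neg' := projNorm_neg

noncomputable instance : SeminormedAddCommGroup (PT X Y) :=
  (ptSeminorm X Y).toSeminormedAddCommGroup

noncomputable instance : NormedSpace ℝ (PT X Y) where
  norm_smul_le c u := projNorm_smul_le c (show X ⊗[ℝ] Y from u)

variable (X Y) in
/-- The completed projective tensor product `X ⊗̂_π Y`. -/
abbrev Ten : Type := UniformSpace.Completion (PT X Y)

/-- an element of the algebraic tensor product in `PT` -/
def toPT (u : X ⊗[ℝ] Y) : PT X Y := u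

lemma norm_toPT (u : X ⊗[ℝ] Y) : ‖toPT u‖ = projNorm u := rfl

/-- The elementary tensor `x ⊗ y` in the completed projective tensor product. -/
noncomputable def tm (x : X) (y : Y) : Ten X Y := ((toPT (x ⊗ₜ[ℝ] y) : PT X Y) : Ten X Y)

lemma norm_tm_le (x : X) (y : Y) : ‖tm x y‖ ≤ ‖x‖ * ‖y‖ := by
  unfold tm
  rw [UniformSpace.Completion.norm_coe, norm_toPT]
  exact projNorm_tmul_le x y

lemma tm_sub_left (x x' : X) (y : Y) : tm (x - x') y = tm x y - tm x' y := by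
  unfold tm
  rw [← UniformSpace.Completion.coe_sub]
  congr 1
  exact TensorProduct.sub_tmul x x' y

lemma tm_add_left (x x' : X) (y : Y) : tm (x + x') y = tm x y + tm x' y := by
  unfold tm
  rw [← UniformSpace.Completion.coe_add]
  congr 1
  exact TensorProduct.add_tmul x x' y

lemma tm_add_right (x : X) (y y' : Y) : tm x (y + y') = tm x y + tm x y' := by
  unfold tm
  rw [← UniformSpace.Completion.coe_add]
  congr 1
  exact TensorProduct.tmul_add x y y'

lemma tm_smul_right (c : ℝ) (x : X) (y : Y) : tm x (c • y) = c • tm x y := by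
  unfold tm
  rw [← UniformSpace.Completion.coe_smul]
  congr 1
  exact TensorProduct.tmul_smul c x y

lemma tm_smul_left (c : ℝ) (x : X) (y : Y) : tm (c • x) y = c • tm x y := by
  unfold tm
  rw [← UniformSpace.Completion.coe_smul]
  congr 1

/-- the dense embedding -/
noncomputable def emb : PT X Y →L[ℝ] Ten X Y :=
  ⟨{ toFun := fun x => (x : Ten X Y)
     map_add' := fun x y => UniformSpace.Completion.coe_add x y
     map_smul' := fun c x => UniformSpace.Completion.coe_smul c x },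
    UniformSpace.Completion.continuous_coe _⟩

/-- a functional is bounded by its bound on elementary tensors -/
theorem bound_of_tm (G : Ten X Y →L[ℝ] ℝ) (K : ℝ) (hK0 : 0 ≤ K)
    (hK : ∀ x y, |G (tm x y)| ≤ K * (‖x‖ * ‖y‖)) (z : Ten X Y) : |G z| ≤ K * ‖z‖ := by
  induction z using UniformSpace.Completion.induction_on with
  | hp => exact isClosed_le G.continuous.abs (continuous_const.mul continuous_norm)
  | ih u =>
    rw [UniformSpace.Completion.norm_coe]
    refine le_of_forall_pos_le_add fun ε hε => ?_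
    obtain ⟨n, x, y, h1, h2⟩ := exists_rep (show X ⊗[ℝ] Y from u) (ε := ε / (K + 1)) (by positivity)
    have h3 : (u : Ten X Y) = ∑ i, tm (x i) (y i) := by
      have h4 : u = ∑ i, toPT (x i ⊗ₜ[ℝ] y i) := h1
      rw [h4]
      exact map_sum (emb (X := X) (Y := Y)) _ _
    rw [h3, map_sum]
    have h5 : |∑ i, G (tm (x i) (y i))| ≤ ∑ i, K * (‖x i‖ * ‖y i‖) :=
      (Finset.abs_sum_le_sum_abs _ _).trans (Finset.sum_le_sum fun i _ => hK _ _)
    rw [← Finset.mul_sum] at h5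
    have h6 : ‖u‖ = projNorm (show X ⊗[ℝ] Y from u) := rfl
    have h7 : K * (ε / (K + 1)) ≤ ε := by
      rw [mul_div_assoc', div_le_iff₀ (by positivity)]
      nlinarith
    have h8 := mul_le_mul_of_nonneg_left h2.le hK0
    rw [h6]
    nlinarith

/-- bounded bilinear forms give functionals -/
theorem exists_functional (B : X →ₗ[ℝ] Y →ₗ[ℝ] ℝ) (K : ℝ) (hK0 : 0 ≤ K)
    (hK : ∀ x y, |B x y| ≤ K * (‖x‖ * ‖y‖)) :
    ∃ G : Ten X Y →L[ℝ] ℝ, (∀ x y, G (tm x y) = B x y) ∧ ∀ z, |G z| ≤ K * ‖z‖ := by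
  let g : X ⊗[ℝ] Y →ₗ[ℝ] ℝ := TensorProduct.lift B
  have hg : ∀ u, |g u| ≤ K * projNorm u := by
    intro u
    refine le_of_forall_pos_le_add fun ε hε => ?_
    obtain ⟨n, x, y, h1, h2⟩ := exists_rep u (ε := ε / (K + 1)) (by positivity)
    have h5 : |g u| ≤ ∑ i, K * (‖x i‖ * ‖y i‖) := by
      rw [h1, map_sum]
      refine (Finset.abs_sum_le_sum_abs _ _).trans (Finset.sum_le_sum fun i _ => ?_)
      rw [TensorProduct.lift.tmul]
      exact hK _ _
    rw [← Finset.mul_sum] at h5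
    have h7 : K * (ε / (K + 1)) ≤ ε := by
      rw [mul_div_assoc', div_le_iff₀ (by positivity)]
      nlinarith
    have h8 := mul_le_mul_of_nonneg_left h2.le hK0
    nlinarith
  let g' : PT X Y →L[ℝ] ℝ := LinearMap.mkContinuous (show PT X Y →ₗ[ℝ] ℝ from g) K (fun u => hg u)
  let G : Ten X Y →L[ℝ] ℝ := g'.extend emb
  have hG : ∀ x y, G (tm x y) = B x y := by
    intro x y
    have h1 : G (emb (toPT (x ⊗ₜ[ℝ] y))) = g' (toPT (x ⊗ₜ[ℝ] y)) :=
      ContinuousLinearMap.extend_eq g' UniformSpace.Completion.denseRange_coe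
        (UniformSpace.Completion.isUniformInducing_coe _) _
    have h2 : g' (toPT (x ⊗ₜ[ℝ] y)) = B x y := TensorProduct.lift.tmul x y
    rw [← h2, ← h1]
    rfl
  exact ⟨G, hG, bound_of_tm G K hK0 (fun x y => by rw [hG]; exact hK x y)⟩

end

end Pool.Agent.V11101.Proj
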