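import Mathlib

/-!
# Radial functions of convex bodies: layer cake formula
-/

open Set MeasureTheory Filter Topology Metric
open scoped ENNReal NNReal

namespace Pool.Agent.V11101.RM

variable {E : Type*} [NormedAddCommGroup E] [InnerProductSpace ℝ E] [FiniteDimensional ℝ E]
  [MeasurableSpace E] [BorelSpace E]

/-- The distance from `y` to the boundary of `K` in the direction `u`. -/
noncomputable def rad (K : Set E) (y u : E) : ℝ := sSup {t : ℝ | 0 ≤ t ∧ y + t • u ∈ K}

omit [FiniteDimensional ℝ E] [MeasurableSpace E] [BorelSpace E] in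
lemma rad_bdd {K : Set E} (hK : IsCompact K) (y : E) {u : E} (hu : u ≠ 0) :
    BddAbove {t : ℝ | 0 ≤ t ∧ y + t • u ∈ K} := by
  obtain ⟨R, hR⟩ := hK.isBounded.exists_norm_le
  have hu' : 0 < ‖u‖ := norm_pos_iff.2 hu
  refine ⟨(R + ‖y‖) / ‖u‖, ?_⟩
  rintro t ⟨ht, hm⟩
  rw [le_div_iff₀ hu']
  have h1 := hR _ hm
  have h2 : ‖t • u‖ ≤ ‖y + t • u‖ + ‖y‖ := by
    have := norm_sub_le (y + t • u) y
    rwa [add_sub_cancel_left] at this
  rw [norm_smul, Real.norm_of_nonneg ht] at h2
  linarith

omit [FiniteDimensional ℝ E] [MeasurableSpace E] [BorelSpace E] in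
lemma rad_nonneg (K : Set E) (y u : E) : 0 ≤ rad K y u :=
  Real.sSup_nonneg fun _ ht => ht.1

omit [FiniteDimensional ℝ E] [MeasurableSpace E] [BorelSpace E] in
lemma mem_iff_le_rad {K : Set E} (hK : IsCompact K) (hc : Convex ℝ K) {y : E} (hy : y ∈ K) {u : E}
    (hu : u ≠ 0) {r : ℝ} (hr : 0 ≤ r) : y + r • u ∈ K ↔ r ≤ rad K y u := by
  constructor
  · intro h
    exact le_csSup (rad_bdd hK y hu) ⟨hr, h⟩
  · intro h
    have hne : {t : ℝ | 0 ≤ t ∧ y + t • u ∈ K}.Nonempty := ⟨0, le_rfl, by simpa using hy⟩
    have hcl : IsClosed {t : ℝ | 0 ≤ t ∧ y + t • u ∈ K} := by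
      apply IsClosed.and
      · exact isClosed_le continuous_const continuous_id
      · exact hK.isClosed.preimage (by fun_prop)
    have hmem := hcl.csSup_mem hne (rad_bdd hK y hu)
    have hm : y + rad K y u • u ∈ K := hmem.2
    rcases (rad_nonneg K y u).eq_or_lt with h0 | h0
    · have : r = 0 := le_antisymm (by rw [h0]; exact h) hr
      rw [this]; simpa using hy
    · have := hc hy hm (a := 1 - r / rad K y u) (b := r / rad K y u)
        (by rw [sub_nonneg, div_le_one h0]; exact h) (div_nonneg hr h0.le) (by ring)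
      convert this using 1
      have e : (r / rad K y u) • rad K y u • u = r • u := by
        rw [smul_smul, div_mul_cancel₀ _ h0.ne']
      rw [smul_add, e, sub_smul, one_smul]
      abel

omit [FiniteDimensional ℝ E] [MeasurableSpace E] [BorelSpace E] in
lemma rad_pos {K : Set E} (hK : IsCompact K) {y : E} (hy : y ∈ interior K) {u : E}
    (hu : u ≠ 0) : 0 < rad K y u := by
  obtain ⟨ε, hε, hb⟩ := Metric.isOpen_iff.1 isOpen_interior y hy
  have hu' : 0 < ‖u‖ := norm_pos_iff.2 hu
  have hm : y + (ε / 2 / ‖u‖) • u ∈ K := by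
    apply interior_subset
    apply hb
    rw [mem_ball, dist_eq_norm, add_sub_cancel_left, norm_smul, Real.norm_of_nonneg (by positivity),
      div_mul_cancel₀ _ hu'.ne']
    linarith
  have h1 : ε / 2 / ‖u‖ ≤ rad K y u := le_csSup (rad_bdd hK y hu) ⟨by positivity, hm⟩
  have : 0 < ε / 2 / ‖u‖ := by positivity
  linarith

/-- The weight. -/
noncomputable def wt (q r : ℝ) : ℝ≥0∞ := ENNReal.ofReal (q * r ^ (-q - 1))

lemma measurable_wt (q : ℝ) : Measurable (wt q) := by
  unfold wt
  exact ((measurable_id.pow_const _).const_mul q).ennreal_ofReal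

lemma layer {q ρ : ℝ} (hq : 0 < q) (hρ : 0 < ρ) :
    ∫⁻ r in Ioi ρ, wt q r = ENNReal.ofReal (ρ ^ (-q)) := by
  unfold wt
  have h1 : IntegrableOn (fun r : ℝ => q * r ^ (-q - 1)) (Ioi ρ) :=
    (integrableOn_Ioi_rpow_of_lt (by linarith) hρ).const_mul q
  rw [← ofReal_integral_eq_lintegral_ofReal h1]
  · rw [integral_const_mul, integral_Ioi_rpow_of_lt (by linarith) hρ]
    congr 1
    rw [sub_add_cancel]
    field_simp
  · rw [EventuallyLE, ae_restrict_iff' measurableSet_Ioi]
    refine Eventually.of_forall fun r hr => ?_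
    have : 0 < r := hρ.trans hr
    show 0 ≤ q * r ^ (-q - 1)
    positivity

/-- The layer cake formula. -/
lemma layer_cake {K : Set E} (hK : IsCompact K) (hc : Convex ℝ K) {q : ℝ} (hq : 0 < q) {u : E}
    (hu : u ≠ 0) :
    ∫⁻ y in K, ENNReal.ofReal (rad K y u ^ (-q)) =
      ∫⁻ r in Ioi (0:ℝ), wt q r * volume (K ∩ {y | y + r • u ∉ K}) := by
  have hfr : volume (frontier K) = 0 := hc.addHaar_frontier volume
  have hint : ∀ᵐ y ∂(volume.restrict K), y ∈ interior K := by
    rw [ae_restrict_iff' hK.measurableSet]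
    have : ∀ᵐ y ∂(volume : Measure E), y ∉ frontier K := measure_eq_zero_iff_ae_notMem.1 hfr
    filter_upwards [this] with y hy hyK
    by_contra hni
    exact hy ⟨subset_closure hyK, hni⟩
  set B : Set (E × ℝ) := {p | p.1 + p.2 • u ∉ K} with hB
  have hBm : MeasurableSet B := by
    have : IsOpen B := hK.isClosed.isOpen_compl.preimage (by fun_prop)
    exact this.measurableSet
  have h1 : ∫⁻ y in K, ENNReal.ofReal (rad K y u ^ (-q)) =
      ∫⁻ y in K, ∫⁻ r in Ioi (0:ℝ), wt q r * B.indicator 1 (y, r) := by
    refine lintegral_congr_ae ?_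
    filter_upwards [hint] with y hy
    rw [← layer hq (rad_pos hK hy hu)]
    have hyK := interior_subset hy
    have : ∀ r ∈ Ioi (0:ℝ), wt q r * B.indicator 1 (y, r) = (Ioi (rad K y u)).indicator (wt q) r := by
      intro r hr
      have hr' : (0:ℝ) < r := hr
      by_cases h : y + r • u ∈ K
      · have h2 := (mem_iff_le_rad hK hc hyK hu hr'.le).1 h
        rw [indicator_of_notMem (show ((y, r) : E × ℝ) ∉ B from fun hh => hh h),
          indicator_of_notMem (show r ∉ Ioi (rad K y u) from not_lt.2 h2), mul_zero]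
      · have h2 : rad K y u < r := by
          by_contra hlt
          exact h ((mem_iff_le_rad hK hc hyK hu hr'.le).2 (not_lt.1 hlt))
        rw [indicator_of_mem (show ((y, r) : E × ℝ) ∈ B from h),
          indicator_of_mem (show r ∈ Ioi (rad K y u) from h2), Pi.one_apply, mul_one]
    rw [setLIntegral_congr_fun measurableSet_Ioi this, lintegral_indicator measurableSet_Ioi,
      Measure.restrict_restrict measurableSet_Ioi,
      inter_eq_left.2 (Ioi_subset_Ioi (rad_nonneg K y u))]
  rw [h1, lintegral_lintegral_swap]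
  · refine lintegral_congr fun r => ?_
    rw [lintegral_const_mul]
    · congr 1
      have h2 : (fun y => B.indicator (1 : E × ℝ → ℝ≥0∞) (y, r)) =
          {y | y + r • u ∉ K}.indicator 1 := by
        ext y
        by_cases h : y + r • u ∈ K
        · rw [indicator_of_notMem (show ((y, r) : E × ℝ) ∉ B from fun hh => hh h),
            indicator_of_notMem (show y ∉ {y | y + r • u ∉ K} from fun hh => hh h)]
        · rw [indicator_of_mem (show ((y, r) : E × ℝ) ∈ B from h),
            indicator_of_mem (show y ∈ {y | y + r • u ∉ K} from h)]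
          rfl
      have hm : MeasurableSet {y : E | y + r • u ∉ K} := by
        have : IsOpen {y : E | y + r • u ∉ K} := hK.isClosed.isOpen_compl.preimage (by fun_prop)
        exact this.measurableSet
      rw [h2, lintegral_indicator_one hm, Measure.restrict_apply hm, inter_comm]
    · exact (measurable_one.indicator hBm).comp (measurable_id.prodMk measurable_const)
  · refine Measurable.aemeasurable ?_
    exact ((measurable_wt q).comp measurable_snd).mul (measurable_one.indicator hBm)

/-- The measure of the part moved out of `K` is at most linear in the displacement. -/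
lemma moved_le {K : Set E} (hK : IsCompact K) (hc : Convex ℝ K) (hi : (interior K).Nonempty)
    (u : E) : ∃ C : ℝ, 0 ≤ C ∧ ∀ r : ℝ, 0 ≤ r →
      volume (K ∩ {y | y + r • u ∉ K}) ≤ ENNReal.ofReal (C * r) := by
  obtain ⟨c, hc0⟩ := hi
  obtain ⟨δ, hδ, hb⟩ := Metric.isOpen_iff.1 isOpen_interior c hc0
  set d := Module.finrank ℝ E with hd
  set V : ℝ := (volume K).toReal with hV
  have hKfin : volume K ≠ ∞ := hK.measure_lt_top.ne
  refine ⟨(2 * d * ‖u‖ / δ + 2 * ‖u‖ / δ) * V, by positivity, fun r hr => ?_⟩
  have hV' : volume K = ENNReal.ofReal V := (ENNReal.ofReal_toReal hKfin).symm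
  -- `s` is the shrinking factor
  set s : ℝ := 2 * r * ‖u‖ / δ with hs
  have hs0 : 0 ≤ s := by positivity
  rcases le_or_gt 1 s with h1 | h1
  · calc volume (K ∩ {y | y + r • u ∉ K}) ≤ volume K := measure_mono inter_subset_left
      _ = ENNReal.ofReal V := hV'
      _ ≤ ENNReal.ofReal ((2 * d * ‖u‖ / δ + 2 * ‖u‖ / δ) * V * r) := by
          apply ENNReal.ofReal_le_ofReal
          have e : (2 * d * ‖u‖ / δ + 2 * ‖u‖ / δ) * V * r = (d * s + s) * V := by
            rw [hs]; ring
          rw [e]
          have hVn : 0 ≤ V := ENNReal.toReal_nonneg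
          have : (0:ℝ) ≤ d * s := by positivity
          nlinarith
  · -- the homothetic image lies in `K ∩ (K - r u)`
    have hsub : AffineMap.homothety c (1 - s) '' K ⊆ K ∩ {y | y + r • u ∈ K} := by
      rintro _ ⟨z, hz, rfl⟩
      have hcK : c ∈ K := interior_subset hc0
      have hmem : ∀ v : E, ‖v‖ ≤ s * (δ / 2) → AffineMap.homothety c (1 - s) z + v ∈ K := by
        intro v hv
        rcases hs0.eq_or_lt with h0 | h0
        · have : v = 0 := by
            rw [← h0, zero_mul] at hv
            exact norm_le_zero_iff.1 hv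
          rw [this, add_zero, ← h0, sub_zero, AffineMap.homothety_one, AffineMap.id_apply]
          exact hz
        · have hw : c + s⁻¹ • v ∈ K := by
            apply interior_subset
            apply hb
            rw [mem_ball, dist_eq_norm, add_sub_cancel_left, norm_smul, norm_inv,
              Real.norm_of_nonneg hs0, inv_mul_lt_iff₀ h0]
            have : s * (δ / 2) < s * δ := by nlinarith
            linarith
          have := hc hz hw (a := 1 - s) (b := s) (by linarith) hs0 (by ring)
          convert this using 1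
          rw [AffineMap.homothety_apply, vsub_eq_sub, vadd_eq_add, smul_add, smul_smul,
            mul_inv_cancel₀ h0.ne', one_smul, smul_sub, sub_smul, sub_smul, one_smul, one_smul]
          abel
      refine ⟨?_, ?_⟩
      · have := hmem 0 (by rw [norm_zero]; positivity)
        rwa [add_zero] at this
      · apply hmem
        rw [norm_smul, Real.norm_of_nonneg hr, hs]
        apply le_of_eq
        field_simp
    have hle : K ∩ {y | y + r • u ∉ K} ⊆ K \ (AffineMap.homothety c (1 - s) '' K) := by
      rintro y ⟨hy, hy'⟩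
      exact ⟨hy, fun h => hy' (hsub h).2⟩
    have hmeas : MeasurableSet (AffineMap.homothety c (1 - s) '' K) := by
      refine (hK.image ?_).measurableSet
      exact AffineMap.homothety_continuous c (1 - s)
    refine (measure_mono hle).trans ?_
    rw [measure_sdiff (fun y hy => (hsub hy).1) hmeas.nullMeasurableSet
      (measure_ne_top_of_subset (fun y hy => (hsub hy).1) hKfin),
      Measure.addHaar_image_homothety, hV', ← ENNReal.ofReal_mul (abs_nonneg _),
      ← ENNReal.ofReal_sub _ (by positivity)]
    apply ENNReal.ofReal_le_ofReal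
    have hVn : 0 ≤ V := ENNReal.toReal_nonneg
    have hbern : 1 + (d:ℝ) * (-s) ≤ (1 + (-s)) ^ d := one_add_mul_le_pow (by linarith) d
    rw [abs_of_nonneg (pow_nonneg (by linarith) _)]
    have e : (2 * d * ‖u‖ / δ + 2 * ‖u‖ / δ) * V * r = (d * s + s) * V := by
      rw [hs]; ring
    rw [e]
    have h5 : 1 - (1 - s) ^ d ≤ d * s := by
      have : (1 + (-s)) = 1 - s := by ring
      rw [this] at hbern
      linarith
    nlinarith

/-- Finiteness of the integral. -/
lemma lintegral_rad_lt_top {K : Set E} (hK : IsCompact K) (hc : Convex ℝ K)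
    (hi : (interior K).Nonempty) {q : ℝ} (hq : 0 < q) (hq1 : q < 1) {u : E} (hu : u ≠ 0) :
    ∫⁻ y in K, ENNReal.ofReal (rad K y u ^ (-q)) < ∞ := by
  rw [layer_cake hK hc hq hu]
  obtain ⟨C, hC, hb⟩ := moved_le hK hc hi u
  have hsplit : Ioi (0:ℝ) = Ioc 0 1 ∪ Ioi 1 := (Ioc_union_Ioi_eq_Ioi zero_le_one).symm
  rw [hsplit]
  refine (lintegral_union_le _ _ _).trans_lt (ENNReal.add_lt_top.2 ⟨?_, ?_⟩)
  · have h1 : ∀ r ∈ Ioc (0:ℝ) 1, wt q r * volume (K ∩ {y | y + r • u ∉ K}) ≤
        ENNReal.ofReal (q * C * r ^ (-q)) := by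
      intro r hr
      have hr0 : 0 < r := hr.1
      refine (mul_le_mul_right (hb r hr0.le) _).trans ?_
      unfold wt
      rw [← ENNReal.ofReal_mul (by positivity)]
      apply ENNReal.ofReal_le_ofReal
      apply le_of_eq
      have : r ^ (-q) = r ^ (-q - 1) * r := by
        rw [← Real.rpow_add_one hr0.ne']; ring_nf
      rw [this]; ring
    refine (setLIntegral_mono' measurableSet_Ioc h1).trans_lt ?_
    have h2 : IntegrableOn (fun r : ℝ => q * C * r ^ (-q)) (Ioc 0 1) := by
      have : IntervalIntegrable (fun r : ℝ => q * C * r ^ (-q)) volume 0 1 :=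
        (intervalIntegral.intervalIntegrable_rpow' (by linarith)).const_mul _
      rwa [intervalIntegrable_iff_integrableOn_Ioc_of_le zero_le_one] at this
    exact h2.lintegral_lt_top
  · have h1 : ∀ r ∈ Ioi (1:ℝ), wt q r * volume (K ∩ {y | y + r • u ∉ K}) ≤
        volume K * wt q r := by
      intro r _
      rw [mul_comm]
      exact mul_le_mul_left (measure_mono inter_subset_left) _
    refine (setLIntegral_mono' measurableSet_Ioi h1).trans_lt ?_
    rw [lintegral_const_mul _ (measurable_wt q), layer hq one_pos]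
    exact ENNReal.mul_lt_top hK.measure_lt_top ENNReal.ofReal_lt_top

end Pool.Agent.V11101.RM
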