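import Pool.Agent.V11101.RM1

/-!
# Plancherel: translations of indicator functions
-/

open Set MeasureTheory Filter Topology Metric FourierTransform
open scoped ENNReal NNReal RealInnerProductSpace

namespace Pool.Agent.V11101.RM

variable {E : Type*} [NormedAddCommGroup E] [InnerProductSpace ℝ E] [FiniteDimensional ℝ E]
  [MeasurableSpace E] [BorelSpace E]

/-- The phase factor. -/
noncomputable def ph (a ξ : E) : ℂ := (Real.fourierChar (-⟪a, ξ⟫) : ℂ)

omit [FiniteDimensional ℝ E] [MeasurableSpace E] [BorelSpace E] in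
lemma continuous_ph (a : E) : Continuous (ph a) := by
  unfold ph
  have h1 : Continuous (fun ξ : E => (Real.fourierChar (-⟪a, ξ⟫) : Circle)) :=
    Real.continuous_fourierChar.comp (by fun_prop)
  exact continuous_subtype_val.comp h1

omit [FiniteDimensional ℝ E] [MeasurableSpace E] [BorelSpace E] in
lemma norm_ph (a ξ : E) : ‖ph a ξ‖ = 1 := by unfold ph; exact Circle.norm_coe _

/-- The phase factor as an element of `L^∞`. -/
noncomputable def phLp (a : E) : Lp (α := E) ℂ ∞ volume :=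
  (memLp_top_of_bound (continuous_ph a).aestronglyMeasurable 1
    (Eventually.of_forall fun ξ => (norm_ph a ξ).le)).toLp (ph a)

/-- Multiplication by the phase factor. -/
noncomputable def mo (a : E) : Lp (α := E) ℂ 2 volume →L[ℂ] Lp (α := E) ℂ 2 volume :=
  (ContinuousLinearMap.mul ℂ ℂ).holderL volume ∞ 2 2 (phLp a)

lemma coe_mo (a : E) (f : Lp (α := E) ℂ 2 volume) :
    mo a f =ᵐ[volume] fun ξ => ph a ξ * f ξ := by
  have h1 : mo a f =ᵐ[volume] fun ξ => (ContinuousLinearMap.mul ℂ ℂ) (phLp a ξ) (f ξ) :=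
    ContinuousLinearMap.coeFn_holder (ContinuousLinearMap.mul ℂ ℂ) (phLp a) f
  have h2 : phLp a =ᵐ[volume] ph a := MemLp.coeFn_toLp _
  filter_upwards [h1, h2] with ξ h3 h4
  rw [h3, h4]; rfl

/-- Translation. -/
noncomputable def tr (a : E) : Lp (α := E) ℂ 2 volume →ₗᵢ[ℂ] Lp (α := E) ℂ 2 volume :=
  Lp.compMeasurePreservingₗᵢ ℂ (fun x => x - a) (measurePreserving_sub_right volume a)

lemma coe_tr (a : E) (f : Lp (α := E) ℂ 2 volume) :
    tr a f =ᵐ[volume] fun x => f (x - a) :=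
  Lp.coeFn_compMeasurePreserving f (measurePreserving_sub_right volume a)

lemma fourier_tr (a : E) (f : Lp (α := E) ℂ 2 volume) : 𝓕 (tr a f) = mo a (𝓕 f) := by
  refine DenseRange.induction_on (p := fun f : Lp (α := E) ℂ 2 volume => 𝓕 (tr a f) = mo a (𝓕 f))
    (SchwartzMap.denseRange_toLpCLM (F := ℂ) (p := 2) ENNReal.ofNat_ne_top) f ?_ ?_
  · refine isClosed_eq ?_ ?_
    · exact (Lp.fourierTransformₗᵢ E ℂ).continuous.comp (tr a).continuous
    · exact (mo a).continuous.comp (Lp.fourierTransformₗᵢ E ℂ).continuous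
  · intro φ
    have e0 : SchwartzMap.toLpCLM ℝ (E := E) ℂ 2 volume φ = φ.toLp 2 volume := rfl
    rw [e0]
    have e1 : tr a (φ.toLp 2 volume) = (φ.compSubConstCLM ℂ a).toLp 2 volume := by
      apply Lp.ext
      have h1 := coe_tr a (φ.toLp 2 volume)
      have h2 : (fun x => (φ.toLp 2 volume) (x - a)) =ᵐ[volume] fun x => φ (x - a) :=
        (measurePreserving_sub_right volume a).quasiMeasurePreserving.ae_eq_comp
          (SchwartzMap.coeFn_toLp φ 2 volume)
      have h3 := SchwartzMap.coeFn_toLp (φ.compSubConstCLM ℂ a) 2 volume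
      filter_upwards [h1, h2, h3] with x h4 h5 h6
      rw [h4, h5, h6]; rfl
    rw [e1, SchwartzMap.toLp_fourier_eq, SchwartzMap.toLp_fourier_eq]
    apply Lp.ext
    have h1 := SchwartzMap.coeFn_toLp (𝓕 (φ.compSubConstCLM ℂ a)) 2 volume
    have h2 := coe_mo a ((𝓕 φ).toLp 2 volume)
    have h3 := SchwartzMap.coeFn_toLp (𝓕 φ) 2 volume
    filter_upwards [h1, h2, h3] with ξ h4 h5 h6
    rw [h4, h5, h6, SchwartzMap.fourier_coe, SchwartzMap.fourier_coe, Real.fourier_eq,
      Real.fourier_eq]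
    have h7 : ∀ v : E, (Real.fourierChar (-⟪v, ξ⟫) : Circle) • (φ.compSubConstCLM ℂ a) v =
        (fun w : E => (Real.fourierChar (-⟪w + a, ξ⟫) : Circle) • φ w) (v - a) := by
      intro v
      show _ = (Real.fourierChar (-⟪v - a + a, ξ⟫) : Circle) • φ (v - a)
      rw [sub_add_cancel]; rfl
    simp_rw [h7]
    rw [integral_sub_right_eq_self
      (fun w : E => (Real.fourierChar (-⟪w + a, ξ⟫) : Circle) • φ w) a]
    rw [← integral_const_mul]
    congr 1
    ext w
    rw [inner_add_left, neg_add, AddChar.map_add_eq_mul]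
    unfold ph
    rw [Circle.smul_def, Circle.smul_def, smul_eq_mul, smul_eq_mul, Circle.coe_mul]
    ring

lemma enorm_sq_eq (f : Lp (α := E) ℂ 2 volume) : ‖f‖ₑ ^ 2 = ∫⁻ x, ‖f x‖ₑ ^ 2 := by
  rw [Lp.enorm_def]
  have h := eLpNorm_nnreal_pow_eq_lintegral (f := f) (μ := (volume : Measure E)) (p := 2) two_ne_zero
  have e : ((2 : ℝ≥0) : ℝ) = ((2:ℕ) : ℝ) := by norm_num
  simp only [e, ENNReal.rpow_natCast] at h
  exact h

lemma plancherel_tr (a : E) (f : Lp (α := E) ℂ 2 volume) :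
    ∫⁻ x, ‖f (x - a) - f x‖ₑ ^ 2 = ∫⁻ ξ, ‖ph a ξ - 1‖ₑ ^ 2 * ‖(𝓕 f : Lp (α := E) ℂ 2 volume) ξ‖ₑ ^ 2 := by
  have h1 : ‖tr a f - f‖ₑ = ‖mo a (𝓕 f) - 𝓕 f‖ₑ := by
    rw [← fourier_tr]
    have h2 : 𝓕 (tr a f) - 𝓕 f = Lp.fourierTransformₗᵢ E ℂ (tr a f - f) := by
      rw [map_sub]; rfl
    rw [h2, LinearIsometryEquiv.enorm_map]
  have h3 := congrArg (· ^ 2) h1
  simp only [enorm_sq_eq] at h3
  have h4 : ∫⁻ x, ‖(tr a f - f : Lp (α := E) ℂ 2 volume) x‖ₑ ^ 2 = ∫⁻ x, ‖f (x - a) - f x‖ₑ ^ 2 := by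
    refine lintegral_congr_ae ?_
    filter_upwards [Lp.coeFn_sub (tr a f) f, coe_tr a f] with x h5 h6
    rw [h5, Pi.sub_apply, h6]
  have h5 : ∫⁻ ξ, ‖(mo a (𝓕 f) - 𝓕 f : Lp (α := E) ℂ 2 volume) ξ‖ₑ ^ 2 =
      ∫⁻ ξ, ‖ph a ξ - 1‖ₑ ^ 2 * ‖(𝓕 f : Lp (α := E) ℂ 2 volume) ξ‖ₑ ^ 2 := by
    refine lintegral_congr_ae ?_
    filter_upwards [Lp.coeFn_sub (mo a (𝓕 f)) (𝓕 f), coe_mo a (𝓕 f)] with ξ h5 h6
    rw [h5, Pi.sub_apply, h6, ← mul_pow, ← enorm_mul, sub_mul, one_mul]
  rw [← h4, h3, h5]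

/-- The Fourier transform of the indicator function of `K`, in `L²`. -/
noncomputable def FK (K : Set E) (hK : MeasurableSet K) (hf : volume K ≠ ∞) :
    Lp (α := E) ℂ 2 volume := 𝓕 (indicatorConstLp 2 hK hf (1:ℂ))

lemma moved_fourier {K : Set E} (hK : MeasurableSet K) (hf : volume K ≠ ∞) (a : E) :
    2 * volume (K ∩ {y | y + a ∉ K}) = ∫⁻ ξ, ‖ph a ξ - 1‖ₑ ^ 2 * ‖FK K hK hf ξ‖ₑ ^ 2 := by
  rw [FK, ← plancherel_tr]
  have h0 : (indicatorConstLp 2 hK hf (1:ℂ) : E → ℂ) =ᵐ[volume] K.indicator (fun _ => 1) :=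
    indicatorConstLp_coeFn
  have h1 : (fun x => (indicatorConstLp 2 hK hf (1:ℂ) : E → ℂ) (x - a)) =ᵐ[volume]
      fun x => K.indicator (fun _ => (1:ℂ)) (x - a) :=
    (measurePreserving_sub_right volume a).quasiMeasurePreserving.ae_eq_comp h0
  set A : Set E := K ∩ {x | x - a ∉ K} with hA
  set B : Set E := Kᶜ ∩ {x | x - a ∈ K} with hB
  have hpm : Measurable (fun x : E => x - a) := measurable_id.sub_const a
  have hpp : Measurable (fun x : E => x + a) := measurable_id.add_const a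
  have hAm : MeasurableSet A := hK.inter (hpm hK.compl)
  have hBm : MeasurableSet B := hK.compl.inter (hpm hK)
  have h2 : ∫⁻ x, ‖(indicatorConstLp 2 hK hf (1:ℂ) : E → ℂ) (x - a) -
      (indicatorConstLp 2 hK hf (1:ℂ) : E → ℂ) x‖ₑ ^ 2 =
      ∫⁻ x, (A.indicator 1 x + B.indicator 1 x) := by
    refine lintegral_congr_ae ?_
    filter_upwards [h0, h1] with x h3 h4
    rw [h3, h4]
    by_cases c1 : x ∈ K
    · rw [indicator_of_notMem (show x ∉ B from fun h => h.1 c1), indicator_of_mem c1]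
      by_cases c2 : x - a ∈ K
      · rw [indicator_of_notMem (show x ∉ A from fun h => h.2 c2), indicator_of_mem c2]
        simp
      · rw [indicator_of_mem (show x ∈ A from ⟨c1, c2⟩), indicator_of_notMem c2]
        simp
    · rw [indicator_of_notMem (show x ∉ A from fun h => c1 h.1), indicator_of_notMem c1]
      by_cases c2 : x - a ∈ K
      · rw [indicator_of_mem (show x ∈ B from ⟨c1, c2⟩), indicator_of_mem c2]
        simp
      · rw [indicator_of_notMem (show x ∉ B from fun h => c2 h.2), indicator_of_notMem c2]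
        simp
  rw [h2, lintegral_add_left (measurable_one.indicator hAm), lintegral_indicator_one hAm,
    lintegral_indicator_one hBm]
  have h3 : volume B = volume (K ∩ {y | y + a ∉ K}) := by
    have := (measurePreserving_add_right volume a).measure_preimage hBm.nullMeasurableSet
    rw [← this]
    congr 1
    ext y
    simp only [hB, mem_preimage, mem_inter_iff, mem_compl_iff, mem_ofPred_eq, add_sub_cancel_right]
    tauto
  have h4 : volume A = volume (K ∩ {y | y + a ∉ K}) := by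
    have hA' : MeasurableSet (K ∩ {x | x - a ∈ K}) := hK.inter (hpm hK)
    have hD : MeasurableSet (K ∩ {x | x + a ∈ K}) := hK.inter (hpp hK)
    have e1 : A = K \ (K ∩ {x | x - a ∈ K}) := by
      ext x; simp only [hA, mem_inter_iff, mem_ofPred_eq, Set.mem_sdiff]; tauto
    have e2 : K ∩ {y | y + a ∉ K} = K \ (K ∩ {x | x + a ∈ K}) := by
      ext x; simp only [mem_inter_iff, mem_ofPred_eq, Set.mem_sdiff]; tauto
    have e3 : volume (K ∩ {x | x - a ∈ K}) = volume (K ∩ {x | x + a ∈ K}) := by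
      have := (measurePreserving_add_right volume a).measure_preimage hA'.nullMeasurableSet
      rw [← this]
      congr 1
      ext y
      simp only [mem_preimage, mem_inter_iff, mem_ofPred_eq, add_sub_cancel_right]
      tauto
    rw [e1, e2, measure_sdiff inter_subset_left hA'.nullMeasurableSet
      (measure_ne_top_of_subset inter_subset_left hf), measure_sdiff inter_subset_left
      hD.nullMeasurableSet (measure_ne_top_of_subset inter_subset_left hf), e3]
  rw [h3, h4, two_mul]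

end Pool.Agent.V11101.RM
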