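import Pool.Agent.V11101.RM2

/-!
# The Lévy representation of the radial function of the radial mean body
-/

open Set MeasureTheory Filter Topology Metric FourierTransform
open scoped ENNReal NNReal RealInnerProductSpace

namespace Pool.Agent.V11101.RM

variable {E : Type*} [NormedAddCommGroup E] [InnerProductSpace ℝ E] [FiniteDimensional ℝ E]
  [MeasurableSpace E] [BorelSpace E]

/-- `|e^{-2πi rs} - 1|²`. -/
noncomputable def Ph (x : ℝ) : ℝ≥0∞ := ‖(Real.fourierChar (-x) : ℂ) - 1‖ₑ ^ 2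

lemma Ph_neg (x : ℝ) : Ph (-x) = Ph x := by
  unfold Ph
  congr 1
  have h1 : (Real.fourierChar (-x) : ℂ) * (Real.fourierChar x : ℂ) = 1 := by
    rw [← Circle.coe_mul, ← AddChar.map_add_eq_mul, neg_add_cancel, AddChar.map_zero_eq_one]; rfl
  have h2 : (Real.fourierChar (-x) : ℂ) - 1 = -((Real.fourierChar (-x) : ℂ) *
      ((Real.fourierChar (- -x) : ℂ) - 1)) := by
    rw [neg_neg, mul_sub, h1]; ring
  rw [h2, enorm_neg, enorm_mul]
  have h3 : ‖(Real.fourierChar (-x) : ℂ)‖ₑ = 1 := by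
    rw [← ofReal_norm, Circle.norm_coe, ENNReal.ofReal_one]
  rw [h3, one_mul]

lemma Ph_zero : Ph 0 = 0 := by
  unfold Ph
  rw [neg_zero, AddChar.map_zero_eq_one]
  simp

lemma Ph_abs (x : ℝ) : Ph |x| = Ph x := by
  rcases abs_choice x with h | h
  · rw [h]
  · rw [h, Ph_neg]

lemma measurable_Ph : Measurable Ph := by
  have h1 : Continuous (fun x : ℝ => (Real.fourierChar (-x) : ℂ) - 1) :=
    (continuous_subtype_val.comp (Real.continuous_fourierChar.comp continuous_neg)).sub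
      continuous_const
  exact h1.measurable.enorm.pow_const 2

/-- The radial integral. -/
noncomputable def J (q s : ℝ) : ℝ≥0∞ := ∫⁻ r in Ioi (0:ℝ), wt q r * Ph (r * s)

lemma lint_scale {H : ℝ → ℝ≥0∞} (hH : Measurable H) {b : ℝ} (hb : 0 < b) :
    ∫⁻ r in Ioi (0:ℝ), H (b * r) = ENNReal.ofReal b⁻¹ * ∫⁻ r in Ioi (0:ℝ), H r := by
  rw [← lintegral_indicator measurableSet_Ioi, ← lintegral_indicator measurableSet_Ioi]
  have e : (Ioi (0:ℝ)).indicator (fun r => H (b * r)) = fun r => (Ioi (0:ℝ)).indicator H (b * r) := by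
    ext r
    by_cases h : 0 < r
    · rw [indicator_of_mem (show r ∈ Ioi (0:ℝ) from h),
        indicator_of_mem (show b * r ∈ Ioi (0:ℝ) from mul_pos hb h)]
    · rw [indicator_of_notMem (show r ∉ Ioi (0:ℝ) from h), indicator_of_notMem]
      intro h2
      exact h (pos_of_mul_pos_right (show 0 < b * r from h2) hb.le)
  rw [e]
  have hm := lintegral_map (μ := volume) (hH.indicator (measurableSet_Ioi (a := (0:ℝ))))
    (measurable_const_mul b)
  rw [← hm, Real.map_volume_mul_left hb.ne', lintegral_smul_measure, abs_of_pos (inv_pos.2 hb)]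
  rfl

lemma J_scale {q : ℝ} (hq : 0 < q) (s : ℝ) : J q s = ENNReal.ofReal (|s| ^ q) * J q 1 := by
  rcases eq_or_ne s 0 with rfl | hs
  · unfold J
    simp [Ph_zero, Real.zero_rpow hq.ne']
  · have hb : 0 < |s| := abs_pos.2 hs
    set b := |s| with hbdef
    unfold J
    have h1 : ∀ r ∈ Ioi (0:ℝ), wt q r * Ph (r * s) =
        ENNReal.ofReal (b ^ (q + 1)) * (wt q (b * r) * Ph (b * r)) := by
      intro r hr
      have hr' : (0:ℝ) < r := hr
      have e1 : Ph (r * s) = Ph (b * r) := by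
        rw [← Ph_abs (r * s), abs_mul, abs_of_pos hr', mul_comm]
      have e2 : wt q r = ENNReal.ofReal (b ^ (q + 1)) * wt q (b * r) := by
        unfold wt
        rw [← ENNReal.ofReal_mul (by positivity), Real.mul_rpow hb.le hr'.le]
        congr 1
        have : b ^ (q + 1) * b ^ (-q - 1) = 1 := by
          rw [← Real.rpow_add hb]
          rw [show q + 1 + (-q - 1) = 0 by ring, Real.rpow_zero]
        calc q * r ^ (-q - 1) = (b ^ (q + 1) * b ^ (-q - 1)) * (q * r ^ (-q - 1)) := by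
              rw [this, one_mul]
          _ = _ := by ring
      rw [e1, e2, mul_assoc]
    rw [setLIntegral_congr_fun measurableSet_Ioi h1]
    have hm : Measurable (fun r => wt q r * Ph r) := (measurable_wt q).mul measurable_Ph
    have hm2 : Measurable (fun r => wt q (b * r) * Ph (b * r)) := hm.comp (measurable_const_mul b)
    have hl := lint_scale hm hb
    beta_reduce at hl
    rw [lintegral_const_mul _ hm2, hl, ← mul_assoc, ← ENNReal.ofReal_mul (by positivity)]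
    simp only [mul_one]
    congr 2
    rw [Real.rpow_add hb, Real.rpow_one]
    field_simp

omit [FiniteDimensional ℝ E] [MeasurableSpace E] [BorelSpace E] in
lemma ph_smul (r : ℝ) (u ξ : E) : ‖ph (r • u) ξ - 1‖ₑ ^ 2 = Ph (r * ⟪u, ξ⟫) := by
  unfold ph Ph
  rw [real_inner_smul_left]

lemma main_identity {K : Set E} (hK : IsCompact K) (hc : Convex ℝ K) {q : ℝ} (hq : 0 < q) {u : E}
    (hu : u ≠ 0) :
    2 * ∫⁻ y in K, ENNReal.ofReal (rad K y u ^ (-q)) =
      ∫⁻ ξ, ‖FK K hK.measurableSet hK.measure_lt_top.ne ξ‖ₑ ^ 2 *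
        (ENNReal.ofReal (|⟪u, ξ⟫| ^ q) * J q 1) := by
  set G : E → ℝ≥0∞ := fun ξ => ‖FK K hK.measurableSet hK.measure_lt_top.ne ξ‖ₑ ^ 2 with hG
  have hGm : Measurable G := (Lp.stronglyMeasurable _).measurable.enorm.pow_const 2
  have hPm : Measurable (fun p : ℝ × E => Ph (p.1 * ⟪u, p.2⟫)) :=
    measurable_Ph.comp (by fun_prop)
  rw [layer_cake hK hc hq hu]
  have hmv : ∀ r : ℝ, 2 * volume (K ∩ {y | y + r • u ∉ K}) =
      ∫⁻ ξ, Ph (r * ⟪u, ξ⟫) * G ξ := by
    intro r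
    rw [moved_fourier hK.measurableSet hK.measure_lt_top.ne]
    refine lintegral_congr fun ξ => ?_
    rw [ph_smul]
  have h2 : 2 * ∫⁻ r in Ioi (0:ℝ), wt q r * volume (K ∩ {y | y + r • u ∉ K}) =
      ∫⁻ r in Ioi (0:ℝ), ∫⁻ ξ, wt q r * (Ph (r * ⟪u, ξ⟫) * G ξ) := by
    rw [← lintegral_const_mul' _ _ (by norm_num)]
    refine lintegral_congr fun r => ?_
    rw [mul_left_comm, hmv r, lintegral_const_mul]
    exact (hPm.comp (measurable_const.prodMk measurable_id)).mul hGm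
  rw [h2, lintegral_lintegral_swap]
  · refine lintegral_congr fun ξ => ?_
    rw [← J_scale hq]
    unfold J
    rw [← lintegral_const_mul]
    · refine lintegral_congr fun r => ?_
      ring
    · exact (measurable_wt q).mul (measurable_Ph.comp (measurable_id.mul_const _))
  · exact (((measurable_wt q).comp measurable_fst).mul
      (hPm.mul (hGm.comp measurable_snd))).aemeasurable

/-! ### The measure on the sphere -/

/-- The density measure, projected to the sphere. -/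
noncomputable def muS (G : E → ℝ≥0∞) (q : ℝ) : Measure (sphere (0:E) 1) :=
  Measure.comap (Subtype.val) (Measure.map (fun ξ => ‖ξ‖⁻¹ • ξ)
    ((volume : Measure E).withDensity fun ξ => G ξ * ENNReal.ofReal (‖ξ‖ ^ q)))

lemma measurable_normalize : Measurable (fun ξ : E => ‖ξ‖⁻¹ • ξ) :=
  measurable_norm.inv.smul measurable_id

lemma lintegral_muS {G : E → ℝ≥0∞} (hG : Measurable G) {q : ℝ} {f : E → ℝ≥0∞}
    (hf : Measurable f) :
    ∫⁻ u : sphere (0:E) 1, f u ∂(muS G q) =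
      ∫⁻ ξ in {0}ᶜ, (G ξ * ENNReal.ofReal (‖ξ‖ ^ q)) * f (‖ξ‖⁻¹ • ξ) := by
  unfold muS
  have hs : MeasurableSet (sphere (0:E) 1) := isClosed_sphere.measurableSet
  have hd : Measurable fun ξ : E => G ξ * ENNReal.ofReal (‖ξ‖ ^ q) :=
    hG.mul (measurable_norm.pow_const q).ennreal_ofReal
  rw [lintegral_subtype_comap hs, setLIntegral_map hs hf measurable_normalize]
  have e : (fun ξ : E => ‖ξ‖⁻¹ • ξ) ⁻¹' sphere (0:E) 1 = {0}ᶜ := by
    ext ξ
    simp only [mem_preimage, mem_sphere_iff_norm, sub_zero, mem_compl_iff, mem_singleton_iff]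
    rw [norm_smul, norm_inv, norm_norm]
    constructor
    · rintro h rfl
      simp at h
    · intro h
      exact inv_mul_cancel₀ (norm_ne_zero_iff.2 h)
  have hf2 : Measurable (fun ξ : E => f (‖ξ‖⁻¹ • ξ)) := hf.comp measurable_normalize
  rw [e, setLIntegral_withDensity_eq_setLIntegral_mul _ hd hf2
    (measurableSet_singleton 0).compl]
  rfl

lemma lintegral_muS_inner {G : E → ℝ≥0∞} (hG : Measurable G) {q : ℝ} (hq : 0 < q) (x : E) :
    ∫⁻ u : sphere (0:E) 1, ENNReal.ofReal (|⟪x, (u : E)⟫| ^ q) ∂(muS G q) =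
      ∫⁻ ξ, G ξ * ENNReal.ofReal (|⟪x, ξ⟫| ^ q) := by
  have hf : Measurable fun ξ : E => ENNReal.ofReal (|⟪x, ξ⟫| ^ q) := by
    have h1 : Measurable fun ξ : E => |⟪x, ξ⟫| := by
      have : Continuous fun ξ : E => |⟪x, ξ⟫| := by fun_prop
      exact this.measurable
    exact (h1.pow_const q).ennreal_ofReal
  rw [lintegral_muS hG hf, ← lintegral_indicator (measurableSet_singleton 0).compl]
  refine lintegral_congr fun ξ => ?_
  by_cases h : ξ = 0
  · rw [indicator_of_notMem (show ξ ∉ ({0}ᶜ : Set E) from fun hh => hh h), h]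
    simp [Real.zero_rpow hq.ne']
  · rw [indicator_of_mem (show ξ ∈ ({0}ᶜ : Set E) from h), mul_assoc,
      ← ENNReal.ofReal_mul (by positivity)]
    congr 2
    have hn : 0 < ‖ξ‖ := norm_pos_iff.2 h
    rw [real_inner_smul_right, abs_mul, abs_of_pos (inv_pos.2 hn),
      Real.mul_rpow (inv_nonneg.2 hn.le) (abs_nonneg _), ← mul_assoc, Real.inv_rpow hn.le,
      mul_inv_cancel₀ (Real.rpow_pos_of_pos hn q).ne', one_mul]

lemma rpow_sum_le {ι : Type*} (s : Finset ι) (a : ι → ℝ) (ha : ∀ i, 0 ≤ a i) {q : ℝ} (hq : 0 < q)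
    (hq1 : q ≤ 1) : (∑ i ∈ s, a i) ^ q ≤ ∑ i ∈ s, a i ^ q := by
  classical
  induction s using Finset.induction_on with
  | empty => simp [Real.zero_rpow hq.ne']
  | insert i s hi ih =>
    rw [Finset.sum_insert hi, Finset.sum_insert hi]
    exact (Real.rpow_add_le_add_rpow (ha i) (Finset.sum_nonneg fun j _ => ha j) hq.le hq1).trans
      (add_le_add le_rfl ih)

omit [MeasurableSpace E] [BorelSpace E] in
lemma norm_rpow_le {q : ℝ} (hq : 0 < q) (hq1 : q ≤ 1) (ξ : E) :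
    ‖ξ‖ ^ q ≤ ∑ i, |⟪stdOrthonormalBasis ℝ E i, ξ⟫| ^ q := by
  have h1 : ‖ξ‖ ≤ ∑ i, |⟪stdOrthonormalBasis ℝ E i, ξ⟫| := by
    conv_lhs => rw [← (stdOrthonormalBasis ℝ E).sum_repr' ξ]
    refine (norm_sum_le _ _).trans (Finset.sum_le_sum fun i _ => ?_)
    rw [norm_smul, (stdOrthonormalBasis ℝ E).norm_eq_one, mul_one, Real.norm_eq_abs]
  exact (Real.rpow_le_rpow (norm_nonneg _) h1 hq.le).trans
    (rpow_sum_le _ _ (fun i => abs_nonneg _) hq hq1)

lemma muS_finite {G : E → ℝ≥0∞} (hG : Measurable G) {q : ℝ} (hq : 0 < q) (hq1 : q ≤ 1)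
    (hfin : ∀ x : E, x ≠ 0 → ∫⁻ ξ, G ξ * ENNReal.ofReal (|⟪x, ξ⟫| ^ q) < ∞) :
    IsFiniteMeasure (muS G q) := by
  refine ⟨?_⟩
  have h1 := lintegral_muS hG (q := q) (f := fun _ => 1) measurable_const
  rw [lintegral_one] at h1
  rw [h1]
  have h2 : ∫⁻ ξ in ({0}ᶜ : Set E), (G ξ * ENNReal.ofReal (‖ξ‖ ^ q)) * 1 ≤
      ∫⁻ ξ, ∑ i, G ξ * ENNReal.ofReal (|⟪stdOrthonormalBasis ℝ E i, ξ⟫| ^ q) := by
    refine (setLIntegral_le_lintegral _ _).trans (lintegral_mono fun ξ => ?_)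
    rw [mul_one, ← Finset.mul_sum, ← ENNReal.ofReal_sum_of_nonneg fun i _ => by positivity]
    exact mul_le_mul_right (ENNReal.ofReal_le_ofReal (norm_rpow_le hq hq1 ξ)) _
  refine h2.trans_lt ?_
  rw [lintegral_finsetSum]
  · refine ENNReal.sum_lt_top.2 fun i _ => hfin _ ?_
    exact (stdOrthonormalBasis ℝ E).orthonormal.ne_zero i
  · intro i _
    refine hG.mul ?_
    have h3 : Measurable fun ξ : E => |⟪stdOrthonormalBasis ℝ E i, ξ⟫| := by
      have : Continuous fun ξ : E => |⟪stdOrthonormalBasis ℝ E i, ξ⟫| := by fun_prop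
      exact this.measurable
    exact (h3.pow_const q).ennreal_ofReal

/-- The representation of the mean of `ρ_{K-y}(x)^{-q}`. -/
lemma exists_measure {K : Set E} (hK : IsCompact K) (hc : Convex ℝ K) (hi : (interior K).Nonempty)
    {q : ℝ} (hq : 0 < q) (hq1 : q < 1) :
    ∃ μ : Measure (sphere (0:E) 1), IsFiniteMeasure μ ∧ ∀ x : E, x ≠ 0 →
      (volume K)⁻¹ * ∫⁻ y in K, ENNReal.ofReal (rad K y x ^ (-q)) =
        ∫⁻ u : sphere (0:E) 1, ENNReal.ofReal (|⟪x, (u : E)⟫| ^ q) ∂μ := by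
  set G0 : E → ℝ≥0∞ := fun ξ => ‖FK K hK.measurableSet hK.measure_lt_top.ne ξ‖ₑ ^ 2 with hG0
  have hG0m : Measurable G0 := (Lp.stronglyMeasurable _).measurable.enorm.pow_const 2
  set G : E → ℝ≥0∞ := fun ξ => (2 * volume K)⁻¹ * J q 1 * G0 ξ with hG
  have hGm : Measurable G := hG0m.const_mul _
  have hvol : volume K ≠ 0 := by
    have : 0 < volume (interior K) := isOpen_interior.measure_pos _ hi
    exact (this.trans_le (measure_mono interior_subset)).ne'
  have hvol' : volume K ≠ ∞ := hK.measure_lt_top.ne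
  have key : ∀ x : E, x ≠ 0 → (volume K)⁻¹ * ∫⁻ y in K, ENNReal.ofReal (rad K y x ^ (-q)) =
      ∫⁻ ξ, G ξ * ENNReal.ofReal (|⟪x, ξ⟫| ^ q) := by
    intro x hx
    have h1 := main_identity hK hc hq hx
    have hmeas : Measurable fun ξ : E => ENNReal.ofReal (|⟪x, ξ⟫| ^ q) := by
      have h1 : Measurable fun ξ : E => |⟪x, ξ⟫| := by
        have : Continuous fun ξ : E => |⟪x, ξ⟫| := by fun_prop
        exact this.measurable
      exact (h1.pow_const q).ennreal_ofReal
    have h2 : ∫⁻ ξ, G ξ * ENNReal.ofReal (|⟪x, ξ⟫| ^ q) = (2 * volume K)⁻¹ *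
        ∫⁻ ξ, G0 ξ * (ENNReal.ofReal (|⟪x, ξ⟫| ^ q) * J q 1) := by
      have hm2 : Measurable (fun ξ => G0 ξ * (ENNReal.ofReal (|⟪x, ξ⟫| ^ q) * J q 1)) :=
        hG0m.mul (hmeas.mul_const _)
      rw [← lintegral_const_mul _ hm2]
      refine lintegral_congr fun ξ => ?_
      rw [hG]; ring
    rw [h2, ← h1, ← mul_assoc]
    congr 1
    rw [ENNReal.mul_inv (Or.inl two_ne_zero) (Or.inl ENNReal.ofNat_ne_top), mul_comm 2⁻¹, mul_assoc,
      ENNReal.inv_mul_cancel two_ne_zero ENNReal.ofNat_ne_top, mul_one]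
  refine ⟨muS G q, muS_finite hGm hq hq1.le fun x hx => ?_, fun x hx => ?_⟩
  · rw [← key x hx]
    exact ENNReal.mul_lt_top (ENNReal.inv_lt_top.2 (pos_iff_ne_zero.2 hvol))
      (lintegral_rad_lt_top hK hc hi hq hq1 hx)
  · rw [key x hx, lintegral_muS_inner hGm hq]

end Pool.Agent.V11101.RM
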