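import Pool.Agent.V11101.RM3

/-!
# Radial mean bodies of order in (-1,0) embed in `L^q`
-/

open Set MeasureTheory Filter Topology Metric FourierTransform
open scoped ENNReal NNReal RealInnerProductSpace Pointwise

namespace Pool.Agent.V11101.RM

section Defs

variable {E : Type*} [NormedAddCommGroup E] [InnerProductSpace ℝ E]

/-- The radial function `ρ_M(x) = sup {t ≥ 0 : t x ∈ M}`. -/
noncomputable def radial (M : Set E) (x : E) : ℝ := sSup {t : ℝ | 0 ≤ t ∧ t • x ∈ M}

/-- Convex bodies: compact convex sets with nonempty interior. -/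
def IsConvexBody (K : Set E) : Prop := IsCompact K ∧ Convex ℝ K ∧ (interior K).Nonempty

/-- Star bodies: compact sets, star-shaped about `0`, whose radial function is positive and
continuous on the unit sphere. -/
def IsStarBody (M : Set E) : Prop :=
  IsCompact M ∧ StarConvex ℝ 0 M ∧ (∀ u ∈ sphere (0:E) 1, 0 < radial M u) ∧
    ContinuousOn (radial M) (sphere (0:E) 1)

variable [MeasurableSpace E] [BorelSpace E] [FiniteDimensional ℝ E]

/-- The `p`-th mean of the radial functions of `K - x`, `x ∈ K`. -/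
noncomputable def meanRadial (K : Set E) (p : ℝ) (u : E) : ℝ :=
  (1 / (volume K).toReal * ∫ x in K, radial ((fun y => y - x) '' K) u ^ p) ^ (1 / p)

/-- `M` is the radial `p`-th mean body `R_p K`. -/
def IsRadialMeanBody (K M : Set E) (p : ℝ) : Prop :=
  IsStarBody M ∧ ∀ u ∈ sphere (0:E) 1, radial M u = meanRadial K p u

/-- `M` embeds in `L^q`: the Lévy representation of `ρ_M^{-q}`. -/
def EmbedsLq (M : Set E) (q : ℝ) : Prop :=
  ∃ μ : Measure (sphere (0:E) 1), IsFiniteMeasure μ ∧
    ∀ x : E, x ≠ 0 → radial M x ^ (-q) = ∫ u : sphere (0:E) 1, |⟪x, (u:E)⟫| ^ q ∂μ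

end Defs

variable {E : Type*} [NormedAddCommGroup E] [InnerProductSpace ℝ E] [FiniteDimensional ℝ E]
  [MeasurableSpace E] [BorelSpace E]

omit [FiniteDimensional ℝ E] [MeasurableSpace E] [BorelSpace E] in
lemma radial_sub (K : Set E) (x u : E) : radial ((fun y => y - x) '' K) u = rad K x u := by
  unfold radial rad
  congr 1
  ext t
  constructor
  · rintro ⟨h0, y, hy, he⟩
    refine ⟨h0, ?_⟩
    rw [← he]
    simpa using hy
  · rintro ⟨h0, h⟩
    exact ⟨h0, x + t • u, h, by simp⟩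

omit [FiniteDimensional ℝ E] [MeasurableSpace E] [BorelSpace E] in
lemma radial_smul (M : Set E) (x : E) {c : ℝ} (hc : 0 < c) : radial M (c • x) = c⁻¹ * radial M x := by
  unfold radial
  have e : {t : ℝ | 0 ≤ t ∧ t • c • x ∈ M} = c⁻¹ • {t : ℝ | 0 ≤ t ∧ t • x ∈ M} := by
    ext t
    rw [mem_smul_set]
    constructor
    · rintro ⟨h0, h⟩
      refine ⟨c * t, ⟨by positivity, ?_⟩, ?_⟩
      · rw [smul_smul] at h; rwa [mul_comm] at h
      · rw [smul_eq_mul, inv_mul_cancel_left₀ hc.ne']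
    · rintro ⟨s, ⟨h0, h⟩, rfl⟩
      refine ⟨by rw [smul_eq_mul]; positivity, ?_⟩
      rw [smul_smul, smul_eq_mul, mul_comm c⁻¹ s, inv_mul_cancel_right₀ hc.ne']
      exact h
  rw [e, Real.sSup_smul_of_nonneg (inv_nonneg.2 hc.le), smul_eq_mul]

lemma aemeasurable_rad {K : Set E} (hK : IsCompact K) (hc : Convex ℝ K) {u : E} (hu : u ≠ 0) :
    AEMeasurable (fun y => rad K y u) (volume.restrict K) := by
  classical
  refine ⟨K.indicator (fun y => rad K y u), ?_, ?_⟩
  · refine measurable_of_Ici fun r => ?_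
    rcases le_or_gt r 0 with hr | hr
    · have : (K.indicator (fun y => rad K y u)) ⁻¹' Ici r = univ := by
        ext y
        simp only [mem_preimage, mem_Ici, mem_univ, iff_true]
        exact hr.trans (indicator_nonneg (fun y _ => rad_nonneg K y u) y)
      rw [this]; exact MeasurableSet.univ
    · have : (K.indicator (fun y => rad K y u)) ⁻¹' Ici r = K ∩ {y | y + r • u ∈ K} := by
        ext y
        simp only [mem_preimage, mem_Ici, mem_inter_iff, mem_ofPred_eq]
        by_cases hy : y ∈ K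
        · rw [indicator_of_mem hy, mem_iff_le_rad hK hc hy hu hr.le]
          simp [hy]
        · rw [indicator_of_notMem hy]
          simp only [hy, false_and, iff_false, not_le]
          exact hr
      rw [this]
      exact (hK.isClosed.inter (hK.isClosed.preimage (by fun_prop))).measurableSet
  · rw [EventuallyEq, ae_restrict_iff' hK.measurableSet]
    refine Eventually.of_forall fun y hy => ?_
    show rad K y u = K.indicator (fun y => rad K y u) y
    rw [indicator_of_mem hy]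

/-- The integral `∫ |⟨x,u⟩|^q dμ(u)`. -/
noncomputable def Nn (μ : Measure (sphere (0:E) 1)) (q : ℝ) (x : E) : ℝ :=
  ∫ u : sphere (0:E) 1, |⟪x, (u:E)⟫| ^ q ∂μ

lemma measurable_inner_rpow (q : ℝ) (x : E) :
    Measurable fun u : sphere (0:E) 1 => |⟪x, (u:E)⟫| ^ q := by
  have : Continuous fun u : sphere (0:E) 1 => |⟪x, (u:E)⟫| := by fun_prop
  exact this.measurable.pow_const q

lemma inner_rpow_le {q : ℝ} (hq : 0 < q) (x : E) (u : sphere (0:E) 1) :
    |⟪x, (u:E)⟫| ^ q ≤ ‖x‖ ^ q := by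
  have h1 : |⟪x, (u:E)⟫| ≤ ‖x‖ := by
    have := abs_real_inner_le_norm x (u:E)
    rwa [mem_sphere_zero_iff_norm.1 u.2, mul_one] at this
  exact Real.rpow_le_rpow (abs_nonneg _) h1 hq.le

section

variable {μ : Measure (sphere (0:E) 1)} [IsFiniteMeasure μ] {q : ℝ}

lemma integrable_inner_rpow (hq : 0 < q) (x : E) :
    Integrable (fun u : sphere (0:E) 1 => |⟪x, (u:E)⟫| ^ q) μ := by
  refine Integrable.of_bound (measurable_inner_rpow q x).aestronglyMeasurable (‖x‖ ^ q) ?_
  refine Eventually.of_forall fun u => ?_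
  rw [Real.norm_of_nonneg (by positivity)]
  exact inner_rpow_le hq x u

omit [IsFiniteMeasure μ] in
lemma Nn_eq (x : E) :
    Nn μ q x = (∫⁻ u : sphere (0:E) 1, ENNReal.ofReal (|⟪x, (u : E)⟫| ^ q) ∂μ).toReal := by
  unfold Nn
  rw [integral_eq_lintegral_of_nonneg_ae (Eventually.of_forall fun u => by positivity)
    (measurable_inner_rpow q x).aestronglyMeasurable]

omit [IsFiniteMeasure μ] in
lemma Nn_nonneg (x : E) : 0 ≤ Nn μ q x := integral_nonneg fun u => by positivity

omit [IsFiniteMeasure μ] in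
lemma Nn_smul (x : E) {c : ℝ} (hc : 0 ≤ c) : Nn μ q (c • x) = c ^ q * Nn μ q x := by
  unfold Nn
  rw [← integral_const_mul]
  congr 1
  ext u
  rw [real_inner_smul_left, abs_mul, abs_of_nonneg hc, Real.mul_rpow hc (abs_nonneg _)]

lemma continuous_Nn (hq : 0 < q) : Continuous (Nn μ q) := by
  rw [continuous_iff_continuousAt]
  intro x₀
  unfold Nn
  refine continuousAt_of_dominated (bound := fun _ => (‖x₀‖ + 1) ^ q)
    (Eventually.of_forall fun x => (measurable_inner_rpow q x).aestronglyMeasurable) ?_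
    (integrable_const _) ?_
  · filter_upwards [ball_mem_nhds x₀ one_pos] with x hx
    refine Eventually.of_forall fun u => ?_
    rw [Real.norm_of_nonneg (by positivity)]
    refine (inner_rpow_le hq x u).trans (Real.rpow_le_rpow (norm_nonneg _) ?_ hq.le)
    rw [mem_ball, dist_eq_norm] at hx
    have := norm_le_insert' x x₀
    linarith
  · refine Eventually.of_forall fun u => ?_
    have h1 : Continuous fun x : E => |⟪x, (u:E)⟫| := by fun_prop
    exact h1.continuousAt.rpow_const (Or.inr hq.le)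

end

/-- Data: a measure representing the mean. -/
lemma exists_rep {K : Set E} (hK : IsConvexBody K) {q : ℝ} (hq : 0 < q) (hq1 : q < 1) :
    ∃ μ : Measure (sphere (0:E) 1), IsFiniteMeasure μ ∧ ∀ x : E, x ≠ 0 →
      0 < Nn μ q x ∧ meanRadial K (-q) x = Nn μ q x ^ (1 / (-q)) := by
  obtain ⟨hKc, hc, hi⟩ := hK
  obtain ⟨μ, hμ, hrep⟩ := exists_measure hKc hc hi hq hq1
  refine ⟨μ, hμ, fun x hx => ?_⟩
  have hrad := aemeasurable_rad hKc hc hx
  have hvol : 0 < volume (interior K) := isOpen_interior.measure_pos _ hi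
  have hvol1 : volume K ≠ 0 := (hvol.trans_le (measure_mono interior_subset)).ne'
  have hvol2 : volume K ≠ ∞ := hKc.measure_lt_top.ne
  have e1 : Nn μ q x = 1 / (volume K).toReal * ∫ y in K, rad K y x ^ (-q) := by
    rw [Nn_eq, ← hrep x hx, ENNReal.toReal_mul, ENNReal.toReal_inv,
      integral_eq_lintegral_of_nonneg_ae, one_div]
    · exact Eventually.of_forall fun y => Real.rpow_nonneg (rad_nonneg K y x) _
    · exact (hrad.pow_const _).aestronglyMeasurable
  have e2 : meanRadial K (-q) x = Nn μ q x ^ (1 / (-q)) := by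
    unfold meanRadial
    rw [e1]
    simp_rw [radial_sub]
  refine ⟨?_, e2⟩
  rw [Nn_eq, ← hrep x hx]
  refine ENNReal.toReal_pos ?_ ?_
  · refine mul_ne_zero (ENNReal.inv_ne_zero.2 hvol2) ?_
    intro h0
    have hm : AEMeasurable (fun y => ENNReal.ofReal (rad K y x ^ (-q))) (volume.restrict K) :=
      (hrad.pow_const _).ennreal_ofReal
    rw [lintegral_eq_zero_iff' hm] at h0
    have h1 : ∀ᵐ y ∂(volume.restrict K), y ∉ interior K := by
      filter_upwards [h0] with y hy hyi
      have hy' : ENNReal.ofReal (rad K y x ^ (-q)) = 0 := hy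
      rw [ENNReal.ofReal_eq_zero] at hy'
      have := Real.rpow_pos_of_pos (rad_pos hKc hyi hx) (-q)
      linarith
    have h2 : volume.restrict K (interior K) = 0 := measure_eq_zero_iff_ae_notMem.2 h1
    rw [Measure.restrict_apply isOpen_interior.measurableSet,
      inter_eq_left.2 interior_subset] at h2
    exact hvol.ne' h2
  · exact (ENNReal.mul_lt_top (ENNReal.inv_lt_top.2 (pos_iff_ne_zero.2 hvol1))
      (lintegral_rad_lt_top hKc hc hi hq hq1 hx)).ne

/-- The radial function of a radial mean body. -/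
lemma radial_rpow_eq {K M : Set E} {q : ℝ} (hq : 0 < q)
    (hM : IsRadialMeanBody K M (-q)) {μ : Measure (sphere (0:E) 1)}
    (hμ : ∀ x : E, x ≠ 0 → 0 < Nn μ q x ∧ meanRadial K (-q) x = Nn μ q x ^ (1 / (-q)))
    {x : E} (hx : x ≠ 0) : radial M x ^ (-q) = Nn μ q x := by
  have hn : 0 < ‖x‖ := norm_pos_iff.2 hx
  set v : E := ‖x‖⁻¹ • x with hv
  have hv1 : v ∈ sphere (0:E) 1 := by
    rw [mem_sphere_zero_iff_norm, hv, norm_smul, norm_inv, norm_norm, inv_mul_cancel₀ hn.ne']
  have hv0 : v ≠ 0 := by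
    intro h
    rw [h, mem_sphere_zero_iff_norm, norm_zero] at hv1
    norm_num at hv1
  have hxv : x = ‖x‖ • v := by rw [hv, smul_smul, mul_inv_cancel₀ hn.ne', one_smul]
  have h1 : radial M x = ‖x‖⁻¹ * radial M v := by
    conv_lhs => rw [hxv]
    rw [radial_smul M v hn]
  have h2 := hM.2 v hv1
  obtain ⟨h3, h4⟩ := hμ v hv0
  have h5 : radial M v ^ (-q) = Nn μ q v := by
    rw [h2, h4, ← Real.rpow_mul h3.le, one_div, inv_mul_cancel₀ (neg_ne_zero.2 hq.ne'),
      Real.rpow_one]
  have h6 : 0 ≤ radial M v := (hM.1.2.2.1 v hv1).le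
  rw [h1, Real.mul_rpow (inv_nonneg.2 hn.le) h6, h5]
  conv_rhs => rw [hxv, Nn_smul v hn.le]
  rw [Real.inv_rpow hn.le, Real.rpow_neg hn.le, inv_inv]

/-- Radial mean bodies of order in `(-1,0)` embed in `L^q`. -/
theorem embeds {K M : Set E} (hK : IsConvexBody K) {p : ℝ} (hp : -1 < p) (hp0 : p < 0)
    (hM : IsRadialMeanBody K M p) : EmbedsLq M (-p) := by
  obtain ⟨q, rfl⟩ : ∃ q, p = -q := ⟨-p, by ring⟩
  rw [neg_neg]
  obtain ⟨μ, hμ, h⟩ := exists_rep hK (q := q) (by linarith) (by linarith)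
  exact ⟨μ, hμ, fun x hx => radial_rpow_eq (by linarith) hM h hx⟩

/-- Radial mean bodies of order in `(-1,0)` exist. -/
theorem exists_radialMeanBody [Nontrivial E] {K : Set E} (hK : IsConvexBody K) {p : ℝ}
    (hp : -1 < p) (hp0 : p < 0) : ∃ M : Set E, IsRadialMeanBody K M p := by
  obtain ⟨q, rfl⟩ : ∃ q, p = -q := ⟨-p, by ring⟩
  have hq : 0 < q := by linarith
  obtain ⟨μ, hμ, h⟩ := exists_rep hK hq (by linarith)
  have hcont := continuous_Nn (μ := μ) hq
  set M : Set E := {x | Nn μ q x ≤ 1} with hMdef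
  have hrad : ∀ x : E, x ≠ 0 → radial M x = Nn μ q x ^ (1 / (-q)) := by
    intro x hx
    have hpos := (h x hx).1
    have e : {t : ℝ | 0 ≤ t ∧ t • x ∈ M} = Icc 0 (Nn μ q x ^ (1 / (-q))) := by
      ext t
      constructor
      · rintro ⟨h0, h1⟩
        refine ⟨h0, ?_⟩
        have h2 : Nn μ q (t • x) ≤ 1 := h1
        rw [Nn_smul x h0] at h2
        have h3 : t ^ q ≤ (Nn μ q x ^ (1 / (-q))) ^ q := by
          rw [← Real.rpow_mul hpos.le]
          have : 1 / (-q) * q = -1 := by field_simp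
          rw [this, Real.rpow_neg_one, ← one_div, le_div_iff₀ hpos]
          exact h2
        exact (Real.rpow_le_rpow_iff h0 (Real.rpow_nonneg hpos.le _) hq).1 h3
      · rintro ⟨h0, h1⟩
        refine ⟨h0, ?_⟩
        show Nn μ q (t • x) ≤ 1
        rw [Nn_smul x h0]
        have h3 : t ^ q ≤ (Nn μ q x ^ (1 / (-q))) ^ q := Real.rpow_le_rpow h0 h1 hq.le
        rw [← Real.rpow_mul hpos.le] at h3
        have : 1 / (-q) * q = -1 := by field_simp
        rw [this, Real.rpow_neg_one, ← one_div, le_div_iff₀ hpos] at h3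
        exact h3
    unfold radial
    rw [e, csSup_Icc (Real.rpow_nonneg hpos.le _)]
  have hne : ∀ u ∈ sphere (0:E) 1, u ≠ 0 := by
    rintro u hu rfl
    rw [mem_sphere_zero_iff_norm, norm_zero] at hu
    norm_num at hu
  refine ⟨M, ⟨?_, ?_, ?_, ?_⟩, ?_⟩
  · -- compact
    obtain ⟨u₀, hu₀, hmin⟩ := (isCompact_sphere (0:E) 1).exists_isMinOn
      (NormedSpace.sphere_nonempty.2 zero_le_one) hcont.continuousOn
    have hc0 : 0 < Nn μ q u₀ := (h u₀ (hne u₀ hu₀)).1
    refine Metric.isCompact_of_isClosed_isBounded (isClosed_le hcont continuous_const) ?_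
    refine (Metric.isBounded_closedBall (x := (0:E)) (r := (Nn μ q u₀)⁻¹ ^ (1 / q))).subset ?_
    intro x hx
    rw [mem_closedBall_zero_iff]
    have hx1 : Nn μ q x ≤ 1 := hx
    rcases eq_or_ne x 0 with rfl | hx0
    · rw [norm_zero]; positivity
    · have hn : 0 < ‖x‖ := norm_pos_iff.2 hx0
      have hv1 : ‖x‖⁻¹ • x ∈ sphere (0:E) 1 := by
        rw [mem_sphere_zero_iff_norm, norm_smul, norm_inv, norm_norm, inv_mul_cancel₀ hn.ne']
      have h1 : Nn μ q u₀ ≤ Nn μ q (‖x‖⁻¹ • x) := hmin hv1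
      have h2 : Nn μ q x = ‖x‖ ^ q * Nn μ q (‖x‖⁻¹ • x) := by
        rw [← Nn_smul _ hn.le, smul_smul, mul_inv_cancel₀ hn.ne', one_smul]
      have h3 : ‖x‖ ^ q * Nn μ q u₀ ≤ 1 := by
        rw [h2] at hx1
        have := mul_le_mul_of_nonneg_left h1 (Real.rpow_nonneg hn.le q)
        linarith
      have h4 : ‖x‖ ^ q ≤ (Nn μ q u₀)⁻¹ := by
        rw [← one_div, le_div_iff₀ hc0]; exact h3
      have h5 := Real.rpow_le_rpow (by positivity) h4 (show 0 ≤ 1 / q by positivity)
      rw [← Real.rpow_mul hn.le, mul_one_div_cancel hq.ne', Real.rpow_one] at h5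
      exact h5
  · -- star-shaped
    intro x hx a b ha hb hab
    rw [smul_zero, zero_add]
    show Nn μ q (b • x) ≤ 1
    have hx1 : Nn μ q x ≤ 1 := hx
    rw [Nn_smul x hb]
    have h1 : b ^ q ≤ 1 := Real.rpow_le_one hb (by linarith) hq.le
    have h2 := Nn_nonneg (μ := μ) (q := q) x
    have h3 : 0 ≤ b ^ q := Real.rpow_nonneg hb q
    nlinarith
  · intro u hu
    rw [hrad u (hne u hu)]
    exact Real.rpow_pos_of_pos (h u (hne u hu)).1 _
  · have h1 : ContinuousOn (fun x => Nn μ q x ^ (1 / (-q))) (sphere (0:E) 1) :=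
      hcont.continuousOn.rpow_const fun u hu => Or.inl (h u (hne u hu)).1.ne'
    exact h1.congr fun u hu => hrad u (hne u hu)
  · intro u hu
    rw [hrad u (hne u hu), (h u (hne u hu)).2]

end Pool.Agent.V11101.RM
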