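import Mathlib

/-!
# An R-tree over a sequence space: the metric space
-/

open Set Filter Topology

namespace Pool.Agent.V11101.RT

/-- The children of a node of level `n`: `n + 1` pairs. -/
abbrev A (n : ℕ) : Type := Fin (n + 1) × Bool

/-- Sequences. -/
abbrev X : Type := ∀ n, A n

/-- Number of nodes of level `n`. -/
def N : ℕ → ℕ
  | 0 => 1
  | (n+1) => N n * (2 * (n + 1))

lemma N_pos (n : ℕ) : 0 < N n := by
  induction n with
  | zero => exact one_pos
  | succ n ih => exact Nat.mul_pos ih (by omega)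

/-- Height of the nodes of level `n`. -/
noncomputable def r (n : ℕ) : ℝ := 1 / (N n : ℝ)

lemma r_pos (n : ℕ) : 0 < r n := by
  unfold r; have := N_pos n; positivity

lemma r_zero : r 0 = 1 := by simp [r, N]

lemma r_succ (n : ℕ) : r (n + 1) = r n / (2 * (n + 1)) := by
  unfold r
  have h1 : (N (n + 1) : ℝ) = N n * (2 * (n + 1)) := by
    show ((N n * (2 * (n + 1)) : ℕ) : ℝ) = _
    push_cast; ring
  rw [h1, div_div]

lemma r_succ_le_half (n : ℕ) : r (n + 1) ≤ r n / 2 := by
  rw [r_succ]
  have h := r_pos n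
  have h2 : (0:ℝ) ≤ n := Nat.cast_nonneg n
  apply div_le_div_of_nonneg_left h.le (by norm_num)
  linarith

lemma r_lt (n : ℕ) : r (n + 1) < r n := by
  have := r_succ_le_half n
  have := r_pos n
  linarith

lemma r_anti : StrictAnti r := strictAnti_nat_of_succ_lt r_lt

lemma r_le_one (n : ℕ) : r n ≤ 1 := by
  rw [← r_zero]; exact r_anti.antitone (Nat.zero_le n)

lemma r_le_geom (n : ℕ) : r n ≤ (1 / 2) ^ n := by
  induction n with
  | zero => simp [r_zero]
  | succ n ih =>
    have := r_succ_le_half n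
    rw [pow_succ]
    linarith

lemma r_tendsto : Tendsto r atTop (𝓝 0) :=
  squeeze_zero (fun n => (r_pos n).le) r_le_geom
    (tendsto_pow_atTop_nhds_zero_of_lt_one (by norm_num) (by norm_num))

open Classical in
/-- The height at which two branches meet. -/
noncomputable def u (x y : X) : ℝ := if x = y then 0 else r (PiNat.firstDiff x y)

lemma u_self (x : X) : u x x = 0 := by simp [u]

lemma u_comm (x y : X) : u x y = u y x := by
  by_cases h : x = y
  · rw [h]
  · have h' : ¬ y = x := fun e => h e.symm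
    unfold u
    rw [if_neg h, if_neg h', PiNat.firstDiff_comm]

lemma u_nonneg (x y : X) : 0 ≤ u x y := by
  unfold u; split_ifs
  · exact le_rfl
  · exact (r_pos _).le

lemma u_le_one (x y : X) : u x y ≤ 1 := by
  unfold u; split_ifs
  · exact zero_le_one
  · exact r_le_one _

lemma u_le_of {x y : X} {n : ℕ} (h : ∀ i < n, x i = y i) : u x y ≤ r n := by
  unfold u; split_ifs with hxy
  · exact (r_pos n).le
  · apply r_anti.antitone
    by_contra hlt
    push Not at hlt
    exact PiNat.apply_firstDiff_ne hxy (h _ hlt)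

lemma le_u_of {x y : X} {n : ℕ} (h : x n ≠ y n) : r n ≤ u x y := by
  have hxy : x ≠ y := fun e => h (by rw [e])
  unfold u
  rw [if_neg hxy]
  apply r_anti.antitone
  by_contra hlt
  push Not at hlt
  exact h (PiNat.apply_eq_of_lt_firstDiff hlt)

lemma u_ultra (x y z : X) : u x z ≤ max (u x y) (u y z) := by
  by_cases hxz : x = z
  · subst hxz; rw [u_self]; exact le_max_of_le_left (u_nonneg _ _)
  by_cases hxy : x = y
  · subst hxy; exact le_max_right _ _
  by_cases hyz : y = z
  · subst hyz; exact le_max_left _ _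
  have h := PiNat.min_firstDiff_le x y z hxz
  unfold u
  rw [if_neg hxz, if_neg hxy, if_neg hyz]
  rcases min_le_iff.1 h with h | h
  · exact le_max_of_le_left (r_anti.antitone h)
  · exact le_max_of_le_right (r_anti.antitone h)

/-- Pairs (branch, height). -/
structure Pt where
  /-- the branch -/
  x : X
  /-- the height -/
  t : ℝ
  h0 : 0 ≤ t
  h1 : t ≤ 1

/-- Height of the meeting point. -/
noncomputable def Pt.W (p q : Pt) : ℝ := max (max p.t q.t) (u p.x q.x)

lemma Pt.W_comm (p q : Pt) : p.W q = q.W p := by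
  unfold Pt.W; rw [max_comm p.t, u_comm]

lemma Pt.W_ultra (p q s : Pt) : p.W s ≤ max (p.W q) (q.W s) := by
  have a1 : p.t ≤ p.W q := le_max_of_le_left (le_max_left _ _)
  have a2 : s.t ≤ q.W s := le_max_of_le_left (le_max_right _ _)
  have a3 : u p.x s.x ≤ max (p.W q) (q.W s) := by
    rcases le_max_iff.1 (u_ultra p.x q.x s.x) with h | h
    · exact le_max_of_le_left (h.trans (le_max_right _ _))
    · exact le_max_of_le_right (h.trans (le_max_right _ _))
  exact max_le (max_le (le_max_of_le_left a1) (le_max_of_le_right a2)) a3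

noncomputable instance : PseudoMetricSpace Pt where
  dist p q := 2 * p.W q - p.t - q.t
  dist_self p := by
    show 2 * max (max p.t p.t) (u p.x p.x) - p.t - p.t = 0
    rw [u_self, max_self, max_eq_left p.h0]; ring
  dist_comm p q := by
    show 2 * p.W q - p.t - q.t = 2 * q.W p - q.t - p.t
    rw [Pt.W_comm]; ring
  dist_triangle p q s := by
    show 2 * p.W s - p.t - s.t ≤ (2 * p.W q - p.t - q.t) + (2 * q.W s - q.t - s.t)
    have h1 : q.t ≤ p.W q := le_max_of_le_left (le_max_right _ _)
    have h2 : q.t ≤ q.W s := le_max_of_le_left (le_max_left _ _)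
    rcases le_max_iff.1 (Pt.W_ultra p q s) with h | h <;> linarith

lemma Pt.dist_eq (p q : Pt) : dist p q = 2 * p.W q - p.t - q.t := rfl

/-- The tree. -/
def T : Type := SeparationQuotient Pt

noncomputable instance : MetricSpace T := inferInstanceAs (MetricSpace (SeparationQuotient Pt))

/-- The point of height `t` on the branch `x`. -/
noncomputable def pt (x : X) (t : ℝ) : T :=
  SeparationQuotient.mk ⟨x, max 0 (min t 1), le_max_left _ _, max_le zero_le_one (min_le_right _ _)⟩

lemma dist_pt (x y : X) {s t : ℝ} (hs : s ∈ Icc (0:ℝ) 1) (ht : t ∈ Icc (0:ℝ) 1) :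
    dist (pt x s) (pt y t) = 2 * max (max s t) (u x y) - s - t := by
  have h1 : max 0 (min s 1) = s := by rw [min_eq_left hs.2, max_eq_right hs.1]
  have h2 : max 0 (min t 1) = t := by rw [min_eq_left ht.2, max_eq_right ht.1]
  have : dist (pt x s) (pt y t) = 2 * max (max (max 0 (min s 1)) (max 0 (min t 1))) (u x y)
      - (max 0 (min s 1)) - (max 0 (min t 1)) := rfl
  rw [this, h1, h2]

lemma exists_pt (p : T) : ∃ x : X, ∃ t ∈ Icc (0:ℝ) 1, p = pt x t := by
  obtain ⟨⟨x, t, h0, h1⟩, rfl⟩ := SeparationQuotient.surjective_mk p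
  refine ⟨x, t, ⟨h0, h1⟩, ?_⟩
  unfold pt
  congr 1
  have h2 : max 0 (min t 1) = t := by rw [min_eq_left h1, max_eq_right h0]
  simp [h2]

lemma pt_clamp (x : X) (t : ℝ) : pt x t = pt x (max 0 (min t 1)) := by
  have hm : max 0 (min t 1) ∈ Icc (0:ℝ) 1 := ⟨le_max_left _ _, max_le zero_le_one (min_le_right _ _)⟩
  unfold pt
  congr 2
  rw [min_eq_left hm.2, max_eq_right hm.1]

lemma pt_eq_of_le {x y : X} {t : ℝ} (ht : t ∈ Icc (0:ℝ) 1) (h : u x y ≤ t) : pt x t = pt y t := by
  rw [← dist_eq_zero, dist_pt x y ht ht, max_self, max_eq_left h]; ring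

lemma pt_one (x y : X) : pt x 1 = pt y 1 :=
  pt_eq_of_le ⟨zero_le_one, le_rfl⟩ (u_le_one _ _)

lemma dist_pt_same (x : X) {s t : ℝ} (hs : s ∈ Icc (0:ℝ) 1) (ht : t ∈ Icc (0:ℝ) 1) :
    dist (pt x s) (pt x t) = |s - t| := by
  rw [dist_pt x x hs ht, u_self]
  have h1 : max (max s t) 0 = max s t := max_eq_left (le_max_of_le_left hs.1)
  rw [h1]
  rcases le_total s t with h | h
  · rw [max_eq_right h, abs_of_nonpos (by linarith)]; ring
  · rw [max_eq_left h, abs_of_nonneg (by linarith)]; ring

lemma pt_lip (x : X) : LipschitzWith 1 (pt x) := by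
  refine LipschitzWith.of_dist_le_mul fun s t => ?_
  rw [pt_clamp x s, pt_clamp x t, NNReal.coe_one, one_mul]
  rw [dist_pt_same x ⟨le_max_left _ _, max_le zero_le_one (min_le_right _ _)⟩
    ⟨le_max_left _ _, max_le zero_le_one (min_le_right _ _)⟩, Real.dist_eq]
  have h1 : |max 0 (min s 1) - max 0 (min t 1)| ≤ |min s 1 - min t 1| := by
    have := abs_max_sub_max_le_max 0 (min s 1) 0 (min t 1)
    simpa using this
  have h2 : |min s 1 - min t 1| ≤ |s - t| := by
    have := abs_min_sub_min_le_max s 1 t 1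
    simpa using this
  exact h1.trans h2

/-- The base point: the top of the tree. -/
noncomputable def root : T := pt (fun _ => (0, false)) 1

lemma root_eq (x : X) : root = pt x 1 := pt_one _ _

end Pool.Agent.V11101.RT
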