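import Pool.Agent.V11101.RTA

/-!
# The tree is an R-tree
-/

open Set Filter Topology

namespace Pool.Agent.V11101.RT

/-- An R-tree: any two distinct points are joined by an arc isometric to an interval, and every
arc joining them has the same image. -/
def IsRTree (T : Type) [MetricSpace T] : Prop :=
  ∀ x y : T, x ≠ y → ∃ φ : ℝ → T, φ 0 = x ∧ φ (dist x y) = y ∧
    (∀ s ∈ Icc 0 (dist x y), ∀ t ∈ Icc 0 (dist x y), dist (φ s) (φ t) = |s - t|) ∧
    ∀ c : ℝ → T, ContinuousOn c (Icc 0 1) → InjOn c (Icc 0 1) → c 0 = x → c 1 = y →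
      c '' Icc 0 1 = φ '' Icc 0 (dist x y)

/-- Height of a point. -/
noncomputable def ht (p : T) : ℝ := 1 - dist p root

lemma ht_pt (x : X) {t : ℝ} (ht' : t ∈ Icc (0:ℝ) 1) : ht (pt x t) = t := by
  unfold ht
  rw [root_eq x, dist_pt_same x ht' ⟨zero_le_one, le_rfl⟩, abs_of_nonpos (by linarith [ht'.2])]
  ring

lemma ht_mem (p : T) : ht p ∈ Icc (0:ℝ) 1 := by
  obtain ⟨x, t, h, rfl⟩ := exists_pt p
  rwa [ht_pt x h]

/-- Height of the meeting point. -/
noncomputable def W (p q : T) : ℝ := (dist p q + ht p + ht q) / 2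

lemma W_pt (x y : X) {s t : ℝ} (hs : s ∈ Icc (0:ℝ) 1) (h : t ∈ Icc (0:ℝ) 1) :
    W (pt x s) (pt y t) = max (max s t) (u x y) := by
  unfold W
  rw [ht_pt x hs, ht_pt y h, dist_pt x y hs h]; ring

lemma W_comm (p q : T) : W p q = W q p := by
  unfold W; rw [dist_comm]; ring

lemma dist_eq_W (p q : T) : dist p q = 2 * W p q - ht p - ht q := by unfold W; ring

lemma ht_cont : Continuous ht := continuous_const.sub (continuous_id.dist continuous_const)

lemma W_cont (q : T) : Continuous fun p => W p q :=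
  ((((continuous_id.dist continuous_const).add ht_cont).add continuous_const).div_const 2)

lemma ht_le_W (p q : T) : ht p ≤ W p q := by
  obtain ⟨x, s, hs, rfl⟩ := exists_pt p
  obtain ⟨y, t, h, rfl⟩ := exists_pt q
  rw [W_pt x y hs h, ht_pt x hs]
  exact le_max_of_le_left (le_max_left _ _)

lemma ht_le_W' (p q : T) : ht q ≤ W p q := by rw [W_comm]; exact ht_le_W q p

lemma W_self (p : T) : W p p = ht p := by unfold W; rw [dist_self]; ring

lemma W_le_one (p q : T) : W p q ≤ 1 := by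
  obtain ⟨x, s, hs, rfl⟩ := exists_pt p
  obtain ⟨y, t, h, rfl⟩ := exists_pt q
  rw [W_pt x y hs h]
  exact max_le (max_le hs.2 h.2) (u_le_one _ _)

lemma W_ultra (p q s : T) : W p s ≤ max (W p q) (W q s) := by
  obtain ⟨x, a, ha, rfl⟩ := exists_pt p
  obtain ⟨y, b, hb, rfl⟩ := exists_pt q
  obtain ⟨z, c, hc, rfl⟩ := exists_pt s
  rw [W_pt x z ha hc, W_pt x y ha hb, W_pt y z hb hc]
  exact Pt.W_ultra ⟨x, a, ha.1, ha.2⟩ ⟨y, b, hb.1, hb.2⟩ ⟨z, c, hc.1, hc.2⟩

/-- A point above `pt x s` is on the branch of `x`. -/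
lemma eq_of_W_eq {x : X} {s : ℝ} (hs : s ∈ Icc (0:ℝ) 1) {v : T} (h : W (pt x s) v = ht v) :
    v = pt x (ht v) := by
  obtain ⟨z, a, ha, rfl⟩ := exists_pt v
  rw [ht_pt z ha] at h ⊢
  rw [W_pt x z hs ha] at h
  have : u x z ≤ a := by rw [← h]; exact le_max_right _ _
  exact (pt_eq_of_le ha this).symm

/-- The metric segment. -/
def G (p q : T) : Set T := {v | dist p v + dist v q = dist p q}

lemma mem_G_iff (p q v : T) : v ∈ G p q ↔ (W p v = ht v ∨ W q v = ht v) ∧ ht v ≤ W p q := by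
  unfold G
  rw [mem_setOf_eq, dist_eq_W p v, dist_eq_W v q, dist_eq_W p q]
  have e1 := ht_le_W' p v
  have e2 := ht_le_W' q v
  have e3 := W_comm v q
  have e5 := W_comm p v
  constructor
  · intro h
    have h' : W p v + W v q = W p q + ht v := by linarith
    rcases le_max_iff.1 (W_ultra p v q) with h1 | h1
    · have h2 : W q v = ht v := by rw [← e3]; rw [← e3] at e2; linarith
      refine ⟨Or.inr h2, ?_⟩
      have := h1; rw [e3, h2] at h'
      linarith
    · have h2 : W p v = ht v := by linarith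
      refine ⟨Or.inl h2, ?_⟩
      rw [h2] at h'
      have : W q v = W p q := by rw [← e3]; linarith
      linarith
  · rintro ⟨h1 | h1, h2⟩
    · have h3 : W v q ≤ W p q := by
        refine (W_ultra v p q).trans (max_le ?_ le_rfl)
        rw [W_comm, h1]; exact h2
      have h4 : W p q ≤ W v q := by
        refine (W_ultra p v q).trans (max_le ?_ le_rfl)
        rw [h1]; exact ht_le_W _ _
      rw [h1]; linarith
    · have h3 : W p v ≤ W p q := by
        refine (W_ultra p q v).trans (max_le le_rfl ?_)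
        rw [h1]; exact h2
      have h4 : W p q ≤ W p v := by
        refine (W_ultra p v q).trans (max_le le_rfl ?_)
        rw [e3, h1]; exact ht_le_W' _ _
      rw [e3, h1]; linarith

lemma G_comm (p q : T) : G p q = G q p := by
  ext v; unfold G; rw [mem_setOf_eq, mem_setOf_eq, dist_comm p q, dist_comm p v, dist_comm v q,
    add_comm]

/-- A path leaving `pt x s` and reaching a point meeting `x` above `τ` passes through `pt x τ`. -/
lemma cut {x : X} {s τ : ℝ} (hs : s ∈ Icc (0:ℝ) 1) (hsτ : s < τ)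
    {c : ℝ → T} {a b : ℝ} (hab : a ≤ b) (hc : ContinuousOn c (Icc a b)) (ha : c a = pt x s)
    (hb : τ ≤ W (c b) (pt x s)) : pt x τ ∈ c '' Icc a b := by
  have hτ1 : τ ≤ 1 := hb.trans (W_le_one _ _)
  set p := pt x s with hp
  have hψ : ContinuousOn (fun θ => W (c θ) p) (Icc a b) := (W_cont p).comp_continuousOn hc
  set B := Icc a b ∩ (fun θ => W (c θ) p) ⁻¹' Ici τ with hB
  have hBc : IsClosed B := hψ.preimage_isClosed_of_isClosed isClosed_Icc isClosed_Ici
  have hBk : IsCompact B := isCompact_Icc.of_isClosed_subset hBc inter_subset_left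
  obtain ⟨θ, hθ, hmin⟩ := hBk.exists_isLeast ⟨b, right_mem_Icc.2 hab, hb⟩
  have hWa : W (c a) p = s := by rw [ha, W_self, hp, ht_pt x hs]
  have haθ : a < θ := by
    rcases lt_or_eq_of_le hθ.1.1 with h | h
    · exact h
    · exfalso
      have h1 : τ ≤ W (c θ) p := hθ.2
      rw [← h, hWa] at h1
      linarith
  have hlt : ∀ η ∈ Ioo a θ, W (c η) p < τ := by
    intro η hη
    by_contra hge
    push Not at hge
    have : θ ≤ η := hmin ⟨⟨hη.1.le, hη.2.le.trans hθ.1.2⟩, hge⟩
    linarith [hη.2]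
  have hne : (𝓝[Ioo a θ] θ).NeBot := right_nhdsWithin_Ioo_neBot haθ
  have hsub : Ioo a θ ⊆ Icc a b := fun η hη => ⟨hη.1.le, hη.2.le.trans hθ.1.2⟩
  have hct : Tendsto c (𝓝[Ioo a θ] θ) (𝓝 (c θ)) := (hc θ hθ.1).mono hsub
  have h1 : W (c θ) p ≤ τ := by
    have ht' : Tendsto (fun η => W (c η) p) (𝓝[Ioo a θ] θ) (𝓝 (W (c θ) p)) :=
      ((W_cont p).tendsto _).comp hct
    exact le_of_tendsto ht' (eventually_nhdsWithin_of_forall fun η hη => (hlt η hη).le)
  have h2 : W (c θ) p = τ := le_antisymm h1 hθ.2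
  have h3 : τ ≤ ht (c θ) := by
    have ht' : Tendsto (fun η => W (c η) (c θ)) (𝓝[Ioo a θ] θ) (𝓝 (W (c θ) (c θ))) :=
      ((W_cont (c θ)).tendsto _).comp hct
    rw [W_self] at ht'
    refine ge_of_tendsto ht' (eventually_nhdsWithin_of_forall fun η hη => ?_)
    have h4 := W_ultra (c θ) (c η) p
    rw [h2] at h4
    rcases le_max_iff.1 h4 with h | h
    · rwa [W_comm]
    · exact absurd h (not_le.2 (hlt η hη))
  have h5 : ht (c θ) = τ := le_antisymm ((ht_le_W _ p).trans h1) h3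
  refine ⟨θ, hθ.1, ?_⟩
  have h6 : W (pt x s) (c θ) = ht (c θ) := by rw [W_comm, h5]; exact h2
  rw [eq_of_W_eq hs h6, h5]

lemma anc_mem {p v : T} {c : ℝ → T} {a b : ℝ} (hab : a ≤ b) (hc : ContinuousOn c (Icc a b))
    (ha : c a = p) (h1 : W p v = ht v) (h2 : ht v ≤ W p (c b)) : v ∈ c '' Icc a b := by
  obtain ⟨x, s, hs, rfl⟩ := exists_pt p
  have hv := eq_of_W_eq hs h1
  have hsv : s ≤ ht v := by rw [← h1]; have := ht_le_W (pt x s) v; rwa [ht_pt x hs] at this
  rcases hsv.lt_or_eq with h | h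
  · rw [hv]
    exact cut hs h hab hc ha (by rw [W_comm]; exact h2)
  · rw [hv, ← h]
    exact ⟨a, left_mem_Icc.2 hab, ha⟩

lemma G_subset {c : ℝ → T} {a b : ℝ} (hab : a ≤ b) (hc : ContinuousOn c (Icc a b)) :
    G (c a) (c b) ⊆ c '' Icc a b := by
  intro v hv
  rw [mem_G_iff] at hv
  rcases hv with ⟨h1 | h1, h2⟩
  · exact anc_mem hab hc rfl h1 h2
  · have hmaps : MapsTo (fun θ : ℝ => a + b - θ) (Icc a b) (Icc a b) :=
      fun θ hθ => ⟨by linarith [hθ.2], by linarith [hθ.1]⟩
    have hc' : ContinuousOn (fun θ => c (a + b - θ)) (Icc a b) :=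
      hc.comp (continuous_const.sub continuous_id).continuousOn hmaps
    have := anc_mem (p := c b) (v := v) (c := fun θ => c (a + b - θ)) hab hc'
      (by show c (a + b - a) = c b; congr 1; ring) h1
      (by show ht v ≤ W (c b) (c (a + b - b))
          rw [show a + b - b = a by ring, W_comm]; exact h2)
    obtain ⟨θ, hθ, rfl⟩ := this
    exact ⟨a + b - θ, hmaps hθ, rfl⟩

lemma exists_join (p q : T) : ∃ j : T, ht j = W p q ∧ W p j = W p q ∧ W q j = W p q := by
  obtain ⟨x, s, hs, rfl⟩ := exists_pt p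
  obtain ⟨y, t, h, rfl⟩ := exists_pt q
  have hw := W_pt x y hs h
  set w := max (max s t) (u x y) with hwdef
  have hw1 : w ∈ Icc (0:ℝ) 1 := by
    rw [← hw]
    exact ⟨(ht_mem (pt x s)).1.trans (ht_le_W _ _), W_le_one _ _⟩
  have hsw : s ≤ w := le_max_of_le_left (le_max_left _ _)
  have htw : t ≤ w := le_max_of_le_left (le_max_right _ _)
  have huw : u x y ≤ w := le_max_right _ _
  refine ⟨pt x w, ?_, ?_, ?_⟩
  · rw [ht_pt x hw1, hw]
  · rw [W_pt x x hs hw1, hw, u_self, max_eq_right hsw, max_eq_left hw1.1]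
  · rw [W_pt y x h hw1, hw, u_comm, max_eq_right htw, max_eq_left huw]

lemma exists_anc (v : T) {μ : ℝ} (h1 : ht v ≤ μ) (h2 : μ ≤ 1) :
    ∃ m : T, ht m = μ ∧ W v m = μ := by
  obtain ⟨z, a, ha, rfl⟩ := exists_pt v
  rw [ht_pt z ha] at h1
  have hμ : μ ∈ Icc (0:ℝ) 1 := ⟨ha.1.trans h1, h2⟩
  exact ⟨pt z μ, ht_pt z hμ, by rw [W_pt z z ha hμ, u_self, max_eq_right h1, max_eq_left hμ.1]⟩

lemma subset_G {c : ℝ → T} {a b : ℝ} (hc : ContinuousOn c (Icc a b))
    (hi : InjOn c (Icc a b)) : c '' Icc a b ⊆ G (c a) (c b) := by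
  rintro v ⟨θ, hθ, rfl⟩
  by_contra hv
  have key : ∃ m, m ≠ c θ ∧ m ∈ G (c a) (c θ) ∧ m ∈ G (c θ) (c b) := by
    rw [mem_G_iff] at hv
    by_cases h : W (c a) (c θ) = ht (c θ) ∨ W (c b) (c θ) = ht (c θ)
    · have hlt : W (c a) (c b) < ht (c θ) := by
        by_contra hge
        exact hv ⟨h, not_lt.1 hge⟩
      obtain ⟨j, hj1, hj2, hj3⟩ := exists_join (c a) (c b)
      refine ⟨j, ?_, ?_, ?_⟩
      · rintro rfl; linarith
      · rw [mem_G_iff]
        exact ⟨Or.inl (by rw [hj1, hj2]), by rw [hj1]; exact hlt.le.trans (ht_le_W' _ _)⟩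
      · rw [mem_G_iff]
        exact ⟨Or.inr (by rw [hj1, hj3]), by rw [hj1]; exact hlt.le.trans (ht_le_W _ _)⟩
    · push Not at h
      have h1 : ht (c θ) < W (c a) (c θ) := lt_of_le_of_ne (ht_le_W' _ _) (Ne.symm h.1)
      have h2 : ht (c θ) < W (c b) (c θ) := lt_of_le_of_ne (ht_le_W' _ _) (Ne.symm h.2)
      set μ := min (W (c a) (c θ)) (W (c b) (c θ)) with hμ
      have h3 : ht (c θ) < μ := lt_min h1 h2
      obtain ⟨m, hm1, hm2⟩ := exists_anc (c θ) h3.le ((min_le_left _ _).trans (W_le_one _ _))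
      refine ⟨m, ?_, ?_, ?_⟩
      · rintro rfl; linarith
      · rw [mem_G_iff]
        exact ⟨Or.inr (by rw [hm2, hm1]), by rw [hm1]; exact min_le_left _ _⟩
      · rw [mem_G_iff]
        exact ⟨Or.inl (by rw [hm2, hm1]), by rw [hm1, W_comm]; exact min_le_right _ _⟩
  obtain ⟨m, hne, hm1, hm2⟩ := key
  obtain ⟨θ1, hθ1, e1⟩ := G_subset hθ.1 (hc.mono (Icc_subset_Icc le_rfl hθ.2)) hm1
  obtain ⟨θ2, hθ2, e2⟩ := G_subset hθ.2 (hc.mono (Icc_subset_Icc hθ.1 le_rfl)) hm2
  have h12 : θ1 = θ2 := hi ⟨hθ1.1, hθ1.2.trans hθ.2⟩ ⟨hθ.1.trans hθ2.1, hθ2.2⟩ (e1.trans e2.symm)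
  have : θ1 = θ := le_antisymm hθ1.2 (by rw [h12]; exact hθ2.1)
  exact hne (by rw [← e1, this])

lemma exists_geod (p q : T) : ∃ φ : ℝ → T, φ 0 = p ∧ φ (dist p q) = q ∧
    ∀ s ∈ Icc 0 (dist p q), ∀ t ∈ Icc 0 (dist p q), dist (φ s) (φ t) = |s - t| := by
  obtain ⟨x, s, hs, rfl⟩ := exists_pt p
  obtain ⟨y, t, h, rfl⟩ := exists_pt q
  have hd := dist_pt x y hs h
  set w := max (max s t) (u x y) with hwdef
  set D := dist (pt x s) (pt y t) with hD
  have hw := W_pt x y hs h
  have hw1 : w ∈ Icc (0:ℝ) 1 := by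
    rw [hwdef, ← hw]
    exact ⟨(ht_mem (pt x s)).1.trans (ht_le_W _ _), W_le_one _ _⟩
  have hsw : s ≤ w := le_max_of_le_left (le_max_left _ _)
  have htw : t ≤ w := le_max_of_le_left (le_max_right _ _)
  have huw : u x y ≤ w := le_max_right _ _
  let φ : ℝ → T := fun τ => if τ ≤ w - s then pt x (s + τ) else pt y (t + (D - τ))
  have hiso : ∀ τ₁ ∈ Icc 0 D, ∀ τ₂ ∈ Icc 0 D, τ₁ ≤ τ₂ → dist (φ τ₁) (φ τ₂) = |τ₁ - τ₂| := by
    intro τ₁ h1 τ₂ h2 h12
    by_cases c2 : τ₂ ≤ w - s
    · have c1 : τ₁ ≤ w - s := h12.trans c2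
      have e1 : φ τ₁ = pt x (s + τ₁) := if_pos c1
      have e2 : φ τ₂ = pt x (s + τ₂) := if_pos c2
      rw [e1, e2, dist_pt_same x ⟨by linarith [hs.1, h1.1], by linarith [hw1.2]⟩
        ⟨by linarith [hs.1, h2.1], by linarith [hw1.2]⟩]
      congr 1; ring
    · have e2 : φ τ₂ = pt y (t + (D - τ₂)) := if_neg c2
      have m2 : t + (D - τ₂) ∈ Icc (0:ℝ) 1 := by
        push Not at c2
        refine ⟨by linarith [h.1, h2.2], ?_⟩
        rw [hd]; linarith [hw1.2]
      by_cases c1 : τ₁ ≤ w - s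
      · have e1 : φ τ₁ = pt x (s + τ₁) := if_pos c1
        have m1 : s + τ₁ ∈ Icc (0:ℝ) 1 := ⟨by linarith [hs.1, h1.1], by linarith [hw1.2]⟩
        push Not at c2
        rw [e1, e2, dist_pt x y m1 m2]
        have hmax : max (max (s + τ₁) (t + (D - τ₂))) (u x y) = w := by
          apply le_antisymm
          · refine max_le (max_le (by linarith) ?_) huw
            rw [hd]; linarith
          · rw [hwdef]
            rcases le_total (max s t) (u x y) with g | g
            · rw [max_eq_right g]; exact le_max_right _ _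
            · rw [max_eq_left g]
              rcases le_total s t with g2 | g2
              · exfalso
                have : w = t := by rw [hwdef, max_eq_left g, max_eq_right g2]
                have := h2.2
                rw [hd] at this
                linarith
              · rw [max_eq_left g2]
                refine le_max_of_le_left (le_max_of_le_left ?_)
                linarith [h1.1]
        rw [hmax, abs_of_nonpos (by linarith), hd]
        ring
      · have e1 : φ τ₁ = pt y (t + (D - τ₁)) := if_neg c1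
        push Not at c1
        have m1 : t + (D - τ₁) ∈ Icc (0:ℝ) 1 := by
          refine ⟨by linarith [h.1, h1.2], ?_⟩
          rw [hd]; linarith [hw1.2]
        rw [e1, e2, dist_pt_same y m1 m2, abs_sub_comm]
        congr 1; ring
  refine ⟨φ, ?_, ?_, ?_⟩
  · show (if (0:ℝ) ≤ w - s then pt x (s + 0) else pt y (t + (D - 0))) = pt x s
    rw [if_pos (by linarith), add_zero]
  · show (if D ≤ w - s then pt x (s + D) else pt y (t + (D - D))) = pt y t
    split_ifs with g
    · have hwt : w = t := by rw [hd] at g; linarith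
      have : s + D = t := by rw [hd, hwt]; ring
      rw [this]
      exact pt_eq_of_le h (by rw [← hwt]; exact huw)
    · rw [sub_self, add_zero]
  · intro τ₁ h1 τ₂ h2
    rcases le_total τ₁ τ₂ with g | g
    · exact hiso τ₁ h1 τ₂ h2 g
    · rw [dist_comm, abs_sub_comm]; exact hiso τ₂ h2 τ₁ h1 g

theorem isRTree : IsRTree T := by
  intro p q _
  obtain ⟨φ, h0, h1, hiso⟩ := exists_geod p q
  refine ⟨φ, h0, h1, hiso, ?_⟩
  intro c hc hi hc0 hc1
  have e1 : c '' Icc 0 1 = G p q := by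
    apply Subset.antisymm
    · have := subset_G hc hi; rwa [hc0, hc1] at this
    · have := G_subset zero_le_one hc; rwa [hc0, hc1] at this
  have hφc : ContinuousOn φ (Icc 0 (dist p q)) := by
    have : LipschitzOnWith 1 φ (Icc 0 (dist p q)) :=
      LipschitzOnWith.of_dist_le_mul fun s hs t ht' => by
        rw [hiso s hs t ht', Real.dist_eq, NNReal.coe_one, one_mul]
    exact this.continuousOn
  have hφi : InjOn φ (Icc 0 (dist p q)) := by
    intro s hs t ht' he
    have := hiso s hs t ht'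
    rw [he, dist_self] at this
    linarith [abs_eq_zero.1 this.symm]
  have e2 : φ '' Icc 0 (dist p q) = G p q := by
    apply Subset.antisymm
    · have := subset_G hφc hφi; rwa [h0, h1] at this
    · have := G_subset dist_nonneg hφc; rwa [h0, h1] at this
  rw [e1, e2]

end Pool.Agent.V11101.RT
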