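import Pool.Agent.V11101.RTB
import Pool.Agent.V11101.Free

/-!
# Lipschitz functions on the tree
-/

open Set Filter Topology MeasureTheory
open Pool.Agent.V11101.LF

namespace Pool.Agent.V11101.RT

lemma exists_lip (φ : X → ℝ → ℝ) (h1 : ∀ x, φ x 1 = 0)
    (h2 : ∀ x s t, 0 ≤ s → s ≤ t → t ≤ 1 → |φ x s - φ x t| ≤ t - s)
    (h3 : ∀ x y t, 0 ≤ t → t ≤ 1 → u x y ≤ t → φ x t = φ y t) :
    ∃ f : Lip0 T root, ‖f‖ ≤ 1 ∧ ∀ x, ∀ t ∈ Icc (0:ℝ) 1, f (pt x t) = φ x t := by
  choose X0 t0 ht0 hp0 using exists_pt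
  have hwd : ∀ x, ∀ t ∈ Icc (0:ℝ) 1, φ (X0 (pt x t)) (t0 (pt x t)) = φ x t := by
    intro x t htt
    have e := hp0 (pt x t)
    set y := X0 (pt x t)
    set s := t0 (pt x t) with hs
    have hs' : s ∈ Icc (0:ℝ) 1 := ht0 _
    have e2 : s = t := by
      have := congrArg ht e
      rw [ht_pt x htt, ht_pt y hs'] at this
      exact this.symm
    have e3 : dist (pt x t) (pt y s) = 0 := by rw [← e, dist_self]
    rw [dist_pt x y htt hs', e2, max_self] at e3
    have h4 : u x y ≤ max t (u x y) := le_max_right _ _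
    have h5 : u x y ≤ t := by linarith
    rw [e2, ← h3 x y t htt.1 htt.2 h5]
  have hL : ∀ p q : T, |φ (X0 p) (t0 p) - φ (X0 q) (t0 q)| ≤ 1 * dist p q := by
    intro p q
    obtain ⟨x, s, hs, rfl⟩ := exists_pt p
    obtain ⟨y, t, htt, rfl⟩ := exists_pt q
    rw [hwd x s hs, hwd y t htt, dist_pt x y hs htt, one_mul]
    have hw := W_pt x y hs htt
    set w := max (max s t) (u x y) with hwdef
    have hw1 : w ∈ Icc (0:ℝ) 1 := by
      rw [← hw]
      exact ⟨(ht_mem (pt x s)).1.trans (ht_le_W _ _), W_le_one _ _⟩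
    have hsw : s ≤ w := le_max_of_le_left (le_max_left _ _)
    have htw : t ≤ w := le_max_of_le_left (le_max_right _ _)
    have huw : u x y ≤ w := le_max_right _ _
    have a1 := h2 x s w hs.1 hsw hw1.2
    have a2 := h2 y t w htt.1 htw hw1.2
    have a3 := h3 x y w hw1.1 hw1.2 huw
    rw [a3] at a1
    have : φ x s - φ y t = (φ x s - φ y w) - (φ y t - φ y w) := by ring
    rw [this]
    calc |(φ x s - φ y w) - (φ y t - φ y w)| ≤ |φ x s - φ y w| + |φ y t - φ y w| := abs_sub _ _
      _ ≤ (w - s) + (w - t) := add_le_add a1 a2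
      _ = _ := by ring
  have h0 : φ (X0 root) (t0 root) = 0 := by
    have : root = pt (fun _ => (0, false)) 1 := rfl
    rw [this, hwd _ 1 ⟨zero_le_one, le_rfl⟩, h1]
  refine ⟨Lip0.mk' (fun p => φ (X0 p) (t0 p)) h0 1 hL, Lip0.norm_le zero_le_one hL, ?_⟩
  intro x t htt
  exact hwd x t htt

lemma ii {g : ℝ → ℝ} (hg : Measurable g) (hb : ∀ t, |g t| ≤ 1) (a b : ℝ) :
    IntervalIntegrable g volume a b := by
  rw [intervalIntegrable_iff]
  exact Measure.integrableOn_of_bounded (M := 1) (by simp) hg.aestronglyMeasurable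
    (Eventually.of_forall hb)

lemma pt_eq_of_lt {x y : X} {t τ : ℝ} (ht0 : 0 ≤ t) (h : u x y ≤ t) (hτ : t < τ) :
    pt x τ = pt y τ := by
  rw [pt_clamp x, pt_clamp y]
  have h0 : 0 ≤ τ := ht0.trans hτ.le
  have hm : max 0 (min τ 1) ∈ Icc (0:ℝ) 1 := ⟨le_max_left _ _, max_le zero_le_one (min_le_right _ _)⟩
  apply pt_eq_of_le hm
  rcases le_total τ 1 with h1 | h1
  · rw [min_eq_left h1, max_eq_right h0]; linarith
  · rw [min_eq_right h1, max_eq_right zero_le_one]; exact u_le_one _ _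

/-- Minus the slope of `f` along the branch `x`. -/
noncomputable def eta (f : Lip0 T root) (x : X) (t : ℝ) : ℝ := -deriv (fun τ => f (pt x τ)) t

/-- The slope restricted to `S`. -/
noncomputable def psi (f : Lip0 T root) (S : Set T) (x : X) : ℝ → ℝ :=
  indicator {t | pt x t ∈ S} (eta f x)

/-- The indicator of `S` along the branch `x`. -/
noncomputable def chi (S : Set T) (x : X) : ℝ → ℝ :=
  indicator {t | pt x t ∈ S} (fun _ => 1)

section

variable {f : Lip0 T root} (hf : ‖f‖ ≤ 1) {S : Set T} (hS : IsClosed S)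

include hf in
lemma comp_lip (x : X) : LipschitzWith 1 (fun τ => f (pt x τ)) := by
  refine LipschitzWith.of_dist_le_mul fun s t => ?_
  rw [NNReal.coe_one, one_mul, Real.dist_eq]
  have h1 := f.abs_sub_le (pt x s) (pt x t)
  have h2 := (pt_lip x).dist_le_mul s t
  rw [NNReal.coe_one, one_mul] at h2
  calc |f (pt x s) - f (pt x t)| ≤ ‖f‖ * dist (pt x s) (pt x t) := h1
    _ ≤ 1 * dist s t := mul_le_mul hf h2 dist_nonneg zero_le_one
    _ = _ := one_mul _

include hf in
lemma abs_eta_le (x : X) (t : ℝ) : |eta f x t| ≤ 1 := by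
  unfold eta
  rw [abs_neg, ← Real.norm_eq_abs]
  have := norm_deriv_le_of_lipschitz (comp_lip hf x) (x₀ := t)
  simpa using this

include hS in
lemma meas_set (x : X) : MeasurableSet {t : ℝ | pt x t ∈ S} :=
  (hS.preimage (pt_lip x).continuous).measurableSet

include hS in
lemma meas_psi (f : Lip0 T root) (x : X) : Measurable (psi f S x) :=
  (measurable_deriv _).neg.indicator (meas_set hS x)

include hS in
lemma meas_chi (x : X) : Measurable (chi S x) :=
  measurable_const.indicator (meas_set hS x)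

lemma chi_nonneg (S : Set T) (x : X) (t : ℝ) : 0 ≤ chi S x t :=
  indicator_nonneg (fun _ _ => zero_le_one) _

lemma chi_le_one (S : Set T) (x : X) (t : ℝ) : chi S x t ≤ 1 := by
  unfold chi
  by_cases h : t ∈ {t | pt x t ∈ S}
  · rw [indicator_of_mem h]
  · rw [indicator_of_notMem h]; exact zero_le_one

lemma abs_chi_le (S : Set T) (x : X) (t : ℝ) : |chi S x t| ≤ 1 := by
  rw [abs_of_nonneg (chi_nonneg S x t)]; exact chi_le_one S x t

include hf in
lemma abs_psi_le_chi (x : X) (t : ℝ) : |psi f S x t| ≤ chi S x t := by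
  unfold psi chi
  by_cases h : t ∈ {t | pt x t ∈ S}
  · rw [indicator_of_mem h, indicator_of_mem h]; exact abs_eta_le hf x t
  · rw [indicator_of_notMem h, indicator_of_notMem h, abs_zero]

include hf in
lemma abs_psi_le (x : X) (t : ℝ) : |psi f S x t| ≤ 1 :=
  (abs_psi_le_chi hf x t).trans (chi_le_one S x t)

lemma psi_congr {x y : X} {t τ : ℝ} (ht0 : 0 ≤ t) (h : u x y ≤ t) (hτ : t < τ) :
    psi f S x τ = psi f S y τ := by
  have he : (fun τ => f (pt x τ)) =ᶠ[𝓝 τ] (fun τ => f (pt y τ)) := by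
    filter_upwards [Ioi_mem_nhds hτ] with τ' hτ'
    rw [pt_eq_of_lt ht0 h hτ']
  have h1 : eta f x τ = eta f y τ := by
    unfold eta; rw [he.deriv_eq]
  have h2 : pt x τ = pt y τ := pt_eq_of_lt ht0 h hτ
  unfold psi
  by_cases hm : pt x τ ∈ S
  · rw [indicator_of_mem (show τ ∈ {t | pt x t ∈ S} from hm),
      indicator_of_mem (show τ ∈ {t | pt y t ∈ S} from by show pt y τ ∈ S; rwa [← h2]), h1]
  · rw [indicator_of_notMem (show τ ∉ {t | pt x t ∈ S} from hm),
      indicator_of_notMem (show τ ∉ {t | pt y t ∈ S} from by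
        show ¬ pt y τ ∈ S
        rwa [← h2])]

include hf hS in
/-- The function with the slopes of `f` on `S` and slope zero off `S`. -/
lemma exists_h : ∃ h : Lip0 T root, ‖h‖ ≤ 1 ∧
    ∀ x, ∀ t ∈ Icc (0:ℝ) 1, h (pt x t) = ∫ τ in t..1, psi f S x τ := by
  have hi := fun x a b => ii (meas_psi hS f x) (abs_psi_le hf x) a b
  refine exists_lip (fun x t => ∫ τ in t..1, psi f S x τ) (fun x => intervalIntegral.integral_same)
    ?_ ?_
  · intro x s t h0 h1 h2
    have : (∫ τ in s..1, psi f S x τ) - ∫ τ in t..1, psi f S x τ = ∫ τ in s..t, psi f S x τ := by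
      rw [← intervalIntegral.integral_add_adjacent_intervals (hi x s t) (hi x t 1)]; ring
    show |(∫ τ in s..1, psi f S x τ) - ∫ τ in t..1, psi f S x τ| ≤ t - s
    rw [this]
    have h3 := intervalIntegral.norm_integral_le_of_norm_le_const (a := s) (b := t) (C := 1)
      (f := psi f S x) (fun τ _ => abs_psi_le hf x τ)
    rw [Real.norm_eq_abs, one_mul, abs_of_nonneg (by linarith : (0:ℝ) ≤ t - s)] at h3
    exact h3
  · intro x y t h0 h1 h2
    show (∫ τ in t..1, psi f S x τ) = ∫ τ in t..1, psi f S y τ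
    rw [intervalIntegral.integral_of_le h1, intervalIntegral.integral_of_le h1]
    exact setIntegral_congr_fun measurableSet_Ioc fun τ hτ => psi_congr h0 h2 hτ.1

include hf hS in
lemma h_sub {h : Lip0 T root} (hh : ∀ x, ∀ t ∈ Icc (0:ℝ) 1, h (pt x t) = ∫ τ in t..1, psi f S x τ)
    {x y : X} {s t w : ℝ} (hs : s ∈ Icc (0:ℝ) 1) (htt : t ∈ Icc (0:ℝ) 1) (hw : w ∈ Icc (0:ℝ) 1)
    (huw : u x y ≤ w) :
    h (pt x s) - h (pt y t) = (∫ τ in s..w, psi f S x τ) - ∫ τ in t..w, psi f S y τ := by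
  have hi := fun x a b => ii (meas_psi hS f x) (abs_psi_le hf x) a b
  have e : (∫ τ in w..1, psi f S x τ) = ∫ τ in w..1, psi f S y τ := by
    rw [intervalIntegral.integral_of_le hw.2, intervalIntegral.integral_of_le hw.2]
    exact setIntegral_congr_fun measurableSet_Ioc fun τ hτ => psi_congr hw.1 huw hτ.1
  rw [hh x s hs, hh y t htt,
    ← intervalIntegral.integral_add_adjacent_intervals (hi x s w) (hi x w 1),
    ← intervalIntegral.integral_add_adjacent_intervals (hi y t w) (hi y w 1), e]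
  ring

include hf in
/-- If `f` is steepest between two points then it is affine on the first half of the segment. -/
lemma slope {x y : X} {s t : ℝ} (hs : s ∈ Icc (0:ℝ) 1) (htt : t ∈ Icc (0:ℝ) 1) {σ : ℝ}
    (hσ : σ = 1 ∨ σ = -1) (he : f (pt x s) - f (pt y t) = σ * dist (pt x s) (pt y t)) {τ : ℝ}
    (h1 : s ≤ τ) (h2 : τ ≤ W (pt x s) (pt y t)) :
    f (pt x τ) = f (pt x s) - σ * (τ - s) := by
  have hτ : τ ∈ Icc (0:ℝ) 1 := ⟨hs.1.trans h1, h2.trans (W_le_one _ _)⟩
  have hw := W_pt x y hs htt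
  have hd := dist_pt x y hs htt
  set w := max (max s t) (u x y) with hwdef
  have hsw : s ≤ w := le_max_of_le_left (le_max_left _ _)
  have htw : t ≤ w := le_max_of_le_left (le_max_right _ _)
  have huw : u x y ≤ w := le_max_right _ _
  rw [hw] at h2
  have hm : max (max τ t) (u x y) = w := by
    apply le_antisymm (max_le (max_le h2 htw) huw)
    exact max_le_max (max_le_max h1 le_rfl) le_rfl
  have d1 : dist (pt x s) (pt x τ) = τ - s := by
    rw [dist_pt_same x hs hτ, abs_of_nonpos (by linarith)]; ring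
  have d2 : dist (pt x τ) (pt y t) = 2 * w - τ - t := by
    rw [dist_pt x y hτ htt, hm]
  have a1 := f.abs_sub_le (pt x s) (pt x τ)
  have a2 := f.abs_sub_le (pt x τ) (pt y t)
  rw [d1] at a1
  rw [d2] at a2
  have b1 : |f (pt x s) - f (pt x τ)| ≤ τ - s := a1.trans (by nlinarith)
  have b2 : |f (pt x τ) - f (pt y t)| ≤ 2 * w - τ - t := a2.trans (by nlinarith)
  rw [abs_le] at b1 b2
  rw [hd] at he
  rcases hσ with rfl | rfl <;> linarith

include hf in
lemma psi_slope {x y : X} {s t : ℝ} (hs : s ∈ Icc (0:ℝ) 1) (htt : t ∈ Icc (0:ℝ) 1) {σ : ℝ}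
    (hσ : σ = 1 ∨ σ = -1) (he : f (pt x s) - f (pt y t) = σ * dist (pt x s) (pt y t)) {τ : ℝ}
    (h1 : s < τ) (h2 : τ < W (pt x s) (pt y t)) :
    psi f S x τ = σ * chi S x τ := by
  have hder : HasDerivAt (fun τ => f (pt x s) - σ * (τ - s)) (-σ) τ := by
    have := (((hasDerivAt_id τ).sub_const s).const_mul σ).const_sub (f (pt x s))
    simpa using this
  have hev : (fun τ => f (pt x τ)) =ᶠ[𝓝 τ] (fun τ => f (pt x s) - σ * (τ - s)) := by
    filter_upwards [Ioo_mem_nhds h1 h2] with τ' hτ'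
    exact slope hf hs htt hσ he hτ'.1.le hτ'.2.le
  have he2 : eta f x τ = σ := by
    unfold eta
    rw [hev.deriv_eq, hder.deriv, neg_neg]
  unfold psi chi
  by_cases h : τ ∈ {t | pt x t ∈ S}
  · rw [indicator_of_mem h, indicator_of_mem h, he2, mul_one]
  · rw [indicator_of_notMem h, indicator_of_notMem h, mul_zero]

include hf hS in
/-- The increment of `h` along a steepest segment of `f`. -/
lemma h_steep {h : Lip0 T root}
    (hh : ∀ x, ∀ t ∈ Icc (0:ℝ) 1, h (pt x t) = ∫ τ in t..1, psi f S x τ)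
    {p q : T} {σ : ℝ} (hσ : σ = 1 ∨ σ = -1) (he : f p - f q = σ * dist p q) :
    0 ≤ σ * (h p - h q) ∧ (G p q ⊆ S → h p - h q = σ * dist p q) := by
  obtain ⟨x, s, hs, rfl⟩ := exists_pt p
  obtain ⟨y, t, htt, rfl⟩ := exists_pt q
  have hw := W_pt x y hs htt
  have hd := dist_pt x y hs htt
  set w := max (max s t) (u x y) with hwdef
  have hsw : s ≤ w := le_max_of_le_left (le_max_left _ _)
  have htw : t ≤ w := le_max_of_le_left (le_max_right _ _)
  have huw : u x y ≤ w := le_max_right _ _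
  have hw1 : w ∈ Icc (0:ℝ) 1 := by
    rw [← hw]
    exact ⟨(ht_mem (pt x s)).1.trans (ht_le_W _ _), W_le_one _ _⟩
  have he' : f (pt y t) - f (pt x s) = (-σ) * dist (pt y t) (pt x s) := by
    rw [dist_comm]; linarith
  have hσ' : -σ = 1 ∨ -σ = -1 := by
    rcases hσ with rfl | rfl
    · right; rfl
    · left; norm_num
  have hs1 := h_sub hf hS hh hs htt hw1 huw
  have i1 : (∫ τ in s..w, psi f S x τ) = σ * ∫ τ in s..w, chi S x τ := by
    rw [← intervalIntegral.integral_const_mul]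
    rw [intervalIntegral.integral_of_le hsw, intervalIntegral.integral_of_le hsw,
      integral_Ioc_eq_integral_Ioo, integral_Ioc_eq_integral_Ioo]
    refine setIntegral_congr_fun measurableSet_Ioo fun τ hτ => ?_
    exact psi_slope hf hs htt hσ he hτ.1 (by rw [hw]; exact hτ.2)
  have i2 : (∫ τ in t..w, psi f S y τ) = (-σ) * ∫ τ in t..w, chi S y τ := by
    rw [← intervalIntegral.integral_const_mul]
    rw [intervalIntegral.integral_of_le htw, intervalIntegral.integral_of_le htw,
      integral_Ioc_eq_integral_Ioo, integral_Ioc_eq_integral_Ioo]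
    refine setIntegral_congr_fun measurableSet_Ioo fun τ hτ => ?_
    exact psi_slope hf htt hs hσ' he' hτ.1 (by rw [W_comm, hw]; exact hτ.2)
  rw [i1, i2] at hs1
  have n1 : 0 ≤ ∫ τ in s..w, chi S x τ :=
    intervalIntegral.integral_nonneg hsw fun τ _ => chi_nonneg S x τ
  have n2 : 0 ≤ ∫ τ in t..w, chi S y τ :=
    intervalIntegral.integral_nonneg htw fun τ _ => chi_nonneg S y τ
  constructor
  · rw [hs1]
    rcases hσ with rfl | rfl <;> nlinarith
  · intro hG
    have g1 : (∫ τ in s..w, chi S x τ) = w - s := by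
      have : (∫ τ in s..w, chi S x τ) = ∫ _τ in s..w, (1:ℝ) := by
        apply intervalIntegral.integral_congr
        intro τ hτ
        rw [uIcc_of_le hsw] at hτ
        have hτ1 : τ ∈ Icc (0:ℝ) 1 := ⟨hs.1.trans hτ.1, hτ.2.trans hw1.2⟩
        have hm : pt x τ ∈ S := hG (by
          rw [mem_G_iff, ht_pt x hτ1, W_pt x x hs hτ1, u_self, max_eq_right hτ.1,
            max_eq_left hτ1.1]
          exact ⟨Or.inl rfl, by rw [hw]; exact hτ.2⟩)
        show chi S x τ = 1
        unfold chi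
        rw [indicator_of_mem (show τ ∈ {t | pt x t ∈ S} from hm)]
      rw [this, intervalIntegral.integral_const, smul_eq_mul, mul_one]
    have g2 : (∫ τ in t..w, chi S y τ) = w - t := by
      have : (∫ τ in t..w, chi S y τ) = ∫ _τ in t..w, (1:ℝ) := by
        apply intervalIntegral.integral_congr
        intro τ hτ
        rw [uIcc_of_le htw] at hτ
        have hτ1 : τ ∈ Icc (0:ℝ) 1 := ⟨htt.1.trans hτ.1, hτ.2.trans hw1.2⟩
        have hm : pt y τ ∈ S := hG (by
          rw [mem_G_iff, ht_pt y hτ1, W_pt y y htt hτ1, u_self, max_eq_right hτ.1,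
            max_eq_left hτ1.1]
          exact ⟨Or.inr rfl, by rw [hw]; exact hτ.2⟩)
        show chi S y τ = 1
        unfold chi
        rw [indicator_of_mem (show τ ∈ {t | pt y t ∈ S} from hm)]
      rw [this, intervalIntegral.integral_const, smul_eq_mul, mul_one]
    rw [hs1, g1, g2, hd]
    ring

end

end Pool.Agent.V11101.RT
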