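import Pool.Agent.V11101.RTC

/-!
# The elements of the free space over the tree, and condition (a)
-/

open Set Filter Topology MeasureTheory
open Pool.Agent.V11101.LF

namespace Pool.Agent.V11101.RT

/-- The nodes of level `n`. -/
def C : ℕ → Type
  | 0 => Unit
  | (n+1) => C n × A n

@[reducible] def fintypeC : ∀ n, Fintype (C n)
  | 0 => inferInstanceAs (Fintype Unit)
  | (n+1) => @instFintypeProd (C n) (A n) (fintypeC n) inferInstance

instance (n : ℕ) : Fintype (C n) := fintypeC n

/-- The prefix of length `n`. -/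
def pre (x : X) : ∀ n, C n
  | 0 => ()
  | (n+1) => (pre x n, x n)

/-- A branch through a node. -/
def ext : ∀ n, C n → X
  | 0, _ => fun _ => (0, false)
  | (n+1), c => Function.update (ext n c.1) n c.2

lemma ext_succ (n : ℕ) (c : C n) (a : A n) :
    ext (n + 1) ((c, a) : C n × A n) = Function.update (ext n c) n a := rfl

lemma pre_succ (x : X) (n : ℕ) : pre x (n + 1) = ((pre x n, x n) : C n × A n) := rfl

lemma pre_congr {x y : X} {n : ℕ} (h : ∀ i < n, x i = y i) : pre x n = pre y n := by
  induction n with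
  | zero => rfl
  | succ n ih =>
    rw [pre_succ, pre_succ, ih fun i hi => h i (by omega), h n (by omega)]

lemma eq_of_pre {x y : X} {n : ℕ} (h : pre x n = pre y n) : ∀ i < n, x i = y i := by
  induction n with
  | zero => intro i hi; omega
  | succ n ih =>
    rw [pre_succ, pre_succ] at h
    have h1 := congrArg (fun c : C n × A n => c.1) h
    have h2 := congrArg (fun c : C n × A n => c.2) h
    intro i hi
    rcases Nat.lt_succ_iff_lt_or_eq.1 hi with h3 | rfl
    · exact ih h1 i h3
    · exact h2

lemma pre_ext (n : ℕ) (c : C n) : pre (ext n c) n = c := by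
  induction n with
  | zero => rfl
  | succ n ih =>
    obtain ⟨c, a⟩ := (c : C n × A n)
    rw [ext_succ, pre_succ, Function.update_self]
    have : pre (Function.update (ext n c) n a) n = c :=
      (pre_congr fun i hi => by rw [Function.update_of_ne (by omega)]).trans (ih c)
    rw [this]

lemma r_le_u_ext {n : ℕ} {c c' : C (n + 1)} (h : c ≠ c') :
    r n ≤ u (ext (n + 1) c) (ext (n + 1) c') := by
  by_contra hlt
  push Not at hlt
  apply h
  rw [← pre_ext (n + 1) c, ← pre_ext (n + 1) c']
  apply pre_congr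
  intro i hi
  by_contra hne
  have h1 := le_u_of hne
  have h2 : r n ≤ r i := r_anti.antitone (by omega)
  linarith

lemma u_sib (n : ℕ) (c : C n) (a b : A n) :
    u (ext (n + 1) ((c, a) : C n × A n)) (ext (n + 1) ((c, b) : C n × A n)) ≤ r n := by
  apply u_le_of
  intro i hi
  rw [ext_succ, ext_succ, Function.update_of_ne (by omega), Function.update_of_ne (by omega)]

/-- The leaf below a node. -/
noncomputable def leaf (n : ℕ) (c : C n) : T := pt (ext n c) 0

/-- The elements of the free space. -/
noncomputable def g (n : ℕ) : Free T root :=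
  (1 / (2 * ((n : ℝ) + 1))) • ∑ c : C n, ∑ j : Fin (n + 1),
    (delta root (leaf (n + 1) ((c, (j, true)) : C n × A n)) -
      delta root (leaf (n + 1) ((c, (j, false)) : C n × A n)))

lemma sum_app {ι : Type*} (s : Finset ι) (m : ι → Free T root) (f : Lip0 T root) :
    (∑ i ∈ s, m i).app f = ∑ i ∈ s, (m i).app f := by
  classical
  induction s using Finset.induction_on with
  | empty => simp [Free.zero_app]
  | insert a s ha ih => rw [Finset.sum_insert ha, Finset.sum_insert ha, Free.add_app, ih]

lemma g_app (n : ℕ) (f : Lip0 T root) : (g n).app f = (1 / (2 * ((n : ℝ) + 1))) *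
    ∑ c : C n, ∑ j : Fin (n + 1), (f (leaf (n + 1) ((c, (j, true)) : C n × A n)) -
      f (leaf (n + 1) ((c, (j, false)) : C n × A n))) := by
  unfold g
  rw [Free.smul_app, sum_app]
  congr 1
  refine Finset.sum_congr rfl fun c _ => ?_
  rw [sum_app]
  rfl

lemma sum_C_succ {E : Type*} [AddCommMonoid E] (n : ℕ) (F : C (n + 1) → E) :
    ∑ e : C (n + 1), F e = ∑ c : C n, ∑ j : Fin (n + 1),
      (F ((c, (j, true)) : C n × A n) + F ((c, (j, false)) : C n × A n)) := by
  have h1 : ∑ e : C (n + 1), F e = ∑ e : C n × A n, F e := rfl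
  rw [h1, Fintype.sum_prod_type]
  refine Finset.sum_congr rfl fun c _ => ?_
  rw [Fintype.sum_prod_type]
  refine Finset.sum_congr rfl fun j _ => ?_
  rw [Fintype.sum_bool]

lemma card_C (n : ℕ) : Fintype.card (C n) = N n := by
  induction n with
  | zero => rfl
  | succ n ih =>
    have : Fintype.card (C (n + 1)) = Fintype.card (C n × A n) := rfl
    rw [this, Fintype.card_prod, ih, Fintype.card_prod, Fintype.card_fin, Fintype.card_bool]
    show N n * ((n + 1) * 2) = N n * (2 * (n + 1))
    ring

/-- The total length of a segment on the lower parts of the branches through the nodes of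
level `n + 1`. -/
lemma sum_chi_G (n : ℕ) (p q : T) :
    ∑ e : C (n + 1), ∫ τ in (0:ℝ)..(r n), chi (G p q) (ext (n + 1) e) τ ≤ dist p q := by
  obtain ⟨x, s, hs, rfl⟩ := exists_pt p
  obtain ⟨y, t, htt, rfl⟩ := exists_pt q
  have hw := W_pt x y hs htt
  have hd := dist_pt x y hs htt
  set w := max (max s t) (u x y) with hwdef
  have hsw : s ≤ w := le_max_of_le_left (le_max_left _ _)
  have htw : t ≤ w := le_max_of_le_left (le_max_right _ _)
  have hGc : IsClosed (G (pt x s) (pt y t)) :=
    isClosed_eq ((continuous_const.dist continuous_id).add (continuous_id.dist continuous_const))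
      continuous_const
  rw [← intervalIntegral.integral_finsetSum fun e _ =>
    ii (meas_chi hGc _) (abs_chi_le _ _) _ _]
  have hr := r_pos n
  -- pointwise bound
  have hpt : ∀ τ ∈ Ioo (0:ℝ) (r n), ∑ e : C (n + 1), chi (G (pt x s) (pt y t)) (ext (n + 1) e) τ ≤
      indicator (Icc s w) (fun _ => (1:ℝ)) τ + indicator (Icc t w) (fun _ => (1:ℝ)) τ := by
    intro τ hτ
    have hτ1 : τ ∈ Icc (0:ℝ) 1 := ⟨hτ.1.le, hτ.2.le.trans (r_le_one n)⟩
    have hone : ∀ (z : X) (B : ℝ), 0 ≤ B → ∑ e : C (n + 1),
        (open Classical in if (u z (ext (n + 1) e) ≤ τ) then B else 0) ≤ B := by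
      intro z B hB
      classical
      by_cases hex : ∃ e₀ : C (n + 1), u z (ext (n + 1) e₀) ≤ τ
      · obtain ⟨e₀, he₀⟩ := hex
        rw [Finset.sum_eq_single e₀]
        · exact (if_pos he₀).le
        · intro e _ hne
          rw [if_neg]
          intro he
          have h1 := r_le_u_ext hne
          have h2 := u_ultra (ext (n + 1) e) z (ext (n + 1) e₀)
          rw [u_comm (ext (n + 1) e) z] at h2
          have h3 := h2.trans (max_le he he₀)
          linarith [hτ.2]
        · intro h; exact absurd (Finset.mem_univ _) h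
      · push Not at hex
        rw [Finset.sum_eq_zero fun e _ => if_neg (not_le.2 (hex e))]
        exact hB
    have hterm : ∀ e : C (n + 1), chi (G (pt x s) (pt y t)) (ext (n + 1) e) τ ≤
        (open Classical in if (u x (ext (n + 1) e) ≤ τ) then
          indicator (Icc s w) (fun _ => (1:ℝ)) τ else 0) +
        (open Classical in if (u y (ext (n + 1) e) ≤ τ) then
          indicator (Icc t w) (fun _ => (1:ℝ)) τ else 0) := by
      intro e
      have n1 : 0 ≤ indicator (Icc s w) (fun _ => (1:ℝ)) τ :=
        indicator_nonneg (fun _ _ => zero_le_one) _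
      have n2 : 0 ≤ indicator (Icc t w) (fun _ => (1:ℝ)) τ :=
        indicator_nonneg (fun _ _ => zero_le_one) _
      by_cases hm : pt (ext (n + 1) e) τ ∈ G (pt x s) (pt y t)
      · have hle := chi_le_one (G (pt x s) (pt y t)) (ext (n + 1) e) τ
        refine hle.trans ?_
        rw [mem_G_iff, ht_pt _ hτ1, W_pt x _ hs hτ1, W_pt y _ htt hτ1, hw] at hm
        rcases hm with ⟨h1 | h1, h2⟩
        · have h3 : s ≤ τ := by rw [← h1]; exact le_max_of_le_left (le_max_left _ _)
          have h4 : u x (ext (n + 1) e) ≤ τ := by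
            conv_rhs => rw [← h1]
            exact le_max_right _ _
          rw [if_pos h4, indicator_of_mem (show τ ∈ Icc s w from ⟨h3, h2⟩)]
          split_ifs <;> linarith
        · have h3 : t ≤ τ := by rw [← h1]; exact le_max_of_le_left (le_max_left _ _)
          have h4 : u y (ext (n + 1) e) ≤ τ := by
            conv_rhs => rw [← h1]
            exact le_max_right _ _
          rw [if_pos h4, indicator_of_mem (show τ ∈ Icc t w from ⟨h3, h2⟩)]
          split_ifs <;> linarith
      · have : chi (G (pt x s) (pt y t)) (ext (n + 1) e) τ = 0 :=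
          indicator_of_notMem (show τ ∉ {t' | pt (ext (n + 1) e) t' ∈ G (pt x s) (pt y t)} from hm) _
        rw [this]
        split_ifs <;> linarith
    refine (Finset.sum_le_sum fun e _ => hterm e).trans ?_
    rw [Finset.sum_add_distrib]
    exact add_le_add (hone x _ (indicator_nonneg (fun _ _ => zero_le_one) _))
      (hone y _ (indicator_nonneg (fun _ _ => zero_le_one) _))
  have hmeas : ∀ a b : ℝ, Measurable (indicator (Icc a b) (fun _ => (1:ℝ))) :=
    fun a b => measurable_const.indicator measurableSet_Icc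
  have hbd : ∀ a b τ : ℝ, |indicator (Icc a b) (fun _ => (1:ℝ)) τ| ≤ 1 := by
    intro a b τ
    by_cases h : τ ∈ Icc a b
    · rw [indicator_of_mem h]; simp
    · rw [indicator_of_notMem h]; simp
  have hI : ∀ a b : ℝ, a ≤ b → ∫ τ in (0:ℝ)..(r n), indicator (Icc a b) (fun _ => (1:ℝ)) τ ≤ b - a := by
    intro a b hab
    rw [intervalIntegral.integral_of_le hr.le, setIntegral_indicator measurableSet_Icc,
      setIntegral_const, smul_eq_mul, mul_one]
    calc volume.real (Ioc 0 (r n) ∩ Icc a b) ≤ volume.real (Icc a b) :=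
          measureReal_mono inter_subset_right (by simp)
      _ = b - a := by rw [Real.volume_real_Icc_of_le hab]
  calc ∫ τ in (0:ℝ)..(r n), ∑ e : C (n + 1), chi (G (pt x s) (pt y t)) (ext (n + 1) e) τ
      ≤ ∫ τ in (0:ℝ)..(r n), (indicator (Icc s w) (fun _ => (1:ℝ)) τ +
          indicator (Icc t w) (fun _ => (1:ℝ)) τ) := by
        rw [intervalIntegral.integral_of_le hr.le, intervalIntegral.integral_of_le hr.le,
          integral_Ioc_eq_integral_Ioo, integral_Ioc_eq_integral_Ioo]
        refine setIntegral_mono_on ?_ ?_ measurableSet_Ioo hpt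
        · refine integrable_finsetSum _ fun e _ => ?_
          have := ii (meas_chi hGc (ext (n + 1) e)) (abs_chi_le _ _) 0 (r n)
          rw [intervalIntegrable_iff_integrableOn_Ioo_of_le hr.le] at this
          exact this
        · have a1 := ii (hmeas s w) (hbd s w) 0 (r n)
          have a2 := ii (hmeas t w) (hbd t w) 0 (r n)
          rw [intervalIntegrable_iff_integrableOn_Ioo_of_le hr.le] at a1 a2
          exact a1.add a2
    _ = (∫ τ in (0:ℝ)..(r n), indicator (Icc s w) (fun _ => (1:ℝ)) τ) +
          ∫ τ in (0:ℝ)..(r n), indicator (Icc t w) (fun _ => (1:ℝ)) τ :=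
        intervalIntegral.integral_add (ii (hmeas s w) (hbd s w) _ _) (ii (hmeas t w) (hbd t w) _ _)
    _ ≤ (w - s) + (w - t) := add_le_add (hI s w hsw) (hI t w htw)
    _ = dist (pt x s) (pt y t) := by rw [hd]; ring

lemma isClosed_G (p q : T) : IsClosed (G p q) :=
  isClosed_eq ((continuous_const.dist continuous_id).add (continuous_id.dist continuous_const))
    continuous_const

/-- The restricted function is small on `g n`. -/
lemma abs_g_app_le {ι : Type*} (I : Finset ι) (p q : ι → T) {f h : Lip0 T root} (hf : ‖f‖ ≤ 1)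
    (hh : ∀ x, ∀ t ∈ Icc (0:ℝ) 1, h (pt x t) = ∫ τ in t..1, psi f (⋃ i ∈ I, G (p i) (q i)) x τ)
    (n : ℕ) : |(g n).app h| ≤ ∑ i ∈ I, dist (p i) (q i) := by
  set S : Set T := ⋃ i ∈ I, G (p i) (q i) with hSdef
  have hS : IsClosed S := I.finite_toSet.isClosed_biUnion fun i _ => isClosed_G _ _
  have hr := r_pos n
  have hr1 : r n ∈ Icc (0:ℝ) 1 := ⟨hr.le, r_le_one n⟩
  have h00 : (0:ℝ) ∈ Icc (0:ℝ) 1 := ⟨le_rfl, zero_le_one⟩
  have hn : (0:ℝ) ≤ n := Nat.cast_nonneg n
  set m : C (n + 1) → ℝ := fun e => ∫ τ in (0:ℝ)..(r n), chi S (ext (n + 1) e) τ with hm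
  have hm0 : ∀ e, 0 ≤ m e := fun e =>
    intervalIntegral.integral_nonneg hr.le fun τ _ => chi_nonneg S _ τ
  have hpsi : ∀ e : C (n + 1), |∫ τ in (0:ℝ)..(r n), psi f S (ext (n + 1) e) τ| ≤ m e := by
    intro e
    have := intervalIntegral.abs_integral_le_integral_abs (f := psi f S (ext (n + 1) e))
      (μ := volume) hr.le
    refine this.trans ?_
    refine intervalIntegral.integral_mono_on hr.le ?_ ?_ ?_
    · exact (ii (meas_psi hS f _) (abs_psi_le hf _) _ _).abs
    · exact ii (meas_chi hS _) (abs_chi_le _ _) _ _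
    · intro τ _
      exact abs_psi_le_chi hf _ τ
  have hpair : ∀ (c : C n) (j : Fin (n + 1)),
      |h (leaf (n + 1) ((c, (j, true)) : C n × A n)) -
        h (leaf (n + 1) ((c, (j, false)) : C n × A n))| ≤
      m ((c, (j, true)) : C n × A n) + m ((c, (j, false)) : C n × A n) := by
    intro c j
    unfold leaf
    rw [h_sub hf hS hh h00 h00 hr1 (u_sib n c _ _)]
    exact (abs_sub _ _).trans (add_le_add (hpsi _) (hpsi _))
  have hsum : |∑ c : C n, ∑ j : Fin (n + 1), (h (leaf (n + 1) ((c, (j, true)) : C n × A n)) -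
      h (leaf (n + 1) ((c, (j, false)) : C n × A n)))| ≤ ∑ e : C (n + 1), m e := by
    rw [sum_C_succ]
    refine (Finset.abs_sum_le_sum_abs _ _).trans (Finset.sum_le_sum fun c _ => ?_)
    exact (Finset.abs_sum_le_sum_abs _ _).trans (Finset.sum_le_sum fun j _ => hpair c j)
  have hmsum : ∑ e : C (n + 1), m e ≤ ∑ i ∈ I, dist (p i) (q i) := by
    have h1 : ∀ e, m e ≤ ∑ i ∈ I, ∫ τ in (0:ℝ)..(r n), chi (G (p i) (q i)) (ext (n + 1) e) τ := by
      intro e
      rw [← intervalIntegral.integral_finsetSum fun i _ =>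
        ii (meas_chi (isClosed_G _ _) _) (abs_chi_le _ _) _ _]
      refine intervalIntegral.integral_mono_on hr.le (ii (meas_chi hS _) (abs_chi_le _ _) _ _) ?_ ?_
      · rw [intervalIntegrable_iff_integrableOn_Ioo_of_le hr.le]
        refine integrable_finsetSum _ fun i _ => ?_
        have := ii (meas_chi (isClosed_G (p i) (q i)) (ext (n + 1) e)) (abs_chi_le _ _) 0 (r n)
        rw [intervalIntegrable_iff_integrableOn_Ioo_of_le hr.le] at this
        exact this
      · intro τ _
        by_cases hmem : pt (ext (n + 1) e) τ ∈ S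
        · obtain ⟨i, hi, hGi⟩ := mem_iUnion₂.1 hmem
          refine (chi_le_one _ _ _).trans ?_
          have h2 : chi (G (p i) (q i)) (ext (n + 1) e) τ = 1 := by
            unfold chi
            rw [indicator_of_mem
              (show τ ∈ {t' | pt (ext (n + 1) e) t' ∈ G (p i) (q i)} from hGi)]
          rw [← h2]
          exact Finset.single_le_sum (f := fun i => chi (G (p i) (q i)) (ext (n + 1) e) τ)
            (fun j _ => chi_nonneg _ _ _) hi
        · have h2 : chi S (ext (n + 1) e) τ = 0 :=
            indicator_of_notMem (show τ ∉ {t' | pt (ext (n + 1) e) t' ∈ S} from hmem) _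
          rw [h2]
          exact Finset.sum_nonneg fun j _ => chi_nonneg _ _ _
    refine (Finset.sum_le_sum fun e _ => h1 e).trans ?_
    rw [Finset.sum_comm]
    exact Finset.sum_le_sum fun i _ => sum_chi_G n (p i) (q i)
  rw [g_app, abs_mul, abs_of_nonneg (by positivity)]
  have h3 : 1 / (2 * ((n : ℝ) + 1)) ≤ 1 := by
    rw [div_le_one (by positivity)]; linarith
  calc 1 / (2 * ((n : ℝ) + 1)) * |∑ c : C n, ∑ j : Fin (n + 1),
        (h (leaf (n + 1) ((c, (j, true)) : C n × A n)) -
        h (leaf (n + 1) ((c, (j, false)) : C n × A n)))|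
      ≤ 1 * ∑ i ∈ I, dist (p i) (q i) :=
        mul_le_mul h3 (hsum.trans hmsum) (abs_nonneg _) zero_le_one
    _ = _ := one_mul _

end Pool.Agent.V11101.RT
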