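import Pool.Agent.V11101.RTD

/-!
# Condition (a) and uniform regularity: definitions, and condition (a) for the set `W₀`
-/

open Set Filter Topology MeasureTheory
open Pool.Agent.V11101.LF

namespace Pool.Agent.V11101.RT

universe v

section Defs

variable {M : Type v} [MetricSpace M]

/-- The molecule `m_{xy} = (δ(x) - δ(y)) / d(x,y)`. -/
noncomputable def mol (o x y : M) : Free M o := (dist x y)⁻¹ • (delta o x - delta o y)

/-- Condition (a). -/
def CondA {o : M} (W : Set (Free M o)) : Prop :=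
  ∀ ε > 0, ∃ δ > 0, ∀ (n : ℕ) (a : Fin n → ℝ) (x y : Fin n → M), (∀ i, x i ≠ y i) →
    ‖∑ i, a i • mol o (x i) (y i)‖ = ∑ i, |a i| →
    ∀ I : Finset (Fin n), ∑ i ∈ I, dist (x i) (y i) < δ →
      ∑ i ∈ I, |a i| ≤ ε + Metric.infDist (∑ i, a i • mol o (x i) (y i)) W

/-- `F(A)`: the closed linear span of the `δ(x)`, `x ∈ A`. -/
noncomputable def subFree (o : M) (A : Set M) : Submodule ℝ (Free M o) :=
  (Submodule.span ℝ (delta o '' A)).topologicalClosure

/-- Uniform regularity. -/
def UniformlyRegular {o : M} (W : Set (Free M o)) : Prop :=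
  ∀ U : Set M, IsOpen U → ∀ ε > 0, ∃ K ⊆ U, IsCompact K ∧
    ∀ m ∈ W, ∃ m' ∈ subFree o (K ∪ Uᶜ), ‖m - m'‖ ≤ ε

/-- Relative weak compactness: the closure in the weak topology is compact. -/
def RelWeaklyCompact {E : Type v} [NormedAddCommGroup E] [NormedSpace ℝ E] (W : Set E) : Prop :=
  IsCompact (closure (toWeakSpace ℝ E '' W))

lemma sum_app' {o : M} {ι : Type*} (s : Finset ι) (m : ι → Free M o) (f : Lip0 M o) :
    (∑ i ∈ s, m i).app f = ∑ i ∈ s, (m i).app f := by
  classical
  induction s using Finset.induction_on with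
  | empty => simp [Free.zero_app]
  | insert a s ha ih => rw [Finset.sum_insert ha, Finset.sum_insert ha, Free.add_app, ih]

lemma exists_norming {o : M} {n : ℕ} (c : Fin n → ℝ) (x y : Fin n → M) :
    ∃ f : Lip0 M o, ‖f‖ ≤ 1 ∧ ‖∑ i, c i • (delta o (x i) - delta o (y i))‖ ≤
      ∑ i, c i * (f (x i) - f (y i)) := by
  set K : Set (M → ℝ) := {F | F o = 0 ∧ ∀ p q, |F p - F q| ≤ dist p q} with hK
  have hKc : IsClosed K := by
    have h1 : IsClosed {F : M → ℝ | F o = 0} := isClosed_eq (continuous_apply o) continuous_const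
    have h2 : IsClosed {F : M → ℝ | ∀ p q, |F p - F q| ≤ dist p q} := by
      have : {F : M → ℝ | ∀ p q, |F p - F q| ≤ dist p q} =
          ⋂ p, ⋂ q, {F : M → ℝ | |F p - F q| ≤ dist p q} := by
        ext F; simp
      rw [this]
      exact isClosed_iInter fun p => isClosed_iInter fun q =>
        isClosed_le ((continuous_apply p).sub (continuous_apply q)).abs continuous_const
    exact h1.inter h2
  have hKk : IsCompact K := by
    have : IsCompact (Set.pi univ fun p : M => Icc (-dist p o) (dist p o)) :=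
      isCompact_univ_pi fun p => isCompact_Icc
    refine this.of_isClosed_subset hKc ?_
    rintro F ⟨h0, h1⟩ p _
    have := h1 p o
    rw [h0, sub_zero, abs_le] at this
    exact this
  have hne : K.Nonempty := ⟨0, rfl, fun p q => by simp⟩
  have hcont : Continuous fun F : M → ℝ => ∑ i, c i * (F (x i) - F (y i)) :=
    continuous_finsetSum _ fun i _ =>
      continuous_const.mul ((continuous_apply _).sub (continuous_apply _))
  obtain ⟨F, hF, hmax⟩ := hKk.exists_isMaxOn hne hcont.continuousOn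
  have hF1 : ∀ p q, |F p - F q| ≤ 1 * dist p q := fun p q => by rw [one_mul]; exact hF.2 p q
  refine ⟨Lip0.mk' F hF.1 1 hF1, Lip0.norm_le zero_le_one hF1, ?_⟩
  set E : ℝ := ∑ i, c i * (F (x i) - F (y i)) with hE
  have happ : ∀ f : Lip0 M o, (∑ i, c i • (delta o (x i) - delta o (y i))).app f =
      ∑ i, c i * (f (x i) - f (y i)) := by
    intro f
    rw [sum_app']
    rfl
  have hK' : ∀ f : Lip0 M o, ‖f‖ ≤ 1 → ∑ i, c i * (f (x i) - f (y i)) ≤ E := by
    intro f hf
    have : (f : M → ℝ) ∈ K := ⟨f.map_base, fun p q => (f.abs_sub_le p q).trans (by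
      have := dist_nonneg (x := p) (y := q); nlinarith)⟩
    exact hmax this
  have hE0 : 0 ≤ E := by
    have h := hK' 0 (by rw [norm_zero]; exact zero_le_one)
    simpa [Lip0.zero_apply] using h
  have hpos : ∀ f : Lip0 M o, (∑ i, c i • (delta o (x i) - delta o (y i))).app f ≤ E * ‖f‖ := by
    intro f
    rw [happ]
    rcases eq_or_ne ‖f‖ 0 with h0 | h0
    · have : f = 0 := norm_eq_zero.1 h0
      rw [this]
      simp [Lip0.zero_apply]
    · have hp : 0 < ‖f‖ := lt_of_le_of_ne (norm_nonneg _) (Ne.symm h0)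
      have h1 : ‖(‖f‖⁻¹) • f‖ ≤ 1 := by
        rw [norm_smul, norm_inv, norm_norm, inv_mul_cancel₀ h0]
      have h2 := hK' _ h1
      have h3 : ∑ i, c i * ((‖f‖⁻¹ • f) (x i) - (‖f‖⁻¹ • f) (y i)) =
          ‖f‖⁻¹ * ∑ i, c i * (f (x i) - f (y i)) := by
        rw [Finset.mul_sum]
        refine Finset.sum_congr rfl fun i _ => ?_
        rw [Lip0.smul_apply, Lip0.smul_apply]; ring
      rw [h3, inv_mul_le_iff₀ hp] at h2
      linarith
  show ‖∑ i, c i • (delta o (x i) - delta o (y i))‖ ≤ E
  refine Free.norm_le hE0 fun f => ?_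
  have key : -(E * ‖f‖) ≤ (∑ i, c i • (delta o (x i) - delta o (y i))).app f := by
    have := hpos (-f)
    rw [norm_neg] at this
    have h2 : (∑ i, c i • (delta o (x i) - delta o (y i))).app (-f) =
        - (∑ i, c i • (delta o (x i) - delta o (y i))).app f := by
      rw [happ, happ, ← Finset.sum_neg_distrib]
      refine Finset.sum_congr rfl fun i _ => ?_
      rw [Lip0.neg_apply, Lip0.neg_apply]; ring
    linarith
  exact abs_le.2 ⟨key, hpos f⟩

end Defs

/-- The set `W₀ = {g_0, g_1, …}`. -/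
noncomputable def W₀ : Set (Free T root) := range g

theorem condA : CondA W₀ := by
  intro ε hε
  refine ⟨ε, hε, ?_⟩
  intro n a x y hne hγ I hI
  set γ : Free T root := ∑ i, a i • mol root (x i) (y i) with hγdef
  rw [← sub_le_iff_le_add']
  have hWne : W₀.Nonempty := ⟨g 0, 0, rfl⟩
  rw [Metric.le_infDist hWne]
  rintro _ ⟨k, rfl⟩
  have hd : ∀ i, 0 < dist (x i) (y i) := fun i => dist_pos.2 (hne i)
  have hγ2 : γ = ∑ i, (a i * (dist (x i) (y i))⁻¹) • (delta root (x i) - delta root (y i)) := by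
    rw [hγdef]
    refine Finset.sum_congr rfl fun i _ => ?_
    unfold mol
    rw [smul_smul]
  obtain ⟨f, hf, hfn⟩ := exists_norming (o := root) (fun i => a i * (dist (x i) (y i))⁻¹) x y
  rw [← hγ2, hγ] at hfn
  have hle : ∀ i, a i * (dist (x i) (y i))⁻¹ * (f (x i) - f (y i)) ≤ |a i| := by
    intro i
    have h1 : |f (x i) - f (y i)| ≤ dist (x i) (y i) :=
      (f.abs_sub_le _ _).trans (by have := (hd i).le; nlinarith)
    calc a i * (dist (x i) (y i))⁻¹ * (f (x i) - f (y i))
        ≤ |a i * (dist (x i) (y i))⁻¹ * (f (x i) - f (y i))| := le_abs_self _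
      _ = |a i| * ((dist (x i) (y i))⁻¹ * |f (x i) - f (y i)|) := by
          rw [abs_mul, abs_mul, abs_of_pos (inv_pos.2 (hd i)), mul_assoc]
      _ ≤ |a i| * 1 := by
          apply mul_le_mul_of_nonneg_left _ (abs_nonneg _)
          rw [inv_mul_le_iff₀ (hd i), mul_one]; exact h1
      _ = |a i| := mul_one _
  have heq : ∀ i, a i * (dist (x i) (y i))⁻¹ * (f (x i) - f (y i)) = |a i| := by
    have h1 : ∑ i, a i * (dist (x i) (y i))⁻¹ * (f (x i) - f (y i)) = ∑ i, |a i| :=
      le_antisymm (Finset.sum_le_sum fun i _ => hle i) hfn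
    have h2 := (Finset.sum_eq_sum_iff_of_le (s := Finset.univ) fun i _ => hle i).1 h1
    exact fun i => h2 i (Finset.mem_univ i)
  set S : Set T := ⋃ i ∈ I, G (x i) (y i) with hSdef
  have hS : IsClosed S := I.finite_toSet.isClosed_biUnion fun i _ => isClosed_G _ _
  obtain ⟨h, hh1, hh⟩ := exists_h hf hS
  have hmol : ∀ i, 0 ≤ a i * (dist (x i) (y i))⁻¹ * (h (x i) - h (y i)) ∧
      (i ∈ I → a i * (dist (x i) (y i))⁻¹ * (h (x i) - h (y i)) = |a i|) := by
    intro i
    have hdi := hd i
    have e := heq i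
    have hGS : i ∈ I → G (x i) (y i) ⊆ S := fun hi => subset_biUnion_of_mem (u := fun i => G (x i) (y i)) hi
    rcases lt_trichotomy (a i) 0 with ha | ha | ha
    · have he : f (x i) - f (y i) = (-1) * dist (x i) (y i) := by
        rw [abs_of_neg ha] at e
        field_simp at e
        have : a i * (f (x i) - f (y i) + dist (x i) (y i)) = 0 := by linarith
        rcases mul_eq_zero.1 this with h0 | h0
        · exact absurd h0 ha.ne
        · linarith
      have hst := h_steep hf hS hh (Or.inr rfl) he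
      constructor
      · have h1 : a i * (dist (x i) (y i))⁻¹ * (h (x i) - h (y i)) =
            (-a i) * (dist (x i) (y i))⁻¹ * ((-1) * (h (x i) - h (y i))) := by ring
        rw [h1]
        exact mul_nonneg (mul_nonneg (by linarith) (inv_nonneg.2 hdi.le)) hst.1
      · intro hi
        rw [hst.2 (hGS hi), abs_of_neg ha]
        field_simp
    · rw [ha]; simp
    · have he : f (x i) - f (y i) = 1 * dist (x i) (y i) := by
        rw [abs_of_pos ha] at e
        field_simp at e
        linarith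
      have hst := h_steep hf hS hh (Or.inl rfl) he
      constructor
      · have h1 : a i * (dist (x i) (y i))⁻¹ * (h (x i) - h (y i)) =
            a i * (dist (x i) (y i))⁻¹ * (1 * (h (x i) - h (y i))) := by ring
        rw [h1]
        exact mul_nonneg (mul_nonneg ha.le (inv_nonneg.2 hdi.le)) hst.1
      · intro hi
        rw [hst.2 (hGS hi), abs_of_pos ha]
        field_simp
  have hγh : ∑ i ∈ I, |a i| ≤ γ.app h := by
    have h1 : γ.app h = ∑ i, a i * (dist (x i) (y i))⁻¹ * (h (x i) - h (y i)) := by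
      rw [hγ2, sum_app']
      rfl
    rw [h1]
    calc ∑ i ∈ I, |a i| = ∑ i ∈ I, a i * (dist (x i) (y i))⁻¹ * (h (x i) - h (y i)) :=
          Finset.sum_congr rfl fun i hi => ((hmol i).2 hi).symm
      _ ≤ ∑ i, a i * (dist (x i) (y i))⁻¹ * (h (x i) - h (y i)) :=
          Finset.sum_le_sum_of_subset_of_nonneg (Finset.subset_univ I) fun i _ _ => (hmol i).1
  have hgh := abs_g_app_le I x y hf hh k
  rw [dist_eq_norm]
  have h3 := (γ - g k).abs_app_le h
  rw [Free.sub_app] at h3
  have h4 : ‖γ - g k‖ * ‖h‖ ≤ ‖γ - g k‖ := by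
    have := norm_nonneg (γ - g k); nlinarith
  have h5 := le_abs_self (γ.app h - (g k).app h)
  have h6 := (abs_le.1 hgh).2
  linarith

end Pool.Agent.V11101.RT
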