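import Pool.Agent.V11101.RTE

/-!
# The set `W₀` is uniformly regular
-/

open Set Filter Topology MeasureTheory
open Pool.Agent.V11101.LF

namespace Pool.Agent.V11101.RT

/-- The part of the tree below a node. -/
def Tn (n : ℕ) (e : C n) : Set T := {p | ∃ x t, pre x n = e ∧ t ∈ Icc 0 (r n) ∧ p = pt x t}

lemma leaf_mem (n : ℕ) (e : C n) : leaf n e ∈ Tn n e :=
  ⟨ext n e, 0, pre_ext n e, ⟨le_rfl, (r_pos n).le⟩, rfl⟩

lemma dist_leaf_le {n : ℕ} {e : C n} {p : T} (hp : p ∈ Tn n e) : dist (leaf n e) p ≤ 2 * r n := by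
  obtain ⟨x, t, hx, ht, rfl⟩ := hp
  unfold leaf
  rw [dist_pt _ _ ⟨le_rfl, zero_le_one⟩ ⟨ht.1, ht.2.trans (r_le_one n)⟩]
  have hu : u (ext n e) x ≤ r n := u_le_of (eq_of_pre ((pre_ext n e).trans hx.symm))
  have h1 : max (max 0 t) (u (ext n e) x) ≤ r n := max_le (max_le (r_pos n).le ht.2) hu
  have := ht.1
  linarith

lemma pre_ext_succ {M n : ℕ} (h : M ≤ n) (c : C n) (a : A n) :
    pre (ext (n + 1) ((c, a) : C n × A n)) M = pre (ext n c) M :=
  pre_congr fun i hi => by rw [ext_succ, Function.update_of_ne (by omega)]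

lemma Tn_anc {M n : ℕ} (h : M ≤ n) (e : C n) : Tn n e ⊆ Tn M (pre (ext n e) M) := by
  rintro p ⟨x, t, hx, ht, rfl⟩
  refine ⟨x, t, ?_, ⟨ht.1, ht.2.trans (r_anti.antitone h)⟩, rfl⟩
  have h1 := eq_of_pre (hx.trans (pre_ext n e).symm)
  exact pre_congr fun i hi => h1 i (by omega)

lemma N_succ_cast (n : ℕ) : (N (n + 1) : ℝ) = N n * (2 * (n + 1)) := by
  show ((N n * (2 * (n + 1)) : ℕ) : ℝ) = _
  push_cast; ring

lemma N_cast_pos (n : ℕ) : (0:ℝ) < N n := by exact_mod_cast N_pos n

lemma N_mul_r (n : ℕ) : (N n : ℝ) * r n = 1 := by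
  unfold r
  have := N_cast_pos n
  field_simp

lemma count_anc (M : ℕ) (F : C M → ℝ) (n : ℕ) (h : M ≤ n) :
    (∑ e : C n, F (pre (ext n e) M)) * N M = (∑ e : C M, F e) * N n := by
  induction n, h using Nat.le_induction with
  | base => simp [pre_ext]
  | succ n h ih =>
    rw [sum_C_succ]
    simp only [pre_ext_succ h]
    simp only [Finset.sum_const, Finset.card_univ, Fintype.card_fin, nsmul_eq_mul]
    rw [← Finset.mul_sum, N_succ_cast]
    have e1 : ∑ i : C n, (F (pre (ext n i) M) + F (pre (ext n i) M)) =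
        2 * ∑ i : C n, F (pre (ext n i) M) := by
      rw [Finset.mul_sum]
      exact Finset.sum_congr rfl fun i _ => by ring
    rw [e1]
    push_cast
    linear_combination (2 * ((n:ℝ) + 1)) * ih

section Reg

open Classical in
/-- `1` if the part of the tree below the node lies in `U`. -/
noncomputable def ins (U : Set T) (n : ℕ) (e : C n) : ℝ := if Tn n e ⊆ U then 1 else 0

lemma ins_nonneg (U : Set T) (n : ℕ) (e : C n) : 0 ≤ ins U n e := by
  unfold ins; split_ifs <;> norm_num

lemma ins_le_one (U : Set T) (n : ℕ) (e : C n) : ins U n e ≤ 1 := by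
  unfold ins; split_ifs <;> norm_num

lemma ins_anc (U : Set T) {M n : ℕ} (h : M ≤ n) (e : C n) :
    ins U M (pre (ext n e) M) ≤ ins U n e := by
  unfold ins
  split_ifs with h1 h2 h2
  · exact le_rfl
  · exact absurd ((Tn_anc h e).trans h1) h2
  · exact zero_le_one
  · exact le_rfl

/-- The proportion of nodes of level `n` below which the tree lies in `U`. -/
noncomputable def beta (U : Set T) (n : ℕ) : ℝ := (∑ e : C n, ins U n e) / N n

lemma beta_le_one (U : Set T) (n : ℕ) : beta U n ≤ 1 := by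
  unfold beta
  rw [div_le_one (N_cast_pos n)]
  calc ∑ e : C n, ins U n e ≤ ∑ e : C n, (1:ℝ) := Finset.sum_le_sum fun e _ => ins_le_one U n e
    _ = N n := by rw [Finset.sum_const, Finset.card_univ, card_C, nsmul_eq_mul, mul_one]

lemma exists_level (U : Set T) {ε : ℝ} (hε : 0 < ε) : ∃ M, ∀ n, beta U n ≤ beta U M + ε := by
  have hb : BddAbove (range (beta U)) := ⟨1, by rintro _ ⟨n, rfl⟩; exact beta_le_one U n⟩
  obtain ⟨M, hM⟩ := exists_lt_of_lt_ciSup (show (⨆ n, beta U n) - ε < ⨆ n, beta U n by linarith)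
  refine ⟨M, fun n => ?_⟩
  have := le_ciSup hb n
  linarith

lemma cyl_mem_nhds (x : X) (n : ℕ) : ∀ᶠ y in 𝓝 x, ∀ i < n, (y : X) i = x i := by
  have h1 : ∀ i, ∀ᶠ y in 𝓝 x, (y : X) i = x i := by
    intro i
    have h2 : Tendsto (fun y : X => y i) (𝓝 x) (𝓝 (x i)) := (continuous_apply i).tendsto x
    rw [nhds_discrete (A i), tendsto_pure] at h2
    exact h2
  have h3 : ∀ᶠ y in 𝓝 x, ∀ i ∈ Finset.range n, (y : X) i = x i :=
    (Finset.range n).eventually_all.2 fun i _ => h1 i
  filter_upwards [h3] with y hy i hi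
  exact hy i (Finset.mem_range.2 hi)

lemma continuous_leaf : Continuous (fun x : X => pt x 0) := by
  rw [continuous_iff_continuousAt]
  intro x
  rw [Metric.continuousAt_iff']
  intro ε hε
  have h00 : (0:ℝ) ∈ Icc (0:ℝ) 1 := ⟨le_rfl, zero_le_one⟩
  obtain ⟨n, hn⟩ := (r_tendsto.eventually_lt_const (show 0 < ε / 2 by linarith)).exists
  filter_upwards [cyl_mem_nhds x n] with y hy
  rw [dist_pt _ _ h00 h00]
  have h1 : u y x ≤ r n := u_le_of hy
  have h2 : max (max 0 0) (u y x) ≤ r n := max_le (max_le (r_pos n).le (r_pos n).le) h1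
  linarith

lemma compact_leaves (M : ℕ) (P : C M → Prop) : IsCompact ((fun x : X => pt x 0) '' {x | P (pre x M)}) := by
  have h1 : IsClosed {x : X | P (pre x M)} := by
    rw [← isOpen_compl_iff, isOpen_iff_mem_nhds]
    intro x hx
    filter_upwards [cyl_mem_nhds x M] with y hy
    show ¬ P (pre y M)
    rw [pre_congr hy]
    exact hx
  exact h1.isCompact.image continuous_leaf

lemma norm_pair_le {n : ℕ} (c : C n) (a b : A n) :
    ‖delta root (leaf (n + 1) ((c, a) : C n × A n)) -
      delta root (leaf (n + 1) ((c, b) : C n × A n))‖ ≤ 2 * r n := by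
  refine (norm_delta_sub_le _ _).trans ?_
  have h00 : (0:ℝ) ∈ Icc (0:ℝ) 1 := ⟨le_rfl, zero_le_one⟩
  unfold leaf
  rw [dist_pt _ _ h00 h00]
  have h1 := u_sib n c a b
  have h2 : max (max 0 0) (u (ext (n + 1) ((c, a) : C n × A n)) (ext (n + 1) ((c, b) : C n × A n)))
      ≤ r n := max_le (max_le (r_pos n).le (r_pos n).le) h1
  linarith

/-- Approximation of `g n` by an element of the free space over `V`. -/
lemma exists_approx (V : Set T) (n : ℕ) (bad : C (n + 1) → ℝ) (hb0 : ∀ e, 0 ≤ bad e)
    (hb1 : ∀ e, ¬ (Tn (n + 1) e ∩ V).Nonempty → 1 ≤ bad e) {δ : ℝ}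
    (hb : ∑ e, bad e ≤ δ * N (n + 1)) :
    ∃ m' ∈ subFree root V, ‖g n - m'‖ ≤ 1 / ((n : ℝ) + 1) + 2 * δ := by
  classical
  have hq : ∀ e : C (n + 1), ∃ q : T, (Tn (n + 1) e ∩ V).Nonempty → q ∈ Tn (n + 1) e ∩ V := by
    intro e
    by_cases h : (Tn (n + 1) e ∩ V).Nonempty
    · exact ⟨h.some, fun _ => h.some_mem⟩
    · exact ⟨root, fun h' => absurd h' h⟩
  choose q hq using hq
  have hn : (0:ℝ) < (n:ℝ) + 1 := by positivity
  set w : C n → Fin (n + 1) → Free T root := fun c j =>
    if (Tn (n + 1) ((c, (j, true)) : C n × A n) ∩ V).Nonempty ∧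
        (Tn (n + 1) ((c, (j, false)) : C n × A n) ∩ V).Nonempty then
      delta root (q ((c, (j, true)) : C n × A n)) - delta root (q ((c, (j, false)) : C n × A n))
    else 0 with hw
  refine ⟨(1 / (2 * ((n : ℝ) + 1))) • ∑ c : C n, ∑ j : Fin (n + 1), w c j, ?_, ?_⟩
  · have hsub : ∀ p ∈ V, delta root p ∈ subFree root V := fun p hp =>
      Submodule.le_topologicalClosure _ (Submodule.subset_span ⟨p, hp, rfl⟩)
    refine Submodule.smul_mem _ _ (Submodule.sum_mem _ fun c _ => Submodule.sum_mem _ fun j _ => ?_)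
    rw [hw]
    show (if (Tn (n + 1) ((c, (j, true)) : C n × A n) ∩ V).Nonempty ∧
        (Tn (n + 1) ((c, (j, false)) : C n × A n) ∩ V).Nonempty then
      delta root (q ((c, (j, true)) : C n × A n)) - delta root (q ((c, (j, false)) : C n × A n))
      else 0) ∈ _
    split_ifs with h
    · exact Submodule.sub_mem _ (hsub _ (hq _ h.1).2) (hsub _ (hq _ h.2).2)
    · exact Submodule.zero_mem _
  · have hterm : ∀ (c : C n) (j : Fin (n + 1)),
        ‖(delta root (leaf (n + 1) ((c, (j, true)) : C n × A n)) -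
          delta root (leaf (n + 1) ((c, (j, false)) : C n × A n))) - w c j‖ ≤
        4 * r (n + 1) + 2 * r n * (bad ((c, (j, true)) : C n × A n) +
          bad ((c, (j, false)) : C n × A n)) := by
      intro c j
      have b1 := hb0 ((c, (j, true)) : C n × A n)
      have b2 := hb0 ((c, (j, false)) : C n × A n)
      have hr := r_pos n
      have hr' := r_pos (n + 1)
      have hp1 := mul_nonneg hr.le b1
      have hp2 := mul_nonneg hr.le b2
      by_cases h1 : (Tn (n + 1) ((c, (j, true)) : C n × A n) ∩ V).Nonempty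
      · by_cases h2 : (Tn (n + 1) ((c, (j, false)) : C n × A n) ∩ V).Nonempty
        · have e : w c j = delta root (q ((c, (j, true)) : C n × A n)) -
              delta root (q ((c, (j, false)) : C n × A n)) := if_pos ⟨h1, h2⟩
          rw [e]
          have e2 : (delta root (leaf (n + 1) ((c, (j, true)) : C n × A n)) -
              delta root (leaf (n + 1) ((c, (j, false)) : C n × A n))) -
              (delta root (q ((c, (j, true)) : C n × A n)) -
              delta root (q ((c, (j, false)) : C n × A n))) =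
              (delta root (leaf (n + 1) ((c, (j, true)) : C n × A n)) -
                delta root (q ((c, (j, true)) : C n × A n))) -
              (delta root (leaf (n + 1) ((c, (j, false)) : C n × A n)) -
              delta root (q ((c, (j, false)) : C n × A n))) := by abel
          rw [e2]
          have a1 := (norm_delta_sub_le (o := root) _ _).trans (dist_leaf_le (hq _ h1).1)
          have a2 := (norm_delta_sub_le (o := root) _ _).trans (dist_leaf_le (hq _ h2).1)
          refine (norm_sub_le _ _).trans ?_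
          linarith
        · have e : w c j = 0 := if_neg fun h => h2 h.2
          rw [e, sub_zero]
          have := hb1 _ h2
          refine (norm_pair_le c _ _).trans ?_
          nlinarith
      · have e : w c j = 0 := if_neg fun h => h1 h.1
        rw [e, sub_zero]
        have := hb1 _ h1
        refine (norm_pair_le c _ _).trans ?_
        nlinarith
    unfold g
    rw [← smul_sub, ← Finset.sum_sub_distrib, norm_smul, Real.norm_of_nonneg (by positivity)]
    have hsum : ‖∑ c : C n, (∑ j : Fin (n + 1),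
        (delta root (leaf (n + 1) ((c, (j, true)) : C n × A n)) -
          delta root (leaf (n + 1) ((c, (j, false)) : C n × A n))) - ∑ j : Fin (n + 1), w c j)‖ ≤
        ∑ c : C n, ∑ j : Fin (n + 1), (4 * r (n + 1) + 2 * r n *
          (bad ((c, (j, true)) : C n × A n) + bad ((c, (j, false)) : C n × A n))) := by
      refine (norm_sum_le _ _).trans (Finset.sum_le_sum fun c _ => ?_)
      rw [← Finset.sum_sub_distrib]
      exact (norm_sum_le _ _).trans (Finset.sum_le_sum fun j _ => hterm c j)
    have hval : ∑ c : C n, ∑ j : Fin (n + 1), (4 * r (n + 1) + 2 * r n *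
          (bad ((c, (j, true)) : C n × A n) + bad ((c, (j, false)) : C n × A n))) =
        N n * ((n + 1) * (4 * r (n + 1))) + 2 * r n * ∑ e, bad e := by
      simp_rw [Finset.sum_add_distrib (f := fun _ => 4 * r (n + 1))]
      rw [Finset.sum_add_distrib, sum_C_succ]
      congr 1
      · simp only [Finset.sum_const, Finset.card_univ, Fintype.card_fin, nsmul_eq_mul, card_C]
        push_cast; ring
      · rw [Finset.mul_sum]
        refine Finset.sum_congr rfl fun c _ => ?_
        rw [Finset.mul_sum]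
    rw [hval] at hsum
    have hr := r_pos n
    have h1 : N n * (((n:ℝ) + 1) * (4 * r (n + 1))) + 2 * r n * ∑ e, bad e ≤
        N n * (((n:ℝ) + 1) * (4 * r (n + 1))) + 2 * r n * (δ * N (n + 1)) := by
      have := mul_le_mul_of_nonneg_left hb (by positivity : 0 ≤ 2 * r n)
      linarith
    have h2 : 1 / (2 * ((n : ℝ) + 1)) * (N n * (((n:ℝ) + 1) * (4 * r (n + 1))) +
        2 * r n * (δ * N (n + 1))) = 1 / ((n : ℝ) + 1) + 2 * δ := by
      rw [N_succ_cast, r_succ]
      have h3 := N_mul_r n
      field_simp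
      linear_combination (4 * (1 + 2 * δ * ((n:ℝ) + 1))) * h3
    rw [← h2]
    exact mul_le_mul_of_nonneg_left (hsum.trans h1) (by positivity)

theorem uniformlyRegular : UniformlyRegular W₀ := by
  intro U hU ε hε
  obtain ⟨M, hM⟩ := exists_level U (show 0 < ε / 4 by linarith)
  obtain ⟨n₁, hn₁⟩ := exists_nat_one_div_lt (show 0 < ε / 2 by linarith)
  set n₀ := max M n₁ with hn₀
  set K1 : Set T := (fun x : X => pt x 0) '' {x | Tn M (pre x M) ⊆ U} with hK1
  set K2 : Set T := U ∩ ⋃ n ∈ Finset.range n₀, range (leaf (n + 1)) with hK2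
  have hK2f : K2.Finite := by
    refine Set.Finite.subset ?_ inter_subset_right
    exact (Finset.range n₀).finite_toSet.biUnion fun n _ => Set.finite_range _
  have hK1U : K1 ⊆ U := by
    rintro _ ⟨x, hx, rfl⟩
    exact hx ⟨x, 0, rfl, ⟨le_rfl, (r_pos M).le⟩, rfl⟩
  refine ⟨K1 ∪ K2, union_subset hK1U inter_subset_left,
    (compact_leaves M fun c => Tn M c ⊆ U).union hK2f.isCompact, ?_⟩
  rintro _ ⟨n, rfl⟩
  rcases lt_or_ge n n₀ with hn | hn
  · -- small n
    refine ⟨g n, ?_, by rw [sub_self, norm_zero]; exact hε.le⟩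
    have hleaf : ∀ e : C (n + 1), leaf (n + 1) e ∈ (K1 ∪ K2) ∪ Uᶜ := by
      intro e
      by_cases h : leaf (n + 1) e ∈ U
      · left; right
        exact ⟨h, mem_iUnion₂.2 ⟨n, Finset.mem_range.2 hn, e, rfl⟩⟩
      · right; exact h
    have hsub : ∀ e : C (n + 1), delta root (leaf (n + 1) e) ∈ subFree root ((K1 ∪ K2) ∪ Uᶜ) :=
      fun e => Submodule.le_topologicalClosure _ (Submodule.subset_span ⟨_, hleaf e, rfl⟩)
    exact Submodule.smul_mem _ _ (Submodule.sum_mem _ fun c _ => Submodule.sum_mem _ fun j _ =>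
      Submodule.sub_mem _ (hsub _) (hsub _))
  · have hMn : M ≤ n + 1 := (le_max_left M n₁).trans (hn.trans (Nat.le_succ n))
    set bad : C (n + 1) → ℝ := fun e => ins U (n + 1) e - ins U M (pre (ext (n + 1) e) M) with hbad
    have hsum : ∑ e, bad e ≤ (ε / 4) * N (n + 1) := by
      have h1 := count_anc M (ins U M) (n + 1) hMn
      have h2 := hM (n + 1)
      unfold beta at h2
      have hN := N_cast_pos (n + 1)
      have hNM := N_cast_pos M
      have h3 : ∑ e : C (n + 1), ins U M (pre (ext (n + 1) e) M) =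
          (∑ e : C M, ins U M e) / N M * N (n + 1) := by
        field_simp
        linarith
      rw [hbad, Finset.sum_sub_distrib, h3]
      rw [div_le_iff₀ hN] at h2
      linarith
    obtain ⟨m', hm', hle⟩ := exists_approx ((K1 ∪ K2) ∪ Uᶜ) n bad
      (fun e => sub_nonneg.2 (ins_anc U hMn e)) (fun e he => by
        have h1 : Tn (n + 1) e ⊆ U := by
          intro p hp
          by_contra hpU
          exact he ⟨p, hp, Or.inr hpU⟩
        have h2 : ¬ Tn M (pre (ext (n + 1) e) M) ⊆ U := by
          intro h2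
          exact he ⟨leaf (n + 1) e, leaf_mem _ _, Or.inl (Or.inl ⟨ext (n + 1) e, h2, rfl⟩)⟩
        rw [hbad]
        show 1 ≤ ins U (n + 1) e - ins U M (pre (ext (n + 1) e) M)
        unfold ins
        rw [if_pos h1, if_neg h2, sub_zero]) hsum
    refine ⟨m', hm', hle.trans ?_⟩
    have h3 : 1 / ((n : ℝ) + 1) ≤ 1 / ((n₁ : ℝ) + 1) := by
      apply one_div_le_one_div_of_le (by positivity)
      have : (n₁ : ℝ) ≤ n := by exact_mod_cast (le_max_right M n₁).trans hn
      linarith
    linarith

end Reg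

end Pool.Agent.V11101.RT
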