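import Pool.Agent.V11101.RTF

/-!
# The set `W₀` is bounded but not relatively weakly compact; the tree is compact
-/

open Set Filter Topology
open Pool.Agent.V11101.LF

namespace Pool.Agent.V11101.RT

/-- Length of `[r (m+1), r m] ∩ [t, ∞)`. -/
noncomputable def incr (m : ℕ) (t : ℝ) : ℝ := max (r m) t - max (r (m + 1)) t

lemma incr_nonneg (m : ℕ) (t : ℝ) : 0 ≤ incr m t := sub_nonneg.2 (max_le_max (r_lt m).le le_rfl)

lemma incr_le (m : ℕ) (t : ℝ) : incr m t ≤ r m - r (m + 1) := by
  unfold incr
  have h := r_lt m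
  rcases le_total (r m) t with h1 | h1
  · rw [max_eq_right h1, max_eq_right (h.le.trans h1)]; linarith
  · rw [max_eq_left h1]
    have := le_max_left (r (m + 1)) t
    linarith

lemma incr_zero (m : ℕ) : incr m 0 = r m - r (m + 1) := by
  unfold incr; rw [max_eq_left (r_pos m).le, max_eq_left (r_pos (m + 1)).le]

lemma incr_eq_zero {m : ℕ} {t : ℝ} (h : r m ≤ t) : incr m t = 0 := by
  unfold incr; rw [max_eq_right h, max_eq_right ((r_lt m).le.trans h), sub_self]

lemma incr_anti (m : ℕ) {s t : ℝ} (h : s ≤ t) : incr m t ≤ incr m s := by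
  have h1 := r_lt m
  unfold incr
  simp only [max_def]
  split_ifs <;> linarith

/-- The signs. -/
noncomputable def cf (K : ℕ) (x : X) (m : ℕ) : ℝ :=
  if K ≤ m then (if (x m).2 then 1 else -1) else 0

lemma abs_cf_le (K : ℕ) (x : X) (m : ℕ) : |cf K x m| ≤ 1 := by
  unfold cf
  split_ifs <;> simp

lemma summable_r : Summable (fun m => r m - r (m + 1)) := by
  refine summable_of_sum_range_le (c := 1) (fun m => sub_nonneg.2 (r_lt m).le) fun L => ?_
  rw [Finset.sum_range_sub', r_zero]
  have := r_pos L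
  linarith

lemma summable_cf (K : ℕ) (x : X) (t : ℝ) : Summable (fun m => cf K x m * incr m t) := by
  refine Summable.of_norm_bounded summable_r fun m => ?_
  rw [Real.norm_eq_abs, abs_mul, abs_of_nonneg (incr_nonneg m t)]
  have h1 := abs_cf_le K x m
  have h2 := incr_nonneg m t
  have h3 := incr_le m t
  nlinarith

lemma abs_tsum_le {f : ℕ → ℝ} (hf : Summable f) {B : ℝ}
    (h : ∀ L, |∑ m ∈ Finset.range L, f m| ≤ B) : |∑' m, f m| ≤ B :=
  le_of_tendsto hf.hasSum.tendsto_sum_nat.abs (Eventually.of_forall h)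

/-- The functions. -/
noncomputable def phi (K : ℕ) (x : X) (t : ℝ) : ℝ := ∑' m, cf K x m * incr m t

lemma phi_sub (K : ℕ) (x : X) {s t : ℝ} (h1 : s ≤ t) (h2 : t ≤ 1) :
    |phi K x s - phi K x t| ≤ t - s := by
  unfold phi
  rw [← (summable_cf K x s).tsum_sub (summable_cf K x t)]
  refine abs_tsum_le ((summable_cf K x s).sub (summable_cf K x t)) fun L => ?_
  calc |∑ m ∈ Finset.range L, (cf K x m * incr m s - cf K x m * incr m t)|
      ≤ ∑ m ∈ Finset.range L, |cf K x m * incr m s - cf K x m * incr m t| :=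
        Finset.abs_sum_le_sum_abs _ _
    _ ≤ ∑ m ∈ Finset.range L, (incr m s - incr m t) := by
        refine Finset.sum_le_sum fun m _ => ?_
        have h3 := incr_anti m h1
        rw [← mul_sub, abs_mul, abs_of_nonneg (sub_nonneg.2 h3)]
        have := abs_cf_le K x m
        nlinarith
    _ = (max (r 0) s - max (r L) s) - (max (r 0) t - max (r L) t) := by
        rw [Finset.sum_sub_distrib]
        unfold incr
        rw [Finset.sum_range_sub' (fun m => max (r m) s), Finset.sum_range_sub' (fun m => max (r m) t)]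
    _ ≤ t - s := by
        rw [r_zero, max_eq_left (h1.trans h2), max_eq_left h2]
        have h4 := r_pos L
        simp only [max_def]
        split_ifs <;> linarith

lemma abs_phi_le (K : ℕ) (x : X) (t : ℝ) : |phi K x t| ≤ r K := by
  unfold phi
  refine abs_tsum_le (summable_cf K x t) fun L => ?_
  refine (Finset.abs_sum_le_sum_abs _ _).trans ?_
  have key : ∀ L, ∑ m ∈ Finset.range L, |cf K x m * incr m t| ≤ r K - r (max K L) := by
    intro L
    induction L with
    | zero => simp
    | succ L ih =>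
      rw [Finset.sum_range_succ]
      rcases lt_or_ge L K with h | h
      · have e : cf K x L = 0 := if_neg (not_le.2 h)
        rw [e, zero_mul, abs_zero, add_zero, max_eq_left (by omega : L + 1 ≤ K)]
        rwa [max_eq_left h.le] at ih
      · rw [max_eq_right (by omega : K ≤ L + 1)]
        rw [max_eq_right h] at ih
        have h1 := abs_cf_le K x L
        have h2 := incr_nonneg L t
        have h3 := incr_le L t
        rw [abs_mul, abs_of_nonneg h2]
        nlinarith
  have := r_pos (max K L)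
  linarith [key L]

lemma exists_fK (K : ℕ) : ∃ f : Lip0 T root, ‖f‖ ≤ 1 ∧
    ∀ x, ∀ t ∈ Icc (0:ℝ) 1, f (pt x t) = phi K x t := by
  refine exists_lip (phi K) ?_ ?_ ?_
  · intro x
    unfold phi
    have : (fun m => cf K x m * incr m 1) = fun _ => 0 := by
      ext m; rw [incr_eq_zero (r_le_one m), mul_zero]
    rw [this, tsum_zero]
  · intro x s t _ h1 h2
    exact phi_sub K x h1 h2
  · intro x y t h0 h1 h2
    unfold phi
    congr 1
    ext m
    by_cases h : x m = y m
    · unfold cf; rw [h]
    · rw [incr_eq_zero ((le_u_of h).trans h2), mul_zero, mul_zero]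

lemma g_phi {K n : ℕ} (h : K ≤ n) {f : Lip0 T root}
    (hf : ∀ x, ∀ t ∈ Icc (0:ℝ) 1, f (pt x t) = phi K x t) : 1 / 2 ≤ (g n).app f := by
  have h00 : (0:ℝ) ∈ Icc (0:ℝ) 1 := ⟨le_rfl, zero_le_one⟩
  have hpair : ∀ (c : C n) (j : Fin (n + 1)), f (leaf (n + 1) ((c, (j, true)) : C n × A n)) -
      f (leaf (n + 1) ((c, (j, false)) : C n × A n)) = 2 * (r n - r (n + 1)) := by
    intro c j
    unfold leaf
    rw [hf _ 0 h00, hf _ 0 h00, ext_succ, ext_succ]
    unfold phi
    rw [← (summable_cf K _ 0).tsum_sub (summable_cf K _ 0), tsum_eq_single n]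
    · unfold cf
      rw [if_pos h, if_pos h, Function.update_self, Function.update_self, incr_zero]
      simp
      ring
    · intro m hm
      unfold cf
      rw [Function.update_of_ne hm, Function.update_of_ne hm, sub_self]
  rw [g_app]
  simp_rw [hpair]
  simp only [Finset.sum_const, Finset.card_univ, Fintype.card_fin, nsmul_eq_mul, card_C]
  have h1 := N_mul_r n
  have h2 := r_succ_le_half n
  have hN := N_cast_pos n
  push_cast
  have e : 1 / (2 * ((n:ℝ) + 1)) * ((N n : ℝ) * (((n:ℝ) + 1) * (2 * (r n - r (n + 1))))) =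
      N n * (r n - r (n + 1)) := by
    field_simp
  rw [e]
  nlinarith

lemma norm_g_le (n : ℕ) : ‖g n‖ ≤ 1 := by
  unfold g
  rw [norm_smul, Real.norm_of_nonneg (by positivity)]
  have h1 : ‖∑ c : C n, ∑ j : Fin (n + 1),
      (delta root (leaf (n + 1) ((c, (j, true)) : C n × A n)) -
      delta root (leaf (n + 1) ((c, (j, false)) : C n × A n)))‖ ≤
      ∑ c : C n, ∑ j : Fin (n + 1), 2 * r n :=
    (norm_sum_le _ _).trans (Finset.sum_le_sum fun c _ =>
      (norm_sum_le _ _).trans (Finset.sum_le_sum fun j _ => norm_pair_le c _ _))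
  have h2 : ∑ c : C n, ∑ j : Fin (n + 1), 2 * r n = N n * (((n:ℝ) + 1) * (2 * r n)) := by
    simp only [Finset.sum_const, Finset.card_univ, Fintype.card_fin, nsmul_eq_mul, card_C]
    push_cast; ring
  rw [h2] at h1
  have h3 := N_mul_r n
  calc 1 / (2 * ((n:ℝ) + 1)) * _ ≤ 1 / (2 * ((n:ℝ) + 1)) * (N n * (((n:ℝ) + 1) * (2 * r n))) :=
        mul_le_mul_of_nonneg_left h1 (by positivity)
    _ = N n * r n := by field_simp
    _ = 1 := h3
    _ ≤ 1 := le_rfl

theorem bounded : Bornology.IsBounded W₀ := by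
  refine (Metric.isBounded_closedBall (x := (0 : Free T root)) (r := 1)).subset ?_
  rintro _ ⟨n, rfl⟩
  rw [mem_closedBall_zero_iff]
  exact norm_g_le n

lemma tendsto_app {f : ℕ → Lip0 T root} (hn : ∀ K, ‖f K‖ ≤ 1)
    (hf : ∀ K x, ∀ t ∈ Icc (0:ℝ) 1, f K (pt x t) = phi K x t) (m : Free T root) :
    Tendsto (fun K => m.app (f K)) atTop (𝓝 0) := by
  let V : Submodule ℝ (Free T root) :=
    { carrier := {m | Tendsto (fun K => m.app (f K)) atTop (𝓝 0)}
      add_mem' := by
        intro a b ha hb
        have := Tendsto.add ha hb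
        rw [add_zero] at this
        exact this
      zero_mem' := tendsto_const_nhds
      smul_mem' := by
        intro c a ha
        have := Tendsto.const_mul c ha
        rw [mul_zero] at this
        exact this }
  refine mem_of_closed V ?_ ?_ m
  · refine isClosed_of_closure_subset fun a ha => ?_
    show Tendsto (fun K => a.app (f K)) atTop (𝓝 0)
    rw [Metric.tendsto_atTop]
    intro ε hε
    rw [Metric.mem_closure_iff] at ha
    obtain ⟨b, hb, hab⟩ := ha (ε / 2) (by linarith)
    obtain ⟨K₀, hK₀⟩ := (Metric.tendsto_atTop.1 (show Tendsto (fun K => b.app (f K)) atTop (𝓝 0)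
      from hb)) (ε / 2) (by linarith)
    refine ⟨K₀, fun K hK => ?_⟩
    have h1 := hK₀ K hK
    rw [Real.dist_eq, sub_zero] at h1 ⊢
    have h2 := (a - b).abs_app_le (f K)
    rw [Free.sub_app, ← dist_eq_norm] at h2
    have h3 : dist a b * ‖f K‖ ≤ dist a b := by
      have := dist_nonneg (x := a) (y := b)
      have := hn K
      nlinarith
    calc |a.app (f K)| = |(a.app (f K) - b.app (f K)) + b.app (f K)| := by rw [sub_add_cancel]
      _ ≤ |a.app (f K) - b.app (f K)| + |b.app (f K)| := abs_add_le _ _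
      _ < ε := by linarith
  · intro p
    obtain ⟨x, t, htt, rfl⟩ := exists_pt p
    show Tendsto (fun K => (delta root (pt x t)).app (f K)) atTop (𝓝 0)
    refine squeeze_zero_norm (fun K => ?_) r_tendsto
    rw [delta_app, hf K x t htt, Real.norm_eq_abs]
    exact abs_phi_le K x t

theorem not_relWeaklyCompact : ¬ RelWeaklyCompact W₀ := by
  intro hc
  choose f hn hf using exists_fK
  have hmem : ∀ n, toWeakSpace ℝ (Free T root) (g n) ∈
      closure (toWeakSpace ℝ (Free T root) '' W₀) := fun n => subset_closure ⟨g n, ⟨n, rfl⟩, rfl⟩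
  obtain ⟨z, _, hz⟩ := hc.exists_mapClusterPt_of_frequently
    (l := atTop) (f := fun n => toWeakSpace ℝ (Free T root) (g n))
    (Eventually.frequently (Eventually.of_forall hmem))
  set w : Free T root := (toWeakSpace ℝ (Free T root)).symm z with hw
  have hval : ∀ K, 1 / 2 ≤ w.app (f K) := by
    intro K
    by_contra hlt
    push Not at hlt
    have hcont : Continuous (fun v : WeakSpace ℝ (Free T root) =>
        (pair (f K)) ((toWeakSpace ℝ (Free T root)).symm v)) :=
      WeakBilin.eval_continuous (topDualPairing ℝ (Free T root)).flip (pair (f K))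
    have hopen : {v : WeakSpace ℝ (Free T root) |
        (pair (f K)) ((toWeakSpace ℝ (Free T root)).symm v) < 1 / 2} ∈ 𝓝 z :=
      (isOpen_lt hcont continuous_const).mem_nhds hlt
    have h1 := (mapClusterPt_iff_frequently.1 hz) _ hopen
    obtain ⟨n, hn1, hn2⟩ := (h1.and_eventually (eventually_ge_atTop K)).exists
    have h3 : (pair (f K)) ((toWeakSpace ℝ (Free T root)).symm
        (toWeakSpace ℝ (Free T root) (g n))) < 1 / 2 := hn1
    rw [LinearEquiv.symm_apply_apply, pair_apply] at h3
    linarith [g_phi hn2 (hf K)]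
  have h2 := tendsto_app hn hf w
  have h3 := ge_of_tendsto h2 (Eventually.of_forall hval)
  linarith

/-! ### Compactness -/

instance : CompactSpace T := by
  have hcont : Continuous (fun p : X × Icc (0:ℝ) 1 => pt p.1 p.2) := by
    rw [continuous_iff_continuousAt]
    rintro ⟨x, s⟩
    rw [Metric.continuousAt_iff']
    intro ε hε
    obtain ⟨n, hn⟩ := (r_tendsto.eventually_lt_const (show 0 < ε / 4 by linarith)).exists
    have h1 : ∀ᶠ p in 𝓝 ((x, s) : X × Icc (0:ℝ) 1), ∀ i < n, (p : X × Icc (0:ℝ) 1).1 i = x i :=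
      (continuous_fst.tendsto ((x, s) : X × Icc (0:ℝ) 1)).eventually (cyl_mem_nhds x n)
    have h2 : ∀ᶠ p in 𝓝 ((x, s) : X × Icc (0:ℝ) 1), dist (p : X × Icc (0:ℝ) 1).2 s < ε / 2 :=
      (continuous_snd.tendsto ((x, s) : X × Icc (0:ℝ) 1)).eventually
        (Metric.ball_mem_nhds s (by linarith))
    filter_upwards [h1, h2] with p hp1 hp2
    have h3 : dist (pt p.1 p.2) (pt x p.2) ≤ 2 * r n := by
      rw [dist_pt _ _ p.2.2 p.2.2, max_self]
      have hu := u_le_of hp1
      have h0 := p.2.2.1
      have h4 : max (p.2 : ℝ) (u p.1 x) ≤ p.2 + u p.1 x :=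
        max_le (by linarith [u_nonneg p.1 x]) (by linarith)
      linarith
    have h4 : dist (pt x p.2) (pt x s) = dist p.2 s := by
      rw [dist_pt_same x p.2.2 s.2]; rfl
    have h5 := dist_triangle (pt p.1 p.2) (pt x p.2) (pt x s)
    show dist (pt p.1 p.2) (pt x s) < ε
    linarith
  refine ⟨?_⟩
  have h := isCompact_univ.image hcont
  have e : (fun p : X × Icc (0:ℝ) 1 => pt p.1 p.2) '' univ = univ := by
    rw [image_univ, range_eq_univ]
    intro p
    obtain ⟨x, t, htt, rfl⟩ := exists_pt p
    exact ⟨(x, ⟨t, htt⟩), rfl⟩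
  rwa [e] at h

end Pool.Agent.V11101.RT
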