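import Mathlib

/-! Combinatorial part: Littlewood–Offord bound via Sperner, union bound. -/

namespace Pool.Agent.V11101.Rc

open Finset

lemma cb_bound (m : ℕ) : (Nat.centralBinom m) ^ 2 * (2 * m + 1) ≤ 16 ^ m := by
  induction m with
  | zero => simp
  | succ m ih =>
    have h := Nat.succ_mul_centralBinom_succ m
    -- (m+1) * cb (m+1) = 2*(2m+1) * cb m
    have h2 : (m + 1) ^ 2 * ((Nat.centralBinom (m + 1)) ^ 2 * (2 * (m + 1) + 1))
        = (4 * (2 * m + 1) * (2 * m + 3)) * ((Nat.centralBinom m) ^ 2 * (2 * m + 1)) := by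
      have : (m + 1) ^ 2 * ((Nat.centralBinom (m + 1)) ^ 2 * (2 * (m + 1) + 1))
          = ((m + 1) * Nat.centralBinom (m + 1)) ^ 2 * (2 * (m + 1) + 1) := by ring
      rw [this, h]; ring
    have h3 : (m + 1) ^ 2 * ((Nat.centralBinom (m + 1)) ^ 2 * (2 * (m + 1) + 1))
        ≤ (m + 1) ^ 2 * 16 ^ (m + 1) := by
      rw [h2]
      calc (4 * (2 * m + 1) * (2 * m + 3)) * ((Nat.centralBinom m) ^ 2 * (2 * m + 1))
          ≤ (16 * (m + 1) ^ 2) * 16 ^ m := by
            apply Nat.mul_le_mul _ ih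
            nlinarith
        _ = (m + 1) ^ 2 * 16 ^ (m + 1) := by ring
    exact Nat.le_of_mul_le_mul_left h3 (by positivity)

/-- Littlewood–Offord on the full index set. -/
lemma lo_core {ι : Type*} [Fintype ι] [DecidableEq ι] (a : ι → ℝ) (α : ℝ)
    (ha : ∀ j, α ≤ a j) (hα : 0 < α) (u : ℝ) (𝒜 : Finset (Finset ι))
    (h𝒜 : ∀ b ∈ 𝒜, |u + ∑ j ∈ b, a j| < α / 2) :
    𝒜.card ≤ (Fintype.card ι).choose (Fintype.card ι / 2) := by
  apply IsAntichain.sperner
  intro b hb c hc hne hsub
  have hb' := h𝒜 b hb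
  have hc' := h𝒜 c hc
  have hss : b ⊂ c := lt_of_le_of_ne hsub hne
  obtain ⟨j, hjc, hjb⟩ := Finset.exists_of_ssubset hss
  have h1 : ∑ i ∈ insert j b, a i ≤ ∑ i ∈ c, a i := by
    apply Finset.sum_le_sum_of_subset_of_nonneg
    · exact Finset.insert_subset hjc hsub
    · intro i _ _; exact (hα.le).trans (ha i)
  rw [Finset.sum_insert hjb] at h1
  have h2 := ha j
  rw [abs_lt] at hb' hc'
  linarith

/-- Littlewood–Offord with only a subset `P` of large weights. -/
lemma lo_subset {ι : Type*} [Fintype ι] [DecidableEq ι] (a : ι → ℝ) (α : ℝ) (P : Finset ι)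
    (ha : ∀ j ∈ P, α ≤ a j) (hα : 0 < α) (u : ℝ) (𝒜 : Finset (Finset ι))
    (h𝒜 : ∀ b ∈ 𝒜, |u + ∑ j ∈ b, a j| < α / 2) :
    𝒜.card ≤ 2 ^ (Fintype.card ι - P.card) * (P.card).choose (P.card / 2) := by
  classical
  -- fibre over b \ P
  have hfib : 𝒜.card ≤ (Pᶜ).powerset.card * (P.card).choose (P.card / 2) := by
    have hmap : ∀ b ∈ 𝒜, b \ P ∈ (Pᶜ).powerset := by
      intro b _
      rw [Finset.mem_powerset]
      intro x hx
      rw [Finset.mem_sdiff] at hx
      simpa using hx.2
    have := Finset.card_le_mul_card_image_of_maps_to (s := 𝒜) (t := (Pᶜ).powerset)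
      (f := fun b => b \ P) hmap ((P.card).choose (P.card / 2)) ?_
    · rw [mul_comm]; exact this
    · intro c hc
      -- the fibre
      set ℱ := 𝒜.filter (fun b => b \ P = c) with hℱ
      let φ : Finset ι → Finset {x // x ∈ P} := fun b => b.subtype (fun x => x ∈ P)
      have hinj : Set.InjOn φ ℱ := by
        intro b hb b' hb' he
        have hb1 : b \ P = c := (Finset.mem_filter.mp hb).2
        have hb1' : b' \ P = c := (Finset.mem_filter.mp hb').2
        ext x
        by_cases hxP : x ∈ P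
        · have : (⟨x, hxP⟩ : {x // x ∈ P}) ∈ φ b ↔ (⟨x, hxP⟩ : {x // x ∈ P}) ∈ φ b' := by rw [he]
          simpa [φ] using this
        · have e1 : x ∈ b ↔ x ∈ b \ P := by simp [hxP]
          have e2 : x ∈ b' ↔ x ∈ b' \ P := by simp [hxP]
          rw [e1, e2, hb1, hb1']
      have hcard : (ℱ.image φ).card = ℱ.card := Finset.card_image_of_injOn hinj
      have hlo := lo_core (ι := {x // x ∈ P}) (fun j => a j.1) α (fun j => ha j.1 j.2) hα
        (u + ∑ j ∈ c, a j) (ℱ.image φ) ?_
      · rw [hcard] at hlo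
        simpa using hlo
      · intro B hB
        obtain ⟨b, hb, rfl⟩ := Finset.mem_image.mp hB
        have hb1 : b \ P = c := (Finset.mem_filter.mp hb).2
        have hb2 := h𝒜 b (Finset.mem_filter.mp hb).1
        have hsum : ∑ j ∈ φ b, a j.1 = ∑ j ∈ b.filter (fun x => x ∈ P), a j := by
          rw [← Finset.sum_subtype_of_mem (p := fun x => x ∈ P) (s := b.filter (fun x => x ∈ P))
            (f := a) (fun x hx => (Finset.mem_filter.mp hx).2)]
          apply Finset.sum_congr
          · ext x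
            simp [φ]
          · intros; rfl
        have hsplit : ∑ j ∈ b, a j = ∑ j ∈ b.filter (fun x => x ∈ P), a j + ∑ j ∈ b \ P, a j := by
          rw [← Finset.sum_filter_add_sum_filter_not b (fun x => x ∈ P)]
          congr 1
          apply Finset.sum_congr
          · ext x; simp
          · intros; rfl
        rw [hsum, ← hb1]
        rw [hsplit] at hb2
        have : u + ∑ j ∈ b \ P, a j + ∑ j ∈ b.filter (fun x => x ∈ P), a j
          = u + (∑ j ∈ b.filter (fun x => x ∈ P), a j + ∑ j ∈ b \ P, a j) := by ring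
        rw [this]; exact hb2
  rw [Finset.card_powerset, Finset.card_compl] at hfib
  exact hfib

/-- Signed version. -/
lemma lo_signed {ι : Type*} [Fintype ι] [DecidableEq ι] (a : ι → ℝ) (α : ℝ) (P : Finset ι)
    (ha : (∀ j ∈ P, α ≤ a j) ∨ (∀ j ∈ P, a j ≤ -α)) (hα : 0 < α) (u : ℝ)
    (𝒜 : Finset (Finset ι))
    (h𝒜 : ∀ b ∈ 𝒜, |u + ∑ j ∈ b, a j| < α / 2) :
    𝒜.card ≤ 2 ^ (Fintype.card ι - P.card) * (P.card).choose (P.card / 2) := by
  rcases ha with ha | ha
  · exact lo_subset a α P ha hα u 𝒜 h𝒜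
  · apply lo_subset (fun j => -a j) α P (fun j hj => by have := ha j hj; linarith) hα (-u) 𝒜
    intro b hb
    have := h𝒜 b hb
    rw [Finset.sum_neg_distrib, ← neg_add, abs_neg]
    exact this

/-- Union bound over a finite net. -/
lemma union_bound {ι κ : Type*} [Fintype ι] [DecidableEq ι] (n : ℕ) (N : Finset κ)
    (B : Fin n → κ → Finset (Finset ι)) (β : ℕ) (hβ : ∀ k, ∀ c ∈ N, (B k c).card ≤ β)
    (hlt : N.card * β ^ n < (2 ^ Fintype.card ι) ^ n) :
    ∃ b : Fin n → Finset ι, ∀ c ∈ N, ∃ k, b k ∉ B k c := by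
  classical
  by_contra hcon
  push Not at hcon
  have hcover : (Finset.univ : Finset (Fin n → Finset ι)) ⊆
      N.biUnion (fun c => Fintype.piFinset (fun k => B k c)) := by
    intro b _
    obtain ⟨c, hc, hb⟩ := hcon b
    rw [Finset.mem_biUnion]
    exact ⟨c, hc, by rw [Fintype.mem_piFinset]; exact hb⟩
  have h1 := Finset.card_le_card hcover
  have h2 : (N.biUnion (fun c => Fintype.piFinset (fun k => B k c))).card ≤ N.card * β ^ n := by
    apply Finset.card_biUnion_le_card_mul
    intro c hc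
    rw [Fintype.card_piFinset]
    calc ∏ k, (B k c).card ≤ ∏ _k : Fin n, β := Finset.prod_le_prod' (fun k _ => hβ k c hc)
      _ = β ^ n := by simp
  have h3 : (Finset.univ : Finset (Fin n → Finset ι)).card = (2 ^ Fintype.card ι) ^ n := by
    rw [Finset.card_univ, Fintype.card_fun]; simp
  omega

/-- Selecting many indices of one sign with large absolute value. -/
lemma select {J : ℕ} (a : Fin J → ℝ) (c D : ℝ) (hc : 0 < c) (hD : 0 < D) (hJ : 0 < J)
    (hsum : c ≤ ∑ j, |a j|) (hle : ∀ j, |a j| ≤ D) (m : ℕ)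
    (hm : (2 * m : ℝ) ≤ c / (4 * D)) :
    ∃ P : Finset (Fin J), P.card = 2 * m ∧
      ((∀ j ∈ P, c / (2 * J) ≤ a j) ∨ (∀ j ∈ P, a j ≤ -(c / (2 * J)))) := by
  classical
  have hJr : (0 : ℝ) < J := by exact_mod_cast hJ
  set α := c / (2 * J) with hα
  have hα0 : 0 < α := by positivity
  set Pp := Finset.univ.filter (fun j => α ≤ a j) with hPp
  set Pm := Finset.univ.filter (fun j => a j ≤ -α) with hPm
  have hpt : ∀ j, |a j| ≤ α + (if α ≤ a j then D else 0) + (if a j ≤ -α then D else 0) := by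
    intro j
    have hDj := hle j
    split_ifs with h1 h2 h2
    · linarith
    · linarith
    · linarith
    · push Not at h1 h2
      rw [add_zero, add_zero]
      exact (abs_lt.mpr ⟨h2, h1⟩).le
  have hs : ∑ j, |a j| ≤ J * α + D * Pp.card + D * Pm.card := by
    calc ∑ j, |a j| ≤ ∑ j, (α + (if α ≤ a j then D else 0) + (if a j ≤ -α then D else 0)) :=
          Finset.sum_le_sum (fun j _ => hpt j)
      _ = J * α + D * Pp.card + D * Pm.card := by
          rw [Finset.sum_add_distrib, Finset.sum_add_distrib, Finset.sum_const, Finset.card_univ,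
            Fintype.card_fin, nsmul_eq_mul, ← Finset.sum_filter, ← Finset.sum_filter,
            Finset.sum_const, Finset.sum_const, nsmul_eq_mul, nsmul_eq_mul]
          ring
  have hJα : (J : ℝ) * α = c / 2 := by rw [hα]; field_simp
  have hcards : c / (2 * D) ≤ Pp.card + Pm.card := by
    have : c / 2 ≤ D * (Pp.card + Pm.card) := by linarith
    rw [div_le_iff₀ (by positivity)]
    nlinarith
  have hdich : (c / (4 * D) ≤ Pp.card) ∨ (c / (4 * D) ≤ Pm.card) := by
    by_contra hcon
    push Not at hcon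
    have : c / (4 * D) + c / (4 * D) = c / (2 * D) := by field_simp; ring
    linarith [hcon.1, hcon.2]
  rcases hdich with h | h
  · have h' : 2 * m ≤ Pp.card := by
      have : ((2 * m : ℕ) : ℝ) ≤ Pp.card := by push_cast; linarith
      exact_mod_cast this
    obtain ⟨P, hPs, hPc⟩ := Finset.exists_subset_card_eq h'
    exact ⟨P, hPc, Or.inl (fun j hj => (Finset.mem_filter.mp (hPs hj)).2)⟩
  · have h' : 2 * m ≤ Pm.card := by
      have : ((2 * m : ℕ) : ℝ) ≤ Pm.card := by push_cast; linarith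
      exact_mod_cast this
    obtain ⟨P, hPs, hPc⟩ := Finset.exists_subset_card_eq h'
    exact ⟨P, hPc, Or.inr (fun j hj => (Finset.mem_filter.mp (hPs hj)).2)⟩

end Pool.Agent.V11101.Rc
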