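import Mathlib

/-! One-dimensional analytic part: marginals of magnified copies on intervals. -/

namespace Pool.Agent.V11101.Rc

open MeasureTheory Set Finset
open scoped symmDiff

/-- The affine preimage. -/
def pre (S : Set ℝ) (r x : ℝ) : Set ℝ := {z | r * z + x ∈ S}

lemma measurable_pre {S : Set ℝ} (hS : MeasurableSet S) (r x : ℝ) :
    MeasurableSet (pre S r x) := by
  have : Measurable (fun z : ℝ => r * z + x) := by fun_prop
  exact this hS

/-- The measured quantity. -/
noncomputable def G (ν : Measure ℝ) (S : Set ℝ) (r x : ℝ) : ℝ := ν.real (pre S r x)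

noncomputable def H (F : ℝ → ℝ) (A : Set ℝ) (r x : ℝ) : ℝ := ∫ z in pre A r x, F z

/-- Regularity: the measured quantity is Lipschitz in a strong sense. -/
def Reg (ν : Measure ℝ) (C : ℝ) (S : Set ℝ) : Prop :=
  MeasurableSet S ∧ ∀ r s x y : ℝ, 1 ≤ r → 1 ≤ s →
    ν.real (pre S r x ∆ pre S s y) ≤ C * (|r - s| + |x - y|)

lemma Reg.lip {ν : Measure ℝ} [IsFiniteMeasure ν] {C : ℝ} {S : Set ℝ} (h : Reg ν C S)
    {r s x y : ℝ} (hr : 1 ≤ r) (hs : 1 ≤ s) :
    |G ν S r x - G ν S s y| ≤ C * (|r - s| + |x - y|) :=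
  (abs_measureReal_sub_le_measureReal_symmDiff (measurable_pre h.1 r x).nullMeasurableSet
    (measurable_pre h.1 s y).nullMeasurableSet).trans (h.2 r s x y hr hs)

lemma Reg.union {ν : Measure ℝ} [IsFiniteMeasure ν] {C D : ℝ} {S T : Set ℝ} (h : Reg ν C S)
    (h' : Reg ν D T) : Reg ν (C + D) (S ∪ T) := by
  refine ⟨h.1.union h'.1, fun r s x y hr hs => ?_⟩
  have hsub : pre (S ∪ T) r x ∆ pre (S ∪ T) s y ⊆
      (pre S r x ∆ pre S s y) ∪ (pre T r x ∆ pre T s y) := by
    intro z hz
    simp only [pre, Set.mem_symmDiff, Set.mem_ofPred_eq, Set.mem_union] at hz ⊢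
    tauto
  calc ν.real (pre (S ∪ T) r x ∆ pre (S ∪ T) s y)
      ≤ ν.real ((pre S r x ∆ pre S s y) ∪ (pre T r x ∆ pre T s y)) := measureReal_mono hsub
    _ ≤ ν.real (pre S r x ∆ pre S s y) + ν.real (pre T r x ∆ pre T s y) :=
        measureReal_union_le _ _
    _ ≤ C * (|r - s| + |x - y|) + D * (|r - s| + |x - y|) :=
        add_le_add (h.2 r s x y hr hs) (h'.2 r s x y hr hs)
    _ = (C + D) * (|r - s| + |x - y|) := by ring

lemma Reg.diff {ν : Measure ℝ} [IsFiniteMeasure ν] {C D : ℝ} {S T : Set ℝ} (h : Reg ν C S)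
    (h' : Reg ν D T) : Reg ν (C + D) (S \ T) := by
  refine ⟨h.1.diff h'.1, fun r s x y hr hs => ?_⟩
  have hsub : pre (S \ T) r x ∆ pre (S \ T) s y ⊆
      (pre S r x ∆ pre S s y) ∪ (pre T r x ∆ pre T s y) := by
    intro z hz
    simp only [pre, Set.mem_symmDiff, Set.mem_ofPred_eq, Set.mem_union, Set.mem_sdiff] at hz ⊢
    tauto
  calc ν.real (pre (S \ T) r x ∆ pre (S \ T) s y)
      ≤ ν.real ((pre S r x ∆ pre S s y) ∪ (pre T r x ∆ pre T s y)) := measureReal_mono hsub
    _ ≤ ν.real (pre S r x ∆ pre S s y) + ν.real (pre T r x ∆ pre T s y) :=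
        measureReal_union_le _ _
    _ ≤ C * (|r - s| + |x - y|) + D * (|r - s| + |x - y|) :=
        add_le_add (h.2 r s x y hr hs) (h'.2 r s x y hr hs)
    _ = (C + D) * (|r - s| + |x - y|) := by ring

lemma Reg.empty (ν : Measure ℝ) : Reg ν 0 ∅ := by
  refine ⟨MeasurableSet.empty, fun r s x y _ _ => ?_⟩
  have : pre ∅ r x ∆ pre ∅ s y = ∅ := by ext z; simp [pre, Set.mem_symmDiff]
  rw [this]; simp

lemma Reg.mono {ν : Measure ℝ} {C D : ℝ} {S : Set ℝ} (h : Reg ν C S) (hCD : C ≤ D) :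
    Reg ν D S :=
  ⟨h.1, fun r s x y hr hs => (h.2 r s x y hr hs).trans
    (mul_le_mul_of_nonneg_right hCD (by positivity))⟩

lemma Reg.biUnion {ν : Measure ℝ} [IsFiniteMeasure ν] {D : ℝ} (hD : 0 ≤ D) {ι : Type*}
    [DecidableEq ι] (s : Finset ι) (A : ι → Set ℝ) (h : ∀ i ∈ s, Reg ν D (A i)) :
    Reg ν (s.card * D) (⋃ i ∈ s, A i) := by
  induction s using Finset.induction_on with
  | empty => simpa using Reg.empty ν
  | insert a s has ih =>
    rw [Finset.set_biUnion_insert, Finset.card_insert_of_notMem has]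
    have h1 := h a (Finset.mem_insert_self a s)
    have h2 := ih (fun i hi => h i (Finset.mem_insert_of_mem hi))
    have := h1.union h2
    refine this.mono ?_
    push_cast; nlinarith

section interval

variable (ν : Measure ℝ) [IsFiniteMeasure ν] (B ρ : ℝ)

lemma reg_Ico (hB : 0 ≤ B) (hρ : 0 ≤ ρ) (hν : ∀ a b : ℝ, a ≤ b → ν.real (Icc a b) ≤ B * (b - a))
    (hsupp : ν (Icc (-ρ) ρ)ᶜ = 0) (a b : ℝ) : Reg ν (4 * B * (ρ + 1)) (Ico a b) := by
  refine ⟨measurableSet_Ico, fun r s x y hr hs => ?_⟩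
  set η := ρ * |r - s| + |x - y| with hη
  have hη0 : 0 ≤ η := by positivity
  have hr0 : 0 < r := by linarith
  have hsub : pre (Ico a b) r x ∆ pre (Ico a b) s y ⊆ (Icc (-ρ) ρ)ᶜ ∪
      (Icc ((a - x - η) / r) ((a - x + η) / r) ∪ Icc ((b - x - η) / r) ((b - x + η) / r)) := by
    intro z hz
    by_cases hzρ : z ∈ Icc (-ρ) ρ
    · right
      have hzabs : |z| ≤ ρ := abs_le.mpr ⟨hzρ.1, hzρ.2⟩
      have hd : |(r * z + x) - (s * z + y)| ≤ η := by
        have : (r * z + x) - (s * z + y) = (r - s) * z + (x - y) := by ring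
        rw [this]
        calc |(r - s) * z + (x - y)| ≤ |(r - s) * z| + |x - y| := abs_add_le _ _
          _ ≤ η := by rw [abs_mul, hη]; nlinarith [abs_nonneg (r - s)]
      rw [abs_le] at hd
      have key : |r * z + x - a| ≤ η ∨ |r * z + x - b| ≤ η := by
        simp only [pre, Set.mem_symmDiff, Set.mem_ofPred_eq, Set.mem_Ico, not_and_or, not_le,
          not_lt] at hz
        rcases hz with ⟨⟨h1, h2⟩, h3⟩ | ⟨⟨h1, h2⟩, h3⟩
        · rcases h3 with h3 | h3
          · left; rw [abs_le]; constructor <;> linarith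
          · right; rw [abs_le]; constructor <;> linarith
        · rcases h3 with h3 | h3
          · left; rw [abs_le]; constructor <;> linarith
          · right; rw [abs_le]; constructor <;> linarith
      rcases key with h | h
      · left
        rw [abs_le] at h
        constructor
        · rw [div_le_iff₀ hr0]; linarith
        · rw [le_div_iff₀ hr0]; linarith
      · right
        rw [abs_le] at h
        constructor
        · rw [div_le_iff₀ hr0]; linarith
        · rw [le_div_iff₀ hr0]; linarith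
    · left; exact hzρ
  have hI : ∀ c : ℝ, ν.real (Icc ((c - x - η) / r) ((c - x + η) / r)) ≤ 2 * B * η := by
    intro c
    have h1 := hν ((c - x - η) / r) ((c - x + η) / r)
      (div_le_div_of_nonneg_right (by linarith) hr0.le)
    have h2 : (c - x + η) / r - (c - x - η) / r = 2 * η / r := by ring
    rw [h2] at h1
    have h3 : 2 * η / r ≤ 2 * η := div_le_self (by linarith) hr
    calc _ ≤ B * (2 * η / r) := h1
      _ ≤ B * (2 * η) := mul_le_mul_of_nonneg_left h3 hB
      _ = 2 * B * η := by ring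
  have h0 : ν.real (Icc (-ρ) ρ)ᶜ = 0 := by rw [Measure.real, hsupp]; simp
  calc ν.real (pre (Ico a b) r x ∆ pre (Ico a b) s y)
      ≤ ν.real ((Icc (-ρ) ρ)ᶜ ∪ (Icc ((a - x - η) / r) ((a - x + η) / r) ∪
          Icc ((b - x - η) / r) ((b - x + η) / r))) := measureReal_mono hsub
    _ ≤ ν.real (Icc (-ρ) ρ)ᶜ + (ν.real (Icc ((a - x - η) / r) ((a - x + η) / r)) +
          ν.real (Icc ((b - x - η) / r) ((b - x + η) / r))) :=
        (measureReal_union_le _ _).trans (add_le_add le_rfl (measureReal_union_le _ _))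
    _ ≤ 0 + (2 * B * η + 2 * B * η) := by rw [h0]; gcongr <;> exact hI _
    _ = 4 * B * η := by ring
    _ ≤ 4 * B * ((ρ + 1) * (|r - s| + |x - y|)) := by
        apply mul_le_mul_of_nonneg_left _ (by positivity)
        rw [hη]; nlinarith [abs_nonneg (r - s), abs_nonneg (x - y)]
    _ = 4 * B * (ρ + 1) * (|r - s| + |x - y|) := by ring

/-- Mass of an interval preimage. -/
lemma G_Ico_le (hB : 0 ≤ B) (hν : ∀ a b : ℝ, a ≤ b → ν.real (Icc a b) ≤ B * (b - a))
    (a b : ℝ) (hab : a ≤ b) {r : ℝ} (hr : 1 ≤ r) (x : ℝ) :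
    G ν (Ico a b) r x ≤ B * (b - a) := by
  have hr0 : 0 < r := by linarith
  have hsub : pre (Ico a b) r x ⊆ Icc ((a - x) / r) ((b - x) / r) := by
    intro z hz
    simp only [pre, Set.mem_ofPred_eq, Set.mem_Ico] at hz
    constructor
    · rw [div_le_iff₀ hr0]; linarith
    · rw [le_div_iff₀ hr0]; linarith
  calc G ν (Ico a b) r x ≤ ν.real (Icc ((a - x) / r) ((b - x) / r)) := measureReal_mono hsub
    _ ≤ B * ((b - x) / r - (a - x) / r) :=
        hν _ _ (div_le_div_of_nonneg_right (by linarith) hr0.le)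
    _ = B * ((b - a) / r) := by ring
    _ ≤ B * (b - a) := mul_le_mul_of_nonneg_left (div_le_self (by linarith) hr) hB

end interval

/-- Cells. -/
noncomputable def cellL (K h : ℝ) (j : ℕ) : ℝ := -K + j * h

def cell (K h : ℝ) (j : ℕ) : Set ℝ := Ico (-K + j * h) (-K + j * h + h)

lemma cell_disj (K h : ℝ) (hh : 0 < h) (i j : ℕ) (hij : i ≠ j) :
    Disjoint (cell K h i) (cell K h j) := by
  rw [Set.disjoint_left]
  intro y hy hy'
  simp only [cell, Set.mem_Ico] at hy hy'
  rcases lt_or_gt_of_ne hij with h1 | h1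
  · have : (i : ℝ) + 1 ≤ j := by exact_mod_cast h1
    nlinarith
  · have : (j : ℝ) + 1 ≤ i := by exact_mod_cast h1
    nlinarith

lemma L1sum {J : ℕ} (A : Fin J → Set ℝ) (hA : ∀ j, MeasurableSet (A j))
    (hd : ∀ i j, i ≠ j → Disjoint (A i) (A j)) (φ : ℝ → ℝ) (hφ : Integrable φ) :
    ∑ j, ∫ z in A j, |φ z| ≤ ∫ z, |φ z| := by
  have h1 := integral_biUnion_finset (μ := volume) (f := fun z => |φ z|) (Finset.univ : Finset (Fin J))
    (s := A) (fun i _ => hA i) (fun i _ j _ hij => hd i j hij)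
    (fun i _ => hφ.abs.integrableOn)
  rw [← h1]
  exact setIntegral_le_integral hφ.abs (Filter.Eventually.of_forall (fun z => abs_nonneg _))

lemma H_diff_le {J : ℕ} (K h t : ℝ) (hh : 0 < h) (ht : t ≤ h) (F g : ℝ → ℝ) (hF : Integrable F)
    (hg : Integrable g) (r x : ℝ) :
    ∑ j : Fin J, |H F (Ico (-K + j * h) (-K + j * h + t)) r x
      - H g (Ico (-K + j * h) (-K + j * h + t)) r x| ≤ ∫ z, |F z - g z| := by
  have hd : ∀ i j : Fin J, i ≠ j →
      Disjoint (pre (Ico (-K + (i : ℕ) * h) (-K + (i : ℕ) * h + t)) r x)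
        (pre (Ico (-K + (j : ℕ) * h) (-K + (j : ℕ) * h + t)) r x) := by
    intro i j hij
    have := cell_disj K h hh i j (fun h => hij (Fin.ext h))
    rw [Set.disjoint_left] at this ⊢
    intro z hz hz'
    refine this (a := r * z + x) ?_ ?_
    · simp only [pre, Set.mem_ofPred_eq, Set.mem_Ico, cell] at hz ⊢
      exact ⟨hz.1, by linarith [hz.2]⟩
    · simp only [pre, Set.mem_ofPred_eq, Set.mem_Ico, cell] at hz' ⊢
      exact ⟨hz'.1, by linarith [hz'.2]⟩
  refine le_trans ?_ (L1sum _ (fun j => measurable_pre measurableSet_Ico r x) hd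
    (fun z => F z - g z) (hF.sub hg))
  apply Finset.sum_le_sum
  intro j _
  unfold H
  rw [← integral_sub hF.integrableOn hg.integrableOn]
  exact abs_integral_le_integral_abs

lemma H_shift (g : ℝ → ℝ) (a b s : ℝ) {r : ℝ} (hr : 1 ≤ r) (x : ℝ) :
    H g (Ico (a + s) (b + s)) r x = ∫ z in pre (Ico a b) r x, g (z + s / r) := by
  have hr0 : r ≠ 0 := by positivity
  unfold H
  rw [← integral_indicator (measurable_pre measurableSet_Ico r x),
    ← integral_indicator (measurable_pre measurableSet_Ico r x),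
    ← integral_add_right_eq_self _ (s / r)]
  congr 1
  ext z
  have hiff : z + s / r ∈ pre (Ico (a + s) (b + s)) r x ↔ z ∈ pre (Ico a b) r x := by
    simp only [pre, Set.mem_ofPred_eq, Set.mem_Ico]
    have : r * (z + s / r) + x = (r * z + x) + s := by field_simp; ring
    rw [this]
    constructor
    · rintro ⟨h1, h2⟩; exact ⟨by linarith, by linarith⟩
    · rintro ⟨h1, h2⟩; exact ⟨by linarith, by linarith⟩
  by_cases hz : z ∈ pre (Ico a b) r x
  · rw [Set.indicator_of_mem (hiff.mpr hz), Set.indicator_of_mem hz]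
  · rw [Set.indicator_of_notMem (fun h => hz (hiff.mp h)), Set.indicator_of_notMem hz]

lemma H_shift_le (g : ℝ → ℝ) (hg : Integrable g) (ω h : ℝ) (hω0 : 0 ≤ ω)
    (hω : ∀ z s, |s| ≤ h → |g (z + s) - g z| ≤ ω) (a b s : ℝ) (hab : a ≤ b) (hs0 : 0 ≤ s)
    (hsh : s ≤ h) {r : ℝ} (hr : 1 ≤ r) (x : ℝ) :
    |H g (Ico (a + s) (b + s)) r x - H g (Ico a b) r x| ≤ ω * (b - a) := by
  have hr0 : 0 < r := by linarith
  rw [H_shift g a b s hr x]
  unfold H
  have hg2 : Integrable (fun z => g (z + s / r)) := hg.comp_add_right (s / r)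
  rw [← integral_sub hg2.integrableOn hg.integrableOn]
  have hpre : pre (Ico a b) r x = Ico ((a - x) / r) ((b - x) / r) := by
    ext z
    simp only [pre, Set.mem_ofPred_eq, Set.mem_Ico]
    rw [div_le_iff₀ hr0, lt_div_iff₀ hr0]
    constructor
    · rintro ⟨h1, h2⟩; exact ⟨by linarith, by linarith⟩
    · rintro ⟨h1, h2⟩; exact ⟨by linarith, by linarith⟩
  have hlen : (b - x) / r - (a - x) / r = (b - a) / r := by ring
  have hlen0 : 0 ≤ (b - a) / r := div_nonneg (by linarith) hr0.le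
  have hvol : volume.real (pre (Ico a b) r x) = (b - a) / r := by
    rw [hpre, Measure.real, Real.volume_Ico, hlen, ENNReal.toReal_ofReal hlen0]
  have hfin : volume (pre (Ico a b) r x) < ⊤ := by
    rw [hpre, Real.volume_Ico]; exact ENNReal.ofReal_lt_top
  have hb := norm_setIntegral_le_of_norm_le_const (μ := volume) (s := pre (Ico a b) r x)
    (f := fun z => g (z + s / r) - g z) (C := ω) hfin (by
      intro z _
      rw [Real.norm_eq_abs]
      apply hω
      rw [abs_of_nonneg (div_nonneg hs0 hr0.le)]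
      exact (div_le_self hs0 hr).trans hsh)
  rw [Real.norm_eq_abs, hvol] at hb
  refine hb.trans (mul_le_mul_of_nonneg_left (div_le_self (by linarith) hr) hω0)

lemma H_split (g : ℝ → ℝ) (hg : Integrable g) (a b c : ℝ) (hab : a ≤ b) (hbc : b ≤ c) (r x : ℝ) :
    H g (Ico a c) r x = H g (Ico a b) r x + H g (Ico b c) r x := by
  unfold H
  rw [← setIntegral_union _ (measurable_pre measurableSet_Ico r x) hg.integrableOn hg.integrableOn]
  · congr 2
    ext z
    simp only [pre, Set.mem_ofPred_eq, Set.mem_Ico, Set.mem_union]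
    constructor
    · rintro ⟨h1, h2⟩
      rcases lt_or_ge (r * z + x) b with h | h
      · left; exact ⟨h1, h⟩
      · right; exact ⟨h, h2⟩
    · rintro (⟨h1, h2⟩ | ⟨h1, h2⟩)
      · exact ⟨h1, by linarith⟩
      · exact ⟨by linarith, h2⟩
  · rw [Set.disjoint_left]
    intro z hz hz'
    simp only [pre, Set.mem_ofPred_eq, Set.mem_Ico] at hz hz'
    linarith [hz.2, hz'.1]

lemma H_multi (g : ℝ → ℝ) (hg : Integrable g) (ω h : ℝ) (hω0 : 0 ≤ ω)
    (hω : ∀ z s, |s| ≤ h → |g (z + s) - g z| ≤ ω) (a t : ℝ) (ht : 0 ≤ t) {r : ℝ} (hr : 1 ≤ r)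
    (x : ℝ) (p : ℕ) (hp : p * t ≤ h) :
    |H g (Ico a (a + p * t)) r x - p * H g (Ico a (a + t)) r x| ≤ p * (ω * t) := by
  induction p with
  | zero =>
    have : pre (Ico a (a + ((0 : ℕ) : ℝ) * t)) r x = ∅ := by ext z; simp [pre]
    unfold H
    rw [this]; simp
  | succ p ih =>
    have hp' : (p : ℝ) * t ≤ h := by push_cast at hp; linarith
    have ih' := ih hp'
    have hpt : 0 ≤ (p : ℝ) * t := by positivity
    have e : a + ((p + 1 : ℕ) : ℝ) * t = a + p * t + t := by push_cast; ring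
    rw [e, H_split g hg a (a + p * t) (a + p * t + t) (by linarith) (by linarith)]
    have hsh := H_shift_le g hg ω h hω0 hω a (a + t) (p * t) (by linarith) hpt hp' hr x
    have e2 : Ico (a + p * t) (a + t + p * t) = Ico (a + p * t) (a + p * t + t) := by
      congr 1; ring
    rw [e2] at hsh
    have e3 : a + t - a = t := by ring
    rw [e3] at hsh
    have : H g (Ico a (a + p * t)) r x + H g (Ico (a + p * t) (a + p * t + t)) r x
        - ((p + 1 : ℕ) : ℝ) * H g (Ico a (a + t)) r x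
        = (H g (Ico a (a + p * t)) r x - p * H g (Ico a (a + t)) r x)
          + (H g (Ico (a + p * t) (a + p * t + t)) r x - H g (Ico a (a + t)) r x) := by
      push_cast; ring
    rw [this]
    refine (abs_add_le _ _).trans ?_
    push_cast
    linarith

end Pool.Agent.V11101.Rc
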