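import Pool.Agent.V11101.RcB

/-! Lower bound for the total variation seen by subcells. -/

namespace Pool.Agent.V11101.Rc

open MeasureTheory Set Finset

section

variable (ν : Measure ℝ) [IsFiniteMeasure ν] (ρ : ℝ)

lemma step_close (K h : ℝ) (hh : 0 < h) (J : ℕ) (hJ : (J : ℝ) * h = 2 * K) (y : ℝ)
    (hy : y ∈ Ico (-K) K) :
    |y - ∑ j : Fin J, (-K + (j : ℕ) * h) * (cell K h j).indicator (fun _ => (1 : ℝ)) y - h / 2|
      ≤ h / 2 := by
  set n := ⌊(y + K) / h⌋₊ with hn
  have h0 : 0 ≤ (y + K) / h := div_nonneg (by linarith [hy.1]) hh.le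
  have hn1 : (n : ℝ) ≤ (y + K) / h := Nat.floor_le h0
  have hn2 : (y + K) / h < n + 1 := Nat.lt_floor_add_one _
  rw [le_div_iff₀ hh] at hn1
  rw [div_lt_iff₀ hh] at hn2
  have hnJ : n < J := by
    by_contra hcon
    push Not at hcon
    have : (J : ℝ) ≤ n := by exact_mod_cast hcon
    nlinarith [hy.2]
  have hmem : y ∈ cell K h n := by
    simp only [cell, Set.mem_Ico]; constructor <;> linarith
  have hsum : ∑ j : Fin J, (-K + (j : ℕ) * h) * (cell K h j).indicator (fun _ => (1 : ℝ)) y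
      = -K + n * h := by
    rw [Finset.sum_eq_single (⟨n, hnJ⟩ : Fin J)]
    · rw [Set.indicator_of_mem hmem]; simp
    · intro j _ hj
      have hne : (n : ℕ) ≠ j := fun hh => hj (Fin.ext hh.symm)
      have hd := cell_disj K h hh n j hne
      rw [Set.disjoint_left] at hd
      rw [Set.indicator_of_notMem (hd hmem), mul_zero]
    · intro hcon; exact absurd (Finset.mem_univ _) hcon
  rw [hsum, abs_le]
  constructor <;> linarith

lemma first_moment (K h : ℝ) (hh : 0 < h) (hK : 0 < K) (J : ℕ) (hJ : (J : ℝ) * h = 2 * K)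
    (hsupp : ν (Icc (-ρ) ρ)ᶜ = 0) (R r x x' : ℝ) (hr : 1 ≤ r)
    (hrR : r ≤ R) (hx : |x| ≤ R) (hx' : |x'| ≤ R) (hRK : R * ρ + R < K) :
    |x - x'| * ν.real univ ≤ K * (∑ j : Fin J, |G ν (cell K h j) r x - G ν (cell K h j) r x'|)
      + h * ν.real univ := by
  have hsupp' : ∀ᵐ z ∂ν, z ∈ Icc (-ρ) ρ := by
    rw [ae_iff]; exact hsupp
  set k : ℝ → ℝ := fun z => ∑ j : Fin J, (-K + (j : ℕ) * h) *
    ((pre (cell K h j) r x).indicator (fun _ => (1 : ℝ)) z
      - (pre (cell K h j) r x').indicator (fun _ => (1 : ℝ)) z) with hk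
  have hmeas : ∀ (j : Fin J) (w : ℝ), MeasurableSet (pre (cell K h j) r w) :=
    fun j w => measurable_pre measurableSet_Ico r w
  have hint1 : ∀ (j : Fin J) (w : ℝ),
      Integrable ((pre (cell K h j) r w).indicator (fun _ => (1 : ℝ))) ν := by
    intro j w
    exact (integrable_const (1 : ℝ)).indicator (hmeas j w)
  have hival : ∀ (j : Fin J) (w : ℝ),
      ∫ z, (pre (cell K h j) r w).indicator (fun _ => (1 : ℝ)) z ∂ν = G ν (cell K h j) r w := by
    intro j w
    rw [integral_indicator (hmeas j w)]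
    simp [G]
  have hkint : ∫ z, k z ∂ν = ∑ j : Fin J, (-K + (j : ℕ) * h) *
      (G ν (cell K h j) r x - G ν (cell K h j) r x') := by
    rw [hk, integral_finsetSum]
    · apply Finset.sum_congr rfl
      intro j _
      rw [integral_const_mul, integral_sub (hint1 j x) (hint1 j x'), hival, hival]
    · intro j _
      exact ((hint1 j x).sub (hint1 j x')).const_mul _
  have hkI : Integrable k ν := by
    rw [hk]
    apply integrable_finsetSum
    intro j _
    exact ((hint1 j x).sub (hint1 j x')).const_mul _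
  have hclose : ∀ᵐ z ∂ν, ‖k z - (x - x')‖ ≤ h := by
    filter_upwards [hsupp'] with z hz
    have hzabs : |z| ≤ ρ := abs_le.mpr ⟨hz.1, hz.2⟩
    have hρ : 0 ≤ ρ := (abs_nonneg z).trans hzabs
    have hrz : |r * z| ≤ R * ρ := by
      rw [abs_mul, abs_of_nonneg (by linarith : (0:ℝ) ≤ r)]
      exact mul_le_mul hrR hzabs (abs_nonneg z) (by linarith)
    rw [abs_le] at hrz hx hx'
    have h1 := step_close K h hh J hJ (r * z + x) ⟨by linarith [hrz.1, hx.1], by linarith [hrz.2, hx.2]⟩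
    have h2 := step_close K h hh J hJ (r * z + x') ⟨by linarith [hrz.1, hx'.1], by linarith [hrz.2, hx'.2]⟩
    have hk2 : k z = (∑ j : Fin J, (-K + (j : ℕ) * h) * (cell K h j).indicator (fun _ => (1 : ℝ)) (r * z + x))
        - ∑ j : Fin J, (-K + (j : ℕ) * h) * (cell K h j).indicator (fun _ => (1 : ℝ)) (r * z + x') := by
      rw [hk, ← Finset.sum_sub_distrib]
      apply Finset.sum_congr rfl
      intro j _
      have e : ∀ w : ℝ, (pre (cell K h j) r w).indicator (fun _ => (1 : ℝ)) z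
          = (cell K h j).indicator (fun _ => (1 : ℝ)) (r * z + w) := by
        intro w
        by_cases hm : r * z + w ∈ cell K h j
        · rw [Set.indicator_of_mem hm, Set.indicator_of_mem (show z ∈ pre (cell K h j) r w from hm)]
        · rw [Set.indicator_of_notMem hm,
            Set.indicator_of_notMem (show z ∉ pre (cell K h j) r w from hm)]
      rw [e, e]; ring
    rw [Real.norm_eq_abs, hk2]
    rw [abs_le] at h1 h2 ⊢
    constructor <;> linarith [h1.1, h1.2, h2.1, h2.2]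
  have hbound : ‖∫ z, (k z - (x - x')) ∂ν‖ ≤ h * ν.real univ :=
    norm_integral_le_of_norm_le_const hclose
  rw [integral_sub hkI (integrable_const _), integral_const, hkint, smul_eq_mul,
    Real.norm_eq_abs] at hbound
  have hsumle : |∑ j : Fin J, (-K + (j : ℕ) * h) *
      (G ν (cell K h j) r x - G ν (cell K h j) r x')|
      ≤ K * ∑ j : Fin J, |G ν (cell K h j) r x - G ν (cell K h j) r x'| := by
    rw [Finset.mul_sum]
    refine (Finset.abs_sum_le_sum_abs _ _).trans (Finset.sum_le_sum (fun j _ => ?_))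
    rw [abs_mul]
    apply mul_le_mul_of_nonneg_right _ (abs_nonneg _)
    have hj : ((j : ℕ) : ℝ) ≤ J := by exact_mod_cast j.2.le
    have hj0 : (0 : ℝ) ≤ ((j : ℕ) : ℝ) := Nat.cast_nonneg _
    rw [abs_le]
    constructor <;> nlinarith
  have hm0 : 0 ≤ ν.real univ := measureReal_nonneg
  have habs : |x - x'| * ν.real univ = |ν.real univ * (x - x')| := by
    rw [abs_mul, abs_of_nonneg hm0]; ring
  rw [habs]
  have := abs_sub_abs_le_abs_sub (ν.real univ * (x - x')) (∑ j : Fin J, (-K + (j : ℕ) * h) *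
      (G ν (cell K h j) r x - G ν (cell K h j) r x'))
  rw [abs_sub_comm] at this
  linarith

/-- Uniform lower bound for subcells. -/
theorem subcell (f : ℝ → ℝ) (hfi : Integrable f)
    (hf : ∀ A : Set ℝ, MeasurableSet A → ν.real A = ∫ z in A, f z)
    (hsupp : ν (Icc (-ρ) ρ)ᶜ = 0) (hm : 0 < ν.real univ) (R K : ℝ) (hR : 1 ≤ R)
    (hK : 0 < K) (hRK : R * ρ + R < K) (p : ℕ) (hp : 0 < p) :
    ∃ J0 : ℕ, 0 < J0 ∧ ∀ J : ℕ, J0 ≤ J → ∀ r x x' : ℝ, 1 ≤ r → r ≤ R → |x| ≤ R → |x'| ≤ R →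
      1 / R ≤ |x - x'| →
      (ν.real univ / (2 * R * K)) / (2 * p) ≤ ∑ j : Fin J,
        |G ν (Ico (-K + (j : ℕ) * (2 * K / J)) (-K + (j : ℕ) * (2 * K / J) + (2 * K / J) / p)) r x
        - G ν (Ico (-K + (j : ℕ) * (2 * K / J)) (-K + (j : ℕ) * (2 * K / J) + (2 * K / J) / p)) r x'|
      := by
  have hpr : (0 : ℝ) < p := by exact_mod_cast hp
  have hp1 : (1 : ℝ) ≤ p := by exact_mod_cast hp
  have hR0 : 0 < R := by linarith
  set c0 := ν.real univ / (2 * R * K) with hc0
  have hc0pos : 0 < c0 := by positivity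
  obtain ⟨g, hgc, hgη, hgcont, hgi⟩ := hfi.exists_hasCompactSupport_integral_sub_le
    (ε := c0 / (16 * p)) (by positivity)
  have hgu := hgc.uniformContinuous_of_continuous hgcont
  rw [Metric.uniformContinuous_iff] at hgu
  obtain ⟨δ, hδ, hδg⟩ := hgu (c0 / (16 * K)) (by positivity)
  obtain ⟨J0, hJ0⟩ := exists_nat_gt (max (2 * K / δ) (4 * K * R))
  have hJ0pos : (0 : ℝ) < J0 := lt_of_le_of_lt (by positivity) hJ0
  refine ⟨J0, by exact_mod_cast hJ0pos, ?_⟩
  intro J hJ r x x' hr hrR hx hx' hxx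
  have hJr : (J0 : ℝ) ≤ J := by exact_mod_cast hJ
  have hJpos : (0 : ℝ) < J := by linarith
  set h := 2 * K / (J : ℝ) with hh
  have hhpos : 0 < h := by positivity
  have hJh : (J : ℝ) * h = 2 * K := by rw [hh]; field_simp
  have hhδ : h < δ := by
    rw [hh, div_lt_iff₀ hJpos]
    have : 2 * K / δ < J := lt_of_lt_of_le (lt_of_le_of_lt (le_max_left _ _) hJ0) hJr
    rw [div_lt_iff₀ hδ] at this; linarith
  have hhR : h ≤ 1 / (2 * R) := by
    rw [hh, div_le_div_iff₀ hJpos (by positivity)]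
    have : 4 * K * R < J := lt_of_lt_of_le (lt_of_le_of_lt (le_max_right _ _) hJ0) hJr
    linarith
  set ω := c0 / (16 * K) with hω
  have hω0 : 0 ≤ ω := by positivity
  have hωg : ∀ z s, |s| ≤ h → |g (z + s) - g z| ≤ ω := by
    intro z s hs
    have := hδg (a := z + s) (b := z) (by rw [Real.dist_eq]; simpa using lt_of_le_of_lt hs hhδ)
    rw [Real.dist_eq] at this
    exact this.le
  set t := h / (p : ℝ) with ht
  have ht0 : 0 ≤ t := by positivity
  have hpt : (p : ℝ) * t = h := by rw [ht]; field_simp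
  have htle : t ≤ h := div_le_self hhpos.le hp1
  have hGf : ∀ (a b w : ℝ), G ν (Ico a b) r w = H f (Ico a b) r w := by
    intro a b w
    exact hf _ (measurable_pre measurableSet_Ico r w)
  -- step 1 : full cells
  have hfm := first_moment ν ρ K h hhpos hK J hJh hsupp R r x x' hr hrR hx hx' hRK
  have hfull : c0 ≤ ∑ j : Fin J, |H f (Ico (-K + (j : ℕ) * h) (-K + (j : ℕ) * h + h)) r x
      - H f (Ico (-K + (j : ℕ) * h) (-K + (j : ℕ) * h + h)) r x'| := by
    have e : ∀ j : Fin J, |H f (Ico (-K + (j : ℕ) * h) (-K + (j : ℕ) * h + h)) r x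
      - H f (Ico (-K + (j : ℕ) * h) (-K + (j : ℕ) * h + h)) r x'|
      = |G ν (cell K h j) r x - G ν (cell K h j) r x'| := by
      intro j; unfold cell; rw [hGf, hGf]
    rw [Finset.sum_congr rfl (fun j _ => e j)]
    have h1 : 1 / R * ν.real univ ≤ |x - x'| * ν.real univ :=
      mul_le_mul_of_nonneg_right hxx hm.le
    have h2 : h * ν.real univ ≤ 1 / (2 * R) * ν.real univ :=
      mul_le_mul_of_nonneg_right hhR hm.le
    have h3 : 1 / R * ν.real univ - 1 / (2 * R) * ν.real univ = K * c0 := by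
      rw [hc0]; field_simp; ring
    have h4 : K * c0 ≤ K * ∑ j : Fin J, |G ν (cell K h j) r x - G ν (cell K h j) r x'| := by
      linarith
    exact le_of_mul_le_mul_left h4 hK
  -- L1 comparisons
  have hη : ∫ z, |f z - g z| ≤ c0 / (16 * p) := by simpa [Real.norm_eq_abs] using hgη
  have q1 := (H_diff_le (J := J) K h h hhpos le_rfl f g hfi hgi r x).trans hη
  have q2 := (H_diff_le (J := J) K h h hhpos le_rfl f g hfi hgi r x').trans hη
  have q3 := (H_diff_le (J := J) K h t hhpos htle f g hfi hgi r x).trans hη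
  have q4 := (H_diff_le (J := J) K h t hhpos htle f g hfi hgi r x').trans hη
  -- pointwise inequality
  have hpt2 : ∀ j : Fin J,
      |H f (Ico (-K + (j : ℕ) * h) (-K + (j : ℕ) * h + h)) r x
        - H f (Ico (-K + (j : ℕ) * h) (-K + (j : ℕ) * h + h)) r x'|
      ≤ p * |H f (Ico (-K + (j : ℕ) * h) (-K + (j : ℕ) * h + t)) r x
        - H f (Ico (-K + (j : ℕ) * h) (-K + (j : ℕ) * h + t)) r x'|
      + |H f (Ico (-K + (j : ℕ) * h) (-K + (j : ℕ) * h + h)) r x
        - H g (Ico (-K + (j : ℕ) * h) (-K + (j : ℕ) * h + h)) r x|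
      + |H f (Ico (-K + (j : ℕ) * h) (-K + (j : ℕ) * h + h)) r x'
        - H g (Ico (-K + (j : ℕ) * h) (-K + (j : ℕ) * h + h)) r x'|
      + p * |H f (Ico (-K + (j : ℕ) * h) (-K + (j : ℕ) * h + t)) r x
        - H g (Ico (-K + (j : ℕ) * h) (-K + (j : ℕ) * h + t)) r x|
      + p * |H f (Ico (-K + (j : ℕ) * h) (-K + (j : ℕ) * h + t)) r x'
        - H g (Ico (-K + (j : ℕ) * h) (-K + (j : ℕ) * h + t)) r x'|
      + 2 * (ω * h) := by
    intro j
    have m1 := H_multi g hgi ω h hω0 hωg (-K + (j : ℕ) * h) t ht0 hr x p hpt.le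
    have m2 := H_multi g hgi ω h hω0 hωg (-K + (j : ℕ) * h) t ht0 hr x' p hpt.le
    have e : (p : ℝ) * (ω * t) = ω * h := by rw [← hpt]; ring
    rw [hpt, e] at m1 m2
    generalize H f (Ico (-K + (j : ℕ) * h) (-K + (j : ℕ) * h + h)) r x = A1 at *
    generalize H f (Ico (-K + (j : ℕ) * h) (-K + (j : ℕ) * h + h)) r x' = A2 at *
    generalize H g (Ico (-K + (j : ℕ) * h) (-K + (j : ℕ) * h + h)) r x = B1 at *
    generalize H g (Ico (-K + (j : ℕ) * h) (-K + (j : ℕ) * h + h)) r x' = B2 at *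
    generalize H f (Ico (-K + (j : ℕ) * h) (-K + (j : ℕ) * h + t)) r x = a1 at *
    generalize H f (Ico (-K + (j : ℕ) * h) (-K + (j : ℕ) * h + t)) r x' = a2 at *
    generalize H g (Ico (-K + (j : ℕ) * h) (-K + (j : ℕ) * h + t)) r x = b1 at *
    generalize H g (Ico (-K + (j : ℕ) * h) (-K + (j : ℕ) * h + t)) r x' = b2 at *
    have dec : A1 - A2 = p * (a1 - a2) + (A1 - B1) - (A2 - B2) - p * (a1 - b1) + p * (a2 - b2)
        + (B1 - p * b1) - (B2 - p * b2) := by ring
    have u1 := abs_nonneg (a1 - a2)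
    rw [dec]
    have t1 : ∀ y : ℝ, y ≤ |y| := le_abs_self
    have t2 : ∀ y : ℝ, -y ≤ |y| := neg_le_abs
    rw [abs_le]
    have s1 := mul_le_mul_of_nonneg_left (t1 (a1 - a2)) hpr.le
    have s2 := mul_le_mul_of_nonneg_left (t2 (a1 - a2)) hpr.le
    have s3 := mul_le_mul_of_nonneg_left (t1 (a1 - b1)) hpr.le
    have s4 := mul_le_mul_of_nonneg_left (t2 (a1 - b1)) hpr.le
    have s5 := mul_le_mul_of_nonneg_left (t1 (a2 - b2)) hpr.le
    have s6 := mul_le_mul_of_nonneg_left (t2 (a2 - b2)) hpr.le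
    have r1 := t1 (A1 - B1)
    have r2 := t2 (A1 - B1)
    have r3 := t1 (A2 - B2)
    have r4 := t2 (A2 - B2)
    have r5 := (t1 (B1 - p * b1)).trans m1
    have r6 := (t2 (B1 - p * b1)).trans m1
    have r7 := (t1 (B2 - p * b2)).trans m2
    have r8 := (t2 (B2 - p * b2)).trans m2
    constructor <;> linarith
  have hsum := Finset.sum_le_sum (s := (Finset.univ : Finset (Fin J))) (fun j _ => hpt2 j)
  simp only [Finset.sum_add_distrib, ← Finset.mul_sum, Finset.sum_const, Finset.card_univ,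
    Fintype.card_fin, nsmul_eq_mul] at hsum
  have hJω : 2 * (ω * ((J : ℝ) * h)) = c0 / 4 := by
    rw [hJh, hω]; field_simp; ring
  simp only [hGf]
  set X := ∑ j : Fin J, |H f (Ico (-K + (j : ℕ) * h) (-K + (j : ℕ) * h + t)) r x
        - H f (Ico (-K + (j : ℕ) * h) (-K + (j : ℕ) * h + t)) r x'| with hX
  have hq3 := mul_le_mul_of_nonneg_left q3 hpr.le
  have hq4 := mul_le_mul_of_nonneg_left q4 hpr.le
  have e5 : (p : ℝ) * (c0 / (16 * p)) = c0 / 16 := by field_simp
  rw [e5] at hq3 hq4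
  have e6 : c0 / (16 * p) ≤ c0 / 16 := by
    apply div_le_div_of_nonneg_left hc0pos.le (by norm_num) (by linarith)
  have hfin : c0 / 2 ≤ p * X := by
    linarith
  rw [div_le_iff₀ (by positivity)]
  linarith

end

end Pool.Agent.V11101.Rc
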