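import Pool.Agent.V11101.RcA
import Pool.Agent.V11101.RcC

/-! The stage lemma. -/

namespace Pool.Agent.V11101.Rc

open MeasureTheory Set Finset
open scoped symmDiff

lemma G_union (ν : Measure ℝ) [IsFiniteMeasure ν] (S T : Set ℝ) (hd : Disjoint S T)
    (hT : MeasurableSet T) (r x : ℝ) : G ν (S ∪ T) r x = G ν S r x + G ν T r x := by
  unfold G
  have h1 : pre (S ∪ T) r x = pre S r x ∪ pre T r x := by ext z; simp [pre]
  rw [h1]
  apply measureReal_union _ (measurable_pre hT r x)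
  rw [Set.disjoint_left] at hd ⊢
  intro z hz hz'
  exact hd hz hz'

lemma G_biUnion (ν : Measure ℝ) [IsFiniteMeasure ν] {ι : Type*} [DecidableEq ι] (b : Finset ι)
    (A : ι → Set ℝ) (hA : ∀ i, MeasurableSet (A i)) (hd : ∀ i j, i ≠ j → Disjoint (A i) (A j))
    (r x : ℝ) : G ν (⋃ j ∈ b, A j) r x = ∑ j ∈ b, G ν (A j) r x := by
  induction b using Finset.induction_on with
  | empty => simp [G, pre]
  | insert a b hab ih =>
    rw [Finset.set_biUnion_insert, Finset.sum_insert hab, ← ih]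
    apply G_union
    · rw [Set.disjoint_left]
      intro y hy hy'
      simp only [Set.mem_iUnion] at hy'
      obtain ⟨i, hi, hyi⟩ := hy'
      have hne : a ≠ i := fun h => hab (h ▸ hi)
      exact Set.disjoint_left.mp (hd a i hne) hy hyi
    · exact Finset.measurableSet_biUnion _ (fun i _ => hA i)

lemma idx_close (ε R y y' : ℝ) (hε : 0 < ε) (hy : |y| ≤ R) (hy' : |y'| ≤ R)
    (h : ⌊(y + R) / ε⌋₊ = ⌊(y' + R) / ε⌋₊) : |y - y'| ≤ ε := by
  rw [abs_le] at hy hy'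
  have h0 : 0 ≤ (y + R) / ε := div_nonneg (by linarith) hε.le
  have h0' : 0 ≤ (y' + R) / ε := div_nonneg (by linarith) hε.le
  have a1 := Nat.floor_le h0
  have a2 := Nat.lt_floor_add_one ((y + R) / ε)
  have b1 := Nat.floor_le h0'
  have b2 := Nat.lt_floor_add_one ((y' + R) / ε)
  rw [h] at a1 a2
  rw [le_div_iff₀ hε] at a1 b1
  rw [div_lt_iff₀ hε] at a2 b2
  rw [abs_le]
  constructor <;> nlinarith

lemma idx_lt (ε R y : ℝ) (hε : 0 < ε) (hy : |y| ≤ R) :
    ⌊(y + R) / ε⌋₊ < ⌈2 * R / ε⌉₊ + 1 := by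
  rw [abs_le] at hy
  have h1 : (y + R) / ε ≤ 2 * R / ε := div_le_div_of_nonneg_right (by linarith) hε.le
  have h2 : ⌊(y + R) / ε⌋₊ ≤ ⌈2 * R / ε⌉₊ := (Nat.floor_mono h1).trans (Nat.floor_le_ceil _)
  omega

/-- The admissible parameter triples. -/
def Kset (R : ℝ) (t : ℝ × ℝ × ℝ) : Prop :=
  1 ≤ t.1 ∧ t.1 ≤ R ∧ |t.2.1| ≤ R ∧ |t.2.2| ≤ R ∧ 1 / R ≤ |t.2.1 - t.2.2|

lemma numeric (c B K C D0 R : ℝ) (hc : 0 < c) (hB : 0 < B) (hK : 0 < K) (hC : 0 ≤ C)
    (hD0 : 0 ≤ D0) (hR : 1 ≤ R) : ∃ J1 : ℕ, 0 < J1 ∧ ∀ J : ℕ, J1 ≤ J →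
      (⌈2 * R / ((c / (2 * J)) / (16 * (C + 2 * J * D0 + 1)))⌉₊ + 1) ^ 3
        < (2 * ⌊c * J / (16 * B * K)⌋₊ + 1) ^ 7 := by
  set K1 := 64 * R * (C + 1 + 2 * D0) / c with hK1
  have hK1pos : 0 < K1 := by positivity
  set c2 := c / (16 * B * K) with hc2
  have hc2pos : 0 < c2 := by positivity
  obtain ⟨J1, hJ1⟩ := exists_nat_gt (max ((K1 + 2) ^ 3 / c2 ^ 7) (1 / c2 + 1))
  have hJ1a : (K1 + 2) ^ 3 / c2 ^ 7 < J1 := lt_of_le_of_lt (le_max_left _ _) hJ1
  have hJ1b : 1 / c2 + 1 < J1 := lt_of_le_of_lt (le_max_right _ _) hJ1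
  have hJ1pos : (0 : ℝ) < J1 := lt_of_le_of_lt (by positivity) hJ1b
  refine ⟨J1, by exact_mod_cast hJ1pos, ?_⟩
  intro J hJ
  have hJr : (J1 : ℝ) ≤ J := by exact_mod_cast hJ
  have hJpos : (0 : ℝ) < J := by linarith
  have hJ1' : (1 : ℝ) ≤ J := by
    have : (0 : ℝ) < 1 / c2 := by positivity
    linarith
  -- upper bound for L
  have e1 : 2 * R / ((c / (2 * J)) / (16 * (C + 2 * J * D0 + 1)))
      = 64 * R * (C + 2 * J * D0 + 1) * J / c := by field_simp; ring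
  have e2 : 64 * R * (C + 2 * J * D0 + 1) * J / c ≤ K1 * J ^ 2 := by
    rw [hK1, div_mul_eq_mul_div]
    apply div_le_div_of_nonneg_right _ hc.le
    have h1 : C + 2 * J * D0 + 1 ≤ (C + 1 + 2 * D0) * J := by nlinarith
    have h2 : 64 * R * (C + 2 * J * D0 + 1) * J ≤ 64 * R * ((C + 1 + 2 * D0) * J) * J := by
      apply mul_le_mul_of_nonneg_right _ hJpos.le
      apply mul_le_mul_of_nonneg_left h1 (by positivity)
    calc _ ≤ _ := h2
      _ = 64 * R * (C + 1 + 2 * D0) * J ^ 2 := by ring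
  have hL : ((⌈2 * R / ((c / (2 * J)) / (16 * (C + 2 * J * D0 + 1)))⌉₊ + 1 : ℕ) : ℝ)
      ≤ (K1 + 2) * J ^ 2 := by
    have h0 : 0 ≤ 2 * R / ((c / (2 * J)) / (16 * (C + 2 * J * D0 + 1))) := by positivity
    have h1 := Nat.ceil_lt_add_one h0
    push_cast
    rw [e1] at h1 ⊢
    nlinarith [one_le_pow₀ (n := 2) hJ1']
  have hM : c2 * J ≤ ((2 * ⌊c * J / (16 * B * K)⌋₊ + 1 : ℕ) : ℝ) := by
    have h1 := Nat.lt_floor_add_one (c * J / (16 * B * K))
    have h2 : c * J / (16 * B * K) = c2 * J := by rw [hc2]; ring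
    rw [h2] at h1 ⊢
    have h3 : 1 ≤ c2 * J := by
      have : 1 / c2 ≤ J := by linarith
      rw [div_le_iff₀ hc2pos] at this; linarith
    push_cast
    linarith
  have h7 : ((K1 + 2) * (J : ℝ) ^ 2) ^ 3 < (c2 * J) ^ 7 := by
    have h1 : (K1 + 2) ^ 3 < c2 ^ 7 * J := by
      rw [div_lt_iff₀ (by positivity)] at hJ1a
      nlinarith [pow_pos hc2pos 7]
    calc ((K1 + 2) * (J : ℝ) ^ 2) ^ 3 = (K1 + 2) ^ 3 * J ^ 6 := by ring
      _ < c2 ^ 7 * J * J ^ 6 := mul_lt_mul_of_pos_right h1 (by positivity)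
      _ = (c2 * J) ^ 7 := by ring
  have hfin : (((⌈2 * R / ((c / (2 * J)) / (16 * (C + 2 * J * D0 + 1)))⌉₊ + 1) ^ 3 : ℕ) : ℝ)
      < (((2 * ⌊c * J / (16 * B * K)⌋₊ + 1) ^ 7 : ℕ) : ℝ) := by
    rw [Nat.cast_pow, Nat.cast_pow]
    calc _ ≤ ((K1 + 2) * (J : ℝ) ^ 2) ^ 3 := pow_le_pow_left₀ (by positivity) hL 3
      _ < (c2 * J) ^ 7 := h7
      _ ≤ _ := pow_le_pow_left₀ (by positivity) hM 7
  exact_mod_cast hfin

theorem stage (ν : Measure ℝ) [IsFiniteMeasure ν] (B ρ : ℝ) (hB : 0 < B) (hρ : 0 ≤ ρ)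
    (hν : ∀ a b : ℝ, a ≤ b → ν.real (Icc a b) ≤ B * (b - a))
    (f : ℝ → ℝ) (hfi : Integrable f)
    (hf : ∀ A : Set ℝ, MeasurableSet A → ν.real A = ∫ z in A, f z)
    (hsupp : ν (Icc (-ρ) ρ)ᶜ = 0) (hm : 0 < ν.real univ)
    (S : Fin 14 → Set ℝ) (C : ℝ) (hC : 0 ≤ C) (hS : ∀ k, Reg ν C (S k))
    (R : ℝ) (hR : 1 ≤ R) (δ : ℝ) (hδ : 0 < δ) :
    ∃ S' : Fin 14 → Set ℝ, ∃ C' : ℝ, 0 ≤ C' ∧ (∀ k, Reg ν C' (S' k)) ∧
      (∀ k, volume (S k ∆ S' k) ≤ ENNReal.ofReal δ) ∧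
      ∃ μ : ℝ, 0 < μ ∧ ∀ t, Kset R t → ∃ k, μ ≤ |G ν (S' k) t.1 t.2.1 - G ν (S' k) t.1 t.2.2| := by
  classical
  have hR0 : 0 < R := by linarith
  set K := R * ρ + R + 1 with hK
  have hKpos : 0 < K := by positivity
  obtain ⟨p, hp⟩ := exists_nat_gt (2 * K / δ)
  have hppos : (0 : ℝ) < p := lt_of_le_of_lt (by positivity) hp
  have hp0 : 0 < p := by exact_mod_cast hppos
  have hp1 : (1 : ℝ) ≤ p := by exact_mod_cast hp0
  set c := (ν.real univ / (2 * R * K)) / (2 * p) with hc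
  have hcpos : 0 < c := by positivity
  set D0 := 4 * B * (ρ + 1) with hD0
  have hD00 : 0 ≤ D0 := by positivity
  obtain ⟨J0, hJ0pos, hJ0⟩ := subcell ν ρ f hfi hf hsupp hm R K hR hKpos (by rw [hK]; linarith) p hp0
  obtain ⟨J1, hJ1pos, hJ1⟩ := numeric c B K C D0 R hcpos hB hKpos hC hD00 hR
  set J := max J0 J1 with hJ
  have hJpos : 0 < J := lt_of_lt_of_le hJ0pos (le_max_left _ _)
  have hJr : (0 : ℝ) < J := by exact_mod_cast hJpos
  have hsub := hJ0 J (le_max_left _ _)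
  have hnum := hJ1 J (le_max_right _ _)
  set h := 2 * K / (J : ℝ) with hh
  have hhpos : 0 < h := by positivity
  set A : Fin J → Set ℝ := fun j => Ico (-K + (j : ℕ) * h) (-K + (j : ℕ) * h + h / p) with hA
  have hAm : ∀ j, MeasurableSet (A j) := fun j => measurableSet_Ico
  have htle : h / p ≤ h := div_le_self hhpos.le hp1
  have ht0 : 0 ≤ h / p := by positivity
  have hAd : ∀ i j, i ≠ j → Disjoint (A i) (A j) := by
    intro i j hij
    have := cell_disj K h hhpos i j (fun h => hij (Fin.ext h))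
    refine Disjoint.mono ?_ ?_ this
    · exact Ico_subset_Ico le_rfl (by linarith)
    · exact Ico_subset_Ico le_rfl (by linarith)
  set U : Set ℝ := ⋃ j ∈ (Finset.univ : Finset (Fin J)), A j with hU
  have hUreg : Reg ν (J * D0) U := by
    have := Reg.biUnion (ν := ν) hD00 (Finset.univ : Finset (Fin J)) A
      (fun i _ => reg_Ico ν B ρ hB.le hρ hν hsupp _ _)
    rw [Finset.card_univ, Fintype.card_fin] at this
    exact this
  set Sb : Fin 14 → Finset (Fin J) → Set ℝ := fun k b => (S k \ U) ∪ ⋃ j ∈ b, A j with hSb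
  set Ctot := C + 2 * J * D0 with hCtot
  have hCtot0 : 0 ≤ Ctot := by positivity
  have hSbreg : ∀ k b, Reg ν Ctot (Sb k b) := by
    intro k b
    have h1 := (hS k).diff hUreg
    have h2 := Reg.biUnion (ν := ν) hD00 b A
      (fun i _ => reg_Ico ν B ρ hB.le hρ hν hsupp _ _)
    refine (h1.union h2).mono ?_
    have hb : (b.card : ℝ) ≤ J := by
      have := Finset.card_le_univ b
      rw [Fintype.card_fin] at this
      exact_mod_cast this
    rw [hCtot]; nlinarith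
  have hSbG : ∀ k b r x, G ν (Sb k b) r x = G ν (S k \ U) r x + ∑ j ∈ b, G ν (A j) r x := by
    intro k b r x
    rw [hSb]
    simp only []
    rw [G_union, G_biUnion ν b A hAm hAd]
    · rw [Set.disjoint_left]
      intro y hy hy'
      apply hy.2
      simp only [Set.mem_iUnion] at hy'
      obtain ⟨i, _, hyi⟩ := hy'
      rw [hU]
      simp only [Set.mem_iUnion]
      exact ⟨i, Finset.mem_univ i, hyi⟩
    · exact Finset.measurableSet_biUnion _ (fun i _ => hAm i)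
  have hUvol : volume U ≤ ENNReal.ofReal δ := by
    calc volume U ≤ ∑ j : Fin J, volume (A j) := measure_biUnion_finset_le _ _
      _ = ∑ _j : Fin J, ENNReal.ofReal (h / p) := by
          apply Finset.sum_congr rfl
          intro j _
          rw [hA]
          simp only [Real.volume_Ico]
          congr 1; ring
      _ = ENNReal.ofReal (J * (h / p)) := by
          rw [Finset.sum_const, Finset.card_univ, Fintype.card_fin, nsmul_eq_mul,
            ENNReal.ofReal_mul (by positivity), ENNReal.ofReal_natCast]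
      _ ≤ ENNReal.ofReal δ := by
          apply ENNReal.ofReal_le_ofReal
          have : (J : ℝ) * (h / p) = 2 * K / p := by rw [hh]; field_simp
          rw [this, div_le_iff₀ hppos]
          rw [div_lt_iff₀ hδ] at hp; linarith
  set α := c / (2 * (J : ℝ)) with hα
  have hαpos : 0 < α := by positivity
  set ε := α / (16 * (Ctot + 1)) with hε
  have hεpos : 0 < ε := by positivity
  set L := ⌈2 * R / ε⌉₊ + 1 with hL
  set m := ⌊c * J / (16 * B * K)⌋₊ with hmdef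
  let idx : ℝ × ℝ × ℝ → ℕ × ℕ × ℕ := fun t =>
    (⌊(t.1 + R) / ε⌋₊, ⌊(t.2.1 + R) / ε⌋₊, ⌊(t.2.2 + R) / ε⌋₊)
  have hrabs : ∀ t, Kset R t → |t.1| ≤ R := by
    intro t ht
    rw [abs_of_nonneg (by linarith [ht.1])]; exact ht.2.1
  let box : Finset (ℕ × ℕ × ℕ) := (Finset.range L) ×ˢ (Finset.range L) ×ˢ (Finset.range L)
  let N : Finset (ℕ × ℕ × ℕ) := box.filter (fun q => ∃ t, Kset R t ∧ idx t = q)
  have hNcard : N.card ≤ L ^ 3 := by
    refine (Finset.card_filter_le _ _).trans ?_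
    simp only [box, Finset.card_product, Finset.card_range]
    apply le_of_eq; ring
  have hidxN : ∀ t, Kset R t → idx t ∈ N := by
    intro t ht
    simp only [N, Finset.mem_filter, box, Finset.mem_product, Finset.mem_range]
    exact ⟨⟨idx_lt ε R t.1 hεpos (hrabs t ht), idx_lt ε R t.2.1 hεpos ht.2.2.1,
      idx_lt ε R t.2.2 hεpos ht.2.2.2.1⟩, t, ht, rfl⟩
  let rep : ℕ × ℕ × ℕ → ℝ × ℝ × ℝ := fun q =>
    if hq : ∃ t, Kset R t ∧ idx t = q then hq.choose else (0, 0, 0)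
  have hrep : ∀ q ∈ N, Kset R (rep q) ∧ idx (rep q) = q := by
    intro q hq
    have hq' : ∃ t, Kset R t ∧ idx t = q := (Finset.mem_filter.mp hq).2
    simp only [rep, dif_pos hq']
    exact hq'.choose_spec
  -- weights
  let a : ℝ × ℝ × ℝ → Fin J → ℝ := fun t j => G ν (A j) t.1 t.2.1 - G ν (A j) t.1 t.2.2
  let u : Fin 14 → ℝ × ℝ × ℝ → ℝ := fun k t =>
    G ν (S k \ U) t.1 t.2.1 - G ν (S k \ U) t.1 t.2.2
  let Bad : Fin 14 → (ℕ × ℕ × ℕ) → Finset (Finset (Fin J)) := fun k q =>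
    Finset.univ.filter (fun b => |u k (rep q) + ∑ j ∈ b, a (rep q) j| < α / 2)
  have hsel : ∀ q ∈ N, ∃ P : Finset (Fin J), P.card = 2 * m ∧
      ((∀ j ∈ P, α ≤ a (rep q) j) ∨ (∀ j ∈ P, a (rep q) j ≤ -α)) := by
    intro q hq
    obtain ⟨ht, _⟩ := hrep q hq
    have hs := hsub (rep q).1 (rep q).2.1 (rep q).2.2 ht.1 ht.2.1 ht.2.2.1 ht.2.2.2.1 ht.2.2.2.2
    have hle : ∀ j, |a (rep q) j| ≤ B * h := by
      intro j
      have g1 := G_Ico_le ν B hB.le hν (-K + (j : ℕ) * h) (-K + (j : ℕ) * h + h / p) (by linarith)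
        ht.1 (rep q).2.1
      have g2 := G_Ico_le ν B hB.le hν (-K + (j : ℕ) * h) (-K + (j : ℕ) * h + h / p) (by linarith)
        ht.1 (rep q).2.2
      have g3 : 0 ≤ G ν (A j) (rep q).1 (rep q).2.1 := measureReal_nonneg
      have g4 : 0 ≤ G ν (A j) (rep q).1 (rep q).2.2 := measureReal_nonneg
      have g5 : B * (-K + (j : ℕ) * h + h / p - (-K + (j : ℕ) * h)) ≤ B * h :=
        mul_le_mul_of_nonneg_left (by linarith) hB.le
      simp only [a]
      rw [abs_le]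
      constructor
      · have : G ν (A j) (rep q).1 (rep q).2.2 ≤ B * h := g2.trans g5
        linarith
      · have : G ν (A j) (rep q).1 (rep q).2.1 ≤ B * h := g1.trans g5
        linarith
    apply select (a (rep q)) c (B * h) hcpos (by positivity) hJpos hs hle m
    have h1 : (m : ℝ) ≤ c * J / (16 * B * K) := Nat.floor_le (by positivity)
    have h2 : c / (4 * (B * h)) = 2 * (c * J / (16 * B * K)) := by
      rw [hh]; field_simp; ring
    rw [h2]; linarith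
  have hbadcard : ∀ k, ∀ q ∈ N, (Bad k q).card ≤ 2 ^ (J - 2 * m) * Nat.centralBinom m := by
    intro k q hq
    obtain ⟨P, hPc, hP⟩ := hsel q hq
    have := lo_signed (a (rep q)) α P hP hαpos (u k (rep q)) (Bad k q)
      (fun b hb => (Finset.mem_filter.mp hb).2)
    rw [hPc, Fintype.card_fin] at this
    have e : (2 * m) / 2 = m := by omega
    rw [e] at this
    exact this
  have hlt : N.card * (2 ^ (J - 2 * m) * Nat.centralBinom m) ^ 14
      < (2 ^ Fintype.card (Fin J)) ^ 14 := by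
    rw [Fintype.card_fin]
    rcases Finset.eq_empty_or_nonempty N with hN | ⟨q, hq⟩
    · rw [hN]; simp
    · obtain ⟨P, hPc, _⟩ := hsel q hq
      have h2m : 2 * m ≤ J := by
        rw [← hPc]; simpa using Finset.card_le_univ P
      have hcb : 0 < Nat.centralBinom m := Nat.centralBinom_pos m
      have hL3 : L ^ 3 < (2 * m + 1) ^ 7 := hnum
      have e1 : (2 ^ J : ℕ) ^ 14 = (2 ^ (J - 2 * m)) ^ 14 * (16 ^ m) ^ 7 := by
        have : (2 : ℕ) ^ J = 2 ^ (J - 2 * m) * 2 ^ (2 * m) := by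
          rw [← pow_add]; congr 1; omega
        rw [this, mul_pow]
        congr 1
        rw [← pow_mul, ← pow_mul, show (16 : ℕ) = 2 ^ 4 by norm_num, ← pow_mul]
        congr 1; ring
      have e2 : (Nat.centralBinom m) ^ 14 * (2 * m + 1) ^ 7 ≤ (16 ^ m) ^ 7 := by
        calc (Nat.centralBinom m) ^ 14 * (2 * m + 1) ^ 7
            = ((Nat.centralBinom m) ^ 2 * (2 * m + 1)) ^ 7 := by ring
          _ ≤ (16 ^ m) ^ 7 := Nat.pow_le_pow_left (cb_bound m) 7
      rw [e1]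
      calc N.card * (2 ^ (J - 2 * m) * Nat.centralBinom m) ^ 14
          = (2 ^ (J - 2 * m)) ^ 14 * (Nat.centralBinom m ^ 14 * N.card) := by ring
        _ < (2 ^ (J - 2 * m)) ^ 14 * (16 ^ m) ^ 7 := by
            apply Nat.mul_lt_mul_of_pos_left _ (by positivity)
            calc Nat.centralBinom m ^ 14 * N.card
                < Nat.centralBinom m ^ 14 * (2 * m + 1) ^ 7 :=
                  Nat.mul_lt_mul_of_pos_left (lt_of_le_of_lt hNcard hL3) (by positivity)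
              _ ≤ (16 ^ m) ^ 7 := e2
  obtain ⟨b, hb⟩ := union_bound 14 N Bad _ hbadcard hlt
  refine ⟨fun k => Sb k (b k), Ctot, hCtot0, fun k => hSbreg k (b k), ?_, α / 4, by positivity, ?_⟩
  · intro k
    refine (measure_mono ?_).trans hUvol
    intro y hy
    by_contra hyU
    rw [Set.mem_symmDiff] at hy
    have hnot : ∀ i, y ∉ A i := by
      intro i hi
      apply hyU
      rw [hU]
      simp only [Set.mem_iUnion]
      exact ⟨i, Finset.mem_univ i, hi⟩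
    have hiff : y ∈ Sb k (b k) ↔ y ∈ S k := by
      rw [hSb]
      simp only [Set.mem_union, Set.mem_sdiff, Set.mem_iUnion]
      constructor
      · rintro (h1 | ⟨i, _, hi⟩)
        · exact h1.1
        · exact absurd hi (hnot i)
      · intro h1; left; exact ⟨h1, hyU⟩
    rcases hy with ⟨h1, h2⟩ | ⟨h1, h2⟩
    · exact h2 (hiff.mpr h1)
    · exact h2 (hiff.mp h1)
  · intro t ht
    have hq := hidxN t ht
    obtain ⟨hrK, hridx⟩ := hrep (idx t) hq
    obtain ⟨k, hk⟩ := hb (idx t) hq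
    refine ⟨k, ?_⟩
    have hk2 : α / 2 ≤ |u k (rep (idx t)) + ∑ j ∈ b k, a (rep (idx t)) j| := by
      by_contra hcon
      push Not at hcon
      exact hk (Finset.mem_filter.mpr ⟨Finset.mem_univ _, hcon⟩)
    set s := rep (idx t) with hs
    have e : u k s + ∑ j ∈ b k, a s j = G ν (Sb k (b k)) s.1 s.2.1 - G ν (Sb k (b k)) s.1 s.2.2 := by
      rw [hSbG, hSbG]
      simp only [u, a]
      rw [Finset.sum_sub_distrib]; ring
    rw [e] at hk2
    have hi : (⌊(s.1 + R) / ε⌋₊, ⌊(s.2.1 + R) / ε⌋₊, ⌊(s.2.2 + R) / ε⌋₊)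
        = (⌊(t.1 + R) / ε⌋₊, ⌊(t.2.1 + R) / ε⌋₊, ⌊(t.2.2 + R) / ε⌋₊) := hridx
    rw [Prod.mk.injEq, Prod.mk.injEq] at hi
    obtain ⟨i1, i2, i3⟩ := hi
    have d1 := idx_close ε R s.1 t.1 hεpos (hrabs s hrK) (hrabs t ht) i1
    have d2 := idx_close ε R s.2.1 t.2.1 hεpos hrK.2.2.1 ht.2.2.1 i2
    have d3 := idx_close ε R s.2.2 t.2.2 hεpos hrK.2.2.2.1 ht.2.2.2.1 i3
    have l1 := (hSbreg k (b k)).lip (x := s.2.1) (y := t.2.1) hrK.1 ht.1
    have l2 := (hSbreg k (b k)).lip (x := s.2.2) (y := t.2.2) hrK.1 ht.1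
    have hεC : Ctot * (ε + ε) + Ctot * (ε + ε) ≤ α / 4 := by
      have : Ctot * (ε + ε) + Ctot * (ε + ε) = 4 * Ctot * ε := by ring
      rw [this, hε]
      have h1 : 4 * Ctot * (α / (16 * (Ctot + 1))) = (α / 4) * (Ctot / (Ctot + 1)) := by
        field_simp; ring
      rw [h1]
      have h2 : Ctot / (Ctot + 1) ≤ 1 := by
        rw [div_le_one (by linarith)]; linarith
      nlinarith
    have m1 : Ctot * (|s.1 - t.1| + |s.2.1 - t.2.1|) ≤ Ctot * (ε + ε) :=
      mul_le_mul_of_nonneg_left (add_le_add d1 d2) hCtot0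
    have m2 : Ctot * (|s.1 - t.1| + |s.2.2 - t.2.2|) ≤ Ctot * (ε + ε) :=
      mul_le_mul_of_nonneg_left (add_le_add d1 d3) hCtot0
    have tri : |G ν (Sb k (b k)) s.1 s.2.1 - G ν (Sb k (b k)) s.1 s.2.2|
        ≤ |G ν (Sb k (b k)) t.1 t.2.1 - G ν (Sb k (b k)) t.1 t.2.2|
          + |G ν (Sb k (b k)) s.1 s.2.1 - G ν (Sb k (b k)) t.1 t.2.1|
          + |G ν (Sb k (b k)) s.1 s.2.2 - G ν (Sb k (b k)) t.1 t.2.2| := by
      generalize G ν (Sb k (b k)) s.1 s.2.1 = a1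
      generalize G ν (Sb k (b k)) s.1 s.2.2 = a2
      generalize G ν (Sb k (b k)) t.1 t.2.1 = a3
      generalize G ν (Sb k (b k)) t.1 t.2.2 = a4
      have : a1 - a2 = (a3 - a4) + (a1 - a3) - (a2 - a4) := by ring
      rw [this]
      refine (abs_sub _ _).trans ?_
      linarith [abs_add_le (a3 - a4) (a1 - a3)]
    show α / 4 ≤ |G ν (Sb k (b k)) t.1 t.2.1 - G ν (Sb k (b k)) t.1 t.2.2|
    linarith

end Pool.Agent.V11101.Rc
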