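import Pool.Agent.V11101.RcD

/-! The one-dimensional theorem (limit of the stages). -/

namespace Pool.Agent.V11101.Rc

open MeasureTheory Set Finset
open scoped symmDiff ENNReal

/-- State of the construction. -/
structure St (ν : Measure ℝ) where
  S : Fin 14 → Set ℝ
  C : ℝ
  e : ℝ
  hC : 0 ≤ C
  hS : ∀ k, Reg ν C (S k)
  he : 0 < e

lemma vol_pre_le {T : Set ℝ} {r : ℝ} (hr : 1 ≤ r) (x : ℝ) : volume (pre T r x) ≤ volume T := by
  have hr0 : r ≠ 0 := by positivity
  have h1 : pre T r x = (fun z => r * z) ⁻¹' ((fun y => y + x) ⁻¹' T) := rfl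
  rw [h1, Real.volume_preimage_mul_left hr0, measure_preimage_add_right]
  have : ENNReal.ofReal |r⁻¹| ≤ 1 := by
    rw [← ENNReal.ofReal_one]
    apply ENNReal.ofReal_le_ofReal
    rw [abs_of_nonneg (by positivity)]
    exact inv_le_one_of_one_le₀ hr
  calc ENNReal.ofReal |r⁻¹| * volume T ≤ 1 * volume T := by gcongr
    _ = volume T := one_mul _

lemma G_close (ν : Measure ℝ) [IsFiniteMeasure ν] (B : ℝ) (hB : 0 < B)
    (hνle : ν ≤ ENNReal.ofReal B • volume) {S T : Set ℝ} (hS : MeasurableSet S)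
    (hT : MeasurableSet T) (e : ℝ) (he : 0 ≤ e) (hST : volume (S ∆ T) ≤ ENNReal.ofReal e)
    {r : ℝ} (hr : 1 ≤ r) (x : ℝ) : |G ν S r x - G ν T r x| ≤ B * e := by
  have h1 := abs_measureReal_sub_le_measureReal_symmDiff (μ := ν)
    (measurable_pre hS r x).nullMeasurableSet (measurable_pre hT r x).nullMeasurableSet
  have h2 : pre S r x ∆ pre T r x = pre (S ∆ T) r x := by
    ext z; simp [pre, Set.mem_symmDiff]
  rw [h2] at h1
  refine h1.trans ?_
  have h3 : ν (pre (S ∆ T) r x) ≤ ENNReal.ofReal (B * e) := by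
    calc ν (pre (S ∆ T) r x) ≤ (ENNReal.ofReal B • volume) (pre (S ∆ T) r x) := hνle _
      _ = ENNReal.ofReal B * volume (pre (S ∆ T) r x) := by simp
      _ ≤ ENNReal.ofReal B * ENNReal.ofReal e := by
          gcongr
          exact (vol_pre_le hr x).trans hST
      _ = ENNReal.ofReal (B * e) := by rw [ENNReal.ofReal_mul hB.le]
  exact ENNReal.toReal_le_of_le_ofReal (by positivity) h3

theorem oneD (ν : Measure ℝ) [IsFiniteMeasure ν] (B ρ : ℝ) (hB : 0 < B) (hρ : 0 ≤ ρ)
    (hνle : ν ≤ ENNReal.ofReal B • volume)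
    (hsupp : ν (Icc (-ρ) ρ)ᶜ = 0) (hm : 0 < ν.real univ) :
    ∃ T : Fin 14 → Set ℝ, (∀ k, MeasurableSet (T k)) ∧ ∀ r x x' : ℝ, 1 ≤ r → x ≠ x' →
      ∃ k, G ν (T k) r x ≠ G ν (T k) r x' := by
  classical
  have hν : ∀ a b : ℝ, a ≤ b → ν.real (Icc a b) ≤ B * (b - a) := by
    intro a b hab
    apply ENNReal.toReal_le_of_le_ofReal (mul_nonneg hB.le (by linarith))
    calc ν (Icc a b) ≤ (ENNReal.ofReal B • volume) (Icc a b) := hνle _
      _ = ENNReal.ofReal B * ENNReal.ofReal (b - a) := by simp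
      _ = ENNReal.ofReal (B * (b - a)) := by rw [ENNReal.ofReal_mul hB.le]
  have hac : ν ≪ volume := Measure.absolutelyContinuous_of_le_smul hνle
  set f : ℝ → ℝ := fun z => (ν.rnDeriv volume z).toReal with hf0
  have hfi : Integrable f := Measure.integrable_toReal_rnDeriv
  have hf : ∀ A : Set ℝ, MeasurableSet A → ν.real A = ∫ z in A, f z := by
    intro A _
    exact (Measure.setIntegral_toReal_rnDeriv hac A).symm
  have step : ∀ (n : ℕ) (s : St ν), ∃ s' : St ν,
      (∀ k, volume (s.S k ∆ s'.S k) ≤ ENNReal.ofReal (s.e / 2)) ∧ s'.e ≤ s.e / 2 ∧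
      ∃ μ : ℝ, 0 < μ ∧ s'.e ≤ μ / (8 * B) ∧ ∀ t, Kset ((n : ℝ) + 1) t →
        ∃ k, μ ≤ |G ν (s'.S k) t.1 t.2.1 - G ν (s'.S k) t.1 t.2.2| := by
    intro n s
    obtain ⟨S', C', hC', hS', hvol, μ, hμ, hsep⟩ := stage ν B ρ hB hρ hν f hfi hf hsupp hm s.S s.C
      s.hC s.hS ((n : ℝ) + 1) (by have : (0 : ℝ) ≤ n := Nat.cast_nonneg n; linarith) (s.e / 2)
      (by have := s.he; linarith)
    refine ⟨⟨S', C', min (s.e / 2) (μ / (8 * B)), hC', hS', ?_⟩, hvol, min_le_left _ _, μ, hμ,
      min_le_right _ _, hsep⟩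
    have := s.he
    exact lt_min (by linarith) (by positivity)
  choose next hnext using step
  let init : St ν := ⟨fun _ => ∅, 0, 1, le_rfl, fun _ => Reg.empty ν, one_pos⟩
  let seq : ℕ → St ν := fun n => Nat.rec init (fun n s => next n s) n
  have hseq : ∀ n, seq (n + 1) = next n (seq n) := fun n => rfl
  have hvol : ∀ n k, volume ((seq n).S k ∆ (seq (n + 1)).S k) ≤ ENNReal.ofReal ((seq n).e / 2) := by
    intro n k; rw [hseq]; exact (hnext n (seq n)).1 k
  have hehalf : ∀ n, (seq (n + 1)).e ≤ (seq n).e / 2 := by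
    intro n; rw [hseq]; exact (hnext n (seq n)).2.1
  have hegeo : ∀ n j, (seq (n + j)).e ≤ (seq n).e * (1 / 2) ^ j := by
    intro n j
    induction j with
    | zero => simp
    | succ j ih =>
      have := hehalf (n + j)
      rw [← add_assoc, pow_succ]
      linarith
  let T : Fin 14 → Set ℝ := fun k => ⋃ n : ℕ, ⋂ m : ℕ, (seq (n + m)).S k
  have hTm : ∀ k, MeasurableSet (T k) := fun k =>
    MeasurableSet.iUnion (fun n => MeasurableSet.iInter (fun m => ((seq (n + m)).hS k).1))
  have hTsub : ∀ n k, (seq n).S k ∆ T k ⊆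
      ⋃ j : ℕ, ((seq (n + j)).S k ∆ (seq (n + (j + 1))).S k) := by
    intro n k y hy
    by_contra hcon
    simp only [Set.mem_iUnion, not_exists] at hcon
    have hconst : ∀ j, (y ∈ (seq (n + j)).S k ↔ y ∈ (seq n).S k) := by
      intro j
      induction j with
      | zero => simp
      | succ j ih =>
        have := hcon j
        rw [Set.mem_symmDiff] at this
        rw [← ih]
        tauto
    have hiff : y ∈ T k ↔ y ∈ (seq n).S k := by
      simp only [T, Set.mem_iUnion, Set.mem_iInter]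
      constructor
      · rintro ⟨n', hn'⟩
        have h1 := hn' n
        have h2 := hconst n'
        rw [add_comm] at h1
        exact h2.mp h1
      · intro h
        exact ⟨n, fun m => (hconst m).mpr h⟩
    rw [Set.mem_symmDiff] at hy
    tauto
  have hTvol : ∀ n k, volume ((seq n).S k ∆ T k) ≤ ENNReal.ofReal ((seq n).e) := by
    intro n k
    calc volume ((seq n).S k ∆ T k)
        ≤ volume (⋃ j : ℕ, ((seq (n + j)).S k ∆ (seq (n + (j + 1))).S k)) :=
          measure_mono (hTsub n k)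
      _ ≤ ∑' j : ℕ, volume ((seq (n + j)).S k ∆ (seq (n + (j + 1))).S k) := measure_iUnion_le _
      _ ≤ ∑' j : ℕ, ENNReal.ofReal (((seq n).e / 2) * (1 / 2) ^ j) := by
          apply ENNReal.tsum_le_tsum
          intro j
          refine (hvol (n + j) k).trans (ENNReal.ofReal_le_ofReal ?_)
          have := hegeo n j
          linarith
      _ = ENNReal.ofReal (∑' j : ℕ, ((seq n).e / 2) * (1 / 2) ^ j) := by
          rw [ENNReal.ofReal_tsum_of_nonneg]
          · intro j
            have := (seq n).he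
            positivity
          · exact summable_geometric_two.mul_left _
      _ = ENNReal.ofReal ((seq n).e) := by
          rw [tsum_mul_left, tsum_geometric_two]
          congr 1; ring
  refine ⟨T, hTm, ?_⟩
  intro r x x' hr hxx
  have hpos : 0 < |x - x'| := abs_pos.mpr (sub_ne_zero.mpr hxx)
  obtain ⟨n, hn⟩ := exists_nat_gt (max (max r |x|) (max |x'| (1 / |x - x'|)))
  have h1 : r < n := lt_of_le_of_lt ((le_max_left _ _).trans (le_max_left _ _)) hn
  have h2 : |x| < n := lt_of_le_of_lt ((le_max_right _ _).trans (le_max_left _ _)) hn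
  have h3 : |x'| < n := lt_of_le_of_lt ((le_max_left _ _).trans (le_max_right _ _)) hn
  have h4 : 1 / |x - x'| < n := lt_of_le_of_lt ((le_max_right _ _).trans (le_max_right _ _)) hn
  have hn0 : (0 : ℝ) < n := by linarith
  have hK : Kset ((n : ℝ) + 1) (r, x, x') := by
    refine ⟨hr, by simp only []; linarith, by simp only []; linarith, by simp only []; linarith, ?_⟩
    simp only []
    rw [div_le_iff₀ (by linarith)]
    rw [div_lt_iff₀ hpos] at h4
    nlinarith
  obtain ⟨_, _, μ, hμ, heμ, hsep⟩ := hnext n (seq n)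
  obtain ⟨k, hk⟩ := hsep (r, x, x') hK
  rw [← hseq] at hk heμ
  refine ⟨k, fun heq => ?_⟩
  have c1 := G_close ν B hB hνle ((seq (n + 1)).hS k).1 (hTm k) (seq (n + 1)).e
    (seq (n + 1)).he.le (hTvol (n + 1) k) hr x
  have c2 := G_close ν B hB hνle ((seq (n + 1)).hS k).1 (hTm k) (seq (n + 1)).e
    (seq (n + 1)).he.le (hTvol (n + 1) k) hr x'
  have hBe : B * (seq (n + 1)).e ≤ μ / 8 := by
    calc B * (seq (n + 1)).e ≤ B * (μ / (8 * B)) := mul_le_mul_of_nonneg_left heμ hB.le
      _ = μ / 8 := by field_simp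
  simp only [] at hk
  have tri : |G ν ((seq (n + 1)).S k) r x - G ν ((seq (n + 1)).S k) r x'|
      ≤ |G ν ((seq (n + 1)).S k) r x - G ν (T k) r x|
        + |G ν ((seq (n + 1)).S k) r x' - G ν (T k) r x'| := by
    have : G ν ((seq (n + 1)).S k) r x - G ν ((seq (n + 1)).S k) r x'
        = (G ν ((seq (n + 1)).S k) r x - G ν (T k) r x)
          - (G ν ((seq (n + 1)).S k) r x' - G ν (T k) r x') := by rw [heq]; ring
    rw [this]
    exact abs_sub _ _
  linarith

end Pool.Agent.V11101.Rc
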