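import Mathlib

set_option autoImplicit false

open Finset

namespace Pool.Agent.V11101.Sen

/-! ### Elementary exponential bounds -/

theorem norm_one_add_le (z : ℂ) : ‖1 + z‖ ≤ Real.exp (z.re + ‖z‖ ^ 2 / 2) := by
  have h1 : ‖1 + z‖ ^ 2 = 1 + 2 * z.re + ‖z‖ ^ 2 := by
    rw [← Complex.normSq_eq_norm_sq, ← Complex.normSq_eq_norm_sq, Complex.normSq_apply,
      Complex.normSq_apply]
    simp only [Complex.add_re, Complex.one_re, Complex.add_im, Complex.one_im]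
    ring
  have h2 : ‖1 + z‖ ^ 2 ≤ (Real.exp (z.re + ‖z‖ ^ 2 / 2)) ^ 2 := by
    rw [h1, ← Real.exp_nat_mul]
    have := Real.add_one_le_exp (((2 : ℕ) : ℝ) * (z.re + ‖z‖ ^ 2 / 2))
    push_cast at this ⊢
    linarith
  exact (pow_le_pow_iff_left₀ (norm_nonneg _) (Real.exp_pos _).le two_ne_zero).1 h2

theorem norm_one_add_ge_34 (z : ℂ) (hz : ‖z‖ ≤ 1 / 4) : 3 / 4 ≤ ‖1 + z‖ := by
  have h : ‖(1 : ℂ)‖ - ‖z‖ ≤ ‖1 + z‖ := by
    have := norm_sub_norm_le (1 : ℂ) (-z)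
    rwa [norm_neg, sub_neg_eq_add] at this
  rw [norm_one] at h
  linarith

theorem norm_one_add_ge (z : ℂ) (hz : ‖z‖ ≤ 1 / 4) :
    Real.exp (z.re - 3 * ‖z‖ ^ 2) ≤ ‖1 + z‖ := by
  have h34 := norm_one_add_ge_34 z hz
  have hne : 1 + z ≠ 0 := by
    intro h; rw [h, norm_zero] at h34; linarith
  have hpos : 0 < ‖1 + z‖ := by linarith
  set u : ℂ := -z / (1 + z) with hu
  have h1 : 1 + u = (1 + z)⁻¹ := by rw [hu]; field_simp; ring
  have h2 : u = -z + z ^ 2 / (1 + z) := by rw [hu]; field_simp; ring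
  have h3 : u.re ≤ -z.re + 4 / 3 * ‖z‖ ^ 2 := by
    rw [h2, Complex.add_re, Complex.neg_re]
    have : (z ^ 2 / (1 + z)).re ≤ 4 / 3 * ‖z‖ ^ 2 := by
      refine (Complex.re_le_norm _).trans ?_
      rw [norm_div, norm_pow, div_le_iff₀ hpos]
      nlinarith [sq_nonneg ‖z‖]
    linarith
  have h4 : ‖u‖ ^ 2 ≤ 16 / 9 * ‖z‖ ^ 2 := by
    rw [hu, norm_div, norm_neg, div_pow, div_le_iff₀ (by positivity)]
    have : (9 / 16 : ℝ) ≤ ‖1 + z‖ ^ 2 := by nlinarith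
    nlinarith [sq_nonneg ‖z‖]
  have h5 := norm_one_add_le u
  rw [h1, norm_inv] at h5
  have h6 : Real.exp (u.re + ‖u‖ ^ 2 / 2) ≤ Real.exp (-(z.re - 3 * ‖z‖ ^ 2)) := by
    apply Real.exp_le_exp.2
    nlinarith [sq_nonneg ‖z‖]
  have h7 := h5.trans h6
  rw [Real.exp_neg] at h7
  exact (inv_le_inv₀ hpos (Real.exp_pos _)).1 h7

section phi

variable {m : ℕ} (w : Fin m → ℂ)

/-- `Φ(s) = ∏ (1 + s w_j)` -/
noncomputable def Phi (s : ℂ) : ℂ := ∏ j, (1 + s * w j)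

theorem Phi_le (hw : ∀ j, ‖w j‖ ≤ 2) (s : ℂ) :
    ‖Phi w s‖ ≤ Real.exp ((s * ∑ j, w j).re + 2 * m * ‖s‖ ^ 2) := by
  unfold Phi
  rw [norm_prod]
  calc ∏ j, ‖1 + s * w j‖ ≤ ∏ j, Real.exp ((s * w j).re + 2 * ‖s‖ ^ 2) := by
        apply Finset.prod_le_prod (fun _ _ => norm_nonneg _)
        intro j _
        refine (norm_one_add_le _).trans (Real.exp_le_exp.2 ?_)
        rw [norm_mul]
        have := hw j
        have h0 := norm_nonneg (w j)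
        have h1 := norm_nonneg s
        have : (‖s‖ * ‖w j‖) ^ 2 ≤ (‖s‖ * 2) ^ 2 := by gcongr
        nlinarith
    _ = Real.exp (∑ j, ((s * w j).re + 2 * ‖s‖ ^ 2)) := (Real.exp_sum _ _).symm
    _ = _ := by
        congr 1
        rw [Finset.sum_add_distrib, Finset.mul_sum, Complex.re_sum]
        simp
        ring

theorem Phi_ge (hw : ∀ j, ‖w j‖ ≤ 2) (s : ℂ) (hs : ‖s‖ ≤ 1 / 8) :
    Real.exp ((s * ∑ j, w j).re - 12 * m * ‖s‖ ^ 2) ≤ ‖Phi w s‖ := by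
  unfold Phi
  rw [norm_prod]
  calc Real.exp ((s * ∑ j, w j).re - 12 * m * ‖s‖ ^ 2)
      = Real.exp (∑ j, ((s * w j).re - 12 * ‖s‖ ^ 2)) := by
        congr 1
        rw [Finset.sum_sub_distrib, Finset.mul_sum, Complex.re_sum]
        simp
        ring
    _ = ∏ j, Real.exp ((s * w j).re - 12 * ‖s‖ ^ 2) := Real.exp_sum _ _
    _ ≤ ∏ j, ‖1 + s * w j‖ := by
        apply Finset.prod_le_prod (fun _ _ => (Real.exp_pos _).le)
        intro j _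
        have h0 := norm_nonneg (w j)
        have h1 := norm_nonneg s
        have h2 : ‖s * w j‖ ≤ 1 / 4 := by
          rw [norm_mul]
          calc ‖s‖ * ‖w j‖ ≤ 1 / 8 * 2 := by gcongr; exact hw j
            _ = 1 / 4 := by norm_num
        refine le_trans (Real.exp_le_exp.2 ?_) (norm_one_add_ge _ h2)
        rw [norm_mul]
        have : (‖s‖ * ‖w j‖) ^ 2 ≤ (‖s‖ * 2) ^ 2 := by gcongr; exact hw j
        nlinarith

end phi

/-! ### Derivative of the product along a segment -/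

theorem hasDerivAt_prod {ι : Type*} [DecidableEq ι] (S : Finset ι) (v : ι → ℂ) (t : ℝ)
    (h : ∀ j ∈ S, 1 + (t : ℂ) * v j ≠ 0) :
    HasDerivAt (fun t : ℝ => ∏ j ∈ S, (1 + (t : ℂ) * v j))
      ((∏ j ∈ S, (1 + (t : ℂ) * v j)) * ∑ j ∈ S, v j / (1 + (t : ℂ) * v j)) t := by
  induction S using Finset.induction_on with
  | empty => simpa using hasDerivAt_const t (1 : ℂ)
  | insert i S hi ih =>
    have h1 : HasDerivAt (fun t : ℝ => 1 + (t : ℂ) * v i) (v i) t := by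
      have := ((Complex.ofRealCLM.hasDerivAt (x := t)).mul_const (v i)).const_add (1 : ℂ)
      simpa using this
    have h2 := ih (fun j hj => h j (Finset.mem_insert_of_mem hj))
    have h3 := h1.mul h2
    have hne := h i (Finset.mem_insert_self i S)
    rw [Finset.prod_insert hi, Finset.sum_insert hi]
    have h4 : HasDerivAt (fun t : ℝ => ∏ j ∈ insert i S, (1 + (t : ℂ) * v j))
        (v i * ∏ j ∈ S, (1 + (t : ℂ) * v j) + (1 + (t : ℂ) * v i) *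
          ((∏ j ∈ S, (1 + (t : ℂ) * v j)) * ∑ j ∈ S, v j / (1 + (t : ℂ) * v j))) t := by
      refine h3.congr_of_eventuallyEq ?_
      filter_upwards with s
      simp only [Pi.mul_apply]
      rw [Finset.prod_insert hi]
    convert h4 using 1
    field_simp

theorem hasDerivAt_sum {ι : Type*} (S : Finset ι) (v : ι → ℂ) (t : ℝ)
    (h : ∀ j ∈ S, 1 + (t : ℂ) * v j ≠ 0) :
    HasDerivAt (fun t : ℝ => ∑ j ∈ S, v j / (1 + (t : ℂ) * v j))
      (-∑ j ∈ S, (v j / (1 + (t : ℂ) * v j)) ^ 2) t := by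
  rw [← Finset.sum_neg_distrib]
  have : (fun t : ℝ => ∑ j ∈ S, v j / (1 + (t : ℂ) * v j)) =
      ∑ j ∈ S, fun t : ℝ => v j / (1 + (t : ℂ) * v j) := by funext s; simp
  rw [this]
  apply HasDerivAt.sum
  intro j hj
  have h1 : HasDerivAt (fun t : ℝ => 1 + (t : ℂ) * v j) (v j) t := by
    have := ((Complex.ofRealCLM.hasDerivAt (x := t)).mul_const (v j)).const_add (1 : ℂ)
    simpa using this
  have h2 := (hasDerivAt_const t (v j)).div h1 (h j hj)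
  refine h2.congr_deriv ?_
  rw [zero_mul, zero_sub, div_pow, neg_div, ← sq (v j)]

/-- **Lemma C**: lower bound for the primitive in the directions where the derivative decays. -/
theorem lower {m : ℕ} (hm : 0 < m) (w : Fin m → ℂ) (hw : ∀ j, ‖w j‖ ≤ 2) (A : ℂ)
    (F : ℂ → ℂ) (hF0 : F 0 = 0) (hF : ∀ s, HasDerivAt F (A * Phi w s) s)
    (κ τ : ℝ) (hκ : 0 < κ) (hκ1 : κ ≤ 1) (hτ : 0 < τ) (hSg : m * κ ≤ (∑ j, w j).re)
    (s : ℂ) (hs0 : s ≠ 0) (hs1 : ‖s‖ ≤ κ ^ 2 / 256) (hs2 : ‖s‖ ≤ τ / 4)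
    (hs3 : (s * ∑ j, w j).re ≤ -(τ * m * ‖s‖))
    (hbig : Real.exp (-(m * ‖s‖ * τ / 2)) ≤ κ / 16) :
    ‖A‖ / (4 * m) ≤ ‖F s‖ := by
  have hm0 : (0 : ℝ) < m := by exact_mod_cast hm
  have hsn : 0 < ‖s‖ := norm_pos_iff.2 hs0
  have hs4 : ‖s‖ ≤ 1 / 8 := by
    have : κ ^ 2 ≤ 1 := by nlinarith
    linarith
  have hs5 : ‖s‖ ≤ κ / 12 := by
    have : κ ^ 2 ≤ κ := by nlinarith
    linarith
  set v : Fin m → ℂ := fun j => s * w j with hv
  have hvn : ∀ j, ‖v j‖ ≤ 2 * ‖s‖ := by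
    intro j
    rw [hv]; simp only; rw [norm_mul]
    nlinarith [hw j, norm_nonneg (w j)]
  have hvn4 : ∀ j, ∀ t : ℝ, t ∈ Set.Icc (0 : ℝ) 1 → ‖(t : ℂ) * v j‖ ≤ 1 / 4 := by
    intro j t ht
    rw [norm_mul, Complex.norm_real, Real.norm_of_nonneg ht.1]
    have h1 := hvn j
    have h2 := norm_nonneg (v j)
    nlinarith [ht.2, ht.1]
  have h34 : ∀ j, ∀ t : ℝ, t ∈ Set.Icc (0 : ℝ) 1 → 3 / 4 ≤ ‖1 + (t : ℂ) * v j‖ :=
    fun j t ht => norm_one_add_ge_34 _ (hvn4 j t ht)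
  have hne : ∀ t : ℝ, t ∈ Set.Icc (0 : ℝ) 1 → ∀ j ∈ (Finset.univ : Finset (Fin m)),
      1 + (t : ℂ) * v j ≠ 0 := by
    intro t ht j _ h
    have := h34 j t ht
    rw [h, norm_zero] at this
    linarith
  set φ : ℝ → ℂ := fun t => ∏ j, (1 + (t : ℂ) * v j) with hφ
  set L : ℝ → ℂ := fun t => ∑ j, v j / (1 + (t : ℂ) * v j) with hL
  set L' : ℝ → ℂ := fun t => -∑ j, (v j / (1 + (t : ℂ) * v j)) ^ 2 with hL'
  have hφP : ∀ t : ℝ, φ t = Phi w (t * s) := by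
    intro t
    rw [hφ]; unfold Phi
    apply Finset.prod_congr rfl
    intro j _
    rw [hv]; ring
  have hsum : L 0 = s * ∑ j, w j := by
    rw [hL]; simp only [Complex.ofReal_zero, zero_mul, add_zero, div_one]
    rw [Finset.mul_sum]
  have hL0lo : m * ‖s‖ * κ ≤ ‖L 0‖ := by
    rw [hsum, norm_mul]
    have : m * κ ≤ ‖∑ j, w j‖ := hSg.trans (Complex.re_le_norm _)
    nlinarith
  have hL0hi : ‖L 0‖ ≤ 2 * m * ‖s‖ := by
    rw [hsum, norm_mul]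
    have : ‖∑ j, w j‖ ≤ m * 2 := by
      refine (norm_sum_le _ _).trans ?_
      calc ∑ j, ‖w j‖ ≤ ∑ _j : Fin m, (2 : ℝ) := Finset.sum_le_sum fun j _ => hw j
        _ = m * 2 := by simp
    nlinarith
  have hquot : ∀ j, ∀ t : ℝ, t ∈ Set.Icc (0 : ℝ) 1 → ‖v j / (1 + (t : ℂ) * v j)‖ ≤ 8 / 3 * ‖s‖ := by
    intro j t ht
    rw [norm_div, div_le_iff₀ (by linarith [h34 j t ht])]
    have := h34 j t ht
    have := hvn j
    nlinarith
  have hLdiff : ∀ t : ℝ, t ∈ Set.Icc (0 : ℝ) 1 → ‖L t - L 0‖ ≤ 6 * m * ‖s‖ ^ 2 := by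
    intro t ht
    have e : L t - L 0 = ∑ j, (-(t : ℂ) * v j * (v j / (1 + (t : ℂ) * v j))) := by
      rw [hL]
      simp only [Complex.ofReal_zero, zero_mul, add_zero, div_one]
      rw [← Finset.sum_sub_distrib]
      apply Finset.sum_congr rfl
      intro j _
      have hd := hne t ht j (Finset.mem_univ j)
      obtain ⟨d, hdd⟩ : ∃ d, d = 1 + (t : ℂ) * v j := ⟨_, rfl⟩
      rw [← hdd] at hd ⊢
      field_simp
      rw [hdd]
      ring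
    rw [e]
    refine (norm_sum_le _ _).trans ?_
    calc ∑ j, ‖-(t : ℂ) * v j * (v j / (1 + (t : ℂ) * v j))‖
        ≤ ∑ _j : Fin m, (6 * ‖s‖ ^ 2) := by
          apply Finset.sum_le_sum
          intro j _
          rw [norm_mul, norm_mul, norm_neg, Complex.norm_real, Real.norm_of_nonneg ht.1]
          have h1 := hvn j
          have h2 := hquot j t ht
          have h3 := norm_nonneg (v j)
          have h4 := norm_nonneg (v j / (1 + (t : ℂ) * v j))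
          have h5 : t * ‖v j‖ ≤ 2 * ‖s‖ := by nlinarith [ht.1, ht.2]
          have h6 : 0 ≤ t * ‖v j‖ := mul_nonneg ht.1 h3
          calc t * ‖v j‖ * ‖v j / (1 + (t : ℂ) * v j)‖ ≤ (2 * ‖s‖) * (8 / 3 * ‖s‖) := by gcongr
            _ ≤ 6 * ‖s‖ ^ 2 := by nlinarith [sq_nonneg ‖s‖]
      _ = 6 * m * ‖s‖ ^ 2 := by simp; ring
  have hLlo : ∀ t : ℝ, t ∈ Set.Icc (0 : ℝ) 1 → m * ‖s‖ * κ / 2 ≤ ‖L t‖ := by
    intro t ht
    have h1 := hLdiff t ht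
    have h2 : ‖L 0‖ - ‖L t - L 0‖ ≤ ‖L t‖ := by
      have := norm_sub_norm_le (L 0) (L t)
      have h3 : ‖L 0 - L t‖ = ‖L t - L 0‖ := norm_sub_rev _ _
      linarith
    have h4 : 6 * m * ‖s‖ ^ 2 ≤ m * ‖s‖ * κ / 2 := by
      have : 0 ≤ m * ‖s‖ := by positivity
      nlinarith
    linarith
  have hLpos : ∀ t : ℝ, t ∈ Set.Icc (0 : ℝ) 1 → 0 < ‖L t‖ := by
    intro t ht
    refine lt_of_lt_of_le ?_ (hLlo t ht)
    positivity
  have hLne : ∀ t : ℝ, t ∈ Set.Icc (0 : ℝ) 1 → L t ≠ 0 := fun t ht => norm_pos_iff.1 (hLpos t ht)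
  have hL'hi : ∀ t : ℝ, t ∈ Set.Icc (0 : ℝ) 1 → ‖L' t‖ ≤ 8 * m * ‖s‖ ^ 2 := by
    intro t ht
    rw [hL']; simp only; rw [norm_neg]
    refine (norm_sum_le _ _).trans ?_
    calc ∑ j, ‖(v j / (1 + (t : ℂ) * v j)) ^ 2‖ ≤ ∑ _j : Fin m, (8 * ‖s‖ ^ 2) := by
          apply Finset.sum_le_sum
          intro j _
          rw [norm_pow]
          calc ‖v j / (1 + (t : ℂ) * v j)‖ ^ 2 ≤ (8 / 3 * ‖s‖) ^ 2 := by
                gcongr; exact hquot j t ht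
            _ ≤ 8 * ‖s‖ ^ 2 := by nlinarith [sq_nonneg ‖s‖]
      _ = 8 * m * ‖s‖ ^ 2 := by simp; ring
  have hφexp : ∀ t : ℝ, t ∈ Set.Icc (0 : ℝ) 1 → ‖φ t‖ ≤ Real.exp (-(m * ‖s‖ * t * τ / 2)) := by
    intro t ht
    rw [hφP t]
    refine (Phi_le w hw _).trans (Real.exp_le_exp.2 ?_)
    rw [norm_mul, Complex.norm_real, Real.norm_of_nonneg ht.1, mul_assoc, Complex.re_ofReal_mul]
    have h1 : t * (s * ∑ j, w j).re ≤ t * (-(τ * m * ‖s‖)) := by gcongr; exact ht.1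
    have h2 : 2 * m * (t * ‖s‖) ^ 2 ≤ t * (τ * m * ‖s‖) / 2 := by
      have h3 : t * ‖s‖ ≤ τ / 4 := by nlinarith [ht.1, ht.2]
      have h4 : 0 ≤ m * (t * ‖s‖) := by have := ht.1; positivity
      nlinarith
    linarith
  have hφ1 : ∀ t : ℝ, t ∈ Set.Icc (0 : ℝ) 1 → ‖φ t‖ ≤ 1 := by
    intro t ht
    refine (hφexp t ht).trans ?_
    rw [Real.exp_le_one_iff]
    have := ht.1
    have : 0 ≤ m * ‖s‖ * t * τ / 2 := by positivity
    linarith
  -- the error function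
  set E : ℝ → ℂ := fun t => F (t * s) - A * s * (φ t / L t) with hE
  have hEd : ∀ t ∈ Set.Icc (0 : ℝ) 1, HasDerivWithinAt E (A * s * (φ t * L' t / L t ^ 2))
      (Set.Icc 0 1) t := by
    intro t ht
    have d1 : HasDerivAt (fun t : ℝ => F ((t : ℂ) * s)) (A * Phi w (t * s) * s) t := by
      have h1 : HasDerivAt (fun t : ℝ => (t : ℂ) * s) s t := by
        have := (Complex.ofRealCLM.hasDerivAt (x := t)).mul_const s
        simpa using this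
      have h2 := (hF (t * s)).comp t h1
      exact h2
    have d2 := hasDerivAt_prod Finset.univ v t (hne t ht)
    have d3 := hasDerivAt_sum Finset.univ v t (hne t ht)
    have d4 := (d2.div d3 (hLne t ht)).const_mul (A * s)
    have d5 := d1.sub d4
    refine (d5.congr_deriv ?_).hasDerivWithinAt
    rw [← hφP t]
    change A * φ t * s - A * s * ((φ t * L t * L t - φ t * L' t) / L t ^ 2) = _
    have := hLne t ht
    field_simp
    ring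
  have hEb : ∀ t ∈ Set.Ico (0 : ℝ) 1, ‖A * s * (φ t * L' t / L t ^ 2)‖ ≤ ‖A‖ / (8 * m) := by
    intro t ht
    have ht' : t ∈ Set.Icc (0 : ℝ) 1 := ⟨ht.1, ht.2.le⟩
    rw [norm_mul, norm_mul, norm_div, norm_mul, norm_pow]
    have h1 := hφ1 t ht'
    have h2 := hL'hi t ht'
    have h3 := hLlo t ht'
    have h4 : ‖φ t‖ * ‖L' t‖ / ‖L t‖ ^ 2 ≤ 32 / (m * κ ^ 2) := by
      rw [div_le_div_iff₀ (by have := hLpos t ht'; positivity) (by positivity)]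
      have h5 : ‖φ t‖ * ‖L' t‖ ≤ 8 * m * ‖s‖ ^ 2 := by
        calc _ ≤ 1 * (8 * m * ‖s‖ ^ 2) := by gcongr
          _ = _ := by ring
      have h6 : (m * ‖s‖ * κ / 2) ^ 2 ≤ ‖L t‖ ^ 2 := by gcongr
      calc ‖φ t‖ * ‖L' t‖ * (m * κ ^ 2) ≤ 8 * m * ‖s‖ ^ 2 * (m * κ ^ 2) := by gcongr
        _ = 32 * (m * ‖s‖ * κ / 2) ^ 2 := by ring
        _ ≤ _ := by gcongr
    calc ‖A‖ * ‖s‖ * (‖φ t‖ * ‖L' t‖ / ‖L t‖ ^ 2) ≤ ‖A‖ * (κ ^ 2 / 256) * (32 / (m * κ ^ 2)) := by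
          gcongr
      _ = ‖A‖ / (8 * m) := by field_simp; ring
  have hmv := norm_image_sub_le_of_norm_deriv_le_segment_01' hEd hEb
  have hE0 : E 0 = -(A * s * (1 / L 0)) := by
    rw [hE]
    simp only [Complex.ofReal_zero, zero_mul, hF0, zero_sub]
    congr 2
    rw [hφ]
    simp
  have hE1 : E 1 = F s - A * s * (φ 1 / L 1) := by
    rw [hE]; simp
  rw [hE0, hE1] at hmv
  have h1mem : (1 : ℝ) ∈ Set.Icc (0 : ℝ) 1 := ⟨zero_le_one, le_rfl⟩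
  have hA := norm_nonneg A
  have t1 : ‖A‖ / (2 * m) ≤ ‖A * s * (1 / L 0)‖ := by
    rw [norm_mul, norm_mul, norm_div, norm_one]
    have h0mem : (0 : ℝ) ∈ Set.Icc (0 : ℝ) 1 := ⟨le_rfl, zero_le_one⟩
    calc ‖A‖ / (2 * m) = ‖A‖ * ‖s‖ * (1 / (2 * m * ‖s‖)) := by field_simp
      _ ≤ _ := by
        have := hLpos 0 h0mem
        gcongr
  have t2 : ‖A * s * (φ 1 / L 1)‖ ≤ ‖A‖ / (8 * m) := by
    rw [norm_mul, norm_mul, norm_div]
    have h1 : ‖φ 1‖ ≤ κ / 16 := by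
      refine (hφexp 1 h1mem).trans (le_trans (le_of_eq ?_) hbig)
      congr 1; ring
    calc ‖A‖ * ‖s‖ * (‖φ 1‖ / ‖L 1‖) ≤ ‖A‖ * ‖s‖ * ((κ / 16) / (m * ‖s‖ * κ / 2)) := by
          gcongr
          exact hLlo 1 h1mem
      _ = ‖A‖ / (8 * m) := by field_simp; ring
  have t3 : ‖A * s * (1 / L 0)‖ ≤ ‖F s‖ + ‖A * s * (φ 1 / L 1)‖ +
      ‖F s - A * s * (φ 1 / L 1) - -(A * s * (1 / L 0))‖ := by
    have : A * s * (1 / L 0) = -(F s) + A * s * (φ 1 / L 1) +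
      (F s - A * s * (φ 1 / L 1) - -(A * s * (1 / L 0))) := by ring
    calc ‖A * s * (1 / L 0)‖ = ‖-(F s) + A * s * (φ 1 / L 1) +
        (F s - A * s * (φ 1 / L 1) - -(A * s * (1 / L 0)))‖ := by rw [← this]
      _ ≤ ‖-(F s) + A * s * (φ 1 / L 1)‖ + _ := norm_add_le _ _
      _ ≤ ‖-(F s)‖ + ‖A * s * (φ 1 / L 1)‖ + _ := by gcongr; exact norm_add_le _ _
      _ = _ := by rw [norm_neg]
  have e1 : ‖A‖ / (2 * m) = 4 * (‖A‖ / (8 * m)) := by field_simp; ring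
  have e2 : ‖A‖ / (4 * m) = 2 * (‖A‖ / (8 * m)) := by field_simp; ring
  rw [e2]
  rw [e1] at t1
  linarith

end Pool.Agent.V11101.Sen
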