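import Pool.Agent.V11101.Sen

set_option autoImplicit false

open Finset

namespace Pool.Agent.V11101.Sen

/-- A monic polynomial of degree `m + 1` with zeros `z`, all in the closed unit disk, vanishing at
`a`, whose critical points `ζ` all lie at distance at least `1 - ε` from `a`. -/
structure Config (a ε : ℝ) (m : ℕ) (z : Fin (m + 1) → ℂ) (ζ : Fin m → ℂ) : Prop where
  der : ∀ x : ℂ, HasDerivAt (fun x : ℂ => ∏ j, (x - z j)) (((m : ℂ) + 1) * ∏ j, (x - ζ j)) x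
  hz : ∀ j, ‖z j‖ ≤ 1
  hζ : ∀ j, ‖ζ j‖ ≤ 1
  ha : ∃ j, z j = a
  far : ∀ j, 1 - ε ≤ ‖ζ j - a‖

section

variable {a ε : ℝ} {m : ℕ} {z : Fin (m + 1) → ℂ} {ζ : Fin m → ℂ}

/-- the polynomial as a function -/
noncomputable def pol {n : ℕ} (z : Fin n → ℂ) (x : ℂ) : ℂ := ∏ j, (x - z j)

/-- the weights -/
noncomputable def wt (a : ℝ) (ζ : Fin m → ℂ) (j : Fin m) : ℂ := 1 / (a - ζ j)

/-- the derivative at `a` -/
noncomputable def AA (a : ℝ) (ζ : Fin m → ℂ) : ℂ := ((m : ℂ) + 1) * ∏ j, ((a : ℂ) - ζ j)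

theorem pol_a (h : Config a ε m z ζ) : pol z a = 0 := by
  obtain ⟨j, hj⟩ := h.ha
  unfold pol
  exact Finset.prod_eq_zero (Finset.mem_univ j) (by rw [hj, sub_self])

theorem dist_lb (h : Config a ε m z ζ) (hε : ε ≤ 1 / 2) (j : Fin m) :
    1 - ε ≤ ‖(a : ℂ) - ζ j‖ ∧ 1 / 2 ≤ ‖(a : ℂ) - ζ j‖ := by
  have := h.far j
  rw [norm_sub_rev] at this
  exact ⟨this, by linarith⟩

theorem ne_zero' (h : Config a ε m z ζ) (hε : ε ≤ 1 / 2) (j : Fin m) : (a : ℂ) - ζ j ≠ 0 := by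
  have := (dist_lb h hε j).2
  intro h0
  rw [h0, norm_zero] at this
  linarith

theorem der_eq (h : Config a ε m z ζ) (hε : ε ≤ 1 / 2) (s : ℂ) :
    ((m : ℂ) + 1) * ∏ j, ((a : ℂ) + s - ζ j) = AA a ζ * Phi (wt a ζ) s := by
  unfold AA Phi wt
  rw [mul_assoc, ← Finset.prod_mul_distrib]
  congr 1
  apply Finset.prod_congr rfl
  intro j _
  have := ne_zero' h hε j
  field_simp
  ring

theorem hasDerivAt_F (h : Config a ε m z ζ) (hε : ε ≤ 1 / 2) (s : ℂ) :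
    HasDerivAt (fun s : ℂ => pol z (a + s)) (AA a ζ * Phi (wt a ζ) s) s := by
  rw [← der_eq h hε]
  have h1 := (h.der (a + s))
  have h2 : HasDerivAt (fun s : ℂ => (a : ℂ) + s) 1 s := (hasDerivAt_id s).const_add _
  have h3 := h1.comp s h2
  rw [mul_one] at h3
  exact h3

theorem wt_le (h : Config a ε m z ζ) (hε : ε ≤ 1 / 2) (j : Fin m) : ‖wt a ζ j‖ ≤ 2 := by
  have h1 := (dist_lb h hε j).2
  unfold wt
  rw [norm_div, norm_one, div_le_iff₀ (by linarith)]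
  linarith

theorem normSq_sub (a : ℝ) (ζ : ℂ) : ‖(a : ℂ) - ζ‖ ^ 2 = a ^ 2 - 2 * a * ζ.re + ‖ζ‖ ^ 2 := by
  rw [← Complex.normSq_eq_norm_sq, ← Complex.normSq_eq_norm_sq, Complex.normSq_apply,
    Complex.normSq_apply]
  simp
  ring

theorem wt_re (h : Config a ε m z ζ) (ha0 : 0 < a) (ha1 : a < 1) (hε0 : 0 < ε) (hε : ε ≤ 1 / 2)
    (hε2 : ε ≤ a ^ 2 / 4) (j : Fin m) : a / 16 ≤ (wt a ζ j).re := by
  have h1 := (dist_lb h hε j).1
  have h2 := h.hζ j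
  have h3 := normSq_sub a (ζ j)
  have h4 : (1 - ε) ^ 2 ≤ ‖(a : ℂ) - ζ j‖ ^ 2 := by
    apply pow_le_pow_left₀ (by linarith) h1
  have h5 : ‖ζ j‖ ^ 2 ≤ 1 := by nlinarith [norm_nonneg (ζ j)]
  have h6 : (ζ j).re ≤ 3 * a / 4 := by nlinarith
  have h7 : ‖(a : ℂ) - ζ j‖ ≤ 2 := by
    calc _ ≤ ‖(a : ℂ)‖ + ‖ζ j‖ := norm_sub_le _ _
      _ ≤ 1 + 1 := by
        rw [Complex.norm_real, Real.norm_of_nonneg ha0.le]
        linarith
      _ = 2 := by norm_num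
  have h8 : 0 < ‖(a : ℂ) - ζ j‖ := by have := (dist_lb h hε j).2; linarith
  unfold wt
  rw [one_div, Complex.inv_re, Complex.normSq_eq_norm_sq, le_div_iff₀ (by positivity)]
  have h9 : ((a : ℂ) - ζ j).re = a - (ζ j).re := by simp
  rw [h9]
  have h10 : ‖(a : ℂ) - ζ j‖ ^ 2 ≤ 4 := by nlinarith
  nlinarith

theorem sum_re (h : Config a ε m z ζ) (ha0 : 0 < a) (ha1 : a < 1) (hε0 : 0 < ε) (hε : ε ≤ 1 / 2)
    (hε2 : ε ≤ a ^ 2 / 4) : m * (a / 16) ≤ (∑ j, wt a ζ j).re := by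
  rw [Complex.re_sum]
  calc m * (a / 16) = ∑ _j : Fin m, a / 16 := by simp
    _ ≤ _ := Finset.sum_le_sum fun j _ => wt_re h ha0 ha1 hε0 hε hε2 j

theorem sum_norm (h : Config a ε m z ζ) (hε : ε ≤ 1 / 2) : ‖∑ j, wt a ζ j‖ ≤ 2 * m := by
  refine (norm_sum_le _ _).trans ?_
  calc ∑ j, ‖wt a ζ j‖ ≤ ∑ _j : Fin m, (2 : ℝ) := Finset.sum_le_sum fun j _ => wt_le h hε j
    _ = 2 * m := by simp; ring

theorem AA_norm (h : Config a ε m z ζ) : ‖AA a ζ‖ = (m + 1) * ∏ j, ‖(a : ℂ) - ζ j‖ := by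
  unfold AA
  rw [norm_mul, norm_prod]
  congr 1
  have : ((m : ℂ) + 1) = ((m + 1 : ℕ) : ℂ) := by push_cast; rfl
  rw [this, Complex.norm_natCast]
  push_cast; rfl

theorem AA_pos (h : Config a ε m z ζ) (hε : ε ≤ 1 / 2) : 0 < ‖AA a ζ‖ := by
  rw [AA_norm h]
  apply mul_pos (by positivity)
  apply Finset.prod_pos
  intro j _
  have := (dist_lb h hε j).2
  linarith

/-- the lower bound of Lemma C for our configuration -/
theorem lower' (h : Config a ε m z ζ) (ha0 : 0 < a) (ha1 : a < 1) (hε0 : 0 < ε) (hε : ε ≤ 1 / 2)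
    (hε2 : ε ≤ a ^ 2 / 4) (hm : 0 < m) (s0 : ℝ) (hs0 : 0 < s0) (hs1 : 4 * s0 ≤ (a / 16) ^ 2 / 256)
    (hbig : Real.exp (-(m * (s0 / 2) * (a / 1024) / 2)) ≤ a / 256)
    (s : ℂ) (h1 : s0 / 2 ≤ ‖s‖) (h2 : ‖s‖ ≤ 4 * s0)
    (h3 : (s * ∑ j, wt a ζ j).re ≤ -(a / 1024 * m * ‖s‖)) :
    ‖AA a ζ‖ / (4 * m) ≤ ‖pol z (a + s)‖ := by
  have hm0 : (0 : ℝ) < m := by exact_mod_cast hm
  have := lower hm (wt a ζ) (wt_le h hε) (AA a ζ) (fun s => pol z (a + s))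
    (by simpa using pol_a h) (hasDerivAt_F h hε) (a / 16) (a / 1024) (by linarith) (by linarith)
    (by linarith) (sum_re h ha0 ha1 hε0 hε hε2) s
    (by intro h0; rw [h0, norm_zero] at h1; linarith) (by linarith)
    (by
      have : (a / 16) ^ 2 ≤ a / 16 := by nlinarith
      linarith) h3 ?_
  · exact this
  · refine le_trans ?_ (hbig.trans (le_of_eq (by ring)))
    apply Real.exp_le_exp.2
    have : m * (s0 / 2) * (a / 1024) ≤ m * ‖s‖ * (a / 1024) := by gcongr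
    linarith

/-- value to the left of `a` -/
theorem left_value (h : Config a ε m z ζ) (ha0 : 0 < a) (ha1 : a < 1) (hε0 : 0 < ε)
    (hε : ε ≤ 1 / 2) (hε2 : ε ≤ a ^ 2 / 4) (hm : 0 < m) (s0 : ℝ) (hs0 : 0 < s0)
    (hs1 : 4 * s0 ≤ (a / 16) ^ 2 / 256)
    (hbig : Real.exp (-(m * (s0 / 2) * (a / 1024) / 2)) ≤ a / 256) :
    ‖AA a ζ‖ / (4 * m) ≤ ‖pol z ((a - s0 : ℝ) : ℂ)‖ := by
  have hm0 : (0 : ℝ) < m := by exact_mod_cast hm
  have h1 := lower' h ha0 ha1 hε0 hε hε2 hm s0 hs0 hs1 hbig (-(s0 : ℂ))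
    (by rw [norm_neg, Complex.norm_real, Real.norm_of_nonneg hs0.le]; linarith)
    (by rw [norm_neg, Complex.norm_real, Real.norm_of_nonneg hs0.le]; linarith)
    (by
      rw [norm_neg, Complex.norm_real, Real.norm_of_nonneg hs0.le, neg_mul, Complex.neg_re,
        Complex.re_ofReal_mul]
      have h2 := sum_re h ha0 ha1 hε0 hε hε2
      have h3 : s0 * (m * (a / 16)) ≤ s0 * (∑ j, wt a ζ j).re := by gcongr
      have h4 : 0 ≤ s0 * m * a := by positivity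
      nlinarith)
  have e : (a : ℂ) + -(s0 : ℂ) = ((a - s0 : ℝ) : ℂ) := by push_cast; ring
  rw [e] at h1
  exact h1

/-- `log 8` etc. -/
theorem natCast_add_one_norm (m : ℕ) : ‖((m : ℂ) + 1)‖ = m + 1 := by
  have : ((m : ℂ) + 1) = ((m + 1 : ℕ) : ℂ) := by push_cast; rfl
  rw [this, Complex.norm_natCast]
  push_cast; rfl

/-- the norm of the derivative on the segment -/
theorem seg_bound (h : Config a ε m z ζ) (ha0 : 0 < a) (ha1 : a < 1) (hε0 : 0 < ε)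
    (hε : ε ≤ 1 / 2) (s0 x0 : ℝ) (hs0 : 0 < s0) (hx0 : 0 < x0) (hεx : 2 * ε ≤ x0 * a / 2)
    (x : ℝ) (hx1 : x0 ≤ x) (hx2 : x ≤ a - s0) :
    ‖((m : ℂ) + 1) * ∏ j, ((x : ℂ) - ζ j)‖ ≤ ‖AA a ζ‖ * Real.exp (-(m * (s0 * x0 / 16))) := by
  have hone : ∀ j, ‖(x : ℂ) - ζ j‖ ≤ ‖(a : ℂ) - ζ j‖ * Real.exp (-(s0 * x0 / 16)) := by
    intro j
    have hD0 := (dist_lb h hε j).1
    have hDp : 0 < ‖(a : ℂ) - ζ j‖ := by have := (dist_lb h hε j).2; linarith
    have hD2 : ‖(a : ℂ) - ζ j‖ ≤ 2 := by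
      calc _ ≤ ‖(a : ℂ)‖ + ‖ζ j‖ := norm_sub_le _ _
        _ ≤ 1 + 1 := by
          rw [Complex.norm_real, Real.norm_of_nonneg ha0.le]
          have := h.hζ j
          linarith
        _ = 2 := by norm_num
    have hζ2 : ‖ζ j‖ ^ 2 ≤ 1 := by nlinarith [norm_nonneg (ζ j), h.hζ j]
    have e1 := normSq_sub a (ζ j)
    have e2 := normSq_sub x (ζ j)
    set D := ‖(a : ℂ) - ζ j‖ ^ 2 with hD
    have hDlo : 1 - 2 * ε ≤ D := by
      have : (1 - ε) ^ 2 ≤ D := pow_le_pow_left₀ (by linarith) hD0 2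
      nlinarith
    have hDhi : D ≤ 4 := by rw [hD]; nlinarith
    have hDpos : 0 < D := by positivity
    -- convexity
    set lam : ℝ := (a - x) / a with hlam
    have hl1 : s0 / a ≤ lam := by rw [hlam]; gcongr; linarith
    have hl0 : 0 < lam := lt_of_lt_of_le (by positivity) hl1
    have hxa : x = (1 - lam) * a := by rw [hlam]; field_simp; ring
    have e3 : ‖(x : ℂ) - ζ j‖ ^ 2 = (1 - lam) * D + lam * ‖ζ j‖ ^ 2 - lam * (1 - lam) * a ^ 2 := by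
      rw [e2, e1, hxa]; ring
    have e4 : ‖(x : ℂ) - ζ j‖ ^ 2 ≤ D * (1 - s0 * x0 / 8) := by
      have h5 : (1 - lam) * a ^ 2 = x * a := by rw [hxa]; ring
      have h6 : ‖(x : ℂ) - ζ j‖ ^ 2 ≤ D + lam * (1 - D - x * a) := by
        rw [e3]
        have : lam * (1 - lam) * a ^ 2 = lam * (x * a) := by rw [mul_assoc, h5]
        rw [this]
        nlinarith
      have h7 : 1 - D - x * a ≤ -(x0 * a / 2) := by nlinarith
      have h8 : lam * (1 - D - x * a) ≤ (s0 / a) * (-(x0 * a / 2)) := by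
        have h9 : 0 < x0 * a / 2 := by positivity
        nlinarith
      have h9 : (s0 / a) * (-(x0 * a / 2)) = -(s0 * x0 / 2) := by field_simp
      rw [h9] at h8
      have h10 : 0 < s0 * x0 := by positivity
      nlinarith
    have e5 : ‖(x : ℂ) - ζ j‖ ^ 2 ≤ (‖(a : ℂ) - ζ j‖ * Real.exp (-(s0 * x0 / 16))) ^ 2 := by
      rw [mul_pow, ← Real.exp_nat_mul]
      refine e4.trans ?_
      gcongr
      have := Real.add_one_le_exp (((2 : ℕ) : ℝ) * (-(s0 * x0 / 16)))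
      push_cast at this ⊢
      linarith
    exact (pow_le_pow_iff_left₀ (norm_nonneg _) (by positivity) two_ne_zero).1 e5
  rw [AA_norm h, norm_mul, norm_prod]
  have e : ‖((m : ℂ) + 1)‖ = m + 1 := by
    have : ((m : ℂ) + 1) = ((m + 1 : ℕ) : ℂ) := by push_cast; rfl
    rw [this, Complex.norm_natCast]
    push_cast; rfl
  rw [e, mul_assoc]
  gcongr
  calc ∏ j, ‖(x : ℂ) - ζ j‖ ≤ ∏ j, (‖(a : ℂ) - ζ j‖ * Real.exp (-(s0 * x0 / 16))) :=
        Finset.prod_le_prod (fun _ _ => norm_nonneg _) (fun j _ => hone j)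
    _ = _ := by
      rw [Finset.prod_mul_distrib, Finset.prod_const, Finset.card_univ, Fintype.card_fin,
        ← Real.exp_nat_mul]
      congr 2
      ring

theorem hasDerivAt_real (h : Config a ε m z ζ) (t : ℝ) :
    HasDerivAt (fun t : ℝ => pol z (t : ℂ)) (((m : ℂ) + 1) * ∏ j, ((t : ℂ) - ζ j)) t := by
  have h1 := (h.der (t : ℂ)).comp_ofReal
  exact h1

/-- lower bound at `x0` -/
theorem value_x0 (h : Config a ε m z ζ) (ha0 : 0 < a) (ha1 : a < 1) (hε0 : 0 < ε)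
    (hε : ε ≤ 1 / 2) (hε2 : ε ≤ a ^ 2 / 4) (hm : 0 < m) (s0 x0 : ℝ) (hs0 : 0 < s0)
    (hs1 : 4 * s0 ≤ (a / 16) ^ 2 / 256)
    (hbig : Real.exp (-(m * (s0 / 2) * (a / 1024) / 2)) ≤ a / 256)
    (hx0 : 0 < x0) (hxs : x0 ≤ a - s0) (hεx : 2 * ε ≤ x0 * a / 2)
    (hbig2 : Real.exp (-(m * (s0 * x0 / 16))) ≤ 1 / (8 * m)) :
    ‖AA a ζ‖ / (8 * m) ≤ ‖pol z (x0 : ℂ)‖ := by
  have hm0 : (0 : ℝ) < m := by exact_mod_cast hm
  have h1 := left_value h ha0 ha1 hε0 hε hε2 hm s0 hs0 hs1 hbig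
  have h2 := norm_image_sub_le_of_norm_deriv_le_segment' (f := fun t : ℝ => pol z (t : ℂ))
    (a := x0) (b := a - s0) (C := ‖AA a ζ‖ * Real.exp (-(m * (s0 * x0 / 16))))
    (fun t _ => (hasDerivAt_real h t).hasDerivWithinAt)
    (fun t ht => seg_bound h ha0 ha1 hε0 hε s0 x0 hs0 hx0 hεx t ht.1 ht.2.le) (a - s0)
    ⟨hxs, le_rfl⟩
  have h3 : ‖AA a ζ‖ * Real.exp (-(m * (s0 * x0 / 16))) * (a - s0 - x0) ≤ ‖AA a ζ‖ / (8 * m) := by
    calc _ ≤ ‖AA a ζ‖ * (1 / (8 * m)) * 1 :=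
          mul_le_mul (mul_le_mul_of_nonneg_left hbig2 (norm_nonneg _)) (by linarith)
            (by linarith) (by positivity)
      _ = _ := by ring
  have h4 : ‖pol z ((a - s0 : ℝ) : ℂ)‖ - ‖pol z (x0 : ℂ)‖ ≤
      ‖pol z ((a - s0 : ℝ) : ℂ) - pol z (x0 : ℂ)‖ := norm_sub_norm_le _ _
  have e : ‖AA a ζ‖ / (4 * m) = 2 * (‖AA a ζ‖ / (8 * m)) := by field_simp; ring
  rw [e] at h1
  linarith

/-- **Counting inequality**: few zeros away from the unit circle. -/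
theorem count_ineq (h : Config a ε m z ζ) (ha0 : 0 < a) (ha1 : a < 1) (hε0 : 0 < ε)
    (hε : ε ≤ 1 / 2) (hε2 : ε ≤ a ^ 2 / 4) (hm : 0 < m) (s0 x0 η : ℝ) (hs0 : 0 < s0)
    (hs1 : 4 * s0 ≤ (a / 16) ^ 2 / 256)
    (hbig : Real.exp (-(m * (s0 / 2) * (a / 1024) / 2)) ≤ a / 256)
    (hx0 : 0 < x0) (hxs : x0 ≤ a - s0) (hεx : 2 * ε ≤ x0 * a / 2)
    (hbig2 : Real.exp (-(m * (s0 * x0 / 16))) ≤ 1 / (8 * m)) (hη : x0 ≤ η) :
    (η - x0) * ((Finset.univ.filter (fun j => ‖z j‖ ≤ 1 - η)).card : ℝ) ≤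
      (m + 1) * x0 + 2 * ε * m + Real.log 8 := by
  have hm0 : (0 : ℝ) < m := by exact_mod_cast hm
  have h1 := value_x0 h ha0 ha1 hε0 hε hε2 hm s0 x0 hs0 hs1 hbig hx0 hxs hεx hbig2
  -- upper bound of the product
  have h2 : ‖pol z (x0 : ℂ)‖ ≤ Real.exp ((m + 1) * x0 -
      (η - x0) * ((Finset.univ.filter (fun j => ‖z j‖ ≤ 1 - η)).card : ℝ)) := by
    unfold pol
    rw [norm_prod]
    calc ∏ j, ‖(x0 : ℂ) - z j‖ ≤
          ∏ j, Real.exp (x0 - (η - x0) * (if ‖z j‖ ≤ 1 - η then 1 else 0)) := by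
          apply Finset.prod_le_prod (fun _ _ => norm_nonneg _)
          intro j _
          have h3 : ‖(x0 : ℂ) - z j‖ ≤ x0 + ‖z j‖ := by
            refine (norm_sub_le _ _).trans ?_
            rw [Complex.norm_real, Real.norm_of_nonneg hx0.le]
          split_ifs with hj
          · rw [mul_one]
            have := Real.add_one_le_exp (x0 - (η - x0))
            linarith
          · rw [mul_zero, sub_zero]
            have := Real.add_one_le_exp x0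
            have := h.hz j
            linarith
      _ = Real.exp (∑ j, (x0 - (η - x0) * (if ‖z j‖ ≤ 1 - η then 1 else 0))) :=
          (Real.exp_sum _ _).symm
      _ = _ := by
          congr 1
          rw [Finset.sum_sub_distrib, ← Finset.mul_sum, Finset.sum_boole]
          simp
  -- lower bound of `A`
  have h3 : (m + 1) * Real.exp (-(2 * ε * m)) ≤ ‖AA a ζ‖ := by
    rw [AA_norm h]
    gcongr
    calc Real.exp (-(2 * ε * m)) = ∏ _j : Fin m, Real.exp (-(2 * ε)) := by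
          rw [Finset.prod_const, Finset.card_univ, Fintype.card_fin, ← Real.exp_nat_mul]
          congr 1; ring
      _ ≤ ∏ j, ‖(a : ℂ) - ζ j‖ := by
          apply Finset.prod_le_prod (fun _ _ => (Real.exp_pos _).le)
          intro j _
          refine le_trans ?_ (dist_lb h hε j).1
          -- `exp (-2ε) ≤ 1 - ε`
          rw [Real.exp_neg]
          apply inv_le_of_inv_le₀ (by linarith)
          rw [inv_eq_one_div, div_le_iff₀ (by linarith)]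
          have := Real.add_one_le_exp (2 * ε)
          nlinarith
  have h4 : Real.exp (-(2 * ε * m)) / 8 ≤ Real.exp ((m + 1) * x0 -
      (η - x0) * ((Finset.univ.filter (fun j => ‖z j‖ ≤ 1 - η)).card : ℝ)) := by
    refine le_trans ?_ (h1.trans h2)
    rw [div_le_div_iff₀ (by norm_num) (by positivity)]
    have := Real.exp_pos (-(2 * ε * m))
    nlinarith
  have h5 := Real.log_le_log (by positivity) h4
  rw [Real.log_exp, Real.log_div (Real.exp_pos _).ne' (by norm_num), Real.log_exp] at h5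
  linarith

end

end Pool.Agent.V11101.Sen
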