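import Pool.Agent.V11101.Sen2

set_option autoImplicit false

open Finset

namespace Pool.Agent.V11101.Sen

section

variable {a ε : ℝ} {m : ℕ} {z : Fin (m + 1) → ℂ} {ζ : Fin m → ℂ}

/-- upper bound at `a - s0` -/
theorem left_upper (h : Config a ε m z ζ) (ha0 : 0 < a) (ha1 : a < 1) (hε0 : 0 < ε)
    (hε : ε ≤ 1 / 2) (hε2 : ε ≤ a ^ 2 / 4) (s0 : ℝ) (hs0 : 0 < s0)
    (hs1 : 4 * s0 ≤ (a / 16) ^ 2 / 256) :
    ‖pol z ((a - s0 : ℝ) : ℂ)‖ ≤ ‖AA a ζ‖ := by
  have hbd : ∀ t ∈ Set.Ico (a - s0) a,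
      ‖((m : ℂ) + 1) * ∏ j, ((t : ℂ) - ζ j)‖ ≤ ‖AA a ζ‖ := by
    intro t ht
    have e := der_eq h hε ((t - a : ℝ) : ℂ)
    have e2 : (a : ℂ) + ((t - a : ℝ) : ℂ) = (t : ℂ) := by push_cast; ring
    rw [e2] at e
    rw [e, norm_mul]
    have h1 := Phi_le (wt a ζ) (wt_le h hε) ((t - a : ℝ) : ℂ)
    have h2 : Real.exp ((((t - a : ℝ) : ℂ) * ∑ j, wt a ζ j).re + 2 * m * ‖((t - a : ℝ) : ℂ)‖ ^ 2)
        ≤ 1 := by
      rw [Real.exp_le_one_iff, Complex.re_ofReal_mul, Complex.norm_real, Real.norm_eq_abs, sq_abs]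
      have h3 := sum_re h ha0 ha1 hε0 hε hε2
      have h4 : 0 ≤ a - t := by linarith [ht.2]
      have h5 : a - t ≤ s0 := by linarith [ht.1]
      have h6 : (t - a) * (∑ j, wt a ζ j).re ≤ -((a - t) * (m * (a / 16))) := by nlinarith
      have h7 : 2 * m * (t - a) ^ 2 ≤ (a - t) * (m * (a / 16)) := by
        have h8 : 2 * (a - t) ≤ a / 16 := by nlinarith
        have h9 : 0 ≤ m * (a - t) := by positivity
        nlinarith
      linarith
    calc ‖AA a ζ‖ * ‖Phi (wt a ζ) ((t - a : ℝ) : ℂ)‖ ≤ ‖AA a ζ‖ * 1 := by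
          gcongr; exact h1.trans h2
      _ = _ := mul_one _
  have h2 := norm_image_sub_le_of_norm_deriv_le_segment' (f := fun t : ℝ => pol z (t : ℂ))
    (a := a - s0) (b := a) (C := ‖AA a ζ‖)
    (fun t _ => (hasDerivAt_real h t).hasDerivWithinAt) hbd a ⟨by linarith, le_rfl⟩
  rw [pol_a h, zero_sub, norm_neg] at h2
  refine h2.trans ?_
  have : a - (a - s0) ≤ 1 := by nlinarith
  calc _ ≤ ‖AA a ζ‖ * 1 := by gcongr
    _ = _ := mul_one _

/-- the zeros near `a - s0` -/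
noncomputable def near (z : Fin (m + 1) → ℂ) (c : ℂ) (r : ℝ) : Finset (Fin (m + 1)) :=
  Finset.univ.filter (fun j => ‖z j - c‖ < r)

/-- the far part of the polynomial -/
noncomputable def far (z : Fin (m + 1) → ℂ) (c : ℂ) (r : ℝ) (x : ℂ) : ℂ :=
  ∏ j ∈ Finset.univ.filter (fun j => ¬ ‖z j - c‖ < r), (x - z j)

theorem near_lb (h : Config a ε m z ζ) (ha0 : 0 < a) (ha1 : a < 1) (hε0 : 0 < ε)
    (hε : ε ≤ 1 / 2) (hε2 : ε ≤ a ^ 2 / 4) (hm : 0 < m) (s0 : ℝ) (hs0 : 0 < s0)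
    (hs1 : 4 * s0 ≤ (a / 16) ^ 2 / 256)
    (hbig : Real.exp (-(m * (s0 / 2) * (a / 1024) / 2)) ≤ a / 256) (j : Fin (m + 1)) :
    a * s0 / 64 ≤ ‖z j - ((a - s0 : ℝ) : ℂ)‖ := by
  have hm0 : (0 : ℝ) < m := by exact_mod_cast hm
  by_contra hcon
  push Not at hcon
  set t : ℂ := z j - ((a - s0 : ℝ) : ℂ) with ht
  set s : ℂ := z j - (a : ℂ) with hs
  have hst : s = t - (s0 : ℂ) := by rw [hs, ht]; push_cast; ring
  have hs0n : ‖(s0 : ℂ)‖ = s0 := by rw [Complex.norm_real, Real.norm_of_nonneg hs0.le]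
  have has : a * s0 / 64 ≤ s0 / 2 := by nlinarith
  have h1 : s0 / 2 ≤ ‖s‖ := by
    have h1' := norm_sub_norm_le (s0 : ℂ) t
    have h2' : ‖(s0 : ℂ) - t‖ = ‖s‖ := by rw [hst, norm_sub_rev]
    rw [hs0n, h2'] at h1'
    linarith
  have h2 : ‖s‖ ≤ 2 * s0 := by
    rw [hst]
    refine (norm_sub_le _ _).trans ?_
    rw [hs0n]
    linarith
  have h3 : (s * ∑ j, wt a ζ j).re ≤ -(a / 1024 * m * ‖s‖) := by
    rw [hst, sub_mul, Complex.sub_re, Complex.re_ofReal_mul]
    have h4 := sum_re h ha0 ha1 hε0 hε hε2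
    have h5 : (t * ∑ j, wt a ζ j).re ≤ (a * s0 / 64) * (2 * m) := by
      refine (Complex.re_le_norm _).trans ?_
      rw [norm_mul]
      exact mul_le_mul hcon.le (sum_norm h hε) (norm_nonneg _) (by positivity)
    have h6 : s0 * (m * (a / 16)) ≤ s0 * (∑ j, wt a ζ j).re := by gcongr
    have h7 : a / 1024 * m * ‖t - (s0 : ℂ)‖ ≤ a / 1024 * m * (2 * s0) := by
      rw [← hst]; gcongr
    have h8 : 0 ≤ a * m * s0 := by positivity
    nlinarith
  have h4 := lower' h ha0 ha1 hε0 hε hε2 hm s0 hs0 hs1 hbig s h1 (by linarith) h3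
  have h5 : pol z (a + s) = 0 := by
    unfold pol
    apply Finset.prod_eq_zero (Finset.mem_univ j)
    rw [hs]; ring
  rw [h5, norm_zero] at h4
  have h6 := AA_pos h hε
  have : 0 < ‖AA a ζ‖ / (4 * m) := by positivity
  linarith

section far

variable {c : ℂ} {s0 : ℝ}

/-- the factor bounds -/
noncomputable def bb (z : Fin (m + 1) → ℂ) (c : ℂ) (r : ℝ) (x : ℂ) (j : Fin (m + 1)) : ℝ :=
  if ‖z j - c‖ < r then 1 else ‖x - z j‖

theorem prod_bb (r : ℝ) (x : ℂ) : ∏ j, bb z c r x j = ‖far z c r x‖ := by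
  unfold bb far
  rw [Finset.prod_ite, Finset.prod_const_one, one_mul, norm_prod]

theorem le_bb (hs0 : 0 < s0) (hs1 : 7 * s0 ≤ 1) (x : ℂ) (hx : ‖x - c‖ ≤ 3 * s0)
    (j : Fin (m + 1)) : ‖x - z j‖ ≤ bb z c (4 * s0) x j := by
  unfold bb
  split_ifs with hj
  · have : x - z j = (x - c) - (z j - c) := by ring
    rw [this]
    refine (norm_sub_le _ _).trans ?_
    linarith
  · exact le_rfl

theorem bb_ge (hs0 : 0 < s0) (hs1 : 7 * s0 ≤ 1) (x : ℂ) (hx : ‖x - c‖ ≤ 3 * s0)
    (j : Fin (m + 1)) : s0 ≤ bb z c (4 * s0) x j := by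
  unfold bb
  split_ifs with hj
  · linarith
  · push Not at hj
    have h1 := norm_sub_norm_le (z j - c) (x - c)
    have : z j - c - (x - c) = -(x - z j) := by ring
    rw [this, norm_neg] at h1
    linarith

theorem pol_le_far (hs0 : 0 < s0) (hs1 : 7 * s0 ≤ 1) (x : ℂ) (hx : ‖x - c‖ ≤ 3 * s0) :
    ‖pol z x‖ ≤ ‖far z c (4 * s0) x‖ := by
  rw [← prod_bb]
  unfold pol
  rw [norm_prod]
  exact Finset.prod_le_prod (fun _ _ => norm_nonneg _) (fun j _ => le_bb hs0 hs1 x hx j)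

theorem der_le_far (h : Config a ε m z ζ) (hs0 : 0 < s0) (hs1 : 7 * s0 ≤ 1) (x : ℂ)
    (hx : ‖x - c‖ ≤ 3 * s0) :
    ‖((m : ℂ) + 1) * ∏ j, (x - ζ j)‖ ≤ (m + 1) * (‖far z c (4 * s0) x‖ / s0) := by
  have h1 : HasDerivAt (fun x : ℂ => ∏ j, (x - z j))
      (∑ i, (∏ j ∈ Finset.univ.erase i, (x - z j)) • (1 : ℂ)) x := by
    apply HasDerivAt.fun_finsetProd
    intro i _
    exact (hasDerivAt_id x).sub_const _
  rw [(h.der x).unique h1]
  refine (norm_sum_le _ _).trans ?_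
  calc ∑ i, ‖(∏ j ∈ Finset.univ.erase i, (x - z j)) • (1 : ℂ)‖
      ≤ ∑ _i : Fin (m + 1), ‖far z c (4 * s0) x‖ / s0 := by
        apply Finset.sum_le_sum
        intro i _
        rw [smul_eq_mul, mul_one, norm_prod]
        have h2 : ∏ j ∈ Finset.univ.erase i, ‖x - z j‖ ≤
            ∏ j ∈ Finset.univ.erase i, bb z c (4 * s0) x j :=
          Finset.prod_le_prod (fun _ _ => norm_nonneg _) (fun j _ => le_bb hs0 hs1 x hx j)
        refine h2.trans ?_
        have h3 := Finset.mul_prod_erase Finset.univ (fun j => bb z c (4 * s0) x j)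
          (Finset.mem_univ i)
        rw [prod_bb] at h3
        rw [le_div_iff₀ hs0, ← h3, mul_comm]
        have h4 := bb_ge (z := z) hs0 hs1 x hx i
        have h5 : 0 ≤ ∏ j ∈ Finset.univ.erase i, bb z c (4 * s0) x j :=
          Finset.prod_nonneg fun j _ => hs0.le.trans (bb_ge (z := z) hs0 hs1 x hx j)
        gcongr
    _ = _ := by simp

theorem far_ne_zero (hs0 : 0 < s0) (hs1 : 7 * s0 ≤ 1) (x : ℂ) (hx : ‖x - c‖ ≤ 3 * s0) :
    far z c (4 * s0) x ≠ 0 := by
  rw [← norm_pos_iff, ← prod_bb]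
  apply Finset.prod_pos
  intro j _
  exact lt_of_lt_of_le hs0 (bb_ge hs0 hs1 x hx j)

theorem far_differentiable (r : ℝ) : Differentiable ℂ (far z c r) := by
  unfold far
  fun_prop

theorem far_average (hs0 : 0 < s0) (hs1 : 7 * s0 ≤ 1) :
    Real.circleAverage (fun x => Real.log ‖far z c (4 * s0) x‖) c (3 * s0) =
      Real.log ‖far z c (4 * s0) c‖ := by
  have habs : |3 * s0| = 3 * s0 := abs_of_pos (by linarith)
  apply AnalyticOnNhd.circleAverage_log_norm_of_ne_zero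
  · intro x _
    exact (far_differentiable _).analyticAt x
  · intro x hx
    rw [habs, Metric.mem_closedBall, dist_eq_norm] at hx
    exact far_ne_zero hs0 hs1 x hx

theorem far_center (N : ℕ) (d : ℝ) (hd : 0 < d) (r : ℝ)
    (hN : (near z c r).card = N) (hlb : ∀ j, d ≤ ‖z j - c‖) (B : ℝ) (hB : ‖pol z c‖ ≤ B) :
    ‖far z c r c‖ * d ^ N ≤ B := by
  refine le_trans ?_ hB
  have h1 : pol z c = (∏ j ∈ near z c r, (c - z j)) * far z c r c := by
    unfold pol near far
    rw [Finset.prod_filter_mul_prod_filter_not]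
  rw [h1, norm_mul, mul_comm, ← hN, norm_prod]
  gcongr
  calc d ^ (near z c r).card = ∏ _j ∈ near z c r, d := by rw [Finset.prod_const]
    _ ≤ _ := by
      apply Finset.prod_le_prod (fun _ _ => hd.le)
      intro j _
      rw [norm_sub_rev]
      exact hlb j

end far

/-- average of the comparison function -/
theorem average_g (a s0 C0 : ℝ) (hs0 : 0 < s0) (S : ℂ) :
    Real.circleAverage (fun x : ℂ => C0 + (1 + (x - ((a - s0 : ℝ) : ℂ)).re / (3 * s0)) / 2 *
      ((x - a) * S).re) ((a - s0 : ℝ) : ℂ) (3 * s0) = C0 + s0 * S.re / 4 := by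
  rw [Real.circleAverage_def]
  have e : ∀ θ : ℝ, (C0 + (1 + (circleMap ((a - s0 : ℝ) : ℂ) (3 * s0) θ -
      ((a - s0 : ℝ) : ℂ)).re / (3 * s0)) / 2 *
      ((circleMap ((a - s0 : ℝ) : ℂ) (3 * s0) θ - a) * S).re) =
      (C0 - S.re * s0 / 2) + (S.re * s0) * Real.cos θ + (3 * S.re * s0 / 2) * Real.cos θ ^ 2
        - (3 * s0 * S.im / 2) * Real.sin θ - (3 * s0 * S.im / 2) * (Real.sin θ * Real.cos θ) := by
    intro θ
    have h1 : (circleMap ((a - s0 : ℝ) : ℂ) (3 * s0) θ - ((a - s0 : ℝ) : ℂ)) =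
        ((3 * s0 * Real.cos θ : ℝ) : ℂ) + ((3 * s0 * Real.sin θ : ℝ) : ℂ) * Complex.I := by
      rw [circleMap, add_sub_cancel_left, Complex.exp_mul_I]
      push_cast
      ring
    have h2 : (circleMap ((a - s0 : ℝ) : ℂ) (3 * s0) θ - (a : ℂ)) =
        ((3 * s0 * Real.cos θ - s0 : ℝ) : ℂ) + ((3 * s0 * Real.sin θ : ℝ) : ℂ) * Complex.I := by
      rw [circleMap, Complex.exp_mul_I]
      push_cast
      ring
    rw [h1, h2]
    simp only [Complex.add_re, Complex.ofReal_re, Complex.mul_re, Complex.ofReal_im,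
      Complex.I_re, Complex.I_im, mul_zero, mul_one, sub_zero, add_zero, Complex.add_im,
      Complex.mul_im, zero_add]
    field_simp
    ring
  simp only [e]
  rw [intervalIntegral.integral_sub, intervalIntegral.integral_sub, intervalIntegral.integral_add,
    intervalIntegral.integral_add, intervalIntegral.integral_const,
    intervalIntegral.integral_const_mul, intervalIntegral.integral_const_mul,
    intervalIntegral.integral_const_mul, intervalIntegral.integral_const_mul,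
    integral_cos, integral_sin, integral_cos_sq, integral_sin_mul_cos₁]
  · simp only [Real.sin_two_pi, Real.sin_zero, Real.cos_two_pi, Real.cos_zero, smul_eq_mul]
    have := Real.pi_pos
    field_simp
    ring
  all_goals exact Continuous.intervalIntegrable (by fun_prop) _ _

/-- **Main inequality.** -/
theorem main_ineq (h : Config a ε m z ζ) (ha0 : 0 < a) (ha1 : a < 1) (hε0 : 0 < ε)
    (hε : ε ≤ 1 / 2) (hε2 : ε ≤ a ^ 2 / 4) (hm : 0 < m) (s0 : ℝ) (hs0 : 0 < s0)
    (hs1 : 4 * s0 ≤ (a / 16) ^ 2 / 256) (hs2 : 192 * s0 ≤ a / 256)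
    (hbig : Real.exp (-(m * (s0 / 2) * (a / 1024) / 2)) ≤ a / 256) :
    m * s0 * (a / 128) ≤
      ((near z ((a - s0 : ℝ) : ℂ) (4 * s0)).card : ℝ) * Real.log (64 / (a * s0)) +
        Real.log (4 * (m + 1) / s0) := by
  have hm0 : (0 : ℝ) < m := by exact_mod_cast hm
  set c : ℂ := ((a - s0 : ℝ) : ℂ) with hc
  have hs7 : 7 * s0 ≤ 1 := by nlinarith
  have hA := AA_pos h hε
  set S : ℂ := ∑ j, wt a ζ j with hS
  have hSre : m * (a / 16) ≤ S.re := sum_re h ha0 ha1 hε0 hε hε2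
  set K : ℝ := Real.log ‖AA a ζ‖ - Real.log (4 * (m + 1) / s0) -
    m * (4 * (a / 1024) * s0 + 192 * s0 ^ 2) with hK
  -- pointwise lower bound on the circle
  have hpt : ∀ x ∈ Metric.sphere c |3 * s0|,
      K + (1 + (x - c).re / (3 * s0)) / 2 * ((x - a) * S).re ≤
        Real.log ‖far z c (4 * s0) x‖ := by
    intro x hx
    have habs : |3 * s0| = 3 * s0 := abs_of_pos (by linarith)
    rw [habs, mem_sphere_iff_norm] at hx
    have hfar := far_ne_zero (z := z) hs0 hs7 x hx.le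
    have hfarpos : 0 < ‖far z c (4 * s0) x‖ := norm_pos_iff.2 hfar
    -- the weight
    set ρ : ℝ := (1 + (x - c).re / (3 * s0)) / 2 with hρ
    have hre : |(x - c).re| ≤ 3 * s0 := (Complex.abs_re_le_norm _).trans hx.le
    have hρ0 : 0 ≤ ρ := by
      have : -1 ≤ (x - c).re / (3 * s0) := by
        rw [le_div_iff₀ (by linarith)]; linarith [(abs_le.1 hre).1]
      rw [hρ]; linarith
    have hρ1 : ρ ≤ 1 := by
      have : (x - c).re / (3 * s0) ≤ 1 := by
        rw [div_le_iff₀ (by linarith)]; linarith [(abs_le.1 hre).2]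
      rw [hρ]; linarith
    set s : ℂ := x - a with hs
    have hsx : s = (x - c) - (s0 : ℂ) := by rw [hs, hc]; push_cast; ring
    have hs0n : ‖(s0 : ℂ)‖ = s0 := by rw [Complex.norm_real, Real.norm_of_nonneg hs0.le]
    have hsn1 : ‖s‖ ≤ 4 * s0 := by
      rw [hsx]; refine (norm_sub_le _ _).trans ?_; rw [hs0n, hx]; linarith
    have hsn2 : 2 * s0 ≤ ‖s‖ := by
      rw [hsx]
      have := norm_sub_norm_le (x - c) (s0 : ℂ)
      rw [hs0n, hx] at this; linarith
    have hxs : (a : ℂ) + s = x := by rw [hs]; ring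
    have hsn8 : ‖s‖ ≤ 1 / 8 := by nlinarith
    have hsq : ‖s‖ ^ 2 ≤ 16 * s0 ^ 2 := by nlinarith [norm_nonneg s]
    have hms : 0 < 4 * ((m : ℝ) + 1) / s0 := by positivity
    by_cases hcase : (s * S).re ≤ -(a / 1024 * m * ‖s‖)
    · -- decaying direction
      have h1 := lower' h ha0 ha1 hε0 hε hε2 hm s0 hs0 hs1 hbig s (by linarith) hsn1 hcase
      rw [hxs] at h1
      have h2 := h1.trans (pol_le_far (z := z) hs0 hs7 x hx.le)
      have h3 : ‖AA a ζ‖ / (4 * (m + 1) / s0) ≤ ‖far z c (4 * s0) x‖ := by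
        refine le_trans ?_ h2
        rw [div_le_div_iff₀ hms (by positivity)]
        have : 4 * (m : ℝ) ≤ 4 * (m + 1) / s0 := by
          rw [le_div_iff₀ hs0]; nlinarith
        gcongr
      have h4 := Real.log_le_log (by positivity) h3
      rw [Real.log_div hA.ne' hms.ne'] at h4
      have h5 : ρ * (s * S).re ≤ 0 := by
        have : (s * S).re ≤ 0 := by
          have : 0 ≤ a / 1024 * m * ‖s‖ := by positivity
          linarith
        exact mul_nonpos_of_nonneg_of_nonpos hρ0 this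
      have h6 : 0 ≤ m * (4 * (a / 1024) * s0 + 192 * s0 ^ 2) := by positivity
      rw [hK]
      linarith
    · push Not at hcase
      have h1 := der_le_far (c := c) h hs0 hs7 x hx.le
      have h2 := der_eq h hε s
      rw [hxs] at h2
      rw [h2, norm_mul] at h1
      have h3 := Phi_ge (wt a ζ) (wt_le h hε) s hsn8
      rw [← hS] at h3
      have h4 : ‖AA a ζ‖ * Real.exp ((s * S).re - 12 * m * ‖s‖ ^ 2) / (4 * (m + 1) / s0) ≤
          ‖far z c (4 * s0) x‖ := by
        rw [div_le_iff₀ hms]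
        calc ‖AA a ζ‖ * Real.exp ((s * S).re - 12 * m * ‖s‖ ^ 2)
            ≤ ‖AA a ζ‖ * ‖Phi (wt a ζ) s‖ := by gcongr
          _ ≤ (m + 1) * (‖far z c (4 * s0) x‖ / s0) := h1
          _ ≤ 4 * ((m + 1) * (‖far z c (4 * s0) x‖ / s0)) := by
            have : 0 ≤ (m + 1) * (‖far z c (4 * s0) x‖ / s0) := by positivity
            linarith
          _ = _ := by ring
      have h5 := Real.log_le_log (by positivity) h4
      rw [Real.log_div (by positivity) hms.ne', Real.log_mul hA.ne' (Real.exp_pos _).ne',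
        Real.log_exp] at h5
      have h6 : ρ * (s * S).re ≤ (s * S).re + a / 1024 * m * ‖s‖ := by
        have h7 : 0 ≤ a / 1024 * m * ‖s‖ := by positivity
        nlinarith
      have h7 : a / 1024 * m * ‖s‖ ≤ a / 1024 * m * (4 * s0) := by gcongr
      have h8 : 12 * m * ‖s‖ ^ 2 ≤ 12 * m * (16 * s0 ^ 2) := by gcongr
      rw [hK]
      nlinarith
  -- averages
  have hci1 : CircleIntegrable (fun x : ℂ => K + (1 + (x - c).re / (3 * s0)) / 2 *
      ((x - a) * S).re) c (3 * s0) :=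
    (Continuous.continuousOn (by fun_prop)).circleIntegrable'
  have hci2 : CircleIntegrable (fun x : ℂ => Real.log ‖far z c (4 * s0) x‖) c (3 * s0) := by
    apply ContinuousOn.circleIntegrable'
    intro x hx
    have habs : |3 * s0| = 3 * s0 := abs_of_pos (by linarith)
    rw [habs, mem_sphere_iff_norm] at hx
    have hfar := far_ne_zero (z := z) hs0 hs7 x hx.le
    apply ContinuousAt.continuousWithinAt
    exact ((far_differentiable (z := z) (c := c) (4 * s0)).continuous.norm.continuousAt).log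
      (norm_ne_zero_iff.2 hfar)
  have hmono := Real.circleAverage_mono hci1 hci2 hpt
  rw [far_average hs0 hs7, hc, average_g a s0 K hs0 S, ← hc] at hmono
  -- upper bound at the centre
  have hlb : ∀ j, a * s0 / 64 ≤ ‖z j - c‖ := fun j =>
    near_lb h ha0 ha1 hε0 hε hε2 hm s0 hs0 hs1 hbig j
  have hup := left_upper h ha0 ha1 hε0 hε hε2 s0 hs0 hs1
  have hd : 0 < a * s0 / 64 := by positivity
  have hcen := far_center (z := z) (c := c) _ (a * s0 / 64) hd (4 * s0) rfl hlb _ hup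
  have hfarc : 0 < ‖far z c (4 * s0) c‖ :=
    norm_pos_iff.2 (far_ne_zero (z := z) hs0 hs7 c (by simp; linarith))
  have hlog := Real.log_le_log (by positivity) hcen
  rw [Real.log_mul hfarc.ne' (by positivity), Real.log_pow] at hlog
  have hinv : Real.log (a * s0 / 64) = -Real.log (64 / (a * s0)) := by
    rw [← Real.log_inv, inv_div]
  rw [hinv] at hlog
  -- conclusion
  have h1 : m * (4 * (a / 1024) * s0 + 192 * s0 ^ 2) ≤ m * s0 * (a / 128) := by
    have : 4 * (a / 1024) * s0 + 192 * s0 ^ 2 ≤ s0 * (a / 128) := by nlinarith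
    calc _ ≤ m * (s0 * (a / 128)) := by gcongr
      _ = _ := by ring
  have h2 : m * s0 * (a / 64) ≤ s0 * S.re / 4 := by
    have : s0 * (m * (a / 16)) ≤ s0 * S.re := by gcongr
    nlinarith
  rw [hK] at hmono
  nlinarith

end

end Pool.Agent.V11101.Sen
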