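import Mathlib

/-!
# A tree-like quotient of `ℓ_p`, for `0 < p ≤ 1`
-/

set_option linter.unusedSectionVars false

open Set Filter Topology

namespace Pool.Agent.V11101.Tree

/-- the nodes of level `k` -/
def V (N : ℕ → ℕ) : ℕ → Type
  | 0 => Unit
  | k + 1 => V N k × Fin (N k)

/-- the nodes of each level are finitely many -/
@[reducible] def fintypeV (N : ℕ → ℕ) : ∀ k, Fintype (V N k)
  | 0 => inferInstanceAs (Fintype Unit)
  | k + 1 =>
    let _ := fintypeV N k
    inferInstanceAs (Fintype (V N k × Fin (N k)))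

instance (N : ℕ → ℕ) (k : ℕ) : Fintype (V N k) := fintypeV N k

/-- the parameters -/
structure Par (p : ℝ) where
  N : ℕ → ℕ
  c : ℕ → ℝ
  hp : 0 < p
  hp1 : p ≤ 1
  hc : ∀ k, 0 < c k
  hB : ∀ k : ℕ, (k : ℝ) + 1 ≤ N k * c k ^ p

section

variable {p : ℝ} (S : Par p)

/-- all the nodes -/
abbrev Node : Type := Σ k, V S.N k

variable {S} {𝕜 : Type} [RCLike 𝕜]

/-- parent -/
def par {N : ℕ → ℕ} {k : ℕ} (w : V N (k + 1)) : V N k := (show V N k × Fin (N k) from w).1

lemma sum_succ (k : ℕ) (f : V S.N (k + 1) → ℝ) :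
    ∑ w, f w = ∑ v : V S.N k, ∑ i : Fin (S.N k), f (show V S.N k × Fin (S.N k) from (v, i)) := by
  have h : ∑ w : V S.N k × Fin (S.N k), f w =
    ∑ v : V S.N k, ∑ i : Fin (S.N k), f (show V S.N k × Fin (S.N k) from (v, i)) :=
    Fintype.sum_prod_type (f := fun w : V S.N k × Fin (S.N k) => f w)
  exact h

/-- the `p`-th power of the `ℓ_p` norm of a function on level `k` -/
noncomputable def nn (k : ℕ) (z : V S.N k → 𝕜) : ℝ := ∑ v, ‖z v‖ ^ p

lemma nn_nonneg (k : ℕ) (z : V S.N k → 𝕜) : 0 ≤ nn k z :=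
  Finset.sum_nonneg fun _ _ => Real.rpow_nonneg (norm_nonneg _) _

lemma pow_add_le (S : Par p) (x y : 𝕜) : ‖x + y‖ ^ p ≤ ‖x‖ ^ p + ‖y‖ ^ p :=
  (Real.rpow_le_rpow (norm_nonneg _) (norm_add_le x y) S.hp.le).trans
    (Real.rpow_add_le_add_rpow (norm_nonneg _) (norm_nonneg _) S.hp.le S.hp1)

lemma pow_sub_le (S : Par p) (x y : 𝕜) : ‖x - y‖ ^ p ≤ ‖x‖ ^ p + ‖y‖ ^ p := by
  have := pow_add_le S x (-y)
  rwa [← sub_eq_add_neg, norm_neg] at this

lemma nn_add_le (k : ℕ) (z w : V S.N k → 𝕜) : nn k (z + w) ≤ nn k z + nn k w := by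
  unfold nn
  rw [← Finset.sum_add_distrib]
  exact Finset.sum_le_sum fun v _ => pow_add_le S _ _

lemma nn_sub_le (k : ℕ) (z w : V S.N k → 𝕜) : nn k (z - w) ≤ nn k z + nn k w := by
  unfold nn
  rw [← Finset.sum_add_distrib]
  exact Finset.sum_le_sum fun v _ => pow_sub_le S _ _

/-- the embedding of level `k` functions into level `k+1` functions -/
noncomputable def up (k : ℕ) (z : V S.N k → 𝕜) : V S.N (k + 1) → 𝕜 :=
  fun w => (S.c k : 𝕜) * z (par w)

lemma nn_up (k : ℕ) (z : V S.N k → 𝕜) : nn (k + 1) (up k z) = S.N k * S.c k ^ p * nn k z := by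
  unfold nn
  rw [sum_succ, Finset.mul_sum]
  refine Finset.sum_congr rfl fun v _ => ?_
  have h1 : ∀ i : Fin (S.N k), ‖up k z (show V S.N k × Fin (S.N k) from (v, i))‖ ^ p =
      S.c k ^ p * ‖z v‖ ^ p := by
    intro i
    show ‖(S.c k : 𝕜) * z v‖ ^ p = _
    rw [norm_mul, RCLike.norm_ofReal, abs_of_pos (S.hc k), Real.mul_rpow (S.hc k).le (norm_nonneg _)]
  rw [Finset.sum_congr rfl fun i _ => h1 i, Finset.sum_const, Finset.card_univ, Fintype.card_fin,
    nsmul_eq_mul]
  ring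

/-- accumulating a family of coefficients down to level `k` -/
noncomputable def PP (a : Node S → 𝕜) : ∀ k, V S.N k → 𝕜
  | 0 => fun v => a ⟨0, v⟩
  | k + 1 => fun w => a ⟨k + 1, w⟩ + up k (PP a k) w

lemma PP_succ (a : Node S → 𝕜) (k : ℕ) : PP a (k + 1) = (fun w => a ⟨k + 1, w⟩) + up k (PP a k) := rfl

lemma up_add (k : ℕ) (z w : V S.N k → 𝕜) : up k (z + w) = up k z + up k w := by
  funext v
  simp only [up, Pi.add_apply, mul_add]

lemma up_smul (k : ℕ) (t : 𝕜) (z : V S.N k → 𝕜) : up k (t • z) = t • up k z := by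
  funext v
  simp only [up, Pi.smul_apply, smul_eq_mul]
  ring

lemma up_zero (k : ℕ) : up k (0 : V S.N k → 𝕜) = 0 := by
  funext v
  simp only [up, Pi.zero_apply, mul_zero]

lemma PP_add (a b : Node S → 𝕜) (k : ℕ) : PP (a + b) k = PP a k + PP b k := by
  induction k with
  | zero => rfl
  | succ k ih =>
    rw [PP_succ, PP_succ, PP_succ, ih, up_add]
    funext w
    simp only [Pi.add_apply]
    ring

lemma PP_smul (t : 𝕜) (a : Node S → 𝕜) (k : ℕ) : PP (t • a) k = t • PP a k := by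
  induction k with
  | zero => rfl
  | succ k ih =>
    rw [PP_succ, PP_succ, ih, up_smul]
    funext w
    simp only [Pi.add_apply, Pi.smul_apply, smul_add]

lemma PP_zero (k : ℕ) : PP (0 : Node S → 𝕜) k = 0 := by
  have := PP_smul (0 : 𝕜) (0 : Node S → 𝕜) k
  rwa [zero_smul, zero_smul] at this

lemma PP_sub (a b : Node S → 𝕜) (k : ℕ) : PP (a - b) k = PP a k - PP b k := by
  have h := PP_add (a - b) b k
  rw [sub_add_cancel] at h
  rw [h, add_sub_cancel_right]

/-- the `p`-cost of the level `k` -/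
noncomputable def lev (a : Node S → 𝕜) (k : ℕ) : ℝ := nn k (fun v => a ⟨k, v⟩)

lemma lev_nonneg (a : Node S → 𝕜) (k : ℕ) : 0 ≤ lev a k := nn_nonneg _ _

lemma telescope (r : Node S → 𝕜) (k K : ℕ) (hK : k < K) :
    S.N k * S.c k ^ p * nn k (PP r k) ≤ ∑ j ∈ Finset.Ioc k K, lev r j + nn K (PP r K) := by
  have hstep : ∀ j, nn (j + 1) (up j (PP r j)) ≤ lev r (j + 1) + nn (j + 1) (PP r (j + 1)) := by
    intro j
    have h1 : up j (PP r j) = PP r (j + 1) - (fun w => r ⟨j + 1, w⟩) := by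
      rw [PP_succ, add_sub_cancel_left]
    rw [h1]
    refine (nn_sub_le _ _ _).trans ?_
    rw [add_comm]
    rfl
  induction K, hK using Nat.le_induction with
  | base =>
    rw [show Finset.Ioc k (k + 1) = {k + 1} by ext x; rw [Finset.mem_Ioc, Finset.mem_singleton]; omega,
      Finset.sum_singleton, ← nn_up]
    exact hstep k
  | succ K hK ih =>
    rw [← Finset.insert_Ioc_right_eq_Ioc_add_one (by omega), Finset.sum_insert (by simp)]
    have h1 := hstep K
    rw [nn_up] at h1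
    have h2 : nn K (PP r K) ≤ S.N K * S.c K ^ p * nn K (PP r K) := by
      have h3 : (1 : ℝ) ≤ S.N K * S.c K ^ p := by
        have := S.hB K
        have h4 : (0 : ℝ) ≤ K := Nat.cast_nonneg K
        linarith
      have := nn_nonneg K (PP r K)
      nlinarith
    linarith

end

/-! ### The quotient space -/

/-- finitely supported families of coefficients -/
def Pre {p : ℝ} (S : Par p) (𝕜 : Type) [RCLike 𝕜] : Type := Node S →₀ 𝕜

section

variable {p : ℝ} (S : Par p) (𝕜 : Type) [RCLike 𝕜]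

noncomputable instance : AddCommGroup (Pre S 𝕜) := inferInstanceAs (AddCommGroup (Node S →₀ 𝕜))
noncomputable instance : Module 𝕜 (Pre S 𝕜) := inferInstanceAs (Module 𝕜 (Node S →₀ 𝕜))

variable {S} {𝕜}

/-- the coefficients -/
def co (a : Pre S 𝕜) : Node S → 𝕜 := (show Node S →₀ 𝕜 from a)

lemma co_add (a b : Pre S 𝕜) : co (a + b) = co a + co b := rfl
lemma co_sub (a b : Pre S 𝕜) : co (a - b) = co a - co b := rfl
lemma co_neg (a : Pre S 𝕜) : co (-a) = - co a := rfl
lemma co_smul (t : 𝕜) (a : Pre S 𝕜) : co (t • a) = t • co a := rfl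
lemma co_zero : co (0 : Pre S 𝕜) = 0 := rfl

lemma co_inj {a b : Pre S 𝕜} (h : co a = co b) : a = b := by
  have : (show Node S →₀ 𝕜 from a) = (show Node S →₀ 𝕜 from b) := DFunLike.coe_injective h
  exact this

lemma exists_bound (a : Pre S 𝕜) : ∃ K, ∀ q : Node S, K ≤ q.1 → co a q = 0 := by
  classical
  refine ⟨(show Node S →₀ 𝕜 from a).support.sup (fun q => q.1) + 1, fun q hq => ?_⟩
  by_contra h
  have h1 : q ∈ (show Node S →₀ 𝕜 from a).support := Finsupp.mem_support_iff.2 h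
  have h2 := Finset.le_sup (f := fun q : Node S => q.1) h1
  omega

/-- the `p`-cost -/
noncomputable def cost (a : Pre S 𝕜) : ℝ :=
  ∑ q ∈ (show Node S →₀ 𝕜 from a).support, ‖co a q‖ ^ p

lemma cost_eq_of_subset (a : Pre S 𝕜) (s : Finset (Node S))
    (hs : ∀ q, co a q ≠ 0 → q ∈ s) : cost a = ∑ q ∈ s, ‖co a q‖ ^ p := by
  refine Finset.sum_subset (fun q hq => hs q (Finsupp.mem_support_iff.1 hq)) fun q _ hq => ?_
  have h1 : co a q = 0 := Finsupp.notMem_support_iff.1 hq
  rw [h1, norm_zero, Real.zero_rpow S.hp.ne']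

lemma cost_eq_lev (a : Pre S 𝕜) (K : ℕ) (hK : ∀ q : Node S, K ≤ q.1 → co a q = 0) :
    cost a = ∑ k ∈ Finset.range K, lev (co a) k := by
  rw [cost_eq_of_subset a ((Finset.range K).sigma fun _ => Finset.univ), Finset.sum_sigma]
  · rfl
  · rintro ⟨k, v⟩ h
    rw [Finset.mem_sigma]
    refine ⟨?_, Finset.mem_univ _⟩
    by_contra h2
    rw [Finset.mem_range, not_lt] at h2
    exact h (hK _ h2)

lemma cost_nonneg (a : Pre S 𝕜) : 0 ≤ cost a :=
  Finset.sum_nonneg fun _ _ => Real.rpow_nonneg (norm_nonneg _) _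

lemma cost_add_le (a b : Pre S 𝕜) : cost (a + b) ≤ cost a + cost b := by
  classical
  set s : Finset (Node S) := (show Node S →₀ 𝕜 from a).support ∪ (show Node S →₀ 𝕜 from b).support
    with hs
  have h1 : ∀ q, co a q ≠ 0 → q ∈ s := fun q hq =>
    Finset.mem_union_left _ (Finsupp.mem_support_iff.2 hq)
  have h2 : ∀ q, co b q ≠ 0 → q ∈ s := fun q hq =>
    Finset.mem_union_right _ (Finsupp.mem_support_iff.2 hq)
  have h3 : ∀ q, co (a + b) q ≠ 0 → q ∈ s := by
    intro q hq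
    by_contra h4
    have h5 : co a q = 0 := by
      by_contra h; exact h4 (h1 q h)
    have h6 : co b q = 0 := by
      by_contra h; exact h4 (h2 q h)
    exact hq (by rw [co_add, Pi.add_apply, h5, h6, add_zero])
  rw [cost_eq_of_subset a s h1, cost_eq_of_subset b s h2, cost_eq_of_subset (a + b) s h3,
    ← Finset.sum_add_distrib]
  exact Finset.sum_le_sum fun q _ => pow_add_le S _ _

lemma cost_smul (t : 𝕜) (a : Pre S 𝕜) : cost (t • a) = ‖t‖ ^ p * cost a := by
  set s : Finset (Node S) := (show Node S →₀ 𝕜 from a).support with hs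
  have h1 : ∀ q, co a q ≠ 0 → q ∈ s := fun q hq => Finsupp.mem_support_iff.2 hq
  rw [cost_eq_of_subset a s h1, cost_eq_of_subset (t • a) s, Finset.mul_sum]
  · refine Finset.sum_congr rfl fun q _ => ?_
    rw [co_smul, Pi.smul_apply, smul_eq_mul, norm_mul,
      Real.mul_rpow (norm_nonneg _) (norm_nonneg _)]
  · intro q hq
    refine h1 q fun h => hq ?_
    rw [co_smul, Pi.smul_apply, h, smul_zero]

lemma cost_neg (a : Pre S 𝕜) : cost (-a) = cost a := by
  have := cost_smul (-1 : 𝕜) a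
  rw [neg_one_smul, norm_neg, norm_one, Real.one_rpow, one_mul] at this
  exact this

variable (S 𝕜) in
/-- the cost as a seminorm -/
noncomputable def preSeminorm : AddGroupSeminorm (Pre S 𝕜) where
  toFun := cost
  map_zero' := by
    have := cost_smul (0 : 𝕜) (0 : Pre S 𝕜)
    rwa [zero_smul, norm_zero, Real.zero_rpow S.hp.ne', zero_mul] at this
  add_le' := cost_add_le
  neg' := cost_neg

noncomputable instance : SeminormedAddCommGroup (Pre S 𝕜) :=
  (preSeminorm S 𝕜).toSeminormedAddCommGroup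

lemma norm_pre (a : Pre S 𝕜) : ‖a‖ = cost a := rfl

variable (S 𝕜) in
/-- the relations -/
noncomputable def RR : Submodule 𝕜 (Pre S 𝕜) where
  carrier := {a | ∃ K, ∀ j, K ≤ j → PP (co a) j = 0}
  add_mem' := by
    rintro a b ⟨K, hK⟩ ⟨L, hL⟩
    refine ⟨max K L, fun j hj => ?_⟩
    rw [co_add, PP_add, hK j (le_of_max_le_left hj), hL j (le_of_max_le_right hj), add_zero]
  zero_mem' := ⟨0, fun j _ => by rw [co_zero, PP_zero]⟩
  smul_mem' := by
    rintro t a ⟨K, hK⟩
    exact ⟨K, fun j hj => by rw [co_smul, PP_smul, hK j hj, smul_zero]⟩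

variable (S 𝕜) in
/-- the quotient -/
abbrev QQ : Type := Pre S 𝕜 ⧸ RR S 𝕜

/-- the class of a family of coefficients -/
noncomputable def mk (a : Pre S 𝕜) : QQ S 𝕜 := Submodule.Quotient.mk a

lemma mk_add (a b : Pre S 𝕜) : mk (a + b) = mk a + mk b := rfl
lemma mk_sub (a b : Pre S 𝕜) : mk (a - b) = mk a - mk b := rfl
lemma mk_smul (t : 𝕜) (a : Pre S 𝕜) : mk (t • a) = t • mk a := rfl

lemma mk_eq {a b : Pre S 𝕜} : mk a = mk b ↔ ∃ K, ∀ j, K ≤ j → PP (co (a - b)) j = 0 :=
  Submodule.Quotient.eq (RR S 𝕜)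

lemma norm_mk_le (a : Pre S 𝕜) : ‖mk a‖ ≤ cost a := Submodule.Quotient.norm_mk_le _ _

lemma exists_rep (x : QQ S 𝕜) {ε : ℝ} (hε : 0 < ε) : ∃ a : Pre S 𝕜, mk a = x ∧ cost a < ‖x‖ + ε :=
  Submodule.Quotient.norm_mk_lt x hε

lemma norm_QQ_smul_le (t : 𝕜) (x : QQ S 𝕜) : ‖t • x‖ ≤ ‖t‖ ^ p * ‖x‖ := by
  refine le_of_forall_pos_le_add fun ε hε => ?_
  have hcp : 0 ≤ ‖t‖ ^ p := Real.rpow_nonneg (norm_nonneg _) _
  obtain ⟨a, rfl, ha2⟩ := exists_rep x (ε := ε / (‖t‖ ^ p + 1)) (by positivity)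
  have h1 : ‖t • mk a‖ ≤ cost (t • a) := norm_mk_le _
  rw [cost_smul] at h1
  have h3 : ‖t‖ ^ p * (ε / (‖t‖ ^ p + 1)) ≤ ε := by
    rw [mul_div_assoc', div_le_iff₀ (by positivity)]
    nlinarith
  nlinarith

lemma norm_QQ_smul (t : 𝕜) (x : QQ S 𝕜) : ‖t • x‖ = ‖t‖ ^ p * ‖x‖ := by
  refine le_antisymm (norm_QQ_smul_le t x) ?_
  rcases eq_or_ne t 0 with rfl | hc
  · rw [norm_zero, Real.zero_rpow S.hp.ne', zero_mul]
    exact norm_nonneg _
  · have h1 := norm_QQ_smul_le t⁻¹ (t • x)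
    rw [smul_smul, inv_mul_cancel₀ hc, one_smul, norm_inv, Real.inv_rpow (norm_nonneg _)] at h1
    have hcp : 0 < ‖t‖ ^ p := Real.rpow_pos_of_pos (norm_pos_iff.2 hc) _
    rwa [le_inv_mul_iff₀ hcp] at h1

instance : UniformContinuousConstSMul 𝕜 (QQ S 𝕜) where
  uniformContinuous_const_smul t := by
    have h : LipschitzWith (‖t‖ ^ p).toNNReal (fun z : QQ S 𝕜 => t • z) := by
      refine LipschitzWith.of_dist_le_mul fun x y => ?_
      rw [dist_eq_norm, dist_eq_norm, ← smul_sub, norm_QQ_smul]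
      exact mul_le_mul_of_nonneg_right (Real.le_coe_toNNReal _) (norm_nonneg _)
    exact h.uniformContinuous

variable (S 𝕜) in
/-- The space. -/
abbrev XX : Type := UniformSpace.Completion (QQ S 𝕜)

lemma norm_XX_smul (t : 𝕜) (x : XX S 𝕜) : ‖t • x‖ = ‖t‖ ^ p * ‖x‖ := by
  induction x using UniformSpace.Completion.induction_on with
  | hp =>
    refine isClosed_eq ?_ ?_
    · exact (continuous_const_smul t).norm
    · exact continuous_const.mul continuous_norm
  | ih a =>
    rw [← UniformSpace.Completion.coe_smul, UniformSpace.Completion.norm_coe,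
      UniformSpace.Completion.norm_coe, norm_QQ_smul]

/-! ### The main inequality -/

/-- a function on level `k` as a family of coefficients -/
noncomputable def at' (k : ℕ) (z : V S.N k → 𝕜) : Pre S 𝕜 :=
  (∑ v, Finsupp.single (⟨k, v⟩ : Node S) (z v) : Node S →₀ 𝕜)

lemma co_at_same (k : ℕ) (z : V S.N k → 𝕜) (v : V S.N k) : co (at' k z) ⟨k, v⟩ = z v := by
  classical
  show (∑ w, Finsupp.single (⟨k, w⟩ : Node S) (z w) : Node S →₀ 𝕜) ⟨k, v⟩ = z v
  rw [Finsupp.finsetSum_apply, Finset.sum_eq_single v]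
  · rw [Finsupp.single_eq_same]
  · intro w _ hw
    rw [Finsupp.single_eq_of_ne]
    intro h
    exact hw (eq_of_heq (Sigma.mk.inj_iff.1 h).2).symm
  · intro h; exact absurd (Finset.mem_univ v) h

lemma co_at_ne (k : ℕ) (z : V S.N k → 𝕜) (q : Node S) (hq : q.1 ≠ k) : co (at' k z) q = 0 := by
  classical
  show (∑ w, Finsupp.single (⟨k, w⟩ : Node S) (z w) : Node S →₀ 𝕜) q = 0
  rw [Finsupp.finsetSum_apply]
  refine Finset.sum_eq_zero fun w _ => ?_
  rw [Finsupp.single_eq_of_ne]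
  rintro rfl
  exact hq rfl

lemma cost_at (k : ℕ) (z : V S.N k → 𝕜) : cost (at' k z) = nn k z := by
  rw [cost_eq_lev (at' k z) (k + 1) (fun q hq => co_at_ne k z q (by omega)),
    Finset.sum_range_succ, Finset.sum_eq_zero, zero_add]
  · unfold lev
    congr 1
    funext v
    exact co_at_same k z v
  · intro j hj
    rw [Finset.mem_range] at hj
    unfold lev nn
    refine Finset.sum_eq_zero fun v _ => ?_
    show ‖co (at' k z) ⟨j, v⟩‖ ^ p = 0
    rw [co_at_ne k z ⟨j, v⟩ (ne_of_lt hj), norm_zero, Real.zero_rpow S.hp.ne']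

lemma PP_of_zero (a : Node S → 𝕜) (k : ℕ) (h : ∀ q : Node S, q.1 ≤ k → a q = 0) :
    PP a k = 0 := by
  induction k with
  | zero =>
    funext v
    exact h ⟨0, v⟩ le_rfl
  | succ k ih =>
    rw [PP_succ, ih (fun q hq => h q (by omega)), up_zero, add_zero]
    funext w
    exact h ⟨k + 1, w⟩ le_rfl

lemma PP_at (k : ℕ) (z : V S.N k → 𝕜) : PP (co (at' k z)) k = z := by
  cases k with
  | zero =>
    funext v
    exact co_at_same 0 z v
  | succ k =>
    rw [PP_succ, PP_of_zero _ k (fun q hq => co_at_ne (k + 1) z q (by omega)), up_zero, add_zero]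
    funext v
    exact co_at_same (k + 1) z v

/-- once the coefficients vanish, `PP` propagates zero -/
lemma PP_prop (a : Node S → 𝕜) (k : ℕ) (h : ∀ q : Node S, k < q.1 → a q = 0) (h0 : PP a k = 0)
    (j : ℕ) (hj : k ≤ j) : PP a j = 0 := by
  induction j, hj using Nat.le_induction with
  | base => exact h0
  | succ j hj ih =>
    rw [PP_succ, ih, up_zero, add_zero]
    funext w
    exact h ⟨j + 1, w⟩ (by show k < j + 1; omega)

lemma mk_eq_at (e : Pre S 𝕜) (k : ℕ) (h : ∀ q : Node S, k < q.1 → co e q = 0) :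
    mk e = mk (at' k (PP (co e) k)) := by
  rw [mk_eq]
  refine ⟨k, fun j hj => ?_⟩
  refine PP_prop _ k (fun q hq => ?_) ?_ j hj
  · rw [co_sub, Pi.sub_apply, h q hq, co_at_ne _ _ _ (ne_of_gt hq), sub_zero]
  · rw [co_sub, PP_sub, PP_at, sub_self]

/-- the part of the coefficients on which a property holds -/
noncomputable def cut (P : Node S → Prop) (a : Pre S 𝕜) : Pre S 𝕜 :=
  haveI : DecidablePred P := Classical.decPred P
  Finsupp.filter P (show Node S →₀ 𝕜 from a)

lemma co_cut_pos (P : Node S → Prop) (a : Pre S 𝕜) (q : Node S) (h : P q) :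
    co (cut P a) q = co a q := by
  classical
  exact Finsupp.filter_apply_pos P _ h

lemma co_cut_neg (P : Node S → Prop) (a : Pre S 𝕜) (q : Node S) (h : ¬ P q) :
    co (cut P a) q = 0 := by
  classical
  exact Finsupp.filter_apply_neg P _ h

lemma cut_add_cut (P : Node S → Prop) (a : Pre S 𝕜) : cut P a + cut (fun q => ¬ P q) a = a := by
  apply co_inj
  funext q
  rw [co_add, Pi.add_apply]
  by_cases h : P q
  · rw [co_cut_pos P a q h, co_cut_neg _ a q (not_not.2 h), add_zero]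
  · rw [co_cut_neg P a q h, co_cut_pos _ a q h, zero_add]

lemma cost_cut_add (P : Node S → Prop) (a : Pre S 𝕜) :
    cost (cut P a) + cost (cut (fun q => ¬ P q) a) = cost a := by
  classical
  set s : Finset (Node S) := (show Node S →₀ 𝕜 from a).support with hs
  have h1 : ∀ q, co a q ≠ 0 → q ∈ s := fun q hq => Finsupp.mem_support_iff.2 hq
  rw [cost_eq_of_subset a s h1, cost_eq_of_subset (cut P a) s,
    cost_eq_of_subset (cut (fun q => ¬ P q) a) s, ← Finset.sum_add_distrib]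
  · refine Finset.sum_congr rfl fun q _ => ?_
    by_cases h : P q
    · rw [co_cut_pos P a q h, co_cut_neg _ a q (not_not.2 h), norm_zero,
        Real.zero_rpow S.hp.ne', add_zero]
    · rw [co_cut_neg P a q h, co_cut_pos _ a q h, norm_zero, Real.zero_rpow S.hp.ne', zero_add]
  · intro q hq
    refine h1 q fun h => hq ?_
    by_cases h' : P q
    · rw [co_cut_neg _ a q (not_not.2 h')]
    · rw [co_cut_pos _ a q h', h]
  · intro q hq
    refine h1 q fun h => hq ?_
    by_cases h' : P q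
    · rw [co_cut_pos _ a q h', h]
    · rw [co_cut_neg _ a q h']

/-- the lower estimate -/
theorem main_ineq (k : ℕ) (a u : Pre S 𝕜) (ha : ∀ q : Node S, k < q.1 → co a q = 0)
    (hu : ∀ q : Node S, q.1 ≤ k → co u q = 0)
    (hB : 3 * ‖mk u‖ + 4 * cost u ≤ (k + 1) * ‖mk u‖) :
    ‖mk a‖ + ‖mk u‖ / 2 ≤ ‖mk (a + u)‖ := by
  refine le_of_forall_pos_le_add fun ε hε => ?_
  obtain ⟨b, hb, hb2⟩ := exists_rep (mk (a + u)) hε
  refine le_trans ?_ hb2.le
  set b1 := cut (fun q : Node S => q.1 ≤ k) b with hb1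
  set b2 := cut (fun q : Node S => ¬ q.1 ≤ k) b with hb2'
  have hsplit : b1 + b2 = b := cut_add_cut _ b
  have hcost : cost b1 + cost b2 = cost b := cost_cut_add _ b
  set r := (a + u) - b with hr
  have hr0 : mk b = mk (a + u) := hb
  obtain ⟨K, hK⟩ := mk_eq.1 hb.symm
  -- the element `z`
  set z := PP (co r) k with hz
  have hz2 : z = PP (co (a - b1)) k := by
    rw [hz]
    have h1 : r = (a - b1) + (u - b2) := by rw [hr, ← hsplit]; abel
    rw [h1, co_add, PP_add, PP_of_zero (co (u - b2)) k, add_zero]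
    intro q hq
    rw [co_sub, Pi.sub_apply, hu q hq, hb2', co_cut_neg _ _ _ (not_not.2 hq), sub_zero]
  have hz3 : mk (a - b1) = mk (at' k z) := by
    rw [hz2]
    refine mk_eq_at _ k fun q hq => ?_
    rw [co_sub, Pi.sub_apply, ha q hq, hb1, co_cut_neg (fun q : Node S => q.1 ≤ k) _ _ (show ¬ q.1 ≤ k from not_le.2 hq), sub_zero]
  have hn : ‖mk (a - b1)‖ ≤ nn k z := by
    rw [hz3]
    exact (norm_mk_le _).trans (cost_at k z).le
  have hn0 : 0 ≤ nn k z := nn_nonneg _ _
  -- telescoping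
  obtain ⟨K', hK'⟩ := exists_bound (u - b2)
  have hKK : k < max (max K K') (k + 1) := lt_of_lt_of_le (Nat.lt_succ_self k) (le_max_right _ _)
  have hKK2 : K ≤ max (max K K') (k + 1) := (le_max_left _ _).trans (le_max_left _ _)
  have hKK3 : K' ≤ max (max K K') (k + 1) := (le_max_right _ _).trans (le_max_left _ _)
  have htel := telescope (co r) k (max (max K K') (k + 1)) hKK
  have hKr : PP (co r) (max (max K K') (k + 1)) = 0 := hK _ hKK2
  rw [hKr] at htel
  have hnn0 : nn (max (max K K') (k + 1)) (0 : V S.N (max (max K K') (k + 1)) → 𝕜) = 0 := by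
    unfold nn
    refine Finset.sum_eq_zero fun v _ => ?_
    rw [Pi.zero_apply, norm_zero, Real.zero_rpow S.hp.ne']
  rw [hnn0, add_zero] at htel
  have hlev : ∑ j ∈ Finset.Ioc k (max (max K K') (k + 1)), lev (co r) j ≤ cost (u - b2) := by
    rw [cost_eq_lev (u - b2) (max (max K K') (k + 1) + 1) (fun q hq => hK' q (by omega))]
    refine (Finset.sum_le_sum_of_subset_of_nonneg (s := Finset.Ioc k (max (max K K') (k + 1)))
      (t := Finset.range (max (max K K') (k + 1) + 1)) ?_ (fun j _ _ => lev_nonneg _ _)).trans'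
      (Finset.sum_le_sum fun j hj => ?_)
    · intro j hj
      rw [Finset.mem_Ioc] at hj
      rw [Finset.mem_range]
      omega
    · rw [Finset.mem_Ioc] at hj
      unfold lev
      refine le_of_eq ?_
      congr 1
      funext v
      have h1 : r = (a - b1) + (u - b2) := by rw [hr, ← hsplit]; abel
      rw [h1, co_add, Pi.add_apply, co_sub a b1, Pi.sub_apply, ha ⟨j, v⟩ hj.1, hb1,
        co_cut_neg (fun q : Node S => q.1 ≤ k) _ _ (show ¬ j ≤ k from not_le.2 hj.1), sub_zero,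
        zero_add]
  have hB' : ((k : ℝ) + 1) * nn k z ≤ cost u + cost b2 := by
    have h1 := S.hB k
    have h2 : cost (u - b2) ≤ cost u + cost b2 := by
      rw [sub_eq_add_neg]
      refine (cost_add_le _ _).trans ?_
      rw [cost_neg]
    calc ((k : ℝ) + 1) * nn k z ≤ S.N k * S.c k ^ p * nn k z := by
          exact mul_le_mul_of_nonneg_right h1 hn0
      _ ≤ cost u + cost b2 := htel.trans (hlev.trans h2)
  have h3 : ‖mk a‖ ≤ cost b1 + nn k z := by
    have : mk a = mk b1 + mk (a - b1) := by rw [← mk_add]; congr 1; abel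
    rw [this]
    exact (norm_add_le _ _).trans (add_le_add (norm_mk_le _) hn)
  have h4 : ‖mk u‖ ≤ cost b2 + nn k z := by
    have h5 : mk u = mk b2 - mk (a - b1) := by
      have h6 : mk a + mk u = mk b1 + mk b2 := by rw [← mk_add, ← mk_add, hsplit, hr0]
      rw [mk_sub]
      have : mk u = mk b1 + mk b2 - mk a := by rw [← h6]; abel
      rw [this]; abel
    rw [h5]
    exact (norm_sub_le _ _).trans (add_le_add (norm_mk_le _) hn)
  have hu0 : 0 ≤ ‖mk u‖ := norm_nonneg _
  rw [← hcost]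
  rcases le_or_gt (nn k z) (‖mk u‖ / 4) with h5 | h5
  · linarith
  · -- `cost b2 ≥ (k+1) ν - cost u`
    have h6 : ((k : ℝ) + 1) * (‖mk u‖ / 4) - ‖mk u‖ / 4 ≤
        ((k : ℝ) + 1) * nn k z - nn k z := by
      have h7 : (0 : ℝ) ≤ k := Nat.cast_nonneg k
      nlinarith
    linarith

end

end Pool.Agent.V11101.Tree
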