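import Pool.Agent.V11101.TreeSchur

/-!
# Further properties of the tree space, and the interface with quasi-norms
-/

set_option linter.unusedSectionVars false

open Set Filter Topology

namespace Pool.Agent.V11101.Tree

section

variable {p : ℝ} {S : Par p} {𝕜 : Type} [RCLike 𝕜]

/-- the class of the root is nonzero -/
theorem root_norm : (1 : ℝ) ≤ ‖mk (at' 0 (fun _ => (1 : 𝕜)) : Pre S 𝕜)‖ := by
  refine le_of_forall_pos_le_add fun ε hε => ?_
  obtain ⟨b, hb, hb2⟩ := exists_rep (mk (at' 0 (fun _ => (1 : 𝕜)) : Pre S 𝕜)) hε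
  refine le_trans ?_ hb2.le
  obtain ⟨K, hK⟩ := mk_eq.1 hb.symm
  obtain ⟨K', hK'⟩ := exists_bound b
  set r := at' 0 (fun _ => (1 : 𝕜)) - b with hr
  set M := max (max K K') 1 with hM
  have hKM : K ≤ M := (le_max_left _ _).trans (le_max_left _ _)
  have hKM' : K' ≤ M := (le_max_right _ _).trans (le_max_left _ _)
  have h1M : 0 < M := lt_of_lt_of_le one_pos (le_max_right _ _)
  have htel := telescope (co r) 0 M h1M
  have hKr : PP (co r) M = 0 := hK _ hKM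
  have hnn0 : nn M (0 : V S.N M → 𝕜) = 0 := by
    unfold nn
    refine Finset.sum_eq_zero fun v _ => ?_
    rw [Pi.zero_apply, norm_zero, Real.zero_rpow S.hp.ne']
  rw [hKr, hnn0, add_zero] at htel
  have hlev : ∑ j ∈ Finset.Ioc 0 M, lev (co r) j = ∑ j ∈ Finset.Ioc 0 M, lev (co b) j := by
    refine Finset.sum_congr rfl fun j hj => ?_
    rw [Finset.mem_Ioc] at hj
    unfold lev nn
    refine Finset.sum_congr rfl fun v _ => ?_
    have h1 : co r ⟨j, v⟩ = - co b ⟨j, v⟩ := by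
      rw [hr, co_sub, Pi.sub_apply, co_at_ne 0 _ ⟨j, v⟩ (ne_of_gt hj.1), zero_sub]
    show ‖co r ⟨j, v⟩‖ ^ p = ‖co b ⟨j, v⟩‖ ^ p
    rw [h1, norm_neg]
  have hcost : cost b = lev (co b) 0 + ∑ j ∈ Finset.Ioc 0 M, lev (co b) j := by
    rw [cost_eq_lev b (M + 1) (fun q hq => hK' q (by omega)), Finset.sum_range_succ']
    rw [add_comm]
    congr 1
    rw [Finset.sum_bij (fun (j : ℕ) _ => j + 1)]
    · intro j hj
      rw [Finset.mem_range] at hj
      rw [Finset.mem_Ioc]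
      omega
    · intro i _ j _ h
      omega
    · intro j hj
      rw [Finset.mem_Ioc] at hj
      exact ⟨j - 1, by rw [Finset.mem_range]; omega, by omega⟩
    · intro j _
      rfl
  have h0 : (1 : ℝ) ≤ lev (co b) 0 + nn 0 (PP (co r) 0) := by
    have h1 : nn 0 (fun _ : V S.N 0 => (1 : 𝕜)) = 1 := by
      show ∑ _v : Unit, ‖(1 : 𝕜)‖ ^ p = 1
      rw [Finset.sum_const, norm_one, Real.one_rpow]
      simp
    have h2 : (fun _ : V S.N 0 => (1 : 𝕜)) = (fun v => co b ⟨0, v⟩) + PP (co r) 0 := by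
      funext v
      show (1 : 𝕜) = co b ⟨0, v⟩ + co r ⟨0, v⟩
      rw [hr, co_sub, Pi.sub_apply, co_at_same]
      ring
    rw [← h1, h2]
    exact nn_add_le 0 _ _
  have hB := S.hB 0
  have hn0 := nn_nonneg 0 (PP (co r) 0)
  have h3 : nn 0 (PP (co r) 0) ≤ S.N 0 * S.c 0 ^ p * nn 0 (PP (co r) 0) := by
    rw [Nat.cast_zero, zero_add] at hB
    nlinarith
  rw [hcost, ← hlev]
  linarith

lemma mk_at_up (k : ℕ) (z : V S.N k → 𝕜) : mk (at' k z) = mk (at' (k + 1) (up k z)) := by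
  have h := mk_eq_at (at' k z) (k + 1) (fun q hq => co_at_ne k z q (by omega))
  rw [PP_succ, PP_at] at h
  rw [h]
  congr 2
  funext w
  rw [Pi.add_apply, co_at_ne k z ⟨k + 1, w⟩ (Nat.succ_ne_self k), zero_add]

lemma at_add (k : ℕ) (z w : V S.N k → 𝕜) : at' k (z + w) = at' k z + at' k w := by
  apply co_inj
  funext q
  rw [co_add, Pi.add_apply]
  by_cases h : q.1 = k
  · obtain ⟨j, v⟩ := q
    obtain rfl : j = k := h
    rw [co_at_same, co_at_same, co_at_same, Pi.add_apply]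
  · rw [co_at_ne k _ q h, co_at_ne k _ q h, co_at_ne k _ q h, add_zero]

lemma at_smul (k : ℕ) (t : 𝕜) (z : V S.N k → 𝕜) : at' k (t • z) = t • at' k z := by
  apply co_inj
  funext q
  rw [co_smul, Pi.smul_apply]
  by_cases h : q.1 = k
  · obtain ⟨j, v⟩ := q
    obtain rfl : j = k := h
    rw [co_at_same, co_at_same, Pi.smul_apply]
  · rw [co_at_ne k _ q h, co_at_ne k _ q h, smul_zero]

variable (S 𝕜) in
/-- level `k` functions in the space, as a linear map -/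
noncomputable def atL (k : ℕ) : (V S.N k → 𝕜) →ₗ[𝕜] XX S 𝕜 where
  toFun z := cmk (at' k z)
  map_add' z w := by rw [at_add, cmk_add]
  map_smul' t z := by rw [at_smul, cmk_smul]; rfl

lemma atL_up (k : ℕ) (z : V S.N k → 𝕜) : atL S 𝕜 (k + 1) (up k z) = atL S 𝕜 k z := by
  show cmk (at' (k + 1) (up k z)) = cmk (at' k z)
  unfold cmk
  rw [mk_at_up k z]

lemma cmk_eq_atL (a : Pre S 𝕜) : ∃ K, ∀ k, K ≤ k → cmk a = atL S 𝕜 k (PP (co a) k) := by
  obtain ⟨K, hK⟩ := exists_bound a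
  refine ⟨K, fun k hk => ?_⟩
  show cmk a = cmk (at' k (PP (co a) k))
  unfold cmk
  rw [mk_eq_at a k (fun q hq => hK q (hk.trans hq.le))]

lemma norm_atL_single {k : ℕ} [DecidableEq (V S.N k)] (v : V S.N k) :
    ‖atL S 𝕜 k (Pi.single v (1 : 𝕜))‖ ≤ 1 := by
  show ‖cmk (at' k (Pi.single v (1 : 𝕜)))‖ ≤ 1
  refine (norm_cmk_le _).trans ?_
  rw [cost_at]
  unfold nn
  rw [Finset.sum_eq_single v]
  · rw [Pi.single_eq_same, norm_one, Real.one_rpow]
  · intro w _ hw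
    rw [Pi.single_eq_of_ne hw, norm_zero, Real.zero_rpow S.hp.ne']
  · intro h; exact absurd (Finset.mem_univ v) h

/-- the `ℓ_1` norm -/
noncomputable def n1 (k : ℕ) (z : V S.N k → 𝕜) : ℝ := ∑ v, ‖z v‖

lemma n1_up (k : ℕ) (z : V S.N k → 𝕜) : n1 (k + 1) (up k z) = S.N k * S.c k * n1 k z := by
  unfold n1
  rw [sum_succ, Finset.mul_sum]
  refine Finset.sum_congr rfl fun v _ => ?_
  have h1 : ∀ i : Fin (S.N k), ‖up k z (show V S.N k × Fin (S.N k) from (v, i))‖ =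
      S.c k * ‖z v‖ := by
    intro i
    show ‖(S.c k : 𝕜) * z v‖ = _
    rw [norm_mul, RCLike.norm_ofReal, abs_of_pos (S.hc k)]
  rw [Finset.sum_congr rfl fun i _ => h1 i, Finset.sum_const, Finset.card_univ, Fintype.card_fin,
    nsmul_eq_mul]
  ring

lemma n1_nonneg (k : ℕ) (z : V S.N k → 𝕜) : 0 ≤ n1 k z := Finset.sum_nonneg fun _ _ => norm_nonneg _

/-- a linear map bounded on the nodes is controlled by the `ℓ_1` norm -/
lemma bound_n1 {Y : Type} [SeminormedAddCommGroup Y] [NormedSpace 𝕜 Y]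
    (f : XX S 𝕜 →ₗ[𝕜] Y) (D : ℝ)
    (hf : ∀ y, ‖y‖ ≤ 1 → ‖f y‖ ≤ D) (k : ℕ) (z : V S.N k → 𝕜) :
    ‖f (atL S 𝕜 k z)‖ ≤ D * n1 k z := by
  classical
  have h1 : f (atL S 𝕜 k z) = ∑ v, z v • f (atL S 𝕜 k (Pi.single v (1 : 𝕜))) := by
    have h2 := LinearMap.pi_apply_eq_sum_univ (f.comp (atL S 𝕜 k)) z
    rw [LinearMap.comp_apply] at h2
    rw [h2]
    refine Finset.sum_congr rfl fun v _ => ?_
    rw [LinearMap.comp_apply]
    congr 3
    funext w
    rw [Pi.single_apply]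
    exact if_congr eq_comm rfl rfl
  rw [h1]
  unfold n1
  rw [Finset.mul_sum]
  refine norm_sum_le_of_le _ fun v _ => ?_
  rw [norm_smul, mul_comm]
  exact mul_le_mul_of_nonneg_right (hf _ (norm_atL_single v)) (norm_nonneg _)

/-- the space has trivial dual when `N k * c k ≤ 1/2` -/
theorem dual_trivial (hNc : ∀ k, S.N k * S.c k ≤ 1 / 2) (f : XX S 𝕜 →ₗ[𝕜] 𝕜) (hf : Continuous f) :
    f = 0 := by
  -- boundedness
  obtain ⟨D, hD⟩ : ∃ D : ℝ, ∀ y, ‖y‖ ≤ 1 → ‖f y‖ ≤ D := by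
    obtain ⟨δ, hδ, h1⟩ := Metric.continuousAt_iff.1 (hf.continuousAt (x := 0)) 1 one_pos
    set t : ℝ := (δ / 2) ^ (1 / p) with ht
    have ht0 : 0 < t := Real.rpow_pos_of_pos (by positivity) _
    refine ⟨1 / t, fun y hy => ?_⟩
    have h2 : ‖((t : ℝ) : 𝕜) • y‖ < δ := by
      rw [norm_XX_smul, RCLike.norm_ofReal, abs_of_pos ht0, ht, ← Real.rpow_mul (by positivity),
        one_div, inv_mul_cancel₀ S.hp.ne', Real.rpow_one]
      have := norm_nonneg y
      nlinarith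
    have h3 := h1 (x := ((t : ℝ) : 𝕜) • y) (by rwa [dist_zero_right])
    rw [map_zero, dist_zero_right, map_smul, norm_smul, RCLike.norm_ofReal, abs_of_pos ht0] at h3
    rw [le_div_iff₀ ht0]
    linarith
  have hD0 : 0 ≤ D := (norm_nonneg _).trans (hD 0 (by simp))
  -- decay
  have hdec : ∀ (j k : ℕ) (z : V S.N k → 𝕜), ‖f (atL S 𝕜 k z)‖ ≤ D * (1 / 2) ^ j * n1 k z := by
    intro j
    induction j with
    | zero =>
      intro k z
      rw [pow_zero, mul_one]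
      exact bound_n1 f D hD k z
    | succ j ih =>
      intro k z
      rw [← atL_up]
      refine (ih (k + 1) _).trans ?_
      rw [n1_up]
      have h1 := n1_nonneg k z
      have h2 : S.N k * S.c k * n1 k z ≤ 1 / 2 * n1 k z := mul_le_mul_of_nonneg_right (hNc k) h1
      have h3 : 0 ≤ D * (1 / 2) ^ j := by positivity
      calc D * (1 / 2) ^ j * (S.N k * S.c k * n1 k z) ≤ D * (1 / 2) ^ j * (1 / 2 * n1 k z) :=
            mul_le_mul_of_nonneg_left h2 h3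
        _ = D * (1 / 2) ^ (j + 1) * n1 k z := by rw [pow_succ]; ring
  have hzero : ∀ (k : ℕ) (z : V S.N k → 𝕜), f (atL S 𝕜 k z) = 0 := by
    intro k z
    rw [← norm_le_zero_iff]
    have h1 : Tendsto (fun j : ℕ => D * (1 / 2 : ℝ) ^ j * n1 k z) atTop (𝓝 (D * 0 * n1 k z)) := by
      refine (tendsto_const_nhds.mul ?_).mul tendsto_const_nhds
      exact tendsto_pow_atTop_nhds_zero_of_lt_one (by norm_num) (by norm_num)
    rw [mul_zero, zero_mul] at h1
    exact ge_of_tendsto' h1 fun j => hdec j k z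
  refine LinearMap.ext fun x => ?_
  rw [LinearMap.zero_apply]
  induction x using UniformSpace.Completion.induction_on with
  | hp => exact isClosed_eq hf continuous_const
  | ih q =>
    obtain ⟨a, rfl⟩ := Submodule.Quotient.mk_surjective _ q
    obtain ⟨K, hK⟩ := cmk_eq_atL a
    show f (cmk a) = 0
    rw [hK K le_rfl]
    exact hzero _ _

end

/-! ### quasi-norms -/

/-- `N` is a quasi-norm on `X` for which `X` is a quasi-Banach space. -/
structure QuasiBanach (𝕜 : Type) [RCLike 𝕜] (X : Type) [AddCommGroup X] [Module 𝕜 X] (N : X → ℝ) :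
    Prop where
  nonneg : ∀ x, 0 ≤ N x
  pos : ∀ x, x ≠ 0 → 0 < N x
  smul : ∀ (a : 𝕜) (x : X), N (a • x) = ‖a‖ * N x
  add : ∃ κ : ℝ, ∀ x y, N (x + y) ≤ κ * (N x + N y)
  complete : ∀ u : ℕ → X, (∀ ε : ℝ, 0 < ε → ∃ K, ∀ i, K ≤ i → ∀ j, K ≤ j → N (u i - u j) < ε) →
    ∃ x, Tendsto (fun i => N (u i - x)) atTop (𝓝 0)

/-- The Schur `p`-property. -/
def SchurP (𝕜 : Type) [RCLike 𝕜] (p : ℝ) (X : Type) [AddCommGroup X] [Module 𝕜 X] (N : X → ℝ) :
    Prop :=
  ∀ A : Set X, A.Infinite → (∃ C : ℝ, ∀ x ∈ A, N x ≤ C) →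
    (∃ δ : ℝ, 0 < δ ∧ ∀ x ∈ A, ∀ y ∈ A, x ≠ y → δ ≤ N (x - y)) →
    ∃ B ⊆ A, B.Infinite ∧ ∃ c C : ℝ, 0 < c ∧ c ≤ C ∧
      ∀ (F : Finset X) (a : X → 𝕜), (F : Set X) ⊆ B →
        c * (∑ x ∈ F, ‖a x‖ ^ p) ^ (1 / p) ≤ N (∑ x ∈ F, a x • x) ∧
        N (∑ x ∈ F, a x • x) ≤ C * (∑ x ∈ F, ‖a x‖ ^ p) ^ (1 / p)

section

variable {p : ℝ} {S : Par p} {𝕜 : Type} [RCLike 𝕜]

/-- the quasi-norm -/
noncomputable def qn (x : XX S 𝕜) : ℝ := ‖x‖ ^ (1 / p)

lemma rpow_inv (hp : 0 < p) {t : ℝ} (ht : 0 ≤ t) : (t ^ (1 / p)) ^ p = t := by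
  rw [← Real.rpow_mul ht, one_div, inv_mul_cancel₀ hp.ne', Real.rpow_one]

lemma rpow_inv' (hp : 0 < p) {t : ℝ} (ht : 0 ≤ t) : (t ^ p) ^ (1 / p) = t := by
  rw [← Real.rpow_mul ht, mul_one_div_cancel hp.ne', Real.rpow_one]

lemma qn_pow (x : XX S 𝕜) : qn x ^ p = ‖x‖ := rpow_inv S.hp (norm_nonneg x)

lemma qn_nonneg (x : XX S 𝕜) : 0 ≤ qn x := Real.rpow_nonneg (norm_nonneg _) _

lemma qn_smul (a : 𝕜) (x : XX S 𝕜) : qn (a • x) = ‖a‖ * qn x := by
  unfold qn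
  rw [norm_XX_smul, Real.mul_rpow (Real.rpow_nonneg (norm_nonneg _) _) (norm_nonneg _),
    rpow_inv' S.hp (norm_nonneg _)]

lemma qn_le_iff {x : XX S 𝕜} {C : ℝ} (hC : 0 ≤ C) : qn x ≤ C ↔ ‖x‖ ≤ C ^ p := by
  rw [← qn_pow]
  exact (Real.rpow_le_rpow_iff (qn_nonneg x) hC S.hp).symm

lemma le_qn_iff {x : XX S 𝕜} {C : ℝ} (hC : 0 ≤ C) : C ≤ qn x ↔ C ^ p ≤ ‖x‖ := by
  rw [← qn_pow]
  exact (Real.rpow_le_rpow_iff hC (qn_nonneg x) S.hp).symm

lemma tendsto_qn {u : ℕ → XX S 𝕜} :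
    Tendsto (fun n => qn (u n)) atTop (𝓝 0) ↔ Tendsto (fun n => ‖u n‖) atTop (𝓝 0) := by
  constructor
  · intro h
    have h1 := h.rpow_const (p := p) (Or.inr S.hp.le)
    rw [Real.zero_rpow S.hp.ne'] at h1
    exact h1.congr fun n => qn_pow _
  · intro h
    have h1 := h.rpow_const (p := 1 / p) (Or.inr (one_div_pos.2 S.hp).le)
    rw [Real.zero_rpow (one_div_pos.2 S.hp).ne'] at h1
    exact h1

theorem quasiBanach : QuasiBanach 𝕜 (XX S 𝕜) qn where
  nonneg := qn_nonneg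
  pos x hx := Real.rpow_pos_of_pos (norm_pos_iff.2 hx) _
  smul := qn_smul
  add := by
    refine ⟨2 ^ (1 / p), fun x y => ?_⟩
    have h1 : 0 ≤ 1 / p := (one_div_pos.2 S.hp).le
    have h2 : ‖x + y‖ ≤ 2 * max ‖x‖ ‖y‖ := by
      refine (norm_add_le x y).trans ?_
      rw [two_mul]
      exact add_le_add (le_max_left _ _) (le_max_right _ _)
    have h3 : qn (x + y) ≤ (2 * max ‖x‖ ‖y‖) ^ (1 / p) := Real.rpow_le_rpow (norm_nonneg _) h2 h1
    have h4 : 0 ≤ max ‖x‖ ‖y‖ := (norm_nonneg x).trans (le_max_left _ _)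
    rw [Real.mul_rpow (by norm_num) h4] at h3
    refine h3.trans (mul_le_mul_of_nonneg_left ?_ (Real.rpow_nonneg (by norm_num) _))
    rcases le_total ‖x‖ ‖y‖ with h5 | h5
    · rw [max_eq_right h5]
      have := qn_nonneg x
      show qn y ≤ _
      linarith
    · rw [max_eq_left h5]
      have := qn_nonneg y
      show qn x ≤ _
      linarith
  complete u hu := by
    have h1 : CauchySeq u := by
      rw [Metric.cauchySeq_iff]
      intro ε hε
      obtain ⟨K, hK⟩ := hu (ε ^ (1 / p)) (Real.rpow_pos_of_pos hε _)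
      refine ⟨K, fun i hi j hj => ?_⟩
      have h2 := Real.rpow_lt_rpow (qn_nonneg _) (hK i hi j hj) S.hp
      rw [qn_pow, rpow_inv S.hp hε.le] at h2
      rwa [dist_eq_norm]
    obtain ⟨x, hx⟩ := cauchySeq_tendsto_of_complete h1
    rw [tendsto_iff_norm_sub_tendsto_zero] at hx
    exact ⟨x, tendsto_qn.2 hx⟩

theorem schurP : SchurP 𝕜 p (XX S 𝕜) qn := by
  rintro A hA ⟨C, hC⟩ ⟨δ, hδ, hsep⟩
  have hp := S.hp
  -- an enumeration
  let e : ℕ ↪ A := Set.Infinite.natEmbedding A hA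
  have hC0 : 0 ≤ C := (qn_nonneg _).trans (hC (e 0) (e 0).2)
  obtain ⟨φ, κ, hφ, hκ, hlow⟩ := exists_subseq (fun n => (e n : XX S 𝕜)) (C ^ p) (δ ^ p)
    (Real.rpow_pos_of_pos hδ _) (fun n => (qn_le_iff hC0).1 (hC _ (e n).2)) (fun n m hnm => by
      refine (le_qn_iff hδ.le).1 (hsep _ (e n).2 _ (e m).2 ?_)
      intro h
      exact hnm (e.injective (Subtype.ext h)))
  have hinj : Function.Injective fun n => (e (φ n) : XX S 𝕜) := fun n m h =>
    hφ.injective (e.injective (Subtype.ext h))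
  refine ⟨Set.range fun n => (e (φ n) : XX S 𝕜), ?_, Set.infinite_range_of_injective hinj,
    κ ^ (1 / p), max C (κ ^ (1 / p)), Real.rpow_pos_of_pos hκ _, le_max_right _ _, ?_⟩
  · rintro _ ⟨n, rfl⟩
    exact (e (φ n)).2
  · intro F a hF
    classical
    obtain ⟨G, hG⟩ : ∃ G : Finset ℕ, F = G.map ⟨fun n => (e (φ n) : XX S 𝕜), hinj⟩ := by
      refine ⟨F.preimage (fun n => (e (φ n) : XX S 𝕜)) hinj.injOn, ?_⟩
      ext x
      rw [Finset.mem_map]
      constructor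
      · intro hx
        obtain ⟨n, hn⟩ := hF hx
        have hn' : (e (φ n) : XX S 𝕜) = x := hn
        exact ⟨n, by rw [Finset.mem_preimage, hn']; exact hx, hn⟩
      · rintro ⟨n, hn, rfl⟩
        exact Finset.mem_preimage.1 hn
    have hs0 : 0 ≤ ∑ x ∈ F, ‖a x‖ ^ p :=
      Finset.sum_nonneg fun _ _ => Real.rpow_nonneg (norm_nonneg _) _
    constructor
    · rw [le_qn_iff (by positivity), Real.mul_rpow (Real.rpow_nonneg hκ.le _)
        (Real.rpow_nonneg hs0 _), rpow_inv hp hκ.le, rpow_inv hp hs0, hG, Finset.sum_map,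
        Finset.sum_map]
      exact hlow G (fun n => a (e (φ n)))
    · rw [qn_le_iff (by positivity), Real.mul_rpow (by positivity)
        (Real.rpow_nonneg hs0 _), rpow_inv hp hs0, Finset.mul_sum]
      refine norm_sum_le_of_le _ fun x hx => ?_
      rw [norm_XX_smul, mul_comm]
      refine mul_le_mul_of_nonneg_right ?_ (Real.rpow_nonneg (norm_nonneg _) _)
      obtain ⟨n, hn⟩ := hF hx
      have h1 : qn x ≤ C := by
        rw [← hn]
        exact hC _ (e (φ n)).2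
      exact ((qn_le_iff hC0).1 h1).trans
        (Real.rpow_le_rpow hC0 (le_max_left _ _) hp.le)

end

end Pool.Agent.V11101.Tree
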