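import Pool.Agent.V11101.TreeBasic

/-!
# The Banach envelope of the tree space when `N k * c k = 1`
-/

set_option linter.unusedSectionVars false

open Set Filter Topology

namespace Pool.Agent.V11101.Tree

/-- families of coefficients, to carry the envelope norm -/
def EP {p : ℝ} (S : Par p) (𝕜 : Type) [RCLike 𝕜] : Type := Pre S 𝕜

section

variable {p : ℝ} (S : Par p) (𝕜 : Type) [RCLike 𝕜]

noncomputable instance : AddCommGroup (EP S 𝕜) := inferInstanceAs (AddCommGroup (Pre S 𝕜))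
noncomputable instance : Module 𝕜 (EP S 𝕜) := inferInstanceAs (Module 𝕜 (Pre S 𝕜))

variable {S} {𝕜}

/-- the identity -/
def toEP (a : Pre S 𝕜) : EP S 𝕜 := a

lemma n1_add_le (k : ℕ) (z w : V S.N k → 𝕜) : n1 k (z + w) ≤ n1 k z + n1 k w := by
  unfold n1
  rw [← Finset.sum_add_distrib]
  exact Finset.sum_le_sum fun v _ => norm_add_le _ _

lemma n1_smul (k : ℕ) (t : 𝕜) (z : V S.N k → 𝕜) : n1 k (t • z) = ‖t‖ * n1 k z := by
  unfold n1
  rw [Finset.mul_sum]
  refine Finset.sum_congr rfl fun v _ => ?_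
  rw [Pi.smul_apply, norm_smul]

lemma n1_zero (k : ℕ) : n1 k (0 : V S.N k → 𝕜) = 0 := by
  unfold n1
  exact Finset.sum_eq_zero fun v _ => norm_zero

/-- the envelope norm -/
noncomputable def L1 (a : Pre S 𝕜) : ℝ :=
  n1 (Classical.choose (exists_bound a)) (PP (co a) (Classical.choose (exists_bound a)))

lemma PP_succ_of_bound (a : Pre S 𝕜) (k : ℕ) (hk : ∀ q : Node S, k < q.1 → co a q = 0) :
    PP (co a) (k + 1) = up k (PP (co a) k) := by
  rw [PP_succ]
  funext w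
  rw [Pi.add_apply, hk ⟨k + 1, w⟩ (Nat.lt_succ_self k), zero_add]

variable (hS : ∀ k, S.N k * S.c k = 1)

include hS in
lemma n1_const (a : Pre S 𝕜) (k : ℕ) (hk : ∀ q : Node S, k < q.1 → co a q = 0) (j : ℕ)
    (hj : k ≤ j) : n1 j (PP (co a) j) = n1 k (PP (co a) k) := by
  induction j, hj using Nat.le_induction with
  | base => rfl
  | succ j hj ih =>
    rw [PP_succ_of_bound a j (fun q hq => hk q (hj.trans_lt hq)), n1_up, hS, one_mul, ih]

include hS in
lemma L1_eq (a : Pre S 𝕜) (k : ℕ) (hk : ∀ q : Node S, k < q.1 → co a q = 0) :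
    L1 a = n1 k (PP (co a) k) := by
  have h1 := Classical.choose_spec (exists_bound a)
  unfold L1
  generalize Classical.choose (exists_bound a) = m at h1
  rw [← n1_const hS a m (fun q hq => h1 q hq.le) (max m k) (le_max_left _ _),
    ← n1_const hS a k hk (max m k) (le_max_right _ _)]

end

/-- the parameters with `N k * c k = 1` -/
class Bal {p : ℝ} (S : Par p) : Prop where
  bal : ∀ k, S.N k * S.c k = 1

section

variable {p : ℝ} {S : Par p} [hB : Bal S] {𝕜 : Type} [RCLike 𝕜]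

lemma exists_bound₂ (a b : Pre S 𝕜) : ∃ K, (∀ q : Node S, K < q.1 → co a q = 0) ∧
    (∀ q : Node S, K < q.1 → co b q = 0) ∧ ∀ q : Node S, K < q.1 → co (a + b) q = 0 := by
  obtain ⟨K, hK⟩ := exists_bound a
  obtain ⟨L, hL⟩ := exists_bound b
  have h1 : ∀ q : Node S, max K L < q.1 → co a q = 0 := fun q hq =>
    hK q ((le_max_left _ _).trans hq.le)
  have h2 : ∀ q : Node S, max K L < q.1 → co b q = 0 := fun q hq =>
    hL q ((le_max_right _ _).trans hq.le)
  refine ⟨max K L, h1, h2, fun q hq => ?_⟩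
  rw [co_add, Pi.add_apply, h1 q hq, h2 q hq, add_zero]

lemma L1_add_le (a b : Pre S 𝕜) : L1 (a + b) ≤ L1 a + L1 b := by
  obtain ⟨K, h1, h2, h3⟩ := exists_bound₂ a b
  rw [L1_eq hB.bal a K h1, L1_eq hB.bal b K h2, L1_eq hB.bal (a + b) K h3, co_add, PP_add]
  exact n1_add_le _ _ _

lemma L1_smul (t : 𝕜) (a : Pre S 𝕜) : L1 (t • a) = ‖t‖ * L1 a := by
  obtain ⟨K, hK⟩ := exists_bound a
  have h1 : ∀ q : Node S, K < q.1 → co a q = 0 := fun q hq => hK q hq.le
  rw [L1_eq hB.bal a K h1, L1_eq hB.bal (t • a) K, co_smul, PP_smul, n1_smul]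
  intro q hq
  rw [co_smul, Pi.smul_apply, h1 q hq, smul_zero]

variable (S 𝕜) in
/-- the envelope seminorm -/
noncomputable def epSeminorm : AddGroupSeminorm (EP S 𝕜) where
  toFun a := L1 (show Pre S 𝕜 from a)
  map_zero' := by
    have := L1_smul (0 : 𝕜) (0 : Pre S 𝕜)
    rwa [zero_smul, norm_zero, zero_mul] at this
  add_le' a b := L1_add_le _ _
  neg' a := by
    have := L1_smul (-1 : 𝕜) (show Pre S 𝕜 from a)
    rw [neg_one_smul, norm_neg, norm_one, one_mul] at this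
    exact this

noncomputable instance : SeminormedAddCommGroup (EP S 𝕜) :=
  (epSeminorm S 𝕜).toSeminormedAddCommGroup

lemma norm_toEP (a : Pre S 𝕜) : ‖toEP a‖ = L1 a := rfl

noncomputable instance : NormedSpace 𝕜 (EP S 𝕜) where
  norm_smul_le t a := (L1_smul t (show Pre S 𝕜 from a)).le

variable (S 𝕜) in
/-- the envelope -/
abbrev Env : Type := UniformSpace.Completion (EP S 𝕜)

/-- the class of a family of coefficients in the envelope -/
noncomputable def emk (a : Pre S 𝕜) : Env S 𝕜 := ((toEP a : EP S 𝕜) : Env S 𝕜)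

lemma norm_emk (a : Pre S 𝕜) : ‖emk a‖ = L1 a := UniformSpace.Completion.norm_coe _

lemma emk_add (a b : Pre S 𝕜) : emk (a + b) = emk a + emk b :=
  UniformSpace.Completion.coe_add (toEP a) (toEP b)

lemma emk_smul (t : 𝕜) (a : Pre S 𝕜) : emk (t • a) = t • emk a :=
  UniformSpace.Completion.coe_smul t (toEP a)

lemma L1_single (q : Node S) (t : 𝕜) :
    L1 (show Pre S 𝕜 from (Finsupp.single q t : Node S →₀ 𝕜)) ≤ ‖t‖ := by
  classical
  obtain ⟨k, v⟩ := q
  have hne : ∀ q' : Node S, q' ≠ ⟨k, v⟩ →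
      co (show Pre S 𝕜 from (Finsupp.single ⟨k, v⟩ t : Node S →₀ 𝕜)) q' = 0 := fun q' h =>
    Finsupp.single_eq_of_ne h
  have h1 : (show Pre S 𝕜 from (Finsupp.single (⟨k, v⟩ : Node S) t : Node S →₀ 𝕜)) =
      at' k (Pi.single v t) := by
    apply co_inj
    funext q'
    by_cases h : q'.1 = k
    · obtain ⟨j, w⟩ := q'
      obtain rfl : j = k := h
      rw [co_at_same]
      by_cases h2 : w = v
      · subst h2
        rw [Pi.single_eq_same]
        exact Finsupp.single_eq_same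
      · rw [Pi.single_eq_of_ne h2, hne]
        intro h3
        exact h2 (eq_of_heq (Sigma.mk.inj_iff.1 h3).2)
    · rw [co_at_ne k _ q' h, hne]
      rintro rfl
      exact h rfl
  rw [h1, L1_eq hB.bal _ k (fun q hq => co_at_ne k _ q (ne_of_gt hq)), PP_at]
  unfold n1
  rw [Finset.sum_eq_single v]
  · rw [Pi.single_eq_same]
  · intro w _ hw
    rw [Pi.single_eq_of_ne hw, norm_zero]
  · intro h; exact absurd (Finset.mem_univ v) h

/-- a finite sum of `ℓ_1` type is at most the `ℓ_p` type sum -/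
lemma sum_le_rpow {ι : Type} (hp : 0 < p) (hp1 : p ≤ 1) (s : Finset ι) (f : ι → ℝ)
    (hf : ∀ i ∈ s, 0 ≤ f i) : (∑ i ∈ s, f i) ^ p ≤ ∑ i ∈ s, f i ^ p := by
  classical
  induction s using Finset.induction_on with
  | empty => rw [Finset.sum_empty, Finset.sum_empty, Real.zero_rpow hp.ne']
  | insert i s hi ih =>
    rw [Finset.sum_insert hi, Finset.sum_insert hi]
    have h1 := ih (fun j hj => hf j (Finset.mem_insert_of_mem hj))
    have h2 := Real.rpow_add_le_add_rpow (hf i (Finset.mem_insert_self i s))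
      (Finset.sum_nonneg fun j hj => hf j (Finset.mem_insert_of_mem hj)) hp.le hp1
    linarith

lemma L1_nonneg (a : Pre S 𝕜) : 0 ≤ L1 a := n1_nonneg _ _

lemma L1_le_sum (a : Pre S 𝕜) :
    L1 a ≤ ∑ q ∈ (show Node S →₀ 𝕜 from a).support, ‖co a q‖ := by
  classical
  have h1 : (show Node S →₀ 𝕜 from a) = ∑ q ∈ (show Node S →₀ 𝕜 from a).support,
      Finsupp.single q (co a q) := (Finsupp.sum_single (show Node S →₀ 𝕜 from a)).symm
  have h2 : ∀ s : Finset (Node S),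
      L1 (show Pre S 𝕜 from (∑ q ∈ s, Finsupp.single q (co a q) : Node S →₀ 𝕜)) ≤
        ∑ q ∈ s, ‖co a q‖ := by
    intro s
    induction s using Finset.induction_on with
    | empty =>
      rw [Finset.sum_empty, Finset.sum_empty]
      have := L1_smul (0 : 𝕜) (0 : Pre S 𝕜)
      rw [zero_smul, norm_zero, zero_mul] at this
      exact this.le
    | insert i s hi ih =>
      rw [Finset.sum_insert hi, Finset.sum_insert hi]
      exact (L1_add_le _ _).trans (add_le_add (L1_single _ _) ih)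
  have h3 := h2 (show Node S →₀ 𝕜 from a).support
  rw [← h1] at h3
  exact h3

lemma L1_pow_le (a : Pre S 𝕜) : L1 a ^ p ≤ cost a :=
  (Real.rpow_le_rpow (L1_nonneg a) (L1_le_sum a) S.hp.le).trans
    (sum_le_rpow S.hp S.hp1 _ _ fun _ _ => norm_nonneg _)

lemma L1_of_mem_RR (a : Pre S 𝕜) (ha : a ∈ RR S 𝕜) : L1 a = 0 := by
  obtain ⟨K, hK⟩ := ha
  obtain ⟨L, hL⟩ := exists_bound a
  rw [L1_eq hB.bal a (max K L) (fun q hq => hL q ((le_max_right _ _).trans hq.le)),
    hK _ (le_max_left _ _), n1_zero]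

variable (S 𝕜) in
/-- the canonical map, as a linear map from families of coefficients -/
noncomputable def emkL : Pre S 𝕜 →ₗ[𝕜] Env S 𝕜 where
  toFun := emk
  map_add' := emk_add
  map_smul' := emk_smul

variable (S 𝕜) in
/-- the canonical map on the quotient -/
noncomputable def J0 : QQ S 𝕜 →ₗ[𝕜] Env S 𝕜 :=
  (RR S 𝕜).liftQ (emkL S 𝕜) (by
    intro a ha
    rw [LinearMap.mem_ker]
    show emk a = 0
    rw [← norm_eq_zero, norm_emk]
    exact L1_of_mem_RR a ha)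

lemma J0_mk (a : Pre S 𝕜) : J0 S 𝕜 (mk a) = emk a := rfl

lemma norm_J0_pow_le (x : QQ S 𝕜) : ‖J0 S 𝕜 x‖ ^ p ≤ ‖x‖ := by
  refine le_of_forall_pos_le_add fun ε hε => ?_
  obtain ⟨a, rfl, ha⟩ := exists_rep x hε
  rw [J0_mk, norm_emk]
  exact (L1_pow_le a).trans ha.le

lemma norm_J0_le (x : QQ S 𝕜) : ‖J0 S 𝕜 x‖ ≤ ‖x‖ ^ (1 / p) := by
  have h := Real.rpow_le_rpow (Real.rpow_nonneg (norm_nonneg _) _) (norm_J0_pow_le x)
    (one_div_pos.2 S.hp).le
  rwa [rpow_inv' S.hp (norm_nonneg _)] at h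

lemma J0_continuous : Continuous (J0 S 𝕜) := by
  refine continuous_iff_continuousAt.2 fun x => ?_
  rw [ContinuousAt, tendsto_iff_norm_sub_tendsto_zero]
  have h1 : Tendsto (fun y : QQ S 𝕜 => ‖y - x‖ ^ (1 / p)) (𝓝 x) (𝓝 0) := by
    have h2 : Tendsto (fun y : QQ S 𝕜 => ‖y - x‖) (𝓝 x) (𝓝 0) :=
      tendsto_iff_norm_sub_tendsto_zero.1 tendsto_id
    have h3 := h2.rpow_const (p := 1 / p) (Or.inr (one_div_pos.2 S.hp).le)
    rwa [Real.zero_rpow (one_div_pos.2 S.hp).ne'] at h3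
  refine squeeze_zero (fun _ => norm_nonneg _) (fun y => ?_) h1
  rw [← map_sub]
  exact norm_J0_le _

variable (S 𝕜) in
/-- the embedding of the quotient -/
noncomputable def iota : QQ S 𝕜 →L[𝕜] XX S 𝕜 :=
  ⟨{ toFun := fun x => (x : XX S 𝕜)
     map_add' := fun x y => UniformSpace.Completion.coe_add x y
     map_smul' := fun c x => UniformSpace.Completion.coe_smul c x },
    UniformSpace.Completion.continuous_coe _⟩

variable (S 𝕜) in
/-- the envelope map -/
noncomputable def J : XX S 𝕜 →L[𝕜] Env S 𝕜 :=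
  (⟨J0 S 𝕜, J0_continuous⟩ : QQ S 𝕜 →L[𝕜] Env S 𝕜).extend (iota S 𝕜)

lemma J_cmk (a : Pre S 𝕜) : J S 𝕜 (cmk a) = emk a :=
  ContinuousLinearMap.extend_eq (⟨J0 S 𝕜, J0_continuous⟩ : QQ S 𝕜 →L[𝕜] Env S 𝕜)
    (e := iota S 𝕜) UniformSpace.Completion.denseRange_coe
    (UniformSpace.Completion.isUniformInducing_coe _) (mk a)

lemma norm_J_le (x : XX S 𝕜) : ‖J S 𝕜 x‖ ≤ qn x := by
  induction x using UniformSpace.Completion.induction_on with
  | hp =>
    refine isClosed_le (J S 𝕜).continuous.norm ?_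
    exact continuous_norm.rpow_const fun _ => Or.inr (one_div_pos.2 S.hp).le
  | ih q =>
    obtain ⟨a, rfl⟩ := Submodule.Quotient.mk_surjective _ q
    show ‖J S 𝕜 (cmk a)‖ ≤ qn (cmk a)
    rw [J_cmk, ← J0_mk]
    unfold qn
    rw [norm_cmk]
    exact norm_J0_le _

lemma dense_J : DenseRange (J S 𝕜) := by
  have h : DenseRange (fun x : EP S 𝕜 => (x : Env S 𝕜)) := UniformSpace.Completion.denseRange_coe
  refine h.mono ?_
  rintro _ ⟨a, rfl⟩
  exact ⟨cmk (show Pre S 𝕜 from a), J_cmk _⟩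

lemma eq_on_cmk {Y : Type} [TopologicalSpace Y] [T2Space Y] (f g : XX S 𝕜 → Y)
    (hf : Continuous f) (hg : Continuous g) (h : ∀ a, f (cmk a) = g (cmk a)) (x : XX S 𝕜) :
    f x = g x := by
  induction x using UniformSpace.Completion.induction_on with
  | hp => exact isClosed_eq hf hg
  | ih q =>
    obtain ⟨a, rfl⟩ := Submodule.Quotient.mk_surjective _ q
    exact h a

/-- the universal property -/
theorem env_lift {Y : Type} [NormedAddCommGroup Y] [NormedSpace 𝕜 Y] [CompleteSpace Y]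
    (T : XX S 𝕜 →ₗ[𝕜] Y) (hT : ∀ x, ‖T x‖ ≤ qn x) :
    ∃ T' : Env S 𝕜 →ₗ[𝕜] Y, (∀ z, ‖T' z‖ ≤ ‖z‖) ∧ ∀ x, T' (J S 𝕜 x) = T x := by
  have h1 : ∀ a : Pre S 𝕜, ‖T (cmk a)‖ ≤ L1 a := by
    intro a
    obtain ⟨K, hK⟩ := cmk_eq_atL a
    obtain ⟨L, hL⟩ := exists_bound a
    rw [hK (max K L) (le_max_left _ _),
      L1_eq hB.bal a (max K L) (fun q hq => hL q ((le_max_right _ _).trans hq.le))]
    have h2 := bound_n1 T 1 (fun y hy => by
      refine (hT y).trans ?_
      unfold qn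
      exact Real.rpow_le_one (norm_nonneg _) hy (one_div_pos.2 S.hp).le) (max K L)
      (PP (co a) (max K L))
    rwa [one_mul] at h2
  let T0 : EP S 𝕜 →ₗ[𝕜] Y :=
    { toFun := fun a => T (cmk (show Pre S 𝕜 from a))
      map_add' := fun a b => by
        show T (cmk ((show Pre S 𝕜 from a) + (show Pre S 𝕜 from b))) = _
        rw [cmk_add, map_add]
      map_smul' := fun t a => by
        show T (cmk (t • (show Pre S 𝕜 from a))) = _
        rw [cmk_smul, map_smul]; rfl }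
  let T1 : EP S 𝕜 →L[𝕜] Y := T0.mkContinuous 1 (fun a => by
    rw [one_mul]; exact h1 _)
  let κ : EP S 𝕜 →L[𝕜] Env S 𝕜 :=
    ⟨{ toFun := fun x => (x : Env S 𝕜)
       map_add' := fun x y => UniformSpace.Completion.coe_add x y
       map_smul' := fun c x => UniformSpace.Completion.coe_smul c x },
      UniformSpace.Completion.continuous_coe _⟩
  have hκ : DenseRange κ := UniformSpace.Completion.denseRange_coe
  have hκ2 : IsUniformInducing κ := UniformSpace.Completion.isUniformInducing_coe _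
  let T' : Env S 𝕜 →L[𝕜] Y := T1.extend κ
  have hT' : ∀ a : Pre S 𝕜, T' (emk a) = T (cmk a) := fun a =>
    ContinuousLinearMap.extend_eq T1 hκ hκ2 (toEP a)
  have hT'n : ∀ z, ‖T' z‖ ≤ ‖z‖ := by
    intro z
    induction z using UniformSpace.Completion.induction_on with
    | hp => exact isClosed_le T'.continuous.norm continuous_norm
    | ih a =>
      show ‖T' (emk (show Pre S 𝕜 from a))‖ ≤ ‖emk (show Pre S 𝕜 from a)‖
      rw [hT', norm_emk]
      exact h1 _
  have hTc : Continuous T := by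
    refine continuous_iff_continuousAt.2 fun x => ?_
    rw [ContinuousAt, tendsto_iff_norm_sub_tendsto_zero]
    have h1 : Tendsto (fun y : XX S 𝕜 => ‖y - x‖ ^ (1 / p)) (𝓝 x) (𝓝 0) := by
      have h2 : Tendsto (fun y : XX S 𝕜 => ‖y - x‖) (𝓝 x) (𝓝 0) :=
        tendsto_iff_norm_sub_tendsto_zero.1 tendsto_id
      have h3 := h2.rpow_const (p := 1 / p) (Or.inr (one_div_pos.2 S.hp).le)
      rwa [Real.zero_rpow (one_div_pos.2 S.hp).ne'] at h3
    refine squeeze_zero (fun _ => norm_nonneg _) (fun y => ?_) h1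
    rw [← map_sub]
    exact hT _
  refine ⟨T'.toLinearMap, hT'n, fun x => ?_⟩
  refine eq_on_cmk (fun x => T' (J S 𝕜 x)) T (T'.continuous.comp (J S 𝕜).continuous) hTc
    (fun a => ?_) x
  show T' (J S 𝕜 (cmk a)) = T (cmk a)
  rw [J_cmk, hT']

/-! ### Rademacher functions -/

/-- number of nodes -/
def card (N : ℕ → ℕ) (k : ℕ) : ℕ := ∏ j ∈ Finset.range k, N j

lemma card_V (S : Par p) (k : ℕ) : Fintype.card (V S.N k) = card S.N k := by
  induction k with
  | zero => rfl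
  | succ k ih =>
    have h : Fintype.card (V S.N (k + 1)) = Fintype.card (V S.N k × Fin (S.N k)) := rfl
    rw [h, Fintype.card_prod, Fintype.card_fin, ih]
    unfold card
    rw [Finset.prod_range_succ]

/-- the sign of the last coordinate of a node -/
def sg {N : ℕ → ℕ} {k : ℕ} (w : V N (k + 1)) : ℝ := (-1) ^ ((show V N k × Fin (N k) from w).2 : ℕ)

variable (S 𝕜) in
/-- the Rademacher functions -/
noncomputable def rad (k : ℕ) : V S.N (k + 1) → 𝕜 :=
  fun w => ((sg w / card S.N (k + 1) : ℝ) : 𝕜)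

/-- the quadratic functional -/
noncomputable def Q2 (k : ℕ) (z : V S.N k → 𝕜) : ℝ := card S.N k * ∑ v, ‖z v‖ ^ 2

lemma N_pos (S : Par p) (k : ℕ) : 0 < S.N k := by
  rcases Nat.eq_zero_or_pos (S.N k) with h | h
  · have := S.hB k
    rw [h, Nat.cast_zero, zero_mul] at this
    have h2 : (0 : ℝ) ≤ k := Nat.cast_nonneg k
    linarith
  · exact h

lemma card_pos (S : Par p) (k : ℕ) : 0 < card S.N k := Finset.prod_pos fun j _ => N_pos S j

lemma card_succ (N : ℕ → ℕ) (k : ℕ) : card N (k + 1) = card N k * N k := by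
  unfold card
  rw [Finset.prod_range_succ]

lemma n1_rad (k : ℕ) : n1 (k + 1) (rad S 𝕜 k) = 1 := by
  unfold n1 rad
  have h1 : ∀ w : V S.N (k + 1), ‖((sg w / card S.N (k + 1) : ℝ) : 𝕜)‖ = 1 / card S.N (k + 1) := by
    intro w
    have h2 : |sg w| = 1 := by
      unfold sg
      rw [abs_pow, abs_neg, abs_one, one_pow]
    rw [RCLike.norm_ofReal, abs_div, h2, Nat.abs_cast]
  rw [Finset.sum_congr rfl fun w _ => h1 w, Finset.sum_const, Finset.card_univ, card_V,
    nsmul_eq_mul]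
  have h3 : (card S.N (k + 1) : ℝ) ≠ 0 := by exact_mod_cast (card_pos S (k + 1)).ne'
  field_simp

lemma n1_le_Q2 (k : ℕ) (z : V S.N k → 𝕜) : n1 k z ^ 2 ≤ Q2 k z := by
  unfold n1 Q2
  have h := sq_sum_le_card_mul_sum_sq (s := (Finset.univ : Finset (V S.N k))) (f := fun v => ‖z v‖)
  rwa [Finset.card_univ, card_V] at h

lemma Q2_step (hev : ∀ k, Even (S.N k)) (k : ℕ) (z : V S.N k → 𝕜) (t : 𝕜) :
    Q2 (k + 1) (up k z + t • rad S 𝕜 k) = Q2 k z + ‖t‖ ^ 2 := by
  unfold Q2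
  rw [sum_succ]
  have hc0 : (0 : ℝ) < card S.N (k + 1) := by exact_mod_cast card_pos S (k + 1)
  have hc1 : (0 : ℝ) < card S.N k := by exact_mod_cast card_pos S k
  have hN0 : (0 : ℝ) < S.N k := by exact_mod_cast N_pos S k
  have hcc : (card S.N (k + 1) : ℝ) = card S.N k * S.N k := by rw [card_succ, Nat.cast_mul]
  have hck : S.c k = 1 / S.N k := by
    rw [eq_div_iff hN0.ne', mul_comm]; exact hB.bal k
  have h1 : ∀ v : V S.N k, ∑ i : Fin (S.N k),
      ‖(up k z + t • rad S 𝕜 k) (show V S.N k × Fin (S.N k) from (v, i))‖ ^ 2 =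
      S.N k * (S.c k ^ 2 * ‖z v‖ ^ 2 + ‖t‖ ^ 2 / card S.N (k + 1) ^ 2) := by
    intro v
    set A : 𝕜 := (S.c k : 𝕜) * z v with hA
    set B : 𝕜 := t * ((1 / card S.N (k + 1) : ℝ) : 𝕜) with hBd
    have hAn : ‖A‖ ^ 2 = S.c k ^ 2 * ‖z v‖ ^ 2 := by
      rw [hA, norm_mul, RCLike.norm_ofReal, abs_of_pos (S.hc k), mul_pow]
    have hBn : ‖B‖ ^ 2 = ‖t‖ ^ 2 / card S.N (k + 1) ^ 2 := by
      rw [hBd, norm_mul, RCLike.norm_ofReal, abs_of_pos (by positivity), mul_pow, div_pow, one_pow]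
      ring
    have h2 : ∀ i : Fin (S.N k),
        ‖(up k z + t • rad S 𝕜 k) (show V S.N k × Fin (S.N k) from (v, i))‖ ^ 2 =
        (‖A‖ ^ 2 + ‖B‖ ^ 2) + 2 * RCLike.re (inner 𝕜 A B) * (-1) ^ (i : ℕ) := by
      intro i
      have h3 : (up k z + t • rad S 𝕜 k) (show V S.N k × Fin (S.N k) from (v, i)) =
          A + (((-1) ^ (i : ℕ) : ℝ) : 𝕜) • B := by
        show (S.c k : 𝕜) * z v + t * (((-1) ^ (i : ℕ) / card S.N (k + 1) : ℝ) : 𝕜) = _
        rw [hA, hBd, smul_eq_mul]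
        push_cast
        ring
      rw [h3, @norm_add_sq 𝕜, inner_smul_right, RCLike.re_ofReal_mul, norm_smul,
        RCLike.norm_ofReal, abs_pow, abs_neg, abs_one, one_pow, one_mul]
      ring
    rw [Finset.sum_congr rfl fun i _ => h2 i, Finset.sum_add_distrib, Finset.sum_const,
      Finset.card_univ, Fintype.card_fin, nsmul_eq_mul, ← Finset.mul_sum, hAn, hBn]
    have h4 : ∑ i : Fin (S.N k), (-1 : ℝ) ^ (i : ℕ) = 0 := by
      rw [Fin.sum_univ_eq_sum_range (fun i => (-1 : ℝ) ^ i), neg_one_geom_sum, if_pos (hev k)]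
    rw [h4, mul_zero, add_zero]
  rw [Finset.sum_congr rfl fun v _ => h1 v, ← Finset.mul_sum, Finset.sum_add_distrib,
    ← Finset.mul_sum, Finset.sum_const, Finset.card_univ, card_V, nsmul_eq_mul, hcc, hck]
  field_simp

/-- a combination of Rademacher functions -/
noncomputable def comb (t : ℕ → 𝕜) (K : ℕ) : Pre S 𝕜 :=
  ∑ k ∈ Finset.range K, t k • at' (k + 1) (rad S 𝕜 k)

lemma comb_spec (hev : ∀ k, Even (S.N k)) (t : ℕ → 𝕜) (K : ℕ) :
    (∀ q : Node S, K < q.1 → co (comb (S := S) t K) q = 0) ∧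
      Q2 K (PP (co (comb (S := S) t K)) K) = ∑ k ∈ Finset.range K, ‖t k‖ ^ 2 := by
  induction K with
  | zero =>
    unfold comb
    rw [Finset.range_zero, Finset.sum_empty, co_zero, Finset.sum_empty, PP_zero]
    refine ⟨fun q _ => rfl, ?_⟩
    unfold Q2
    rw [Finset.sum_eq_zero, mul_zero]
    intro v _
    rw [Pi.zero_apply, norm_zero]
    norm_num
  | succ K ih =>
    have h1 : comb (S := S) t (K + 1) = comb t K + t K • at' (K + 1) (rad S 𝕜 K) :=
      Finset.sum_range_succ _ _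
    refine ⟨fun q hq => ?_, ?_⟩
    · rw [h1, co_add, Pi.add_apply, ih.1 q (by omega), co_smul, Pi.smul_apply,
        co_at_ne _ _ q (by omega), smul_zero, add_zero]
    · rw [h1, co_add, PP_add, co_smul, PP_smul, PP_at, PP_succ_of_bound _ _ ih.1, Q2_step hev, ih.2,
        Finset.sum_range_succ]

/-- the weakly null sequence -/
noncomputable def rr (S : Par p) [Bal S] (𝕜 : Type) [RCLike 𝕜] (k : ℕ) : Env S 𝕜 :=
  emk (at' (k + 1) (rad S 𝕜 k))

lemma norm_rr (k : ℕ) : ‖rr S 𝕜 k‖ = 1 := by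
  unfold rr
  rw [norm_emk, L1_eq hB.bal _ (k + 1) (fun q hq => co_at_ne _ _ q (ne_of_gt hq)), PP_at, n1_rad]

lemma norm_comb_le (hev : ∀ k, Even (S.N k)) (t : ℕ → 𝕜) (K : ℕ) :
    ‖∑ k ∈ Finset.range K, t k • rr S 𝕜 k‖ ^ 2 ≤ ∑ k ∈ Finset.range K, ‖t k‖ ^ 2 := by
  have h1 : ∑ k ∈ Finset.range K, t k • rr S 𝕜 k = emk (comb t K) := by
    have h2 : emk (comb (S := S) t K) = emkL S 𝕜 (∑ k ∈ Finset.range K, t k • at' (k + 1) (rad S 𝕜 k)) :=
      rfl
    rw [h2, map_sum]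
    refine Finset.sum_congr rfl fun k _ => ?_
    rw [map_smul]
    rfl
  obtain ⟨h3, h4⟩ := comb_spec hev t K
  rw [h1, norm_emk, L1_eq hB.bal _ K h3, ← h4]
  exact n1_le_Q2 _ _

theorem weakly_null (hev : ∀ k, Even (S.N k)) (φ : Env S 𝕜 →L[𝕜] 𝕜) :
    Tendsto (fun k => φ (rr S 𝕜 k)) atTop (𝓝 0) := by
  have h1 : ∀ K, ∑ k ∈ Finset.range K, ‖φ (rr S 𝕜 k)‖ ^ 2 ≤ ‖φ‖ ^ 2 := by
    intro K
    set s := ∑ k ∈ Finset.range K, ‖φ (rr S 𝕜 k)‖ ^ 2 with hs
    have hs0 : 0 ≤ s := Finset.sum_nonneg fun _ _ => sq_nonneg _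
    have h2 : φ (∑ k ∈ Finset.range K, (starRingEnd 𝕜 (φ (rr S 𝕜 k))) • rr S 𝕜 k) = (s : 𝕜) := by
      rw [map_sum, hs]
      push_cast
      refine Finset.sum_congr rfl fun k _ => ?_
      rw [map_smul, smul_eq_mul, RCLike.conj_mul]
    have h3 := φ.le_opNorm (∑ k ∈ Finset.range K, (starRingEnd 𝕜 (φ (rr S 𝕜 k))) • rr S 𝕜 k)
    rw [h2, RCLike.norm_ofReal, abs_of_nonneg hs0] at h3
    have h4 := norm_comb_le hev (fun k => starRingEnd 𝕜 (φ (rr S 𝕜 k))) K
    have h5 : ∑ k ∈ Finset.range K, ‖starRingEnd 𝕜 (φ (rr S 𝕜 k))‖ ^ 2 = s := by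
      rw [hs]
      refine Finset.sum_congr rfl fun k _ => ?_
      rw [RCLike.norm_conj]
    rw [h5] at h4
    set x := ‖∑ k ∈ Finset.range K, (starRingEnd 𝕜 (φ (rr S 𝕜 k))) • rr S 𝕜 k‖ with hx
    have hx0 : 0 ≤ x := norm_nonneg _
    have hφ0 : 0 ≤ ‖φ‖ := norm_nonneg _
    rcases hs0.eq_or_lt with h6 | h6
    · rw [← h6]; positivity
    · have h7 : s ^ 2 ≤ (‖φ‖ * x) ^ 2 := pow_le_pow_left₀ hs0 h3 2
      have h8 : (‖φ‖ * x) ^ 2 ≤ ‖φ‖ ^ 2 * s := by
        rw [mul_pow]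
        exact mul_le_mul_of_nonneg_left h4 (sq_nonneg _)
      have h9 : s * s ≤ ‖φ‖ ^ 2 * s := by
        rw [← sq]; exact h7.trans h8
      exact le_of_mul_le_mul_right h9 h6
  have h2 : Summable (fun k => ‖φ (rr S 𝕜 k)‖ ^ 2) :=
    summable_of_sum_range_le (fun _ => sq_nonneg _) h1
  have h3 := h2.tendsto_atTop_zero
  have h4 := h3.sqrt
  rw [Real.sqrt_zero] at h4
  rw [tendsto_zero_iff_norm_tendsto_zero]
  refine h4.congr fun k => ?_
  rw [Real.sqrt_sq (norm_nonneg _)]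

end

end Pool.Agent.V11101.Tree
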