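import Pool.Agent.V11101.Tree

/-!
# The Schur p-property of the tree space
-/

set_option linter.unusedSectionVars false

open Set Filter Topology

namespace Pool.Agent.V11101.Tree

section

variable {p : ℝ} {S : Par p} {𝕜 : Type} [RCLike 𝕜]

instance : Countable (Node S) := by
  unfold Node
  infer_instance

/-- the class of a family of coefficients in the completed space -/
noncomputable def cmk (a : Pre S 𝕜) : XX S 𝕜 := ((mk a : QQ S 𝕜) : XX S 𝕜)

lemma cmk_add (a b : Pre S 𝕜) : cmk (a + b) = cmk a + cmk b := by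
  unfold cmk; rw [mk_add, UniformSpace.Completion.coe_add]
lemma cmk_sub (a b : Pre S 𝕜) : cmk (a - b) = cmk a - cmk b := by
  unfold cmk; rw [mk_sub, UniformSpace.Completion.coe_sub]
lemma cmk_smul (t : 𝕜) (a : Pre S 𝕜) : cmk (t • a) = t • cmk a := by
  unfold cmk; rw [mk_smul, UniformSpace.Completion.coe_smul]
lemma norm_cmk (a : Pre S 𝕜) : ‖cmk a‖ = ‖mk a‖ := UniformSpace.Completion.norm_coe _
lemma norm_cmk_le (a : Pre S 𝕜) : ‖cmk a‖ ≤ cost a := by rw [norm_cmk]; exact norm_mk_le a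

lemma exists_approx (x : XX S 𝕜) {ε : ℝ} (hε : 0 < ε) :
    ∃ a : Pre S 𝕜, ‖x - cmk a‖ < ε ∧ cost a < ‖x‖ + 2 * ε := by
  have hd : DenseRange (fun q : QQ S 𝕜 => (q : XX S 𝕜)) := UniformSpace.Completion.denseRange_coe
  obtain ⟨q, hq⟩ := Metric.denseRange_iff.1 hd x ε hε
  obtain ⟨a, rfl, ha⟩ := exists_rep q hε
  rw [dist_eq_norm] at hq
  refine ⟨a, hq, ?_⟩
  have h1 : ‖mk a‖ ≤ ‖x‖ + ε := by
    rw [← norm_cmk]
    have h2 : cmk a = x - (x - cmk a) := by abel
    rw [h2]
    exact (norm_sub_le _ _).trans (add_le_add le_rfl hq.le)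
  linarith

/-- nodes up to level `k` -/
noncomputable def upto (S : Par p) (k : ℕ) : Finset (Node S) :=
  (Finset.range (k + 1)).sigma fun _ => Finset.univ

lemma mem_upto (k : ℕ) (q : Node S) : q ∈ upto S k ↔ q.1 ≤ k := by
  unfold upto
  rw [Finset.mem_sigma, Finset.mem_range]
  constructor
  · intro h; omega
  · intro h; exact ⟨by omega, Finset.mem_univ _⟩

/-- truncation of a family of coefficients -/
noncomputable def trunc (k : ℕ) (a : Node S → 𝕜) : Pre S 𝕜 :=
  haveI : ∀ q : Node S, Decidable (q.1 ≤ k) := fun q => Classical.dec _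
  (Finsupp.onFinset (upto S k) (fun q => if q.1 ≤ k then a q else 0) (fun q hq => by
    rw [mem_upto]
    by_contra h
    exact hq (if_neg h)) : Node S →₀ 𝕜)

lemma co_trunc_pos (k : ℕ) (a : Node S → 𝕜) (q : Node S) (h : q.1 ≤ k) :
    co (trunc k a) q = a q := if_pos h

lemma co_trunc_neg (k : ℕ) (a : Node S → 𝕜) (q : Node S) (h : ¬ q.1 ≤ k) :
    co (trunc k a) q = 0 := if_neg h

lemma norm_co_le (a : Pre S 𝕜) (q : Node S) : ‖co a q‖ ^ p ≤ cost a := by
  by_cases h : co a q = 0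
  · rw [h, norm_zero, Real.zero_rpow S.hp.ne']
    exact cost_nonneg a
  · exact Finset.single_le_sum (f := fun q => ‖co a q‖ ^ p)
      (fun _ _ => Real.rpow_nonneg (norm_nonneg _) _) (Finsupp.mem_support_iff.2 h)

lemma sum_le_cost (a : Pre S 𝕜) (F : Finset (Node S)) : ∑ q ∈ F, ‖co a q‖ ^ p ≤ cost a := by
  classical
  rw [cost_eq_of_subset a (F ∪ (show Node S →₀ 𝕜 from a).support)
    (fun q hq => Finset.mem_union_right _ (Finsupp.mem_support_iff.2 hq))]
  exact Finset.sum_le_sum_of_subset_of_nonneg Finset.subset_union_left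
    (fun _ _ _ => Real.rpow_nonneg (norm_nonneg _) _)

/-- extraction of a pointwise limit -/
theorem extract (a : ℕ → Pre S 𝕜) (C : ℝ) (hC : ∀ n, cost (a n) ≤ C) :
    ∃ (φ : ℕ → ℕ) (b : Node S → 𝕜), StrictMono φ ∧
      (∀ q, Tendsto (fun n => co (a (φ n)) q) atTop (𝓝 (b q))) ∧
      Summable (fun q => ‖b q‖ ^ p) := by
  have hC0 : 0 ≤ C := (cost_nonneg (a 0)).trans (hC 0)
  have h1 : ∀ n, co (a n) ∈ Set.pi univ (fun _ : Node S => Metric.closedBall (0 : 𝕜) (C ^ (1 / p))) := by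
    intro n q _
    rw [mem_closedBall_zero_iff]
    have h2 := (norm_co_le (a n) q).trans (hC n)
    have h3 : C = (C ^ (1 / p)) ^ p := by
      rw [← Real.rpow_mul hC0, one_div, inv_mul_cancel₀ S.hp.ne', Real.rpow_one]
    rw [h3] at h2
    exact (Real.rpow_le_rpow_iff (norm_nonneg _) (Real.rpow_nonneg hC0 _) S.hp).1 h2
  have hcpt : IsCompact (Set.pi univ (fun _ : Node S => Metric.closedBall (0 : 𝕜) (C ^ (1 / p)))) :=
    isCompact_univ_pi fun _ => isCompact_closedBall _ _
  obtain ⟨b, _, φ, hφ, hb⟩ := hcpt.tendsto_subseq h1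
  have hb' : ∀ q, Tendsto (fun n => co (a (φ n)) q) atTop (𝓝 (b q)) := fun q =>
    (tendsto_pi_nhds.1 hb) q
  refine ⟨φ, b, hφ, hb', ?_⟩
  refine summable_of_sum_le (c := C) (fun q => Real.rpow_nonneg (norm_nonneg _) _) fun F => ?_
  have h4 : Tendsto (fun n => ∑ q ∈ F, ‖co (a (φ n)) q‖ ^ p) atTop (𝓝 (∑ q ∈ F, ‖b q‖ ^ p)) := by
    refine tendsto_finsetSum _ fun q _ => ?_
    exact ((hb' q).norm).rpow_const (Or.inr S.hp.le)
  refine le_of_tendsto' h4 fun n => ?_
  exact (sum_le_cost _ F).trans (hC _)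

/-- The heart of the matter. -/
theorem exists_subseq (x : ℕ → XX S 𝕜) (C δ : ℝ) (hδ : 0 < δ) (hC : ∀ n, ‖x n‖ ≤ C)
    (hsep : ∀ n m, n ≠ m → δ ≤ ‖x n - x m‖) :
    ∃ (φ : ℕ → ℕ) (κ : ℝ), StrictMono φ ∧ 0 < κ ∧ ∀ (F : Finset ℕ) (t : ℕ → 𝕜),
      κ * ∑ j ∈ F, ‖t j‖ ^ p ≤ ‖∑ j ∈ F, t j • x (φ j)‖ := by
  classical
  have hC0 : 0 ≤ C := (norm_nonneg _).trans (hC 0)
  set ε : ℝ := δ / 48 with hε
  have hε0 : 0 < ε := by positivity
  -- approximations
  have h1 : ∀ n, ∃ a : Pre S 𝕜, ‖x n - cmk a‖ < ε ∧ cost a ≤ C + 2 * ε := by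
    intro n
    obtain ⟨a, ha, ha2⟩ := exists_approx (x n) hε0
    exact ⟨a, ha, by linarith [hC n]⟩
  choose a ha hac using h1
  set C' : ℝ := C + 2 * ε with hC'
  have hC'0 : 0 ≤ C' := by positivity
  obtain ⟨φ, b, hφ, hb, hbs⟩ := extract a C' hac
  -- the tail of the limit
  obtain ⟨F0, hF0⟩ := summable_iff_vanishing_norm.1 hbs ε hε0
  set c0 : ℝ := δ / 4 with hc0
  have hc00 : 0 < c0 := by positivity
  obtain ⟨k1, hk1⟩ := exists_nat_ge (2 + 4 * C' / c0)
  set k0 : ℕ := max (F0.sup fun q => q.1) k1 with hk0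
  have hk0' : 4 * C' ≤ ((k0 : ℝ) - 2) * c0 := by
    have h2 : (k1 : ℝ) ≤ k0 := by exact_mod_cast le_max_right _ _
    have h3 : 4 * C' / c0 ≤ (k0 : ℝ) - 2 := by linarith
    rwa [div_le_iff₀ hc00] at h3
  have htail : ∀ k, ∑ q ∈ (upto S k).filter (fun q => ¬ q.1 ≤ k0), ‖b q‖ ^ p ≤ ε := by
    intro k
    have h2 := hF0 ((upto S k).filter (fun q => ¬ q.1 ≤ k0)) (by
      rw [Finset.disjoint_left]
      intro q hq hq2
      rw [Finset.mem_filter] at hq
      refine hq.2 ((Finset.le_sup (f := fun q : Node S => q.1) hq2).trans (le_max_left _ _)))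
    rw [Real.norm_eq_abs, abs_of_nonneg
      (Finset.sum_nonneg fun _ _ => Real.rpow_nonneg (norm_nonneg _) _)] at h2
    exact h2.le
  set a' : Pre S 𝕜 := trunc k0 b with ha'
  -- decomposition
  have hdec : ∀ k, k0 ≤ k → ∀ᶠ n in atTop, ∃ u : Pre S 𝕜, (∀ q : Node S, q.1 ≤ k → co u q = 0) ∧
      cost u ≤ C' ∧ ‖x (φ n) - cmk a' - cmk u‖ ≤ 3 * ε := by
    intro k hk
    have h2 : Tendsto (fun n => ∑ q ∈ upto S k, ‖co (a (φ n)) q - b q‖ ^ p) atTop (𝓝 0) := by
      have h3 : Tendsto (fun n => ∑ q ∈ upto S k, ‖co (a (φ n)) q - b q‖ ^ p) atTop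
          (𝓝 (∑ q ∈ upto S k, ‖b q - b q‖ ^ p)) := by
        refine tendsto_finsetSum _ fun q _ => ?_
        exact (((hb q).sub tendsto_const_nhds).norm).rpow_const (Or.inr S.hp.le)
      have h4 : ∑ q ∈ upto S k, ‖b q - b q‖ ^ p = 0 := by
        refine Finset.sum_eq_zero fun q _ => ?_
        rw [sub_self, norm_zero, Real.zero_rpow S.hp.ne']
      rwa [h4] at h3
    filter_upwards [h2.eventually (gt_mem_nhds hε0)] with n hn
    set u : Pre S 𝕜 := cut (fun q : Node S => ¬ q.1 ≤ k) (a (φ n)) with hu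
    set v : Pre S 𝕜 := cut (fun q : Node S => q.1 ≤ k) (a (φ n)) with hv
    have huv : v + u = a (φ n) := cut_add_cut _ _
    have hcuv : cost v + cost u = cost (a (φ n)) := cost_cut_add _ _
    refine ⟨u, fun q hq => co_cut_neg _ _ _ (not_not.2 hq), ?_, ?_⟩
    · have := cost_nonneg v
      linarith [hac (φ n)]
    · have h3 : x (φ n) - cmk a' - cmk u = (x (φ n) - cmk (a (φ n))) + cmk (v - a') := by
        rw [cmk_sub, ← huv, cmk_add]; abel
      have h4 : cost (v - a') ≤ 2 * ε := by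
        rw [cost_eq_of_subset (v - a') (upto S k)]
        · have h5 : ∀ q ∈ upto S k, ‖co (v - a') q‖ ^ p ≤
              ‖co (a (φ n)) q - b q‖ ^ p + (if ¬ q.1 ≤ k0 then ‖b q‖ ^ p else 0) := by
            intro q hq
            rw [mem_upto] at hq
            rw [co_sub, Pi.sub_apply, hv, co_cut_pos (fun q : Node S => q.1 ≤ k) _ _ hq]
            by_cases h6 : q.1 ≤ k0
            · rw [ha', co_trunc_pos _ _ _ h6, if_neg (not_not.2 h6), add_zero]
            · rw [ha', co_trunc_neg _ _ _ h6, if_pos h6, sub_zero]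
              have h7 := pow_add_le S (co (a (φ n)) q - b q) (b q)
              rwa [sub_add_cancel] at h7
          refine (Finset.sum_le_sum h5).trans ?_
          rw [Finset.sum_add_distrib, ← Finset.sum_filter]
          linarith [htail k]
        · intro q hq
          rw [mem_upto]
          by_contra h6
          refine hq ?_
          rw [co_sub, Pi.sub_apply, hv, co_cut_neg (fun q : Node S => q.1 ≤ k) _ _ h6, ha',
            co_trunc_neg _ _ _ (fun h => h6 (h.trans hk)), sub_zero]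
      rw [h3]
      refine (norm_add_le _ _).trans ?_
      have h5 := norm_cmk_le (v - a')
      have h6 := ha (φ n)
      linarith
  -- choice
  have hch : ∀ s : ℕ × ℕ, ∃ (n : ℕ) (u : Pre S 𝕜) (K : ℕ), s.2 < n ∧ max k0 s.1 ≤ K ∧
      (∀ q : Node S, q.1 ≤ max k0 s.1 → co u q = 0) ∧ (∀ q : Node S, K < q.1 → co u q = 0) ∧
      cost u ≤ C' ∧ ‖x (φ n) - cmk a' - cmk u‖ ≤ 3 * ε ∧ c0 ≤ ‖mk u‖ := by
    rintro ⟨k, n0⟩
    obtain ⟨m, hm⟩ := eventually_atTop.1 (hdec (max k0 k) (le_max_left _ _))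
    set m' := max m (n0 + 1) with hm'
    obtain ⟨u1, hu1, hcu1, hxu1⟩ := hm m' (le_max_left _ _)
    obtain ⟨u2, hu2, hcu2, hxu2⟩ := hm (m' + 1) ((le_max_left _ _).trans (Nat.le_succ _))
    have h2 : δ ≤ ‖x (φ m') - x (φ (m' + 1))‖ := hsep _ _ (hφ.injective.ne (by omega))
    have h3 : ‖x (φ m') - x (φ (m' + 1))‖ ≤ 3 * ε + 3 * ε + (‖mk u1‖ + ‖mk u2‖) := by
      have h4 : x (φ m') - x (φ (m' + 1)) = (x (φ m') - cmk a' - cmk u1) -
          (x (φ (m' + 1)) - cmk a' - cmk u2) + (cmk u1 - cmk u2) := by abel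
      rw [h4]
      refine (norm_add_le _ _).trans (add_le_add ((norm_sub_le _ _).trans
        (add_le_add hxu1 hxu2)) ?_)
      rw [← norm_cmk u1, ← norm_cmk u2]
      exact norm_sub_le _ _
    have hlt : n0 < m' := lt_of_lt_of_le (Nat.lt_succ_self n0) (le_max_right _ _)
    rcases le_or_gt c0 ‖mk u1‖ with h4 | h4
    · obtain ⟨K, hK⟩ := exists_bound u1
      exact ⟨m', u1, max K (max k0 k), hlt, le_max_right _ _, hu1,
        fun q hq => hK q ((le_max_left _ _).trans hq.le), hcu1, hxu1, h4⟩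
    · obtain ⟨K, hK⟩ := exists_bound u2
      refine ⟨m' + 1, u2, max K (max k0 k), hlt.trans (Nat.lt_succ_self _), le_max_right _ _, hu2,
        fun q hq => hK q ((le_max_left _ _).trans hq.le), hcu2, hxu2, ?_⟩
      rw [hc0] at h4 ⊢
      rw [hε] at h3
      linarith
  choose nx ux Kx hnx hKx hux hux2 hcux hxux hcx using hch
  -- the states
  let st : ℕ → ℕ × ℕ := fun j => Nat.rec (0, 0) (fun _ s => (Kx s, nx s)) j
  have hst : ∀ j, st (j + 1) = (Kx (st j), nx (st j)) := fun j => rfl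
  have hψ : StrictMono fun j => nx (st j) := by
    refine strictMono_nat_of_lt_succ fun j => ?_
    have := hnx (st (j + 1))
    rw [hst] at this ⊢
    exact this
  have hmono : ∀ j, max k0 (st j).1 ≤ (st (j + 1)).1 := fun j => by
    rw [hst]; exact hKx (st j)
  -- the lower estimate for the approximations
  have hlow : ∀ (σ : 𝕜) (t : ℕ → 𝕜) (m : ℕ),
      c0 / 2 * ∑ j ∈ Finset.range m, ‖t j‖ ^ p ≤
        ‖mk (σ • a' + ∑ j ∈ Finset.range m, t j • ux (st j))‖ := by
    intro σ t m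
    have hsupp : ∀ m (q : Node S), max k0 (st m).1 < q.1 →
        co (σ • a' + ∑ j ∈ Finset.range m, t j • ux (st j)) q = 0 := by
      intro m
      induction m with
      | zero =>
        intro q hq
        rw [Finset.range_zero, Finset.sum_empty, add_zero, co_smul, Pi.smul_apply, ha',
          co_trunc_neg, smul_zero]
        exact not_le.2 (lt_of_le_of_lt (le_max_left _ _) hq)
      | succ m ih =>
        intro q hq
        have h3 : max k0 (st m).1 < q.1 := lt_of_le_of_lt (hmono m)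
          (lt_of_le_of_lt (le_max_right _ _) hq)
        rw [Finset.sum_range_succ, ← add_assoc, co_add, Pi.add_apply, ih q h3, zero_add, co_smul,
          Pi.smul_apply, hux2 (st m) q, smul_zero]
        have h4 := lt_of_le_of_lt (le_max_right k0 (st (m + 1)).1) hq
        rw [hst] at h4
        exact h4
    induction m with
    | zero =>
      rw [Finset.range_zero, Finset.sum_empty, mul_zero]
      exact norm_nonneg _
    | succ m ih =>
      have h3 := main_ineq (max k0 (st m).1) (σ • a' + ∑ j ∈ Finset.range m, t j • ux (st j))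
        (t m • ux (st m)) (hsupp m) (fun q hq => by
          rw [co_smul, Pi.smul_apply, hux (st m) q hq, smul_zero]) (by
          rw [cost_smul, mk_smul, norm_QQ_smul]
          have h5 : 0 ≤ ‖t m‖ ^ p := Real.rpow_nonneg (norm_nonneg _) _
          have h6 : 3 * ‖mk (ux (st m))‖ + 4 * cost (ux (st m)) ≤
              (((max k0 (st m).1 : ℕ) : ℝ) + 1) * ‖mk (ux (st m))‖ := by
            have h7 : (k0 : ℝ) ≤ ((max k0 (st m).1 : ℕ) : ℝ) := by
              exact_mod_cast le_max_left _ _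
            have h8 := hcx (st m)
            have h9 := hcux (st m)
            have h10 : ((k0 : ℝ) - 2) * c0 ≤ (((max k0 (st m).1 : ℕ) : ℝ) - 2) * ‖mk (ux (st m))‖ := by
              have h11 : 0 ≤ ((k0 : ℝ) - 2) := by
                by_contra hneg
                push Not at hneg
                nlinarith
              exact mul_le_mul (by linarith) h8 hc00.le (by linarith)
            nlinarith
          have := mul_le_mul_of_nonneg_left h6 h5
          nlinarith)
      rw [Finset.sum_range_succ, Finset.sum_range_succ, ← add_assoc]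
      refine le_trans ?_ h3
      rw [mk_smul, norm_QQ_smul, mul_add]
      have h5 : 0 ≤ ‖t m‖ ^ p := Real.rpow_nonneg (norm_nonneg _) _
      have h6 := hcx (st m)
      have h7 : c0 / 2 * ‖t m‖ ^ p ≤ ‖t m‖ ^ p * ‖mk (ux (st m))‖ / 2 := by nlinarith
      exact add_le_add ih h7
  -- conclusion
  refine ⟨fun j => φ (nx (st j)), c0 / 2 - 3 * ε, hφ.comp hψ, by
    rw [hc0, hε]; linarith, ?_⟩
  have hfull : ∀ (t : ℕ → 𝕜) (m : ℕ), (c0 / 2 - 3 * ε) * ∑ j ∈ Finset.range m, ‖t j‖ ^ p ≤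
      ‖∑ j ∈ Finset.range m, t j • x (φ (nx (st j)))‖ := by
    intro t m
    have h3 := hlow (∑ j ∈ Finset.range m, t j) t m
    have h4 : cmk ((∑ j ∈ Finset.range m, t j) • a' + ∑ j ∈ Finset.range m, t j • ux (st j)) =
        ∑ j ∈ Finset.range m, t j • x (φ (nx (st j))) -
          ∑ j ∈ Finset.range m, t j • (x (φ (nx (st j))) - cmk a' - cmk (ux (st j))) := by
      have h5 : cmk (∑ j ∈ Finset.range m, t j • ux (st j)) =
          ∑ j ∈ Finset.range m, t j • cmk (ux (st j)) := by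
        clear h3
        induction m with
        | zero =>
          rw [Finset.range_zero, Finset.sum_empty, Finset.sum_empty]
          have := cmk_smul (0 : 𝕜) (0 : Pre S 𝕜)
          rwa [zero_smul, zero_smul] at this
        | succ m ih =>
          rw [Finset.sum_range_succ, Finset.sum_range_succ, cmk_add, ih, cmk_smul]
      rw [cmk_add, cmk_smul, h5, Finset.sum_smul, ← Finset.sum_add_distrib,
        ← Finset.sum_sub_distrib]
      refine Finset.sum_congr rfl fun j _ => ?_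
      rw [smul_sub, smul_sub]
      abel
    have h6 : ‖∑ j ∈ Finset.range m, t j • (x (φ (nx (st j))) - cmk a' - cmk (ux (st j)))‖ ≤
        3 * ε * ∑ j ∈ Finset.range m, ‖t j‖ ^ p := by
      rw [Finset.mul_sum]
      refine norm_sum_le_of_le _ fun j _ => ?_
      rw [norm_XX_smul, mul_comm]
      exact mul_le_mul_of_nonneg_right (hxux (st j)) (Real.rpow_nonneg (norm_nonneg _) _)
    rw [← norm_cmk, h4] at h3
    have h7 := norm_sub_le (∑ j ∈ Finset.range m, t j • x (φ (nx (st j))))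
      (∑ j ∈ Finset.range m, t j • (x (φ (nx (st j))) - cmk a' - cmk (ux (st j))))
    linarith
  intro F t
  obtain ⟨m, hm⟩ : ∃ m, F ⊆ Finset.range m := ⟨F.sup id + 1, fun j hj => by
    rw [Finset.mem_range]
    exact Nat.lt_succ_of_le (Finset.le_sup (f := id) hj)⟩
  have h3 := hfull (fun j => if j ∈ F then t j else 0) m
  have h4 : ∑ j ∈ Finset.range m, ‖(if j ∈ F then t j else 0 : 𝕜)‖ ^ p = ∑ j ∈ F, ‖t j‖ ^ p := by
    rw [← Finset.sum_subset hm]
    · refine Finset.sum_congr rfl fun j hj => ?_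
      rw [if_pos hj]
    · intro j _ hj
      rw [if_neg hj, norm_zero, Real.zero_rpow S.hp.ne']
  have h5 : ∑ j ∈ Finset.range m, (if j ∈ F then t j else 0 : 𝕜) • x (φ (nx (st j))) =
      ∑ j ∈ F, t j • x (φ (nx (st j))) := by
    rw [← Finset.sum_subset hm]
    · refine Finset.sum_congr rfl fun j hj => ?_
      rw [if_pos hj]
    · intro j _ hj
      rw [if_neg hj, zero_smul]
  rw [h4, h5] at h3
  exact h3

end

end Pool.Agent.V11101.Tree
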