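import Mathlib

/-!
# Points of increase of Weierstrass-type functions
-/

open Set Filter Topology

namespace Pool.Agent.V11101.WS

/-! ### The trapezoidal wave -/

/-- the triangle wave -/
noncomputable def phi (x : UnitAddCircle) : ℝ := ‖x + ((1 / 4 : ℝ) : UnitAddCircle)‖ - 1 / 4

lemma phi_pos {y : ℝ} (h0 : 0 ≤ y) (h1 : y ≤ 1 / 2) : phi (y : UnitAddCircle) = min y (1 / 2 - y) := by
  unfold phi
  rw [← AddCircle.coe_add]
  rcases le_total y (1 / 4) with h | h
  · have h2 : ‖((y + 1 / 4 : ℝ) : UnitAddCircle)‖ = |y + 1 / 4| := by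
      rw [AddCircle.norm_coe_eq_abs_iff (1 : ℝ) one_ne_zero, abs_of_nonneg (by linarith), abs_one]
      linarith
    rw [h2, abs_of_nonneg (by linarith), min_eq_left (by linarith)]
    ring
  · have h3 : ((y + 1 / 4 : ℝ) : UnitAddCircle) = ((y + 1 / 4 - 1 : ℝ) : UnitAddCircle) := by
      rw [AddCircle.coe_sub, AddCircle.coe_period, sub_zero]
    have h2 : ‖((y + 1 / 4 - 1 : ℝ) : UnitAddCircle)‖ = |y + 1 / 4 - 1| := by
      rw [AddCircle.norm_coe_eq_abs_iff (1 : ℝ) one_ne_zero, abs_of_nonpos (by linarith), abs_one]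
      linarith
    rw [h3, h2, abs_of_nonpos (by linarith), min_eq_right (by linarith)]
    ring

lemma phi_neg {y : ℝ} (h0 : 0 ≤ y) (h1 : y ≤ 1 / 2) :
    phi ((-y : ℝ) : UnitAddCircle) = - min y (1 / 2 - y) := by
  unfold phi
  rw [← AddCircle.coe_add]
  have h2 : ‖((-y + 1 / 4 : ℝ) : UnitAddCircle)‖ = |-y + 1 / 4| := by
    rw [AddCircle.norm_coe_eq_abs_iff (1 : ℝ) one_ne_zero, abs_one, abs_le]
    constructor <;> linarith
  rw [h2]
  rcases le_total y (1 / 4) with h | h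
  · rw [abs_of_nonneg (by linarith), min_eq_left (by linarith)]
    ring
  · rw [abs_of_nonpos (by linarith), min_eq_right (by linarith)]
    ring

lemma phi_lip (x y : UnitAddCircle) : |phi x - phi y| ≤ dist x y := by
  unfold phi
  rw [sub_sub_sub_cancel_right]
  refine (abs_norm_sub_norm_le _ _).trans ?_
  rw [add_sub_add_right_eq_sub, dist_eq_norm]

/-- the trapezoidal wave -/
noncomputable def g0 (η : ℝ) (x : UnitAddCircle) : ℝ := max (-1) (min 1 (phi x / η))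

lemma abs_g0_le (η : ℝ) (x : UnitAddCircle) : |g0 η x| ≤ 1 := by
  unfold g0
  rw [abs_le]
  exact ⟨le_max_left _ _, max_le (by norm_num) (min_le_left _ _)⟩

lemma clamp_lip (s t : ℝ) : |max (-1) (min 1 s) - max (-1) (min 1 t)| ≤ |s - t| := by
  refine (abs_max_sub_max_le_max _ _ _ _).trans ?_
  rw [sub_self, abs_zero]
  refine max_le (abs_nonneg _) ?_
  refine (abs_min_sub_min_le_max _ _ _ _).trans ?_
  rw [sub_self, abs_zero]
  exact max_le (abs_nonneg _) le_rfl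

lemma g0_lip {η : ℝ} (hη : 0 < η) (x y : UnitAddCircle) : |g0 η x - g0 η y| ≤ 1 / η * dist x y := by
  unfold g0
  refine (clamp_lip _ _).trans ?_
  rw [← sub_div, abs_div, abs_of_pos hη, one_div, inv_mul_eq_div]
  exact div_le_div_of_nonneg_right (phi_lip x y) hη.le

lemma g0_zero {η : ℝ} : g0 η 0 = 0 := by
  have h := phi_pos (y := 0) le_rfl (by norm_num)
  rw [AddCircle.coe_zero] at h
  unfold g0
  rw [h]
  simp

lemma g0_sign {η : ℝ} (hη : 0 < η) {y : ℝ} (h0 : 0 ≤ y) (h1 : y ≤ 1 / 2) (s : ℝ)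
    (hs : s = 1 ∨ s = -1) : 0 ≤ s * g0 η ((s * y : ℝ) : UnitAddCircle) := by
  have h2 : 0 ≤ min y (1 / 2 - y) := le_min h0 (by linarith)
  have h3 : 0 ≤ min y (1 / 2 - y) / η := div_nonneg h2 hη.le
  rcases hs with rfl | rfl
  · rw [one_mul, one_mul]
    unfold g0
    rw [phi_pos h0 h1]
    exact le_max_of_le_right (le_min zero_le_one h3)
  · rw [neg_one_mul, neg_one_mul]
    unfold g0
    rw [phi_neg h0 h1, neg_div]
    have h4 : min (1 : ℝ) (-(min y (1 / 2 - y) / η)) ≤ 0 := min_le_of_right_le (by linarith)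
    have h5 : max (-1 : ℝ) (min 1 (-(min y (1 / 2 - y) / η))) ≤ 0 := max_le (by norm_num) h4
    linarith

lemma g0_one {η : ℝ} (hη : 0 < η) {y : ℝ} (h0 : η ≤ y) (h1 : y ≤ 1 / 2 - η) (s : ℝ)
    (hs : s = 1 ∨ s = -1) : s * g0 η ((s * y : ℝ) : UnitAddCircle) = 1 := by
  have h2 : η ≤ min y (1 / 2 - y) := le_min h0 (by linarith)
  have h3 : 1 ≤ min y (1 / 2 - y) / η := by rwa [le_div_iff₀ hη, one_mul]
  rcases hs with rfl | rfl
  · rw [one_mul, one_mul]
    unfold g0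
    rw [phi_pos (by linarith) (by linarith), min_eq_left h3]
    norm_num
  · rw [neg_one_mul, neg_one_mul]
    unfold g0
    rw [phi_neg (by linarith) (by linarith), neg_div]
    have h4 : min (1 : ℝ) (-(min y (1 / 2 - y) / η)) = -(min y (1 / 2 - y) / η) :=
      min_eq_right (by linarith)
    rw [h4, max_eq_left (by linarith)]
    norm_num

/-! ### Series estimates -/

lemma seqA {β : ℝ} (h0 : 0 < β) (h1 : β < 1) (n J : ℕ) (hJ : J ≤ n) (hJ1 : 1 ≤ J) (a : ℕ → ℝ)
    (ha : ∀ k, |a k| ≤ 2) {c : ℝ} (ha0 : -c ≤ a 0) (ha1 : ∀ k, 1 ≤ k → k ≤ n → 0 ≤ a k)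
    (ha2 : ∀ k, n - J < k → k < n → a k = 1) (ha3 : ∀ k, n < k → -1 ≤ a k) :
    -c + (J - 1) * β ^ n - β ^ (n + 1) / (1 - β) ≤ ∑' k, β ^ k * a k := by
  have hsum : Summable fun k => β ^ k * a k := by
    refine Summable.of_norm_bounded (g := fun k => 2 * β ^ k)
      ((summable_geometric_of_lt_one h0.le h1).mul_left 2) fun k => ?_
    rw [Real.norm_eq_abs, abs_mul, abs_of_nonneg (pow_nonneg h0.le k), mul_comm]
    exact mul_le_mul_of_nonneg_right (ha k) (pow_nonneg h0.le k)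
  rw [← hsum.sum_add_tsum_nat_add (n + 1)]
  have htail : - (β ^ (n + 1) / (1 - β)) ≤ ∑' k, β ^ (k + (n + 1)) * a (k + (n + 1)) := by
    have hg := (hasSum_geometric_of_lt_one h0.le h1).mul_left (-(β ^ (n + 1)))
    have h2 : -(β ^ (n + 1)) * (1 - β)⁻¹ = -(β ^ (n + 1) / (1 - β)) := by
      rw [div_eq_mul_inv]; ring
    rw [h2] at hg
    refine hasSum_le (fun k => ?_) hg ((summable_nat_add_iff (n + 1)).2 hsum).hasSum
    have h3 := ha3 (k + (n + 1)) (by omega)
    have h4 : 0 ≤ β ^ (k + (n + 1)) := pow_nonneg h0.le _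
    have h5 : -(β ^ (n + 1)) * β ^ k = β ^ (k + (n + 1)) * (-1) := by rw [pow_add]; ring
    rw [h5]
    exact mul_le_mul_of_nonneg_left h3 h4
  have hfin : -c + (J - 1) * β ^ n ≤ ∑ k ∈ Finset.range (n + 1), β ^ k * a k := by
    rw [Finset.sum_range_succ']
    have h2 : (((J : ℝ) - 1)) * β ^ n ≤ ∑ k ∈ Finset.range n, β ^ (k + 1) * a (k + 1) := by
      have h3 : ∑ k ∈ Finset.Ico (n - J) (n - 1), β ^ (k + 1) * a (k + 1) ≤
          ∑ k ∈ Finset.range n, β ^ (k + 1) * a (k + 1) := by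
        refine Finset.sum_le_sum_of_subset_of_nonneg (fun k hk => ?_) (fun k hk _ => ?_)
        · rw [Finset.mem_Ico] at hk
          rw [Finset.mem_range]
          omega
        · rw [Finset.mem_range] at hk
          exact mul_nonneg (pow_nonneg h0.le _) (ha1 _ (by omega) (by omega))
      refine le_trans ?_ h3
      have h4 : ∑ _k ∈ Finset.Ico (n - J) (n - 1), β ^ n ≤
          ∑ k ∈ Finset.Ico (n - J) (n - 1), β ^ (k + 1) * a (k + 1) := by
        refine Finset.sum_le_sum fun k hk => ?_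
        rw [Finset.mem_Ico] at hk
        rw [ha2 (k + 1) (by omega) (by omega), mul_one]
        exact pow_le_pow_of_le_one h0.le h1.le (by omega)
      refine le_trans (le_of_eq ?_) h4
      rw [Finset.sum_const, Nat.card_Ico, nsmul_eq_mul]
      have h5 : n - 1 - (n - J) = J - 1 := by omega
      rw [h5, Nat.cast_sub hJ1, Nat.cast_one]
    have h6 : β ^ 0 * a 0 = a 0 := by rw [pow_zero, one_mul]
    rw [h6]
    linarith
  linarith

lemma seqB {β B ε y : ℝ} (h0 : 0 < β) (h1 : β < 1) (hB : 0 < B) (hγ : 1 < B * β) (hε : 0 ≤ ε)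
    (n : ℕ) (hy0 : 0 ≤ y) (hy : B ^ n * y ≤ 1 / 2) (a : ℕ → ℝ)
    (ha1 : ∀ k, |a k| ≤ 2 * ε) (ha2 : ∀ k, |a k| ≤ ε * (B ^ k * y)) :
    |∑' k, β ^ k * a k| ≤ ε * (B * β / (B * β - 1) + 2 / (1 - β)) * β ^ n := by
  have hsum : Summable fun k => |β ^ k * a k| := by
    refine Summable.of_nonneg_of_le (fun _ => abs_nonneg _) (fun k => ?_)
      ((summable_geometric_of_lt_one h0.le h1).mul_left (2 * ε))
    rw [abs_mul, abs_of_nonneg (pow_nonneg h0.le k), mul_comm]
    exact mul_le_mul_of_nonneg_right (ha1 k) (pow_nonneg h0.le k)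
  have h2 : |∑' k, β ^ k * a k| ≤ ∑' k, |β ^ k * a k| := by
    have := norm_tsum_le_tsum_norm (f := fun k => β ^ k * a k) (by simpa using hsum)
    simpa using this
  refine h2.trans ?_
  rw [← hsum.sum_add_tsum_nat_add (n + 1)]
  have htail : ∑' k, |β ^ (k + (n + 1)) * a (k + (n + 1))| ≤ ε * (2 / (1 - β)) * β ^ n := by
    have hg := (hasSum_geometric_of_lt_one h0.le h1).mul_left (2 * ε * β ^ (n + 1))
    have h3 : ∑' k, |β ^ (k + (n + 1)) * a (k + (n + 1))| ≤ 2 * ε * β ^ (n + 1) * (1 - β)⁻¹ := by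
      refine hasSum_le (fun k => ?_) ((summable_nat_add_iff (f := fun k => |β ^ k * a k|)
        (n + 1)).2 hsum).hasSum hg
      rw [abs_mul, abs_of_nonneg (pow_nonneg h0.le _)]
      have h4 := ha1 (k + (n + 1))
      have h5 : 0 ≤ β ^ (k + (n + 1)) := pow_nonneg h0.le _
      calc β ^ (k + (n + 1)) * |a (k + (n + 1))| ≤ β ^ (k + (n + 1)) * (2 * ε) :=
            mul_le_mul_of_nonneg_left h4 h5
        _ = 2 * ε * β ^ (n + 1) * β ^ k := by rw [pow_add]; ring
    refine h3.trans ?_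
    have h6 : β ^ (n + 1) ≤ β ^ n := pow_le_pow_of_le_one h0.le h1.le (Nat.le_succ n)
    have h7 : 0 < (1 - β)⁻¹ := inv_pos.2 (by linarith)
    calc 2 * ε * β ^ (n + 1) * (1 - β)⁻¹ ≤ 2 * ε * β ^ n * (1 - β)⁻¹ := by
          refine mul_le_mul_of_nonneg_right ?_ h7.le
          exact mul_le_mul_of_nonneg_left h6 (by positivity)
      _ = ε * (2 / (1 - β)) * β ^ n := by rw [div_eq_mul_inv]; ring
  have hfin : ∑ k ∈ Finset.range (n + 1), |β ^ k * a k| ≤ ε * (B * β / (B * β - 1)) * β ^ n := by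
    have h3 : ∑ k ∈ Finset.range (n + 1), |β ^ k * a k| ≤
        ∑ k ∈ Finset.range (n + 1), ε * y * (B * β) ^ k := by
      refine Finset.sum_le_sum fun k _ => ?_
      rw [abs_mul, abs_of_nonneg (pow_nonneg h0.le _)]
      calc β ^ k * |a k| ≤ β ^ k * (ε * (B ^ k * y)) :=
            mul_le_mul_of_nonneg_left (ha2 k) (pow_nonneg h0.le _)
        _ = ε * y * (B * β) ^ k := by rw [mul_pow]; ring
    refine h3.trans ?_
    rw [← Finset.mul_sum, geom_sum_eq hγ.ne']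
    have h4 : 0 < B * β - 1 := by linarith
    have h5 : (B * β) ^ (n + 1) - 1 ≤ (B * β) ^ (n + 1) := by linarith
    calc ε * y * (((B * β) ^ (n + 1) - 1) / (B * β - 1))
        ≤ ε * y * ((B * β) ^ (n + 1) / (B * β - 1)) := by
          refine mul_le_mul_of_nonneg_left ?_ (by positivity)
          exact div_le_div_of_nonneg_right h5 h4.le
      _ = ε * (B ^ n * y) * (B * β / (B * β - 1)) * β ^ n := by
          rw [pow_succ, mul_pow]; ring
      _ ≤ ε * 1 * (B * β / (B * β - 1)) * β ^ n := by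
          have h6 : 0 ≤ B * β / (B * β - 1) := by positivity
          refine mul_le_mul_of_nonneg_right ?_ (pow_nonneg h0.le n)
          refine mul_le_mul_of_nonneg_right ?_ h6
          exact mul_le_mul_of_nonneg_left (by linarith) hε
      _ = ε * (B * β / (B * β - 1)) * β ^ n := by ring
  have h8 : ε * (B * β / (B * β - 1) + 2 / (1 - β)) * β ^ n =
      ε * (B * β / (B * β - 1)) * β ^ n + ε * (2 / (1 - β)) * β ^ n := by ring
  rw [h8]
  exact add_le_add hfin htail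

/-- The Weierstrass-type function -/
noncomputable def Wb (b : ℕ) (β : ℝ) (g : UnitAddCircle → ℝ) (x : ℝ) : ℝ :=
  ∑' k : ℕ, β ^ k * g (((b : ℝ) ^ k * x : ℝ) : UnitAddCircle)

lemma summable_Wb {β : ℝ} (h0 : 0 < β) (h1 : β < 1) (b : ℕ) (g : UnitAddCircle → ℝ) {M : ℝ}
    (hM : ∀ x, |g x| ≤ M) (x : ℝ) :
    Summable fun k : ℕ => β ^ k * g (((b : ℝ) ^ k * x : ℝ) : UnitAddCircle) := by
  refine Summable.of_norm_bounded (g := fun k => M * β ^ k)
    ((summable_geometric_of_lt_one h0.le h1).mul_left M) fun k => ?_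
  rw [Real.norm_eq_abs, abs_mul, abs_of_nonneg (pow_nonneg h0.le k), mul_comm]
  exact mul_le_mul_of_nonneg_right (hM _) (pow_nonneg h0.le k)

lemma abs_Wb_le {β : ℝ} (h0 : 0 < β) (h1 : β < 1) (b : ℕ) (g : UnitAddCircle → ℝ) {M : ℝ}
    (hM : ∀ x, |g x| ≤ M) (x : ℝ) : |Wb b β g x| ≤ M / (1 - β) := by
  have h2 := (hasSum_geometric_of_lt_one h0.le h1).mul_left M
  rw [← div_eq_mul_inv] at h2
  have h3 : Summable fun k : ℕ => |β ^ k * g (((b : ℝ) ^ k * x : ℝ) : UnitAddCircle)| :=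
    (summable_Wb h0 h1 b g hM x).abs
  have h4 : |Wb b β g x| ≤ ∑' k : ℕ, |β ^ k * g (((b : ℝ) ^ k * x : ℝ) : UnitAddCircle)| := by
    have := norm_tsum_le_tsum_norm
      (f := fun k : ℕ => β ^ k * g (((b : ℝ) ^ k * x : ℝ) : UnitAddCircle)) (by simpa using h3)
    simpa [Wb] using this
  refine h4.trans (hasSum_le (fun k => ?_) h3.hasSum h2)
  rw [abs_mul, abs_of_nonneg (pow_nonneg h0.le k), mul_comm]
  exact mul_le_mul_of_nonneg_right (hM _) (pow_nonneg h0.le k)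

lemma coe_pow_mul_inv (b : ℕ) (hb : 2 ≤ b) (k : ℕ) (hk : 1 ≤ k) (t : ℝ) :
    (((b : ℝ) ^ k * (1 / b + t) : ℝ) : UnitAddCircle) = (((b : ℝ) ^ k * t : ℝ) : UnitAddCircle) := by
  have hb0 : (b : ℝ) ≠ 0 := by
    have : b ≠ 0 := by omega
    exact_mod_cast this
  obtain ⟨j, rfl⟩ : ∃ j, k = j + 1 := ⟨k - 1, by omega⟩
  have h1 : (b : ℝ) ^ (j + 1) * (1 / b + t) = ((b ^ j : ℕ) : ℝ) + (b : ℝ) ^ (j + 1) * t := by
    push_cast
    field_simp
    ring
  rw [h1, AddCircle.coe_add]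
  have h2 : (((b ^ j : ℕ) : ℝ) : UnitAddCircle) = 0 := by
    rw [AddCircle.coe_eq_zero_iff]
    exact ⟨((b ^ j : ℕ) : ℤ), by simp⟩
  rw [h2, zero_add]

/-- The local analysis at `1/b`, for a function close to the trapezoidal wave. -/
theorem local_increase (b : ℕ) (hb : 2 ≤ b) (β : ℝ) (h0 : 0 < β) (h1 : β < 1)
    (hγ : 1 < (b : ℝ) * β) :
    ∃ η ε δ : ℝ, 0 < η ∧ 0 < ε ∧ 0 < δ ∧ ∀ h : UnitAddCircle → ℝ, (∀ x, |h x| ≤ ε) →
      (∀ x y, |h x - h y| ≤ ε * dist x y) → ∀ (s : ℝ), (s = 1 ∨ s = -1) → ∀ y : ℝ, 0 < y → y < δ →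
        0 < s * (Wb b β (fun x => g0 η x + h x) (1 / b + s * y) -
          Wb b β (fun x => g0 η x + h x) (1 / b)) := by
  have hb0 : (0 : ℝ) < b := by
    have : 0 < b := by omega
    exact_mod_cast this
  have hb1 : (1 : ℝ) < b := by
    have : 1 < b := by omega
    exact_mod_cast this
  have hb2 : (2 : ℝ) ≤ b := by exact_mod_cast hb
  have h1β : 0 < 1 - β := by linarith
  -- the plateau
  obtain ⟨J, hJ⟩ := exists_nat_ge (2 + β / (1 - β))
  have hβ1 : 0 ≤ β / (1 - β) := by positivity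
  have hJ2 : (2 : ℝ) ≤ J := by linarith
  have hJ2' : 2 ≤ J := by exact_mod_cast hJ2
  set η : ℝ := 1 / (2 * (b : ℝ) ^ J) with hη
  have hη0 : 0 < η := by positivity
  have hη4 : η ≤ 1 / 4 := by
    rw [hη]
    have h2 : (2 : ℝ) ≤ (b : ℝ) ^ J := by
      calc (2 : ℝ) ≤ b := hb2
        _ = (b : ℝ) ^ 1 := (pow_one _).symm
        _ ≤ (b : ℝ) ^ J := pow_le_pow_right₀ hb1.le (by omega)
    rw [div_le_div_iff₀ (by positivity) (by norm_num)]
    linarith
  -- the size of the perturbation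
  set Cst : ℝ := (b : ℝ) * β / ((b : ℝ) * β - 1) + 2 / (1 - β) with hCst
  have hC0 : 0 < Cst := by
    have : 0 < (b : ℝ) * β - 1 := by linarith
    positivity
  set ε : ℝ := 1 / (4 * Cst) with hε
  have hε0 : 0 < ε := by positivity
  -- the size of the neighbourhood
  obtain ⟨n0, hn0⟩ := pow_unbounded_of_one_lt (4 / η) hγ
  set m0 := max n0 J with hm0
  set δ : ℝ := 1 / (2 * (b : ℝ) ^ m0) with hδ
  have hδ0 : 0 < δ := by positivity
  refine ⟨η, ε, δ, hη0, hε0, hδ0, ?_⟩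
  intro h hh1 hh2 s hs y hy0 hyδ
  have hs1 : |s| = 1 := by rcases hs with rfl | rfl <;> simp
  -- the scale of `y`
  have hδ12 : δ ≤ 1 / 2 := by
    rw [hδ]
    have : (1 : ℝ) ≤ (b : ℝ) ^ m0 := one_le_pow₀ hb1.le
    rw [div_le_div_iff₀ (by positivity) (by norm_num)]
    linarith
  obtain ⟨n, hn1, hn2⟩ := exists_nat_pow_near (x := 1 / (2 * y)) (y := (b : ℝ)) (by
    rw [le_div_iff₀ (by positivity)]; linarith) hb1
  have hn1' : (b : ℝ) ^ n * y ≤ 1 / 2 := by
    rw [le_div_iff₀ (by positivity)] at hn1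
    linarith
  have hn2' : 1 / 2 < (b : ℝ) ^ (n + 1) * y := by
    rw [div_lt_iff₀ (by positivity)] at hn2
    linarith
  have hnm : m0 ≤ n := by
    have h2 : (b : ℝ) ^ m0 < (b : ℝ) ^ (n + 1) := by
      refine lt_trans ?_ hn2
      rw [lt_div_iff₀ (by positivity)]
      rw [hδ, lt_div_iff₀ (by positivity)] at hyδ
      linarith
    have := (pow_lt_pow_iff_right₀ hb1).1 h2
    omega
  have hJn : J ≤ n := (le_max_right _ _).trans hnm
  have hn0n : n0 ≤ n := (le_max_left _ _).trans hnm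
  -- the two series
  set a : ℕ → ℝ := fun k => s * (g0 η (((b : ℝ) ^ k * (1 / b + s * y) : ℝ) : UnitAddCircle) -
    g0 η (((b : ℝ) ^ k * (1 / b) : ℝ) : UnitAddCircle)) with ha
  set e : ℕ → ℝ := fun k => s * (h (((b : ℝ) ^ k * (1 / b + s * y) : ℝ) : UnitAddCircle) -
    h (((b : ℝ) ^ k * (1 / b) : ℝ) : UnitAddCircle)) with he
  have hdist : ∀ k : ℕ, dist (((b : ℝ) ^ k * (1 / b + s * y) : ℝ) : UnitAddCircle)
      (((b : ℝ) ^ k * (1 / b) : ℝ) : UnitAddCircle) ≤ (b : ℝ) ^ k * y := by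
    intro k
    rw [dist_eq_norm, ← AddCircle.coe_sub]
    have h2 : (b : ℝ) ^ k * (1 / b + s * y) - (b : ℝ) ^ k * (1 / b) = s * ((b : ℝ) ^ k * y) := by ring
    rw [h2]
    refine (QuotientAddGroup.norm_mk_le_norm (m := s * ((b : ℝ) ^ k * y))).trans ?_
    rw [Real.norm_eq_abs, abs_mul, hs1, one_mul, abs_of_nonneg (by positivity)]
  have haz : ∀ k, 1 ≤ k → a k = s * g0 η ((s * ((b : ℝ) ^ k * y) : ℝ) : UnitAddCircle) := by
    intro k hk
    rw [ha]
    have h2 := coe_pow_mul_inv b hb k hk (s * y)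
    have h3 := coe_pow_mul_inv b hb k hk 0
    rw [add_zero, mul_zero, AddCircle.coe_zero] at h3
    show s * (g0 η _ - g0 η _) = _
    rw [h2, h3, g0_zero, sub_zero, show (b : ℝ) ^ k * (s * y) = s * ((b : ℝ) ^ k * y) by ring]
  have hA : -(y / η) + (J - 1) * β ^ n - β ^ (n + 1) / (1 - β) ≤ ∑' k, β ^ k * a k := by
    refine seqA h0 h1 n J hJn (by omega) a (fun k => ?_) ?_ (fun k hk1 hkn => ?_)
      (fun k hk1 hkn => ?_) (fun k hk => ?_)
    · rw [ha]
      show |s * (g0 η _ - g0 η _)| ≤ 2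
      rw [abs_mul, hs1, one_mul]
      refine (abs_sub _ _).trans ?_
      linarith [abs_g0_le η (((b : ℝ) ^ k * (1 / b + s * y) : ℝ) : UnitAddCircle),
        abs_g0_le η (((b : ℝ) ^ k * (1 / b) : ℝ) : UnitAddCircle)]
    · have h2 : |a 0| ≤ y / η := by
        rw [ha]
        show |s * (g0 η _ - g0 η _)| ≤ y / η
        rw [abs_mul, hs1, one_mul]
        refine (g0_lip hη0 _ _).trans ?_
        have h3 := hdist 0
        rw [pow_zero, one_mul (y : ℝ)] at h3
        rw [pow_zero]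
        calc 1 / η * dist _ _ ≤ 1 / η * y := mul_le_mul_of_nonneg_left h3 (by positivity)
          _ = y / η := by ring
      exact (abs_le.1 h2).1
    · rw [haz k hk1]
      refine g0_sign hη0 (by positivity) ?_ s hs
      refine le_trans ?_ hn1'
      exact mul_le_mul_of_nonneg_right (pow_le_pow_right₀ hb1.le hkn) hy0.le
    · rw [haz k (by omega)]
      refine g0_one hη0 ?_ ?_ s hs
      · -- `b ^ k y ≥ η`
        have h2 : (b : ℝ) ^ (n + 1) ≤ (b : ℝ) ^ J * (b : ℝ) ^ k := by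
          rw [← pow_add]
          exact pow_le_pow_right₀ hb1.le (by omega)
        have h3 : (b : ℝ) ^ (n + 1) * y ≤ (b : ℝ) ^ J * ((b : ℝ) ^ k * y) := by
          rw [← mul_assoc]
          exact mul_le_mul_of_nonneg_right h2 hy0.le
        rw [hη, div_le_iff₀ (by positivity)]
        nlinarith
      · have h2 : (b : ℝ) ^ k * y * b ≤ 1 / 2 := by
          refine le_trans (le_of_eq ?_) (le_trans (mul_le_mul_of_nonneg_right
            (pow_le_pow_right₀ hb1.le (show k + 1 ≤ n by omega)) hy0.le) hn1')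
          rw [pow_succ]; ring
        have h3 : 0 < (b : ℝ) ^ k * y := by positivity
        nlinarith
    · rw [ha]
      show -1 ≤ s * (g0 η _ - g0 η _)
      have h3 := coe_pow_mul_inv b hb k (by omega) 0
      rw [add_zero, mul_zero, AddCircle.coe_zero] at h3
      rw [h3, g0_zero, sub_zero]
      have h4 : |s * g0 η (((b : ℝ) ^ k * (1 / b + s * y) : ℝ) : UnitAddCircle)| ≤ 1 := by
        rw [abs_mul, hs1, one_mul]
        exact abs_g0_le _ _
      exact (abs_le.1 h4).1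
  have hE : |∑' k, β ^ k * e k| ≤ ε * Cst * β ^ n := by
    refine seqB h0 h1 hb0 hγ hε0.le n hy0.le hn1' e (fun k => ?_) (fun k => ?_)
    · rw [he]
      show |s * (h _ - h _)| ≤ 2 * ε
      rw [abs_mul, hs1, one_mul]
      refine (abs_sub _ _).trans ?_
      linarith [hh1 (((b : ℝ) ^ k * (1 / b + s * y) : ℝ) : UnitAddCircle),
        hh1 (((b : ℝ) ^ k * (1 / b) : ℝ) : UnitAddCircle)]
    · rw [he]
      show |s * (h _ - h _)| ≤ _
      rw [abs_mul, hs1, one_mul]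
      exact (hh2 _ _).trans (mul_le_mul_of_nonneg_left (hdist k) hε0.le)
  -- assembling
  have hM1 : ∀ x, |g0 η x + h x| ≤ 1 + ε := fun x =>
    (abs_add_le _ _).trans (add_le_add (abs_g0_le η x) (hh1 x))
  have hW : s * (Wb b β (fun x => g0 η x + h x) (1 / b + s * y) -
      Wb b β (fun x => g0 η x + h x) (1 / b)) = ∑' k, β ^ k * a k + ∑' k, β ^ k * e k := by
    unfold Wb
    rw [← (summable_Wb h0 h1 b _ hM1 (1 / b + s * y)).tsum_sub (summable_Wb h0 h1 b _ hM1 (1 / b)),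
      ← tsum_mul_left, ← Summable.tsum_add]
    · refine tsum_congr fun k => ?_
      rw [ha, he]
      ring
    · have h2 := ((summable_Wb h0 h1 b _ (abs_g0_le η) (1 / b + s * y)).sub
        (summable_Wb h0 h1 b _ (abs_g0_le η) (1 / b))).mul_left s
      refine h2.congr fun k => ?_
      rw [ha]; ring
    · have h2 := ((summable_Wb h0 h1 b _ hh1 (1 / b + s * y)).sub
        (summable_Wb h0 h1 b _ hh1 (1 / b))).mul_left s
      refine h2.congr fun k => ?_
      rw [he]; ring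
  rw [hW]
  have hβn : 0 < β ^ n := pow_pos h0 n
  have h2 : ε * Cst = 1 / 4 := by rw [hε]; field_simp
  rw [h2] at hE
  have h3 : β ^ (n + 1) / (1 - β) = β / (1 - β) * β ^ n := by rw [pow_succ]; ring
  rw [h3] at hA
  -- `y / η ≤ β ^ n / 4`... via `1 / η ≤ γ ^ n / 4`
  have h4 : y / η ≤ 1 / 4 * β ^ n := by
    have h5 : 4 / η ≤ ((b : ℝ) * β) ^ n := hn0.le.trans (pow_le_pow_right₀ hγ.le hn0n)
    rw [mul_pow] at h5
    have h6 : y * (4 / η) ≤ y * ((b : ℝ) ^ n * β ^ n) := mul_le_mul_of_nonneg_left h5 hy0.le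
    have h7 : y * ((b : ℝ) ^ n * β ^ n) ≤ 1 / 2 * β ^ n := by
      calc y * ((b : ℝ) ^ n * β ^ n) = ((b : ℝ) ^ n * y) * β ^ n := by ring
        _ ≤ 1 / 2 * β ^ n := mul_le_mul_of_nonneg_right hn1' hβn.le
    have h8 : y * (4 / η) = 4 * (y / η) := by ring
    linarith
  have h5 : (1 : ℝ) * β ^ n ≤ ((J : ℝ) - 1 - β / (1 - β)) * β ^ n :=
    mul_le_mul_of_nonneg_right (by linarith) hβn.le
  have h6 := (abs_le.1 hE).1
  nlinarith

end Pool.Agent.V11101.WS
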